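import Mathlib

/-!
# STC/TorusDefs: the Strichartz estimate on tori, statements

`RectStr r p`: the scale-invariant estimate on all rectangular tori of dimension `r` at the exponent
`p` (known for `p > 2 + 4/r`: Bourgain-Demeter, Killip-Visan; proved in `BDD`). `GenStr q ell eta p`: the
estimate for the phase `∑ q_j (∑ ℓ_{ji} k_i)² + ∑ η_i k_i`, `ℓ` rational.
-/

open MeasureTheory Complex
open scoped ComplexConjugate

namespace STC

/-- the character `e^{2 π i k x}` of `(ℝ/ℤ)^ι` -/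
noncomputable def chr {ι : Type} [Fintype ι] (k : ι → ℤ) (x : ι → UnitAddCircle) : ℂ :=
  ∏ j, fourier (k j) (x j)

/-- the frequency localised scale-invariant Strichartz estimate on the torus `(ℝ/ℤ)^ι` for the phase
`om`, at the exponent `p` -/
def TorStr {ι : Type} [Fintype ι] (om : (ι → ℤ) → ℝ) (p : ℝ) : Prop :=
  ∀ T0 : ℝ, 0 < T0 → ∃ C : ℝ, 0 < C ∧ ∀ N : ℕ, 1 ≤ N →
    ∀ (s : Finset (ι → ℤ)) (b : (ι → ℤ) → ℂ), (∀ k ∈ s, ∀ j, |(k j : ℝ)| ≤ N) →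
    ∫ t in Set.Icc (0 : ℝ) T0, ∫ x : ι → UnitAddCircle,
      ‖∑ k ∈ s, b k * cexp (-((t * om k : ℝ) : ℂ) * I) * chr k x‖ ^ p ≤
        C * (N : ℝ) ^ ((Fintype.card ι : ℝ) * p / 2 - (Fintype.card ι + 2)) *
          (∑ k ∈ s, ‖b k‖ ^ 2) ^ (p / 2)

/-- all rectangular tori -/
def RectStr (r : ℕ) (p : ℝ) : Prop :=
  ∀ a : Fin r → ℝ, (∀ j, 0 < a j) → TorStr (fun k : Fin r → ℤ => ∑ j, a j * (k j : ℝ) ^ 2) p

/-- the phase with rational `ℓ` -/
noncomputable def genPhase {ι : Type} [Fintype ι] (q : ι → ℝ) (ell : ι → ι → ℚ) (eta : ι → ℝ)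
    (k : ι → ℤ) : ℝ :=
  ∑ j, q j * (∑ i, (ell j i : ℝ) * k i) ^ 2 + ∑ i, eta i * k i

end STC
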