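import Pool.Agent.STC.LieL

/-!
# STC/LieGen : a closed connected subgroup of `U(N)` is topologically generated by `exp (lieSet K)`

Uses only `mem_lieSet_of_tendsto` (main lemma (L) of `STC/LieL`).
PROOF of `le_of_exp_mem`. Let `H' = H ⊓ K` (closed subgroup of the compact group `U(N)`, it contains
`exp (lieSet K)`). Claim: `H'` is relatively open in `K`. It is enough to find `δ > 0` such that all
`u ∈ K` with `‖u - 1‖ < δ` are in `H'` (then for `h ∈ H'` all `v ∈ K` with `‖v - h‖ < δ` are in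
`H'`, as `‖h⁻¹ v - 1‖ = ‖v - h‖`). If there is no such `δ` there are
`u n ∈ K`, `u n ∉ H'`, `u n → 1`. `H'` is compact, so there is `h n ∈ H'` minimising
`‖h⁻¹ u n - 1‖`; put `w n = (h n)⁻¹ (u n) ∈ K`, `ε n = ‖w n - 1‖`. Then `w n ∉ H'`, so `ε n > 0`,
`ε n ≤ ‖u n - 1‖ → 0` and `ε n ≤ ‖h (w n) - 1‖` for all `h ∈ H'`. The vectors `(w n - 1) / ε n` have
norm one, so along a subsequence they converge to some `Y` (finite dimension), and `Y ∈ lieSet K`
by (L). Now `h = exp (- ε n Y) ∈ H'` and `h (w n) - 1 = (exp (- ε n Y) - 1 + ε n Y) +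
exp (- ε n Y) ((w n - 1) - ε n Y) + ε n (exp (- ε n Y) - 1) Y = o(ε n)`, a contradiction with
`ε n ≤ ‖h (w n) - 1‖`. So `H'` is open and closed in the (pre)connected set `K`, and contains
`1`, whence `K ≤ H'`.
-/

namespace STC

open Filter Topology
open scoped Matrix.Norms.L2Operator

variable {N : ℕ} {K : Subgroup (UG N)}

private theorem compact_UG : CompactSpace (UG N) := by
  have : ProperSpace (Mat N) := FiniteDimensional.proper ℂ (Mat N)
  have h : IsCompact (Matrix.unitaryGroup (Fin N) ℂ : Set (Mat N)) := by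
    apply Metric.isCompact_of_isClosed_isBounded
    · have h1 : (Matrix.unitaryGroup (Fin N) ℂ : Set (Mat N)) =
          {U | star U * U = 1} ∩ {U | U * star U = 1} := by
        ext U
        exact Unitary.mem_iff
      rw [h1]
      exact (isClosed_eq (by fun_prop) continuous_const).inter
        (isClosed_eq (by fun_prop) continuous_const)
    · rw [Metric.isBounded_iff_subset_closedBall 0]
      refine ⟨‖(1 : Mat N)‖, fun U hU => ?_⟩
      rw [mem_closedBall_zero_iff]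
      have h2 := CStarRing.norm_mem_unitary_mul (1 : Mat N) hU
      rw [mul_one] at h2
      exact h2.le
  exact isCompact_iff_compactSpace.1 h

private theorem smul_mem_lieSet {Y : Mat N} (hY : Y ∈ lieSet K) (s : ℝ) : s • Y ∈ lieSet K := by
  intro t
  obtain ⟨u, hu, hu'⟩ := hY (t * s)
  exact ⟨u, hu, by rw [hu', smul_smul]⟩

/-- the local claim -/
private theorem local_claim (hK : IsClosed (K : Set (UG N)))
    (H : Subgroup (UG N)) (hH : IsClosed (H : Set (UG N)))
    (hexp : ∀ X ∈ lieSet K, ∀ u : UG N, (u : Mat N) = NormedSpace.exp X → u ∈ H) :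
    ∃ δ > 0, ∀ u ∈ K, ‖(u : Mat N) - 1‖ < δ → u ∈ H := by
  by_contra hcon
  push Not at hcon
  have : CompactSpace (UG N) := compact_UG
  have : ProperSpace (Mat N) := FiniteDimensional.proper ℂ (Mat N)
  have hpos : ∀ n : ℕ, (0 : ℝ) < 1 / ((n : ℝ) + 1) := fun n => by positivity
  choose u huK hu1 huH using fun n : ℕ => hcon (1 / ((n : ℝ) + 1)) (hpos n)
  have hcomp : IsCompact ((H : Set (UG N)) ∩ K) := (hH.inter hK).isCompact
  have hne : ((H : Set (UG N)) ∩ K).Nonempty := ⟨1, H.one_mem, K.one_mem⟩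
  have hmin : ∀ n, ∃ h ∈ ((H : Set (UG N)) ∩ K), ∀ h' ∈ ((H : Set (UG N)) ∩ K),
      ‖((h⁻¹ * u n : UG N) : Mat N) - 1‖ ≤ ‖((h'⁻¹ * u n : UG N) : Mat N) - 1‖ := by
    intro n
    have hc : Continuous fun h : UG N => ‖((h⁻¹ * u n : UG N) : Mat N) - 1‖ := by
      have h1 : Continuous fun h : UG N => ((h⁻¹ * u n : UG N) : Mat N) :=
        continuous_subtype_val.comp (continuous_inv.mul continuous_const)
      exact (h1.sub continuous_const).norm
    obtain ⟨h, hh, hh'⟩ := hcomp.exists_isMinOn hne hc.continuousOn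
    exact ⟨h, hh, fun h' hh1 => hh' hh1⟩
  choose h hh hhmin using hmin
  set w : ℕ → UG N := fun n => (h n)⁻¹ * u n with hw
  have hwK : ∀ n, w n ∈ K := fun n => K.mul_mem (K.inv_mem (hh n).2) (huK n)
  have hwH : ∀ n, w n ∉ H := by
    intro n hn
    apply huH n
    have h1 : u n = h n * w n := by rw [hw]; group
    rw [h1]
    exact H.mul_mem (hh n).1 hn
  set ε : ℕ → ℝ := fun n => ‖(w n : Mat N) - 1‖ with hεdef
  have hε : ∀ n, 0 < ε n := by
    intro n
    rw [hεdef]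
    apply norm_pos_iff.2
    intro h1
    apply hwH n
    have h2 : w n = 1 := by
      apply Subtype.ext
      exact sub_eq_zero.1 h1
    rw [h2]
    exact H.one_mem
  have hmin' : ∀ n, ∀ g ∈ ((H : Set (UG N)) ∩ K), ε n ≤ ‖((g * w n : UG N) : Mat N) - 1‖ := by
    intro n g hg
    have h1 := hhmin n (h n * g⁻¹) ⟨H.mul_mem (hh n).1 (H.inv_mem hg.1),
      K.mul_mem (hh n).2 (K.inv_mem hg.2)⟩
    have h2 : (h n * g⁻¹)⁻¹ * u n = g * w n := by rw [hw]; group
    rw [h2] at h1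
    exact h1
  have hε0 : Tendsto ε atTop (𝓝 0) := by
    refine squeeze_zero (fun n => (hε n).le) (fun n => ?_) tendsto_one_div_add_atTop_nhds_zero_nat
    have h1 := hhmin n 1 ⟨H.one_mem, K.one_mem⟩
    rw [inv_one, one_mul] at h1
    exact h1.trans (hu1 n).le
  -- the normalised vectors
  set Y : ℕ → Mat N := fun n => (ε n)⁻¹ • ((w n : Mat N) - 1) with hYdef
  have hYn : ∀ n, ‖Y n‖ = 1 := by
    intro n
    rw [hYdef]
    change ‖(ε n)⁻¹ • ((w n : Mat N) - 1)‖ = 1
    rw [norm_smul, Real.norm_eq_abs, abs_of_pos (inv_pos.2 (hε n))]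
    exact inv_mul_cancel₀ (hε n).ne'
  obtain ⟨Z, -, φ, hφ, hZ⟩ := tendsto_subseq_of_bounded (x := Y) (s := Metric.closedBall 0 1)
    Metric.isBounded_closedBall (fun n => by
      rw [mem_closedBall_zero_iff]
      exact (hYn n).le)
  have hε' : Tendsto (ε ∘ φ) atTop (𝓝 0) := hε0.comp hφ.tendsto_atTop
  have hZL : Z ∈ lieSet K :=
    mem_lieSet_of_tendsto hK (w ∘ φ) (fun n => hwK _) (ε ∘ φ) (fun n => hε _) hε' Z hZ
  -- the exponentials
  have hE : ∀ n, ∃ g ∈ ((H : Set (UG N)) ∩ K), (g : Mat N) = NormedSpace.exp ((-ε n) • Z) := by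
    intro n
    obtain ⟨g, hg, hg'⟩ := hZL (-ε n)
    exact ⟨g, ⟨hexp _ (smul_mem_lieSet hZL (-ε n)) g hg', hg⟩, hg'⟩
  choose g hg hg' using hE
  have hbound : ∀ n, 1 ≤ (ε n)⁻¹ * ‖NormedSpace.exp ((-ε n) • Z) - 1 - (-ε n) • Z‖ +
      ‖Y n - Z‖ + ‖NormedSpace.exp ((-ε n) • Z) - 1‖ * ‖Z‖ := by
    intro n
    have h1 := hmin' n (g n) (hg n)
    have h2 : ((g n * w n : UG N) : Mat N) - 1 =
        (NormedSpace.exp ((-ε n) • Z) - 1 - (-ε n) • Z) +
          (g n : Mat N) * ((w n : Mat N) - 1 - ε n • Z) +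
          ε n • ((NormedSpace.exp ((-ε n) • Z) - 1) * Z) := by
      rw [← hg' n]
      change (g n : Mat N) * (w n : Mat N) - 1 = _
      rw [neg_smul, mul_sub, mul_sub, mul_one, mul_smul_comm, sub_mul, one_mul, smul_sub]
      abel
    have h3 : ‖((g n * w n : UG N) : Mat N) - 1‖ ≤
        ‖NormedSpace.exp ((-ε n) • Z) - 1 - (-ε n) • Z‖ +
          ‖(w n : Mat N) - 1 - ε n • Z‖ + ε n * (‖NormedSpace.exp ((-ε n) • Z) - 1‖ * ‖Z‖) := by
      rw [h2]
      refine (norm_add_le _ _).trans (add_le_add ((norm_add_le _ _).trans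
        (add_le_add le_rfl ?_)) ?_)
      · exact (CStarRing.norm_coe_unitary_mul (g n) _).le
      · rw [norm_smul, Real.norm_eq_abs, abs_of_pos (hε n)]
        exact mul_le_mul_of_nonneg_left (norm_mul_le _ _) (hε n).le
    have h4 : ‖Y n - Z‖ = (ε n)⁻¹ * ‖(w n : Mat N) - 1 - ε n • Z‖ := by
      have h5 : Y n - Z = (ε n)⁻¹ • ((w n : Mat N) - 1 - ε n • Z) := by
        rw [hYdef, smul_sub _ ((w n : Mat N) - 1) (ε n • Z), smul_smul,
          inv_mul_cancel₀ (hε n).ne', one_smul]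
      rw [h5, norm_smul, Real.norm_eq_abs, abs_of_pos (inv_pos.2 (hε n))]
    rw [h4]
    have h6 := h1.trans h3
    have h7 := mul_le_mul_of_nonneg_left h6 (inv_pos.2 (hε n)).le
    rw [inv_mul_cancel₀ (hε n).ne'] at h7
    refine h7.trans (le_of_eq ?_)
    have h8 := (hε n).ne'
    field_simp
  -- the limit
  have hZ0 : Tendsto (fun n => (-ε (φ n)) • Z) atTop (𝓝 0) := by
    have h1 : Tendsto (fun n => (-(ε ∘ φ) n)) atTop (𝓝 (-0)) := hε'.neg
    have h2 := h1.smul_const Z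
    rw [neg_zero, zero_smul] at h2
    exact h2
  have hlim1 : Tendsto (fun n => (ε (φ n))⁻¹ *
      ‖NormedSpace.exp ((-ε (φ n)) • Z) - 1 - (-ε (φ n)) • Z‖) atTop (𝓝 0) := by
    have h1 := (hasFDerivAt_exp_zero (𝕂 := ℂ) (𝔸 := Mat N)).isLittleO
    simp only [sub_zero, NormedSpace.exp_zero] at h1
    have h2 := (h1.comp_tendsto hZ0)
    rw [Asymptotics.isLittleO_iff] at h2
    rw [Metric.tendsto_atTop]
    intro c hc
    have hc' : 0 < c / 2 / (‖Z‖ + 1) := by positivity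
    obtain ⟨n0, hn0⟩ := Filter.eventually_atTop.1 (h2 hc')
    refine ⟨n0, fun n hn => ?_⟩
    have h3 := hn0 n hn
    change ‖NormedSpace.exp ((-ε (φ n)) • Z) - 1 - (-ε (φ n)) • Z‖ ≤
      c / 2 / (‖Z‖ + 1) * ‖(-ε (φ n)) • Z‖ at h3
    rw [norm_smul (-ε (φ n)), Real.norm_eq_abs, abs_neg, abs_of_pos (hε _)] at h3
    rw [Real.dist_eq, sub_zero, abs_of_nonneg (mul_nonneg (inv_pos.2 (hε _)).le (norm_nonneg _))]
    calc (ε (φ n))⁻¹ * ‖NormedSpace.exp ((-ε (φ n)) • Z) - 1 - (-ε (φ n)) • Z‖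
        ≤ (ε (φ n))⁻¹ * (c / 2 / (‖Z‖ + 1) * (ε (φ n) * ‖Z‖)) :=
          mul_le_mul_of_nonneg_left h3 (inv_pos.2 (hε _)).le
      _ = c / 2 * (‖Z‖ / (‖Z‖ + 1)) := by
          have h8 := (hε (φ n)).ne'
          field_simp
      _ ≤ c / 2 * 1 := by
          apply mul_le_mul_of_nonneg_left _ (half_pos hc).le
          rw [div_le_one (by positivity)]
          linarith
      _ < c := by linarith
  have hlim2 : Tendsto (fun n => ‖Y (φ n) - Z‖) atTop (𝓝 0) :=
    tendsto_iff_norm_sub_tendsto_zero.1 hZ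
  have hlim3 : Tendsto (fun n => ‖NormedSpace.exp ((-ε (φ n)) • Z) - 1‖ * ‖Z‖) atTop (𝓝 0) := by
    have h1 : Tendsto (fun n => NormedSpace.exp ((-ε (φ n)) • Z)) atTop (𝓝 1) := by
      have h2 : Tendsto NormedSpace.exp (𝓝 (0 : Mat N)) (𝓝 (NormedSpace.exp 0)) :=
        (hasFDerivAt_exp_zero (𝕂 := ℂ) (𝔸 := Mat N)).continuousAt
      rw [NormedSpace.exp_zero] at h2
      exact h2.comp hZ0
    have h3 := (tendsto_iff_norm_sub_tendsto_zero.1 h1).mul_const ‖Z‖
    rwa [zero_mul] at h3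
  have hlim := (hlim1.add hlim2).add hlim3
  rw [add_zero, add_zero] at hlim
  have h9 : (1 : ℝ) ≤ 0 := ge_of_tendsto' hlim (fun n => hbound (φ n))
  linarith

/-- `K` connected and closed: every closed subgroup containing `exp (lieSet K)` contains `K`. -/
theorem le_of_exp_mem (hK : IsClosed (K : Set (UG N))) (hc : IsPreconnected (K : Set (UG N)))
    (H : Subgroup (UG N)) (hH : IsClosed (H : Set (UG N)))
    (hexp : ∀ X ∈ lieSet K, ∀ u : UG N, (u : Mat N) = NormedSpace.exp X → u ∈ H) : K ≤ H := by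
  obtain ⟨δ, hδ, hloc⟩ := local_claim hK H hH hexp
  intro v hv
  by_contra hvH
  -- the open set of all points near `H ∩ K`
  set O : Set (UG N) := ⋃ h ∈ ((H : Set (UG N)) ∩ K), {x | ‖(x : Mat N) - (h : Mat N)‖ < δ} with hO
  have hOopen : IsOpen O := by
    refine isOpen_biUnion fun h _ => isOpen_lt ?_ continuous_const
    exact (continuous_subtype_val.sub continuous_const).norm
  have hOK : ∀ x ∈ O, x ∈ K → x ∈ H := by
    intro x hx hxK
    obtain ⟨h, hh, hxh⟩ := Set.mem_iUnion₂.1 hx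
    have h1 : h⁻¹ * x ∈ H := by
      apply hloc _ (K.mul_mem (K.inv_mem hh.2) hxK)
      have h2 : ((h⁻¹ * x : UG N) : Mat N) - 1 =
          ((h⁻¹ : UG N) : Mat N) * ((x : Mat N) - (h : Mat N)) := by
        rw [mul_sub]
        have h3 : ((h⁻¹ : UG N) : Mat N) * (h : Mat N) = 1 := by
          have h4 : ((h⁻¹ * h : UG N) : Mat N) = 1 := by
            rw [inv_mul_cancel]
            rfl
          exact h4
        rw [h3]
        rfl
      rw [h2, CStarRing.norm_coe_unitary_mul]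
      exact hxh
    have h5 : x = h * (h⁻¹ * x) := by group
    rw [h5]
    exact H.mul_mem hh.1 h1
  have hcov : (K : Set (UG N)) ⊆ O ∪ (H : Set (UG N))ᶜ := by
    intro x hx
    by_cases hxH : x ∈ H
    · left
      refine Set.mem_iUnion₂.2 ⟨x, ⟨hxH, hx⟩, ?_⟩
      change ‖(x : Mat N) - (x : Mat N)‖ < δ
      rw [sub_self, norm_zero]
      exact hδ
    · right
      exact hxH
  obtain ⟨x, hxK, hxO, hxH⟩ := hc O (H : Set (UG N))ᶜ hOopen hH.isOpen_compl hcov
    ⟨1, K.one_mem, (hcov K.one_mem).resolve_right (fun h => h H.one_mem)⟩ ⟨v, hv, hvH⟩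
  exact hxH (hOK x hxO hxK)

end STC
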