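import Pool.Agent.STC.DerLin
import Pool.Agent.STC.LieGen

/-!
# STC/DerInv : invariance under the derivations and invariance under translations

`D_of_R`: let `W` be invariant under right translations, `f ∈ W`. The span `V ≤ W` of the right
translates of `f` is finite dimensional (`alg_finite`), so closed for pointwise convergence: it is
enough to see that a pointwise limit `g ∈ A` of elements of `V` is in `V` (choose finitely many points
`z_1, …, z_n` such that evaluation at them is injective on the finite dimensional space `V + ℂ g`; or: the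
coordinates of `(ex(1/n)-translate of f - f) n` in a basis converge; or: work in `C(CG K, ℂ)` or in
`CG K → ℂ` with the product topology, a finite dimensional subspace of a Hausdorff topological vector
space is closed: `Submodule.closed_of_finiteDimensional`). And `DX f` is the pointwise limit of
`n (R (ex (1/n)) f - f)`. Then `DD x f` is a combination of the `DX (X_i) f`.

`R_of_D`: let `W` be invariant under all `DD x`, `f ∈ W`. By `alg_finite` there is a finite
dimensional two-sided invariant `V ∋ f`, it is invariant under `DD x` by `D_of_R`; so `W' = W ⊓ V` is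
finite dimensional and invariant under all `DD x`, `f ∈ W'`. Let `T` be the restriction of `DX hX` to
`W'` (`X` in the Lie algebra). For `g ∈ W'`: `R (ex s) g = exp (s T) g`: the function
`s ↦ (exp (s T) g)(z ex(-s))` has derivative `0` (`hasDerivAt_dfun` and the derivative of `exp (s T)`)
so equals `g z`. ALTERNATIVELY: use uniqueness for linear ODE, or the Taylor series. So `W'` is
invariant under `R (ex s)`. The set `H` of all `u : UG N` which are in `K` with `R u W' ≤ W'` and
`R u⁻¹ W' ≤ W'` is a closed subgroup (closedness: `W'` is closed for pointwise convergence as above),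
it contains all `exp X`, so `K ≤ H` by `le_of_exp_mem` (`K` connected).

`taylor_sub`: `R z f ∈ W` by `R_of_D`, so `f z = (R z f) 1 = 0`.
-/

open MeasureTheory
open scoped ComplexConjugate

namespace STC

/-- a linear differential equation with constant coefficients -/
private theorem ode_exp {E : Type*} [NormedAddCommGroup E] [NormedSpace ℂ E] [CompleteSpace E]
    (T : E →L[ℂ] E) (v : ℝ → E) (hv : ∀ s, HasDerivAt v (T (v s)) s) (s : ℝ) :
    v s = NormedSpace.exp ((s : ℂ) • T) (v 0) := by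
  have he : ∀ s : ℝ, HasDerivAt (fun u : ℝ => NormedSpace.exp ((-(u : ℂ)) • T))
      (-(NormedSpace.exp ((-(s : ℂ)) • T) * T)) s := by
    intro s
    have h0 : HasDerivAt (fun u : ℝ => -(u : ℂ)) (-1) s :=
      (Complex.ofRealCLM.hasDerivAt (x := s)).neg
    have h1 := HasDerivAt.scomp (𝕜 := ℝ) (𝕜' := ℂ) s
      (hasDerivAt_exp_smul_const (𝕂 := ℂ) T (-(s : ℂ))) h0
    rw [neg_one_smul] at h1
    exact h1
  have hw : ∀ s : ℝ, HasDerivAt (fun u : ℝ => NormedSpace.exp ((-(u : ℂ)) • T) (v u)) 0 s := by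
    intro s
    let R : (E →L[ℂ] E) →L[ℝ] (E →L[ℝ] E) := ContinuousLinearMap.restrictScalarsL ℂ E E ℝ ℝ
    have hc := HasDerivAt.clm_apply (R.hasFDerivAt.comp_hasDerivAt s (he s)) (hv s)
    have h2 : R (-(NormedSpace.exp ((-(s : ℂ)) • T) * T)) (v s) +
        R (NormedSpace.exp ((-(s : ℂ)) • T)) (T (v s)) = 0 := by
      show -(NormedSpace.exp ((-(s : ℂ)) • T) (T (v s))) +
        NormedSpace.exp ((-(s : ℂ)) • T) (T (v s)) = 0
      exact neg_add_cancel _
    rw [Function.comp_apply, h2] at hc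
    exact hc
  have hconst : NormedSpace.exp ((-(s : ℂ)) • T) (v s) = v 0 := by
    have h1 := is_const_of_deriv_eq_zero (f := fun u : ℝ => NormedSpace.exp ((-(u : ℂ)) • T) (v u))
      (fun s => (hw s).differentiableAt) (fun s => (hw s).deriv) s 0
    simp only [Complex.ofReal_zero, neg_zero, zero_smul, NormedSpace.exp_zero] at h1
    exact h1
  rw [← hconst]
  have h3 : NormedSpace.exp ((s : ℂ) • T) * NormedSpace.exp ((-(s : ℂ)) • T) = 1 := by
    have : NormedAlgebra ℚ (E →L[ℂ] E) := NormedAlgebra.restrictScalars ℚ ℂ _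
    have h4 : Commute ((s : ℂ) • T) ((-(s : ℂ)) • T) :=
      ((Commute.refl T).smul_left _).smul_right _
    rw [← NormedSpace.exp_add_of_commute h4, ← add_smul, add_neg_cancel, zero_smul,
      NormedSpace.exp_zero]
  have h4 : v s = (NormedSpace.exp ((s : ℂ) • T) * NormedSpace.exp ((-(s : ℂ)) • T)) (v s) := by
    rw [h3]
    rfl
  exact h4

namespace CG

variable {N : ℕ} {K : ClosedSubgroup (UG N)} {d : ℕ} (B : LieBasis K.toSubgroup K.isClosed' d)

/-- a finite dimensional space of representative functions is closed for pointwise convergence -/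
theorem mem_of_tendsto (W : Submodule ℂ (rep K).A) [FiniteDimensional ℂ W] (u : ℕ → (rep K).A)
    (hu : ∀ n, u n ∈ W) (g : (rep K).A)
    (hg : ∀ z, Filter.Tendsto (fun n => (u n).1 z) Filter.atTop (nhds (g.1 z))) : g ∈ W := by
  let φ : (rep K).A →ₗ[ℂ] (CG K → ℂ) := (rep K).A.toSubmodule.subtype
  have hφ : ∀ f : (rep K).A, φ f = f.1 := fun f => rfl
  have hcl : IsClosed ((W.map φ : Submodule ℂ (CG K → ℂ)) : Set (CG K → ℂ)) :=
    Submodule.closed_of_finiteDimensional _
  have hmem : g.1 ∈ (W.map φ : Submodule ℂ (CG K → ℂ)) := by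
    have ht : Filter.Tendsto (fun n => (u n).1) Filter.atTop (nhds g.1) :=
      tendsto_pi_nhds.2 hg
    exact hcl.mem_of_tendsto ht (Filter.Eventually.of_forall fun n =>
      Submodule.mem_map.2 ⟨u n, hu n, rfl⟩)
  obtain ⟨w, hw, hw'⟩ := Submodule.mem_map.1 hmem
  have : w = g := Subtype.ext hw'
  rwa [← this]

private theorem R_one (f : (rep K).A) : (rep K).R 1 f = f := by
  apply Subtype.ext
  funext z
  rw [RepAlg.R_apply, mul_one]

private theorem R_mul (x y : CG K) (f : (rep K).A) :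
    (rep K).R (x * y) f = (rep K).R x ((rep K).R y f) := by
  apply Subtype.ext
  funext z
  rw [RepAlg.R_apply, RepAlg.R_apply, RepAlg.R_apply, mul_assoc]

private theorem DX_mem_of_R {X : Mat N} (hX : X ∈ lieSet K.toSubgroup)
    (V : Submodule ℂ (rep K).A) [FiniteDimensional ℂ V]
    (hV : ∀ y, ∀ f ∈ V, (rep K).R y f ∈ V) (f : (rep K).A) (hf : f ∈ V) : DX hX f ∈ V := by
  let t : ℕ → ℝ := fun n => 1 / ((n : ℝ) + 1)
  have ht0 : ∀ n, t n ≠ 0 := fun n => by
    have : (0 : ℝ) < 1 / ((n : ℝ) + 1) := by positivity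
    exact this.ne'
  have htt : Filter.Tendsto t Filter.atTop (nhdsWithin 0 {0}ᶜ) :=
    tendsto_nhdsWithin_iff.2 ⟨tendsto_one_div_add_atTop_nhds_zero_nat,
      Filter.Eventually.of_forall ht0⟩
  refine mem_of_tendsto V
    (fun n => (((t n)⁻¹ : ℝ) : ℂ) • ((rep K).R (ex hX (t n)) f - f))
    (fun n => V.smul_mem _ (V.sub_mem (hV _ f hf) hf)) (DX hX f) (fun z => ?_)
  have hd := hasDerivAt_dfun hX f.1 f.2 z 0
  rw [ex_zero, mul_one] at hd
  have h1 := (hasDerivAt_iff_tendsto_slope_zero.1 hd).comp htt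
  have h2 : (fun n => ((((t n)⁻¹ : ℝ) : ℂ) • ((rep K).R (ex hX (t n)) f - f)).1 z) =
      (fun s : ℝ => s⁻¹ • (f.1 (z * ex hX (0 + s)) - f.1 (z * ex hX 0))) ∘ t := by
    funext n
    have h3 : ((((t n)⁻¹ : ℝ) : ℂ) • ((rep K).R (ex hX (t n)) f - f)).1 z =
        (((t n)⁻¹ : ℝ) : ℂ) * (f.1 (z * ex hX (t n)) - f.1 z) := rfl
    rw [h3, Function.comp_apply, zero_add, ex_zero, mul_one, Complex.real_smul]
  rw [h2, DX_apply]
  exact h1

theorem D_of_R (W : Submodule ℂ (rep K).A) (hW : ∀ y, ∀ f ∈ W, (rep K).R y f ∈ W)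
    (x : Fin d → ℂ) (f : (rep K).A) (hf : f ∈ W) : DD B x f ∈ W := by
  obtain ⟨W0, hfin, hf0, -, hR0⟩ := alg_finite (K := K) f
  have hfin' : FiniteDimensional ℂ (W ⊓ W0 : Submodule ℂ (rep K).A) :=
    Submodule.finiteDimensional_inf_right W W0
  have hV : ∀ y, ∀ g ∈ W ⊓ W0, (rep K).R y g ∈ W ⊓ W0 := fun y g hg =>
    ⟨hW y g hg.1, hR0 g hg.2 y⟩
  have h1 : ∀ i, DX (B.mat_mem i) f ∈ W ⊓ W0 := fun i =>
    DX_mem_of_R (B.mat_mem i) (W ⊓ W0) hV f ⟨hf, hf0⟩
  have h2 : DD B x f = ∑ i, x i • DX (B.mat_mem i) f := by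
    have h3 : DD B x = ∑ i, x i • DX (B.mat_mem i) := rfl
    have h4 := map_sum (Derivation.coeFnAddMonoidHom (R := ℂ) (A := (rep K).A) (M := (rep K).A))
      (fun i => x i • DX (B.mat_mem i)) Finset.univ
    have h5 := congrFun h4 f
    rw [Finset.sum_apply] at h5
    rw [h3]
    exact h5
  rw [h2]
  exact W.sum_mem fun i _ => W.smul_mem _ (h1 i).1

theorem R_ex_mem (W : Submodule ℂ (rep K).A) [FiniteDimensional ℂ W] {X : Mat N}
    (hX : X ∈ lieSet K.toSubgroup) (hW : ∀ f ∈ W, DX hX f ∈ W) (s : ℝ) (f : (rep K).A)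
    (hf : f ∈ W) : (rep K).R (ex hX s) f ∈ W := by
  classical
  have hfree : Module.Free ℂ W := Module.Free.of_divisionRing ℂ W
  let n := Module.finrank ℂ W
  let b : Module.Basis (Fin n) ℂ W := Module.finBasis ℂ W
  -- coefficients of the derivatives
  let a : Fin n → Fin n → ℂ := fun j k => b.repr ⟨DX hX (b j).1, hW _ (b j).2⟩ k
  have ha : ∀ j, DX hX (b j).1 = ∑ k, a j k • (b k).1 := by
    intro j
    have h1 := b.sum_repr ⟨DX hX (b j).1, hW _ (b j).2⟩
    have h2 : ((∑ k, a j k • b k : W) : (rep K).A) = DX hX (b j).1 :=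
      congrArg (fun w : W => (w : (rep K).A)) h1
    rw [← h2, Submodule.coe_sum]
    rfl
  let T0 : (Fin n → ℂ) →ₗ[ℂ] (Fin n → ℂ) :=
    { toFun := fun v j => ∑ k, a j k * v k
      map_add' := by
        intro v w
        funext j
        simp only [Pi.add_apply, mul_add, Finset.sum_add_distrib]
      map_smul' := by
        intro c v
        funext j
        simp only [Pi.smul_apply, smul_eq_mul, RingHom.id_apply, Finset.mul_sum]
        exact Finset.sum_congr rfl fun k _ => by ring }
  let T : (Fin n → ℂ) →L[ℂ] (Fin n → ℂ) := LinearMap.toContinuousLinearMap T0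
  have hT : ∀ v j, T v j = ∑ k, a j k * v k := fun v j => rfl
  have key : ∀ z : CG K, (fun j => (b j).1.1 (z * ex hX s)) =
      NormedSpace.exp ((s : ℂ) • T) (fun j => (b j).1.1 z) := by
    intro z
    let v : ℝ → (Fin n → ℂ) := fun s j => (b j).1.1 (z * ex hX s)
    have hv : ∀ s, HasDerivAt v (T (v s)) s := by
      intro s
      rw [hasDerivAt_pi]
      intro j
      have h1 := hasDerivAt_dfun hX (b j).1.1 (b j).1.2 z s
      have h2 : dfun hX (b j).1.1 (z * ex hX s) = T (v s) j := by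
        rw [← DX_apply hX (b j).1, ha j, hT]
        have h3 : ∀ w : CG K, (∑ k, a j k • (b k).1 : (rep K).A).1 w =
            ∑ k, a j k * (b k).1.1 w := by
          intro w
          have h4 : ((∑ k, a j k • (b k).1 : (rep K).A) : CG K → ℂ) =
              ∑ k, a j k • ((b k).1 : CG K → ℂ) := by
            rw [AddSubmonoidClass.coe_finsetSum]
            rfl
          have h5 := congrFun h4 w
          rw [Finset.sum_apply] at h5
          exact h5
        exact h3 _
      rw [h2] at h1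
      exact h1
    have h1 := ode_exp T v hv s
    have hv0 : v 0 = fun j => (b j).1.1 z := by
      funext j
      show (b j).1.1 (z * ex hX 0) = _
      rw [ex_zero, mul_one]
    rw [hv0] at h1
    exact h1
  -- the translates of the basis vectors
  let M : Fin n → Fin n → ℂ := fun j k => NormedSpace.exp ((s : ℂ) • T) (Pi.single k 1) j
  have hM : ∀ j, (rep K).R (ex hX s) (b j).1 = ∑ k, M j k • (b k).1 := by
    intro j
    apply Subtype.ext
    funext z
    have h1 := congrFun (key z) j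
    have h4 : ((∑ k, M j k • (b k).1 : (rep K).A) : CG K → ℂ) =
        ∑ k, M j k • ((b k).1 : CG K → ℂ) := by
      rw [AddSubmonoidClass.coe_finsetSum]
      rfl
    have h5 := congrFun h4 z
    rw [Finset.sum_apply] at h5
    have h6 : (fun j => (b j).1.1 z) = ∑ k, (b k).1.1 z • (Pi.single k 1 : Fin n → ℂ) := by
      funext i
      rw [Finset.sum_apply]
      simp [Pi.single_apply]
    rw [RepAlg.R_apply]
    refine (h1.trans ?_).trans h5.symm
    rw [h6, map_sum, Finset.sum_apply]
    refine Finset.sum_congr rfl fun k _ => ?_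
    rw [map_smul]
    simp only [Pi.smul_apply, smul_eq_mul, M]
    exact mul_comm _ _
  have hb : ∀ j, (rep K).R (ex hX s) (b j).1 ∈ W := fun j => by
    rw [hM j]
    exact W.sum_mem fun k _ => W.smul_mem _ (b k).2
  have h7 : f = ∑ j, b.repr ⟨f, hf⟩ j • (b j).1 := by
    have h1 := b.sum_repr ⟨f, hf⟩
    have h2 : ((∑ j, b.repr ⟨f, hf⟩ j • b j : W) : (rep K).A) = f :=
      congrArg (fun w : W => (w : (rep K).A)) h1
    conv_lhs => rw [← h2, Submodule.coe_sum]
    rfl
  rw [h7, map_sum]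
  refine W.sum_mem fun j _ => ?_
  rw [map_smul]
  exact W.smul_mem _ (hb j)

/-- an element of the group from a unitary matrix -/
private def mk (u : UG N) (h : u ∈ K.toSubgroup) : CG K := ⟨u, h⟩

private theorem mk_mul {u v : UG N} (hu : u ∈ K.toSubgroup) (hv : v ∈ K.toSubgroup) :
    mk (u * v) (K.toSubgroup.mul_mem hu hv) = mk u hu * mk v hv := rfl

private theorem mk_one : mk (1 : UG N) K.toSubgroup.one_mem = (1 : CG K) := rfl

private theorem mk_inv {u : UG N} (hu : u ∈ K.toSubgroup) :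
    mk u⁻¹ (K.toSubgroup.inv_mem hu) = (mk u hu)⁻¹ := rfl

private theorem tendsto_R (g : (rep K).A) {u : ℕ → CG K} {v : CG K}
    (hu : Filter.Tendsto u Filter.atTop (nhds v)) (z : CG K) :
    Filter.Tendsto (fun n => ((rep K).R (u n) g).1 z) Filter.atTop
      (nhds (((rep K).R v g).1 z)) := by
  simp only [RepAlg.R_apply]
  have h1 : Continuous g.1 := (rep K).cont g.1 g.2
  exact (h1.comp (continuous_const.mul continuous_id)).continuousAt.tendsto.comp hu

theorem R_of_D (hc : IsPreconnected (K.toSubgroup : Set (UG N))) (W : Submodule ℂ (rep K).A)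
    (hW : ∀ x, ∀ f ∈ W, DD B x f ∈ W) (y : CG K) (f : (rep K).A) (hf : f ∈ W) :
    (rep K).R y f ∈ W := by
  obtain ⟨W0, hfin, hf0, -, hR0⟩ := alg_finite (K := K) f
  have hfin' : FiniteDimensional ℂ (W ⊓ W0 : Submodule ℂ (rep K).A) :=
    Submodule.finiteDimensional_inf_right W W0
  have hD0 : ∀ x, ∀ g ∈ W0, DD B x g ∈ W0 := fun x g hg =>
    D_of_R B W0 (fun y g hg => hR0 g hg y) x g hg
  have hD : ∀ x, ∀ g ∈ W ⊓ W0, DD B x g ∈ W ⊓ W0 := fun x g hg =>
    ⟨hW x g hg.1, hD0 x g hg.2⟩
  have hDX : ∀ (X : Mat N) (hX : X ∈ lieSet K.toSubgroup), ∀ g ∈ W ⊓ W0, DX hX g ∈ W ⊓ W0 := by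
    intro X hX g hg
    obtain ⟨x, rfl⟩ := B.exists_real X hX
    rw [DX_eq_DD B x hX]
    exact hD _ g hg
  let H : Subgroup (UG N) :=
    { carrier := {u | ∃ h : u ∈ K.toSubgroup, ∀ g ∈ W ⊓ W0,
        (rep K).R (mk u h) g ∈ W ⊓ W0 ∧ (rep K).R (mk u h)⁻¹ g ∈ W ⊓ W0}
      mul_mem' := by
        rintro u v ⟨hu, hu'⟩ ⟨hv, hv'⟩
        refine ⟨K.toSubgroup.mul_mem hu hv, fun g hg => ⟨?_, ?_⟩⟩
        · rw [mk_mul hu hv, R_mul]
          exact (hu' _ (hv' g hg).1).1
        · rw [mk_mul hu hv, mul_inv_rev, R_mul]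
          exact (hv' _ (hu' g hg).2).2
      one_mem' := by
        refine ⟨K.toSubgroup.one_mem, fun g hg => ⟨?_, ?_⟩⟩
        · rw [mk_one, R_one]
          exact hg
        · rw [mk_one, inv_one, R_one]
          exact hg
      inv_mem' := by
        rintro u ⟨hu, hu'⟩
        refine ⟨K.toSubgroup.inv_mem hu, fun g hg => ⟨?_, ?_⟩⟩
        · rw [mk_inv hu]
          exact (hu' g hg).2
        · rw [mk_inv hu, inv_inv]
          exact (hu' g hg).1 }
  have hHc : IsClosed (H : Set (UG N)) := by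
    apply IsSeqClosed.isClosed
    intro u v hu huv
    have hv : v ∈ K.toSubgroup := K.isClosed'.mem_of_tendsto huv
      (Filter.Eventually.of_forall fun n => (hu n).choose)
    have h1 : Filter.Tendsto (fun n => mk (u n) (hu n).choose)
        Filter.atTop (nhds (mk v hv)) :=
      tendsto_subtype_rng.2 huv
    refine ⟨hv, fun g hg => ⟨?_, ?_⟩⟩
    · exact mem_of_tendsto (W ⊓ W0) _ (fun n => ((hu n).choose_spec g hg).1) _
        (tendsto_R g h1)
    · exact mem_of_tendsto (W ⊓ W0) _ (fun n => ((hu n).choose_spec g hg).2) _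
        (tendsto_R g ((continuous_inv (G := CG K)).continuousAt.tendsto.comp h1))
  have hexp : ∀ X ∈ lieSet K.toSubgroup, ∀ u : UG N, (u : Mat N) = NormedSpace.exp X → u ∈ H := by
    intro X hX u hu
    have h1 : u = (ex hX 1).1 := by
      apply Subtype.ext
      have h2 : ((ex hX 1).1 : Mat N) = NormedSpace.exp ((1 : ℝ) • X) := mat_ex hX 1
      rw [h2, one_smul, hu]
    subst h1
    refine ⟨(ex hX 1).2, fun g hg => ⟨?_, ?_⟩⟩
    · exact R_ex_mem (W ⊓ W0) hX (hDX X hX) 1 g hg
    · have h3 := R_ex_mem (W ⊓ W0) hX (hDX X hX) (-1) g hg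
      rw [ex_neg] at h3
      exact h3
  have hle := le_of_exp_mem (K := K.toSubgroup) K.isClosed' hc H hHc hexp
  obtain ⟨h1, h2⟩ := hle y.2
  exact (h2 f ⟨hf, hf0⟩).1.1

theorem taylor_sub (hc : IsPreconnected (K.toSubgroup : Set (UG N))) (W : Submodule ℂ (rep K).A)
    (hW : ∀ x, ∀ f ∈ W, DD B x f ∈ W) (h1 : ∀ f ∈ W, f.1 1 = 0) (f : (rep K).A) (hf : f ∈ W) :
    f = 0 := by
  apply Subtype.ext
  funext z
  have h2 := h1 _ (R_of_D B hc W hW z f hf)
  rw [RepAlg.R_apply, one_mul] at h2
  exact h2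

end CG

end STC
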