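import Pool.Agent.STC.SCPre

/-!
# STC/SCRel : the relations between the root vectors

Index type of the orthonormal basis of `ℂ^d`: `Op r M = Fin r ⊕ (Fin M ⊕ Fin M)`, the basis is
`P.bas` (`cx (H k)`, `E b`, `star (E b)`), with weights `P.wt` (`0`, `root b`, `- root b`).

`bas_orth`: `hipHH` (with `hip_cx`), `hipEE`, `hipEsE`, `hipEH` and `hip_conj`, `hip_star_star`.
`br_bas`: `brHH`, `brHE`, and for `star (E b)`: `br (cx (H k)) (star (E b)) = star (br (cx (H k)) (E b))`.
`hip_bas_eq_zero`: if `x` has weight `γ` and `P.wt a ≠ γ` then `hip x (P.bas a) = 0` (as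
`I γ_k hip x y = hip (br (cx (H k)) x) y = - hip x (br (cx (H k)) y) = I δ_k hip x y`).
`brEE`: `br (E b) (E c)` has weight `root b + root c` by `br_jac`; expand it in the basis
(`expand`): `0` and `- root e` are excluded by pairing with `H0`.
`brEF`: weight `0`; the components along `E e`, `star (E e)` vanish as `root e ≠ 0`; the component
along `cx (H k)` is `hip (br (E b) (- star (E b))) (cx (H k)) = hip (star (E b)) (br (star (E b))
(cx (H k))) = - hip (star (E b)) (br (cx (H k)) (star (E b))) = - hip (star (E b)) (- I root_k star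
(E b)) = - I root_k`. `brEFne`: same; the component along `cx (H k)` is `- I root_k hip (star (E c))
(star (E b)) = 0`.
`killing`: `SC.killing` and `trace_eq` with the basis `P.bas`, for `X = Σ x_k cx (H k)`,
`Y = Σ y_k cx (H k)` (`star Y = Y`): `- hip X Y = Σ_a hip (br X (br Y (bas a))) (bas a)
= Σ_b ((I w_b(x)) (I w_b(y)) + (- I w_b(x)) (- I w_b(y)))`, and `hip X Y = Σ x_k y_k`.
-/

open scoped ComplexConjugate

namespace STC

private lemma rel_hip_zero {d : ℕ} (S : SC d) {r : ℕ} (H : Fin r → Fin d → ℝ)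
    {x y : Fin d → ℂ} {γ δ : Fin r → ℝ}
    (hx : ∀ k, S.br (cx (H k)) x = (Complex.I * (γ k : ℂ)) • x)
    (hy : ∀ k, S.br (cx (H k)) y = (Complex.I * (δ k : ℂ)) • y)
    (h : γ ≠ δ) : hip x y = 0 := by
  obtain ⟨k, hk⟩ := Function.ne_iff.mp h
  have h1 := S.hip_br (cx (H k)) x y
  rw [star_cx, hx k, hy k, hip_smul_left, hip_smul_right] at h1
  simp only [map_mul, Complex.conj_I, Complex.conj_ofReal] at h1
  have h2 : (Complex.I * ((γ k : ℂ) - δ k)) * hip x y = 0 := by linear_combination h1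
  rcases mul_eq_zero.mp h2 with h3 | h3
  · exfalso
    rcases mul_eq_zero.mp h3 with h4 | h4
    · exact Complex.I_ne_zero h4
    · exact hk (by exact_mod_cast sub_eq_zero.mp h4)
  · exact h3

private lemma rel_br_add {d : ℕ} (S : SC d) {r : ℕ} (H : Fin r → Fin d → ℝ)
    {x y : Fin d → ℂ} {γ δ : Fin r → ℝ}
    (hx : ∀ k, S.br (cx (H k)) x = (Complex.I * (γ k : ℂ)) • x)
    (hy : ∀ k, S.br (cx (H k)) y = (Complex.I * (δ k : ℂ)) • y) (k : Fin r) :
    S.br (cx (H k)) (S.br x y) = (Complex.I * ((γ + δ) k : ℂ)) • S.br x y := by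
  rw [S.br_jac, hx k, hy k, map_smul, map_smul, LinearMap.smul_apply, ← add_smul]
  congr 1
  simp only [Pi.add_apply]
  push_cast
  ring

namespace PreDec

variable {d : ℕ} {S : SC d} {r M : ℕ} (P : PreDec S r M)

/-- the orthonormal basis of `ℂ^d` -/
def bas : Fin r ⊕ (Fin M ⊕ Fin M) → Fin d → ℂ
  | Sum.inl k => cx (P.H k)
  | Sum.inr (Sum.inl b) => P.E b
  | Sum.inr (Sum.inr b) => star (P.E b)

/-- its weights -/
def wt : Fin r ⊕ (Fin M ⊕ Fin M) → Fin r → ℝ
  | Sum.inl _ => 0
  | Sum.inr (Sum.inl b) => P.root b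
  | Sum.inr (Sum.inr b) => -P.root b

theorem bas_orth (a a' : Fin r ⊕ (Fin M ⊕ Fin M)) :
    hip (P.bas a) (P.bas a') = if a = a' then 1 else 0 := by
  have hHE : ∀ k b, hip (cx (P.H k)) (P.E b) = 0 := by
    intro k b
    rw [← hip_conj, P.hipEH, map_zero]
  have hHs : ∀ k b, hip (cx (P.H k)) (star (P.E b)) = 0 := by
    intro k b
    rw [← star_cx (P.H k), hip_star_star, hHE, map_zero]
  rcases a with k | b | b <;> rcases a' with k' | c | c
  · simp only [bas, Sum.inl.injEq]
    rw [hip_cx, P.hipHH]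
    split_ifs <;> simp
  · simp only [bas, reduceCtorEq, if_false]
    exact hHE k c
  · simp only [bas, reduceCtorEq, if_false]
    exact hHs k c
  · simp only [bas, reduceCtorEq, if_false]
    exact P.hipEH b k'
  · simp only [bas, Sum.inr.injEq, Sum.inl.injEq]
    exact P.hipEE b c
  · simp only [bas, Sum.inr.injEq, reduceCtorEq, if_false]
    exact P.hipEsE b c
  · simp only [bas, reduceCtorEq, if_false]
    rw [← hip_conj, hHs, map_zero]
  · simp only [bas, Sum.inr.injEq, reduceCtorEq, if_false]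
    rw [← hip_conj, P.hipEsE, map_zero]
  · simp only [bas, Sum.inr.injEq]
    rw [hip_star_star, P.hipEE]
    split_ifs <;> simp

private lemma br_star_E (k : Fin r) (b : Fin M) :
    S.br (cx (P.H k)) (star (P.E b)) = (Complex.I * ((-P.root b) k : ℂ)) • star (P.E b) := by
  conv_lhs => rw [← star_cx (P.H k)]
  rw [S.br_star, P.brHE, star_smul]
  congr 1
  rw [star_mul', Complex.star_def, Complex.conj_I, Complex.conj_ofReal,
    Pi.neg_apply]
  push_cast
  ring

theorem br_bas (k : Fin r) (a : Fin r ⊕ (Fin M ⊕ Fin M)) :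
    S.br (cx (P.H k)) (P.bas a) = (Complex.I * (P.wt a k : ℂ)) • P.bas a := by
  rcases a with k' | b | b
  · simp only [bas, wt, Pi.zero_apply, Complex.ofReal_zero, mul_zero, zero_smul]
    exact P.brHH k k'
  · simp only [bas, wt]
    exact P.brHE k b
  · simp only [bas, wt]
    exact P.br_star_E k b

theorem hip_bas_eq_zero {x : Fin d → ℂ} {γ : Fin r → ℝ}
    (hx : ∀ k, S.br (cx (P.H k)) x = (Complex.I * (γ k : ℂ)) • x)
    {a : Fin r ⊕ (Fin M ⊕ Fin M)} (ha : P.wt a ≠ γ) : hip x (P.bas a) = 0 :=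
  rel_hip_zero S P.H hx (fun k => P.br_bas k a) ha.symm

private lemma bas_expand (x : Fin d → ℂ) : x = ∑ a, hip x (P.bas a) • P.bas a := by
  refine expand P.bas P.bas_orth ?_ x
  simp only [Fintype.card_sum, Fintype.card_fin]
  have := P.dim
  omega

private lemma bas_expand3 (x : Fin d → ℂ) : x = ∑ k, hip x (cx (P.H k)) • cx (P.H k) +
    (∑ b, hip x (P.E b) • P.E b + ∑ b, hip x (star (P.E b)) • star (P.E b)) := by
  have h := P.bas_expand x
  rw [Fintype.sum_sum_type, Fintype.sum_sum_type] at h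
  exact h

private lemma wt_E {x : Fin d → ℂ} {γ : Fin r → ℝ}
    (hx : ∀ k, S.br (cx (P.H k)) x = (Complex.I * (γ k : ℂ)) • x) {b : Fin M}
    (hb : P.root b ≠ γ) : hip x (P.E b) = 0 :=
  P.hip_bas_eq_zero hx (a := Sum.inr (Sum.inl b)) hb

private lemma wt_sE {x : Fin d → ℂ} {γ : Fin r → ℝ}
    (hx : ∀ k, S.br (cx (P.H k)) x = (Complex.I * (γ k : ℂ)) • x) {b : Fin M}
    (hb : -P.root b ≠ γ) : hip x (star (P.E b)) = 0 :=
  P.hip_bas_eq_zero hx (a := Sum.inr (Sum.inr b)) hb

private lemma wt_H {x : Fin d → ℂ} {γ : Fin r → ℝ}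
    (hx : ∀ k, S.br (cx (P.H k)) x = (Complex.I * (γ k : ℂ)) • x) (k : Fin r)
    (hb : 0 ≠ γ) : hip x (cx (P.H k)) = 0 :=
  P.hip_bas_eq_zero hx (a := Sum.inl k) hb

private lemma root_ne_zero (b : Fin M) : P.root b ≠ 0 := by
  intro h
  have h1 := P.root_pos b
  rw [h] at h1
  simp at h1

private lemma br_neg_star (k : Fin r) (c : Fin M) :
    S.br (cx (P.H k)) (-star (P.E c)) = (Complex.I * ((-P.root c) k : ℂ)) • -star (P.E c) := by
  rw [map_neg, P.br_star_E, smul_neg]

/-- the component of `br (E b) (- star (E c))` along `cx (H k)` -/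
private lemma hip_brEF_H (b c : Fin M) (k : Fin r) :
    hip (S.br (P.E b) (-star (P.E c))) (cx (P.H k)) =
      if b = c then -(Complex.I * (P.root b k : ℂ)) else 0 := by
  rw [S.hip_br, hip_neg_left, neg_neg, S.br_swap, hip_neg_right, P.br_star_E, hip_smul_right,
    hip_star_star, P.hipEE]
  by_cases hbc : b = c
  · subst hbc
    simp
  · rw [if_neg (fun h => hbc h.symm), if_neg hbc]
    simp

theorem brEF (b : Fin M) : S.br (P.E b) (-star (P.E b)) =
    -(Complex.I • ∑ k, (P.root b k : ℂ) • cx (P.H k)) := by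
  have hw : ∀ k, S.br (cx (P.H k)) (S.br (P.E b) (-star (P.E b))) =
      (Complex.I * ((0 : Fin r → ℝ) k : ℂ)) • S.br (P.E b) (-star (P.E b)) := by
    intro k
    have h := rel_br_add S P.H (fun k => P.brHE k b) (fun k => P.br_neg_star k b) k
    rw [add_neg_cancel] at h
    exact h
  have h := P.bas_expand3 (S.br (P.E b) (-star (P.E b)))
  rw [Finset.sum_eq_zero (f := fun e => hip (S.br (P.E b) (-star (P.E b))) (P.E e) • P.E e)
      (fun e _ => by rw [P.wt_E hw (P.root_ne_zero e), zero_smul]),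
    Finset.sum_eq_zero
      (f := fun e => hip (S.br (P.E b) (-star (P.E b))) (star (P.E e)) • star (P.E e))
      (fun e _ => by rw [P.wt_sE hw (neg_ne_zero.mpr (P.root_ne_zero e)), zero_smul]),
    add_zero, add_zero] at h
  rw [h, Finset.smul_sum, ← Finset.sum_neg_distrib]
  refine Finset.sum_congr rfl fun k _ => ?_
  rw [P.hip_brEF_H, if_pos rfl, smul_smul, neg_smul]

theorem brEE (b c : Fin M) : S.br (P.E b) (P.E c) ∈
    Submodule.span ℂ {Z | ∃ e, P.root e = P.root b + P.root c ∧ Z = P.E e} := by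
  have hw := rel_br_add S P.H (fun k => P.brHE k b) (fun k => P.brHE k c)
  have hpos : 0 < ∑ k, (P.root b + P.root c) k * P.H0 k := by
    have h1 := P.root_pos b
    have h2 := P.root_pos c
    simp only [Pi.add_apply, add_mul, Finset.sum_add_distrib]
    linarith
  have h0 : (0 : Fin r → ℝ) ≠ P.root b + P.root c := by
    intro h
    rw [← h] at hpos
    simp at hpos
  have hneg : ∀ e, -P.root e ≠ P.root b + P.root c := by
    intro e h
    rw [← h] at hpos
    have h1 := P.root_pos e
    simp only [Pi.neg_apply, neg_mul, Finset.sum_neg_distrib] at hpos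
    linarith
  rw [P.bas_expand3 (S.br (P.E b) (P.E c))]
  refine Submodule.add_mem _ ?_ (Submodule.add_mem _ ?_ ?_)
  · refine Submodule.sum_mem _ fun k _ => ?_
    rw [P.wt_H hw k h0, zero_smul]
    exact Submodule.zero_mem _
  · refine Submodule.sum_mem _ fun e _ => ?_
    by_cases he : P.root e = P.root b + P.root c
    · exact Submodule.smul_mem _ _ (Submodule.subset_span ⟨e, he, rfl⟩)
    · rw [P.wt_E hw he, zero_smul]
      exact Submodule.zero_mem _
  · refine Submodule.sum_mem _ fun e _ => ?_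
    rw [P.wt_sE hw (hneg e), zero_smul]
    exact Submodule.zero_mem _

theorem brEFne (b c : Fin M) (hbc : b ≠ c) : S.br (P.E b) (-star (P.E c)) ∈ Submodule.span ℂ
    ({Z | ∃ e, P.root b = P.root c + P.root e ∧ Z = P.E e} ∪
      {Z | ∃ e, P.root c = P.root b + P.root e ∧ Z = -star (P.E e)}) := by
  have hw := rel_br_add S P.H (fun k => P.brHE k b) (fun k => P.br_neg_star k c)
  rw [P.bas_expand3 (S.br (P.E b) (-star (P.E c)))]
  refine Submodule.add_mem _ ?_ (Submodule.add_mem _ ?_ ?_)
  · refine Submodule.sum_mem _ fun k _ => ?_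
    rw [P.hip_brEF_H, if_neg hbc, zero_smul]
    exact Submodule.zero_mem _
  · refine Submodule.sum_mem _ fun e _ => ?_
    by_cases he : P.root e = P.root b + -P.root c
    · refine Submodule.smul_mem _ _ (Submodule.subset_span (Or.inl ⟨e, ?_, rfl⟩))
      rw [he]
      abel
    · rw [P.wt_E hw he, zero_smul]
      exact Submodule.zero_mem _
  · refine Submodule.sum_mem _ fun e _ => ?_
    by_cases he : -P.root e = P.root b + -P.root c
    · rw [← neg_neg (star (P.E e)), smul_neg]
      refine Submodule.neg_mem _ (Submodule.smul_mem _ _ (Submodule.subset_span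
        (Or.inr ⟨e, ?_, rfl⟩)))
      have h2 : P.root e = -(P.root b + -P.root c) := by rw [← he, neg_neg]
      rw [h2]
      abel
    · rw [P.wt_sE hw he, zero_smul]
      exact Submodule.zero_mem _

private lemma br_sum_bas (x : Fin r → ℝ) (a : Fin r ⊕ (Fin M ⊕ Fin M)) :
    S.br (∑ k, (x k : ℂ) • cx (P.H k)) (P.bas a) =
      (Complex.I * ((∑ k, P.wt a k * x k : ℝ) : ℂ)) • P.bas a := by
  rw [map_sum, LinearMap.sum_apply]
  simp only [map_smul, LinearMap.smul_apply, P.br_bas, smul_smul]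
  rw [← Finset.sum_smul]
  congr 1
  push_cast
  rw [Finset.mul_sum]
  refine Finset.sum_congr rfl fun k _ => by ring

theorem killing (x y : Fin r → ℝ) : ∑ k, x k * y k =
    2 * ∑ b, (∑ k, P.root b k * x k) * (∑ k, P.root b k * y k) := by
  set X : Fin d → ℂ := ∑ k, (x k : ℂ) • cx (P.H k) with hX
  set Y : Fin d → ℂ := ∑ k, (y k : ℂ) • cx (P.H k) with hY
  have hYs : star Y = Y := by
    rw [hY, star_sum]
    refine Finset.sum_congr rfl fun k _ => ?_
    rw [star_smul, star_cx, Complex.star_def, Complex.conj_ofReal]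
  have hXY : hip X Y = ((∑ k, x k * y k : ℝ) : ℂ) := by
    rw [hX, hip_sum_left]
    push_cast
    refine Finset.sum_congr rfl fun k _ => ?_
    rw [hip_smul_left, hY, hip_sum_right]
    have h1 : ∀ l, hip (cx (P.H k)) ((y l : ℂ) • cx (P.H l)) =
        if k = l then (y l : ℂ) else 0 := by
      intro l
      rw [hip_smul_right, Complex.conj_ofReal, hip_cx, P.hipHH]
      split_ifs <;> simp
    simp only [h1, Finset.sum_ite_eq, Finset.mem_univ, if_true]
  have hk := S.killing X Y
  rw [hYs] at hk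
  have hcard : Fintype.card (Fin r ⊕ (Fin M ⊕ Fin M)) = d := by
    simp only [Fintype.card_sum, Fintype.card_fin]
    have := P.dim
    omega
  have ht := trace_eq P.bas P.bas_orth hcard ((S.br X).comp (S.br Y))
  simp only [LinearMap.comp_apply] at ht
  rw [hk, hXY] at ht
  have hterm : ∀ a, hip (S.br X (S.br Y (P.bas a))) (P.bas a) =
      ((-((∑ k, P.wt a k * x k) * ∑ k, P.wt a k * y k) : ℝ) : ℂ) := by
    intro a
    rw [hY, P.br_sum_bas, map_smul, hX, P.br_sum_bas, smul_smul, hip_smul_left, P.bas_orth,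
      if_pos rfl]
    push_cast
    linear_combination ((∑ k, (P.wt a k : ℂ) * (x k : ℂ)) * ∑ k, (P.wt a k : ℂ) * (y k : ℂ)) *
      Complex.I_mul_I
  simp only [hterm] at ht
  rw [← Complex.ofReal_sum, ← Complex.ofReal_neg, Complex.ofReal_inj, Fintype.sum_sum_type,
    Fintype.sum_sum_type] at ht
  simp only [wt, Pi.zero_apply, zero_mul, Finset.sum_const_zero, mul_zero, neg_zero, zero_add,
    Pi.neg_apply, neg_mul, Finset.sum_neg_distrib, mul_neg, neg_neg] at ht
  linarith

/-- the complete root decomposition -/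
def toRootDec : RootDec S r M where
  H := P.H
  E := P.E
  root := P.root
  H0 := P.H0
  dim := P.dim
  hipHH := P.hipHH
  hipEE := P.hipEE
  hipEsE := P.hipEsE
  hipEH := P.hipEH
  brHH := P.brHH
  brHE := P.brHE
  brEF := P.brEF
  brEE := P.brEE
  brEFne := P.brEFne
  root_pos := P.root_pos
  killing := P.killing

end PreDec

end STC
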