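import Pool.Agent.STC.DerLin
import Pool.Agent.STC.SCRel

/-!
# STC/DerLap : the Laplace operator and the torus

`lapB f = Σ_i DX_i (DX_i f)` for the basis `X_i` which is orthonormal for minus the Killing form.
`lapB_R`: by `DD_R` twice, `DD x (DD x (R y f)) = R y (DD x' (DD x' f))`, `x' = adG y⁻¹ x`; sum over
`x = e_i`: with the orthogonal matrix `O = Ad y⁻¹` (`Ad_orth`), `x' = Σ_j O_ji e_j`,
`Σ_i DD x'_i DD x'_i = Σ_{j,k} (Σ_i O_ji O_ki) DD e_j DD e_k = Σ_j DD e_j DD e_j`.
`lapB_basis`: for any orthonormal basis `v` of `ℂ^d` (for `hip`), `Σ_i DD e_i DD e_i =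
Σ_i DD v_i DD (star v_i)`: expand, `Σ_i (v_i)_j conj (v_i)_k = δ_jk` (`expand` for `e_j`).
`lapB_root`: apply it to the basis `P.bas` (see `STC/SCRel` for the same basis): the terms `cx (H k)`
give `DD (cx (H k))² = - (DD (-I cx (H k)))²`, the terms `E b` and `star (E b)` give
`DD (E b) DD (star (E b)) + DD (star (E b)) DD (E b) = - (E F + F E)`, `F b = DD (- star (E b))`.
`torus`: `tor x = ex (Σ x_k H_k) 1`; the `toMat (cx (H k))` commute (`brHH`, `toMat_br`), so
`exp` of a sum is the product. `tor_eig`: `g s = f (z ex(s))` for `X = Σ x_k H_k` satisfies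
`g' = (DX f)(z ex(s)) = i (Σ x_k c_k) g` as `DX = DD (Σ x_k cx (H k)) = Σ x_k I • DD (-I • cx (H k))`.
-/

open MeasureTheory
open scoped ComplexConjugate

namespace STC

namespace CG

variable {N : ℕ} {K : ClosedSubgroup (UG N)} {d : ℕ} (B : LieBasis K.toSubgroup K.isClosed' d)

/-- The Laplace operator of the bi-invariant metric given by minus the Killing form. -/
noncomputable def lapB (f : (rep K).A) : (rep K).A :=
  ∑ i, DX (B.mat_mem i) (DX (B.mat_mem i) f)

private lemma derLap_sum_apply {ι : Type*} (s : Finset ι)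
    (D : ι → Derivation ℂ (rep K).A (rep K).A) (f : (rep K).A) :
    (∑ i ∈ s, D i) f = ∑ i ∈ s, D i f := by
  classical
  induction s using Finset.induction_on with
  | empty => simp
  | insert a s ha ih =>
    rw [Finset.sum_insert ha, Finset.sum_insert ha, Derivation.add_apply, ih]

private lemma derLap_DD_apply (x : Fin d → ℂ) (f : (rep K).A) :
    DD B x f = ∑ i, x i • DX (B.mat_mem i) f := by
  change (∑ i, x i • DX (B.mat_mem i)) f = _
  rw [derLap_sum_apply]
  rfl

theorem lapB_basis {ι : Type} [Fintype ι] [DecidableEq ι] (v : ι → Fin d → ℂ)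
    (hv : ∀ i j, hip (v i) (v j) = if i = j then 1 else 0) (hc : Fintype.card ι = d)
    (f : (rep K).A) : lapB B f = ∑ i, DD B (v i) (DD B (star (v i)) f) := by
  have h2 : ∀ j m : Fin d, ∑ i, v i j * conj (v i m) = if j = m then 1 else 0 := by
    intro j m
    have he := expand v hv hc (Pi.single m (1 : ℂ))
    have he' := congrFun he j
    have hs : ∀ i, hip (Pi.single m (1 : ℂ)) (v i) = conj (v i m) := by
      intro i
      simp [hip, Pi.single_apply]
    simp only [Finset.sum_apply, Pi.smul_apply, smul_eq_mul, hs] at he'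
    rw [Pi.single_apply] at he'
    rw [he']
    exact Finset.sum_congr rfl fun i _ => by ring
  have h3 : ∀ i, DD B (v i) (DD B (star (v i)) f) =
      ∑ j, ∑ m, (v i j * conj (v i m)) • DX (B.mat_mem j) (DX (B.mat_mem m) f) := by
    intro i
    rw [derLap_DD_apply, derLap_DD_apply]
    refine Finset.sum_congr rfl fun j _ => ?_
    rw [map_sum, Finset.smul_sum]
    refine Finset.sum_congr rfl fun m _ => ?_
    rw [Derivation.map_smul, smul_smul]
    rfl
  simp only [h3]
  rw [Finset.sum_comm]
  unfold lapB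
  refine Finset.sum_congr rfl fun j _ => ?_
  rw [Finset.sum_comm]
  simp only [← Finset.sum_smul, h2, ite_smul, one_smul, zero_smul, Finset.sum_ite_eq,
    Finset.mem_univ, if_true]

private lemma derLap_star_single (i : Fin d) :
    star (Pi.single i (1 : ℂ) : Fin d → ℂ) = Pi.single i 1 := by
  ext j
  rw [Pi.star_apply]
  by_cases h : j = i
  · subst h; simp
  · simp [Pi.single_eq_of_ne h]

private lemma derLap_hip_single (i j : Fin d) :
    hip (Pi.single i (1 : ℂ) : Fin d → ℂ) (Pi.single j 1) = if i = j then 1 else 0 := by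
  simp only [hip, Pi.single_apply]
  by_cases h : i = j
  · subst h; simp
  · rw [if_neg h]
    refine Finset.sum_eq_zero fun k _ => ?_
    by_cases hk : k = i
    · subst hk
      simp [h]
    · simp [hk]

theorem lapB_R (y : CG K) (f : (rep K).A) :
    lapB B ((rep K).R y f) = (rep K).R y (lapB B f) := by
  have h1 := lapB_basis B (fun i : Fin d => (Pi.single i (1 : ℂ) : Fin d → ℂ))
    derLap_hip_single (Fintype.card_fin d) ((rep K).R y f)
  have h2 := lapB_basis B (fun i : Fin d => adG B y⁻¹ (Pi.single i (1 : ℂ) : Fin d → ℂ))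
    (fun i j => by
      have := B.hip_AdC (show K.toSubgroup from y⁻¹) (Pi.single i (1 : ℂ)) (Pi.single j 1)
      exact this.trans (derLap_hip_single i j)) (Fintype.card_fin d) f
  rw [h1, h2, map_sum]
  refine Finset.sum_congr rfl fun i _ => ?_
  have h3 : star (adG B y⁻¹ (Pi.single i (1 : ℂ) : Fin d → ℂ)) =
      adG B y⁻¹ (Pi.single i (1 : ℂ) : Fin d → ℂ) := by
    have := B.AdC_star (show K.toSubgroup from y⁻¹) (Pi.single i (1 : ℂ))
    rw [derLap_star_single] at this
    exact this.symm
  rw [h3, derLap_star_single, DD_R, DD_R]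

private def derLap_pre {r M : ℕ} (P : RootDec B.sc r M) : PreDec B.sc r M where
  H := P.H
  E := P.E
  root := P.root
  H0 := P.H0
  dim := P.dim
  hipHH := P.hipHH
  hipEE := P.hipEE
  hipEsE := P.hipEsE
  hipEH := P.hipEH
  brHH := P.brHH
  brHE := P.brHE
  root_pos := P.root_pos

theorem lapB_root {r M : ℕ} (P : RootDec B.sc r M) (f : (rep K).A) :
    lapB B f = -(∑ k, DD B (-Complex.I • cx (P.H k)) (DD B (-Complex.I • cx (P.H k)) f)) -
      ∑ b, (DD B (P.E b) (DD B (-star (P.E b)) f) + DD B (-star (P.E b)) (DD B (P.E b) f)) := by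
  have hcard : Fintype.card (Fin r ⊕ (Fin M ⊕ Fin M)) = d := by
    simp only [Fintype.card_sum, Fintype.card_fin]
    have := P.dim
    omega
  rw [lapB_basis B (derLap_pre B P).bas (derLap_pre B P).bas_orth hcard f,
    Fintype.sum_sum_type, Fintype.sum_sum_type]
  have e1 : ∀ k, (derLap_pre B P).bas (Sum.inl k) = cx (P.H k) := fun k => rfl
  have e2 : ∀ b, (derLap_pre B P).bas (Sum.inr (Sum.inl b)) = P.E b := fun b => rfl
  have e3 : ∀ b, (derLap_pre B P).bas (Sum.inr (Sum.inr b)) = star (P.E b) := fun b => rfl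
  simp only [e1, e2, e3, star_cx, star_star]
  have h1 : ∀ k, DD B (-Complex.I • cx (P.H k)) (DD B (-Complex.I • cx (P.H k)) f) =
      -(DD B (cx (P.H k)) (DD B (cx (P.H k)) f)) := by
    intro k
    rw [map_smul, Derivation.smul_apply, Derivation.smul_apply, Derivation.map_smul, smul_smul]
    rw [show (-Complex.I) * (-Complex.I) = -1 by rw [neg_mul_neg, Complex.I_mul_I], neg_one_smul]
  have h2 : ∀ b, DD B (P.E b) (DD B (-star (P.E b)) f) =
      -(DD B (P.E b) (DD B (star (P.E b)) f)) := by
    intro b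
    rw [map_neg, Derivation.neg_apply, map_neg]
  have h3 : ∀ b, DD B (-star (P.E b)) (DD B (P.E b) f) =
      -(DD B (star (P.E b)) (DD B (P.E b) f)) := by
    intro b
    rw [map_neg, Derivation.neg_apply]
  simp only [h1, h2, h3, Finset.sum_neg_distrib, neg_neg, Finset.sum_add_distrib]
  abel

/-- the torus -/
noncomputable def torus {r M : ℕ} (P : RootDec B.sc r M) (x : Fin r → ℝ) : CG K :=
  ex (B.toMat_cx_mem (∑ k, x k • P.H k)) 1

private lemma derLap_mat_torus {r M : ℕ} (P : RootDec B.sc r M) (x : Fin r → ℝ) :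
    (torus B P x).mat = NormedSpace.exp (B.toMat (cx (∑ k, x k • P.H k))) := by
  unfold torus
  rw [mat_ex, one_smul]

private lemma derLap_cx_sum {r M : ℕ} (P : RootDec B.sc r M) (x : Fin r → ℝ) :
    cx (∑ k, x k • P.H k) = ∑ k, (x k : ℂ) • cx (P.H k) := by
  ext i
  simp [cx, Finset.sum_apply]

private lemma derLap_comm {r M : ℕ} (P : RootDec B.sc r M) (x y : Fin r → ℝ) :
    Commute (B.toMat (cx (∑ k, x k • P.H k))) (B.toMat (cx (∑ k, y k • P.H k))) := by
  have h := B.toMat_br (cx (∑ k, x k • P.H k)) (cx (∑ k, y k • P.H k))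
  have h0 : B.sc.br (cx (∑ k, x k • P.H k)) (cx (∑ k, y k • P.H k)) = 0 := by
    rw [derLap_cx_sum, derLap_cx_sum]
    rw [map_sum (B.sc.br (∑ k, (x k : ℂ) • cx (P.H k)))]
    refine Finset.sum_eq_zero fun j _ => ?_
    rw [map_sum, LinearMap.sum_apply]
    refine Finset.sum_eq_zero fun k _ => ?_
    rw [map_smul, map_smul, LinearMap.smul_apply, P.brHH, smul_zero, smul_zero]
  rw [h0, map_zero] at h
  exact (sub_eq_zero.1 h.symm)

theorem torus_add {r M : ℕ} (P : RootDec B.sc r M) (x y : Fin r → ℝ) :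
    torus B P (x + y) = torus B P x * torus B P y := by
  apply mat_injective
  rw [mat_mul, derLap_mat_torus, derLap_mat_torus, derLap_mat_torus,
    ← Matrix.exp_add_of_commute _ _ (derLap_comm B P x y), ← map_add]
  congr 2
  ext i
  simp [cx, Finset.sum_apply, add_mul, Finset.sum_add_distrib]

open scoped Matrix.Norms.L2Operator in
private lemma derLap_exp_cont : Continuous (NormedSpace.exp : Mat N → Mat N) :=
  continuous_iff_continuousAt.2
    fun x => (NormedSpace.exp_analytic (𝕂 := ℂ) x).continuousAt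

theorem torus_cont {r M : ℕ} (P : RootDec B.sc r M) : Continuous (torus B P) := by
  have h1 : Continuous fun x : Fin r → ℝ => (torus B P x).mat := by
    simp only [derLap_mat_torus]
    refine derLap_exp_cont.comp ?_
    have h2 : Continuous B.toMat := LinearMap.continuous_of_finiteDimensional _
    refine h2.comp ?_
    refine continuous_pi fun i => ?_
    have h3 : ∀ x : Fin r → ℝ, cx (∑ k, x k • P.H k) i = ((∑ k, x k * P.H k i : ℝ) : ℂ) := by
      intro x
      simp [cx, Finset.sum_apply]
    simp only [h3]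
    refine Complex.continuous_ofReal.comp ?_
    exact continuous_finsetSum _ fun k _ => (continuous_apply k).mul continuous_const
  have h4 : Continuous fun x : Fin r → ℝ => ((torus B P x).1 : UG N) :=
    continuous_induced_rng.2 h1
  exact continuous_induced_rng.2 h4

theorem torus_eig {r M : ℕ} (P : RootDec B.sc r M) (f : (rep K).A) (c : Fin r → ℝ)
    (hf : ∀ k, DD B (-Complex.I • cx (P.H k)) f = (c k : ℂ) • f) (x : Fin r → ℝ) :
    (rep K).R (torus B P x) f = Complex.exp (Complex.I * (dot c x : ℂ)) • f := by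
  have hk : ∀ k, DD B (cx (P.H k)) f = (Complex.I * (c k : ℂ)) • f := by
    intro k
    have h1 : cx (P.H k) = Complex.I • (-Complex.I • cx (P.H k)) := by
      rw [smul_smul, mul_neg, Complex.I_mul_I, neg_neg, one_smul]
    rw [h1, map_smul, Derivation.smul_apply, hf k, smul_smul]
  have hX : DX (B.toMat_cx_mem (∑ k, x k • P.H k)) f =
      (Complex.I * (dot c x : ℂ)) • f := by
    rw [DX_eq_DD, derLap_cx_sum, map_sum, derLap_sum_apply]
    simp only [map_smul, Derivation.smul_apply, hk, smul_smul]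
    rw [← Finset.sum_smul]
    congr 1
    unfold dot
    push_cast
    rw [Finset.mul_sum]
    exact Finset.sum_congr rfl fun k _ => by ring
  set hm := B.toMat_cx_mem (∑ k, x k • P.H k) with hmdef
  set a : ℂ := Complex.I * (dot c x : ℂ) with ha
  apply Subtype.ext
  funext z
  change f.1 (z * torus B P x) = Complex.exp a * f.1 z
  have hd : ∀ s : ℝ, HasDerivAt (fun s : ℝ => f.1 (z * ex hm s)) (a * f.1 (z * ex hm s)) s := by
    intro s
    have h1 := hasDerivAt_dfun hm f.1 f.2 z s
    have h2 : dfun hm f.1 (z * ex hm s) = a * f.1 (z * ex hm s) := by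
      rw [← DX_apply, hX]
      rfl
    rw [h2] at h1
    exact h1
  have hE : ∀ s : ℝ, HasDerivAt (fun s : ℝ => Complex.exp (-(a * (s : ℂ))))
      (-a * Complex.exp (-(a * (s : ℂ)))) s := by
    intro s
    have h1 : HasDerivAt (fun s : ℝ => -(a * (s : ℂ))) (-(a * 1)) s :=
      (((hasDerivAt_id s).ofReal_comp).const_mul a).neg
    have h2 := h1.cexp
    rw [mul_one] at h2
    rw [mul_comm]
    exact h2
  have hG : ∀ s : ℝ, HasDerivAt (fun s : ℝ => Complex.exp (-(a * (s : ℂ))) *
      f.1 (z * ex hm s)) 0 s := by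
    intro s
    have h1 := (hE s).mul (hd s)
    have h2 : -a * Complex.exp (-(a * (s : ℂ))) * f.1 (z * ex hm s) +
        Complex.exp (-(a * (s : ℂ))) * (a * f.1 (z * ex hm s)) = 0 := by ring
    rw [h2] at h1
    exact h1
  have hconst := is_const_of_deriv_eq_zero (fun s => (hG s).differentiableAt)
    (fun s => (hG s).deriv) 1 0
  simp only [Complex.ofReal_one, mul_one, Complex.ofReal_zero, mul_zero, neg_zero,
    Complex.exp_zero, one_mul, ex_zero] at hconst
  have h5 : torus B P x = ex hm 1 := rfl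
  rw [h5, ← hconst, ← mul_assoc, ← Complex.exp_add, add_neg_cancel, Complex.exp_zero, one_mul]

end CG

end STC
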