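import Pool.Agent.STC.SCBr

/-!
# STC/Simp : simple roots

`sub_root`: let `dot (root b) (root c) > 0`, `root b ≠ root c`. Then `br (E b) (- star (E c)) ≠ 0`.
Otherwise `br (star (E c)) (E b) = 0` and by `hip_br`, `br_jac`, `brEF`, `brHE`
`hip (br (E c) (E b)) (br (E c) (E b)) = - hip (E b) (br (star (E c)) (br (E c) (E b)))`
`= - hip (E b) (br (br (star (E c)) (E c)) (E b))`, and `br (star (E c)) (E c) = br (E c) (- star
(E c)) = - I Σ root c k H k`, so this is `- (root b ⬝ root c) < 0`, a contradiction with
`hip_self_nonneg`. Then `brEFne` says that the generating set of the span is nonempty.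

`exists_simple`: let `Φ` be the finite set of the vectors `root b` (in the open half space
`x ⬝ H0 > 0`). Call `a ∈ Φ` simple if it is not `a' + a''` with `a', a'' ∈ Φ`. Two different simple
roots have `a ⬝ b ≤ 0` (`sub_root`). Pairwise obtuse vectors in an open half space are linearly
independent: if `Σ c_a a = 0`, put `x = Σ_{c_a > 0} c_a a = Σ_{c_a < 0} (- c_a) a`; then
`x ⬝ x ≤ 0`, so `x = 0`, and pairing with `H0` gives all `c_a = 0`. Every root is a sum of simple
roots with coefficients in `ℕ`: strong induction (well-founded: finitely many values of `a ⬝ H0`). The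
simple roots span `ℝ^r`: otherwise there is `x ≠ 0` orthogonal to all of them, so to all roots, and
`P.killing x x` gives `x ⬝ x = 0`. So there are exactly `r` simple roots; enumerate them by `Fin r`.
-/

open scoped ComplexConjugate

namespace STC

namespace RootDec

variable {d : ℕ} {S : SC d} {r M : ℕ} (P : RootDec S r M)

theorem sub_root (b c : Fin M) (hbc : P.root b ≠ P.root c)
    (h : 0 < ∑ k, P.root b k * P.root c k) :
    (∃ e, P.root b = P.root c + P.root e) ∨ (∃ e, P.root c = P.root b + P.root e) := by
  have hne : S.br (P.E b) (-star (P.E c)) ≠ 0 := by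
    intro h0
    have h1 : S.br (star (P.E c)) (P.E b) = 0 := by
      rw [map_neg, neg_eq_zero] at h0
      rw [S.br_swap (P.E b) (star (P.E c)), h0, neg_zero]
    have h2 : S.br (star (P.E c)) (P.E c) =
        -(Complex.I • ∑ k, (P.root c k : ℂ) • cx (P.H k)) := by
      have h3 := P.brEF c
      rw [map_neg] at h3
      rw [S.br_swap (P.E c) (star (P.E c)), h3]
    have h3 : S.br (S.br (star (P.E c)) (P.E c)) (P.E b) =
        ((∑ k, P.root b k * P.root c k : ℝ) : ℂ) • P.E b := by
      rw [h2, map_neg, map_smul, map_sum, LinearMap.neg_apply, LinearMap.smul_apply,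
        LinearMap.sum_apply]
      simp only [map_smul, LinearMap.smul_apply, P.brHE, smul_smul]
      rw [← Finset.sum_smul, smul_smul, ← neg_smul]
      congr 1
      push_cast
      rw [Finset.mul_sum, ← Finset.sum_neg_distrib]
      refine Finset.sum_congr rfl fun k _ => ?_
      linear_combination (-(P.root b k : ℂ) * P.root c k) * Complex.I_mul_I
    have h4 : hip (S.br (P.E c) (P.E b)) (S.br (P.E c) (P.E b)) =
        -((∑ k, P.root b k * P.root c k : ℝ) : ℂ) := by
      rw [S.hip_br, S.br_jac, h1, map_zero, add_zero, h3, hip_smul_right, P.hipEE, if_pos rfl,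
        mul_one, Complex.conj_ofReal]
    have h5 := hip_self_nonneg (S.br (P.E c) (P.E b))
    rw [h4, Complex.neg_re, Complex.ofReal_re] at h5
    linarith
  by_contra hcon
  push Not at hcon
  obtain ⟨hc1, hc2⟩ := hcon
  have hbc' : b ≠ c := fun h => hbc (by rw [h])
  have hmem := P.brEFne b c hbc'
  have hempty : ({Z | ∃ e, P.root b = P.root c + P.root e ∧ Z = P.E e} ∪
      {Z | ∃ e, P.root c = P.root b + P.root e ∧ Z = -star (P.E e)} : Set (Fin d → ℂ)) = ∅ := by
    ext Z
    simp only [Set.mem_union, Set.mem_ofPred_eq, Set.mem_empty_iff_false, iff_false, not_or,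
      not_exists, not_and]
    exact ⟨fun e he => absurd he (hc1 e), fun e he => absurd he (hc2 e)⟩
  rw [hempty, Submodule.span_empty, Submodule.mem_bot] at hmem
  exact hne hmem

/-- the dot product as a bilinear form -/
private noncomputable def dotB (r : ℕ) : LinearMap.BilinForm ℝ (Fin r → ℝ) :=
  LinearMap.mk₂ ℝ (fun x y => ∑ k, x k * y k)
    (by intro x x' y; simp [add_mul, Finset.sum_add_distrib])
    (by intro a x y; simp [Finset.mul_sum, mul_assoc])
    (by intro x y y'; simp [mul_add, Finset.sum_add_distrib])
    (by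
      intro a x y
      simp only [Pi.smul_apply, smul_eq_mul, Finset.mul_sum]
      exact Finset.sum_congr rfl fun i _ => by ring)

private lemma dotB_apply {r : ℕ} (x y : Fin r → ℝ) : dotB r x y = ∑ k, x k * y k := rfl

private lemma dotB_posDef (r : ℕ) : (dotB r).toQuadraticMap.PosDef := by
  intro x hx
  rw [LinearMap.BilinMap.toQuadraticMap_apply, dotB_apply]
  refine lt_of_le_of_ne (Finset.sum_nonneg fun k _ => mul_self_nonneg _) ?_
  intro h0
  apply hx
  have h1 := (Finset.sum_eq_zero_iff_of_nonneg (fun k _ => mul_self_nonneg (x k))).1 h0.symm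
  ext k
  exact mul_self_eq_zero.1 (h1 k (Finset.mem_univ k))

theorem exists_simple : ∃ (sim : Fin r → Fin r → ℝ) (coef : Fin M → Fin r → ℕ),
    LinearIndependent ℝ sim ∧ (∀ i, ∃ b, P.root b = sim i) ∧
      (∀ b, P.root b = ∑ i, (coef b i : ℝ) • sim i) := by
  classical
  set ht : (Fin r → ℝ) → ℝ := fun a => ∑ k, a k * P.H0 k with hht
  have ht_add : ∀ a a', ht (a + a') = ht a + ht a' := by
    intro a a'
    simp [hht, add_mul, Finset.sum_add_distrib]
  -- simple roots
  set IsS : (Fin r → ℝ) → Prop := fun a =>
    (∃ b, P.root b = a) ∧ ¬ ∃ b c, a = P.root b + P.root c with hIsS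
  -- every root is a combination of simple roots
  have hspanN : ∀ n : ℕ, ∀ b : Fin M,
      (Finset.univ.filter fun c : Fin M => ht (P.root c) < ht (P.root b)).card ≤ n →
      P.root b ∈ AddSubmonoid.closure {a | IsS a} := by
    intro n
    induction n using Nat.strong_induction_on with
    | _ n ih =>
      intro b hb
      by_cases hs : ∃ c e, P.root b = P.root c + P.root e
      · obtain ⟨c, e, hce⟩ := hs
        have hc0 : 0 < ht (P.root c) := P.root_pos c
        have he0 : 0 < ht (P.root e) := P.root_pos e
        have hsum : ht (P.root b) = ht (P.root c) + ht (P.root e) := by rw [hce, ht_add]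
        have key : ∀ c' : Fin M, ht (P.root c') < ht (P.root b) →
            P.root c' ∈ AddSubmonoid.closure {a | IsS a} := by
          intro c' hc'
          have hlt : (Finset.univ.filter fun x : Fin M => ht (P.root x) < ht (P.root c')).card <
              (Finset.univ.filter fun x : Fin M => ht (P.root x) < ht (P.root b)).card := by
            apply Finset.card_lt_card
            refine ⟨fun x hx => ?_, fun hcon => ?_⟩
            · rw [Finset.mem_filter] at hx ⊢
              exact ⟨hx.1, hx.2.trans hc'⟩
            · have h1 : c' ∈ Finset.univ.filter fun x : Fin M => ht (P.root x) < ht (P.root b) :=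
                Finset.mem_filter.2 ⟨Finset.mem_univ _, hc'⟩
              have h2 := hcon h1
              rw [Finset.mem_filter] at h2
              exact lt_irrefl _ h2.2
          exact ih _ (hlt.trans_le hb) c' le_rfl
        rw [hce]
        exact AddSubmonoid.add_mem _ (key c (by linarith)) (key e (by linarith))
      · exact AddSubmonoid.subset_closure ⟨⟨b, rfl⟩, fun ⟨c, e, h⟩ => hs ⟨c, e, h⟩⟩
  have hspan : ∀ b, P.root b ∈ AddSubmonoid.closure {a | IsS a} := fun b => hspanN _ b le_rfl
  -- the finite set of simple roots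
  have hfin : {a | IsS a}.Finite := by
    refine (Set.finite_range P.root).subset ?_
    rintro a ⟨⟨b, hb⟩, -⟩
    exact ⟨b, hb⟩
  have hind : LinearIndependent ℝ (fun a : {a | IsS a} => (a : Fin r → ℝ)) := by
    refine LinearMap.BilinForm.linearIndependent_of_pairwise_le_zero (dotB r) (dotB_posDef r)
      ((dotB r).flip P.H0) _ ?_ ?_
    · rintro ⟨a, ⟨b, hb⟩, -⟩
      change 0 < ∑ k, a k * P.H0 k
      rw [← hb]
      exact P.root_pos b
    · rintro ⟨a, ⟨b, hb⟩, ha⟩ ⟨a', ⟨b', hb'⟩, ha'⟩ hne
      change dotB r a a' ≤ 0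
      rw [dotB_apply]
      by_contra hcon
      push Not at hcon
      have hne' : P.root b ≠ P.root b' := by
        rw [hb, hb']
        intro h
        exact hne (Subtype.ext h)
      rw [← hb, ← hb'] at hcon
      rcases P.sub_root b b' hne' hcon with ⟨e, he⟩ | ⟨e, he⟩
      · exact ha ⟨b', e, by rw [← hb, he]⟩
      · exact ha' ⟨b, e, by rw [← hb', he]⟩
  haveI : Fintype {a | IsS a} := hfin.fintype
  have hspanR : Submodule.span ℝ {a | IsS a} = ⊤ := by
    by_contra hcon
    obtain ⟨f, hf0, hf⟩ := Submodule.exists_dual_map_eq_bot_of_lt_top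
      (lt_top_iff_ne_top.2 hcon) inferInstance
    set x : Fin r → ℝ := fun k => f (Pi.single k 1) with hx
    have hfx : ∀ a, f a = ∑ k, a k * x k := by
      intro a
      have ha : a = ∑ k, a k • (Pi.single k (1 : ℝ) : Fin r → ℝ) := by
        ext m
        simp [Finset.sum_apply, Pi.single_apply]
      conv_lhs => rw [ha]
      rw [map_sum]
      refine Finset.sum_congr rfl fun k _ => ?_
      rw [map_smul, smul_eq_mul]
    have hroot : ∀ b, ∑ k, P.root b k * x k = 0 := by
      intro b
      rw [← hfx]
      have hb : P.root b ∈ Submodule.span ℝ {a | IsS a} := by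
        have h1 : AddSubmonoid.closure {a | IsS a} ≤
            (Submodule.span ℝ {a | IsS a}).toAddSubmonoid :=
          AddSubmonoid.closure_le.2 Submodule.subset_span
        exact h1 (hspan b)
      have h2 : f (P.root b) ∈ Submodule.map f (Submodule.span ℝ {a | IsS a}) :=
        Submodule.mem_map_of_mem hb
      rw [hf, Submodule.mem_bot] at h2
      exact h2
    have hk := P.killing x x
    simp only [hroot, mul_zero, Finset.sum_const_zero] at hk
    have h1 := (Finset.sum_eq_zero_iff_of_nonneg (fun k _ => mul_self_nonneg (x k))).1 hk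
    apply hf0
    ext a
    simp only [LinearMap.coe_comp, Function.comp_apply, LinearMap.coe_single,
      LinearMap.zero_apply]
    exact mul_self_eq_zero.1 (h1 a (Finset.mem_univ a))
  have hcard : Fintype.card {a | IsS a} = r := by
    have hb : Module.Basis {a | IsS a} ℝ (Fin r → ℝ) := Module.Basis.mk hind (by
      rw [Subtype.range_coe_subtype]
      exact hspanR.ge)
    have h1 := Module.finrank_eq_card_basis hb
    rw [Module.finrank_fin_fun] at h1
    exact h1.symm
  let e : {a | IsS a} ≃ Fin r := Fintype.equivFinOfCardEq hcard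
  have hcoef : ∀ b, ∃ n : Fin r → ℕ, P.root b = ∑ i, (n i : ℝ) • ((e.symm i : {a | IsS a}) : Fin r → ℝ) := by
    intro b
    refine AddSubmonoid.closure_induction (motive := fun a _ => ∃ n : Fin r → ℕ,
      a = ∑ i, (n i : ℝ) • ((e.symm i : {a | IsS a}) : Fin r → ℝ)) ?_ ?_ ?_ (hspan b)
    · intro a ha
      refine ⟨Pi.single (e ⟨a, ha⟩) 1, ?_⟩
      rw [Finset.sum_eq_single (e ⟨a, ha⟩)]
      · simp
      · intro j _ hj
        rw [Pi.single_eq_of_ne hj]
        simp
      · intro h
        exact absurd (Finset.mem_univ _) h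
    · exact ⟨0, by simp⟩
    · rintro a a' _ _ ⟨n, hn⟩ ⟨n', hn'⟩
      refine ⟨n + n', ?_⟩
      rw [hn, hn', ← Finset.sum_add_distrib]
      refine Finset.sum_congr rfl fun i _ => ?_
      rw [Pi.add_apply, Nat.cast_add, add_smul]
  choose coef hcoef using hcoef
  refine ⟨fun i => ((e.symm i : {a | IsS a}) : Fin r → ℝ), coef, ?_, ?_, hcoef⟩
  · exact hind.comp _ e.symm.injective
  · intro i
    exact (e.symm i).2.1

end RootDec

end STC
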