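import Pool.Agent.STC.Fund
import Pool.Agent.STC.Simp

/-!
# STC/FundRel : the functions `φ_{s_i}`

`Simple P` = simple roots and coefficients. `I i` = the set of the `b` with `0 < coef b i`,
`fundf i = fdet (I i)`. Coefficients are unique by linear independence; so `root e = root b + root c`
implies `coef e i = coef b i + coef c i` for all `i` (`coef_add`), and `root b = sim j` implies
`coef b i = if i = j then 1 else 0` (`coef_sim`).
`fundf_h`: `br (cx (H k)) (E c) = (I root_c k) E c`, `DD_fdet` with the diagonal matrix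
`a_cc = I root_c k`; multiply by `-I`.
`fundf_E`: `br (E b) (E c)` is in the span of the `E e` with `root e = root b + root c` (`brEE`); for
`c ∈ I i` these `e` are in `I i` (`coef_add`), and `e ≠ c` because `root b ≠ 0` (`root_pos`); so
`br (E b) (E c) = Σ_{e ∈ I i} a_ec E e` with `a_cc = 0`, and `DD_fdet` gives `0`.
`fundf_F`: `root b = sim j`, `j ≠ i`. For `c ∈ I i`: `c ≠ b` as `coef b i = 0`. `brEFne c b`:
`br (E c) (- star (E b))` is in the span of the `E e` with `root c = root b + root e` (then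
`coef e i = coef c i > 0`, so `e ∈ I i`, and `e ≠ c` as `root b ≠ 0`) and of the `- star (E e)` with
`root b = root c + root e` (impossible: `0 = coef b i = coef c i + coef e i > 0`). Use `br_swap`.
-/

open MeasureTheory
open scoped ComplexConjugate

namespace STC

/-- simple roots of a root decomposition -/
structure Simple {d : ℕ} {S : SC d} {r M : ℕ} (P : RootDec S r M) where
  sim : Fin r → Fin r → ℝ
  coef : Fin M → Fin r → ℕ
  indep : LinearIndependent ℝ sim
  sim_root : ∀ i, ∃ b, P.root b = sim i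
  root_eq : ∀ b, P.root b = ∑ i, (coef b i : ℝ) • sim i

namespace Simple

variable {d : ℕ} {S : SC d} {r M : ℕ} {P : RootDec S r M} (Q : Simple P)

private theorem uniq {f g : Fin r → ℝ} (h : ∑ i, f i • Q.sim i = ∑ i, g i • Q.sim i) : f = g := by
  have h1 : ∑ i, (f i - g i) • Q.sim i = 0 := by
    simp only [sub_smul, Finset.sum_sub_distrib]
    rw [h, sub_self]
  funext i
  exact sub_eq_zero.1 (Fintype.linearIndependent_iff.1 Q.indep _ h1 i)

theorem coef_add {b c e : Fin M} (h : P.root e = P.root b + P.root c) (i : Fin r) :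
    Q.coef e i = Q.coef b i + Q.coef c i := by
  have h1 : (fun i => (Q.coef e i : ℝ)) = fun i => (Q.coef b i : ℝ) + (Q.coef c i : ℝ) := by
    refine Q.uniq ?_
    have h2 := Q.root_eq e
    rw [h, Q.root_eq b, Q.root_eq c] at h2
    rw [← h2, ← Finset.sum_add_distrib]
    exact Finset.sum_congr rfl fun i _ => (add_smul _ _ _).symm
  have h3 := congrFun h1 i
  exact_mod_cast h3

theorem coef_sim {b : Fin M} {j : Fin r} (h : P.root b = Q.sim j) (i : Fin r) :
    Q.coef b i = if i = j then 1 else 0 := by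
  have h1 : (fun i => (Q.coef b i : ℝ)) = fun i => if i = j then (1 : ℝ) else 0 := by
    refine Q.uniq ?_
    rw [← Q.root_eq b, h]
    simp
  have h3 := congrFun h1 i
  by_cases hij : i = j
  · rw [if_pos hij] at h3 ⊢
    exact_mod_cast h3
  · rw [if_neg hij] at h3 ⊢
    exact_mod_cast h3

end Simple

namespace CG

variable {N : ℕ} {K : ClosedSubgroup (UG N)} {d : ℕ} (B : LieBasis K.toSubgroup K.isClosed' d)
  {r M : ℕ} {P : RootDec B.sc r M} (Q : Simple P)

private theorem fundrel_root_ne {d : ℕ} {S : SC d} {r M : ℕ} (P : RootDec S r M) (b : Fin M) :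
    P.root b ≠ 0 := by
  intro h
  have h1 := P.root_pos b
  rw [h] at h1
  simp at h1

private theorem fundrel_exp {d : ℕ} {S : SC d} {r M : ℕ} (P : RootDec S r M) (I : Finset (Fin M))
    (c : Fin M) (x : Fin d → ℂ)
    (hx : x ∈ Submodule.span ℂ {Z | ∃ e, e ∈ I ∧ e ≠ c ∧ Z = P.E e}) :
    x = ∑ b : I, hip x (P.E b) • P.E b ∧ hip x (P.E c) = 0 := by
  induction hx using Submodule.span_induction with
  | mem x h =>
    obtain ⟨e, he, hec, rfl⟩ := h
    refine ⟨?_, ?_⟩
    · rw [Finset.sum_eq_single (⟨e, he⟩ : I)]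
      · rw [P.hipEE, if_pos rfl, one_smul]
      · intro b _ hb
        have h1 : e ≠ b.1 := fun h => hb (Subtype.ext h.symm)
        rw [P.hipEE, if_neg h1, zero_smul]
      · intro h
        exact absurd (Finset.mem_univ _) h
    · rw [P.hipEE, if_neg hec]
  | zero =>
    refine ⟨?_, ?_⟩
    · simp [hip]
    · simp [hip]
  | add x y _ _ hx hy =>
    refine ⟨?_, ?_⟩
    · conv_lhs => rw [hx.1, hy.1]
      rw [← Finset.sum_add_distrib]
      exact Finset.sum_congr rfl fun b _ => by rw [hip_add_left, add_smul]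
    · rw [hip_add_left, hx.2, hy.2, add_zero]
  | smul a x _ hx =>
    refine ⟨?_, ?_⟩
    · conv_lhs => rw [hx.1]
      rw [Finset.smul_sum]
      exact Finset.sum_congr rfl fun b _ => by rw [hip_smul_left, smul_smul]
    · rw [hip_smul_left, hx.2, mul_zero]

private theorem fundrel_zero (P : RootDec B.sc r M) (I : Finset (Fin M)) (u : Fin d → ℂ)
    (h : ∀ c ∈ I, B.sc.br u (P.E c) ∈
      Submodule.span ℂ {Z | ∃ e, e ∈ I ∧ e ≠ c ∧ Z = P.E e}) :
    DD B u (fdet B P I) = 0 := by
  rw [DD_fdet B P I u (fun b c => hip (B.sc.br u (P.E c)) (P.E b))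
    (fun c => (fundrel_exp P I c.1 _ (h c.1 c.2)).1)]
  have h1 : Matrix.trace (fun b c : I => hip (B.sc.br u (P.E c)) (P.E b)) = 0 :=
    Finset.sum_eq_zero fun c _ => (fundrel_exp P I c.1 _ (h c.1 c.2)).2
  rw [h1, zero_smul]

/-- the function `φ_{s_i}` -/
noncomputable def fundf (i : Fin r) : (rep K).A :=
  fdet B P (Finset.univ.filter fun b => 0 < Q.coef b i)

theorem fundf_one (i : Fin r) : (fundf B Q i).1 1 = 1 := fdet_one B P _

theorem fundf_h (i k : Fin r) : DD B (-Complex.I • cx (P.H k)) (fundf B Q i) =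
    ((∑ b with 0 < Q.coef b i, P.root b k : ℝ) : ℂ) • fundf B Q i := by
  unfold fundf
  rw [DD_fdet B P _ _ (Matrix.diagonal fun c => ((P.root c.1 k : ℝ) : ℂ))]
  · congr 1
    rw [Matrix.trace_diagonal]
    push_cast
    exact Finset.sum_coe_sort (Finset.univ.filter fun b => 0 < Q.coef b i)
      (fun b => ((P.root b k : ℝ) : ℂ))
  · intro c
    rw [Finset.sum_eq_single c]
    · rw [Matrix.diagonal_apply_eq, map_smul, LinearMap.smul_apply, P.brHE, smul_smul]
      congr 1
      rw [← mul_assoc, neg_mul, Complex.I_mul_I]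
      ring
    · intro b _ hb
      rw [Matrix.diagonal_apply_ne _ hb, zero_smul]
    · intro h
      exact absurd (Finset.mem_univ c) h

theorem fundf_E (i : Fin r) (b : Fin M) : DD B (P.E b) (fundf B Q i) = 0 := by
  unfold fundf
  refine fundrel_zero B P _ _ fun c hc => ?_
  refine Submodule.span_mono ?_ (P.brEE b c)
  rintro Z ⟨e, he, rfl⟩
  rw [Finset.mem_filter] at hc
  refine ⟨e, ?_, ?_, rfl⟩
  · rw [Finset.mem_filter]
    refine ⟨Finset.mem_univ _, ?_⟩
    rw [Q.coef_add he i]
    omega
  · rintro rfl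
    exact fundrel_root_ne P b (by simpa using he)

theorem fundf_F (i j : Fin r) (b : Fin M) (hij : j ≠ i) (hb : P.root b = Q.sim j) :
    DD B (-star (P.E b)) (fundf B Q i) = 0 := by
  unfold fundf
  have hbi : Q.coef b i = 0 := by
    rw [Q.coef_sim hb i, if_neg (Ne.symm hij)]
  refine fundrel_zero B P _ _ fun c hc => ?_
  rw [Finset.mem_filter] at hc
  have hcb : c ≠ b := by
    rintro rfl
    omega
  rw [B.sc.br_swap]
  refine Submodule.neg_mem _ (Submodule.span_mono ?_ (P.brEFne c b hcb))
  rintro Z (⟨e, he, rfl⟩ | ⟨e, he, rfl⟩)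
  · have h1 := Q.coef_add he i
    refine ⟨e, ?_, ?_, rfl⟩
    · rw [Finset.mem_filter]
      refine ⟨Finset.mem_univ _, ?_⟩
      omega
    · rintro rfl
      exact fundrel_root_ne P b (by simpa using he)
  · exfalso
    have h1 := Q.coef_add he i
    omega

end CG

end STC
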