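import Pool.Agent.STC.SCPos
import Pool.Agent.STC.SCRel

/-!
# STC/SCMain : every centreless compact Lie algebra has a root decomposition
-/

namespace STC

theorem RootDec.exists {d : ℕ} (S : SC d) : ∃ r M : ℕ, Nonempty (RootDec S r M) := by
  obtain ⟨r, M, ⟨P⟩⟩ := PreDec.exists S
  exact ⟨r, M, ⟨P.toRootDec⟩⟩

/-- the rank is the largest number of linearly independent commuting elements -/
theorem RootDec.exists_max {d : ℕ} (S : SC d) : ∃ r M : ℕ, Nonempty (RootDec S r M) ∧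
    ∀ (n : ℕ) (H' : Fin n → Fin d → ℝ), LinearIndependent ℝ H' →
      (∀ j k, S.br (cx (H' j)) (cx (H' k)) = 0) → n ≤ r := by
  obtain ⟨r, M, ⟨P⟩, h⟩ := PreDec.exists_max S
  exact ⟨r, M, ⟨P.toRootDec⟩, h⟩

end STC
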