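import Pool.Agent.STC.DerInt
import Pool.Agent.STC.DerInv
import Pool.Agent.STC.DerLap
import Pool.Agent.STC.FundRel
import Pool.Agent.STC.SCMain

/-!
# STC/Asm : assembly of the Lie group data of a closed connected centreless subgroup of `U(N)`

`opv`: the vectors of the operators `h k = -i D_{H_k}`, `E b`, `F b = D_{E_b^*}`, `E_b^* ~ - star E_b`.
`opv_adj`: the adjoint vector `- star (opv o)` is `opv o.adj`. `opv_span`: they span `ℂ^d`, because
`cx (H k)`, `E b`, `star (E b)` do (`expand` with `bas_orth`, see `STC/SCRel`; a `RootDec` gives a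
`PreDec` by forgetting). Relations: `DD_br`, `brHH`, `brHE`, `brEF`, `brEE`, `brEFne`; for `hF` and
`FF` conjugate: `br (star x) (star y) = star (br x y)` (`br_star`), `star (cx x) = cx x`. For spans use
`Submodule.map_span`/`Submodule.span_induction` along the linear map `DD B`.
`lgd_finite`: `alg_finite`. `lgd_taylor`: the span of all words `l.foldr (fun o g => DD (opv o) g) f`
is invariant under `DD (opv o)`, so under all `DD x` (`opv_span`, linearity), all its members vanish
at `1`; `taylor_sub`. `lgd_R_of_D`, `lgd_D_of_R`: linearity and `opv_span`.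
`h_of_torus`: `x = s e_k`: `torus (s e_k) = ex hH s` for `X = toMat (cx (H k))` (same matrix,
`mat_injective`), so `f (z ex(s)) = exp (i c_k s) f z`; differentiate at `s = 0` (`hasDerivAt_dfun`),
`DX_eq_DD`.
-/

open MeasureTheory
open scoped ComplexConjugate

namespace STC

namespace CG

variable {N : ℕ} {K : ClosedSubgroup (UG N)} {d : ℕ} (B : LieBasis K.toSubgroup K.isClosed' d)
  {r M : ℕ} (P : RootDec B.sc r M)

/-- the vectors of the operators -/
noncomputable def opv : Op r M → Fin d → ℂ
  | Sum.inl k => -Complex.I • cx (P.H k)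
  | Sum.inr (Sum.inl b) => P.E b
  | Sum.inr (Sum.inr b) => -star (P.E b)

theorem opv_adj (o : Op r M) : -star (opv B P o) = opv B P o.adj := by
  rcases o with k | b | b
  · simp only [opv, Op.adj]
    rw [star_smul, star_cx, star_neg, Complex.star_def, Complex.conj_I, neg_neg, neg_smul]
  · rfl
  · simp only [opv, Op.adj]
    rw [star_neg, star_star, neg_neg]

/-- forget the relations between the root vectors -/
private def Asm_pre : PreDec B.sc r M where
  H := P.H
  E := P.E
  root := P.root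
  H0 := P.H0
  dim := P.dim
  hipHH := P.hipHH
  hipEE := P.hipEE
  hipEsE := P.hipEsE
  hipEH := P.hipEH
  brHH := P.brHH
  brHE := P.brHE
  root_pos := P.root_pos

theorem opv_span (x : Fin d → ℂ) : x ∈ Submodule.span ℂ (Set.range (opv B P)) := by
  have hcard : Fintype.card (Fin r ⊕ (Fin M ⊕ Fin M)) = d := by
    simp only [Fintype.card_sum, Fintype.card_fin]
    have := P.dim
    omega
  have hx := expand (Asm_pre B P).bas (Asm_pre B P).bas_orth hcard x
  rw [hx]
  refine Submodule.sum_mem _ fun a _ => Submodule.smul_mem _ _ ?_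
  rcases a with k | b | b
  · have h1 : (Asm_pre B P).bas (Sum.inl k) = Complex.I • opv B P (Sum.inl k) := by
      change cx (P.H k) = Complex.I • (-Complex.I • cx (P.H k))
      rw [smul_smul, mul_neg, Complex.I_mul_I, neg_neg, one_smul]
    rw [h1]
    exact Submodule.smul_mem _ _ (Submodule.subset_span ⟨_, rfl⟩)
  · exact Submodule.subset_span ⟨Sum.inr (Sum.inl b), rfl⟩
  · have h1 : (Asm_pre B P).bas (Sum.inr (Sum.inr b)) = -opv B P (Sum.inr (Sum.inr b)) := by
      change star (P.E b) = -(-star (P.E b))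
      rw [neg_neg]
    rw [h1]
    exact Submodule.neg_mem _ (Submodule.subset_span ⟨_, rfl⟩)

theorem rel_hh (j k : Fin r) :
    ⁅DD B (opv B P (Sum.inl j)), DD B (opv B P (Sum.inl k))⁆ = 0 := by
  rw [DD_br]
  have h : B.sc.br (opv B P (Sum.inl j)) (opv B P (Sum.inl k)) = 0 := by
    simp only [opv]
    rw [map_smul, map_smul, LinearMap.smul_apply, P.brHH, smul_zero, smul_zero]
  rw [h, map_zero]

theorem rel_hE (k : Fin r) (b : Fin M) :
    ⁅DD B (opv B P (Sum.inl k)), DD B (opv B P (Sum.inr (Sum.inl b)))⁆ =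
      (P.root b k : ℂ) • DD B (opv B P (Sum.inr (Sum.inl b))) := by
  rw [DD_br, ← map_smul]
  congr 1
  simp only [opv]
  rw [map_smul, LinearMap.smul_apply, P.brHE, smul_smul]
  congr 1
  linear_combination (-(P.root b k : ℂ)) * Complex.I_mul_I

private theorem Asm_br_star (k : Fin r) (b : Fin M) :
    B.sc.br (cx (P.H k)) (star (P.E b)) = (-(Complex.I * (P.root b k : ℂ))) • star (P.E b) := by
  conv_lhs => rw [← star_cx (P.H k)]
  rw [B.sc.br_star, P.brHE, star_smul]
  congr 1
  rw [star_mul', Complex.star_def, Complex.conj_I, Complex.conj_ofReal]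
  ring

theorem rel_hF (k : Fin r) (b : Fin M) :
    ⁅DD B (opv B P (Sum.inl k)), DD B (opv B P (Sum.inr (Sum.inr b)))⁆ =
      -((P.root b k : ℂ) • DD B (opv B P (Sum.inr (Sum.inr b)))) := by
  rw [DD_br, ← map_smul, ← map_neg (DD B)]
  congr 1
  simp only [opv]
  rw [map_smul, LinearMap.smul_apply, map_neg, Asm_br_star, smul_neg, smul_neg, smul_smul, neg_neg,
    ← neg_smul]
  congr 1
  linear_combination (-(P.root b k : ℂ)) * Complex.I_mul_I

theorem rel_EF (b : Fin M) :
    ⁅DD B (opv B P (Sum.inr (Sum.inl b))), DD B (opv B P (Sum.inr (Sum.inr b)))⁆ =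
      ∑ k, (P.root b k : ℂ) • DD B (opv B P (Sum.inl k)) := by
  rw [DD_br]
  simp only [opv]
  rw [P.brEF, Finset.smul_sum, ← Finset.sum_neg_distrib, map_sum]
  refine Finset.sum_congr rfl fun k _ => ?_
  rw [← map_smul]
  congr 1
  rw [smul_smul, smul_smul, ← neg_smul]
  congr 1
  ring

private theorem Asm_span {s : Set (Fin d → ℂ)} {t : Set (Derivation ℂ (rep K).A (rep K).A)}
    {z : Fin d → ℂ} (hz : z ∈ Submodule.span ℂ s) (h : ∀ Z ∈ s, DD B Z ∈ Submodule.span ℂ t) :
    DD B z ∈ Submodule.span ℂ t := by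
  have h1 : Submodule.span ℂ s ≤ (Submodule.span ℂ t).comap (DD B) := Submodule.span_le.2 h
  exact h1 hz

private theorem Asm_star {s : Set (Fin d → ℂ)} {t : Set (Fin d → ℂ)}
    {z : Fin d → ℂ} (hz : z ∈ Submodule.span ℂ s) (h : ∀ Z ∈ s, star Z ∈ Submodule.span ℂ t) :
    star z ∈ Submodule.span ℂ t := by
  induction hz using Submodule.span_induction with
  | mem x hx => exact h x hx
  | zero => rw [star_zero]; exact Submodule.zero_mem _
  | add x y _ _ hx hy => rw [star_add]; exact Submodule.add_mem _ hx hy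
  | smul a x _ hx => rw [star_smul]; exact Submodule.smul_mem _ _ hx

theorem rel_EE (b c : Fin M) :
    ⁅DD B (opv B P (Sum.inr (Sum.inl b))), DD B (opv B P (Sum.inr (Sum.inl c)))⁆ ∈
      Submodule.span ℂ {D | ∃ e, P.root e = P.root b + P.root c ∧
        D = DD B (opv B P (Sum.inr (Sum.inl e)))} := by
  rw [DD_br]
  refine Asm_span B (P.brEE b c) ?_
  rintro Z ⟨e, he, rfl⟩
  exact Submodule.subset_span ⟨e, he, rfl⟩

theorem rel_FF (b c : Fin M) :
    ⁅DD B (opv B P (Sum.inr (Sum.inr b))), DD B (opv B P (Sum.inr (Sum.inr c)))⁆ ∈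
      Submodule.span ℂ {D | ∃ e, P.root e = P.root b + P.root c ∧
        D = DD B (opv B P (Sum.inr (Sum.inr e)))} := by
  rw [DD_br]
  have h1 : B.sc.br (opv B P (Sum.inr (Sum.inr b))) (opv B P (Sum.inr (Sum.inr c))) =
      star (B.sc.br (P.E b) (P.E c)) := by
    simp only [opv]
    rw [map_neg, map_neg, LinearMap.neg_apply, neg_neg, B.sc.br_star]
  rw [h1]
  have h2 : star (B.sc.br (P.E b) (P.E c)) ∈ Submodule.span ℂ
      {Z | ∃ e, P.root e = P.root b + P.root c ∧ Z = opv B P (Sum.inr (Sum.inr e))} := by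
    refine Asm_star (P.brEE b c) ?_
    rintro Z ⟨e, he, rfl⟩
    rw [← neg_neg (star (P.E e))]
    exact Submodule.neg_mem _ (Submodule.subset_span ⟨e, he, rfl⟩)
  refine Asm_span B h2 ?_
  rintro Z ⟨e, he, rfl⟩
  exact Submodule.subset_span ⟨e, he, rfl⟩

theorem rel_EFne (b c : Fin M) (hbc : b ≠ c) :
    ⁅DD B (opv B P (Sum.inr (Sum.inl b))), DD B (opv B P (Sum.inr (Sum.inr c)))⁆ ∈
      Submodule.span ℂ
        ({D | ∃ e, P.root b = P.root c + P.root e ∧ D = DD B (opv B P (Sum.inr (Sum.inl e)))} ∪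
          {D | ∃ e, P.root c = P.root b + P.root e ∧
            D = DD B (opv B P (Sum.inr (Sum.inr e)))}) := by
  rw [DD_br]
  refine Asm_span B (P.brEFne b c hbc) ?_
  rintro Z (⟨e, he, rfl⟩ | ⟨e, he, rfl⟩)
  · exact Submodule.subset_span (Or.inl ⟨e, he, rfl⟩)
  · exact Submodule.subset_span (Or.inr ⟨e, he, rfl⟩)

theorem h_of_torus (f : (rep K).A) (c : Fin r → ℝ)
    (hf : ∀ x, (rep K).R (torus B P x) f = Complex.exp (Complex.I * (dot c x : ℂ)) • f)
    (k : Fin r) : DD B (-Complex.I • cx (P.H k)) f = (c k : ℂ) • f := by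
  have hX : B.toMat (cx (P.H k)) ∈ lieSet K.toSubgroup := B.toMat_cx_mem (P.H k)
  have htor : ∀ s : ℝ, torus B P (Pi.single k s) = ex hX s := by
    intro s
    apply mat_injective
    unfold torus
    rw [mat_ex, mat_ex, one_smul]
    congr 1
    have h1 : (∑ j, (Pi.single k s : Fin r → ℝ) j • P.H j) = s • P.H k := by
      rw [Finset.sum_eq_single k]
      · rw [Pi.single_eq_same]
      · intro j _ hj
        rw [Pi.single_eq_of_ne hj, zero_smul]
      · intro h
        exact absurd (Finset.mem_univ k) h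
    rw [h1]
    have h2 : cx (s • P.H k) = (s : ℂ) • cx (P.H k) := by
      ext i
      simp [cx]
    rw [h2, map_smul]
    ext a b
    simp only [Matrix.smul_apply, smul_eq_mul, Complex.real_smul]
  have hdot : ∀ s : ℝ, dot c (Pi.single k s) = c k * s := by
    intro s
    unfold dot
    rw [Finset.sum_eq_single k]
    · rw [Pi.single_eq_same]
    · intro j _ hj
      rw [Pi.single_eq_of_ne hj, mul_zero]
    · intro h
      exact absurd (Finset.mem_univ k) h
  have hval : ∀ (z : CG K) (s : ℝ), f.1 (z * ex hX s) =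
      Complex.exp ((Complex.I * (c k : ℂ)) * (s : ℂ)) * f.1 z := by
    intro z s
    have h1 := congrArg (fun g : (rep K).A => g.1 z) (hf (Pi.single k s))
    rw [htor, hdot] at h1
    have h2 : ((rep K).R (ex hX s) f).1 z = f.1 (z * ex hX s) := rfl
    rw [h2] at h1
    rw [h1]
    change Complex.exp (Complex.I * ((c k * s : ℝ) : ℂ)) * f.1 z = _
    congr 2
    push_cast
    ring
  have hD : DX hX f = (Complex.I * (c k : ℂ)) • f := by
    apply Subtype.ext
    funext z
    rw [DX_apply]
    have h1 := hasDerivAt_dfun hX f.1 f.2 z 0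
    rw [ex_zero, mul_one] at h1
    have h2 : HasDerivAt (fun s : ℝ => f.1 (z * ex hX s)) ((Complex.I * (c k : ℂ)) * f.1 z) 0 := by
      have h3 : (fun s : ℝ => f.1 (z * ex hX s)) =
          fun s : ℝ => Complex.exp ((Complex.I * (c k : ℂ)) * (s : ℂ)) * f.1 z :=
        funext fun s => hval z s
      rw [h3]
      have h4 : HasDerivAt (fun s : ℝ => Complex.exp ((Complex.I * (c k : ℂ)) * (s : ℂ)))
          (Complex.exp ((Complex.I * (c k : ℂ)) * ((0 : ℝ) : ℂ)) * ((Complex.I * (c k : ℂ)) * 1))
          (0 : ℝ) := by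
        have h5 : HasDerivAt (fun s : ℝ => (s : ℂ)) 1 (0 : ℝ) := Complex.ofRealCLM.hasDerivAt
        exact (h5.const_mul (Complex.I * (c k : ℂ))).cexp
      have h6 := h4.mul_const (f.1 z)
      rw [Complex.ofReal_zero, mul_zero, Complex.exp_zero, one_mul, mul_one] at h6
      exact h6
    exact h1.unique h2
  rw [map_smul]
  change -Complex.I • DD B (cx (P.H k)) f = _
  rw [← DX_eq_DD B (P.H k) hX, hD, smul_smul]
  congr 1
  linear_combination (-(c k : ℂ)) * Complex.I_mul_I

private theorem Asm_inv (W : Submodule ℂ (rep K).A)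
    (hW : ∀ o, ∀ f ∈ W, DD B (opv B P o) f ∈ W) (x : Fin d → ℂ) (f : (rep K).A) (hf : f ∈ W) :
    DD B x f ∈ W := by
  have hx := opv_span B P x
  induction hx using Submodule.span_induction with
  | mem x hx =>
    obtain ⟨o, rfl⟩ := hx
    exact hW o f hf
  | zero =>
    rw [map_zero]
    exact Submodule.zero_mem _
  | add x y _ _ hx hy =>
    rw [map_add]
    exact Submodule.add_mem _ hx hy
  | smul a x _ hx =>
    rw [map_smul]
    exact Submodule.smul_mem _ a hx

theorem lgd_taylor (hc : IsPreconnected (K.toSubgroup : Set (UG N))) (f : (rep K).A)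
    (h : ∀ l : List (Op r M), (l.foldr (fun o g => DD B (opv B P o) g) f).1 1 = 0) : f = 0 := by
  set W : Submodule ℂ (rep K).A := Submodule.span ℂ
    (Set.range fun l : List (Op r M) => l.foldr (fun o g => DD B (opv B P o) g) f) with hW
  have h1 : ∀ o, ∀ g ∈ W, DD B (opv B P o) g ∈ W := by
    intro o g hg
    induction hg using Submodule.span_induction with
    | mem x hx =>
      obtain ⟨l, rfl⟩ := hx
      exact Submodule.subset_span ⟨o :: l, rfl⟩
    | zero =>
      rw [map_zero]
      exact Submodule.zero_mem _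
    | add x y _ _ hx hy =>
      rw [map_add]
      exact Submodule.add_mem _ hx hy
    | smul a x _ hx =>
      rw [Derivation.map_smul]
      exact Submodule.smul_mem _ a hx
  have h2 : ∀ g ∈ W, g.1 1 = 0 := by
    intro g hg
    induction hg using Submodule.span_induction with
    | mem x hx =>
      obtain ⟨l, rfl⟩ := hx
      exact h l
    | zero => rfl
    | add x y _ _ hx hy =>
      change x.1 1 + y.1 1 = 0
      rw [hx, hy, add_zero]
    | smul a x _ hx =>
      change a • x.1 1 = 0
      rw [hx, smul_zero]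
  exact taylor_sub B hc W (Asm_inv B P W h1) h2 f (Submodule.subset_span ⟨[], rfl⟩)

theorem lgd_R_of_D (hc : IsPreconnected (K.toSubgroup : Set (UG N))) (W : Submodule ℂ (rep K).A)
    (hW : ∀ o, ∀ f ∈ W, DD B (opv B P o) f ∈ W) (y : CG K) (f : (rep K).A) (hf : f ∈ W) :
    (rep K).R y f ∈ W :=
  R_of_D B hc W (Asm_inv B P W hW) y f hf

end CG

end STC
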