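import Pool.Agent.STC.Asm

/-!
# STC/AsmLgd : the Lie group data of a closed connected centreless subgroup of `U(N)`
-/

open MeasureTheory
open scoped ComplexConjugate

namespace STC

namespace CG

variable {N : ℕ} {K : ClosedSubgroup (UG N)} {d : ℕ} (B : LieBasis K.toSubgroup K.isClosed' d)
  {r M : ℕ} {P : RootDec B.sc r M} (Q : Simple P)

/-- the algebra with the operators -/
noncomputable def opAlg (P : RootDec B.sc r M) : OpAlg (CG K) r M where
  toRepAlg := rep K
  D o := DD B (opv B P o)

theorem opAlg_lap (f : (rep K).A) : (opAlg B P).lap f = lapB B f := by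
  rw [lapB_root B P f]
  rfl

/-- the Lie group data -/
noncomputable def lgd (hc : IsPreconnected (K.toSubgroup : Set (UG N))) : LGD (CG K) r M where
  toOpAlg := opAlg B P
  root := P.root
  H0 := P.H0
  sim := Q.sim
  coef := Q.coef
  fund := fundf B Q
  tor := torus B P
  finite := alg_finite
  D_L := fun o x f => DD_L B (opv B P o) x f
  D_J := fun o o' f => DD_J B (opv B P o) (opv B P o') f
  D_J_one := fun o f => DD_J_one B (opv B P o) f
  lap_R := fun y f => by
    have h1 := opAlg_lap B (P := P) ((rep K).R y f)
    have h2 := opAlg_lap B (P := P) f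
    have h3 := lapB_R B y f
    exact (h1.trans h3).trans (congrArg ((rep K).R y) h2.symm)
  adj := fun o f g => by
    have h := adj_DD B (opv B P o) f g
    rw [opv_adj] at h
    exact h
  taylor := fun f h => lgd_taylor B P hc f h
  R_of_D := fun W hW y f hf => lgd_R_of_D B P hc W hW y f hf
  D_of_R := fun W hW o f hf => D_of_R B W hW (opv B P o) f hf
  tor_add := torus_add B P
  tor_cont := torus_cont B P
  tor_eig := fun f c hf x => torus_eig B P f c hf x
  h_of_tor := fun f c hf k => h_of_torus B P f c hf k
  hh := fun j k => rel_hh B P j k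
  hE := fun k b => rel_hE B P k b
  hF := fun k b => rel_hF B P k b
  EF := fun b => rel_EF B P b
  EE := fun b c => rel_EE B P b c
  FF := fun b c => rel_FF B P b c
  EFne := fun b c hbc => rel_EFne B P b c hbc
  root_pos := fun b => P.root_pos b
  sim_indep := Q.indep
  sim_root := Q.sim_root
  root_eq := Q.root_eq
  killing := P.killing
  fund_one := fundf_one B Q
  fund_h := fun i k => fundf_h B Q i k
  fund_E := fun i b => fundf_E B Q i b
  fund_F := fun i j b hij hb => fundf_F B Q i j b hij hb

theorem lgd_toRepAlg (hc : IsPreconnected (K.toSubgroup : Set (UG N))) :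
    (lgd B Q hc).toRepAlg = rep K := rfl

theorem lgd_lap (hc : IsPreconnected (K.toSubgroup : Set (UG N))) (f : (rep K).A) :
    (lgd B Q hc).lap f = lapB B f := opAlg_lap B f

/-- **Main theorem of layer 0.** For a closed connected subgroup of `U(N)` and a basis of its Lie
algebra which is orthonormal for minus the Killing form there is a root decomposition with simple
roots, hence Lie group data `lgd B Q hc`. -/
theorem exists_rootData : ∃ (r M : ℕ) (P : RootDec B.sc r M), Nonempty (Simple P) := by
  obtain ⟨r, M, ⟨P⟩⟩ := RootDec.exists B.sc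
  obtain ⟨sim, coef, h1, h2, h3⟩ := P.exists_simple
  exact ⟨r, M, P, ⟨⟨sim, coef, h1, h2, h3⟩⟩⟩

end CG

end STC
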