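import Pool.Agent.STC.Iface

/-!
# STC/Circ: the circle `ℝ/ℤ`, written multiplicatively, with metric `α dt²` (length `2 π √α`)

`φ_k = fourier k`, `k ∈ ℤ`, `d = 1`, eigenvalue `k²/α`.

PROOF. `schur`: `φ_k(x) φ_l(g⁻¹ x⁻¹ z) = φ_l(z) conj φ_l(g) · fourier (k - l) x` and
`∫ fourier j = 0` for `j ≠ 0` (see `orthonormal_fourier` or `integral_fourier`; with
`volume` on `UnitAddCircle` a probability measure). KERNEL FAMILY (`M = 0`, `C = 2`): for every `N` one
piece: `B = [-2N, 2N]`, `D = 1`, `supp = [-4N, 4N]`, `κ_k = #{(a,b) ∈ B² : a + b = k}/(4N+1)`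
`= (4N + 1 - |k|)/(4N+1) ≥ 3/4` for `|k| ≤ N`, `mid = [-N, N]`; `∑ κ_k φ_k = F²/(4N+1)`,
`F = ∑_{a ∈ B} φ_a`, `∫ |F|² = 4N+1`.
-/

open MeasureTheory
open scoped ComplexConjugate

namespace STC

/-- The circle `ℝ/ℤ` as a multiplicative group. -/
abbrev Circ : Type := Multiplicative UnitAddCircle

noncomputable instance : MeasureSpace Circ := inferInstanceAs (MeasureSpace UnitAddCircle)

instance : BorelSpace Circ := inferInstanceAs (BorelSpace UnitAddCircle)

instance : IsProbabilityMeasure (volume : Measure Circ) := ⟨UnitAddCircle.measure_univ⟩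

private lemma circ_add (k : ℤ) (x y : UnitAddCircle) :
    (fourier k (x + y) : ℂ) = fourier k x * fourier k y := by
  rw [fourier_apply, fourier_apply, fourier_apply, smul_add, AddCircle.toCircle_add,
    Circle.coe_mul]

private lemma circ_neg (k : ℤ) (x : UnitAddCircle) :
    (fourier k (-x) : ℂ) = conj (fourier k x) := by
  rw [fourier_apply, smul_neg, fourier_neg']

private lemma circ_norm (k : ℤ) (x : UnitAddCircle) : ‖(fourier k x : ℂ)‖ = 1 := by
  rw [fourier_apply]
  exact Circle.norm_coe _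

private lemma circ_mul_conj (k : ℤ) (x : UnitAddCircle) :
    (fourier k x : ℂ) * conj (fourier k x) = 1 := by
  rw [Complex.mul_conj, Complex.normSq_eq_norm_sq, circ_norm]
  norm_num

private lemma circ_int (n : ℤ) (hn : n ≠ 0) : ∫ y : UnitAddCircle, (fourier n y : ℂ) = 0 :=
  integral_eq_zero_of_add_right_eq_neg (μ := (volume : Measure UnitAddCircle))
    (fourier_add_half_inv_index hn one_pos)

private lemma circ_toAdd (g x z : Circ) : Multiplicative.toAdd (g⁻¹ * x⁻¹ * z) =
    -Multiplicative.toAdd g + -Multiplicative.toAdd x + Multiplicative.toAdd z := rfl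

private lemma circ_prod (k l : ℤ) (x z g : Circ) :
    (fourier k (Multiplicative.toAdd x) : ℂ) *
      fourier l (Multiplicative.toAdd (g⁻¹ * x⁻¹ * z)) =
      (fourier l (Multiplicative.toAdd z) * conj (fourier l (Multiplicative.toAdd g))) *
        fourier (k - l) (Multiplicative.toAdd x) := by
  rw [circ_toAdd, circ_add, circ_add, circ_neg, circ_neg, sub_eq_add_neg k l, fourier_add,
    fourier_neg]
  ring

private lemma circ_schur (k l : ℤ) (z g : Circ) :
    ∫ x : Circ, (fourier k (Multiplicative.toAdd x) : ℂ) *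
      fourier l (Multiplicative.toAdd (g⁻¹ * x⁻¹ * z)) =
      (fourier l (Multiplicative.toAdd z) * conj (fourier l (Multiplicative.toAdd g))) *
        (if k = l then 1 else 0) := by
  simp only [circ_prod]
  rw [integral_const_mul]
  congr 1
  by_cases h : k = l
  · rw [if_pos h]
    simp only [h, sub_self, fourier_zero]
    rw [integral_const]
    simp
  · rw [if_neg h]
    exact circ_int (k - l) (sub_ne_zero.2 h)

/-- The family of the characters of the circle with metric `α dt²`. -/
noncomputable def TFam.circ (α : ℝ) (hα : 0 < α) : TFam Circ Unit where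
  Λ := ℤ
  φ k x := fourier k (Multiplicative.toAdd x)
  d _ := 1
  w k _ := k
  tor θ := Multiplicative.ofAdd ((θ () / (2 * Real.pi) : ℝ) : UnitAddCircle)
  cas k := (k : ℝ) ^ 2 / α
  q _ := 1 / α
  ell _ _ := 1
  eta _ := 0
  cont := fun k => (fourier k).continuous.comp continuous_toAdd
  one_le_d := fun _ => le_refl 1
  φ_one := fun k => fourier_eval_zero k
  φ_inv := fun k y => (circ_neg k (Multiplicative.toAdd y)).symm
  φ_le := fun k y => (circ_norm k (Multiplicative.toAdd y)).le
  schur := fun k z g => by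
    rw [circ_schur, if_pos rfl, mul_one]
    simp
  schur_ne := fun l m h z g => by
    rw [circ_schur, if_neg (Ne.symm h), mul_zero]
  w_inj := fun k l h => congrFun h ()
  tor_add := fun x y => by
    show Multiplicative.ofAdd ((((x + y) () / (2 * Real.pi) : ℝ)) : UnitAddCircle) =
      Multiplicative.ofAdd (((x () / (2 * Real.pi) : ℝ) : UnitAddCircle) +
        ((y () / (2 * Real.pi) : ℝ) : UnitAddCircle))
    rw [← AddCircle.coe_add, Pi.add_apply, add_div]
  tor_cont := continuous_ofAdd.comp ((AddCircle.continuous_mk' 1).comp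
    ((continuous_apply ()).div_const _))
  φ_tor := fun k z θ => by
    have h1 : (fourier k (Multiplicative.toAdd (z * Multiplicative.ofAdd
        ((θ () / (2 * Real.pi) : ℝ) : UnitAddCircle))) : ℂ) =
        fourier k (Multiplicative.toAdd z) *
          fourier k ((θ () / (2 * Real.pi) : ℝ) : UnitAddCircle) := circ_add k _ _
    rw [h1, fourier_coe_apply, mul_comm]
    congr 2
    have hpi : (Real.pi : ℂ) ≠ 0 := Complex.ofReal_ne_zero.2 Real.pi_ne_zero
    simp only [Finset.univ_unique, Finset.sum_singleton]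
    push_cast
    field_simp
  q_pos := fun _ => by positivity
  ell_inj := fun x h => by
    funext i
    have h1 := h i
    simpa using h1
  cas_eq := fun k => by
    simp only [Finset.univ_unique, Finset.sum_singleton]
    push_cast
    ring
  cas_nonneg := fun k => by positivity

theorem KernFam.circ (α : ℝ) (hα : 0 < α) : Nonempty (KernFam (TFam.circ α hα) 0) := by
  let B : ℕ → Finset ℤ := fun N => Finset.Icc (-(2 * (N : ℤ))) (2 * N)
  let U : ℕ → Finset ℤ := fun N => Finset.Icc (-(4 * (N : ℤ))) (4 * N)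
  let W : ℕ → Finset ℤ := fun N => Finset.Icc (-(N : ℤ)) N
  let c : ℕ → ℤ → ℕ := fun N k => ((B N).filter fun a => k - a ∈ B N).card
  have hBcard : ∀ N, (B N).card = 4 * N + 1 := by
    intro N
    simp only [B, Int.card_Icc]
    omega
  have hcle : ∀ N k, c N k ≤ 4 * N + 1 := by
    intro N k
    rw [← hBcard N]
    exact Finset.card_filter_le _ _
  have hcge : ∀ (N : ℕ) (k : ℤ), k ∈ Finset.Icc (-(N : ℤ)) N → 2 * N + 1 ≤ c N k := by
    intro N k hk
    rw [Finset.mem_Icc] at hk
    have h1 : (Finset.Icc (-(N : ℤ)) N).card = 2 * N + 1 := by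
      rw [Int.card_Icc]
      omega
    rw [← h1]
    refine Finset.card_le_card fun a ha => ?_
    rw [Finset.mem_Icc] at ha
    simp only [Finset.mem_filter, B, Finset.mem_Icc]
    omega
  -- the square of the Dirichlet kernel
  have hsq : ∀ (N : ℕ) (x : UnitAddCircle), (∑ a ∈ B N, (fourier a x : ℂ)) ^ 2 =
      ∑ k ∈ U N, (c N k : ℂ) * fourier k x := by
    intro N x
    rw [sq, Finset.sum_mul_sum]
    have h1 : ∀ a ∈ B N, ∑ b ∈ B N, (fourier a x : ℂ) * fourier b x =
        ∑ k ∈ U N, if k - a ∈ B N then (fourier k x : ℂ) else 0 := by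
      intro a ha
      rw [← Finset.sum_filter]
      refine Finset.sum_nbij' (fun b => a + b) (fun k => k - a) ?_ ?_ ?_ ?_ ?_
      · intro b hb
        simp only [Finset.mem_filter, B, U, Finset.mem_Icc] at ha hb ⊢
        omega
      · intro k hk
        exact (Finset.mem_filter.1 hk).2
      · intro b _
        ring
      · intro k _
        ring
      · intro b _
        rw [fourier_add]
    rw [Finset.sum_congr rfl h1, Finset.sum_comm]
    refine Finset.sum_congr rfl fun k _ => ?_
    rw [← Finset.sum_filter, Finset.sum_const, nsmul_eq_mul]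
  have hint : ∀ (N : ℕ), ∫ x : UnitAddCircle, ‖∑ a ∈ B N, (fourier a x : ℂ)‖ ^ 2 =
      4 * (N : ℝ) + 1 := by
    intro N
    have h1 : ∀ x : UnitAddCircle, ((‖∑ a ∈ B N, (fourier a x : ℂ)‖ ^ 2 : ℝ) : ℂ) =
        ∑ a ∈ B N, ∑ b ∈ B N, (fourier (a - b) x : ℂ) := by
      intro x
      rw [← Complex.normSq_eq_norm_sq, ← Complex.mul_conj, map_sum, Finset.sum_mul_sum]
      refine Finset.sum_congr rfl fun a _ => Finset.sum_congr rfl fun b _ => ?_
      rw [sub_eq_add_neg, fourier_add, fourier_neg]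
    have h2 : ((∫ x : UnitAddCircle, ‖∑ a ∈ B N, (fourier a x : ℂ)‖ ^ 2 : ℝ) : ℂ) =
        ((4 * (N : ℝ) + 1 : ℝ) : ℂ) := by
      rw [← integral_complex_ofReal]
      simp only [h1]
      have hi : ∀ n : ℤ, Integrable (fun x : UnitAddCircle => (fourier n x : ℂ)) := by
        intro n
        refine Integrable.mono' (integrable_const (1 : ℝ))
          (fourier n).continuous.aestronglyMeasurable ?_
        exact Filter.Eventually.of_forall fun x => (circ_norm n x).le
      rw [integral_finsetSum _ fun a _ => integrable_finsetSum _ fun b _ => hi (a - b)]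
      have h3 : ∀ a ∈ B N, ∫ x : UnitAddCircle, ∑ b ∈ B N, (fourier (a - b) x : ℂ) = 1 := by
        intro a ha
        rw [integral_finsetSum _ fun b _ => hi (a - b), Finset.sum_eq_single a]
        · simp only [sub_self, fourier_zero]
          rw [integral_const]
          have : (volume : Measure UnitAddCircle).real Set.univ = 1 := by
            rw [Measure.real, UnitAddCircle.measure_univ, ENNReal.toReal_one]
          rw [this, one_smul]
        · intro b _ hb
          exact circ_int (a - b) (sub_ne_zero.2 (Ne.symm hb))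
        · intro h
          exact absurd ha h
      rw [Finset.sum_congr rfl h3, Finset.sum_const, nsmul_eq_mul, mul_one, hBcard]
      push_cast
      ring
    exact Complex.ofReal_injective h2
  have hN : ∀ N : ℕ, (0 : ℝ) < 4 * (N : ℝ) + 1 := fun N => by positivity
  have key0 : ∀ N : ℕ, W N ⊆ U N := by
    intro N k hk
    simp only [W, Finset.mem_Icc] at hk
    simp only [U, Finset.mem_Icc]
    omega
  have key1 : ∀ (N : ℕ) (k : ℤ), |(k : ℝ)| ≤ N → k ∈ W N := by
    intro N k h2
    have h3 := abs_le.1 h2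
    simp only [W, Finset.mem_Icc]
    constructor
    · have h4 : ((-(N : ℤ) : ℤ) : ℝ) ≤ (k : ℝ) := by push_cast; linarith [h3.1]
      exact_mod_cast h4
    · have h4 : (k : ℝ) ≤ ((N : ℤ) : ℝ) := by push_cast; linarith [h3.2]
      exact_mod_cast h4
  have key2 : ∀ (N : ℕ) (k : ℤ), k ∈ W N → |(k : ℝ)| ≤ 2 * ((N : ℝ) + 1) := by
    intro N k hk
    simp only [W, Finset.mem_Icc] at hk
    have h2 : ((-(N : ℤ) : ℤ) : ℝ) ≤ (k : ℝ) := by exact_mod_cast hk.1
    have h3 : (k : ℝ) ≤ ((N : ℤ) : ℝ) := by exact_mod_cast hk.2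
    push_cast at h2 h3
    have h4 : (0 : ℝ) ≤ N := Nat.cast_nonneg N
    rw [abs_le]
    constructor <;> linarith
  refine ⟨{
    C := 2
    one_le_C := by norm_num
    n := fun _ => 1
    piece := fun N _ => {
      D := 1
      supp := U N
      κ := fun k => (c N k : ℝ) / (4 * (N : ℝ) + 1)
      mid := W N
      one_le_D := le_refl 1
      mid_sub := ?_
      norm_le := ?_
      κ_ge := ?_
      d_le := ?_
      κ_le := ?_
      le_d := ?_ }
    cover := ?_
    w_le := ?_
    sum_D := ?_ }⟩
  · exact key0 N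
  · have h1 : ∀ x : Circ, ‖∑ l ∈ U N, (((c N l : ℝ) / (4 * (N : ℝ) + 1) : ℝ) : ℂ) *
        (TFam.circ α hα).φ l x‖ = (4 * (N : ℝ) + 1)⁻¹ *
          ‖∑ a ∈ B N, (fourier a (Multiplicative.toAdd x) : ℂ)‖ ^ 2 := by
      intro x
      have h2 : ∑ l ∈ U N, (((c N l : ℝ) / (4 * (N : ℝ) + 1) : ℝ) : ℂ) *
          (TFam.circ α hα).φ l x = (((4 * (N : ℝ) + 1)⁻¹ : ℝ) : ℂ) *
            (∑ a ∈ B N, (fourier a (Multiplicative.toAdd x) : ℂ)) ^ 2 := by
        rw [hsq, Finset.mul_sum]
        refine Finset.sum_congr rfl fun k _ => ?_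
        show (((c N k : ℝ) / (4 * (N : ℝ) + 1) : ℝ) : ℂ) *
          (fourier k (Multiplicative.toAdd x) : ℂ) = _
        push_cast
        ring
      rw [h2, norm_mul, norm_pow, Complex.norm_real, Real.norm_of_nonneg (inv_nonneg.2 (hN N).le)]
    have h3 : ∫ x : Circ, ‖∑ l ∈ U N, (((c N l : ℝ) / (4 * (N : ℝ) + 1) : ℝ) : ℂ) *
        (TFam.circ α hα).φ l x‖ = 1 := by
      simp only [h1]
      rw [integral_const_mul]
      have h4 : ∫ x : Circ, ‖∑ a ∈ B N, (fourier a (Multiplicative.toAdd x) : ℂ)‖ ^ 2 =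
          4 * (N : ℝ) + 1 := hint N
      rw [h4]
      exact inv_mul_cancel₀ (hN N).ne'
    exact h3.le.trans (by norm_num)
  · intro k hk
    have h1 : ((2 * N + 1 : ℕ) : ℝ) ≤ (c N k : ℝ) := by exact_mod_cast hcge N k hk
    push_cast at h1
    show (1 : ℝ) ≤ 2 * ((c N k : ℝ) / (4 * (N : ℝ) + 1))
    rw [← mul_div_assoc, le_div_iff₀ (hN N)]
    linarith
  · intro k _
    show (1 : ℝ) ≤ 2 * 1
    norm_num
  · intro k _
    have h1 : (c N k : ℝ) ≤ ((4 * N + 1 : ℕ) : ℝ) := by exact_mod_cast hcle N k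
    push_cast at h1
    show |(c N k : ℝ) / (4 * (N : ℝ) + 1)| ≤ 2 * 1
    rw [abs_of_nonneg (by positivity)]
    have h2 : (c N k : ℝ) / (4 * (N : ℝ) + 1) ≤ 1 := (div_le_one (hN N)).2 h1
    linarith
  · intro k _
    show (1 : ℝ) ≤ 2 * 1
    norm_num
  · intro N k hk
    exact ⟨0, key1 N k (hk ())⟩
  · intro N i k hk _
    exact key2 N k hk
  · intro θ _
    refine ⟨1, fun N => ?_⟩
    simp

end STC
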