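import Pool.Agent.STC.Circ

/-!
# STC/CircHaar : the measure of the circle is the Haar measure
-/

open MeasureTheory

namespace STC

instance : Measure.IsMulLeftInvariant (volume : Measure Circ) :=
  ⟨fun g => (inferInstance : Measure.IsAddLeftInvariant
    (volume : Measure UnitAddCircle)).map_add_left_eq_self (Multiplicative.toAdd g)⟩

instance instHaarCirc : Measure.IsHaarMeasure (volume : Measure Circ) where
  toIsFiniteMeasureOnCompacts :=
    inferInstanceAs (IsFiniteMeasureOnCompacts (volume : Measure UnitAddCircle))
  toIsMulLeftInvariant := inferInstance
  toIsOpenPosMeasure :=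
    inferInstanceAs (Measure.IsOpenPosMeasure (volume : Measure UnitAddCircle))

end STC
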