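import Mathlib

/-!
# STC: highest weight theory of a compact connected group at the level of functions

`LGD K r M` (Lie group data) is the output of the Lie part (`STC/Lie*.lean`): the algebra `A` of
representative functions of the compact group `K`, the derivations `h k` (`-i` times the right
derivative along an orthonormal basis of a maximal torus, `k < r`), `E b`, `F b` (right derivatives
along an orthonormal basis of root vectors for the positive roots, `b < M`, and their adjoints), with
their commutation relations. All of the highest weight theory that we need (`STC/HW*.lean`) is proved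
from this structure. No other representation theory is used.

Convention: for `Z = X + iY` in the complexified Lie algebra, `D_Z f (z) = d/ds f (z exp (s Z))` at
`s = 0` (complex linear in `Z`).
-/

open MeasureTheory
open scoped ComplexConjugate

namespace STC

/-- dot product on `ℝ^r`. -/
def dot {r : ℕ} (x y : Fin r → ℝ) : ℝ := ∑ k, x k * y k

/-- An algebra of representative functions on the group `K`. -/
structure RepAlg (K : Type) [Group K] [TopologicalSpace K] where
  /-- the algebra -/
  A : Subalgebra ℂ (K → ℂ)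
  cont : ∀ f ∈ A, Continuous f
  conj_mem : ∀ f ∈ A, (fun z => conj (f z)) ∈ A
  left_mem : ∀ f ∈ A, ∀ x : K, (fun z => f (x⁻¹ * z)) ∈ A
  right_mem : ∀ f ∈ A, ∀ y : K, (fun z => f (z * y)) ∈ A
  inv_mem : ∀ f ∈ A, (fun z => f z⁻¹) ∈ A
  /-- `A` is uniformly dense in the continuous functions -/
  dense : ∀ f : K → ℂ, Continuous f → ∀ ε : ℝ, 0 < ε → ∃ g ∈ A, ∀ z, ‖f z - g z‖ < ε

namespace RepAlg

variable {K : Type} [Group K] [TopologicalSpace K] (S : RepAlg K)

/-- Left translation `(L x f)(z) = f (x⁻¹ z)`. -/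
def L (x : K) : S.A →ₗ[ℂ] S.A where
  toFun f := ⟨fun z => f.1 (x⁻¹ * z), S.left_mem f.1 f.2 x⟩
  map_add' f g := by ext z; rfl
  map_smul' c f := by ext z; rfl

/-- Right translation `(R y f)(z) = f (z y)`. -/
def R (y : K) : S.A →ₗ[ℂ] S.A where
  toFun f := ⟨fun z => f.1 (z * y), S.right_mem f.1 f.2 y⟩
  map_add' f g := by ext z; rfl
  map_smul' c f := by ext z; rfl

/-- Inversion `(J f)(z) = f (z⁻¹)`. -/
def J : S.A →ₗ[ℂ] S.A where
  toFun f := ⟨fun z => f.1 z⁻¹, S.inv_mem f.1 f.2⟩
  map_add' f g := by ext z; rfl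
  map_smul' c f := by ext z; rfl

/-- Complex conjugation (as a plain map). -/
def cj (f : S.A) : S.A := ⟨fun z => conj (f.1 z), S.conj_mem f.1 f.2⟩

@[simp] lemma L_apply (x : K) (f : S.A) (z : K) : (S.L x f).1 z = f.1 (x⁻¹ * z) := rfl
@[simp] lemma R_apply (y : K) (f : S.A) (z : K) : (S.R y f).1 z = f.1 (z * y) := rfl
@[simp] lemma J_apply (f : S.A) (z : K) : (S.J f).1 z = f.1 z⁻¹ := rfl
@[simp] lemma cj_apply (f : S.A) (z : K) : (S.cj f).1 z = conj (f.1 z) := rfl

end RepAlg

/-- Indices of the operators: `inl k` for `h k`, `inr (inl b)` for `E b`, `inr (inr b)` for `F b`. -/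
abbrev Op (r M : ℕ) : Type := Fin r ⊕ (Fin M ⊕ Fin M)

/-- The adjoint index: `h` is self-adjoint, `E` and `F` are exchanged. -/
def Op.adj {r M : ℕ} : Op r M → Op r M
  | Sum.inl k => Sum.inl k
  | Sum.inr (Sum.inl b) => Sum.inr (Sum.inr b)
  | Sum.inr (Sum.inr b) => Sum.inr (Sum.inl b)

/-- Representative functions with the operators `h`, `E`, `F`. -/
structure OpAlg (K : Type) [Group K] [TopologicalSpace K] (r M : ℕ) extends RepAlg K where
  D : Op r M → Derivation ℂ A A

namespace OpAlg

variable {K : Type} [Group K] [TopologicalSpace K] {r M : ℕ} (S : OpAlg K r M)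

/-- `-i` times the right derivative along the `k`-th basis vector of the torus. -/
def h (k : Fin r) : Derivation ℂ S.A S.A := S.D (Sum.inl k)
/-- right derivative along the positive root vector `b`. -/
def E (b : Fin M) : Derivation ℂ S.A S.A := S.D (Sum.inr (Sum.inl b))
/-- right derivative along the negative root vector `b`. -/
def F (b : Fin M) : Derivation ℂ S.A S.A := S.D (Sum.inr (Sum.inr b))

/-- The Laplace operator: `- ∑ h_k² - ∑ (E_b F_b + F_b E_b)`. -/
noncomputable def lap (f : S.A) : S.A :=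
  -(∑ k, S.h k (S.h k f)) - ∑ b, (S.E b (S.F b f) + S.F b (S.E b f))

end OpAlg

/-- Lie group data of a compact group `K`: rank `r`, number of positive roots (with multiplicity)
`M`. -/
structure LGD (K : Type) [Group K] [TopologicalSpace K] [MeasureSpace K] (r M : ℕ)
    extends OpAlg K r M where
  /-- the positive roots (with multiplicity), in coordinates of the orthonormal basis -/
  root : Fin M → Fin r → ℝ
  /-- a vector on which all positive roots are positive -/
  H0 : Fin r → ℝ
  /-- the simple roots -/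
  sim : Fin r → Fin r → ℝ
  /-- coefficients of the positive roots in the simple roots -/
  coef : Fin M → Fin r → ℕ
  /-- the functions `φ_{s_i}`, `s_i` = sum of the positive roots containing the simple root `i` -/
  fund : Fin r → A
  /-- the torus -/
  tor : (Fin r → ℝ) → K
  /-- every element lies in a finite dimensional space invariant under both translations -/
  finite : ∀ f : A, ∃ W : Submodule ℂ A, FiniteDimensional ℂ W ∧ f ∈ W ∧
    (∀ g ∈ W, ∀ x, toRepAlg.L x g ∈ W) ∧ (∀ g ∈ W, ∀ y, toRepAlg.R y g ∈ W)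
  /-- right derivatives commute with left translations -/
  D_L : ∀ o x (f : A), D o (toRepAlg.L x f) = toRepAlg.L x (D o f)
  /-- left derivatives commute with right derivatives -/
  D_J : ∀ o o' (f : A), toRepAlg.J (D o (toRepAlg.J (D o' f))) =
    D o' (toRepAlg.J (D o (toRepAlg.J f)))
  /-- left derivatives at the identity -/
  D_J_one : ∀ o (f : A), (D o (toRepAlg.J f)).1 1 = -(D o f).1 1
  /-- the Laplace operator commutes with right translations -/
  lap_R : ∀ y (f : A), toOpAlg.lap (toRepAlg.R y f) = toRepAlg.R y (toOpAlg.lap f)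
  /-- adjoint relations in `L²(K)` -/
  adj : ∀ o (f g : A), ∫ z, (D o f).1 z * conj (g.1 z) = ∫ z, f.1 z * conj ((D o.adj g).1 z)
  /-- a function all of whose right derivatives vanish at `1` is zero -/
  taylor : ∀ f : A, (∀ l : List (Op r M), (l.foldr (fun o g => D o g) f).1 1 = 0) → f = 0
  /-- invariance under the operators implies invariance under right translations -/
  R_of_D : ∀ W : Submodule ℂ A, (∀ o, ∀ f ∈ W, D o f ∈ W) → ∀ y, ∀ f ∈ W, toRepAlg.R y f ∈ W
  /-- and conversely -/
  D_of_R : ∀ W : Submodule ℂ A, (∀ y, ∀ f ∈ W, toRepAlg.R y f ∈ W) → ∀ o, ∀ f ∈ W, D o f ∈ W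
  tor_add : ∀ x y, tor (x + y) = tor x * tor y
  tor_cont : Continuous tor
  tor_eig : ∀ (f : A) (c : Fin r → ℝ), (∀ k, D (Sum.inl k) f = (c k : ℂ) • f) → ∀ x,
    toRepAlg.R (tor x) f = Complex.exp (Complex.I * (dot c x : ℂ)) • f
  /-- functions which transform under the torus are eigenfunctions of the `h k` -/
  h_of_tor : ∀ (f : A) (c : Fin r → ℝ),
    (∀ x, toRepAlg.R (tor x) f = Complex.exp (Complex.I * (dot c x : ℂ)) • f) →
      ∀ k, D (Sum.inl k) f = (c k : ℂ) • f
  /-- commutation relations -/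
  hh : ∀ j k, ⁅toOpAlg.h j, toOpAlg.h k⁆ = 0
  hE : ∀ k b, ⁅toOpAlg.h k, toOpAlg.E b⁆ = (root b k : ℂ) • toOpAlg.E b
  hF : ∀ k b, ⁅toOpAlg.h k, toOpAlg.F b⁆ = -((root b k : ℂ) • toOpAlg.F b)
  EF : ∀ b, ⁅toOpAlg.E b, toOpAlg.F b⁆ = ∑ k, (root b k : ℂ) • toOpAlg.h k
  EE : ∀ b c, ⁅toOpAlg.E b, toOpAlg.E c⁆ ∈
    Submodule.span ℂ {D | ∃ e, root e = root b + root c ∧ D = toOpAlg.E e}
  FF : ∀ b c, ⁅toOpAlg.F b, toOpAlg.F c⁆ ∈
    Submodule.span ℂ {D | ∃ e, root e = root b + root c ∧ D = toOpAlg.F e}
  EFne : ∀ b c, b ≠ c → ⁅toOpAlg.E b, toOpAlg.F c⁆ ∈ Submodule.span ℂ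
    ({D | ∃ e, root b = root c + root e ∧ D = toOpAlg.E e} ∪
      {D | ∃ e, root c = root b + root e ∧ D = toOpAlg.F e})
  root_pos : ∀ b, 0 < dot (root b) H0
  sim_indep : LinearIndependent ℝ sim
  sim_root : ∀ i, ∃ b, root b = sim i
  root_eq : ∀ b, root b = ∑ i, (coef b i : ℝ) • sim i
  /-- normalisation of the inner product: it is minus the Killing form -/
  killing : ∀ x y : Fin r → ℝ, dot x y = 2 * ∑ b, dot (root b) x * dot (root b) y
  fund_one : ∀ i, (fund i).1 1 = 1
  fund_h : ∀ i k, toOpAlg.h k (fund i) =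
    ((∑ b with 0 < coef b i, root b k : ℝ) : ℂ) • fund i
  fund_E : ∀ i b, toOpAlg.E b (fund i) = 0
  fund_F : ∀ i j b, j ≠ i → root b = sim j → toOpAlg.F b (fund i) = 0

end STC
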