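import Pool.Agent.STC.LieL

/-!
# STC/LieAlg : the Lie algebra of a closed subgroup of `U(N)` is a real Lie algebra

Uses only `mem_lieSet_of_tendsto` (main lemma (L) of `STC/LieL`). Proofs in the doc strings.
-/

namespace STC

open Filter Topology
open scoped Matrix.Norms.L2Operator

variable {N : ℕ} {K : Subgroup (UG N)}

theorem zero_mem_lieSet : (0 : Mat N) ∈ lieSet K := by
  intro s
  refine ⟨1, K.one_mem, ?_⟩
  rw [smul_zero, NormedSpace.exp_zero]
  rfl

theorem smul_mem_lieSet {X : Mat N} (hX : X ∈ lieSet K) (c : ℝ) : c • X ∈ lieSet K := by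
  intro s
  obtain ⟨u, hu, h⟩ := hX (s * c)
  refine ⟨u, hu, ?_⟩
  rw [h, mul_smul]

theorem hasDerivAt_expr (X : Mat N) :
    HasDerivAt (fun s : ℝ => NormedSpace.exp (s • X)) X 0 := by
  have h := hasDerivAt_exp_smul_const (𝕂 := ℝ) X (0 : ℝ)
  rw [zero_smul, NormedSpace.exp_zero, one_mul] at h
  exact h

/-- (L) with `w n = exp (X / (n + 1)) exp (Y / (n + 1))`, `ε n = 1 / (n + 1)`: the product function
`ε ↦ exp (ε X) exp (ε Y)` has derivative `X + Y` at `0`. -/
theorem add_mem_lieSet (hK : IsClosed (K : Set (UG N))) {X Y : Mat N} (hX : X ∈ lieSet K)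
    (hY : Y ∈ lieSet K) : X + Y ∈ lieSet K := by
  have hε : ∀ n : ℕ, (0 : ℝ) < 1 / ((n : ℝ) + 1) := fun n => by positivity
  have hε0 : Tendsto (fun n : ℕ => (1 : ℝ) / ((n : ℝ) + 1)) atTop (𝓝 0) :=
    tendsto_one_div_add_atTop_nhds_zero_nat
  choose u hu hu' using fun n : ℕ => hX (1 / ((n : ℝ) + 1))
  choose v hv hv' using fun n : ℕ => hY (1 / ((n : ℝ) + 1))
  refine mem_lieSet_of_tendsto hK (fun n => u n * v n) (fun n => K.mul_mem (hu n) (hv n))
    (fun n => 1 / ((n : ℝ) + 1)) hε hε0 (X + Y) ?_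
  have hd : HasDerivAt (fun s : ℝ => NormedSpace.exp (s • X) * NormedSpace.exp (s • Y))
      (X + Y) 0 := by
    have h := (hasDerivAt_expr X).mul (hasDerivAt_expr Y)
    simp only [zero_smul, NormedSpace.exp_zero, mul_one, one_mul] at h
    exact h
  have h1 := hd.tendsto_slope_zero
  have h2 : Tendsto (fun n : ℕ => (1 : ℝ) / ((n : ℝ) + 1)) atTop (𝓝[≠] 0) :=
    tendsto_nhdsWithin_of_tendsto_nhds_of_eventually_within _ hε0
      (Eventually.of_forall fun n => (hε n).ne')
  refine (h1.comp h2).congr fun n => ?_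
  simp only [Function.comp_apply, zero_add, zero_smul, NormedSpace.exp_zero, mul_one]
  rw [Submonoid.coe_mul, hu', hv']

/-- differentiate `exp (s X) * star (exp (s X)) = 1` at `s = 0` -/
theorem star_of_mem_lieSet {X : Mat N} (hX : X ∈ lieSet K) : star X = -X := by
  have h1 : ∀ s : ℝ, NormedSpace.exp (s • X) * star (NormedSpace.exp (s • X)) = 1 := by
    intro s
    obtain ⟨u, _, h⟩ := hX s
    rw [← h]
    exact Unitary.mul_star_self_of_mem u.2
  have h2 : HasDerivAt (fun s : ℝ => NormedSpace.exp (s • X) * star (NormedSpace.exp (s • X)))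
      (X + star X) 0 := by
    have h := (hasDerivAt_expr X).mul (hasDerivAt_expr X).star
    simp only [zero_smul, NormedSpace.exp_zero, star_one, mul_one, one_mul] at h
    exact h
  have h3 : HasDerivAt (fun s : ℝ => NormedSpace.exp (s • X) * star (NormedSpace.exp (s • X)))
      (0 : Mat N) 0 := by
    have : (fun s : ℝ => NormedSpace.exp (s • X) * star (NormedSpace.exp (s • X))) =
        fun _ => (1 : Mat N) := funext h1
    rw [this]
    exact hasDerivAt_const _ _
  have h4 := h2.unique h3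
  exact eq_neg_of_add_eq_zero_right h4

/-- `u exp (s X) u⁻¹ = exp (s (u X u⁻¹))` -/
theorem conj_mem_lieSet {X : Mat N} (hX : X ∈ lieSet K) {u : UG N} (hu : u ∈ K) :
    (u : Mat N) * X * star (u : Mat N) ∈ lieSet K := by
  intro s
  obtain ⟨v, hv, h⟩ := hX s
  refine ⟨u * v * u⁻¹, K.mul_mem (K.mul_mem hu hv) (K.inv_mem hu), ?_⟩
  have h1 := Matrix.exp_units_conj (Unitary.toUnits u) (s • X)
  have h2 : ((Unitary.toUnits u : (Mat N)ˣ) : Mat N) = u := rfl
  have h3 : (((Unitary.toUnits u)⁻¹ : (Mat N)ˣ) : Mat N) = star (u : Mat N) := rfl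
  rw [h2, h3] at h1
  have h4 : ((u * v * u⁻¹ : UG N) : Mat N) = (u : Mat N) * v * star (u : Mat N) := rfl
  rw [h4, h, ← h1, mul_smul_comm, smul_mul_assoc]

/-- `lieSet K` is closed: `exp` is continuous and `K` is closed -/
theorem isClosed_lieSet (hK : IsClosed (K : Set (UG N))) : IsClosed (lieSet K) := by
  have h1 : IsClosed ((fun u : UG N => (u : Mat N)) '' (K : Set (UG N))) :=
    (IsClosed.isClosedEmbedding_subtypeVal isClosed_unitary).isClosedMap _ hK
  have h2 : lieSet K = ⋂ s : ℝ, (fun X : Mat N => NormedSpace.exp (s • X)) ⁻¹'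
      ((fun u : UG N => (u : Mat N)) '' (K : Set (UG N))) := by
    ext X
    simp only [lieSet, Set.mem_ofPred_eq, Set.mem_iInter, Set.mem_preimage, Set.mem_image,
      SetLike.mem_coe]
  rw [h2]
  have hc : Continuous (NormedSpace.exp : Mat N → Mat N) := continuous_iff_continuousAt.2
    fun x => (NormedSpace.exp_analytic (𝕂 := ℂ) x).continuousAt
  exact isClosed_iInter fun s => h1.preimage (hc.comp (continuous_const_smul s))

/-- `[X, Y]` is the limit of `s⁻¹ (exp (s X) Y exp (- s X) - Y)` as `s → 0`, these are in `lieSet K`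
by the previous statements, and `lieSet K` is closed. -/
theorem bracket_mem_lieSet (hK : IsClosed (K : Set (UG N))) {X Y : Mat N} (hX : X ∈ lieSet K)
    (hY : Y ∈ lieSet K) : X * Y - Y * X ∈ lieSet K := by
  have hd : HasDerivAt (fun s : ℝ => NormedSpace.exp (s • X) * Y *
      star (NormedSpace.exp (s • X))) (X * Y - Y * X) 0 := by
    have h := ((hasDerivAt_expr X).mul_const Y).mul (hasDerivAt_expr X).star
    simp only [zero_smul, NormedSpace.exp_zero, star_one, mul_one, one_mul] at h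
    rw [star_of_mem_lieSet hX, mul_neg, ← sub_eq_add_neg] at h
    exact h
  have h1 := hd.tendsto_slope_zero
  refine (isClosed_lieSet hK).mem_of_tendsto h1 (Eventually.of_forall fun s => ?_)
  refine smul_mem_lieSet ?_ s⁻¹
  obtain ⟨u, hu, h⟩ := hX s
  have h2 := conj_mem_lieSet hY hu
  rw [h] at h2
  have h3 := add_mem_lieSet hK h2 (smul_mem_lieSet hY (-1))
  simp only [zero_add, zero_smul, NormedSpace.exp_zero, star_one, mul_one, one_mul]
  rwa [neg_smul, one_smul, ← sub_eq_add_neg] at h3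

end STC
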