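import Pool.Agent.STC.Rep
import Pool.Agent.STC.LieAlg

/-!
# STC/Der : right derivatives of representative functions

`hasDeriv_all`: for `f ∈ alg K` the function `s ↦ f (z exp (s X))` is differentiable and its
derivative at `s` is `g (z exp (s X))` with `g ∈ alg K`. PROOF by `Algebra.adjoin_induction`:
`ent i j`: `(z exp (s X))_ij`, derivative `(z exp (s X) X)_ij = Σ_k (z exp (s X))_ik X_kj`
(`hasDerivAt_exp_smul_const`), so `g = Σ_k X_kj • ent i k`. `entc i j`: conjugate. Constants, sums and
products: sum and product rule.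
`dX X hX f z = deriv (fun s => f (z * ex hX s)) 0`. It is in `alg K`, linear in `f`, satisfies the
product rule. `ex_add`: `exp ((s + t) X) = exp (s X) exp (t X)` and `mat_injective`.
-/

open MeasureTheory
open scoped ComplexConjugate Matrix.Norms.L2Operator

namespace STC

namespace CG

variable {N : ℕ} {K : ClosedSubgroup (UG N)} {X : Mat N} (hX : X ∈ lieSet K.toSubgroup)

theorem ex_zero : ex hX 0 = 1 := by
  apply mat_injective
  rw [mat_ex, mat_one, zero_smul, NormedSpace.exp_zero]

theorem ex_add (s t : ℝ) : ex hX (s + t) = ex hX s * ex hX t := by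
  apply mat_injective
  rw [mat_mul, mat_ex, mat_ex, mat_ex, add_smul]
  exact Matrix.exp_add_of_commute _ _ (((Commute.refl X).smul_left s).smul_right t)

theorem ex_neg (s : ℝ) : ex hX (-s) = (ex hX s)⁻¹ := by
  apply eq_inv_of_mul_eq_one_left
  rw [← ex_add, neg_add_cancel, ex_zero]

theorem continuous_ex : Continuous (ex hX) := by
  have h1 : Continuous (fun s : ℝ => (ex hX s).mat) := by
    have h2 : (fun s : ℝ => (ex hX s).mat) = fun s : ℝ => NormedSpace.exp (s • X) :=
      funext fun s => mat_ex hX s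
    rw [h2]
    have hc : Continuous (NormedSpace.exp : Mat N → Mat N) := continuous_iff_continuousAt.2
      fun x => (NormedSpace.exp_analytic (𝕂 := ℂ) x).continuousAt
    exact hc.comp (continuous_id.smul continuous_const)
  exact continuous_induced_rng.2 (continuous_induced_rng.2 h1)

/-- the entry as a continuous real linear map -/
private noncomputable def entL (i j : Fin N) : Mat N →L[ℝ] ℂ :=
  LinearMap.toContinuousLinearMap
    { toFun := fun M => M i j
      map_add' := fun _ _ => rfl
      map_smul' := fun _ _ => rfl }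

private theorem entL_apply (i j : Fin N) (M : Mat N) : entL i j M = M i j := rfl

private theorem hasDeriv_ent (i j : Fin N) (z : CG K) (s : ℝ) :
    HasDerivAt (fun s : ℝ => (z * ex hX s).mat i j) (((z * ex hX s).mat * X) i j) s := by
  have h := (hasDerivAt_exp_smul_const (𝕂 := ℝ) X s).const_mul z.mat
  have h2 := (entL (N := N) i j).hasFDerivAt.comp_hasDerivAt s h
  have e1 : (entL (N := N) i j ∘ fun y : ℝ => z.mat * NormedSpace.exp (y • X)) =
      fun s : ℝ => (z * ex hX s).mat i j := by
    funext s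
    simp only [Function.comp_apply, entL_apply, mat_mul, mat_ex]
  rw [e1] at h2
  refine h2.congr_deriv ?_
  rw [entL_apply, mat_mul, mat_ex, mul_assoc]

private theorem sum_ent_mem (i j : Fin N) (X : Mat N) :
    (fun z : CG K => (z.mat * X) i j) ∈ alg K := by
  have e : (fun z : CG K => (z.mat * X) i j) = ∑ k, X k j • ent K i k := by
    funext z
    rw [Matrix.mul_apply, Finset.sum_apply]
    exact Finset.sum_congr rfl fun k _ => mul_comm _ _
  rw [e]
  exact Subalgebra.sum_mem _ fun k _ => Subalgebra.smul_mem _ (ent_mem i k) _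

theorem hasDeriv_all (f : CG K → ℂ) (hf : f ∈ alg K) :
    ∃ g ∈ alg K, ∀ z s, HasDerivAt (fun s : ℝ => f (z * ex hX s)) (g (z * ex hX s)) s := by
  induction hf using Algebra.adjoin_induction with
  | mem f hf =>
    obtain ⟨i, j, rfl | rfl⟩ := hf
    · exact ⟨_, sum_ent_mem i j X, fun z s => hasDeriv_ent hX i j z s⟩
    · refine ⟨_, alg_conj _ (sum_ent_mem i j X), fun z s => ?_⟩
      exact (hasDeriv_ent hX i j z s).star
  | algebraMap c =>
    refine ⟨0, Subalgebra.zero_mem _, fun z s => ?_⟩
    exact hasDerivAt_const s c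
  | add f g _ _ hf hg =>
    obtain ⟨f', hf', h1⟩ := hf
    obtain ⟨g', hg', h2⟩ := hg
    exact ⟨f' + g', Subalgebra.add_mem _ hf' hg', fun z s => (h1 z s).add (h2 z s)⟩
  | mul f g hf0 hg0 hf hg =>
    obtain ⟨f', hf', h1⟩ := hf
    obtain ⟨g', hg', h2⟩ := hg
    exact ⟨f' * g + f * g', Subalgebra.add_mem _ (Subalgebra.mul_mem _ hf' hg0)
      (Subalgebra.mul_mem _ hf0 hg'), fun z s => (h1 z s).mul (h2 z s)⟩

/-- the right derivative along `X` -/
noncomputable def dfun (f : CG K → ℂ) : CG K → ℂ := fun z => deriv (fun s : ℝ => f (z * ex hX s)) 0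

private theorem dfun_eq {f g : CG K → ℂ}
    (h : ∀ z s, HasDerivAt (fun s : ℝ => f (z * ex hX s)) (g (z * ex hX s)) s) :
    dfun hX f = g := by
  funext z
  have h1 := (h z 0).deriv
  rw [ex_zero, mul_one] at h1
  exact h1

theorem dfun_mem (f : CG K → ℂ) (hf : f ∈ alg K) : dfun hX f ∈ alg K := by
  obtain ⟨g, hg, h⟩ := hasDeriv_all hX f hf
  rw [dfun_eq hX h]
  exact hg

theorem hasDerivAt_dfun (f : CG K → ℂ) (hf : f ∈ alg K) (z : CG K) (s : ℝ) :
    HasDerivAt (fun s : ℝ => f (z * ex hX s)) (dfun hX f (z * ex hX s)) s := by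
  obtain ⟨g, hg, h⟩ := hasDeriv_all hX f hf
  rw [dfun_eq hX h]
  exact h z s

/-- the right derivative along `X` as a derivation of the algebra of representative functions -/
noncomputable def DX : Derivation ℂ (rep K).A (rep K).A :=
  Derivation.mk' (R := ℂ) (A := (rep K).A) (M := (rep K).A)
    { toFun := fun f => ⟨dfun hX f.1, dfun_mem hX f.1 f.2⟩
      map_add' := by
        intro f g
        apply Subtype.ext
        exact dfun_eq hX fun z s => (hasDerivAt_dfun hX f.1 f.2 z s).add
          (hasDerivAt_dfun hX g.1 g.2 z s)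
      map_smul' := by
        intro c f
        apply Subtype.ext
        exact dfun_eq hX fun z s => (hasDerivAt_dfun hX f.1 f.2 z s).const_smul c } (by
    intro f g
    apply Subtype.ext
    refine dfun_eq hX fun z s => ?_
    refine ((hasDerivAt_dfun hX f.1 f.2 z s).mul (hasDerivAt_dfun hX g.1 g.2 z s)).congr_deriv ?_
    change _ = f.1 _ * dfun hX g.1 _ + g.1 _ * dfun hX f.1 _
    ring)

theorem DX_apply (f : (rep K).A) (z : CG K) : (DX hX f).1 z = dfun hX f.1 z := rfl

theorem DX_ent (i j : Fin N) (z : CG K) :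
    (DX hX ⟨ent K i j, ent_mem i j⟩).1 z = (z.mat * X) i j := by
  exact congrFun (dfun_eq hX (g := fun z => (z.mat * X) i j) fun z s => hasDeriv_ent hX i j z s) z

theorem DX_entc (i j : Fin N) (z : CG K) :
    (DX hX ⟨entc K i j, entc_mem i j⟩).1 z = conj ((z.mat * X) i j) := by
  exact congrFun (dfun_eq hX (g := fun z => conj ((z.mat * X) i j)) fun z s =>
    (hasDeriv_ent hX i j z s).star) z

/-- two derivations which agree on the generators are equal -/
theorem der_ext (D D' : Derivation ℂ (rep K).A (rep K).A)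
    (h : ∀ i j, D ⟨ent K i j, ent_mem i j⟩ = D' ⟨ent K i j, ent_mem i j⟩)
    (h' : ∀ i j, D ⟨entc K i j, entc_mem i j⟩ = D' ⟨entc K i j, entc_mem i j⟩) : D = D' := by
  refine Derivation.ext_of_adjoin_eq_top _ (Algebra.adjoin_adjoin_coe_preimage (s := gens K)) ?_
  rintro ⟨f, hf⟩ hf'
  obtain ⟨i, j, rfl | rfl⟩ := hf'
  · exact h i j
  · exact h' i j

end CG

end STC
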