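import Pool.Agent.STC.HWDefs

/-!
# STC/Haar: invariance of the Haar probability measure

PROOF. For a compact group the Haar probability measure `volume` is left invariant (instance). Right
invariance: `Measure.map (· * g) volume` is again a Haar probability measure, so equal to `volume`
(`Measure.isHaarMeasure_eq_of_isProbabilityMeasure`), see `STZ.su2_map_mul_right`. Inverse invariance:
as in `Pool/Agent/STZ/Defs.lean` (instance `IsInvInvariant` for SU2): `volume.inv` is left invariant,
a probability measure, and `Measure.isMulInvariant_eq_smul_of_compactSpace`. Then the statements are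
`integral_mul_right_eq_self`, `integral_inv_eq_self`, `integral_mul_left_eq_self`. `integral_swap'` is
`integral_integral_swap` (a continuous function on the compact space `K × K` is bounded and
measurable, second countability gives `BorelSpace (K × K)`, so it is integrable for the product of two
probability measures), or `MeasureTheory.integral_integral_swap_of_hasCompactSupport`.
-/

set_option linter.unusedSectionVars false

open MeasureTheory
open scoped ComplexConjugate

namespace STC

variable {K : Type} [Group K] [TopologicalSpace K] [IsTopologicalGroup K] [CompactSpace K] [T2Space K]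
  [SecondCountableTopology K] [MeasureSpace K] [BorelSpace K]
  [Measure.IsHaarMeasure (volume : Measure K)] [IsProbabilityMeasure (volume : Measure K)]

private lemma map_mul_right (g : K) :
    Measure.map (fun x => x * g) (volume : Measure K) = volume := by
  have h1 : Measure.IsHaarMeasure (Measure.map (fun x => x * g) (volume : Measure K)) :=
    Measure.isHaarMeasure_map_mul_right _ _
  have h2 : IsProbabilityMeasure (Measure.map (fun x => x * g) (volume : Measure K)) :=
    Measure.isProbabilityMeasure_map (measurable_mul_const g).aemeasurable
  exact Measure.isHaarMeasure_eq_of_isProbabilityMeasure _ _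

private lemma right_inv : Measure.IsMulRightInvariant (volume : Measure K) :=
  ⟨map_mul_right⟩

private lemma haar_inv : Measure.IsInvInvariant (volume : Measure K) := by
  constructor
  have h0 : Measure.IsMulLeftInvariant (volume : Measure K).inv := by
    constructor
    intro g
    unfold Measure.inv
    rw [Measure.map_map (measurable_const_mul g) measurable_inv]
    have h3 : ((fun x : K => g * x) ∘ Inv.inv) = Inv.inv ∘ (fun x : K => x * g⁻¹) := by
      ext1 x
      simp [_root_.mul_inv_rev]
    rw [h3, ← Measure.map_map measurable_inv (measurable_mul_const _), map_mul_right]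
  have h2 : IsProbabilityMeasure (volume : Measure K).inv :=
    Measure.isProbabilityMeasure_map measurable_inv.aemeasurable
  have h4 := Measure.isMulInvariant_eq_smul_of_compactSpace (volume : Measure K).inv volume
  have h5 : (Measure.haarScalarFactor (volume : Measure K).inv volume : ENNReal) = 1 := by
    have h6 := congrArg (fun μ : Measure K => μ Set.univ) h4
    simp only [measure_univ, Measure.smul_apply] at h6
    simpa [ENNReal.smul_def] using h6.symm
  rw [h4]
  have h7 : Measure.haarScalarFactor (volume : Measure K).inv volume = 1 := by
    exact_mod_cast h5
  rw [h7, one_smul]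

lemma int_left (f : K → ℂ) (x : K) : ∫ z, f (x * z) = ∫ z, f z :=
  integral_mul_left_eq_self f x

lemma int_right (f : K → ℂ) (y : K) : ∫ z, f (z * y) = ∫ z, f z := by
  have := right_inv (K := K)
  exact integral_mul_right_eq_self f y

lemma int_inv (f : K → ℂ) : ∫ z, f z⁻¹ = ∫ z, f z := by
  have := haar_inv (K := K)
  exact integral_inv_eq_self f volume

lemma int_of_cont {f : K → ℂ} (hf : Continuous f) : Integrable f :=
  hf.integrable_of_hasCompactSupport (HasCompactSupport.of_compactSpace f)

lemma int_swap {f : K → K → ℂ} (hf : Continuous (Function.uncurry f)) :
    ∫ x, ∫ y, f x y = ∫ y, ∫ x, f x y :=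
  integral_integral_swap_of_hasCompactSupport hf (HasCompactSupport.of_compactSpace _)

/-- `z ↦ ∫ f x z dx` is continuous. -/
lemma cont_int {f : K → K → ℂ} (hf : Continuous (Function.uncurry f)) :
    Continuous fun z => ∫ x, f x z := by
  obtain ⟨C, hC⟩ := (isCompact_range (continuous_norm.comp hf)).bddAbove
  refine continuous_of_dominated (F := fun z x => f x z) (bound := fun _ => C) ?_ ?_ ?_ ?_
  · intro z
    have h1 : Continuous fun x => f x z := hf.comp (continuous_id.prodMk continuous_const)
    exact h1.aestronglyMeasurable
  · intro z
    exact Filter.Eventually.of_forall (fun x => hC ⟨(x, z), rfl⟩)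
  · exact integrable_const C
  · exact Filter.Eventually.of_forall (fun x => hf.comp (continuous_const.prodMk continuous_id))

/-- a continuous nonnegative function with zero integral vanishes -/
lemma eq_zero_of_int {f : K → ℝ} (hf : Continuous f) (h0 : ∀ z, 0 ≤ f z) (h : ∫ z, f z = 0) :
    ∀ z, f z = 0 := by
  have hi : Integrable f :=
    hf.integrable_of_hasCompactSupport (HasCompactSupport.of_compactSpace f)
  have h1 : f =ᵐ[volume] 0 := (integral_eq_zero_iff_of_nonneg h0 hi).1 h
  have h2 : f = 0 := (Continuous.ae_eq_iff_eq volume hf continuous_const).1 h1
  intro z
  rw [h2]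
  rfl

end STC
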