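import Pool.Agent.STC.DerLin
import Pool.Agent.STC.Haar

/-!
# STC/DerInt : adjoint relations

`int_DX`: `s ↦ ∫ h (z ex(s)) dz` is constant (right invariance of the Haar measure, see `STC/Haar`),
and its derivative at `0` is `∫ (DX h)` (differentiation under the integral sign,
`hasDerivAt_integral_of_dominated_loc_of_deriv_le`: the derivative of `s ↦ h (z ex(s))` is
`(DX h)(z ex(s))` by `hasDerivAt_dfun`, bounded by the maximum of the continuous function `|DX h|` on
the compact group). `adj_DD`: apply `int_DX` for `X_i` to `h = f * cj g`, product rule, `DD_cj`: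
`∫ (DX f) conj g = - ∫ f conj (DX g)`; then take the combination with coefficients `x_i`.
-/

open MeasureTheory
open scoped ComplexConjugate

namespace STC

namespace CG

variable {N : ℕ} {K : ClosedSubgroup (UG N)} {d : ℕ} (B : LieBasis K.toSubgroup K.isClosed' d)

theorem int_DX {X : Mat N} (hX : X ∈ lieSet K.toSubgroup) (h : (rep K).A) :
    ∫ z, (DX hX h).1 z = 0 := by
  have hc : Continuous h.1 := (rep K).cont h.1 h.2
  have hd : Continuous (dfun hX h.1) := (rep K).cont _ (DX hX h).2
  obtain ⟨M, hM⟩ := (isCompact_range (continuous_norm.comp hd)).bddAbove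
  have hM' : ∀ z, ‖dfun hX h.1 z‖ ≤ M := fun z => hM ⟨z, rfl⟩
  have key := hasDerivAt_integral_of_dominated_loc_of_deriv_le (μ := (volume : Measure (CG K)))
    (F := fun (s : ℝ) (z : CG K) => h.1 (z * ex hX s))
    (F' := fun (s : ℝ) (z : CG K) => dfun hX h.1 (z * ex hX s)) (x₀ := (0 : ℝ))
    (s := Set.univ) (bound := fun _ => M) Filter.univ_mem
    (Filter.Eventually.of_forall fun s =>
      (hc.comp (continuous_mul_const (ex hX s))).aestronglyMeasurable)
    (int_of_cont (hc.comp (continuous_mul_const (ex hX 0))))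
    (hd.comp (continuous_mul_const (ex hX 0))).aestronglyMeasurable
    (Filter.Eventually.of_forall fun z s _ => hM' _)
    (integrable_const M)
    (Filter.Eventually.of_forall fun z s _ => hasDerivAt_dfun hX h.1 h.2 z s)
  have h1 : (fun s : ℝ => ∫ z : CG K, h.1 (z * ex hX s)) = fun _ => ∫ z : CG K, h.1 z :=
    funext fun s => int_right h.1 (ex hX s)
  have h2 := key.2
  rw [h1] at h2
  have h3 := h2.unique (hasDerivAt_const (0 : ℝ) _)
  simp only [ex_zero, mul_one] at h3
  exact h3

private theorem int_DD (x : Fin d → ℂ) (h : (rep K).A) : ∫ z, (DD B x h).1 z = 0 := by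
  have e : ∀ z, (DD B x h).1 z = ∑ i, x i * (DX (B.mat_mem i) h).1 z := by
    intro z
    have h1 : DD B x h = ∑ i, x i • DX (B.mat_mem i) h := by
      change (∑ i, x i • DX (B.mat_mem i)) h = _
      have h0 := congrFun (map_sum (Derivation.coeFnAddMonoidHom (R := ℂ) (A := (rep K).A)
        (M := (rep K).A)) (fun i => x i • DX (B.mat_mem i)) Finset.univ) h
      rw [Finset.sum_apply] at h0
      exact h0
    rw [h1]
    simp [Finset.sum_apply]
  simp only [e]
  rw [integral_finsetSum]
  · refine Finset.sum_eq_zero fun i _ => ?_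
    rw [integral_const_mul, int_DX, mul_zero]
  · intro i _
    exact (int_of_cont ((rep K).cont _ (DX (B.mat_mem i) h).2)).const_mul _

theorem adj_DD (x : Fin d → ℂ) (f g : (rep K).A) :
    ∫ z, (DD B x f).1 z * conj (g.1 z) = ∫ z, f.1 z * conj ((DD B (-star x) g).1 z) := by
  have h1 := int_DD B x (f * (rep K).cj g)
  have h2 : ∀ z, (DD B x (f * (rep K).cj g)).1 z =
      f.1 z * conj ((DD B (star x) g).1 z) + (DD B x f).1 z * conj (g.1 z) := by
    intro z
    rw [Derivation.leibniz, DD_cj]
    change f.1 z * conj ((DD B (star x) g).1 z) + conj (g.1 z) * (DD B x f).1 z = _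
    ring
  have h3 : ∀ z, f.1 z * conj ((DD B (-star x) g).1 z) =
      -(f.1 z * conj ((DD B (star x) g).1 z)) := by
    intro z
    rw [map_neg]
    change f.1 z * conj (-((DD B (star x) g).1 z)) = _
    rw [map_neg, mul_neg]
  have i1 : Integrable fun z : CG K => f.1 z * conj ((DD B (star x) g).1 z) :=
    int_of_cont (((rep K).cont _ f.2).mul
      (Complex.continuous_conj.comp ((rep K).cont _ (DD B (star x) g).2)))
  have i2 : Integrable fun z : CG K => (DD B x f).1 z * conj (g.1 z) :=
    int_of_cont (((rep K).cont _ (DD B x f).2).mul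
      (Complex.continuous_conj.comp ((rep K).cont _ g.2)))
  simp only [h2] at h1
  rw [integral_add i1 i2] at h1
  simp only [h3]
  rw [integral_neg]
  linear_combination h1

end CG

end STC
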