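import Pool.Agent.STC.LieSC

/-!
# STC/LieAd : the adjoint representation in coordinates

`Ad u i j` is the `i`-th coordinate of `u X_j u^*` (in the Lie algebra by `conj_mem_lieSet`).
`Ad_orth`: `x ↦ u x u^*` is an automorphism of the Lie algebra (as a linear equivalence with inverse
`x ↦ u^* x u`), so it preserves the Killing form: `ad (u x u^*) = φ ∘ ad x ∘ φ⁻¹`,
`trace (φ T φ⁻¹) = trace T` (`LieAlgebra.killingForm_of_equiv_apply` or `LinearMap.trace_conj'`).
-/

open scoped ComplexConjugate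

namespace STC

attribute [local instance 100] LieRing.ofAssociativeRing

namespace LieBasis

variable {N : ℕ} {K : Subgroup (UG N)} {hK : IsClosed (K : Set (UG N))} {d : ℕ}
  (B : LieBasis K hK d)

/-- the adjoint representation in the basis `B` -/
noncomputable def Ad (u : K) : Matrix (Fin d) (Fin d) ℝ :=
  fun i j => B.X.repr ⟨(u.1 : Mat N) * B.mat j * star (u.1 : Mat N),
    conj_mem_lieSet (B.mat_mem j) u.2⟩ i

/-- conjugation, as an element of the Lie algebra -/
private noncomputable def cj (u : K) (x : lieAlg K hK) : lieAlg K hK :=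
  ⟨(u.1 : Mat N) * (x : Mat N) * star (u.1 : Mat N), conj_mem_lieSet x.2 u.2⟩

private theorem star_mul_self' (u : K) : star (u.1 : Mat N) * (u.1 : Mat N) = 1 :=
  Unitary.star_mul_self_of_mem u.1.2

private theorem self_mul_star' (u : K) : (u.1 : Mat N) * star (u.1 : Mat N) = 1 :=
  Unitary.mul_star_self_of_mem u.1.2

private theorem coe_sum (c : Fin d → ℝ) :
    ((∑ i, c i • B.X i : lieAlg K hK) : Mat N) = ∑ i, (c i : ℂ) • B.mat i := by
  have h1 : ((∑ i, c i • B.X i : lieAlg K hK) : Mat N) =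
      ∑ i, ((c i • B.X i : lieAlg K hK) : Mat N) :=
    map_sum ((lieAlg K hK).toSubmodule.subtype) _ _
  rw [h1]
  refine Finset.sum_congr rfl fun i _ => ?_
  have h2 : ((c i • B.X i : lieAlg K hK) : Mat N) = c i • B.mat i := rfl
  rw [h2]
  ext a b
  simp [Matrix.smul_apply]

theorem conj_mat (u : K) (j : Fin d) :
    (u.1 : Mat N) * B.mat j * star (u.1 : Mat N) = ∑ i, (B.Ad u i j : ℂ) • B.mat i := by
  have h1 := B.X.sum_repr (cj u (B.X j))
  have h2 := congrArg (fun x : lieAlg K hK => (x : Mat N)) h1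
  have h3 : ((∑ i, (B.X.repr (cj u (B.X j))) i • B.X i : lieAlg K hK) : Mat N) =
      ∑ i, ((B.X.repr (cj u (B.X j)) i : ℝ) : ℂ) • B.mat i := B.coe_sum _
  exact (h3.symm.trans h2).symm

private theorem mulVec_toMat (u : K) (x : Fin d → ℂ) :
    B.toMat (Matrix.mulVec ((B.Ad u).map ((↑) : ℝ → ℂ)) x) =
      (u.1 : Mat N) * B.toMat x * star (u.1 : Mat N) := by
  rw [toMat_apply, toMat_apply, Finset.mul_sum, Finset.sum_mul]
  have h1 : ∀ j, (u.1 : Mat N) * (x j • B.mat j) * star (u.1 : Mat N) =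
      ∑ i, ((B.Ad u i j : ℂ) * x j) • B.mat i := by
    intro j
    rw [mul_smul_comm, smul_mul_assoc, B.conj_mat u j, Finset.smul_sum]
    refine Finset.sum_congr rfl fun i _ => ?_
    rw [smul_smul, mul_comm]
  simp only [h1]
  rw [Finset.sum_comm]
  refine Finset.sum_congr rfl fun i _ => ?_
  rw [← Finset.sum_smul]
  rfl

theorem Ad_one : B.Ad 1 = 1 := by
  ext i j
  have h1 : cj (1 : K) (B.X j) = B.X j := by
    apply Subtype.ext
    have : ((cj (1 : K) (B.X j) : lieAlg K hK) : Mat N) =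
      (1 : Mat N) * (B.X j : Mat N) * star (1 : Mat N) := rfl
    rw [this, one_mul, star_one, mul_one]
  have h2 : B.Ad 1 i j = B.X.repr (cj (1 : K) (B.X j)) i := rfl
  rw [h2, h1, Module.Basis.repr_self, Finsupp.single_apply, Matrix.one_apply]
  simp only [eq_comm]

private theorem cj_X (u : K) (j : Fin d) : cj u (B.X j) = ∑ i, B.Ad u i j • B.X i :=
  (B.X.sum_repr (cj u (B.X j))).symm

theorem Ad_mul (u v : K) : B.Ad (u * v) = B.Ad u * B.Ad v := by
  have key : ∀ j, (Matrix.mulVec ((B.Ad (u * v)).map ((↑) : ℝ → ℂ)) (Pi.single j 1)) =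
      Matrix.mulVec ((B.Ad u).map ((↑) : ℝ → ℂ))
        (Matrix.mulVec ((B.Ad v).map ((↑) : ℝ → ℂ)) (Pi.single j 1)) := by
    intro j
    apply B.toMat_injective
    rw [mulVec_toMat, mulVec_toMat, mulVec_toMat]
    have h1 : (((u * v : K)).1 : Mat N) = (u.1 : Mat N) * (v.1 : Mat N) := rfl
    rw [h1, star_mul]
    simp only [mul_assoc]
  ext i j
  have h2 := congrFun (key j) i
  rw [Matrix.mulVec_single_one, Matrix.mulVec_single_one] at h2
  simp only [Matrix.col_apply, Matrix.map_apply, Matrix.mulVec, dotProduct] at h2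
  rw [Matrix.mul_apply]
  have h3 : ((B.Ad (u * v) i j : ℝ) : ℂ) = ((∑ k, B.Ad u i k * B.Ad v k j : ℝ) : ℂ) := by
    rw [h2]
    push_cast
    rfl
  exact Complex.ofReal_injective h3

/-- conjugation as an automorphism of the Lie algebra -/
private noncomputable def cjE (u : K) : lieAlg K hK ≃ₗ⁅ℝ⁆ lieAlg K hK where
  toFun := cj u
  invFun := cj u⁻¹
  map_add' x y := by
    apply Subtype.ext
    change (u.1 : Mat N) * ((x : Mat N) + (y : Mat N)) * star (u.1 : Mat N) =
      (u.1 : Mat N) * (x : Mat N) * star (u.1 : Mat N) +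
        (u.1 : Mat N) * (y : Mat N) * star (u.1 : Mat N)
    rw [mul_add, add_mul]
  map_smul' c x := by
    apply Subtype.ext
    change (u.1 : Mat N) * (c • (x : Mat N)) * star (u.1 : Mat N) =
      c • ((u.1 : Mat N) * (x : Mat N) * star (u.1 : Mat N))
    rw [mul_smul_comm, smul_mul_assoc]
  map_lie' {x y} := by
    apply Subtype.ext
    change (u.1 : Mat N) * ((x : Mat N) * (y : Mat N) - (y : Mat N) * (x : Mat N)) *
        star (u.1 : Mat N) =
      ((u.1 : Mat N) * (x : Mat N) * star (u.1 : Mat N)) *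
        ((u.1 : Mat N) * (y : Mat N) * star (u.1 : Mat N)) -
      ((u.1 : Mat N) * (y : Mat N) * star (u.1 : Mat N)) *
        ((u.1 : Mat N) * (x : Mat N) * star (u.1 : Mat N))
    have h := star_mul_self' u
    have h1 : ∀ a b : Mat N, ((u.1 : Mat N) * a * star (u.1 : Mat N)) *
        ((u.1 : Mat N) * b * star (u.1 : Mat N)) = (u.1 : Mat N) * (a * b) * star (u.1 : Mat N) := by
      intro a b
      calc ((u.1 : Mat N) * a * star (u.1 : Mat N)) * ((u.1 : Mat N) * b * star (u.1 : Mat N))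
          = (u.1 : Mat N) * a * (star (u.1 : Mat N) * (u.1 : Mat N)) * b *
            star (u.1 : Mat N) := by simp only [mul_assoc]
        _ = (u.1 : Mat N) * (a * b) * star (u.1 : Mat N) := by
            rw [h, mul_one]; simp only [mul_assoc]
    rw [h1, h1, mul_sub, sub_mul]
  left_inv x := by
    apply Subtype.ext
    change star (u.1 : Mat N) * ((u.1 : Mat N) * (x : Mat N) * star (u.1 : Mat N)) *
      star (star (u.1 : Mat N)) = (x : Mat N)
    have h := star_mul_self' u
    rw [star_star]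
    calc star (u.1 : Mat N) * ((u.1 : Mat N) * (x : Mat N) * star (u.1 : Mat N)) * (u.1 : Mat N)
        = (star (u.1 : Mat N) * (u.1 : Mat N)) * (x : Mat N) *
          (star (u.1 : Mat N) * (u.1 : Mat N)) := by simp only [mul_assoc]
      _ = (x : Mat N) := by rw [h, one_mul, mul_one]
  right_inv x := by
    apply Subtype.ext
    change (u.1 : Mat N) * (star (u.1 : Mat N) * (x : Mat N) * star (star (u.1 : Mat N))) *
      star (u.1 : Mat N) = (x : Mat N)
    have h := self_mul_star' u
    rw [star_star]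
    calc (u.1 : Mat N) * (star (u.1 : Mat N) * (x : Mat N) * (u.1 : Mat N)) * star (u.1 : Mat N)
        = ((u.1 : Mat N) * star (u.1 : Mat N)) * (x : Mat N) *
          ((u.1 : Mat N) * star (u.1 : Mat N)) := by simp only [mul_assoc]
      _ = (x : Mat N) := by rw [h, one_mul, mul_one]

private theorem transpose_mul (u : K) : (B.Ad u).transpose * B.Ad u = 1 := by
  ext j k
  have h1 : killingForm ℝ (lieAlg K hK) (cjE u (B.X j)) (cjE u (B.X k)) =
      killingForm ℝ (lieAlg K hK) (B.X j) (B.X k) :=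
    LieAlgebra.killingForm_of_equiv_apply (R := ℝ) (cjE u) (B.X j) (B.X k)
  have h2 : ∀ j, cjE u (B.X j) = ∑ i, B.Ad u i j • B.X i := fun j => B.cj_X u j
  rw [h2, h2] at h1
  simp only [map_sum, map_smul, LinearMap.sum_apply, LinearMap.smul_apply, smul_eq_mul,
    B.orth] at h1
  simp only [mul_ite, mul_zero, Finset.sum_ite_eq', Finset.mem_univ, if_true] at h1
  rw [Matrix.mul_apply, Matrix.one_apply]
  simp only [Matrix.transpose_apply]
  by_cases hjk : j = k
  · rw [if_pos hjk] at h1 ⊢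
    have h3 : ∑ i, B.Ad u i j * B.Ad u i k = -∑ i, B.Ad u i k * (B.Ad u i j * -1) := by
      rw [← Finset.sum_neg_distrib]
      exact Finset.sum_congr rfl fun i _ => by ring
    rw [h3]
    linarith
  · rw [if_neg hjk] at h1 ⊢
    have h3 : ∑ i, B.Ad u i j * B.Ad u i k = -∑ i, B.Ad u i k * (B.Ad u i j * -1) := by
      rw [← Finset.sum_neg_distrib]
      exact Finset.sum_congr rfl fun i _ => by ring
    rw [h3]
    linarith

/-- the matrices `Ad u` are orthogonal -/
theorem Ad_orth (u : K) : B.Ad u * (B.Ad u).transpose = 1 :=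
  mul_eq_one_comm.1 (B.transpose_mul u)

theorem Ad_orth' (u : K) : (B.Ad u).transpose * B.Ad u = 1 := B.transpose_mul u

theorem continuous_Ad (i j : Fin d) : Continuous fun u : K => B.Ad u i j := by
  obtain ⟨lam, hlam⟩ := B.exists_lam
  have h1 : ∀ u : K, ((B.Ad u i j : ℝ) : ℂ) =
      lam i ((u.1 : Mat N) * B.mat j * star (u.1 : Mat N)) := by
    intro u
    have h2 : ∑ i, (B.Ad u i j : ℂ) • B.mat i = B.toMat (fun i => (B.Ad u i j : ℂ)) := rfl
    rw [B.conj_mat u j, h2, hlam]
  have h3 : (fun u : K => B.Ad u i j) = fun u : K =>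
      (lam i ((u.1 : Mat N) * B.mat j * star (u.1 : Mat N))).re := by
    ext u
    rw [← h1 u, Complex.ofReal_re]
  rw [h3]
  have h4 : Continuous (lam i) := LinearMap.continuous_of_finiteDimensional _
  have h5 : Continuous fun u : K => (u.1 : Mat N) :=
    continuous_subtype_val.comp continuous_subtype_val
  have h6 : Continuous fun u : K => (u.1 : Mat N) * B.mat j * star (u.1 : Mat N) :=
    (h5.matrix_mul continuous_const).matrix_mul h5.star
  exact Complex.continuous_re.comp (h4.comp h6)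

/-- action on the complexification -/
noncomputable def AdC (u : K) : (Fin d → ℂ) →ₗ[ℂ] (Fin d → ℂ) :=
  Matrix.mulVecLin ((B.Ad u).map ((↑) : ℝ → ℂ))

theorem toMat_AdC (u : K) (x : Fin d → ℂ) :
    B.toMat (B.AdC u x) = (u.1 : Mat N) * B.toMat x * star (u.1 : Mat N) :=
  B.mulVec_toMat u x

theorem AdC_mul (u v : K) (x : Fin d → ℂ) : B.AdC (u * v) x = B.AdC u (B.AdC v x) := by
  apply B.toMat_injective
  rw [toMat_AdC, toMat_AdC, toMat_AdC]
  have h1 : (((u * v : K)).1 : Mat N) = (u.1 : Mat N) * (v.1 : Mat N) := rfl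
  rw [h1, star_mul]
  simp only [mul_assoc]

theorem AdC_one (x : Fin d → ℂ) : B.AdC 1 x = x := by
  apply B.toMat_injective
  rw [toMat_AdC]
  have h1 : ((1 : K).1 : Mat N) = 1 := rfl
  rw [h1, one_mul, star_one, mul_one]

theorem hip_AdC (u : K) (x y : Fin d → ℂ) : hip (B.AdC u x) (B.AdC u y) = hip x y := by
  have h1 : ∀ x i, B.AdC u x i = ∑ j, (B.Ad u i j : ℂ) * x j := fun x i => rfl
  have h2 : ∀ j k, ∑ i, (B.Ad u i j : ℂ) * (B.Ad u i k : ℂ) = if j = k then 1 else 0 := by
    intro j k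
    have h3 := congrFun (congrFun (B.Ad_orth' u) j) k
    rw [Matrix.mul_apply, Matrix.one_apply] at h3
    simp only [Matrix.transpose_apply] at h3
    have h4 : ((∑ i, B.Ad u i j * B.Ad u i k : ℝ) : ℂ) = ((if j = k then 1 else 0 : ℝ) : ℂ) :=
      congrArg (fun t : ℝ => (t : ℂ)) h3
    rw [Complex.ofReal_sum] at h4
    simp only [Complex.ofReal_mul] at h4
    rw [h4]
    split_ifs <;> simp
  unfold hip
  simp only [h1, map_sum, map_mul, Complex.conj_ofReal, Finset.sum_mul_sum]
  rw [Finset.sum_comm]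
  refine Finset.sum_congr rfl fun j _ => ?_
  rw [Finset.sum_comm]
  have h5 : ∀ k, ∑ i, (B.Ad u i j : ℂ) * x j * ((B.Ad u i k : ℂ) * conj (y k)) =
      (if j = k then 1 else 0) * (x j * conj (y k)) := by
    intro k
    rw [← h2 j k, Finset.sum_mul]
    exact Finset.sum_congr rfl fun i _ => by ring
  rw [Finset.sum_congr rfl fun k _ => h5 k]
  simp only [ite_mul, one_mul, zero_mul, Finset.sum_ite_eq, Finset.mem_univ, if_true]

theorem AdC_br (u : K) (x y : Fin d → ℂ) :
    B.AdC u (B.sc.br x y) = B.sc.br (B.AdC u x) (B.AdC u y) := by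
  apply B.toMat_injective
  rw [toMat_AdC, toMat_br, toMat_br, toMat_AdC, toMat_AdC]
  have h := star_mul_self' u
  have h1 : ∀ a b : Mat N, ((u.1 : Mat N) * a * star (u.1 : Mat N)) *
      ((u.1 : Mat N) * b * star (u.1 : Mat N)) = (u.1 : Mat N) * (a * b) * star (u.1 : Mat N) := by
    intro a b
    calc ((u.1 : Mat N) * a * star (u.1 : Mat N)) * ((u.1 : Mat N) * b * star (u.1 : Mat N))
        = (u.1 : Mat N) * a * (star (u.1 : Mat N) * (u.1 : Mat N)) * b *
          star (u.1 : Mat N) := by simp only [mul_assoc]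
      _ = (u.1 : Mat N) * (a * b) * star (u.1 : Mat N) := by
          rw [h, mul_one]; simp only [mul_assoc]
  rw [h1, h1, mul_sub, sub_mul]

theorem AdC_star (u : K) (x : Fin d → ℂ) : B.AdC u (star x) = star (B.AdC u x) := by
  have h1 : ∀ x i, B.AdC u x i = ∑ j, (B.Ad u i j : ℂ) * x j := fun x i => rfl
  ext i
  rw [h1, Pi.star_apply, h1]
  simp only [Pi.star_apply, star_sum, star_mul']
  refine Finset.sum_congr rfl fun j _ => ?_
  have h2 : star ((B.Ad u i j : ℝ) : ℂ) = ((B.Ad u i j : ℝ) : ℂ) := Complex.conj_ofReal _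
  rw [h2]

open scoped Matrix.Norms.L2Operator in
private theorem deriv_conj {X Y : Mat N} (hX : X ∈ lieSet K) (lam : Mat N →ₗ[ℂ] ℂ) :
    HasDerivAt (fun s : ℝ => lam (NormedSpace.exp (s • X) * Y *
      star (NormedSpace.exp (s • X)))) (lam (X * Y - Y * X)) 0 := by
  have hd : HasDerivAt (fun s : ℝ => NormedSpace.exp (s • X) * Y *
      star (NormedSpace.exp (s • X))) (X * Y - Y * X) 0 := by
    have h := ((hasDerivAt_expr X).mul_const Y).mul (hasDerivAt_expr X).star
    simp only [zero_smul, NormedSpace.exp_zero, star_one, mul_one, one_mul] at h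
    rw [star_of_mem_lieSet hX, mul_neg, ← sub_eq_add_neg] at h
    exact h
  let L : Mat N →L[ℝ] ℂ := (LinearMap.toContinuousLinearMap lam).restrictScalars ℝ
  exact (L.hasFDerivAt.comp_hasDerivAt (0 : ℝ) hd)

/-- derivative of `Ad` along a one-parameter group: `exp (s X) Y exp (- s X)` has derivative
`[X, Y]` at `s = 0` -/
theorem hasDerivAt_Ad (x : Fin d → ℝ) (g : ℝ → K)
    (hg : ∀ s, ((g s).1 : Mat N) = NormedSpace.exp (s • B.toMat (cx x))) (y : Fin d → ℂ)
    (i : Fin d) :
    HasDerivAt (fun s => B.AdC (g s) y i) (B.sc.br (cx x) y i) 0 := by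
  obtain ⟨lam, hlam⟩ := B.exists_lam
  have h1 := deriv_conj (Y := B.toMat y) (B.toMat_cx_mem x) (lam i)
  rw [← B.toMat_br, hlam] at h1
  have h2 : (fun s => B.AdC (g s) y i) = fun s : ℝ =>
      lam i (NormedSpace.exp (s • B.toMat (cx x)) * B.toMat y *
        star (NormedSpace.exp (s • B.toMat (cx x)))) := by
    ext s
    rw [← hg s, ← B.toMat_AdC, hlam]
  rw [h2]
  exact h1

end LieBasis

end STC
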