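import Pool.Agent.STC.Der
import Pool.Agent.STC.LieAd

/-!
# STC/DerLin : the derivations as a linear map on the complexified Lie algebra

`DD B x = Σ_i x_i • DX (X_i)`. On generators: `DD B x (ent i j) = (z (toMat x))_ij`,
`DD B x (entc i j) = conj ((z (toMat (star x)))_ij)`. All identities between derivations are checked on
generators (`der_ext`): `DX_eq_DD`, `DD_br` (for `ent`: `DD x (DD y ent_ij) = (z Y X... )`: write
`DD y ent_ij = Σ_k (toMat y)_kj ent_ik`, so `DD x (DD y ent_ij) = (z (toMat x) (toMat y))_ij`, and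
`toMat_br`; for `entc` the same with conjugates, `br_star`: `star (br x y) = br (star x) (star y)` as
the structure constants are real). `DD_L`: from the definition as a derivative. `DD_R`:
`z ex(s) y = z y (y⁻¹ ex(s) y)`; both sides are derivations in `f` composed with the algebra
automorphism `R y`: check on generators, `(z y)(y⁻¹ X y) = z X y`, `toMat_AdC`.
`DD_J` (left and right derivatives commute): `J` is an algebra automorphism with `J J = id`;
`J ∘ DD x ∘ J` is a derivation; the commutator of `J ∘ DD x ∘ J` and `DD y` is a derivation, and it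
vanishes on generators: `J (DD x (J ent_ij)) = - ((toMat x) z)_ij`-type formulas: `J ent_ij = entc_ji`,
`DD x entc_ji = conj (z toMat (star x))_ji`, applying `J`: `conj (z^* toMat (star x))_ji =
((toMat (star x))^* z)_ij = - ((toMat x) z)_ij` by `toMat_star`; left and right multiplications
commute. `DD_J_one`: derivative of `s ↦ f (ex(s)⁻¹) = f (ex(-s))` at `0`.
-/

open MeasureTheory
open scoped ComplexConjugate

namespace STC

namespace CG

variable {N : ℕ} {K : ClosedSubgroup (UG N)} {d : ℕ} (B : LieBasis K.toSubgroup K.isClosed' d)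

/-- the derivation of a vector of the complexified Lie algebra -/
noncomputable def DD : (Fin d → ℂ) →ₗ[ℂ] Derivation ℂ (rep K).A (rep K).A where
  toFun x := ∑ i, x i • DX (B.mat_mem i)
  map_add' x y := by simp only [Pi.add_apply, add_smul, Finset.sum_add_distrib]
  map_smul' a x := by
    simp only [Pi.smul_apply, smul_eq_mul, mul_smul, Finset.smul_sum, RingHom.id_apply]

theorem DerLin_sum_val {ι : Type*} (s : Finset ι) (g : ι → (rep K).A) (z : CG K) :
    (∑ k ∈ s, g k).1 z = ∑ k ∈ s, (g k).1 z := by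
  classical
  induction s using Finset.induction_on with
  | empty => rfl
  | insert a s ha ih =>
    rw [Finset.sum_insert ha, Finset.sum_insert ha, ← ih]
    rfl

theorem DerLin_smul_val (c : ℂ) (g : (rep K).A) (z : CG K) : (c • g).1 z = c * g.1 z := rfl

theorem DerLin_ext {f g : (rep K).A} (h : ∀ z, f.1 z = g.1 z) : f = g :=
  Subtype.ext (funext h)

theorem DerLin_sum_der {ι : Type*} (s : Finset ι) (g : ι → Derivation ℂ (rep K).A (rep K).A)
    (f : (rep K).A) : (∑ k ∈ s, g k) f = ∑ k ∈ s, g k f := by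
  classical
  induction s using Finset.induction_on with
  | empty => rfl
  | insert a s ha ih =>
    rw [Finset.sum_insert ha, Finset.sum_insert ha, ← ih]
    rfl

theorem DerLin_map_smul (D : Derivation ℂ (rep K).A (rep K).A) (c : ℂ) (f : (rep K).A) :
    D (c • f) = c • D f := D.map_smul c f

theorem DD_apply (x : Fin d → ℂ) (f : (rep K).A) (z : CG K) :
    (DD B x f).1 z = ∑ k, x k * (DX (B.mat_mem k) f).1 z := by
  have h1 : DD B x f = ∑ k, x k • DX (B.mat_mem k) f := by
    change (∑ i, x i • DX (B.mat_mem i)) f = _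
    rw [DerLin_sum_der]
    rfl
  rw [h1, DerLin_sum_val]
  rfl

theorem DD_ent (x : Fin d → ℂ) (i j : Fin N) (z : CG K) :
    (DD B x ⟨ent K i j, ent_mem i j⟩).1 z = (z.mat * B.toMat x) i j := by
  rw [DD_apply, LieBasis.toMat_apply, Finset.mul_sum, Matrix.sum_apply]
  refine Finset.sum_congr rfl fun k _ => ?_
  rw [DX_ent, mul_smul_comm, Matrix.smul_apply, smul_eq_mul]

theorem DD_entc (x : Fin d → ℂ) (i j : Fin N) (z : CG K) :
    (DD B x ⟨entc K i j, entc_mem i j⟩).1 z = conj ((z.mat * B.toMat (star x)) i j) := by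
  rw [DD_apply, LieBasis.toMat_apply, Finset.mul_sum, Matrix.sum_apply, map_sum]
  refine Finset.sum_congr rfl fun k _ => ?_
  rw [DX_entc, mul_smul_comm, Matrix.smul_apply, smul_eq_mul, map_mul, Pi.star_apply]
  congr 1
  exact (Complex.conj_conj (x k)).symm

/-- the value on a generator as a combination of generators -/
theorem DD_ent' (x : Fin d → ℂ) (i j : Fin N) :
    DD B x ⟨ent K i j, ent_mem i j⟩ =
      ∑ k, (B.toMat x k j) • (⟨ent K i k, ent_mem i k⟩ : (rep K).A) := by
  apply DerLin_ext
  intro z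
  rw [DD_ent, DerLin_sum_val, Matrix.mul_apply]
  refine Finset.sum_congr rfl fun k _ => ?_
  rw [DerLin_smul_val, mul_comm]
  rfl

theorem DD_entc' (x : Fin d → ℂ) (i j : Fin N) :
    DD B x ⟨entc K i j, entc_mem i j⟩ =
      ∑ k, (conj (B.toMat (star x) k j)) • (⟨entc K i k, entc_mem i k⟩ : (rep K).A) := by
  apply DerLin_ext
  intro z
  rw [DD_entc, DerLin_sum_val, Matrix.mul_apply, map_sum]
  refine Finset.sum_congr rfl fun k _ => ?_
  rw [DerLin_smul_val, map_mul, mul_comm]
  rfl

theorem DX_eq_DD (x : Fin d → ℝ) (hx : B.toMat (cx x) ∈ lieSet K.toSubgroup) :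
    DX hx = DD B (cx x) := by
  have hs : star (cx x) = cx x := by
    ext i
    rw [Pi.star_apply]
    exact Complex.conj_ofReal _
  apply der_ext
  · intro i j
    apply DerLin_ext
    intro z
    rw [DX_ent, DD_ent]
  · intro i j
    apply DerLin_ext
    intro z
    rw [DX_entc, DD_entc, hs]

theorem DerLin_br_star (x y : Fin d → ℂ) :
    star (B.sc.br x y) = B.sc.br (star x) (star y) := by
  ext l
  rw [Pi.star_apply, SC.br_apply, SC.br_apply, star_sum]
  refine Finset.sum_congr rfl fun i _ => ?_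
  rw [star_sum]
  refine Finset.sum_congr rfl fun j _ => ?_
  rw [star_mul', star_mul', Pi.star_apply, Pi.star_apply]
  congr 2
  exact Complex.conj_ofReal _

/-- second derivatives of generators -/
theorem DerLin_two (D : Derivation ℂ (rep K).A (rep K).A) (x : Fin d → ℂ) (i j : Fin N)
    (z : CG K) : (D (DD B x ⟨ent K i j, ent_mem i j⟩)).1 z =
      ∑ k, B.toMat x k j * (D ⟨ent K i k, ent_mem i k⟩).1 z := by
  rw [DD_ent', map_sum, DerLin_sum_val]
  refine Finset.sum_congr rfl fun k _ => ?_
  rw [DerLin_map_smul, DerLin_smul_val]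

theorem DerLin_twoc (D : Derivation ℂ (rep K).A (rep K).A) (x : Fin d → ℂ) (i j : Fin N)
    (z : CG K) : (D (DD B x ⟨entc K i j, entc_mem i j⟩)).1 z =
      ∑ k, conj (B.toMat (star x) k j) * (D ⟨entc K i k, entc_mem i k⟩).1 z := by
  rw [DD_entc', map_sum, DerLin_sum_val]
  refine Finset.sum_congr rfl fun k _ => ?_
  rw [DerLin_map_smul, DerLin_smul_val]

theorem DD_br (x y : Fin d → ℂ) : ⁅DD B x, DD B y⁆ = DD B (B.sc.br x y) := by
  have hsub : ∀ (f g : (rep K).A) (z : CG K), (f - g).1 z = f.1 z - g.1 z := fun _ _ _ => rfl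
  have h2 : ∀ (x y : Fin d → ℂ) (i j : Fin N) (z : CG K),
      (DD B x (DD B y ⟨ent K i j, ent_mem i j⟩)).1 z =
        (z.mat * (B.toMat x * B.toMat y)) i j := by
    intro x y i j z
    rw [DerLin_two, ← mul_assoc, Matrix.mul_apply]
    refine Finset.sum_congr rfl fun k _ => ?_
    rw [DD_ent, mul_comm]
  have h2c : ∀ (x y : Fin d → ℂ) (i j : Fin N) (z : CG K),
      (DD B x (DD B y ⟨entc K i j, entc_mem i j⟩)).1 z =
        conj ((z.mat * (B.toMat (star x) * B.toMat (star y))) i j) := by
    intro x y i j z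
    rw [DerLin_twoc, ← mul_assoc, Matrix.mul_apply, map_sum]
    refine Finset.sum_congr rfl fun k _ => ?_
    rw [DD_entc, map_mul, mul_comm]
  apply der_ext
  · intro i j
    apply DerLin_ext
    intro z
    rw [Derivation.commutator_apply, hsub, h2, h2, DD_ent, LieBasis.toMat_br, mul_sub,
      Matrix.sub_apply]
  · intro i j
    apply DerLin_ext
    intro z
    rw [Derivation.commutator_apply, hsub, h2c, h2c, DD_entc, DerLin_br_star, LieBasis.toMat_br,
      mul_sub, Matrix.sub_apply, map_sub]

theorem DD_L (x : Fin d → ℂ) (a : CG K) (f : (rep K).A) :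
    DD B x ((rep K).L a f) = (rep K).L a (DD B x f) := by
  apply DerLin_ext
  intro z
  rw [RepAlg.L_apply, DD_apply, DD_apply]
  refine Finset.sum_congr rfl fun k _ => ?_
  rw [DX_apply, DX_apply]
  congr 1
  unfold dfun
  congr 1
  funext s
  rw [RepAlg.L_apply, mul_assoc]

/-- the adjoint representation of `CG K` on the complexified Lie algebra -/
noncomputable def adG (y : CG K) : (Fin d → ℂ) →ₗ[ℂ] (Fin d → ℂ) :=
  B.AdC (show K.toSubgroup from y)

theorem toMat_adG (y : CG K) (x : Fin d → ℂ) :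
    B.toMat (adG B y x) = y.mat * B.toMat x * star y.mat := B.toMat_AdC _ x

/-- conjugation of a derivation by an algebra automorphism -/
noncomputable def DerLin_conj (φ ψ : (rep K).A →ₗ[ℂ] (rep K).A)
    (hφ : ∀ f g, φ (f * g) = φ f * φ g) (hψ : ∀ f g, ψ (f * g) = ψ f * ψ g)
    (h : ∀ f, ψ (φ f) = f) (D : Derivation ℂ (rep K).A (rep K).A) :
    Derivation ℂ (rep K).A (rep K).A :=
  Derivation.mk' (R := ℂ) (A := (rep K).A) (M := (rep K).A) (ψ ∘ₗ D.toLinearMap ∘ₗ φ) (by
    intro f g
    change ψ (D (φ (f * g))) = f • ψ (D (φ g)) + g • ψ (D (φ f))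
    rw [hφ, D.leibniz, map_add, smul_eq_mul, smul_eq_mul, smul_eq_mul, smul_eq_mul, hψ, hψ, h, h])

theorem DerLin_conj_apply (φ ψ : (rep K).A →ₗ[ℂ] (rep K).A)
    (hφ : ∀ f g, φ (f * g) = φ f * φ g) (hψ : ∀ f g, ψ (f * g) = ψ f * ψ g)
    (h : ∀ f, ψ (φ f) = f) (D : Derivation ℂ (rep K).A (rep K).A) (f : (rep K).A) :
    DerLin_conj φ ψ hφ hψ h D f = ψ (D (φ f)) := rfl

theorem DerLin_R_mul (y : CG K) (f g : (rep K).A) :
    (rep K).R y (f * g) = (rep K).R y f * (rep K).R y g := rfl

theorem DerLin_J_mul (f g : (rep K).A) :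
    (rep K).J (f * g) = (rep K).J f * (rep K).J g := rfl

theorem DerLin_J_J (f : (rep K).A) : (rep K).J ((rep K).J f) = f := by
  apply DerLin_ext
  intro z
  rw [RepAlg.J_apply, RepAlg.J_apply, inv_inv]

theorem DerLin_R_R (y : CG K) (f : (rep K).A) : (rep K).R y⁻¹ ((rep K).R y f) = f := by
  apply DerLin_ext
  intro z
  rw [RepAlg.R_apply, RepAlg.R_apply, inv_mul_cancel_right]

theorem DerLin_R_R' (y : CG K) (f : (rep K).A) : (rep K).R y ((rep K).R y⁻¹ f) = f := by
  apply DerLin_ext
  intro z
  rw [RepAlg.R_apply, RepAlg.R_apply, mul_inv_cancel_right]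

theorem DD_R (x : Fin d → ℂ) (y : CG K) (f : (rep K).A) :
    DD B x ((rep K).R y f) = (rep K).R y (DD B (adG B y⁻¹ x) f) := by
  have key : DerLin_conj ((rep K).R y) ((rep K).R y⁻¹) (DerLin_R_mul y) (DerLin_R_mul y⁻¹)
      (DerLin_R_R y) (DD B x) = DD B (adG B y⁻¹ x) := by
    apply der_ext
    · intro i j
      apply DerLin_ext
      intro z
      rw [DerLin_conj_apply, RepAlg.R_apply, DD_ent, toMat_adG]
      have h1 : (rep K).R y (⟨ent K i j, ent_mem i j⟩ : (rep K).A) =
          ∑ k, (y.mat k j) • (⟨ent K i k, ent_mem i k⟩ : (rep K).A) := by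
        apply DerLin_ext
        intro w
        rw [RepAlg.R_apply, DerLin_sum_val]
        change ((w * y).mat) i j = _
        rw [mat_mul, Matrix.mul_apply]
        refine Finset.sum_congr rfl fun k _ => ?_
        rw [DerLin_smul_val, mul_comm]
        rfl
      rw [h1, map_sum, DerLin_sum_val]
      have h2 : z.mat * ((y⁻¹).mat * B.toMat x * star (y⁻¹).mat) =
          ((z * y⁻¹).mat * B.toMat x) * y.mat := by
        rw [mat_mul, mat_inv, star_star]
        simp only [mul_assoc]
      rw [h2, Matrix.mul_apply]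
      refine Finset.sum_congr rfl fun k _ => ?_
      rw [DerLin_map_smul, DerLin_smul_val, DD_ent, mul_comm]
    · intro i j
      apply DerLin_ext
      intro z
      have hst : star (adG B y⁻¹ x) = adG B y⁻¹ (star x) := (B.AdC_star _ x).symm
      rw [DerLin_conj_apply, RepAlg.R_apply, DD_entc, hst, toMat_adG]
      have h1 : (rep K).R y (⟨entc K i j, entc_mem i j⟩ : (rep K).A) =
          ∑ k, (conj (y.mat k j)) • (⟨entc K i k, entc_mem i k⟩ : (rep K).A) := by
        apply DerLin_ext
        intro w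
        rw [RepAlg.R_apply, DerLin_sum_val]
        change conj (((w * y).mat) i j) = _
        rw [mat_mul, Matrix.mul_apply, map_sum]
        refine Finset.sum_congr rfl fun k _ => ?_
        rw [DerLin_smul_val, map_mul, mul_comm]
        rfl
      rw [h1, map_sum, DerLin_sum_val]
      have h2 : z.mat * ((y⁻¹).mat * B.toMat (star x) * star (y⁻¹).mat) =
          ((z * y⁻¹).mat * B.toMat (star x)) * y.mat := by
        rw [mat_mul, mat_inv, star_star]
        simp only [mul_assoc]
      rw [h2, Matrix.mul_apply, map_sum]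
      refine Finset.sum_congr rfl fun k _ => ?_
      rw [DerLin_map_smul, DerLin_smul_val, DD_entc, map_mul, mul_comm]
  rw [← key, DerLin_conj_apply, DerLin_R_R']

/-- left derivatives of the generators -/
theorem DerLin_J_ent (i j : Fin N) : (rep K).J (⟨ent K i j, ent_mem i j⟩ : (rep K).A) =
    ⟨entc K j i, entc_mem j i⟩ := by
  apply DerLin_ext
  intro z
  rw [RepAlg.J_apply]
  change (z⁻¹).mat i j = conj (z.mat j i)
  rw [mat_inv, Matrix.star_apply]
  rfl

theorem DerLin_J_entc (i j : Fin N) : (rep K).J (⟨entc K i j, entc_mem i j⟩ : (rep K).A) =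
    ⟨ent K j i, ent_mem j i⟩ := by
  rw [← DerLin_J_ent, DerLin_J_J]

/-- left derivative as a derivation -/
noncomputable def DerLin_left (x : Fin d → ℂ) : Derivation ℂ (rep K).A (rep K).A :=
  DerLin_conj (rep K).J (rep K).J DerLin_J_mul DerLin_J_mul DerLin_J_J (DD B x)

theorem DerLin_left_apply (x : Fin d → ℂ) (f : (rep K).A) :
    DerLin_left B x f = (rep K).J (DD B x ((rep K).J f)) := rfl

theorem DerLin_left_ent (x : Fin d → ℂ) (i j : Fin N) :
    DerLin_left B x ⟨ent K i j, ent_mem i j⟩ =
      ∑ k, (conj (B.toMat (star x) k i)) • (⟨ent K k j, ent_mem k j⟩ : (rep K).A) := by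
  rw [DerLin_left_apply, DerLin_J_ent, DD_entc', map_sum]
  refine Finset.sum_congr rfl fun k _ => ?_
  rw [map_smul, DerLin_J_entc]

theorem DerLin_left_entc (x : Fin d → ℂ) (i j : Fin N) :
    DerLin_left B x ⟨entc K i j, entc_mem i j⟩ =
      ∑ k, (B.toMat x k i) • (⟨entc K k j, entc_mem k j⟩ : (rep K).A) := by
  rw [DerLin_left_apply, DerLin_J_entc, DD_ent', map_sum]
  refine Finset.sum_congr rfl fun k _ => ?_
  rw [map_smul, DerLin_J_ent]

theorem DD_J (x y : Fin d → ℂ) (f : (rep K).A) :
    (rep K).J (DD B x ((rep K).J (DD B y f))) = DD B y ((rep K).J (DD B x ((rep K).J f))) := by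
  have key : ⁅DerLin_left B x, DD B y⁆ = 0 := by
    apply der_ext
    · intro i j
      rw [Derivation.commutator_apply, DD_ent', DerLin_left_ent, map_sum, map_sum]
      have h1 : ∑ k, DerLin_left B x (B.toMat y k j • (⟨ent K i k, ent_mem i k⟩ : (rep K).A)) =
          ∑ k, DD B y (conj (B.toMat (star x) k i) • (⟨ent K k j, ent_mem k j⟩ : (rep K).A)) := by
        simp only [DerLin_map_smul, DerLin_left_ent, DD_ent', Finset.smul_sum]
        rw [Finset.sum_comm]
        refine Finset.sum_congr rfl fun k _ => Finset.sum_congr rfl fun l _ => ?_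
        rw [smul_comm]
      rw [h1, sub_self]
      rfl
    · intro i j
      rw [Derivation.commutator_apply, DD_entc', DerLin_left_entc, map_sum, map_sum]
      have h1 : ∑ k, DerLin_left B x (conj (B.toMat (star y) k j) •
            (⟨entc K i k, entc_mem i k⟩ : (rep K).A)) =
          ∑ k, DD B y (B.toMat x k i • (⟨entc K k j, entc_mem k j⟩ : (rep K).A)) := by
        simp only [DerLin_map_smul, DerLin_left_entc, DD_entc', Finset.smul_sum]
        rw [Finset.sum_comm]
        refine Finset.sum_congr rfl fun k _ => Finset.sum_congr rfl fun l _ => ?_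
        rw [smul_comm]
      rw [h1, sub_self]
      rfl
  have h := congrArg (fun D : Derivation ℂ (rep K).A (rep K).A => D f) key
  simp only [Derivation.commutator_apply] at h
  exact sub_eq_zero.1 h

theorem DD_J_one (x : Fin d → ℂ) (f : (rep K).A) :
    (DD B x ((rep K).J f)).1 1 = -(DD B x f).1 1 := by
  rw [DD_apply, DD_apply, ← Finset.sum_neg_distrib]
  refine Finset.sum_congr rfl fun k _ => ?_
  rw [DX_apply, DX_apply, ← mul_neg]
  congr 1
  unfold dfun
  have h1 : (fun s : ℝ => ((rep K).J f).1 (1 * ex (B.mat_mem k) s)) =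
      fun s : ℝ => (fun s : ℝ => f.1 (1 * ex (B.mat_mem k) s)) (-s) := by
    funext s
    rw [RepAlg.J_apply, one_mul]
    simp only [one_mul]
    rw [ex_neg]
  have h4 := deriv_comp_neg (fun s : ℝ => f.1 (1 * ex (B.mat_mem k) s)) (0 : ℝ)
  rw [neg_zero] at h4
  rw [h1]
  exact h4

/-- complex conjugation -/
theorem DD_cj (x : Fin d → ℂ) (f : (rep K).A) :
    DD B x ((rep K).cj f) = (rep K).cj (DD B (star x) f) := by
  apply DerLin_ext
  intro z
  rw [RepAlg.cj_apply, DD_apply, DD_apply, map_sum]
  refine Finset.sum_congr rfl fun k _ => ?_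
  rw [DX_apply, DX_apply, map_mul, Pi.star_apply]
  have h1 : conj (star (x k)) = x k := Complex.conj_conj _
  rw [h1]
  congr 1
  have h2 := (hasDerivAt_dfun (B.mat_mem k) f.1 f.2 z 0).star
  have h3 := h2.deriv
  rw [ex_zero, mul_one] at h3
  exact h3

end CG

end STC
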