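import Pool.Agent.STZ.FullMain

/-!
# STC/FullAbs : from finite sums of eigenfunctions to all of `L²`

Abstract form of `STZ/FullProj`, `STZ/FullSum`, `STZ/FullMain` (copy those proofs, with an arbitrary
index type `Λ`, closed subspaces `E l` instead of the joint eigenspaces, `e l` instead of `ev α β l`).
PROOF. `P l f = (E l).starProjection f ∈ E l`. Orthogonality of the `P l f` from `horth`; Pythagoras,
Bessel, summability of `c_l • P l f` for unimodular `c_l`, uniform tail bound, a sequence of finite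
sets `F k` with `‖Σ' - Σ_{F k}‖ ≤ 2^{-k}` for all `t` (as in `STZ/FullSum`). `hrep` gives continuous
representatives `h l ∈ R l` of `P l f`. `STZ.ae_tendsto_of_geometric`: almost everywhere convergence
for every `t`. Fatou in `x` and in `t`, `hbound` for every `F k`, `∫ ‖h l‖² = ‖P l f‖²`
(`ContinuousMap.inner_toLp`). The terms `(1 + e l)^s ‖P l f‖²` are nonnegative: if `E l = ⊥` then
`P l f = 0`, otherwise `he`.
-/

open MeasureTheory Complex Filter
open scoped ComplexConjugate ENNReal NNReal Topology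

namespace STC

section hilbert

variable {H : Type} [NormedAddCommGroup H] [InnerProductSpace ℂ H] [CompleteSpace H] {Λ : Type}
  (E : Λ → Submodule ℂ H) [∀ l, (E l).HasOrthogonalProjection]

private theorem fa_inner_proj_self (l : Λ) (f : H) :
    inner ℂ ((E l).starProjection f) f = ((‖(E l).starProjection f‖ ^ 2 : ℝ) : ℂ) := by
  have h1 : inner ℂ ((E l).starProjection f) f =
      inner ℂ ((E l).starProjection f) ((E l).starProjection f) := by
    rw [Submodule.inner_starProjection_left_eq_right, Submodule.inner_starProjection_left_eq_right]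
    congr 1
    exact (Submodule.starProjection_eq_self_iff.2 (Submodule.starProjection_apply_mem _ _)).symm
  rw [h1, inner_self_eq_norm_sq_to_K]
  push_cast; rfl

omit [CompleteSpace H] in
/-- Pythagoras. -/
private theorem fa_norm_sq_sum (horth : ∀ l l', l ≠ l' → ∀ u ∈ E l, ∀ v ∈ E l', inner ℂ u v = 0)
    (c : Λ → ℂ) (hc : ∀ l, ‖c l‖ = 1) (f : H)
    (F : Finset Λ) : ‖∑ l ∈ F, c l • (E l).starProjection f‖ ^ 2 =
      ∑ l ∈ F, ‖(E l).starProjection f‖ ^ 2 := by
  classical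
  have h1 : inner ℂ (∑ l ∈ F, c l • (E l).starProjection f)
      (∑ l ∈ F, c l • (E l).starProjection f) =
      ((∑ l ∈ F, ‖(E l).starProjection f‖ ^ 2 : ℝ) : ℂ) := by
    rw [sum_inner]
    push_cast
    refine Finset.sum_congr rfl fun l hl => ?_
    rw [inner_sum, Finset.sum_eq_single l]
    · rw [inner_smul_left, inner_smul_right, inner_self_eq_norm_sq_to_K, ← mul_assoc,
        Complex.conj_mul', hc]
      push_cast
      simp
    · intro l' _ hne
      rw [inner_smul_left, inner_smul_right, horth l l' hne.symm _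
        (Submodule.starProjection_apply_mem _ _) _ (Submodule.starProjection_apply_mem _ _)]
      simp
    · intro h; exact absurd hl h
  rw [inner_self_eq_norm_sq_to_K] at h1
  have h2 : ((‖∑ l ∈ F, c l • (E l).starProjection f‖ ^ 2 : ℝ) : ℂ) =
      ((∑ l ∈ F, ‖(E l).starProjection f‖ ^ 2 : ℝ) : ℂ) := by
    rw [← h1]; push_cast; rfl
  exact_mod_cast h2

private theorem fa_bessel_proj
    (horth : ∀ l l', l ≠ l' → ∀ u ∈ E l, ∀ v ∈ E l', inner ℂ u v = 0) (f : H) (F : Finset Λ) :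
    ∑ l ∈ F, ‖(E l).starProjection f‖ ^ 2 ≤ ‖f‖ ^ 2 := by
  set s := ∑ l ∈ F, (1 : ℂ) • (E l).starProjection f with hs
  have h1 : ‖s‖ ^ 2 = ∑ l ∈ F, ‖(E l).starProjection f‖ ^ 2 :=
    fa_norm_sq_sum E horth (fun _ => 1) (fun _ => by simp) f F
  have h2 : inner ℂ s f = ((∑ l ∈ F, ‖(E l).starProjection f‖ ^ 2 : ℝ) : ℂ) := by
    rw [hs, sum_inner]
    push_cast
    refine Finset.sum_congr rfl fun l _ => ?_
    rw [one_smul, fa_inner_proj_self]
    push_cast; rfl
  have h3 : ∑ l ∈ F, ‖(E l).starProjection f‖ ^ 2 ≤ ‖s‖ * ‖f‖ := by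
    have h4 := norm_inner_le_norm (𝕜 := ℂ) s f
    rw [h2, Complex.norm_real] at h4
    exact (le_abs_self _).trans h4
  rw [← h1] at h3 ⊢
  rcases eq_or_lt_of_le (norm_nonneg s) with h5 | h5
  · rw [← h5]; nlinarith [sq_nonneg ‖f‖]
  · have h6 : ‖s‖ ≤ ‖f‖ := by nlinarith
    exact pow_le_pow_left₀ h5.le h6 2

private theorem fa_summable_proj
    (horth : ∀ l l', l ≠ l' → ∀ u ∈ E l, ∀ v ∈ E l', inner ℂ u v = 0) (f : H) :
    Summable fun l : Λ => ‖(E l).starProjection f‖ ^ 2 :=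
  summable_of_sum_le (fun l => sq_nonneg _) (fa_bessel_proj E horth f)

private theorem fa_summable_ph
    (horth : ∀ l l', l ≠ l' → ∀ u ∈ E l, ∀ v ∈ E l', inner ℂ u v = 0)
    (c : Λ → ℂ) (hc : ∀ l, ‖c l‖ = 1) (f : H) :
    Summable fun l => c l • (E l).starProjection f := by
  rw [summable_iff_vanishing_norm]
  intro ε hε
  obtain ⟨s, hs⟩ := summable_iff_vanishing_norm.1 (fa_summable_proj E horth f) (ε ^ 2)
    (by positivity)
  refine ⟨s, fun t ht => ?_⟩
  have h1 := hs t ht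
  rw [← fa_norm_sq_sum E horth c hc f t, Real.norm_of_nonneg (sq_nonneg _)] at h1
  exact lt_of_pow_lt_pow_left₀ 2 hε.le h1

/-- The tail bound, uniform in the unimodular coefficients. -/
private theorem fa_tail_bound
    (horth : ∀ l l', l ≠ l' → ∀ u ∈ E l, ∀ v ∈ E l', inner ℂ u v = 0) (f : H)
    (ε : ℝ) (hε : 0 < ε) :
    ∃ F₀ : Finset Λ, ∀ F, F₀ ⊆ F → ∀ c : Λ → ℂ, (∀ l, ‖c l‖ = 1) →
      ‖∑' l, c l • (E l).starProjection f - ∑ l ∈ F, c l • (E l).starProjection f‖ ≤ ε := by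
  obtain ⟨s, hs⟩ := summable_iff_vanishing_norm.1 (fa_summable_proj E horth f) (ε ^ 2)
    (by positivity)
  refine ⟨s, fun F hF c hc => ?_⟩
  have hsum := (fa_summable_ph E horth c hc f).hasSum
  have h1 : Filter.Tendsto (fun D : Finset Λ =>
      ‖∑ l ∈ D, c l • (E l).starProjection f - ∑ l ∈ F, c l • (E l).starProjection f‖)
      Filter.atTop
      (nhds ‖∑' l, c l • (E l).starProjection f - ∑ l ∈ F, c l • (E l).starProjection f‖) :=
    (Filter.Tendsto.sub_const hsum _).norm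
  refine le_of_tendsto h1 ?_
  filter_upwards [Filter.eventually_ge_atTop F] with D hD
  classical
  have h2 : ∑ l ∈ D, c l • (E l).starProjection f - ∑ l ∈ F, c l • (E l).starProjection f =
      ∑ l ∈ D \ F, c l • (E l).starProjection f := by
    rw [← Finset.sum_sdiff hD]; simp
  rw [h2]
  have h3 : Disjoint (D \ F) s := by
    rw [Finset.disjoint_left]
    intro x hx hxs
    exact (Finset.mem_sdiff.1 hx).2 (hF hxs)
  have h4 := hs (D \ F) h3
  rw [← fa_norm_sq_sum E horth c hc f (D \ F), Real.norm_of_nonneg (sq_nonneg _)] at h4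
  exact (lt_of_pow_lt_pow_left₀ 2 hε.le h4).le

end hilbert

private theorem fa_norm_ph (t e : ℝ) : ‖cexp (-((t * e : ℝ) : ℂ) * I)‖ = 1 := by
  rw [show -((t * e : ℝ) : ℂ) * I = ((-(t * e) : ℝ) : ℂ) * I by push_cast; ring]
  exact Complex.norm_exp_ofReal_mul_I _

private theorem fa_norm_sq_toL2 {X : Type} [TopologicalSpace X] [CompactSpace X] [T2Space X]
    [SecondCountableTopology X] [MeasureSpace X] [BorelSpace X]
    [IsProbabilityMeasure (volume : Measure X)] (h : C(X, ℂ)) :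
    ‖(ContinuousMap.toLp 2 volume ℂ h : Lp ℂ 2 (volume : Measure X))‖ ^ 2 = ∫ x, ‖h x‖ ^ 2 := by
  have h1 : inner ℂ (ContinuousMap.toLp 2 volume ℂ h : Lp ℂ 2 (volume : Measure X))
      (ContinuousMap.toLp 2 volume ℂ h : Lp ℂ 2 (volume : Measure X)) =
      ∫ x, h x * conj (h x) := by
    rw [ContinuousMap.inner_toLp]
  have h2 : inner ℂ (ContinuousMap.toLp 2 volume ℂ h : Lp ℂ 2 (volume : Measure X))
      (ContinuousMap.toLp 2 volume ℂ h : Lp ℂ 2 (volume : Measure X)) =
      ((‖(ContinuousMap.toLp 2 volume ℂ h : Lp ℂ 2 (volume : Measure X))‖ ^ 2 : ℝ) : ℂ) := by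
    rw [inner_self_eq_norm_sq_to_K]; push_cast; rfl
  rw [h2] at h1
  have h3 : ∫ x, h x * conj (h x) = ((∫ x, ‖h x‖ ^ 2 : ℝ) : ℂ) := by
    have h4 : ((∫ x, ‖h x‖ ^ 2 : ℝ) : ℂ) = ∫ x, ((‖h x‖ ^ 2 : ℝ) : ℂ) := integral_ofReal.symm
    rw [h4]
    refine integral_congr_ae (Filter.Eventually.of_forall fun x => ?_)
    show h x * conj (h x) = ((‖h x‖ ^ 2 : ℝ) : ℂ)
    rw [Complex.mul_conj']; push_cast; rfl
  rw [h3] at h1
  exact_mod_cast h1

theorem full_abs {X : Type} [TopologicalSpace X] [CompactSpace X] [T2Space X]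
    [SecondCountableTopology X] [MeasureSpace X] [BorelSpace X]
    [IsProbabilityMeasure (volume : Measure X)] {Λ : Type}
    (E : Λ → Submodule ℂ (Lp ℂ 2 (volume : Measure X))) [∀ l, (E l).HasOrthogonalProjection]
    (e : Λ → ℝ) (R : Λ → Set C(X, ℂ)) (s p a b C : ℝ) (hp : 0 < p) (hab : a < b) (hC : 0 < C)
    (he : ∀ l, E l ≠ ⊥ → 0 ≤ 1 + e l)
    (horth : ∀ l l', l ≠ l' → ∀ u ∈ E l, ∀ v ∈ E l', inner ℂ u v = 0)
    (hrep : ∀ l, ∀ u ∈ E l, ∃ h ∈ R l,
      (ContinuousMap.toLp 2 volume ℂ h : Lp ℂ 2 (volume : Measure X)) = u)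
    (hbound : ∀ (F : Finset Λ) (h : Λ → C(X, ℂ)), (∀ l ∈ F, h l ∈ R l) →
      ∫ t in a..b, ∫ x, ‖∑ l ∈ F, cexp (-((t * e l : ℝ) : ℂ) * I) * h l x‖ ^ p ≤
        C * (∑ l ∈ F, (1 + e l) ^ s * ∫ x, ‖h l x‖ ^ 2) ^ (p / 2))
    (f : Lp ℂ 2 (volume : Measure X)) :
    ∫⁻ t in Set.Icc a b, (eLpNorm ((∑' l, cexp (-((t * e l : ℝ) : ℂ) * I) •
        (E l).starProjection f : Lp ℂ 2 (volume : Measure X)) : X → ℂ)
          (ENNReal.ofReal p) volume) ^ p ≤
      ENNReal.ofReal C * (∑' l, ENNReal.ofReal ((1 + e l) ^ s *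
        ‖(E l).starProjection f‖ ^ 2)) ^ (p / 2) := by
  choose h hhR hhp using fun l => hrep l ((E l).starProjection f)
    (Submodule.starProjection_apply_mem _ _)
  obtain ⟨F, hF⟩ : ∃ F : ℕ → Finset Λ, ∀ k, ∀ c : Λ → ℂ, (∀ l, ‖c l‖ = 1) →
      ‖∑' l, c l • (E l).starProjection f - ∑ l ∈ F k, c l • (E l).starProjection f‖ ≤
        (1 / 2 : ℝ) ^ k := by
    have h := fun k : ℕ => fa_tail_bound E horth f ((1 / 2 : ℝ) ^ k) (by positivity)
    choose F hF using h
    exact ⟨F, fun k c hc => hF k (F k) subset_rfl c hc⟩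
  -- the phases
  obtain ⟨ph, hph⟩ : ∃ ph : ℝ → Λ → ℂ, ∀ t l, ph t l = cexp (-((t * e l : ℝ) : ℂ) * I) :=
    ⟨fun t l => cexp (-((t * e l : ℝ) : ℂ) * I), fun _ _ => rfl⟩
  have hph1 : ∀ t l, ‖ph t l‖ = 1 := fun t l => by rw [hph]; exact fa_norm_ph t (e l)
  obtain ⟨u, hu⟩ : ∃ u : ℝ → Lp ℂ 2 (volume : Measure X), ∀ t, u t =
      ∑' l, ph t l • (E l).starProjection f := ⟨_, fun _ => rfl⟩
  simp only [← hph, ← hu] at hbound ⊢
  -- the approximating functions
  set w : ℕ → ℝ → X → ℂ := fun k t x => ∑ l ∈ F k, ph t l * h l x with hw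
  have hph_cont : ∀ l, Continuous fun t => ph t l := by
    intro l
    simp only [hph]
    fun_prop
  have hwcont : ∀ k, Continuous (Function.uncurry (w k)) := by
    intro k
    have : Function.uncurry (w k) = fun q : ℝ × X => ∑ l ∈ F k, ph q.1 l * h l q.2 := rfl
    rw [this]
    exact continuous_finsetSum _ fun l _ =>
      ((hph_cont l).comp continuous_fst).mul ((h l).continuous.comp continuous_snd)
  have hae : ∀ t, ∀ᵐ x ∂(volume : Measure X),
      Tendsto (fun k => w k t x) atTop (𝓝 ((u t : X → ℂ) x)) := by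
    intro t
    have h1 := STZ.ae_tendsto_of_geometric volume (u t)
      (fun k => ∑ l ∈ F k, ph t l • (E l).starProjection f)
      (fun k => by rw [hu]; exact hF k (ph t) (hph1 t))
    have h2 : ∀ᵐ x ∂(volume : Measure X), ∀ k,
        ((∑ l ∈ F k, ph t l • (E l).starProjection f : Lp ℂ 2 (volume : Measure X)) : X → ℂ) x =
          w k t x := by
      rw [ae_all_iff]
      intro k
      have h1 : (∑ l ∈ F k, ph t l • (E l).starProjection f : Lp ℂ 2 (volume : Measure X)) =
          ContinuousMap.toLp 2 volume ℂ (∑ l ∈ F k, ph t l • h l) := by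
        rw [map_sum]
        refine Finset.sum_congr rfl fun l _ => ?_
        rw [map_smul, hhp]
      rw [h1]
      refine (ContinuousMap.coeFn_toLp volume _).trans ?_
      refine Eventually.of_forall fun x => ?_
      simp only [ContinuousMap.sum_apply, ContinuousMap.smul_apply, smul_eq_mul, hw]
    filter_upwards [h1, h2] with x hx1 hx2
    simp only [hx2] at hx1
    exact hx1
  -- Fatou in `x`
  have hpR : (ENNReal.ofReal p).toReal = p := ENNReal.toReal_ofReal hp.le
  have hpne : ENNReal.ofReal p ≠ 0 := by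
    rw [Ne, ENNReal.ofReal_eq_zero, not_le]; exact hp
  have hx : ∀ t, (eLpNorm (u t : X → ℂ) (ENNReal.ofReal p) volume) ^ p ≤
      liminf (fun k => ∫⁻ x, ‖w k t x‖ₑ ^ p) atTop := by
    intro t
    rw [eLpNorm_eq_lintegral_rpow_enorm_toReal hpne ENNReal.ofReal_ne_top, hpR,
      ← ENNReal.rpow_mul, one_div_mul_cancel hp.ne', ENNReal.rpow_one]
    have h1 : ∫⁻ x, ‖(u t : X → ℂ) x‖ₑ ^ p =
        ∫⁻ x, liminf (fun k => ‖w k t x‖ₑ ^ p) atTop := by
      refine lintegral_congr_ae ?_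
      filter_upwards [hae t] with x hx
      have h2 : Tendsto (fun k => ‖w k t x‖ₑ ^ p) atTop
          (𝓝 (‖(u t : X → ℂ) x‖ₑ ^ p)) :=
        (ENNReal.continuous_rpow_const.tendsto _).comp hx.enorm
      exact h2.liminf_eq.symm
    rw [h1]
    refine lintegral_liminf_le fun k => ?_
    have h3 : Continuous (w k t) := (hwcont k).comp (by fun_prop : Continuous fun x : X => (t, x))
    exact (h3.measurable.enorm).pow_const _
  -- Fatou in `t`
  have hBmeas : ∀ k, Measurable fun t => ∫⁻ x, ‖w k t x‖ₑ ^ p := by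
    intro k
    exact Measurable.lintegral_prod_right' (f := fun (q : ℝ × X) => ‖w k q.1 q.2‖ₑ ^ p)
      (((hwcont k).measurable.enorm).pow_const _)
  have ht : ∫⁻ t in Set.Icc a b, (eLpNorm (u t : X → ℂ) (ENNReal.ofReal p) volume) ^ p ≤
      liminf (fun k => ∫⁻ t in Set.Icc a b, ∫⁻ x, ‖w k t x‖ₑ ^ p) atTop :=
    (lintegral_mono hx).trans (lintegral_liminf_le fun k => hBmeas k)
  refine ht.trans ?_
  -- bound for each `k`
  refine liminf_le_of_le (by isBoundedDefault) fun B hB => ?_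
  obtain ⟨k, hk⟩ := hB.exists
  refine hk.trans ?_
  -- convert to real integrals
  have hwx : ∀ t, Continuous fun x => ‖w k t x‖ ^ p := by
    intro t
    have h3 : Continuous (w k t) := (hwcont k).comp (by fun_prop : Continuous fun x : X => (t, x))
    exact h3.norm.rpow_const fun _ => Or.inr hp.le
  have hinner : ∀ t, ∫⁻ x, ‖w k t x‖ₑ ^ p = ENNReal.ofReal (∫ x, ‖w k t x‖ ^ p) := by
    intro t
    rw [ofReal_integral_eq_lintegral_ofReal]
    · refine lintegral_congr fun x => ?_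
      rw [← ENNReal.ofReal_rpow_of_nonneg (norm_nonneg _) hp.le, ofReal_norm]
    · exact (hwx t).integrable_of_hasCompactSupport (HasCompactSupport.of_compactSpace _)
    · exact Eventually.of_forall fun x => Real.rpow_nonneg (norm_nonneg _) _
  have hcontA : Continuous fun t => ∫ x, ‖w k t x‖ ^ p := by
    have h4 : Continuous (Function.uncurry fun t x => ‖w k t x‖ ^ p) :=
      (hwcont k).norm.rpow_const fun _ => Or.inr hp.le
    have h5 := continuous_parametric_integral_of_continuous (μ := (volume : Measure X))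
      (f := fun t x => ‖w k t x‖ ^ p) h4 isCompact_univ
    simpa using h5
  simp only [hinner]
  have houter : ∫⁻ t in Set.Icc a b, ENNReal.ofReal (∫ x, ‖w k t x‖ ^ p) =
      ENNReal.ofReal (∫ t in a..b, ∫ x, ‖w k t x‖ ^ p) := by
    rw [intervalIntegral.integral_of_le hab.le, ← integral_Icc_eq_integral_Ioc,
      ofReal_integral_eq_lintegral_ofReal]
    · exact (hcontA.continuousOn).integrableOn_Icc
    · exact Eventually.of_forall fun t => integral_nonneg fun x => Real.rpow_nonneg (norm_nonneg _) _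
  rw [houter]
  have h6 := hbound (F k) h (fun l _ => hhR l)
  have h7 : ∀ l, ∫ x, ‖h l x‖ ^ 2 = ‖(E l).starProjection f‖ ^ 2 := fun l => by
    rw [← fa_norm_sq_toL2, hhp]
  simp only [h7] at h6
  refine (ENNReal.ofReal_le_ofReal h6).trans ?_
  have hterm : ∀ l : Λ, 0 ≤ (1 + e l) ^ s * ‖(E l).starProjection f‖ ^ 2 := by
    intro l
    by_cases hE : E l = ⊥
    · have h0 : (E l).starProjection f = 0 :=
        (Submodule.eq_bot_iff _).1 hE _ (Submodule.starProjection_apply_mem (E l) f)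
      rw [h0, norm_zero]
      simp
    · exact mul_nonneg (Real.rpow_nonneg (he l hE) _) (sq_nonneg _)
  rw [ENNReal.ofReal_mul hC.le, ← ENNReal.ofReal_rpow_of_nonneg
    (Finset.sum_nonneg fun l _ => hterm l) (by positivity)]
  have h8 : ENNReal.ofReal (∑ l ∈ F k, (1 + e l) ^ s * ‖(E l).starProjection f‖ ^ 2) ≤
      ∑' l, ENNReal.ofReal ((1 + e l) ^ s * ‖(E l).starProjection f‖ ^ 2) := by
    rw [ENNReal.ofReal_sum_of_nonneg fun l _ => hterm l]
    exact ENNReal.sum_le_tsum _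
  gcongr

end STC
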