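import Pool.Agent.STC.DerLin
import Pool.Agent.STC.SCRel

/-!
# STC/Fund : determinants of compressions of the adjoint representation

`mco x y` is the function `z ↦ hip (Ad z x) y`. It is in `alg K`: with the functionals `lam i` of
`LieBasis.exists_lam`, `hip (Ad z x) y = Σ_i conj (y i) lam_i (z toMat(x) z^*)` (`toMat_AdC`), and
`lam_conj_mem`. `DD_mco`: for a basis vector `X_i`: `Ad (z ex(s)) x = Ad z (Ad (ex(s)) x)`, derivative
at `0` is `Ad z (br e_i x)` (`hasDerivAt_Ad`); then linear combinations.
`det_der`: a derivation `D` of a commutative algebra and a matrix `m` with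
`D m_bc = Σ_b' a_b'c • m_bb'`. Then `D (det m) = (tr a) • det m`: by the Leibniz formula `D (det m)`
is the sum over `c` of the determinants of `m` with column `c` replaced by its derivative
`Σ_b' a_b'c • (column b')`; by multilinearity and since a matrix with two equal columns has
determinant zero this is `a_cc • det m`.
`DD_fdet`: `DD_mco`, linearity of `adG z`, `det_der`. `fdet_one`: `Ad 1 = 1` and `hipEE`.
-/

open MeasureTheory
open scoped ComplexConjugate

namespace STC

private theorem der_prod {A : Type} [CommRing A] [Algebra ℂ A] (D : Derivation ℂ A A) {ι : Type}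
    [DecidableEq ι] (s : Finset ι) (f : ι → A) :
    D (∏ i ∈ s, f i) = ∑ i ∈ s, (∏ j ∈ s.erase i, f j) * D (f i) := by
  induction s using Finset.induction_on with
  | empty => simp
  | insert k s hk ih =>
    rw [Finset.prod_insert hk, D.leibniz, ih, Finset.sum_insert hk, Finset.erase_insert hk,
      smul_eq_mul, smul_eq_mul, Finset.mul_sum, add_comm]
    congr 1
    refine Finset.sum_congr rfl fun i hi => ?_
    have hik : k ≠ i := fun h => hk (h ▸ hi)
    rw [Finset.erase_insert_of_ne hik, Finset.prod_insert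
      (fun h => hk (Finset.mem_of_mem_erase h))]
    ring

private theorem der_det {A : Type} [CommRing A] [Algebra ℂ A] (D : Derivation ℂ A A) {ι : Type}
    [Fintype ι] [DecidableEq ι] (m : Matrix ι ι A) :
    D m.det = ∑ c, (m.updateCol c (fun b => D (m b c))).det := by
  simp only [Matrix.det_apply', map_sum]
  rw [Finset.sum_comm]
  refine Finset.sum_congr rfl fun σ _ => ?_
  rw [D.leibniz, Derivation.map_intCast, smul_zero, add_zero, smul_eq_mul, der_prod,
    Finset.mul_sum]
  refine Finset.sum_congr rfl fun c _ => ?_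
  congr 1
  rw [← Finset.mul_prod_erase Finset.univ _ (Finset.mem_univ c), Matrix.updateCol_self, mul_comm]
  congr 1
  refine Finset.prod_congr rfl fun j hj => ?_
  rw [Matrix.updateCol_ne (Finset.ne_of_mem_erase hj)]

theorem det_der {A : Type} [CommRing A] [Algebra ℂ A] (D : Derivation ℂ A A) {ι : Type} [Fintype ι]
    [DecidableEq ι] (m : Matrix ι ι A) (a : Matrix ι ι ℂ)
    (h : ∀ b c, D (m b c) = ∑ b', a b' c • m b b') : D m.det = a.trace • m.det := by
  rw [der_det, Matrix.trace, Finset.sum_smul]
  refine Finset.sum_congr rfl fun c _ => ?_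
  have h1 : (fun b => D (m b c)) =
      fun b => ∑ b', (algebraMap ℂ A (a b' c)) • m b b' := by
    funext b
    rw [h b c]
    exact Finset.sum_congr rfl fun b' _ => by rw [algebraMap_smul]
  rw [h1, Matrix.det_updateCol_sum m c (fun b' => algebraMap ℂ A (a b' c)), algebraMap_smul]
  rfl

namespace CG

variable {N : ℕ} {K : ClosedSubgroup (UG N)} {d : ℕ} (B : LieBasis K.toSubgroup K.isClosed' d)

theorem mco_mem (x y : Fin d → ℂ) : (fun z => hip (adG B z x) y) ∈ alg K := by
  obtain ⟨lam, hlam⟩ := B.exists_lam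
  have h1 : (fun z : CG K => hip (adG B z x) y) =
      ∑ i, conj (y i) • (fun z : CG K => lam i (z.mat * B.toMat x * star z.mat)) := by
    funext z
    rw [Finset.sum_apply]
    unfold hip
    refine Finset.sum_congr rfl fun i _ => ?_
    have h2 : adG B z x i = lam i (z.mat * B.toMat x * star z.mat) := by
      have h3 := B.toMat_AdC (show K.toSubgroup from z) x
      rw [← hlam i (adG B z x)]
      exact congrArg (lam i) h3
    rw [h2, Pi.smul_apply, smul_eq_mul, mul_comm]
  rw [h1]
  exact Subalgebra.sum_mem _ fun i _ => Subalgebra.smul_mem _ (lam_conj_mem (lam i) _) _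

/-- matrix coefficients of the adjoint representation -/
noncomputable def mco (x y : Fin d → ℂ) : (rep K).A := ⟨fun z => hip (adG B z x) y, mco_mem B x y⟩

private theorem DX_mco (i : Fin d) (x y : Fin d → ℂ) :
    DX (B.mat_mem i) (mco B x y) = mco B (B.sc.br (cx (Pi.single i 1)) x) y := by
  apply Subtype.ext
  funext z
  rw [DX_apply]
  have hm : B.toMat (cx (Pi.single i 1)) = B.mat i := by
    rw [B.toMat_apply, Finset.sum_eq_single i]
    · simp [cx]
    · intro j _ hj
      simp [cx, hj]
    · intro h
      exact absurd (Finset.mem_univ i) h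
  -- the linear functional
  let Φ : (Fin d → ℂ) →ₗ[ℂ] ℂ :=
    { toFun := fun v => hip (adG B z v) y
      map_add' := fun v w => by rw [map_add, hip_add_left]
      map_smul' := fun c v => by rw [map_smul, hip_smul_left]; rfl }
  have hΦ : ∀ v, Φ v = ∑ j, v j * Φ (Pi.single j 1) := by
    intro v
    conv_lhs => rw [pi_eq_sum_univ v]
    rw [map_sum]
    refine Finset.sum_congr rfl fun j _ => ?_
    rw [map_smul, smul_eq_mul]
    congr 2
    funext k
    rw [Pi.single_apply]
    simp only [eq_comm]
  have h1 : ∀ s : ℝ, (mco B x y).1 (z * ex (B.mat_mem i) s) =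
      Φ (B.AdC (show K.toSubgroup from ex (B.mat_mem i) s) x) := by
    intro s
    change hip (B.AdC ((show K.toSubgroup from z) *
      (show K.toSubgroup from ex (B.mat_mem i) s)) x) y = _
    rw [B.AdC_mul]
    rfl
  have hg : ∀ s : ℝ, ((show K.toSubgroup from ex (B.mat_mem i) s).1 : Mat N) =
      NormedSpace.exp (s • B.toMat (cx (Pi.single i 1))) := by
    intro s
    rw [hm]
    exact mat_ex (B.mat_mem i) s
  have h2 : HasDerivAt (fun s : ℝ => Φ (B.AdC (show K.toSubgroup from ex (B.mat_mem i) s) x))
      (Φ (B.sc.br (cx (Pi.single i 1)) x)) 0 := by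
    have h3 : ∀ j, HasDerivAt
        (fun s : ℝ => B.AdC (show K.toSubgroup from ex (B.mat_mem i) s) x j *
          Φ (Pi.single j 1)) (B.sc.br (cx (Pi.single i 1)) x j * Φ (Pi.single j 1)) 0 :=
      fun j => (B.hasDerivAt_Ad (Pi.single i 1) _ hg x j).mul_const _
    have h4 := HasDerivAt.fun_sum (u := Finset.univ) fun j _ => h3 j
    rw [hΦ (B.sc.br (cx (Pi.single i 1)) x)]
    refine h4.congr_of_eventuallyEq (Filter.Eventually.of_forall fun s => ?_)
    exact hΦ _
  unfold dfun
  simp only [h1]
  exact h2.deriv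

private theorem mco_sum {ι : Type} [Fintype ι] (c : ι → ℂ) (x : ι → Fin d → ℂ) (y : Fin d → ℂ) :
    mco B (∑ b, c b • x b) y = ∑ b, c b • mco B (x b) y := by
  apply Subtype.ext
  funext z
  have h1 : (∑ b, c b • mco B (x b) y).1 z = ∑ b, c b * hip (adG B z (x b)) y := by
    rw [AddSubmonoidClass.coe_finsetSum, Finset.sum_apply]
    rfl
  rw [h1]
  change hip (adG B z (∑ b, c b • x b)) y = _
  rw [map_sum, hip_sum_left]
  exact Finset.sum_congr rfl fun b _ => by rw [map_smul, hip_smul_left]

theorem DD_mco (u x y : Fin d → ℂ) : DD B u (mco B x y) = mco B (B.sc.br u x) y := by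
  have h1 : DD B u (mco B x y) = ∑ i, u i • DX (B.mat_mem i) (mco B x y) := by
    change (∑ i, u i • DX (B.mat_mem i)) (mco B x y) = _
    have h := congrFun (map_sum (Derivation.coeFnAddMonoidHom (R := ℂ) (A := (rep K).A)
      (M := (rep K).A)) (fun i => u i • DX (B.mat_mem i)) Finset.univ) (mco B x y)
    rw [Finset.sum_apply] at h
    exact h
  have h2 : B.sc.br u x = ∑ i, u i • B.sc.br (cx (Pi.single i 1)) x := by
    conv_lhs => rw [pi_eq_sum_univ u]
    rw [map_sum, LinearMap.sum_apply]
    refine Finset.sum_congr rfl fun i _ => ?_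
    rw [map_smul, LinearMap.smul_apply]
    congr 3
    funext k
    unfold cx
    by_cases hik : i = k
    · subst hik
      simp
    · rw [if_neg hik, Pi.single_eq_of_ne (fun h => hik h.symm), Complex.ofReal_zero]
  rw [h1, h2, mco_sum]
  exact Finset.sum_congr rfl fun i _ => by rw [DX_mco]

variable {r M : ℕ} (P : RootDec B.sc r M)

/-- the determinant of the compression of `Ad z` to the span of the `E b`, `b ∈ I` -/
noncomputable def fdet (I : Finset (Fin M)) : (rep K).A :=
  Matrix.det (fun b c : I => mco B (P.E c) (P.E b))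

theorem fdet_one (I : Finset (Fin M)) : (fdet B P I).1 1 = 1 := by
  let ev : (rep K).A →+* ℂ := (Pi.evalRingHom (fun _ : CG K => ℂ) 1).comp
    ((rep K).A.val : (rep K).A →ₐ[ℂ] (CG K → ℂ)).toRingHom
  have h1 : (fdet B P I).1 1 = ev (fdet B P I) := rfl
  rw [h1, fdet, RingHom.map_det]
  have h2 : ev.mapMatrix (fun b c : I => mco B (P.E c) (P.E b)) = 1 := by
    ext b c
    change hip (B.AdC 1 (P.E c)) (P.E b) = _
    rw [B.AdC_one, P.hipEE, Matrix.one_apply]
    simp only [Subtype.ext_iff, eq_comm]
  rw [h2, Matrix.det_one]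

theorem DD_fdet (I : Finset (Fin M)) (u : Fin d → ℂ) (a : Matrix I I ℂ)
    (h : ∀ c : I, B.sc.br u (P.E c) = ∑ b : I, a b c • P.E b) :
    DD B u (fdet B P I) = a.trace • fdet B P I := by
  refine det_der (DD B u) _ a fun b c => ?_
  change DD B u (mco B (P.E c) (P.E b)) = _
  rw [DD_mco, h c, mco_sum]

end CG

end STC
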