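import Pool.Agent.STC.LieDefs

/-!
# STC/Grp : a closed subgroup of `U(N)` as a compact group with its Haar probability measure
-/

open MeasureTheory
open scoped ComplexConjugate

namespace STC

instance instSecondCountableMat (N : ℕ) : SecondCountableTopology (Mat N) :=
  inferInstanceAs (SecondCountableTopology (Fin N → Fin N → ℂ))

instance instSecondCountableUG (N : ℕ) : SecondCountableTopology (UG N) :=
  TopologicalSpace.Subtype.secondCountableTopology _

instance instCompactUG (N : ℕ) : CompactSpace (UG N) := by
  have hclosed : IsClosed {x : Mat N | x ∈ Matrix.unitaryGroup (Fin N) ℂ} := by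
    have h1 : {x : Mat N | x ∈ Matrix.unitaryGroup (Fin N) ℂ} = {x | x * star x = 1} := by
      ext x
      simp only [Set.mem_ofPred_eq, Matrix.mem_unitaryGroup_iff]
    rw [h1]
    exact isClosed_eq (continuous_id.mul continuous_star) continuous_const
  have hsub : {x : Mat N | x ∈ Matrix.unitaryGroup (Fin N) ℂ} ⊆
      (Set.univ.pi fun _ : Fin N => Set.univ.pi fun _ : Fin N => Metric.closedBall (0 : ℂ) 1) := by
    intro x hx i _ j _
    have := entry_norm_bound_of_unitary hx i j
    simpa using this
  have hK : IsCompact (Set.univ.pi fun _ : Fin N => Set.univ.pi fun _ : Fin N =>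
      Metric.closedBall (0 : ℂ) 1) :=
    isCompact_univ_pi fun _ => isCompact_univ_pi fun _ => isCompact_closedBall _ _
  have : IsCompact {x : Mat N | x ∈ Matrix.unitaryGroup (Fin N) ℂ} :=
    hK.of_isClosed_subset hclosed hsub
  exact isCompact_iff_compactSpace.1 this

/-- A closed subgroup of `U(N)`, as a group. -/
def CG {N : ℕ} (K : ClosedSubgroup (UG N)) : Type := K.toSubgroup

namespace CG

variable {N : ℕ} (K : ClosedSubgroup (UG N))

instance instGroup : Group (CG K) := inferInstanceAs (Group K.toSubgroup)

instance instTop : TopologicalSpace (CG K) := inferInstanceAs (TopologicalSpace K.toSubgroup)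

instance instTopGroup : IsTopologicalGroup (CG K) :=
  inferInstanceAs (IsTopologicalGroup K.toSubgroup)

instance instT2 : T2Space (CG K) := inferInstanceAs (T2Space K.toSubgroup)

instance instSecondCountable : SecondCountableTopology (CG K) :=
  TopologicalSpace.Subtype.secondCountableTopology (K.toSubgroup : Set (UG N))

instance instCompact : CompactSpace (CG K) :=
  isCompact_iff_compactSpace.1 (K.isClosed'.isCompact)

/-- the Borel sigma-algebra -/
noncomputable instance instMeas : MeasurableSpace (CG K) := borel (CG K)

instance instBorel : BorelSpace (CG K) := ⟨rfl⟩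

/-- The Haar probability measure. -/
noncomputable instance instMeasureSpace : MeasureSpace (CG K) := ⟨Measure.haarMeasure ⊤⟩

lemma volume_eq : (volume : Measure (CG K)) = Measure.haarMeasure ⊤ := rfl

instance instHaar : Measure.IsHaarMeasure (volume : Measure (CG K)) := by
  rw [volume_eq]; infer_instance

instance instProb : IsProbabilityMeasure (volume : Measure (CG K)) := by
  constructor
  have := Measure.haarMeasure_self (K₀ := (⊤ : TopologicalSpace.PositiveCompacts (CG K)))
  rw [volume_eq]
  simpa using this

variable {K}

/-- the matrix of a group element -/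
def mat (z : CG K) : Mat N := (z.1 : Mat N)

lemma mat_one : (1 : CG K).mat = 1 := rfl

lemma mat_mul (x y : CG K) : (x * y).mat = x.mat * y.mat := rfl

lemma mat_inv (x : CG K) : (x⁻¹).mat = star x.mat := rfl

lemma star_mul_mat (x : CG K) : star x.mat * x.mat = 1 := Matrix.mem_unitaryGroup_iff'.1 x.1.2

lemma mat_mul_star (x : CG K) : x.mat * star x.mat = 1 := Matrix.mem_unitaryGroup_iff.1 x.1.2

lemma continuous_mat : Continuous (CG.mat : CG K → Mat N) :=
  continuous_subtype_val.comp continuous_subtype_val

lemma mat_injective : Function.Injective (CG.mat : CG K → Mat N) := by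
  intro x y h
  exact Subtype.ext (Subtype.ext h)

/-- the element `exp (s X)` of the group -/
noncomputable def ex {X : Mat N} (hX : X ∈ lieSet K.toSubgroup) (s : ℝ) : CG K :=
  ⟨(hX s).choose, (hX s).choose_spec.1⟩

lemma mat_ex {X : Mat N} (hX : X ∈ lieSet K.toSubgroup) (s : ℝ) :
    (ex hX s).mat = NormedSpace.exp (s • X) := (hX s).choose_spec.2

end CG

end STC
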