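import Pool.Agent.STC.HWLow

/-!
# STC/HWLeft: (F1) uniqueness of the highest weight function with a given left weight

PROOF of `eq_zero_of_LW`. Let `f ∈ HW l`, `LW l f`, `f 1 = 0`. For a word `w` and `g = word w f` we have
`h k g = (l k - ∑_{b ∈ w} root_b(k)) g` (`h_word`), and `J (h k (J g)) = - l k g`, because the left
derivative `J ∘ h k ∘ J` commutes with all right derivatives (field `D_J`, used `|w|` times) and
`LW l f`. Evaluate at `1`: `(h k (J g)) 1 = -(h k g) 1` (field `D_J_one`) and
`(J (h k (J g))) 1 = (h k (J g)) 1⁻¹ = (h k (J g)) 1`. Hence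
`- l k g(1) = -(l k - ∑_{b∈w} root_b(k)) g(1)`, i.e. `(∑_{b∈w} root_b(k)) g(1) = 0` for all `k`. Taking
the combination with `H0`: `∑_{b∈w} dot (root b) H0 > 0` if `w ≠ []` (field `root_pos`), so `g 1 = 0`;
for `w = []` this is the hypothesis. So every element of `low f` vanishes at `1`. As `low f` is stable
under all `D o` (`D_low`), all iterated derivatives of `f` vanish at `1`, and `taylor` gives `f = 0`.

`HW_L`: field `D_L`. `HW_mul`: derivation property. `LW_mul`: `J` is multiplicative
(`J (f g) = J f * J g`) and `h k` is a derivation. `D_one`: `S.D o 1 = 0`.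
-/

open MeasureTheory
open scoped ComplexConjugate

namespace STC

namespace LGD

variable {K : Type} [Group K] [TopologicalSpace K] [MeasureSpace K] {r M : ℕ} (S : LGD K r M)

lemma HW_L {l : Fin r → ℝ} {f : S.A} (hf : f ∈ S.HW l) (x : K) : S.L x f ∈ S.HW l := by
  refine ⟨fun k => ?_, fun b => ?_⟩
  · have h1 : S.h k (S.L x f) = S.L x (S.h k f) := S.D_L _ x f
    rw [h1, hf.1 k, map_smul]
  · have h1 : S.E b (S.L x f) = S.L x (S.E b f) := S.D_L _ x f
    rw [h1, hf.2 b, map_zero]

lemma HW_mul {l m : Fin r → ℝ} {f g : S.A} (hf : f ∈ S.HW l) (hg : g ∈ S.HW m) :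
    f * g ∈ S.HW (l + m) := by
  refine ⟨fun k => ?_, fun b => ?_⟩
  · rw [Derivation.leibniz, hf.1 k, hg.1 k, smul_comm, smul_comm g, smul_eq_mul, smul_eq_mul,
      mul_comm g f, ← add_smul, add_comm, Pi.add_apply, Complex.ofReal_add]
  · rw [Derivation.leibniz, hf.2 b, hg.2 b, smul_zero, smul_zero, add_zero]

private lemma J_mul (f g : S.A) : S.J (f * g) = S.J f * S.J g := rfl

private lemma J_J (f : S.A) : S.J (S.J f) = f := by
  apply Subtype.ext
  funext z
  simp

lemma LW_mul {l m : Fin r → ℝ} {f g : S.A} (hf : S.LW l f) (hg : S.LW m g) :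
    S.LW (l + m) (f * g) := by
  intro k
  have h1 := hf k
  have h2 := hg k
  rw [J_mul, Derivation.leibniz, map_add, smul_eq_mul, smul_eq_mul, J_mul, J_mul, J_J, J_J, h1, h2,
    Pi.add_apply, Complex.ofReal_add]
  apply Subtype.ext
  funext z
  change f.1 z * -((m k : ℂ) * g.1 z) + g.1 z * -((l k : ℂ) * f.1 z) =
    -(((l k : ℂ) + (m k : ℂ)) * (f.1 z * g.1 z))
  ring

lemma HW_one : (1 : S.A) ∈ S.HW 0 := by
  refine ⟨fun k => ?_, fun b => ?_⟩
  · rw [Derivation.map_one_eq_zero, Pi.zero_apply, Complex.ofReal_zero, zero_smul]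
  · rw [Derivation.map_one_eq_zero]

private lemma left_word {l : Fin r → ℝ} {f : S.A} (hl : S.LW l f) (w : List (Fin M)) (k : Fin r) :
    S.J (S.h k (S.J (S.word w f))) = -((l k : ℂ) • S.word w f) := by
  induction w with
  | nil => exact hl k
  | cons b w ih =>
    have h1 : S.word (b :: w) f = S.F b (S.word w f) := rfl
    have h2 : S.J (S.h k (S.J (S.F b (S.word w f)))) = S.F b (S.J (S.h k (S.J (S.word w f)))) :=
      S.D_J _ _ _
    rw [h1, h2, ih, map_neg, Derivation.map_smul]

private lemma sum_pos' (w : List (Fin M)) (hw : w ≠ []) :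
    0 < (w.map fun b => dot (S.root b) S.H0).sum := by
  induction w with
  | nil => exact (hw rfl).elim
  | cons b w ih =>
    rw [List.map_cons, List.sum_cons]
    rcases eq_or_ne w [] with h | h
    · subst h
      simpa using S.root_pos b
    · exact add_pos (S.root_pos b) (ih h)

private lemma sum_dot (w : List (Fin M)) :
    ∑ k, (w.map fun b => S.root b k).sum * S.H0 k = (w.map fun b => dot (S.root b) S.H0).sum := by
  induction w with
  | nil => simp
  | cons b w ih =>
    simp only [List.map_cons, List.sum_cons, add_mul, Finset.sum_add_distrib, ih]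
    rfl

private lemma word_one {l : Fin r → ℝ} {f : S.A} (hf : f ∈ S.HW l) (hl : S.LW l f)
    (h1 : f.1 1 = 0) (w : List (Fin M)) : (S.word w f).1 1 = 0 := by
  rcases eq_or_ne w [] with hw | hw
  · subst hw
    exact h1
  · by_contra hne
    have h2 : ∀ k, (w.map fun b => S.root b k).sum = 0 := by
      intro k
      have h3 := congrArg (fun g : S.A => g.1 1) (S.left_word hl w k)
      have h4 := congrArg (fun g : S.A => g.1 1) (S.h_word hf w k)
      have h5 : (S.J (S.h k (S.J (S.word w f)))).1 1 = (S.h k (S.J (S.word w f))).1 1⁻¹ := rfl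
      have h6 : (S.h k (S.J (S.word w f))).1 1 = -(S.h k (S.word w f)).1 1 :=
        S.D_J_one _ (S.word w f)
      have h7 : (-((l k : ℂ) • S.word w f) : S.A).1 1 = -((l k : ℂ) * (S.word w f).1 1) := rfl
      have h8 : ((((l k - (w.map fun b => S.root b k).sum : ℝ) : ℂ) • S.word w f : S.A)).1 1 =
          ((l k - (w.map fun b => S.root b k).sum : ℝ) : ℂ) * (S.word w f).1 1 := rfl
      rw [h5, inv_one, h6, h7] at h3
      rw [h8] at h4
      rw [h4] at h3
      have h9 := mul_right_cancel₀ hne (neg_injective h3)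
      have h10 := Complex.ofReal_injective h9
      linarith
    have h11 := S.sum_pos' w hw
    rw [← S.sum_dot w] at h11
    simp only [h2, zero_mul, Finset.sum_const_zero, lt_self_iff_false] at h11

/-- (F1) -/
lemma eq_zero_of_LW {l : Fin r → ℝ} {f : S.A} (hf : f ∈ S.HW l) (hl : S.LW l f)
    (h1 : f.1 1 = 0) : f = 0 := by
  have h2 : ∀ g ∈ S.low f, g.1 1 = 0 := by
    intro g hg
    unfold low at hg
    induction hg using Submodule.span_induction with
    | mem x hx =>
      obtain ⟨w, rfl⟩ := hx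
      exact S.word_one hf hl h1 w
    | zero => rfl
    | add x y _ _ hx hy =>
      have : (x + y : S.A).1 1 = x.1 1 + y.1 1 := rfl
      rw [this, hx, hy, add_zero]
    | smul a x _ hx =>
      have : (a • x : S.A).1 1 = a * x.1 1 := rfl
      rw [this, hx, mul_zero]
  refine S.taylor f fun w => h2 _ ?_
  induction w with
  | nil => exact S.self_mem_low f
  | cons o w ih => exact S.D_low hf o _ ih

/-- (F1), uniqueness form -/
lemma eq_of_LW {l : Fin r → ℝ} {f g : S.A} (hf : f ∈ S.HW l) (hl : S.LW l f) (hg : g ∈ S.HW l)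
    (hl' : S.LW l g) (h1 : f.1 1 = g.1 1) : f = g := by
  have h2 : S.LW l (f - g) := by
    intro k
    have h3 := hl k
    have h4 := hl' k
    rw [map_sub, map_sub, map_sub, h3, h4, smul_sub]
    abel
  have h5 : (f - g : S.A).1 1 = 0 := by
    have : (f - g : S.A).1 1 = f.1 1 - g.1 1 := rfl
    rw [this, h1, sub_self]
  exact sub_eq_zero.1 (S.eq_zero_of_LW ((S.HW l).sub_mem hf hg) h2 h5)

end LGD

end STC
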