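import Pool.Agent.STC.HWIp
import Pool.Agent.STC.HWLeft

/-!
# STC/HWPhi: (F2) existence of the functions `φ_l`, products

PROOF of `exists_phi_of_inv`. Take `f ∈ V`, `f ≠ 0`, `f x ≠ 0`; then `g = L x⁻¹ f ∈ V` and
`g 1 = f x ≠ 0`. Let `W` be the span of the left translates of `g`: `W ≤ V ≤ HW l`, finite dimensional
(contained in the finite dimensional space of the field `finite`), left invariant. Let
`T k = J ∘ h k ∘ J`. `T k` maps `W` to `W`: `J W` (`= W.map S.J`) is right invariant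
(`J (L x f) = R x (J f)`), so stable under `h k` by `D_of_R`, and `J (J f) = f`. `T j, T k` commute
(field `hh`) and are symmetric (`ip_J`, `ip_h`). By `joint_eig`, `g = ∑_{c ∈ s} u c` with
`T k (u c) = c k • u c`, `u c ∈ W`. As `g 1 ≠ 0` some `u c 1 ≠ 0`. Evaluate `T k (u c) = c k • u c` at
`1`: the left side is `(h k (J (u c))) 1 = - (h k (u c)) 1 = - l k * (u c) 1` (`D_J_one` and
`u c ∈ HW l`), so `c k = - l k`; hence `LW l (u c)` and `φ = (u c 1)⁻¹ • u c` works.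

`phi_spec` follows with `V = HW l` and the definition of `phi` (`dif_pos`), `phi_eq` from `eq_of_LW`.
`phi_mul`: `HW_mul`, `LW_mul`, value `1` at `1`, so `l + m ∈ wts` and uniqueness.
-/

open MeasureTheory
open scoped ComplexConjugate

namespace STC

namespace LGD

variable {K : Type} [Group K] [TopologicalSpace K] [IsTopologicalGroup K] [CompactSpace K] [T2Space K]
  [SecondCountableTopology K] [MeasureSpace K] [BorelSpace K]
  [Measure.IsHaarMeasure (volume : Measure K)] [IsProbabilityMeasure (volume : Measure K)]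
  {r M : ℕ} (S : LGD K r M)

private lemma J_J' (f : S.A) : S.J (S.J f) = f := by
  apply Subtype.ext
  funext z
  change f.1 z⁻¹⁻¹ = f.1 z
  rw [inv_inv]

private lemma J_R' (y : K) (f : S.A) : S.J (S.R y f) = S.L y (S.J f) := by
  apply Subtype.ext
  funext z
  change f.1 (z⁻¹ * y) = f.1 (y⁻¹ * z)⁻¹
  rw [mul_inv_rev, inv_inv]

private lemma ne_zero_of_one' {f : S.A} (h : f.1 1 = 1) : f ≠ 0 := by
  rintro rfl
  exact zero_ne_one h

private lemma LW_smul' {l : Fin r → ℝ} {f : S.A} (hf : S.LW l f) (a : ℂ) : S.LW l (a • f) := by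
  intro k
  rw [map_smul, Derivation.map_smul, map_smul, hf k, smul_neg, smul_comm]

lemma exists_phi_of_inv {l : Fin r → ℝ} (V : Submodule ℂ S.A) (hV : V ≤ S.HW l)
    (hL : ∀ x, ∀ f ∈ V, S.L x f ∈ V) (h0 : V ≠ ⊥) :
    ∃ φ ∈ V, S.LW l φ ∧ φ.1 1 = 1 := by
  obtain ⟨f, hf, hf0⟩ := Submodule.exists_mem_ne_zero_of_ne_bot h0
  obtain ⟨x, hx⟩ : ∃ x, f.1 x ≠ 0 := by
    by_contra hcon
    push Not at hcon
    exact hf0 (Subtype.ext (funext hcon))
  obtain ⟨g, hgV, hg1⟩ : ∃ g ∈ V, g.1 1 ≠ 0 := by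
    refine ⟨S.L x⁻¹ f, hL _ _ hf, ?_⟩
    change f.1 (x⁻¹⁻¹ * 1) ≠ 0
    rw [inv_inv, mul_one]
    exact hx
  obtain ⟨W0, hW0f, hgW0, hW0L, _⟩ := S.finite g
  haveI := hW0f
  set W : Submodule ℂ S.A := V ⊓ W0 with hWdef
  haveI : FiniteDimensional ℂ W := Submodule.finiteDimensional_of_le (inf_le_right : V ⊓ W0 ≤ W0)
  have hWL : ∀ x, ∀ f ∈ W, S.L x f ∈ W := fun x f hf =>
    ⟨hL x f hf.1, hW0L f hf.2 x⟩
  have hgW : g ∈ W := ⟨hgV, hgW0⟩
  let T : Fin r → (S.A →ₗ[ℂ] S.A) := fun k =>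
    S.J ∘ₗ ((S.h k : Derivation ℂ S.A S.A) : S.A →ₗ[ℂ] S.A) ∘ₗ S.J
  have hTa : ∀ k f, T k f = S.J (S.h k (S.J f)) := fun k f => rfl
  have hW : ∀ k, ∀ f ∈ W, T k f ∈ W := by
    intro k f hf
    have h1 : ∀ y, ∀ u ∈ W.comap S.J, S.R y u ∈ W.comap S.J := by
      intro y u hu
      rw [Submodule.mem_comap] at hu ⊢
      rw [S.J_R']
      exact hWL y _ hu
    have h2 := S.D_of_R (W.comap S.J) h1 (Sum.inl k) (S.J f) (by
      rw [Submodule.mem_comap, S.J_J']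
      exact hf)
    rw [Submodule.mem_comap] at h2
    exact h2
  have hT : ∀ j k, ∀ f ∈ W, T j (T k f) = T k (T j f) := by
    intro j k f _
    rw [hTa, hTa, hTa, hTa, S.J_J', S.J_J']
    have h1 : ⁅S.h j, S.h k⁆ (S.J f) = 0 := by
      rw [S.hh j k]
      rfl
    rw [Derivation.commutator_apply] at h1
    rw [sub_eq_zero.1 h1]
  have hs : ∀ k, ∀ f ∈ W, ∀ g ∈ W, S.ip (T k f) g = S.ip f (T k g) := by
    intro k f _ g _
    rw [hTa, hTa]
    calc S.ip (S.J (S.h k (S.J f))) g = S.ip (S.J (S.h k (S.J f))) (S.J (S.J g)) := by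
          rw [S.J_J' g]
      _ = S.ip (S.h k (S.J f)) (S.J g) := S.ip_J _ _
      _ = S.ip (S.J f) (S.h k (S.J g)) := S.ip_h k _ _
      _ = S.ip (S.J (S.J f)) (S.J (S.h k (S.J g))) := (S.ip_J _ _).symm
      _ = S.ip f (S.J (S.h k (S.J g))) := by rw [S.J_J' f]
  obtain ⟨s, u, hu, huT, hgu⟩ := S.joint_eig T W hW hT hs g hgW
  obtain ⟨c, hc⟩ : ∃ c, (u c).1 1 ≠ 0 := by
    by_contra hcon
    push Not at hcon
    apply hg1
    have h1 : g.1 1 = ∑ c ∈ s, (u c).1 1 := by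
      rw [hgu]
      have : ∀ t : Finset (Fin r → ℝ), (∑ c ∈ t, u c).1 1 = ∑ c ∈ t, (u c).1 1 := by
        intro t
        classical
        induction t using Finset.induction_on with
        | empty => simp
        | insert a t ha ih =>
          rw [Finset.sum_insert ha, Finset.sum_insert ha, ← ih]
          rfl
      exact this s
    rw [h1]
    exact Finset.sum_eq_zero fun c _ => hcon c
  have hucV : u c ∈ V := (hu c).1
  have hucH := hV hucV
  have hck : ∀ k, (c k : ℂ) = -(l k : ℂ) := by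
    intro k
    have h1 : (T k (u c)).1 1 = (c k : ℂ) * (u c).1 1 := by
      rw [huT c k]
      rfl
    have h2 : (T k (u c)).1 1 = (S.h k (S.J (u c))).1 1 := by
      rw [hTa]
      change (S.h k (S.J (u c))).1 (1 : K)⁻¹ = _
      rw [inv_one]
    have h3 : (S.h k (S.J (u c))).1 1 = -(S.h k (u c)).1 1 := S.D_J_one (Sum.inl k) (u c)
    have h4 : (S.h k (u c)).1 1 = (l k : ℂ) * (u c).1 1 := by
      rw [(S.mem_HW.1 hucH).1 k]
      rfl
    have h5 : ((c k : ℂ) + (l k : ℂ)) * (u c).1 1 = 0 := by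
      rw [add_mul, ← h1, h2, h3, h4]
      ring
    rcases mul_eq_zero.1 h5 with h | h
    · exact eq_neg_of_add_eq_zero_left h
    · exact absurd h hc
  have hLW : S.LW l (u c) := by
    intro k
    have h1 := huT c k
    rw [hTa, hck k, neg_smul] at h1
    exact h1
  refine ⟨((u c).1 1)⁻¹ • u c, V.smul_mem _ hucV, S.LW_smul' hLW _, ?_⟩
  change ((u c).1 1)⁻¹ * (u c).1 1 = 1
  exact inv_mul_cancel₀ hc

private lemma phi_spec' {l : Fin r → ℝ} (hl : l ∈ S.wts) :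
    S.phi l ∈ S.HW l ∧ S.LW l (S.phi l) ∧ (S.phi l).1 1 = 1 := by
  have h : ∃ f : S.A, f ∈ S.HW l ∧ S.LW l f ∧ f.1 1 = 1 :=
    S.exists_phi_of_inv (S.HW l) le_rfl (fun x f hf => S.HW_L hf x) hl
  unfold phi
  rw [dif_pos h]
  exact h.choose_spec

lemma phi_mem {l : Fin r → ℝ} (hl : l ∈ S.wts) : S.phi l ∈ S.HW l := by
  exact (S.phi_spec' hl).1

lemma phi_LW {l : Fin r → ℝ} (hl : l ∈ S.wts) : S.LW l (S.phi l) := by
  exact (S.phi_spec' hl).2.1

lemma phi_one {l : Fin r → ℝ} (hl : l ∈ S.wts) : (S.phi l).1 1 = 1 := by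
  exact (S.phi_spec' hl).2.2

private lemma mem_wts_of' {l : Fin r → ℝ} {f : S.A} (hf : f ∈ S.HW l) (h1 : f.1 1 = 1) :
    l ∈ S.wts := by
  intro h
  rw [h, Submodule.mem_bot] at hf
  exact S.ne_zero_of_one' h1 hf

lemma phi_eq {l : Fin r → ℝ} {f : S.A} (hf : f ∈ S.HW l) (hf' : S.LW l f) (h1 : f.1 1 = 1) :
    l ∈ S.wts ∧ S.phi l = f := by
  have hl := S.mem_wts_of' hf h1
  exact ⟨hl, S.eq_of_LW (S.phi_mem hl) (S.phi_LW hl) hf hf' (by rw [S.phi_one hl, h1])⟩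

lemma phi_mem_of_inv {l : Fin r → ℝ} (V : Submodule ℂ S.A) (hV : V ≤ S.HW l)
    (hL : ∀ x, ∀ f ∈ V, S.L x f ∈ V) (h0 : V ≠ ⊥) : S.phi l ∈ V := by
  obtain ⟨φ, hφ, h1, h2⟩ := S.exists_phi_of_inv V hV hL h0
  rw [(S.phi_eq (hV hφ) h1 h2).2]
  exact hφ

private lemma LW_one' : S.LW 0 (1 : S.A) := by
  intro k
  have h1 : S.J (1 : S.A) = 1 := rfl
  rw [h1, Derivation.map_one_eq_zero, map_zero]
  simp

lemma zero_mem_wts : (0 : Fin r → ℝ) ∈ S.wts := by
  exact (S.phi_eq S.HW_one S.LW_one' rfl).1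

lemma phi_zero : S.phi 0 = 1 := by
  exact (S.phi_eq S.HW_one S.LW_one' rfl).2

private lemma phi_add_aux' {l m : Fin r → ℝ} (hl : l ∈ S.wts) (hm : m ∈ S.wts) :
    l + m ∈ S.wts ∧ S.phi (l + m) = S.phi l * S.phi m := by
  refine S.phi_eq (S.HW_mul (S.phi_mem hl) (S.phi_mem hm))
    (S.LW_mul (S.phi_LW hl) (S.phi_LW hm)) ?_
  change (S.phi l).1 1 * (S.phi m).1 1 = 1
  rw [S.phi_one hl, S.phi_one hm, one_mul]

lemma add_mem_wts {l m : Fin r → ℝ} (hl : l ∈ S.wts) (hm : m ∈ S.wts) : l + m ∈ S.wts := by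
  exact (S.phi_add_aux' hl hm).1

lemma phi_add {l m : Fin r → ℝ} (hl : l ∈ S.wts) (hm : m ∈ S.wts) :
    S.phi (l + m) = S.phi l * S.phi m := by
  exact (S.phi_add_aux' hl hm).2

lemma s_mem_wts (i : Fin r) : S.s i ∈ S.wts := by
  refine S.mem_wts_of' (f := S.fund i) ?_ (S.fund_one i)
  exact ⟨fun k => S.fund_h i k, fun b => S.fund_E i b⟩

end LGD

end STC
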