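import Pool.Agent.STC.HWSl2
import Pool.Agent.STC.HWPhi

/-!
# STC/HWCo: coordinates `co x i = 2 (x, a_i)/(a_i, a_i)`, the weights `s_i`

PROOF. `dot_*`: `dot` is bilinear and symmetric (unfold, `Finset.sum_add_distrib`, ...). `dot_self_pos`:
a sum of squares. `coef_sim`: if `root b = sim i` then `∑ j coef b j • sim j = sim i`, so by linear
independence `coef b j = if j = i then 1 else 0`. `co_inj`: `sim` is a basis of `ℝ^r` (`r` independent
vectors in dimension `r`), and `dot x (sim i) = dot y (sim i)` for all `i` gives `dot (x-y) (x-y) = 0`.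

`dot_s_sim` (`i ≠ j`): `f = fund i ≠ 0` (`fund_one`) has weight `s i` (`fund_h`) and is killed by all
`E b` and by `F b` for the `b` with `root b = sim j` (`sim_root`, `fund_F`), so
`0 = ⁅E b, F b⁆ f = (∑ k root_b(k) (s i) k) f`.
`dot_s_sim_pos`: `dot (s i) (root b) = coef b i * dot (s i) (sim i)` (`root_eq`), so summing over the `b`
with `0 < coef b i` gives `dot (s i) (s i) = m * dot (s i) (sim i)`, `m = ∑ coef b i > 0` (there is `b`
with `root b = sim i`, `coef b i = 1`). `s i ≠ 0` since `dot (s i) H0 > 0` (sum of positive numbers).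
`co_nat`: `sl2_nat` with `f = phi l` and the `b` with `root b = sim i`. `co_s`: from these.
-/

open MeasureTheory
open scoped ComplexConjugate

namespace STC

namespace LGD

variable {K : Type} [Group K] [TopologicalSpace K] [IsTopologicalGroup K] [CompactSpace K] [T2Space K]
  [SecondCountableTopology K] [MeasureSpace K] [BorelSpace K]
  [Measure.IsHaarMeasure (volume : Measure K)] [IsProbabilityMeasure (volume : Measure K)]
  {r M : ℕ} (S : LGD K r M)

lemma dot_comm (x y : Fin r → ℝ) : dot x y = dot y x := by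
  unfold dot
  exact Finset.sum_congr rfl fun k _ => mul_comm _ _

lemma dot_add_left (x y z : Fin r → ℝ) : dot (x + y) z = dot x z + dot y z := by
  unfold dot
  rw [← Finset.sum_add_distrib]
  exact Finset.sum_congr rfl fun k _ => by rw [Pi.add_apply, add_mul]

lemma dot_smul_left (c : ℝ) (x y : Fin r → ℝ) : dot (c • x) y = c * dot x y := by
  unfold dot
  rw [Finset.mul_sum]
  exact Finset.sum_congr rfl fun k _ => by rw [Pi.smul_apply, smul_eq_mul, mul_assoc]

lemma dot_sum_left {ι : Type*} (s : Finset ι) (f : ι → Fin r → ℝ) (y : Fin r → ℝ) :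
    dot (∑ i ∈ s, f i) y = ∑ i ∈ s, dot (f i) y := by
  unfold dot
  rw [Finset.sum_comm]
  exact Finset.sum_congr rfl fun k _ => by rw [Finset.sum_apply, Finset.sum_mul]

lemma dot_self_pos {x : Fin r → ℝ} (hx : x ≠ 0) : 0 < dot x x := by
  unfold dot
  obtain ⟨k, hk⟩ := Function.ne_iff.1 hx
  refine Finset.sum_pos' (fun j _ => mul_self_nonneg _) ⟨k, Finset.mem_univ _, ?_⟩
  exact mul_self_pos.2 hk

/-- the coordinate `⟨x, a_i^∨⟩` -/
noncomputable def co (x : Fin r → ℝ) (i : Fin r) : ℝ :=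
  2 * dot x (S.sim i) / dot (S.sim i) (S.sim i)

lemma sim_sq_pos (i : Fin r) : 0 < dot (S.sim i) (S.sim i) :=
  dot_self_pos (S.sim_indep.ne_zero i)

lemma coef_sim {b : Fin M} {i : Fin r} (hb : S.root b = S.sim i) (j : Fin r) :
    S.coef b j = if j = i then 1 else 0 := by
  have h1 : ∑ j, ((S.coef b j : ℝ) - if j = i then 1 else 0) • S.sim j = 0 := by
    simp only [sub_smul, Finset.sum_sub_distrib, ite_smul, one_smul, zero_smul,
      Finset.sum_ite_eq', Finset.mem_univ, if_true]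
    rw [← S.root_eq b, hb, sub_self]
  have h2 := Fintype.linearIndependent_iff.1 S.sim_indep
    (fun j => (S.coef b j : ℝ) - if j = i then 1 else 0) h1 j
  have h3 : (S.coef b j : ℝ) = if j = i then 1 else 0 := sub_eq_zero.1 h2
  have h4 : (S.coef b j : ℝ) = ((if j = i then 1 else 0 : ℕ) : ℝ) := by
    rw [h3]
    split_ifs <;> simp
  exact_mod_cast h4

lemma co_inj {x y : Fin r → ℝ} (h : ∀ i, S.co x i = S.co y i) : x = y := by
  have h1 : ∀ i, dot (S.sim i) (x - y) = 0 := by
    intro i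
    have h2 := h i
    unfold co at h2
    have h3 := S.sim_sq_pos i
    have h4 : dot x (S.sim i) = dot y (S.sim i) := by
      rw [div_left_inj' h3.ne'] at h2
      linarith
    have h5 : x = (x - y) + y := by abel
    have h6 : dot x (S.sim i) = dot (x - y) (S.sim i) + dot y (S.sim i) := by
      rw [← dot_add_left, ← h5]
    rw [dot_comm]
    linarith
  have h2 : x - y ∈ Submodule.span ℝ (Set.range S.sim) := by
    have h3 : Submodule.span ℝ (Set.range S.sim) = ⊤ := by
      apply S.sim_indep.span_eq_top_of_card_eq_finrank'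
      simp
    rw [h3]
    trivial
  obtain ⟨c, hc⟩ := (Submodule.mem_span_range_iff_exists_fun ℝ).1 h2
  by_contra hxy
  have h3 : 0 < dot (x - y) (x - y) := dot_self_pos (sub_ne_zero.2 hxy)
  have h4 : dot (∑ i, c i • S.sim i) (x - y) = 0 := by
    rw [dot_sum_left]
    refine Finset.sum_eq_zero fun i _ => ?_
    rw [dot_smul_left, h1 i, mul_zero]
  rw [hc] at h4
  exact h3.ne' h4

private lemma ne_zero_of_one {f : S.A} (h : f.1 1 = 1) : f ≠ 0 := by
  rintro rfl
  have : (0 : ℂ) = 1 := h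
  exact zero_ne_one this

private lemma sum_der {ι : Type*} (T : Finset ι) (d : ι → Derivation ℂ S.A S.A) (f : S.A) :
    (∑ k ∈ T, d k) f = ∑ k ∈ T, d k f := by
  classical
  induction T using Finset.induction_on with
  | empty => simp
  | insert a T ha ih => rw [Finset.sum_insert ha, Finset.sum_insert ha, Derivation.add_apply, ih]

lemma dot_s_sim {i j : Fin r} (hij : i ≠ j) : dot (S.s i) (S.sim j) = 0 := by
  obtain ⟨b, hb⟩ := S.sim_root j
  have h1 : S.E b (S.fund i) = 0 := S.fund_E i b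
  have h2 : S.F b (S.fund i) = 0 := S.fund_F i j b hij.symm hb
  have h3 : ⁅S.E b, S.F b⁆ (S.fund i) = 0 := by
    rw [Derivation.commutator_apply, h1, h2, map_zero, map_zero, sub_self]
  rw [S.EF b] at h3
  have h4 : (∑ k, (S.root b k : ℂ) • S.h k) (S.fund i) =
      ((dot (S.s i) (S.sim j) : ℝ) : ℂ) • S.fund i := by
    have h5 : (∑ k, (S.root b k : ℂ) • S.h k) (S.fund i) =
        ∑ k, (S.root b k : ℂ) • S.h k (S.fund i) := by
      rw [S.sum_der]
      rfl
    rw [h5]
    have h6 : ∀ k, S.h k (S.fund i) = ((S.s i k : ℝ) : ℂ) • S.fund i := fun k => S.fund_h i k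
    simp only [h6, smul_smul, ← Finset.sum_smul]
    congr 1
    rw [← hb]
    unfold dot
    push_cast
    exact Finset.sum_congr rfl fun k _ => mul_comm _ _
  rw [h4] at h3
  rcases smul_eq_zero.1 h3 with h | h
  · exact_mod_cast h
  · exact absurd h (S.ne_zero_of_one (S.fund_one i))

lemma dot_s_root (i : Fin r) (b : Fin M) :
    dot (S.s i) (S.root b) = S.coef b i * dot (S.s i) (S.sim i) := by
  rw [dot_comm, S.root_eq b, dot_sum_left, Finset.sum_eq_single i]
  · rw [dot_smul_left, dot_comm]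
  · intro j _ hj
    rw [dot_smul_left, dot_comm, S.dot_s_sim hj.symm, mul_zero]
  · intro h
    exact absurd (Finset.mem_univ i) h

private lemma s_eq (i : Fin r) : S.s i = ∑ b with 0 < S.coef b i, S.root b := by
  ext k
  rw [Finset.sum_apply]
  rfl

lemma dot_s_sim_pos (i : Fin r) : 0 < dot (S.s i) (S.sim i) := by
  obtain ⟨b, hb⟩ := S.sim_root i
  have hbi : 0 < S.coef b i := by
    rw [S.coef_sim hb i, if_pos rfl]
    exact one_pos
  have h1 : 0 < dot (S.s i) S.H0 := by
    rw [s_eq, dot_sum_left]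
    exact Finset.sum_pos (fun c _ => S.root_pos c) ⟨b, by simp [hbi]⟩
  have h2 : S.s i ≠ 0 := by
    intro h
    rw [h] at h1
    have : dot (0 : Fin r → ℝ) S.H0 = 0 := by simp [dot]
    linarith
  have h3 := dot_self_pos h2
  have h4 : dot (S.s i) (S.s i) =
      (∑ b with 0 < S.coef b i, (S.coef b i : ℝ)) * dot (S.s i) (S.sim i) := by
    have h5 : dot (S.s i) (S.s i) = dot (∑ b with 0 < S.coef b i, S.root b) (S.s i) := by
      rw [← s_eq]
    rw [h5, dot_sum_left, Finset.sum_mul]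
    exact Finset.sum_congr rfl fun b _ => by rw [dot_comm, S.dot_s_root]
  have h5 : 0 ≤ ∑ b with 0 < S.coef b i, (S.coef b i : ℝ) :=
    Finset.sum_nonneg fun b _ => Nat.cast_nonneg _
  rw [h4] at h3
  by_contra hc
  have h6 := mul_nonpos_of_nonneg_of_nonpos h5 (not_lt.1 hc)
  linarith

/-- highest weights are dominant and integral -/
lemma co_nat {l : Fin r → ℝ} (hl : l ∈ S.wts) (i : Fin r) : ∃ n : ℕ, S.co l i = n := by
  obtain ⟨b, hb⟩ := S.sim_root i
  have h := S.phi_mem hl
  obtain ⟨n, hn, -⟩ := S.sl2_nat (S.ne_zero_of_one (S.phi_one hl)) h.1 b (h.2 b)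
  refine ⟨n, ?_⟩
  unfold co
  rw [hb] at hn
  rw [hn, mul_div_assoc, div_self (S.sim_sq_pos i).ne', mul_one]

/-- for all positive roots -/
lemma co_root_nat {l : Fin r → ℝ} (hl : l ∈ S.wts) (b : Fin M) :
    ∃ n : ℕ, 2 * dot l (S.root b) = n * dot (S.root b) (S.root b) := by
  have h := S.phi_mem hl
  obtain ⟨n, hn, -⟩ := S.sl2_nat (S.ne_zero_of_one (S.phi_one hl)) h.1 b (h.2 b)
  exact ⟨n, hn⟩

lemma co_s (i : Fin r) : ∃ m : ℕ, 0 < m ∧ ∀ j, S.co (S.s i) j = if j = i then (m : ℝ) else 0 := by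
  obtain ⟨m, hm⟩ := S.co_nat (S.s_mem_wts i) i
  have h1 : 0 < S.co (S.s i) i :=
    div_pos (mul_pos two_pos (S.dot_s_sim_pos i)) (S.sim_sq_pos i)
  refine ⟨m, ?_, ?_⟩
  · rw [hm] at h1
    exact_mod_cast h1
  · intro j
    split_ifs with h
    · rw [h, hm]
    · unfold co
      rw [S.dot_s_sim (Ne.symm h), mul_zero, zero_div]

private lemma smul_s (j : Fin r) (n : ℕ) :
    (n : ℝ) • S.s j ∈ S.wts ∧ S.phi ((n : ℝ) • S.s j) = S.phi (S.s j) ^ n := by
  induction n with
  | zero =>
    simp only [Nat.cast_zero, zero_smul, pow_zero]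
    exact ⟨S.zero_mem_wts, S.phi_zero⟩
  | succ n ih =>
    have h1 : ((n + 1 : ℕ) : ℝ) • S.s j = (n : ℝ) • S.s j + S.s j := by
      push_cast
      rw [add_smul, one_smul]
    rw [h1]
    refine ⟨S.add_mem_wts ih.1 (S.s_mem_wts j), ?_⟩
    rw [S.phi_add ih.1 (S.s_mem_wts j), ih.2, pow_succ]

private lemma sum_s (n : Fin r → ℕ) (T : Finset (Fin r)) :
    ∑ j ∈ T, (n j : ℝ) • S.s j ∈ S.wts ∧
      S.phi (∑ j ∈ T, (n j : ℝ) • S.s j) = ∏ j ∈ T, S.phi (S.s j) ^ n j := by
  classical
  induction T using Finset.induction_on with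
  | empty =>
    simp only [Finset.sum_empty, Finset.prod_empty]
    exact ⟨S.zero_mem_wts, S.phi_zero⟩
  | insert a T ha ih =>
    rw [Finset.sum_insert ha, Finset.prod_insert ha]
    refine ⟨S.add_mem_wts (S.smul_s a (n a)).1 ih.1, ?_⟩
    rw [S.phi_add (S.smul_s a (n a)).1 ih.1, (S.smul_s a (n a)).2, ih.2]

lemma sum_s_mem_wts {t : Fin r → ℝ} (ht : t ∈ S.wts) (n : Fin r → ℕ) :
    t + ∑ j, (n j : ℝ) • S.s j ∈ S.wts :=
  S.add_mem_wts ht (S.sum_s n Finset.univ).1

lemma phi_sum_s {t : Fin r → ℝ} (ht : t ∈ S.wts) (n : Fin r → ℕ) :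
    S.phi (t + ∑ j, (n j : ℝ) • S.s j) = S.phi t * ∏ j, S.phi (S.s j) ^ n j := by
  rw [S.phi_add ht (S.sum_s n Finset.univ).1, (S.sum_s n Finset.univ).2]

end LGD

end STC
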