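import Pool.Agent.STC.HWIso

/-!
# STC/HWComp: (G2) completeness

PROOF of `exists_HW`. Let `f ∈ W`, `f ≠ 0`, `V` = span of the right translates of `f` (`V ≤ W`, finite
dimensional, right invariant, so stable under all `D o` by `D_of_R`). By `joint_eig` (for `T k = h k`,
commuting by `hh`, symmetric by `ip_h`) `V` contains a nonzero joint eigenvector of the `h k`. Let
`T = ∑ k, H0 k • h k` on `V`; it has finitely many eigenvalues (finite dimension). Among the nonzero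
joint eigenvectors `u ∈ V`, `h k u = c k u`, choose one with `dot c H0` (an eigenvalue of `T`) maximal.
Then `E b u ∈ V` has weight `c + root b` (`hE`) and `dot (c + root b) H0 > dot c H0`, so `E b u = 0`.
Hence `u ∈ HW c`, `c ∈ wts`.

PROOF of `exists_decomp`. Let `W ∋ f` be finite dimensional and bi-invariant (field `finite`), and
`V = W ⊓ ⨆ l ∈ wts, ML l`. Suppose some `g ∈ W` is not in `V`; subtract the projection to `V`
(`exists_proj`): `u ∈ W`, `u ≠ 0`, `u ⊥ V`. The space `W' = {v ∈ W | v ⊥ V}` is right invariant (`V` is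
right invariant, `ip_R`) and nonzero, so by `exists_HW` it contains `v ≠ 0`, `v ∈ HW l`, `l ∈ wts`;
but then `v ∈ ML l ⊓ W ≤ V`, so `ip v v = 0`, a contradiction. So `f ∈ ⨆ l ∈ wts, ML l`.
-/

open MeasureTheory
open scoped ComplexConjugate

namespace STC

/-- the real eigenvalues of an operator on a finite dimensional invariant subspace -/
lemma HWComp_finite {A : Type*} [AddCommGroup A] [Module ℂ A] (V : Submodule ℂ A)
    [FiniteDimensional ℂ V] (T : A →ₗ[ℂ] A) (hTV : ∀ g ∈ V, T g ∈ V) :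
    Set.Finite {t : ℝ | ∃ v ∈ V, v ≠ 0 ∧ T v = (t : ℂ) • v} := by
  have h1 : Set.Finite {μ : ℂ | Module.End.HasEigenvalue (T.restrict hTV) μ} :=
    Module.End.finite_hasEigenvalue (T.restrict hTV)
  refine (h1.preimage Complex.ofReal_injective.injOn).subset ?_
  rintro t ⟨v, hv, hv0, hvh⟩
  show Module.End.HasEigenvalue (T.restrict hTV) (t : ℂ)
  refine Module.End.hasEigenvalue_of_hasEigenvector (x := (⟨v, hv⟩ : V)) ⟨?_, ?_⟩
  · rw [Module.End.mem_eigenspace_iff]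
    apply Subtype.ext
    exact hvh
  · intro h
    exact hv0 (congrArg Subtype.val h)

namespace LGD

variable {K : Type} [Group K] [TopologicalSpace K] [IsTopologicalGroup K] [CompactSpace K] [T2Space K]
  [SecondCountableTopology K] [MeasureSpace K] [BorelSpace K]
  [Measure.IsHaarMeasure (volume : Measure K)] [IsProbabilityMeasure (volume : Measure K)]
  {r M : ℕ} (S : LGD K r M)

lemma HWComp_dot_add (x y z : Fin r → ℝ) : dot (x + y) z = dot x z + dot y z := by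
  unfold dot
  rw [← Finset.sum_add_distrib]
  exact Finset.sum_congr rfl fun k _ => by rw [Pi.add_apply]; ring

lemma HWComp_weight (c : Fin r → ℝ) (u : S.A) (hu : ∀ k, S.h k u = (c k : ℂ) • u) (b : Fin M)
    (k : Fin r) : S.h k (S.E b u) = (((c + S.root b) k : ℝ) : ℂ) • S.E b u := by
  have h1 : ⁅S.h k, S.E b⁆ u = S.h k (S.E b u) - S.E b (S.h k u) :=
    Derivation.commutator_apply _
  have h2 : ⁅S.h k, S.E b⁆ u = (S.root b k : ℂ) • S.E b u := by
    rw [show ⁅S.h k, S.E b⁆ = (S.root b k : ℂ) • S.E b from S.hE k b]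
    rfl
  rw [hu k, Derivation.map_smul] at h1
  rw [h2] at h1
  have h3 : S.h k (S.E b u) = (c k : ℂ) • S.E b u + (S.root b k : ℂ) • S.E b u := by
    rw [h1]
    abel
  rw [h3, ← add_smul, Pi.add_apply]
  push_cast
  rfl

lemma exists_HW (W : Submodule ℂ S.A) (hW : ∀ y, ∀ f ∈ W, S.R y f ∈ W) (h0 : W ≠ ⊥) :
    ∃ l ∈ S.wts, ∃ f ∈ W, f ∈ S.HW l ∧ f ≠ 0 := by
  obtain ⟨f, hfW, hf0⟩ := Submodule.exists_mem_ne_zero_of_ne_bot h0
  obtain ⟨W₀, hfin₀, hfW₀, _, hR₀⟩ := S.finite f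
  set V : Submodule ℂ S.A := W ⊓ W₀ with hV
  have hVfin : FiniteDimensional ℂ V := Submodule.finiteDimensional_of_le (inf_le_right : V ≤ W₀)
  have hfV : f ∈ V := ⟨hfW, hfW₀⟩
  have hVR : ∀ y, ∀ g ∈ V, S.R y g ∈ V := fun y g hg => ⟨hW y g hg.1, hR₀ g hg.2 y⟩
  have hVD : ∀ o, ∀ g ∈ V, S.D o g ∈ V := S.D_of_R V hVR
  have hVh : ∀ k, ∀ g ∈ V, S.h k g ∈ V := fun k g hg => hVD _ g hg
  have hVE : ∀ b, ∀ g ∈ V, S.E b g ∈ V := fun b g hg => hVD _ g hg
  -- a joint eigenvector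
  have hcomm : ∀ j k, ∀ g ∈ V, S.h j (S.h k g) = S.h k (S.h j g) := by
    intro j k g _
    have h1 : ⁅S.h j, S.h k⁆ g = S.h j (S.h k g) - S.h k (S.h j g) :=
      Derivation.commutator_apply _
    rw [show ⁅S.h j, S.h k⁆ = 0 from S.hh j k] at h1
    exact (sub_eq_zero.1 h1.symm)
  obtain ⟨s, u, huV, hu, hsum⟩ := S.joint_eig
    (fun k => ((S.h k : Derivation ℂ S.A S.A) : S.A →ₗ[ℂ] S.A)) V
    (fun k g hg => hVh k g hg) (fun j k g hg => hcomm j k g hg)
    (fun k g _ g' _ => S.ip_h k g g') f hfV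
  have hex : ∃ c ∈ s, u c ≠ 0 := by
    by_contra hcon
    push Not at hcon
    exact hf0 (hsum.trans (Finset.sum_eq_zero hcon))
  obtain ⟨c₀, _, hc₀⟩ := hex
  -- the operator `T`
  set T : S.A →ₗ[ℂ] S.A :=
    ∑ k, (S.H0 k : ℂ) • ((S.h k : Derivation ℂ S.A S.A) : S.A →ₗ[ℂ] S.A) with hT
  have hTapp : ∀ g, T g = ∑ k, (S.H0 k : ℂ) • S.h k g := by
    intro g
    rw [hT, LinearMap.sum_apply]
    rfl
  have hTV : ∀ g ∈ V, T g ∈ V := by
    intro g hg
    rw [hTapp]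
    exact Submodule.sum_mem _ fun k _ => V.smul_mem _ (hVh k g hg)
  have hTeig : ∀ (c : Fin r → ℝ) (v : S.A), (∀ k, S.h k v = (c k : ℂ) • v) →
      T v = ((dot c S.H0 : ℝ) : ℂ) • v := by
    intro c v hv
    rw [hTapp]
    simp only [hv, smul_smul]
    rw [← Finset.sum_smul, dot]
    push_cast
    congr 1
    exact Finset.sum_congr rfl fun k _ => mul_comm _ _
  set Cs : Set ℝ := {t | ∃ (c : Fin r → ℝ) (v : S.A), v ∈ V ∧ v ≠ 0 ∧
    (∀ k, S.h k v = (c k : ℂ) • v) ∧ t = dot c S.H0} with hCs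
  have hCsne : Cs.Nonempty := ⟨_, c₀, u c₀, huV c₀, hc₀, fun k => hu c₀ k, rfl⟩
  have hCsfin : Cs.Finite := by
    refine (HWComp_finite V T hTV).subset ?_
    rintro t ⟨c, v, hv, hv0, hvh, rfl⟩
    exact ⟨v, hv, hv0, hTeig c v hvh⟩
  obtain ⟨t, ⟨c, v, hvV, hv0, hvh, rfl⟩, hmax⟩ := Set.exists_max_image Cs id hCsfin hCsne
  have hHW : v ∈ S.HW c := by
    refine ⟨hvh, fun b => ?_⟩
    by_contra hne
    have h1 := hmax (dot (c + S.root b) S.H0)
      ⟨c + S.root b, S.E b v, hVE b v hvV, hne, fun k => S.HWComp_weight c v hvh b k, rfl⟩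
    simp only [id] at h1
    rw [HWComp_dot_add] at h1
    have := S.root_pos b
    linarith
  refine ⟨c, ?_, v, hvV.1, hHW, hv0⟩
  intro hbot
  apply hv0
  rw [hbot] at hHW
  exact (Submodule.mem_bot ℂ).1 hHW

lemma HWComp_sup_R (y : K) (f : S.A) (hf : f ∈ ⨆ l ∈ S.wts, S.ML l) :
    S.R y f ∈ ⨆ l ∈ S.wts, S.ML l := by
  have h1 : (⨆ l ∈ S.wts, S.ML l).map (S.R y) ≤ ⨆ l ∈ S.wts, S.ML l := by
    rw [Submodule.map_iSup]
    refine iSup_le fun l => ?_
    rw [Submodule.map_iSup]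
    refine iSup_le fun hl => ?_
    refine le_trans ?_ (le_iSup₂_of_le l hl le_rfl)
    rintro _ ⟨g, hg, rfl⟩
    exact S.ML_R y hg
  exact h1 ⟨f, hf, rfl⟩

lemma HWComp_mem (f : S.A) : f ∈ ⨆ l ∈ S.wts, S.ML l := by
  obtain ⟨W, hWfin, hfW, _, hWR⟩ := S.finite f
  set V : Submodule ℂ S.A := W ⊓ ⨆ l ∈ S.wts, S.ML l with hV
  have hVfin : FiniteDimensional ℂ V := Submodule.finiteDimensional_of_le (inf_le_left : V ≤ W)
  have hVR : ∀ y, ∀ g ∈ V, S.R y g ∈ V := fun y g hg =>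
    ⟨hWR g hg.1 y, S.HWComp_sup_R y g hg.2⟩
  by_contra hcon
  obtain ⟨g', hg', hproj⟩ := S.exists_proj V f
  have hfV : f ∉ V := fun h => hcon h.2
  -- the orthogonal complement of `V` in `W`
  let W' : Submodule ℂ S.A :=
    { carrier := {v | v ∈ W ∧ ∀ w ∈ V, S.ip v w = 0}
      zero_mem' := by
        refine ⟨W.zero_mem, fun w _ => ?_⟩
        have := S.ip_smul_left 0 0 w
        rw [zero_smul, zero_mul] at this
        exact this
      add_mem' := by
        rintro v v' ⟨h1, h2⟩ ⟨h3, h4⟩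
        refine ⟨W.add_mem h1 h3, fun w hw => ?_⟩
        rw [S.ip_add_left, h2 w hw, h4 w hw, add_zero]
      smul_mem' := by
        rintro a v ⟨h1, h2⟩
        refine ⟨W.smul_mem a h1, fun w hw => ?_⟩
        rw [S.ip_smul_left, h2 w hw, mul_zero] }
  have hW'R : ∀ y, ∀ v ∈ W', S.R y v ∈ W' := by
    intro y v hv
    refine ⟨hWR v hv.1 y, fun w hw => ?_⟩
    have h1 : S.R y (S.R y⁻¹ w) = w := by
      apply Subtype.ext
      funext z
      rw [RepAlg.R_apply, RepAlg.R_apply, mul_assoc, mul_inv_cancel, mul_one]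
    rw [← h1, S.ip_R]
    exact hv.2 _ (hVR _ w hw)
  have hW'0 : W' ≠ ⊥ := by
    intro hbot
    have h1 : f - g' ∈ W' := ⟨W.sub_mem hfW hg'.1, fun w hw => hproj w hw⟩
    rw [hbot] at h1
    have h2 := (Submodule.mem_bot ℂ).1 h1
    rw [sub_eq_zero] at h2
    rw [h2] at hfV
    exact hfV hg'
  obtain ⟨l, hl, v, hv, hvHW, hv0⟩ := S.exists_HW W' hW'R hW'0
  have hvV : v ∈ V := ⟨hv.1, (le_iSup₂_of_le l hl le_rfl : S.ML l ≤ ⨆ l ∈ S.wts, S.ML l)
    (S.HW_le_ML hl hvHW)⟩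
  exact hv0 (S.ip_self_eq_zero (hv.2 v hvV))

lemma exists_decomp (f : S.A) :
    ∃ (s : Finset (Fin r → ℝ)) (u : (Fin r → ℝ) → S.A), (∀ l ∈ s, l ∈ S.wts ∧ u l ∈ S.ML l) ∧
      f = ∑ l ∈ s, u l := by
  have h := S.HWComp_mem f
  rw [Submodule.mem_iSup_iff_exists_finsupp] at h
  obtain ⟨u, hu, hsum⟩ := h
  refine ⟨u.support, u, fun l hl => ?_, hsum.symm⟩
  have h1 := hu l
  by_cases hlw : l ∈ S.wts
  · rw [iSup_pos hlw] at h1
    exact ⟨hlw, h1⟩
  · rw [iSup_neg hlw] at h1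
    exact absurd ((Submodule.mem_bot ℂ).1 h1) (Finsupp.mem_support_iff.1 hl)

end LGD

end STC
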