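import Pool.Agent.STC.Defs

/-!
# STC/HWDefs: definitions of highest weight theory for an `LGD`

Layer 1. Everything below uses only the structure `LGD`.
-/

open MeasureTheory
open scoped ComplexConjugate

namespace STC

namespace LGD

variable {K : Type} [Group K] [TopologicalSpace K] [MeasureSpace K] {r M : ℕ} (S : LGD K r M)

/-- The `L²(K)` inner product (linear in the first argument). -/
noncomputable def ip (f g : S.A) : ℂ := ∫ z, f.1 z * conj (g.1 z)

/-- The space `A_l` of highest weight functions of weight `l`. -/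
def HW (l : Fin r → ℝ) : Submodule ℂ S.A where
  carrier := {f | (∀ k, S.h k f = (l k : ℂ) • f) ∧ ∀ b, S.E b f = 0}
  zero_mem' := ⟨fun k => by simp, fun b => by simp⟩
  add_mem' := by
    rintro f g ⟨hf, hf'⟩ ⟨hg, hg'⟩
    refine ⟨fun k => ?_, fun b => ?_⟩
    · rw [map_add, hf, hg, smul_add]
    · rw [map_add, hf', hg', add_zero]
  smul_mem' := by
    rintro c f ⟨hf, hf'⟩
    refine ⟨fun k => ?_, fun b => ?_⟩
    · rw [Derivation.map_smul, hf, smul_comm]
    · rw [Derivation.map_smul, hf', smul_zero]

lemma mem_HW {l : Fin r → ℝ} {f : S.A} :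
    f ∈ S.HW l ↔ (∀ k, S.h k f = (l k : ℂ) • f) ∧ ∀ b, S.E b f = 0 := Iff.rfl

/-- The set of highest weights. -/
def wts : Set (Fin r → ℝ) := {l | S.HW l ≠ ⊥}

/-- `d_l`, the dimension of `A_l`. -/
noncomputable def dm (l : Fin r → ℝ) : ℕ := Module.finrank ℂ (S.HW l)

/-- `f` has left weight `l`: it is an eigenvector of the left derivatives. -/
def LW (l : Fin r → ℝ) (f : S.A) : Prop := ∀ k, S.J (S.h k (S.J f)) = -((l k : ℂ) • f)

/-- The word of lowering operators `F_{b₁} ⋯ F_{b_j} f`. -/
def word (w : List (Fin M)) (f : S.A) : S.A := w.foldr (fun b g => S.F b g) f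

/-- The span of all words of lowering operators applied to `f`. -/
def low (f : S.A) : Submodule ℂ S.A := Submodule.span ℂ (Set.range fun w => S.word w f)

/-- the unique element of `A_l` of left weight `l` with value `1` at `1` (zero if there is none) -/
noncomputable def phi (l : Fin r → ℝ) : S.A :=
  open Classical in
  if h : ∃ f : S.A, f ∈ S.HW l ∧ S.LW l f ∧ f.1 1 = 1 then h.choose else 0

/-- The isotypic component `M_l`: the span of the two-sided translates of `φ_l`. -/
noncomputable def ML (l : Fin r → ℝ) : Submodule ℂ S.A :=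
  Submodule.span ℂ {f | ∃ a b : K, f = S.L a (S.R b (S.phi l))}

/-- `2 ρ`, the sum of the positive roots. -/
def rho2 : Fin r → ℝ := fun k => ∑ b, S.root b k

/-- The highest weight `s_i`: the sum of the positive roots which contain the simple root `i`. -/
noncomputable def s (i : Fin r) : Fin r → ℝ := fun k => ∑ b with 0 < S.coef b i, S.root b k

end LGD

end STC
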