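import Pool.Agent.STC.HWCo

/-!
# STC/HWDick: (I) finitely many classes `t + ∑ ℕ s_j`

PROOF. Let `m j > 0` with `co (s j) i = m j` if `i = j`, else `0` (`co_s`), and for `l ∈ wts` let
`c l : Fin r → ℕ` be its coordinates (`co_nat`). Preorder on `ℕ^r`: `a ≼ a'` iff `a ≤ a'` and
`a j ≡ a' j mod m j` for all `j`; if `c t ≼ c l` then `l = t + ∑ n_j s_j`, `n_j = (c l j - c t j)/m j`
(`co_inj`). Dickson: every subset of `ℕ^r` has finitely many elements minimal for `≤` below all others;
apply it to each of the finitely many residue classes modulo `m` (`Set.IsPWO`, `Pi.isPWO`,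
`Set.IsPWO` of `Set.univ` in `Fin r → ℕ`; the set of minimal elements of a pwo set is an antichain, so
finite, and by well-foundedness every element is above a minimal one). `T` = the corresponding
elements of `wts`.
-/

open MeasureTheory
open scoped ComplexConjugate

namespace STC

namespace LGD

variable {K : Type} [Group K] [TopologicalSpace K] [IsTopologicalGroup K] [CompactSpace K] [T2Space K]
  [SecondCountableTopology K] [MeasureSpace K] [BorelSpace K]
  [Measure.IsHaarMeasure (volume : Measure K)] [IsProbabilityMeasure (volume : Measure K)]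
  {r M : ℕ} (S : LGD K r M)

private lemma HWDick_co_add (x y : Fin r → ℝ) (i : Fin r) :
    S.co (x + y) i = S.co x i + S.co y i := by
  unfold co
  rw [dot_add_left]
  ring

private lemma HWDick_co_sum (n : Fin r → ℕ) (i : Fin r) :
    S.co (∑ j, (n j : ℝ) • S.s j) i = ∑ j, (n j : ℝ) * S.co (S.s j) i := by
  unfold co
  rw [dot_sum_left, Finset.mul_sum, Finset.sum_div]
  refine Finset.sum_congr rfl fun j _ => ?_
  rw [dot_smul_left]
  ring

lemma exists_classes : ∃ T : Finset (Fin r → ℝ), (∀ t ∈ T, t ∈ S.wts) ∧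
    ∀ l ∈ S.wts, ∃ t ∈ T, ∃ n : Fin r → ℕ, l = t + ∑ j, (n j : ℝ) • S.s j := by
  classical
  choose m hm0 hm using S.co_s
  -- the elements of the residue class `ρ`
  let P : (∀ i, Fin (m i)) → (Fin r → ℕ) → Prop := fun ρ a =>
    ∃ l ∈ S.wts, ∀ i, S.co l i = ((a i * m i + ρ i : ℕ) : ℝ)
  have hfin : ∀ ρ, {a | Minimal (P ρ) a}.Finite := fun ρ =>
    (setOfPred_minimal_antichain (P ρ)).finite_of_partiallyWellOrderedOn
      (Set.isPWO_of_wellQuasiOrderedLE {a | Minimal (P ρ) a})
  let g : (Σ _ : (∀ i, Fin (m i)), (Fin r → ℕ)) → (Fin r → ℝ) := fun q =>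
    if h : P q.1 q.2 then h.choose else 0
  have hg : ∀ ρ a, P ρ a → g ⟨ρ, a⟩ ∈ S.wts ∧
      ∀ i, S.co (g ⟨ρ, a⟩) i = ((a i * m i + ρ i : ℕ) : ℝ) := by
    intro ρ a h
    have e : g ⟨ρ, a⟩ = h.choose := dif_pos h
    rw [e]
    exact h.choose_spec
  let T : Finset (Fin r → ℝ) :=
    (Finset.univ.sigma fun ρ : (∀ i, Fin (m i)) => (hfin ρ).toFinset).image g
  refine ⟨T, ?_, ?_⟩
  · intro t ht
    obtain ⟨⟨ρ, a⟩, hq, rfl⟩ := Finset.mem_image.1 ht
    have hq' := (Finset.mem_sigma.1 hq).2
    have : Minimal (P ρ) a := by simpa using hq'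
    exact (hg ρ a this.prop).1
  · intro l hl
    choose c hc using S.co_nat hl
    let ρ : ∀ i, Fin (m i) := fun i => ⟨c i % m i, Nat.mod_lt _ (hm0 i)⟩
    have hP : P ρ (fun i => c i / m i) := by
      refine ⟨l, hl, fun i => ?_⟩
      rw [hc i]
      congr 1
      change c i = c i / m i * m i + c i % m i
      rw [mul_comm]
      exact (Nat.div_add_mod (c i) (m i)).symm
    obtain ⟨b, hb, hbm⟩ := exists_minimal_le_of_wellFoundedLT (P ρ) _ hP
    refine ⟨g ⟨ρ, b⟩, ?_, fun i => c i / m i - b i, ?_⟩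
    · refine Finset.mem_image.2 ⟨⟨ρ, b⟩, ?_, rfl⟩
      exact Finset.mem_sigma.2 ⟨Finset.mem_univ _, by simpa using hbm⟩
    · apply S.co_inj
      intro i
      rw [HWDick_co_add, HWDick_co_sum, (hg ρ b hbm.prop).2 i, hc i]
      have e : ∑ j, ((c j / m j - b j : ℕ) : ℝ) * S.co (S.s j) i
          = ((c i / m i - b i : ℕ) : ℝ) * (m i : ℝ) := by
        rw [Finset.sum_eq_single i]
        · rw [hm i i, if_pos rfl]
        · intro j _ hj
          rw [hm j i, if_neg (Ne.symm hj), mul_zero]
        · intro h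
          exact absurd (Finset.mem_univ _) h
      rw [e, ← Nat.cast_mul, ← Nat.cast_add]
      congr 1
      have h1 : b i ≤ c i / m i := hb i
      have h2 := Nat.div_add_mod (c i) (m i)
      change c i = b i * m i + c i % m i + (c i / m i - b i) * m i
      rw [Nat.sub_mul]
      have h3 : b i * m i ≤ c i / m i * m i := Nat.mul_le_mul_right _ h1
      rw [mul_comm] at h2
      omega

end LGD

end STC
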