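import Pool.Agent.STC.HWFin

/-!
# STC/HWKer: (F3') the reproducing kernel of `HW l` is `d_l φ_l(g⁻¹ z)`

PROOF. Let `l ∈ wts`, `d = dm l`, `e i` an orthonormal basis of `HW l` (`exists_onb`). For `g ∈ K` put
`k_g = ∑ i, conj (e i g) • e i ∈ HW l`; then `f g = ip f k_g` for all `f ∈ HW l`, and `k_g` is the unique
element of `HW l` with this property. `L x k_g = k_{xg}` (uniqueness: `ip f (L x k_g) =
ip (L x⁻¹ f) k_g = f (x g)`). `LW l k_1`: `T = J ∘ h k ∘ J` maps `HW l` to itself (it commutes with all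
`D o`, field `D_J`), is symmetric, and `ip f (T k_1) = ip (T f) k_1 = (T f) 1 = -(h k f) 1 = - l k f(1) =
ip f (- l k • k_1)`. So `k_1 = k_1(1) • phi l` (apply `eq_of_LW` to `k_1` and `k_1(1) • phi l`).
`k_1(1) = k_g(g) = ∑ i |e i g|²` for all `g`; integrate: `k_1(1) = d`. So `k_g = d • L g (phi l)`, i.e.
`f g = d ∫ f z conj (phi l (g⁻¹ z)) dz`. As `k_g(x) = ip k_g k_x = conj (ip k_x k_g) = conj (k_x g)`:
`conj (phi (x⁻¹ g)) = phi (g⁻¹ x)`, that is `phi_inv`. `reprod`, `phi_conv` (for `l ≠ m` use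
`HW_orth`), `phi_norm` (`reprod` for `f = phi`, `g = 1`), `sup_sq` (Cauchy-Schwarz with `k_g`,
`ip k_g k_g = d`), `phi_le` (`sup_sq` for `phi` and `phi_norm`).
`HW_orth`: `(l k - m k) ip f g = ip (h k f) g - ip f (h k g) = 0`.
`phi_tor_right`: field `tor_eig`; `phi_tor_left` from it and `phi_inv`.
-/

open MeasureTheory
open scoped ComplexConjugate

set_option linter.unusedSectionVars false

namespace STC

namespace LGD

variable {K : Type} [Group K] [TopologicalSpace K] [IsTopologicalGroup K] [CompactSpace K] [T2Space K]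
  [SecondCountableTopology K] [MeasureSpace K] [BorelSpace K]
  [Measure.IsHaarMeasure (volume : Measure K)] [IsProbabilityMeasure (volume : Measure K)]
  {r M : ℕ} (S : LGD K r M)

lemma HW_orth {l m : Fin r → ℝ} (hlm : l ≠ m) {f g : S.A} (hf : f ∈ S.HW l) (hg : g ∈ S.HW m) :
    S.ip f g = 0 := by
  obtain ⟨k, hk⟩ := Function.ne_iff.1 hlm
  have h1 := S.ip_h k f g
  rw [hf.1 k, hg.1 k, S.ip_smul_left, S.ip_smul_right, Complex.conj_ofReal] at h1
  have h2 : ((l k : ℂ) - m k) * S.ip f g = 0 := by linear_combination h1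
  rcases mul_eq_zero.1 h2 with h3 | h3
  · exfalso
    apply hk
    exact_mod_cast sub_eq_zero.1 h3
  · exact h3

private lemma kJJ (f : S.A) : S.J (S.J f) = f := by
  ext z
  show f.1 (z⁻¹)⁻¹ = f.1 z
  rw [inv_inv]

private lemma kLL (x y : K) (f : S.A) : S.L x (S.L y f) = S.L (x * y) f := by
  ext z
  show f.1 (y⁻¹ * (x⁻¹ * z)) = f.1 ((x * y)⁻¹ * z)
  rw [_root_.mul_inv_rev, mul_assoc]

private lemma kL1 (f : S.A) : S.L 1 f = f := by
  ext z
  show f.1 (1⁻¹ * z) = f.1 z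
  rw [inv_one, one_mul]

/-- the kernel of the space `HW l` -/
private lemma exists_ker (l : Fin r → ℝ) : ∃ kf : K → S.A, (∀ g, kf g ∈ S.HW l) ∧
    (∀ g, ∀ f ∈ S.HW l, f.1 g = S.ip f (kf g)) ∧ ∫ z, (kf z).1 z = (S.dm l : ℂ) := by
  obtain ⟨e, he, heo, hef⟩ := S.exists_onb (S.HW l)
  refine ⟨fun g => ∑ i, conj ((e i).1 g) • e i, fun g => ?_, fun g f hf => ?_, ?_⟩
  · exact Submodule.sum_mem _ fun i _ => Submodule.smul_mem _ _ (he i)
  · rw [S.ip_sum_right]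
    simp only [S.ip_smul_right, Complex.conj_conj]
    have h1 : f.1 g = (∑ i, S.ip f (e i) • e i : S.A).1 g :=
      congrArg (fun u : S.A => u.1 g) (hef f hf)
    rw [h1]
    have h2 : (∑ i, S.ip f (e i) • e i : S.A).1 g = ∑ i, S.ip f (e i) * (e i).1 g := by
      rw [AddSubmonoidClass.coe_finsetSum, Finset.sum_apply]
      rfl
    rw [h2]
    exact Finset.sum_congr rfl fun i _ => mul_comm _ _
  · have h2 : ∀ z : K, (∑ i, conj ((e i).1 z) • e i : S.A).1 z =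
        ∑ i, (e i).1 z * conj ((e i).1 z) := by
      intro z
      rw [AddSubmonoidClass.coe_finsetSum, Finset.sum_apply]
      exact Finset.sum_congr rfl fun i _ => mul_comm _ _
    simp only [h2]
    rw [integral_finsetSum]
    · have h3 : ∀ i, ∫ z, (e i).1 z * conj ((e i).1 z) = 1 := by
        intro i
        have := heo i i
        rw [if_pos rfl] at this
        exact this
      simp only [h3]
      simp [LGD.dm]
    · intro i _
      have hc : Continuous (e i).1 := S.cont _ (e i).2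
      exact int_of_cont (hc.mul (Complex.continuous_conj.comp hc))

private lemma ker_unique {l : Fin r → ℝ} {u v : S.A} (hu : u ∈ S.HW l) (hv : v ∈ S.HW l)
    (h : ∀ f ∈ S.HW l, S.ip f u = S.ip f v) : u = v := by
  have h1 : S.ip (u - v) (u - v) = 0 := by
    have e : u - v = u + (-1 : ℂ) • v := by rw [neg_one_smul, sub_eq_add_neg]
    have h2 := h (u - v) (Submodule.sub_mem _ hu hv)
    have h3 : S.ip (u - v) (u + (-1 : ℂ) • v) = 0 := by
      rw [S.ip_add_right, S.ip_smul_right, h2]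
      simp
    rwa [← e] at h3
  exact sub_eq_zero.1 (S.ip_self_eq_zero h1)

private lemma T_HW {l : Fin r → ℝ} {f : S.A} (hf : f ∈ S.HW l) (k : Fin r) :
    S.J (S.h k (S.J f)) ∈ S.HW l := by
  refine ⟨fun j => ?_, fun b => ?_⟩
  · have h1 := S.D_J (Sum.inl k) (Sum.inl j) f
    have h2 : S.h j (S.J (S.h k (S.J f))) = S.J (S.h k (S.J (S.h j f))) := h1.symm
    rw [h2, hf.1 j, map_smul, Derivation.map_smul, map_smul]
  · have h1 := S.D_J (Sum.inl k) (Sum.inr (Sum.inl b)) f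
    have h2 : S.E b (S.J (S.h k (S.J f))) = S.J (S.h k (S.J (S.E b f))) := h1.symm
    rw [h2, hf.2 b, map_zero, map_zero, map_zero]

private lemma ip_T (k : Fin r) (f g : S.A) :
    S.ip (S.J (S.h k (S.J f))) g = S.ip f (S.J (S.h k (S.J g))) := by
  have h1 := S.ip_J (S.h k (S.J f)) (S.J g)
  rw [S.kJJ] at h1
  have h2 := S.ip_J (S.J f) (S.h k (S.J g))
  rw [S.kJJ] at h2
  rw [h1, S.ip_h, ← h2]

/-- the kernel of `HW l` is `d L_g φ` -/
private lemma ker_phi {l : Fin r → ℝ} (hl : l ∈ S.wts) : (∀ g, ∀ f ∈ S.HW l,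
    f.1 g = S.ip f ((S.dm l : ℂ) • S.L g (S.phi l))) := by
  obtain ⟨kf, hk, hr, hi⟩ := S.exists_ker l
  -- translates
  have h1 : ∀ x g, S.L x (kf g) = kf (x * g) := by
    intro x g
    refine S.ker_unique (S.HW_L (hk g) x) (hk _) fun f hf => ?_
    rw [← hr _ f hf]
    have h2 := S.ip_L x⁻¹ f (S.L x (kf g))
    rw [S.kLL, inv_mul_cancel, S.kL1] at h2
    rw [← h2, ← hr _ _ (S.HW_L hf x⁻¹)]
    show f.1 ((x⁻¹)⁻¹ * g) = _
    rw [inv_inv]
  have h2 : S.LW l (kf 1) := by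
    intro k
    have h3 : -((l k : ℂ) • kf 1) ∈ S.HW l :=
      Submodule.neg_mem _ (Submodule.smul_mem _ _ (hk 1))
    refine S.ker_unique (S.T_HW (hk 1) k) h3 fun f hf => ?_
    rw [← S.ip_T, ← hr 1 _ (S.T_HW hf k)]
    have h4 : (S.J (S.h k (S.J f))).1 1 = -((S.h k f).1 1) := by
      have := S.D_J_one (Sum.inl k) f
      show (S.h k (S.J f)).1 1⁻¹ = _
      rw [inv_one]
      exact this
    have h5 : -((l k : ℂ) • kf 1) = (-(l k : ℂ)) • kf 1 := by rw [neg_smul]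
    rw [h4, hf.1 k, h5, S.ip_smul_right, ← hr 1 f hf]
    show -((l k : ℂ) * f.1 1) = _
    rw [map_neg, Complex.conj_ofReal]
    ring
  have h3 : kf 1 = (kf 1).1 1 • S.phi l := by
    refine S.eq_of_LW (hk 1) h2 (Submodule.smul_mem _ _ (S.phi_mem hl)) ?_ ?_
    · intro k
      rw [map_smul, Derivation.map_smul, map_smul, S.phi_LW hl k, smul_neg, smul_comm]
    · show _ = (kf 1).1 1 * (S.phi l).1 1
      rw [S.phi_one hl, mul_one]
  have h4 : ∀ g, (kf g).1 g = (kf 1).1 1 := by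
    intro g
    have := h1 g 1
    rw [mul_one] at this
    rw [← this]
    show (kf 1).1 (g⁻¹ * g) = _
    rw [inv_mul_cancel]
  have h5 : (kf 1).1 1 = (S.dm l : ℂ) := by
    rw [← hi]
    simp only [h4]
    simp
  intro g f hf
  have h6 : kf g = (S.dm l : ℂ) • S.L g (S.phi l) := by
    have := h1 g 1
    rw [mul_one] at this
    rw [← this, h3, h5, map_smul]
  rw [← h6]
  exact hr g f hf

lemma phi_inv {l : Fin r → ℝ} (hl : l ∈ S.wts) (y : K) :
    conj ((S.phi l).1 y) = (S.phi l).1 y⁻¹ := by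
  have hd : (S.dm l : ℂ) ≠ 0 := by
    have := S.dm_pos hl
    exact_mod_cast this.ne'
  have hm : ∀ g, (S.dm l : ℂ) • S.L g (S.phi l) ∈ S.HW l := fun g =>
    Submodule.smul_mem _ _ (S.HW_L (S.phi_mem hl) g)
  have h1 := S.ker_phi hl 1 _ (hm y)
  have h2 := S.ker_phi hl y _ (hm 1)
  rw [← S.ip_conj] at h1
  rw [← h2] at h1
  have h3 : (S.dm l : ℂ) * (S.phi l).1 (y⁻¹ * 1) = conj ((S.dm l : ℂ) * (S.phi l).1 (1⁻¹ * y)) := h1
  rw [mul_one, inv_one, one_mul, map_mul, Complex.conj_natCast] at h3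
  exact (mul_left_cancel₀ hd h3).symm

private lemma phi_inv' {l : Fin r → ℝ} (hl : l ∈ S.wts) (g z : K) :
    conj ((S.phi l).1 (g⁻¹ * z)) = (S.phi l).1 (z⁻¹ * g) := by
  rw [S.phi_inv hl, _root_.mul_inv_rev, inv_inv]

/-- reproducing property -/
lemma reprod {l : Fin r → ℝ} (hl : l ∈ S.wts) {f : S.A} (hf : f ∈ S.HW l) (g : K) :
    f.1 g = S.dm l * ∫ z, f.1 z * (S.phi l).1 (z⁻¹ * g) := by
  rw [S.ker_phi hl g f hf, S.ip_smul_right, Complex.conj_natCast]
  congr 1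
  refine integral_congr_ae (Filter.Eventually.of_forall fun z => ?_)
  show f.1 z * conj ((S.phi l).1 (g⁻¹ * z)) = _
  rw [S.phi_inv' hl]

lemma phi_conv {l m : Fin r → ℝ} (hl : l ∈ S.wts) (hm : m ∈ S.wts) (g : K) :
    ∫ z, (S.phi l).1 z * (S.phi m).1 (z⁻¹ * g) = if l = m then (S.phi l).1 g / S.dm l else 0 := by
  have hd : (S.dm l : ℂ) ≠ 0 := by
    have := S.dm_pos hl
    exact_mod_cast this.ne'
  split_ifs with h
  · subst h
    rw [eq_div_iff hd, mul_comm]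
    exact (S.reprod hl (S.phi_mem hl) g).symm
  · have h1 := S.HW_orth h (S.phi_mem hl) (S.HW_L (S.phi_mem hm) g)
    rw [← h1]
    refine integral_congr_ae (Filter.Eventually.of_forall fun z => ?_)
    show _ = (S.phi l).1 z * conj ((S.phi m).1 (g⁻¹ * z))
    rw [S.phi_inv' hm]

private lemma ip_self_eq (f : S.A) : S.ip f f = ((∫ z, ‖f.1 z‖ ^ 2 : ℝ) : ℂ) := by
  have h4 : ((∫ z, ‖f.1 z‖ ^ 2 : ℝ) : ℂ) = ∫ z, ((‖f.1 z‖ ^ 2 : ℝ) : ℂ) := integral_ofReal.symm
  rw [h4]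
  refine integral_congr_ae (Filter.Eventually.of_forall fun x => ?_)
  show f.1 x * conj (f.1 x) = ((‖f.1 x‖ ^ 2 : ℝ) : ℂ)
  rw [Complex.mul_conj']; push_cast; rfl

lemma phi_norm {l : Fin r → ℝ} (hl : l ∈ S.wts) :
    ∫ z, ‖(S.phi l).1 z‖ ^ 2 = 1 / (S.dm l : ℝ) := by
  have hd : (S.dm l : ℝ) ≠ 0 := by
    have := S.dm_pos hl
    exact_mod_cast this.ne'
  have h1 := S.ker_phi hl 1 _ (S.phi_mem hl)
  rw [S.kL1, S.ip_smul_right, Complex.conj_natCast, S.phi_one hl, S.ip_self_eq] at h1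
  have h2 : (1 : ℝ) = (S.dm l : ℝ) * ∫ z, ‖(S.phi l).1 z‖ ^ 2 := by exact_mod_cast h1
  rw [eq_div_iff hd, mul_comm]
  exact h2.symm

lemma sup_sq {l : Fin r → ℝ} (hl : l ∈ S.wts) {f : S.A} (hf : f ∈ S.HW l) (g : K) :
    ‖f.1 g‖ ^ 2 ≤ S.dm l * ∫ z, ‖f.1 z‖ ^ 2 := by
  have hd0 := S.dm_pos hl
  have hdr : (0 : ℝ) < S.dm l := by exact_mod_cast hd0
  have hd : (S.dm l : ℂ) ≠ 0 := by exact_mod_cast hd0.ne'
  set k : S.A := (S.dm l : ℂ) • S.L g (S.phi l) with hk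
  have hkm : k ∈ S.HW l := Submodule.smul_mem _ _ (S.HW_L (S.phi_mem hl) g)
  have h1 : S.ip f k = f.1 g := (S.ker_phi hl g f hf).symm
  have h2 : S.ip k k = (S.dm l : ℂ) := by
    rw [← S.ker_phi hl g k hkm]
    show (S.dm l : ℂ) * (S.phi l).1 (g⁻¹ * g) = _
    rw [inv_mul_cancel, S.phi_one hl, mul_one]
  have h3 : S.ip k f = conj (f.1 g) := by rw [← S.ip_conj, h1]
  clear_value k
  set a : ℂ := -(f.1 g / S.dm l) with ha
  have h4 : S.ip (f + a • k) (f + a • k) =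
      ((∫ z, ‖f.1 z‖ ^ 2 : ℝ) : ℂ) - ((‖f.1 g‖ ^ 2 / S.dm l : ℝ) : ℂ) := by
    rw [S.ip_add_left, S.ip_add_right, S.ip_add_right, S.ip_smul_left, S.ip_smul_left,
      S.ip_smul_right, S.ip_smul_right, h1, h2, h3, S.ip_self_eq]
    have h5 : conj a = -(conj (f.1 g) / S.dm l) := by
      rw [ha, map_neg, map_div₀, Complex.conj_natCast]
    rw [h5, ha]
    have h6 : ((‖f.1 g‖ ^ 2 / S.dm l : ℝ) : ℂ) = f.1 g * conj (f.1 g) / S.dm l := by
      rw [Complex.mul_conj']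
      push_cast
      rfl
    rw [h6]
    field_simp
    ring
  have h7 := S.ip_self_nonneg (f + a • k)
  rw [h4, ← Complex.ofReal_sub, Complex.ofReal_re] at h7
  have h8 : ‖f.1 g‖ ^ 2 / S.dm l ≤ ∫ z, ‖f.1 z‖ ^ 2 := by linarith
  rw [div_le_iff₀ hdr] at h8
  linarith

lemma phi_le {l : Fin r → ℝ} (hl : l ∈ S.wts) (y : K) : ‖(S.phi l).1 y‖ ≤ 1 := by
  have hd : (S.dm l : ℝ) ≠ 0 := by
    have := S.dm_pos hl
    exact_mod_cast this.ne'
  have h1 := S.sup_sq hl (S.phi_mem hl) y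
  rw [S.phi_norm hl, mul_one_div_cancel hd] at h1
  exact (sq_le_one_iff₀ (norm_nonneg _)).1 h1

lemma phi_tor_right {l : Fin r → ℝ} (hl : l ∈ S.wts) (z : K) (x : Fin r → ℝ) :
    (S.phi l).1 (z * S.tor x) = Complex.exp (Complex.I * (dot l x : ℂ)) * (S.phi l).1 z := by
  have h1 := S.tor_eig (S.phi l) l (S.phi_mem hl).1 x
  have h2 := congrArg (fun u : S.A => u.1 z) h1
  exact h2

lemma phi_tor_left {l : Fin r → ℝ} (hl : l ∈ S.wts) (z : K) (x : Fin r → ℝ) :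
    (S.phi l).1 (S.tor x * z) = Complex.exp (Complex.I * (dot l x : ℂ)) * (S.phi l).1 z := by
  have h0 : S.tor 0 = 1 := by
    have := S.tor_add 0 0
    rw [add_zero] at this
    exact (mul_eq_left.1 this.symm)
  have h1 : (S.tor x)⁻¹ = S.tor (-x) := by
    rw [inv_eq_iff_mul_eq_one, ← S.tor_add, add_neg_cancel, h0]
  have h2 : (S.phi l).1 (S.tor x * z) = conj ((S.phi l).1 (z⁻¹ * S.tor (-x))) := by
    rw [S.phi_inv hl, ← h1, _root_.mul_inv_rev, inv_inv, inv_inv]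
  rw [h2, S.phi_tor_right hl, map_mul, S.phi_inv hl, inv_inv, ← Complex.exp_conj]
  congr 2
  have : dot l (-x) = -dot l x := by
    unfold dot
    simp
  rw [this, map_mul, Complex.conj_I, Complex.conj_ofReal]
  push_cast
  ring

/-- monotonicity of the dimension: `1/d_{l+m} = ∫ |φ_l φ_m|² ≤ ∫ |φ_l|² = 1/d_l`. -/
lemma dm_mono {l m : Fin r → ℝ} (hl : l ∈ S.wts) (hm : m ∈ S.wts) : S.dm l ≤ S.dm (l + m) := by
  have hlm := S.add_mem_wts hl hm
  have h1 := S.phi_norm hl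
  have h2 := S.phi_norm hlm
  have hd1 : (0 : ℝ) < S.dm l := by exact_mod_cast S.dm_pos hl
  have hd2 : (0 : ℝ) < S.dm (l + m) := by exact_mod_cast S.dm_pos hlm
  have h3 : ∫ z, ‖(S.phi (l + m)).1 z‖ ^ 2 ≤ ∫ z, ‖(S.phi l).1 z‖ ^ 2 := by
    have hc1 : Continuous (S.phi (l + m)).1 := S.cont _ (S.phi (l + m)).2
    have hc2 : Continuous (S.phi l).1 := S.cont _ (S.phi l).2
    refine integral_mono ?_ ?_ fun z => ?_
    · exact (hc1.norm.pow 2).integrable_of_hasCompactSupport (HasCompactSupport.of_compactSpace _)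
    · exact (hc2.norm.pow 2).integrable_of_hasCompactSupport (HasCompactSupport.of_compactSpace _)
    · have h4 : (S.phi (l + m)).1 z = (S.phi l).1 z * (S.phi m).1 z := by
        rw [S.phi_add hl hm]
        rfl
      show ‖(S.phi (l + m)).1 z‖ ^ 2 ≤ ‖(S.phi l).1 z‖ ^ 2
      rw [h4, norm_mul]
      refine pow_le_pow_left₀ (by positivity) ?_ 2
      exact mul_le_of_le_one_right (norm_nonneg _) (S.phi_le hm z)
  rw [h1, h2] at h3
  have h4 := (one_div_le_one_div hd2 hd1).1 h3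
  exact_mod_cast h4

end LGD

end STC
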