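import Mathlib

/-!
# STC/Indep: independence of monomials in functions with independent derivatives at a point

PROOF. (i) For one derivation `D` of a commutative algebra and a character `ε` with `ε (v_i) = 0`
(`i < k`): `ε (D^j (v_1 ⋯ v_k g)) = 0` for `j < k` and `ε (D^k (v_1 ⋯ v_k g)) = k! ∏ ε (D v_i) ε(g)`.
(Let `𝔪 = ker ε`. `D` maps `𝔪^{j+1}` to `𝔪^j`, so `D^j` maps `𝔪^k` to `𝔪^{k-j}`, which gives the first
claim. Second claim by induction on `k`: `D (v_1 ⋯ v_k g) = ∑_i D v_i ∏_{j≠i} v_j g + (∏ v_j) D g`,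
apply `D^{k-1}` and `ε`, with `D v_i g` in the place of `g`: each term is
`(k-1)! ∏_{j ≠ i} ε (D v_j) ε (D v_i) ε (g)`, and the last term vanishes by the first claim.)
(ii) Suppose `∑_a c_a g_a ∏ u_b^{a_b} = 0` (finite sum), not all `c_a = 0`; let `k` be minimal with
`c_a ≠ 0` for some `a` with `|a| = ∑ a_b = k`. For `x : Fin m → ℂ` apply `ε ∘ D_x^k`,
`D_x = ∑ x_b D_b`, `ε (D_x (u_b)) = x_b θ_b`: `0 = k! ∑_{|a| = k} c_a ∏ (x_b θ_b)^{a_b}`. This holds for
all `x`, so the polynomial `∑_{|a|=k} c_a ∏ θ_b^{a_b} X^a` is zero (`MvPolynomial.funext`), and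
`c_a = 0` for `|a| = k`, a contradiction.
-/

open scoped ComplexConjugate

namespace STC

section Taylor

variable {A : Type*} [CommRing A] [Algebra ℂ A]

/-- The Taylor series along a derivation. -/
private noncomputable def indepTay (ε : A →ₐ[ℂ] ℂ) (D : Derivation ℂ A A) (f : A) :
    PowerSeries ℂ :=
  PowerSeries.mk fun n => ε (((D : A →ₗ[ℂ] A) ^ n) f) / (n.factorial : ℂ)

private theorem indepTay_coeff (ε : A →ₐ[ℂ] ℂ) (D : Derivation ℂ A A) (f : A) (n : ℕ) :
    PowerSeries.coeff n (indepTay ε D f) =
      ε (((D : A →ₗ[ℂ] A) ^ n) f) / (n.factorial : ℂ) := by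
  rw [indepTay, PowerSeries.coeff_mk]

private theorem indepTay_const (ε : A →ₐ[ℂ] ℂ) (D : Derivation ℂ A A) (f : A) :
    PowerSeries.constantCoeff (indepTay ε D f) = ε f := by
  rw [← PowerSeries.coeff_zero_eq_constantCoeff_apply, indepTay_coeff]
  simp

private theorem indepTay_succ (ε : A →ₐ[ℂ] ℂ) (D : Derivation ℂ A A) (f : A) (n : ℕ) :
    PowerSeries.coeff (n + 1) (indepTay ε D f) * (n + 1) =
      PowerSeries.coeff n (indepTay ε D (D f)) := by
  rw [indepTay_coeff, indepTay_coeff, pow_succ, Module.End.mul_apply]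
  have h1 : ((n : ℂ) + 1) ≠ 0 := by exact_mod_cast n.succ_ne_zero
  have h2 : ((n.factorial : ℕ) : ℂ) ≠ 0 := by exact_mod_cast n.factorial_ne_zero
  rw [Nat.factorial_succ]
  push_cast
  field_simp

private theorem indepTay_mul (ε : A →ₐ[ℂ] ℂ) (D : Derivation ℂ A A) (f g : A) :
    indepTay ε D (f * g) = indepTay ε D f * indepTay ε D g := by
  ext n
  induction n generalizing f g with
  | zero =>
    rw [PowerSeries.coeff_zero_eq_constantCoeff_apply,
      PowerSeries.coeff_zero_eq_constantCoeff_apply, map_mul, indepTay_const, indepTay_const,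
      indepTay_const, map_mul]
  | succ n ih =>
    have h1 : ((n : ℂ) + 1) ≠ 0 := by exact_mod_cast n.succ_ne_zero
    refine mul_right_cancel₀ h1 ?_
    have hd : ∀ h : A, PowerSeries.derivative ℂ (indepTay ε D h) = indepTay ε D (D h) := by
      intro h
      ext k
      rw [PowerSeries.coeff_derivative]
      exact indepTay_succ ε D h k
    rw [indepTay_succ, D.leibniz]
    have e1 : indepTay ε D (f • D g + g • D f) =
        indepTay ε D (f * D g) + indepTay ε D (g * D f) := by
      ext k
      rw [map_add, indepTay_coeff, indepTay_coeff, indepTay_coeff, map_add, map_add, add_div,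
        smul_eq_mul, smul_eq_mul]
    rw [e1, map_add, ih, ih, ← hd, ← hd]
    have e2 := PowerSeries.coeff_derivative (indepTay ε D f * indepTay ε D g) n
    rw [← e2, Derivation.leibniz, map_add, smul_eq_mul, smul_eq_mul]

private theorem indepTay_one (ε : A →ₐ[ℂ] ℂ) (D : Derivation ℂ A A) :
    indepTay ε D 1 = 1 := by
  ext n
  cases n with
  | zero =>
    rw [PowerSeries.coeff_zero_eq_constantCoeff_apply,
      PowerSeries.coeff_zero_eq_constantCoeff_apply, indepTay_const, map_one, map_one]
  | succ n =>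
    rw [indepTay_coeff, pow_succ, Module.End.mul_apply]
    have : (D : A →ₗ[ℂ] A) 1 = 0 := D.map_one_eq_zero
    rw [this, map_zero, map_zero, zero_div, PowerSeries.coeff_one]
    simp

/-- The Taylor series as a monoid homomorphism. -/
private noncomputable def indepHom (ε : A →ₐ[ℂ] ℂ) (D : Derivation ℂ A A) :
    A →* PowerSeries ℂ where
  toFun := indepTay ε D
  map_one' := indepTay_one ε D
  map_mul' := indepTay_mul ε D

private theorem indepHom_apply (ε : A →ₐ[ℂ] ℂ) (D : Derivation ℂ A A) (f : A) :
    indepHom ε D f = indepTay ε D f := rfl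

/-- The leading coefficients of the Taylor series of a monomial. -/
private theorem indepTay_monomial (ε : A →ₐ[ℂ] ℂ) (D : Derivation ℂ A A) {m : ℕ} (u : Fin m → A)
    (hu : ∀ b, ε (u b) = 0) (g : A) (hg : ε g = 1) (a : Fin m → ℕ) (k : ℕ) (hk : k ≤ ∑ b, a b) :
    PowerSeries.coeff k (indepTay ε D (g * ∏ b, u b ^ a b)) =
      if ∑ b, a b = k then ∏ b, ε (D (u b)) ^ a b else 0 := by
  have hV : ∀ b, ∃ V : PowerSeries ℂ, indepTay ε D (u b) = PowerSeries.X * V ∧
      PowerSeries.constantCoeff V = ε (D (u b)) := by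
    intro b
    obtain ⟨V, hV⟩ := PowerSeries.X_dvd_iff.2 ((indepTay_const ε D (u b)).trans (hu b))
    refine ⟨V, hV, ?_⟩
    have h1 : PowerSeries.coeff 1 (indepTay ε D (u b)) = ε (D (u b)) := by
      rw [indepTay_coeff]
      simp
    rw [← h1, hV, ← PowerSeries.coeff_zero_eq_constantCoeff_apply]
    exact (PowerSeries.coeff_succ_X_mul 0 V).symm
  choose V hV1 hV2 using hV
  have e1 : indepTay ε D (g * ∏ b, u b ^ a b) =
      PowerSeries.X ^ (∑ b, a b) * (indepTay ε D g * ∏ b, V b ^ a b) := by
    rw [← indepHom_apply, map_mul, map_prod]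
    simp only [map_pow, indepHom_apply, hV1, mul_pow]
    rw [Finset.prod_mul_distrib, Finset.prod_pow_eq_pow_sum]
    ring
  rw [e1, PowerSeries.coeff_X_pow_mul']
  by_cases h : ∑ b, a b = k
  · rw [if_pos h.le, if_pos h, h, Nat.sub_self, PowerSeries.coeff_zero_eq_constantCoeff_apply,
      map_mul, indepTay_const, hg, one_mul, map_prod]
    simp only [map_pow, hV2]
  · rw [if_neg h, if_neg]
    omega

end Taylor

theorem indep {A : Type*} [CommRing A] [Algebra ℂ A] (ε : A →ₐ[ℂ] ℂ) {m : ℕ}
    (D : Fin m → Derivation ℂ A A) (u : Fin m → A) (θ : Fin m → ℂ) (hθ : ∀ b, θ b ≠ 0)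
    (hu : ∀ b, ε (u b) = 0) (hD : ∀ b c, ε (D b (u c)) = if b = c then θ c else 0)
    (g : (Fin m → ℕ) → A) (hg : ∀ a, ε (g a) = 1) :
    LinearIndependent ℂ (fun a : Fin m → ℕ => g a * ∏ b, u b ^ a b) := by
  classical
  rw [linearIndependent_iff']
  intro s c hs
  have key : ∀ k : ℕ, ∀ a ∈ s, ∑ b, a b = k → c a = 0 := by
    intro k
    induction k using Nat.strong_induction_on with
    | _ k ih =>
      -- the polynomial identity
      have hx : ∀ x : Fin m → ℂ,
          ∑ a ∈ s.filter (fun a => ∑ b, a b = k), c a * ∏ b, (x b * θ b) ^ a b = 0 := by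
        intro x
        set Dx : Derivation ℂ A A := ∑ b, x b • D b with hDx
        have hDxu : ∀ f, Dx f = ∑ b, x b • D b f := by
          intro f
          have := congrFun (map_sum (Derivation.coeFnAddMonoidHom (R := ℂ) (A := A) (M := A))
            (fun b => x b • D b) Finset.univ) f
          rw [Derivation.coeFnAddMonoidHom_apply] at this
          rw [hDx, this, Finset.sum_apply]
          rfl
        have hεD : ∀ b, ε (Dx (u b)) = x b * θ b := by
          intro b
          rw [hDxu, map_sum]
          simp only [map_smul, hD, smul_eq_mul, mul_ite, mul_zero]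
          rw [Finset.sum_ite_eq' Finset.univ b]
          simp
        have h1 : PowerSeries.coeff k (indepTay ε Dx (∑ a ∈ s, c a • (g a * ∏ b, u b ^ a b))) =
            ∑ a ∈ s, c a * PowerSeries.coeff k (indepTay ε Dx (g a * ∏ b, u b ^ a b)) := by
          simp only [indepTay_coeff, map_sum, map_smul, smul_eq_mul, Finset.sum_div, mul_div_assoc]
        rw [hs, indepTay_coeff, map_zero, map_zero, zero_div] at h1
        rw [Finset.sum_filter]
        refine Eq.trans ?_ h1.symm
        refine Finset.sum_congr rfl fun a ha => ?_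
        rcases Nat.lt_or_ge (∑ b, a b) k with hlt | hge
        · rw [ih _ hlt a ha rfl, if_neg hlt.ne, zero_mul]
        · rw [indepTay_monomial ε Dx u hu (g a) (hg a) a k hge]
          simp only [hεD, mul_ite, mul_zero]
      set P : MvPolynomial (Fin m) ℂ := ∑ a ∈ s.filter (fun a => ∑ b, a b = k),
        MvPolynomial.monomial (Finsupp.equivFunOnFinite.symm a) (c a * ∏ b, θ b ^ a b) with hP
      have hP0 : P = 0 := by
        apply MvPolynomial.funext
        intro x
        rw [hP, map_sum, map_zero, ← hx x]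
        refine Finset.sum_congr rfl fun a _ => ?_
        rw [MvPolynomial.eval_monomial, Finsupp.prod_fintype _ _ (fun i => pow_zero _), mul_assoc,
          ← Finset.prod_mul_distrib]
        congr 1
        refine Finset.prod_congr rfl fun b _ => ?_
        rw [mul_pow, mul_comm]
        rfl
      intro a ha hak
      have h2 : MvPolynomial.coeff (Finsupp.equivFunOnFinite.symm a) P =
          c a * ∏ b, θ b ^ a b := by
        rw [hP, MvPolynomial.coeff_sum]
        rw [Finset.sum_eq_single a]
        · rw [MvPolynomial.coeff_monomial, if_pos rfl]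
        · intro a' _ hne
          rw [MvPolynomial.coeff_monomial, if_neg]
          intro h
          exact hne (Finsupp.equivFunOnFinite.symm.injective h)
        · intro h
          exact absurd (Finset.mem_filter.2 ⟨ha, hak⟩) h
      rw [hP0, MvPolynomial.coeff_zero] at h2
      rcases mul_eq_zero.1 h2.symm with h3 | h3
      · exact h3
      · exact absurd h3 (Finset.prod_ne_zero_iff.2 fun b _ => pow_ne_zero _ (hθ b))
  exact fun a ha => key _ a ha rfl

end STC
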