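import Pool.Agent.STC.HWPsi
import Pool.Agent.STC.HWKer
import Pool.Agent.STC.Indep

/-!
# STC/HWLb: (H) lower bound for the dimension

PROOF. If `M = 0` the claim is `1 ≤ dm` (`dm_pos`, `sum_s_mem_wts`). Let `M ≥ 1`, `ψ b` = the function of
`exists_psi (i b) b`, `θ b = dot (s (i b)) (root b) = coef b (i b) * dot (s _) (sim _) > 0`
(`dot_s_root`, `dot_s_sim_pos`). For `a : Fin M → ℕ` let `g a = phi t * ∏ j, phi (s j) ^ (n j -
∑_{b, i b = j} a b)` (truncated subtraction), value `1` at `1`. `Indep.indep` (with `ε` = evaluation at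
`1`, `D b = F b`, `u b = ψ b`) shows that `a ↦ g a * ∏ b, ψ b ^ a b` is linearly independent. For the `a`
with `a b ≤ n (i b) / M` for all `b` we have `∑_{b, i b = j} a b ≤ n j`, so the product is in
`HW (t + ∑ j, n j • s j)` (`HW_mul`, powers, weights add up). The number of such `a` is
`∏ b, (1 + n (i b) / M)`, and `1 + x ≤ M * (1 + x / M)` for naturals. Hence
`∏ (1 + n (i b)) ≤ M^M ∏ (1 + n (i b) / M) ≤ M^M dm`.
-/

open MeasureTheory
open scoped ComplexConjugate

set_option linter.unusedSectionVars false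

namespace STC

namespace LGD

variable {K : Type} [Group K] [TopologicalSpace K] [IsTopologicalGroup K] [CompactSpace K] [T2Space K]
  [SecondCountableTopology K] [MeasureSpace K] [BorelSpace K]
  [Measure.IsHaarMeasure (volume : Measure K)] [IsProbabilityMeasure (volume : Measure K)]
  {r M : ℕ} (S : LGD K r M)

private lemma hwlb_pow {l : Fin r → ℝ} {f : S.A} (hf : f ∈ S.HW l) (k : ℕ) :
    f ^ k ∈ S.HW ((k : ℝ) • l) := by
  induction k with
  | zero =>
    rw [pow_zero, Nat.cast_zero, zero_smul]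
    exact S.HW_one
  | succ k ih =>
    rw [pow_succ]
    have := S.HW_mul ih hf
    have h : ((k : ℝ) • l + l) = (((k + 1 : ℕ) : ℝ) • l) := by
      push_cast
      rw [add_smul, one_smul]
    rwa [h] at this

private lemma hwlb_prod {ι : Type*} (s : Finset ι) (l : ι → Fin r → ℝ) (f : ι → S.A)
    (hf : ∀ i ∈ s, f i ∈ S.HW (l i)) : ∏ i ∈ s, f i ∈ S.HW (∑ i ∈ s, l i) := by
  classical
  induction s using Finset.induction_on with
  | empty => exact S.HW_one
  | insert a s ha ih =>
    rw [Finset.prod_insert ha, Finset.sum_insert ha]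
    exact S.HW_mul (hf a (Finset.mem_insert_self a s))
      (ih fun i hi => hf i (Finset.mem_insert_of_mem hi))

/-- evaluation at `1` -/
private def hwlbEv : S.A →ₐ[ℂ] ℂ := (Pi.evalAlgHom ℂ (fun _ : K => ℂ) 1).comp S.A.val

private lemma hwlbEv_apply (f : S.A) : S.hwlbEv f = f.1 1 := rfl

lemma low_bound {t : Fin r → ℝ} (ht : t ∈ S.wts) (n : Fin r → ℕ) (i : Fin M → Fin r)
    (hi : ∀ b, 0 < S.coef b (i b)) :
    ∏ b, (1 + n (i b)) ≤ M ^ M * S.dm (t + ∑ j, (n j : ℝ) • S.s j) := by
  classical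
  rcases Nat.eq_zero_or_pos M with hM | hM
  · subst hM
    simp only [Finset.univ_eq_empty, Finset.prod_empty, pow_zero, one_mul]
    exact S.dm_pos (S.sum_s_mem_wts ht n)
  choose ψ hψ1 hψ2 hψ3 using fun b : Fin M => S.exists_psi (i b) b
  set θ : Fin M → ℂ := fun b => ((dot (S.s (i b)) (S.root b) : ℝ) : ℂ) with hθdef
  have hθ : ∀ b, θ b ≠ 0 := by
    intro b
    have h1 := S.dot_s_root (i b) b
    have h2 := S.dot_s_sim_pos (i b)
    have h3 : (0 : ℝ) < S.coef b (i b) := by exact_mod_cast hi b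
    have h4 : 0 < dot (S.s (i b)) (S.root b) := by rw [h1]; exact mul_pos h3 h2
    simp only [hθdef]
    exact_mod_cast h4.ne'
  set g : (Fin M → ℕ) → S.A := fun a => S.phi t *
    ∏ j, S.phi (S.s j) ^ (n j - ∑ b with i b = j, a b) with hgdef
  have hg : ∀ a, S.hwlbEv (g a) = 1 := by
    intro a
    simp only [hgdef]
    rw [map_mul, map_prod, S.hwlbEv_apply, S.phi_one ht, one_mul]
    refine Finset.prod_eq_one fun j _ => ?_
    rw [map_pow, S.hwlbEv_apply, S.phi_one (S.s_mem_wts j), one_pow]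
  have hli := indep S.hwlbEv (fun b => S.F b) ψ θ hθ (fun b => hψ2 b)
    (fun b c => by
      rw [S.hwlbEv_apply]
      exact hψ3 c b) g hg
  set P : Finset (Fin M → ℕ) := Fintype.piFinset fun b => Finset.range (1 + n (i b) / M) with hP
  have hle : ∀ a ∈ P, ∀ j, ∑ b with i b = j, a b ≤ n j := by
    intro a ha j
    have h1 : ∀ b ∈ Finset.univ.filter (fun b => i b = j), a b ≤ n j / M := by
      intro b hb
      have h2 := (Fintype.mem_piFinset.mp ha) b
      rw [Finset.mem_range] at h2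
      rw [Finset.mem_filter] at hb
      rw [hb.2] at h2
      omega
    refine (Finset.sum_le_card_nsmul _ _ _ h1).trans ?_
    rw [smul_eq_mul]
    have h3 : (Finset.univ.filter (fun b => i b = j)).card ≤ M := by
      refine (Finset.card_filter_le _ _).trans_eq ?_
      simp
    exact (Nat.mul_le_mul_right _ h3).trans (Nat.mul_div_le _ _)
  have hmem : ∀ a ∈ P, g a * ∏ b, ψ b ^ a b ∈ S.HW (t + ∑ j, (n j : ℝ) • S.s j) := by
    intro a ha
    have h1 := S.HW_mul (S.HW_mul (S.phi_mem ht)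
      (S.hwlb_prod Finset.univ (fun j => ((n j - ∑ b with i b = j, a b : ℕ) : ℝ) • S.s j)
        (fun j => S.phi (S.s j) ^ (n j - ∑ b with i b = j, a b))
        (fun j _ => S.hwlb_pow (S.phi_mem (S.s_mem_wts j)) _)))
      (S.hwlb_prod Finset.univ (fun b => ((a b : ℕ) : ℝ) • S.s (i b)) (fun b => ψ b ^ a b)
        (fun b _ => S.hwlb_pow (hψ1 b) _))
    have h2 : t + ∑ j, ((n j - ∑ b with i b = j, a b : ℕ) : ℝ) • S.s j +
        ∑ b, ((a b : ℕ) : ℝ) • S.s (i b) = t + ∑ j, (n j : ℝ) • S.s j := by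
      rw [add_assoc]
      congr 1
      have h3 : ∑ b, ((a b : ℕ) : ℝ) • S.s (i b) =
          ∑ j, ((∑ b with i b = j, a b : ℕ) : ℝ) • S.s j := by
        rw [← Finset.sum_fiberwise_of_maps_to (s := Finset.univ) (t := Finset.univ) (g := i)
          (fun _ _ => Finset.mem_univ _)]
        refine Finset.sum_congr rfl fun j _ => ?_
        rw [Nat.cast_sum, Finset.sum_smul]
        refine Finset.sum_congr rfl fun b hb => ?_
        rw [(Finset.mem_filter.mp hb).2]
      rw [h3, ← Finset.sum_add_distrib]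
      refine Finset.sum_congr rfl fun j _ => ?_
      rw [← add_smul, ← Nat.cast_add, Nat.sub_add_cancel (hle a ha j)]
    rwa [h2] at h1
  have hli2 : LinearIndependent ℂ (fun a : P => (⟨g a.1 * ∏ b, ψ b ^ a.1 b, hmem a.1 a.2⟩ :
      S.HW (t + ∑ j, (n j : ℝ) • S.s j))) := by
    have h1 := hli.comp (fun a : P => a.1) Subtype.val_injective
    exact LinearIndependent.of_comp (S.HW (t + ∑ j, (n j : ℝ) • S.s j)).subtype h1
  have hcard := hli2.fintype_card_le_finrank
  rw [Fintype.card_coe, hP, Fintype.card_piFinset] at hcard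
  simp only [Finset.card_range] at hcard
  calc ∏ b, (1 + n (i b)) ≤ ∏ b : Fin M, M * (1 + n (i b) / M) := by
        refine Finset.prod_le_prod' fun b _ => ?_
        have h1 := Nat.div_add_mod (n (i b)) M
        have h2 := Nat.mod_lt (n (i b)) hM
        rw [mul_add, mul_one]
        omega
    _ = M ^ M * ∏ b, (1 + n (i b) / M) := by
        rw [Finset.prod_mul_distrib]
        simp
    _ ≤ M ^ M * S.dm (t + ∑ j, (n j : ℝ) • S.s j) := Nat.mul_le_mul_left _ hcard

end LGD

end STC
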