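import Pool.Agent.STC.HWUp
import Pool.Agent.STC.HWLb

/-!
# STC/HWDim: the dimension on the cosets `t + ∑ n_j s_j`

`mx n b` = maximum of the `n j` with `coef b j > 0`.

PROOF. `dm_lower`: choose `i b` in the support of `coef b` (nonempty: `root b ≠ 0`) with `n (i b)`
maximal, `low_bound`, `c = 1 / M^M` (`M^M = 1` if `M = 0`).
`dm_upper`: for `l = t + ∑ n_j s_j ∈ wts` (`sum_s_mem_wts`) and `b` let `N b` be the natural number of
`co_root_nat`; `N b = 2 dot t (root b)/q_b + ∑ j n_j 2 dot (s j) (root b)/q_b` with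
`dot (s j) (root b) = coef b j * ...` (zero unless `j` is in the support), so
`1 + N b ≤ C (1 + mx n b)`; `dm_le`.
-/

open MeasureTheory
open scoped ComplexConjugate

namespace STC

namespace LGD

variable {K : Type} [Group K] [TopologicalSpace K] [IsTopologicalGroup K] [CompactSpace K] [T2Space K]
  [SecondCountableTopology K] [MeasureSpace K] [BorelSpace K]
  [Measure.IsHaarMeasure (volume : Measure K)] [IsProbabilityMeasure (volume : Measure K)]
  {r M : ℕ} (S : LGD K r M)

/-- maximum of `n` over the support of the root `b` -/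
def mx (n : Fin r → ℕ) (b : Fin M) : ℕ := (Finset.univ.filter fun j => 0 < S.coef b j).sup n

private lemma supp_nonempty (b : Fin M) : (Finset.univ.filter fun j => 0 < S.coef b j).Nonempty := by
  by_contra h
  rw [Finset.not_nonempty_iff_eq_empty, Finset.filter_eq_empty_iff] at h
  have h0 : S.root b = 0 := by
    rw [S.root_eq b]
    refine Finset.sum_eq_zero fun i _ => ?_
    have : S.coef b i = 0 := by
      have := h (Finset.mem_univ i)
      omega
    rw [this, Nat.cast_zero, zero_smul]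
  have h1 := S.root_sq_pos b
  rw [h0] at h1
  simp [dot] at h1

lemma dm_lower : ∃ c : ℝ, 0 < c ∧ ∀ t ∈ S.wts, ∀ n : Fin r → ℕ,
    c * ∏ b, (1 + (S.mx n b : ℝ)) ≤ S.dm (t + ∑ j, (n j : ℝ) • S.s j) := by
  have hM : 0 < ((M ^ M : ℕ) : ℝ) := by
    have : 0 < M ^ M := by
      rcases Nat.eq_zero_or_pos M with h | h
      · subst h
        simp
      · positivity
    exact_mod_cast this
  refine ⟨1 / ((M ^ M : ℕ) : ℝ), by positivity, fun t ht n => ?_⟩
  have hex : ∀ b, ∃ i ∈ (Finset.univ.filter fun j => 0 < S.coef b j), S.mx n b = n i := fun b =>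
    Finset.exists_mem_eq_sup _ (supp_nonempty S b) n
  choose i hi hmx using hex
  have h := S.low_bound ht n i fun b => (Finset.mem_filter.1 (hi b)).2
  have h' : (∏ b, (1 + (S.mx n b : ℝ))) ≤
      ((M ^ M : ℕ) : ℝ) * (S.dm (t + ∑ j, (n j : ℝ) • S.s j) : ℝ) := by
    have e : (∏ b, (1 + (S.mx n b : ℝ))) = ((∏ b, (1 + n (i b)) : ℕ) : ℝ) := by
      push_cast
      exact Finset.prod_congr rfl fun b _ => by rw [hmx b]
    rw [e]
    exact_mod_cast h
  calc 1 / ((M ^ M : ℕ) : ℝ) * ∏ b, (1 + (S.mx n b : ℝ))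
      ≤ 1 / ((M ^ M : ℕ) : ℝ) * (((M ^ M : ℕ) : ℝ) *
          (S.dm (t + ∑ j, (n j : ℝ) • S.s j) : ℝ)) :=
        mul_le_mul_of_nonneg_left h' (by positivity)
    _ = S.dm (t + ∑ j, (n j : ℝ) • S.s j) := by
        rw [← mul_assoc, one_div, inv_mul_cancel₀ hM.ne', one_mul]

lemma dm_upper {t : Fin r → ℝ} (ht : t ∈ S.wts) : ∃ C : ℝ, 0 < C ∧ ∀ n : Fin r → ℕ,
    (S.dm (t + ∑ j, (n j : ℝ) • S.s j) : ℝ) ≤ C * ∏ b, (1 + (S.mx n b : ℝ)) := by
  set q : Fin M → ℝ := fun b => dot (S.root b) (S.root b) with hq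
  have hq0 : ∀ b, 0 < q b := fun b => S.root_sq_pos b
  set w : Fin M → Fin r → ℝ := fun b j => 2 * ((S.coef b j : ℝ) * dot (S.s j) (S.sim j)) / q b
    with hw
  have hw0 : ∀ b j, 0 ≤ w b j := fun b j =>
    div_nonneg (mul_nonneg zero_le_two (mul_nonneg (Nat.cast_nonneg _) (S.dot_s_sim_pos j).le))
      (hq0 b).le
  set Cb : Fin M → ℝ := fun b => 1 + |2 * dot t (S.root b) / q b| + ∑ j, w b j with hCb
  have hCb1 : ∀ b, 1 ≤ Cb b := fun b => by
    have h1 : 0 ≤ |2 * dot t (S.root b) / q b| := abs_nonneg _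
    have h2 : 0 ≤ ∑ j, w b j := Finset.sum_nonneg fun j _ => hw0 b j
    simp only [hCb]
    linarith
  refine ⟨∏ b, Cb b, Finset.prod_pos fun b _ => lt_of_lt_of_le one_pos (hCb1 b), fun n => ?_⟩
  set l : Fin r → ℝ := t + ∑ j, (n j : ℝ) • S.s j with hl
  have hlw : l ∈ S.wts := S.sum_s_mem_wts ht n
  choose N hN using fun b => S.co_root_nat hlw b
  have hle := S.dm_le hlw N hN
  have hNb : ∀ b, (1 + (N b : ℝ)) ≤ Cb b * (1 + (S.mx n b : ℝ)) := by
    intro b
    have e1 : (N b : ℝ) = 2 * dot t (S.root b) / q b + ∑ j, (n j : ℝ) * w b j := by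
      have e2 : dot l (S.root b) =
          dot t (S.root b) + ∑ j, (n j : ℝ) * ((S.coef b j : ℝ) * dot (S.s j) (S.sim j)) := by
        rw [hl, dot_add_left, dot_sum_left]
        congr 1
        refine Finset.sum_congr rfl fun j _ => ?_
        rw [dot_smul_left, S.dot_s_root]
      have e3 : (N b : ℝ) = 2 * dot l (S.root b) / q b := by
        rw [hN b, mul_div_assoc]
        rw [show dot (S.root b) (S.root b) / q b = 1 from div_self (hq0 b).ne', mul_one]
      rw [e3, e2, mul_add, add_div, Finset.mul_sum, Finset.sum_div]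
      congr 1
      refine Finset.sum_congr rfl fun j _ => ?_
      simp only [hw]
      ring
    have e4 : ∑ j, (n j : ℝ) * w b j ≤ (S.mx n b : ℝ) * ∑ j, w b j := by
      rw [Finset.mul_sum]
      refine Finset.sum_le_sum fun j _ => ?_
      by_cases hj : 0 < S.coef b j
      · refine mul_le_mul_of_nonneg_right ?_ (hw0 b j)
        have : n j ≤ S.mx n b :=
          Finset.le_sup (f := n) (Finset.mem_filter.2 ⟨Finset.mem_univ j, hj⟩)
        exact_mod_cast this
      · have : w b j = 0 := by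
          have h0 : S.coef b j = 0 := by omega
          simp [hw, h0]
        rw [this, mul_zero, mul_zero]
    have h5 : 2 * dot t (S.root b) / q b ≤ |2 * dot t (S.root b) / q b| := le_abs_self _
    have h6 : 0 ≤ |2 * dot t (S.root b) / q b| := abs_nonneg _
    have h7 : 0 ≤ ∑ j, w b j := Finset.sum_nonneg fun j _ => hw0 b j
    have h8 : (0 : ℝ) ≤ (S.mx n b : ℝ) := Nat.cast_nonneg _
    rw [e1]
    simp only [hCb]
    nlinarith [mul_nonneg h6 h8, mul_nonneg h7 h8]
  calc (S.dm l : ℝ) ≤ ((∏ b, (1 + N b) : ℕ) : ℝ) := by exact_mod_cast hle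
    _ = ∏ b, (1 + (N b : ℝ)) := by push_cast; rfl
    _ ≤ ∏ b, (Cb b * (1 + (S.mx n b : ℝ))) :=
        Finset.prod_le_prod (fun b _ => by positivity) fun b _ => hNb b
    _ = (∏ b, Cb b) * ∏ b, (1 + (S.mx n b : ℝ)) := Finset.prod_mul_distrib

end LGD

end STC
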