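import Pool.Agent.STC.HWSchur

/-!
# STC/HWIso: (G0), (G1) the isotypic components `M_l` = span of `L a (R b φ_l)`

PROOF. `ML_L`, `ML_R`: `L x ∘ L a = L (x a)`, `R y ∘ R b = R (y b)`, `L` and `R` commute. `HW_le_ML`:
`HW_eq_span` (with `b = 1`). `ML_finite`: `ML l` is contained in the finite dimensional bi-invariant
space of the field `finite` for `phi l`. `ML_orth`: by bilinearity it is enough to take `f =
L a (R b φ_l)`, `g = L c (R d φ_m)`; by invariance `ip f g = ip φ_l (L (a⁻¹ c) (R (d b⁻¹) φ_m))` (check the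
order), which is `0` (see `schur_ne`: `ip φ_m (L z (R g φ_l)) = ∫ φ_m(x) φ_l(g⁻¹ x⁻¹ z) dx`).
`lap_HW`: for `f ∈ HW l`: `h k (h k f) = (l k)² f`, `F b (E b f) = 0`,
`E b (F b f) = ⁅E b, F b⁆ f = (∑ k root_b(k) l k) f`. `lap_ML`: `lap` commutes with `R y` (field `lap_R`) and
with `L x` (field `D_L`), and is linear.
-/

open MeasureTheory
open scoped ComplexConjugate

set_option linter.unusedSectionVars false

namespace STC

namespace LGD

variable {K : Type} [Group K] [TopologicalSpace K] [IsTopologicalGroup K] [CompactSpace K] [T2Space K]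
  [SecondCountableTopology K] [MeasureSpace K] [BorelSpace K]
  [Measure.IsHaarMeasure (volume : Measure K)] [IsProbabilityMeasure (volume : Measure K)]
  {r M : ℕ} (S : LGD K r M)

omit [IsTopologicalGroup K] [CompactSpace K] [T2Space K] [SecondCountableTopology K] [MeasureSpace K]
  [BorelSpace K] [Measure.IsHaarMeasure (volume : Measure K)]
  [IsProbabilityMeasure (volume : Measure K)] in
private lemma hwi_sum_apply {A : Subalgebra ℂ (K → ℂ)} {ι : Type} (s : Finset ι)
    (D : ι → Derivation ℂ A A) (f : A) : (∑ k ∈ s, D k) f = ∑ k ∈ s, D k f := by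
  classical
  induction s using Finset.induction_on with
  | empty => simp
  | insert a s ha ih => rw [Finset.sum_insert ha, Finset.sum_insert ha, Derivation.add_apply, ih]

lemma ML_L {l : Fin r → ℝ} (x : K) {f : S.A} (hf : f ∈ S.ML l) : S.L x f ∈ S.ML l := by
  refine Submodule.span_induction (p := fun f _ => S.L x f ∈ S.ML l) ?_ ?_ ?_ ?_ hf
  · rintro _ ⟨a, b, rfl⟩
    refine Submodule.subset_span ⟨x * a, b, ?_⟩
    apply Subtype.ext
    funext z
    simp only [RepAlg.L_apply, RepAlg.R_apply, mul_inv_rev, mul_assoc]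
  · rw [map_zero]; exact Submodule.zero_mem _
  · intro f g _ _ hf hg
    rw [map_add]; exact Submodule.add_mem _ hf hg
  · intro c f _ hf
    rw [map_smul]; exact Submodule.smul_mem _ c hf

lemma ML_R {l : Fin r → ℝ} (y : K) {f : S.A} (hf : f ∈ S.ML l) : S.R y f ∈ S.ML l := by
  refine Submodule.span_induction (p := fun f _ => S.R y f ∈ S.ML l) ?_ ?_ ?_ ?_ hf
  · rintro _ ⟨a, b, rfl⟩
    refine Submodule.subset_span ⟨a, y * b, ?_⟩
    apply Subtype.ext
    funext z
    simp only [RepAlg.L_apply, RepAlg.R_apply, mul_assoc]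
  · rw [map_zero]; exact Submodule.zero_mem _
  · intro f g _ _ hf hg
    rw [map_add]; exact Submodule.add_mem _ hf hg
  · intro c f _ hf
    rw [map_smul]; exact Submodule.smul_mem _ c hf

lemma HW_le_ML {l : Fin r → ℝ} (hl : l ∈ S.wts) : S.HW l ≤ S.ML l := by
  rw [S.HW_eq_span hl]
  unfold ML
  apply Submodule.span_mono
  rintro _ ⟨x, rfl⟩
  refine ⟨x, 1, ?_⟩
  apply Subtype.ext
  funext z
  simp only [RepAlg.L_apply, RepAlg.R_apply, mul_one]

lemma ML_finite (l : Fin r → ℝ) : FiniteDimensional ℂ (S.ML l) := by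
  obtain ⟨W, hW, h1, h2, h3⟩ := S.finite (S.phi l)
  have hle : S.ML l ≤ W := by
    unfold ML
    rw [Submodule.span_le]
    rintro _ ⟨a, b, rfl⟩
    exact h2 _ (h3 _ h1 b) a
  exact Submodule.finiteDimensional_of_le hle

private lemma hwi_ip_zero_left (g : S.A) : S.ip 0 g = 0 := by
  have := S.ip_smul_left 0 0 g
  simpa using this

private lemma hwi_ip_zero_right (g : S.A) : S.ip g 0 = 0 := by
  have := S.ip_smul_right 0 g 0
  simpa using this

lemma ML_orth {l m : Fin r → ℝ} (hl : l ∈ S.wts) (hm : m ∈ S.wts) (hlm : l ≠ m) {f g : S.A}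
    (hf : f ∈ S.ML l) (hg : g ∈ S.ML m) : S.ip f g = 0 := by
  refine Submodule.span_induction (p := fun f _ => S.ip f g = 0) ?_ ?_ ?_ ?_ hf
  · rintro _ ⟨a, b, rfl⟩
    refine Submodule.span_induction (p := fun g _ => S.ip (S.L a (S.R b (S.phi l))) g = 0)
      ?_ ?_ ?_ ?_ hg
    · rintro _ ⟨c, d, rfl⟩
      have h1 : S.L c (S.R d (S.phi m)) =
          S.L a (S.R b (S.L (a⁻¹ * c) (S.R (b⁻¹ * d) (S.phi m)))) := by
        apply Subtype.ext
        funext z
        simp only [RepAlg.L_apply, RepAlg.R_apply]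
        congr 1
        group
      rw [h1, S.ip_L, S.ip_R]
      have h2 := S.schur_ne (l := m) (m := l) hm hl (Ne.symm hlm) (a⁻¹ * c) (b⁻¹ * d)
      unfold ip
      rw [← h2]
      congr 1
      funext x
      simp only [RepAlg.L_apply, RepAlg.R_apply]
      rw [S.phi_inv hm]
      congr 2
      group
    · exact S.hwi_ip_zero_right _
    · intro f g _ _ hf hg
      rw [S.ip_add_right, hf, hg, add_zero]
    · intro c f _ hf
      rw [S.ip_smul_right, hf, mul_zero]
  · exact S.hwi_ip_zero_left _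
  · intro f g _ _ hf hg
    rw [S.ip_add_left, hf, hg, add_zero]
  · intro c f _ hf
    rw [S.ip_smul_left, hf, mul_zero]

lemma lap_HW {l : Fin r → ℝ} {f : S.A} (hf : f ∈ S.HW l) :
    S.lap f = -((dot l l + dot l S.rho2 : ℝ) : ℂ) • f := by
  obtain ⟨hh, hE⟩ := hf
  have h1 : ∀ k, S.h k (S.h k f) = ((l k * l k : ℝ) : ℂ) • f := by
    intro k
    rw [hh k, Derivation.map_smul, hh k, smul_smul]
    push_cast
    rfl
  have h2 : ∀ b, S.E b (S.F b f) + S.F b (S.E b f) = ((∑ k, S.root b k * l k : ℝ) : ℂ) • f := by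
    intro b
    have h3 := congrArg (fun D : Derivation ℂ S.A S.A => D f) (S.EF b)
    simp only [Derivation.commutator_apply] at h3
    rw [hE b, map_zero, sub_zero] at h3
    rw [hE b, map_zero, add_zero, h3]
    rw [hwi_sum_apply]
    simp only [Derivation.smul_apply]
    simp only [hh, smul_smul]
    rw [← Finset.sum_smul]
    push_cast
    rfl
  unfold OpAlg.lap
  simp only [h1, h2]
  rw [← Finset.sum_smul, ← Finset.sum_smul, ← neg_smul, ← sub_smul]
  congr 1
  unfold dot rho2
  have h5 : ∑ b, ∑ k, S.root b k * l k = ∑ k, l k * ∑ b, S.root b k := by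
    rw [Finset.sum_comm]
    refine Finset.sum_congr rfl fun k _ => ?_
    rw [Finset.mul_sum]
    exact Finset.sum_congr rfl fun b _ => mul_comm _ _
  rw [← h5]
  push_cast
  ring

private lemma hwi_lap_add (f g : S.A) : S.lap (f + g) = S.lap f + S.lap g := by
  unfold OpAlg.lap
  simp only [map_add, Finset.sum_add_distrib]
  abel

private lemma hwi_lap_smul (c : ℂ) (f : S.A) : S.lap (c • f) = c • S.lap f := by
  unfold OpAlg.lap
  simp only [Derivation.map_smul, ← Finset.smul_sum, ← smul_add, smul_sub, smul_neg]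

private lemma hwi_lap_L (x : K) (f : S.A) : S.lap (S.L x f) = S.L x (S.lap f) := by
  have hh : ∀ k (g : S.A), S.h k (S.L x g) = S.L x (S.h k g) := fun k g => S.D_L _ x g
  have hE : ∀ b (g : S.A), S.E b (S.L x g) = S.L x (S.E b g) := fun k g => S.D_L _ x g
  have hF : ∀ b (g : S.A), S.F b (S.L x g) = S.L x (S.F b g) := fun k g => S.D_L _ x g
  unfold OpAlg.lap
  simp only [hh, hE, hF, map_sub, map_neg, map_sum, map_add]

lemma lap_ML {l : Fin r → ℝ} (hl : l ∈ S.wts) {f : S.A} (hf : f ∈ S.ML l) :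
    S.lap f = -((dot l l + dot l S.rho2 : ℝ) : ℂ) • f := by
  refine Submodule.span_induction
    (p := fun f _ => S.lap f = -((dot l l + dot l S.rho2 : ℝ) : ℂ) • f) ?_ ?_ ?_ ?_ hf
  · rintro _ ⟨a, b, rfl⟩
    rw [S.hwi_lap_L, S.lap_R, S.lap_HW (S.phi_mem hl), map_smul, map_smul]
  · have := S.hwi_lap_smul 0 0
    simpa using this
  · intro f g _ _ hf hg
    rw [S.hwi_lap_add, hf, hg, smul_add]
  · intro c f _ hf
    rw [S.hwi_lap_smul, hf, smul_comm]

end LGD

end STC
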