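import Pool.Agent.STC.HWCo

/-!
# STC/HWRat: (J) rationality of the quadratic form

PROOF. `root_int`: for positive roots `b, c` the number `2 (root c, root b)/(root b, root b)` is an
integer: let `l = ∑ j s j ∈ wts`, `f = phi l ≠ 0`; `F c f ≠ 0` because
`ip (F c f) (F c f) = dot l (root c) ip f f` (`norm_F_pow` with `j = 0`) and
`dot l (root c) = ∑ j coef c j * dot (s j) (sim j) > 0`. Apply `sl2_int` to `f` (weight `l`) and `F c f`
(weight `l - root c`, field `hF`) and subtract.
`sq_rat`: put `q = (root b, root b)`, `p c = 2 (root c, root b)/q ∈ ℤ`. Field `killing` with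
`x = y = root b`: `q = 2 ∑_c (p c q/2)² = q² ∑ (p c)²/2`, so `q = 2/∑ (p c)²`.
`gram_rat`: `dot x y = 2 ∑_b (root b, x)(root b, y)` and
`(root b, x) = ∑ i coef b i (sim i, x) = ∑ i coef b i (sim i, sim i)/2 co x i`: so
`G i j = 2 ∑_b coef b i coef b j (|sim i|²/2) (|sim j|²/2)`, symmetric, rational.
`diag_rat`: the rational symmetric matrix `G` is positive definite (`co` is a linear isomorphism of
`ℝ^r`), so it can be diagonalised over `ℚ`: there are `q j ∈ ℚ`, `q j > 0` and an invertible rational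
matrix `ell` with `∑ G i j x_i x_j = ∑ j q j (∑ i ell j i x i)²` for rational, hence for real `x`
(polynomial identity). Use `LinearMap.BilinForm.exists_orthogonal_basis` (or Lagrange reduction by
induction on `r`, as in `Pool/Agent` if present).
-/

open MeasureTheory
open scoped ComplexConjugate

namespace STC

/-- Rational diagonalisation of a positive definite rational symmetric matrix. -/
private theorem hwrat_diag {r : ℕ} (G : Matrix (Fin r) (Fin r) ℚ) (hG : ∀ i j, G i j = G j i)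
    (hpos : ∀ v : Fin r → ℚ, v ≠ 0 → 0 < ∑ i, ∑ j, G i j * v i * v j) :
    ∃ (q : Fin r → ℚ) (ell : Matrix (Fin r) (Fin r) ℚ), (∀ j, 0 < q j) ∧
      ell.det ≠ 0 ∧ ∀ i k, G i k = ∑ j, q j * ell j i * ell j k := by
  classical
  let B : LinearMap.BilinForm ℚ (Fin r → ℚ) := Matrix.toBilin' G
  have hBapp : ∀ v w : Fin r → ℚ, B v w = ∑ i, ∑ j, v i * G i j * w j := by
    intro v w
    exact Matrix.toBilin'_apply G v w
  have hsymm : LinearMap.IsSymm B := by
    refine ⟨fun v w => ?_⟩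
    rw [RingHom.id_apply, hBapp, hBapp, Finset.sum_comm]
    refine Finset.sum_congr rfl fun i _ => Finset.sum_congr rfl fun j _ => ?_
    rw [hG j i]
    ring
  have hinv : Invertible (2 : ℚ) := invertibleOfNonzero (by norm_num)
  obtain ⟨v0, hv0⟩ := LinearMap.BilinForm.exists_orthogonal_basis hsymm
  have hfin : Module.finrank ℚ (Fin r → ℚ) = r := by simp
  let v : Module.Basis (Fin r) ℚ (Fin r → ℚ) := v0.reindex (finCongr hfin)
  have hv : ∀ i j, i ≠ j → B (v i) (v j) = 0 := by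
    intro i j hij
    have h1 : v i = v0 ((finCongr hfin).symm i) := v0.reindex_apply _ _
    have h2 : v j = v0 ((finCongr hfin).symm j) := v0.reindex_apply _ _
    rw [h1, h2]
    exact hv0 fun h => hij ((finCongr hfin).symm.injective h)
  let e : Module.Basis (Fin r) ℚ (Fin r → ℚ) := Pi.basisFun ℚ (Fin r)
  refine ⟨fun j => B (v j) (v j), v.toMatrix e, fun j => ?_, ?_, fun i k => ?_⟩
  · have h1 := hpos (v j) (v.ne_zero j)
    simp only [hBapp]
    refine lt_of_lt_of_eq h1 ?_
    refine Finset.sum_congr rfl fun a _ => Finset.sum_congr rfl fun b _ => ?_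
    ring
  · intro hdet
    have h1 : v.toMatrix e * e.toMatrix v = 1 := v.toMatrix_mul_toMatrix_flip e
    have h2 := congrArg Matrix.det h1
    rw [Matrix.det_mul, hdet, zero_mul, Matrix.det_one] at h2
    exact zero_ne_one h2
  · have h1 : G i k = B (e i) (e k) := by
      have h2 := Matrix.toBilin'_single G i k
      simp only [e, Pi.basisFun_apply]
      exact h2.symm
    have h3 : e i = ∑ j, v.toMatrix e j i • v j := (v.sum_toMatrix_smul_self e i).symm
    have h4 : e k = ∑ j, v.toMatrix e j k • v j := (v.sum_toMatrix_smul_self e k).symm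
    rw [h1, h3, h4]
    simp only [map_sum, LinearMap.sum_apply, map_smul, LinearMap.smul_apply, smul_eq_mul]
    refine Finset.sum_congr rfl fun j _ => ?_
    rw [Finset.sum_eq_single j]
    · ring
    · intro b _ hb
      rw [hv b j hb]
      ring
    · intro hj
      exact absurd (Finset.mem_univ j) hj

namespace LGD

variable {K : Type} [Group K] [TopologicalSpace K] [IsTopologicalGroup K] [CompactSpace K] [T2Space K]
  [SecondCountableTopology K] [MeasureSpace K] [BorelSpace K]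
  [Measure.IsHaarMeasure (volume : Measure K)] [IsProbabilityMeasure (volume : Measure K)]
  {r M : ℕ} (S : LGD K r M)

lemma root_int (b c : Fin M) : ∃ n : ℤ, 2 * dot (S.root c) (S.root b) =
    n * dot (S.root b) (S.root b) := by
  obtain ⟨l, hl⟩ : ∃ l, l = (0 : Fin r → ℝ) + ∑ j, (((fun _ => 1 : Fin r → ℕ) j : ℕ) : ℝ) • S.s j :=
    ⟨_, rfl⟩
  have hlw : l ∈ S.wts := by
    rw [hl]
    exact S.sum_s_mem_wts S.zero_mem_wts _
  obtain ⟨f, hf⟩ : ∃ f, f = S.phi l := ⟨_, rfl⟩
  have hfm : f ∈ S.HW l := by rw [hf]; exact S.phi_mem hlw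
  have hf1 : f.1 1 = 1 := by rw [hf]; exact S.phi_one hlw
  have hf0 : f ≠ 0 := by
    intro h
    rw [h] at hf1
    exact zero_ne_one hf1
  have hdot : 0 < dot l (S.root c) := by
    have h1 : dot l (S.root c) = ∑ j, (S.coef c j : ℝ) * dot (S.s j) (S.sim j) := by
      rw [hl, zero_add, dot_sum_left]
      refine Finset.sum_congr rfl fun j _ => ?_
      rw [dot_smul_left, S.dot_s_root]
      push_cast
      ring
    rw [h1]
    have h2 : ∃ j, S.coef c j ≠ 0 := by
      by_contra hcon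
      push Not at hcon
      have h3 : S.root c = 0 := by
        rw [S.root_eq c]
        refine Finset.sum_eq_zero fun j _ => ?_
        rw [hcon j, Nat.cast_zero, zero_smul]
      have h4 := S.root_sq_pos c
      rw [h3] at h4
      simp [dot] at h4
    obtain ⟨j, hj⟩ := h2
    refine Finset.sum_pos' (fun i _ => ?_) ⟨j, Finset.mem_univ _, ?_⟩
    · exact mul_nonneg (Nat.cast_nonneg _) (S.dot_s_sim_pos i).le
    · exact mul_pos (Nat.cast_pos.2 (Nat.pos_of_ne_zero hj)) (S.dot_s_sim_pos j)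
  have hF : S.F c f ≠ 0 := by
    intro h
    have h1 := S.norm_F_pow hfm.1 c (hfm.2 c) 0
    have h2 : (fun g => S.F c g)^[0 + 1] f = 0 := h
    have h3 : (fun g => S.F c g)^[0] f = f := rfl
    rw [h2, h3] at h1
    have h4 : S.ip (0 : S.A) 0 = 0 := by
      have := S.ip_smul_left 0 (0 : S.A) 0
      rwa [zero_smul, zero_mul] at this
    rw [h4] at h1
    have h5 : S.ip f f ≠ 0 := fun h6 => hf0 (S.ip_self_eq_zero h6)
    rcases mul_eq_zero.1 h1.symm with h6 | h6
    · have h7 := Complex.ofReal_eq_zero.1 h6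
      have h8 : (((0 : ℕ) : ℝ) + 1) * (dot l (S.root c) - ((0 : ℕ) : ℝ) *
          dot (S.root c) (S.root c) / 2) = dot l (S.root c) := by
        push_cast
        ring
      rw [h8] at h7
      linarith
    · exact h5 h6
  obtain ⟨n1, hn1⟩ := S.sl2_int hf0 hfm.1 b
  have hc2 : ∀ k, S.h k (S.F c f) = (((fun k => l k - S.root c k : Fin r → ℝ) k : ℝ) : ℂ) •
      S.F c f := by
    intro k
    have h1 := S.h_F_pow hfm.1 c 1 k
    have h2 : (fun g => S.F c g)^[1] f = S.F c f := rfl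
    rw [h2] at h1
    rw [h1]
    congr 2
    push_cast
    ring
  obtain ⟨n2, hn2⟩ := S.sl2_int hF hc2 b
  refine ⟨n1 - n2, ?_⟩
  have h3 : dot (fun k => l k - S.root c k) (S.root b) = dot l (S.root b) -
      dot (S.root c) (S.root b) := by
    unfold dot
    rw [← Finset.sum_sub_distrib]
    exact Finset.sum_congr rfl fun k _ => by ring
  rw [h3] at hn2
  push_cast
  linarith

lemma sq_rat (b : Fin M) : ∃ q : ℚ, 0 < q ∧ dot (S.root b) (S.root b) = q := by
  have hq := S.root_sq_pos b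
  choose p hp using fun c => S.root_int b c
  have h1 := S.killing (S.root b) (S.root b)
  obtain ⟨Q, hQ⟩ : ∃ Q : ℝ, Q = dot (S.root b) (S.root b) := ⟨_, rfl⟩
  rw [← hQ] at hq h1 ⊢
  have hp' : ∀ c, 2 * dot (S.root c) (S.root b) = p c * Q := by
    intro c
    rw [hQ]
    exact hp c
  have h2 : Q = Q ^ 2 / 2 * ∑ c, (p c : ℝ) ^ 2 := by
    rw [Finset.mul_sum]
    calc Q = 2 * ∑ c, dot (S.root c) (S.root b) * dot (S.root c) (S.root b) := h1
      _ = ∑ c, Q ^ 2 / 2 * (p c : ℝ) ^ 2 := by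
        rw [Finset.mul_sum]
        refine Finset.sum_congr rfl fun c _ => ?_
        have h3 : dot (S.root c) (S.root b) = p c * Q / 2 := by
          have := hp' c
          linarith
        rw [h3]
        ring
  have h4 : 1 = Q / 2 * ∑ c, (p c : ℝ) ^ 2 := by
    have h5 : Q * 1 = Q * (Q / 2 * ∑ c, (p c : ℝ) ^ 2) := by
      calc Q * 1 = Q := mul_one Q
        _ = Q ^ 2 / 2 * ∑ c, (p c : ℝ) ^ 2 := h2
        _ = _ := by ring
    exact mul_left_cancel₀ hq.ne' h5
  have h6 : (0 : ℝ) < ∑ c, (p c : ℝ) ^ 2 := by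
    by_contra hcon
    have h7 : Q / 2 * ∑ c, (p c : ℝ) ^ 2 ≤ 0 :=
      mul_nonpos_of_nonneg_of_nonpos (by positivity) (not_lt.1 hcon)
    linarith
  have h8 : (((∑ c, (p c : ℚ) ^ 2 : ℚ)) : ℝ) = ∑ c, (p c : ℝ) ^ 2 := by push_cast; rfl
  have h9 : (0 : ℚ) < ∑ c, (p c : ℚ) ^ 2 := by
    have : (0 : ℝ) < ((∑ c, (p c : ℚ) ^ 2 : ℚ) : ℝ) := by rw [h8]; exact h6
    exact_mod_cast this
  refine ⟨2 / ∑ c, (p c : ℚ) ^ 2, by positivity, ?_⟩
  rw [Rat.cast_div, h8, eq_div_iff h6.ne']
  push_cast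
  linarith

lemma gram_rat : ∃ G : Matrix (Fin r) (Fin r) ℚ, (∀ i j, G i j = G j i) ∧
    ∀ x y : Fin r → ℝ, dot x y = ∑ i, ∑ j, (G i j : ℝ) * S.co x i * S.co y j := by
  have hsim : ∀ i, ∃ q : ℚ, 0 < q ∧ dot (S.sim i) (S.sim i) = q := by
    intro i
    obtain ⟨b, hb⟩ := S.sim_root i
    rw [← hb]
    exact S.sq_rat b
  choose q hq0 hq using hsim
  have hco : ∀ (x : Fin r → ℝ) i, dot (S.sim i) x = S.co x i * ((q i : ℝ) / 2) := by
    intro x i
    have h1 := S.sim_sq_pos i
    unfold co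
    rw [← hq i, dot_comm (S.sim i) x]
    field_simp
  have hrt : ∀ (b : Fin M) (x : Fin r → ℝ), dot (S.root b) x =
      ∑ i, (S.coef b i : ℝ) * ((q i : ℝ) / 2) * S.co x i := by
    intro b x
    conv_lhs => rw [S.root_eq b]
    rw [dot_sum_left]
    refine Finset.sum_congr rfl fun i _ => ?_
    rw [dot_smul_left, hco]
    ring
  refine ⟨fun i j => 2 * ∑ b, (S.coef b i : ℚ) * (q i / 2) * ((S.coef b j : ℚ) * (q j / 2)),
    fun i j => ?_, fun x y => ?_⟩
  · show (2 : ℚ) * _ = 2 * _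
    congr 1
    exact Finset.sum_congr rfl fun b _ => by ring
  · rw [S.killing x y]
    have h1 : ∀ i j, (((2 * ∑ b, (S.coef b i : ℚ) * (q i / 2) * ((S.coef b j : ℚ) * (q j / 2)) :
        ℚ)) : ℝ) * S.co x i * S.co y j = ∑ b, 2 * (((S.coef b i : ℝ) * ((q i : ℝ) / 2) * S.co x i) *
          ((S.coef b j : ℝ) * ((q j : ℝ) / 2) * S.co y j)) := by
      intro i j
      push_cast
      rw [Finset.mul_sum, Finset.sum_mul, Finset.sum_mul]
      exact Finset.sum_congr rfl fun b _ => by ring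
    simp only [h1]
    rw [Finset.mul_sum]
    have h2 : ∀ b, 2 * (dot (S.root b) x * dot (S.root b) y) = ∑ i, ∑ j,
        2 * (((S.coef b i : ℝ) * ((q i : ℝ) / 2) * S.co x i) *
          ((S.coef b j : ℝ) * ((q j : ℝ) / 2) * S.co y j)) := by
      intro b
      rw [hrt b x, hrt b y, Finset.sum_mul_sum, Finset.mul_sum]
      refine Finset.sum_congr rfl fun i _ => ?_
      rw [Finset.mul_sum]
    simp only [h2]
    rw [Finset.sum_comm]
    refine Finset.sum_congr rfl fun i _ => ?_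
    rw [Finset.sum_comm]

lemma diag_rat : ∃ (q : Fin r → ℚ) (ell : Matrix (Fin r) (Fin r) ℚ), (∀ j, 0 < q j) ∧
    ell.det ≠ 0 ∧ ∀ x : Fin r → ℝ, dot x x = ∑ j, (q j : ℝ) * (∑ i, (ell j i : ℝ) * S.co x i) ^ 2 := by
  obtain ⟨G, hG1, hG2⟩ := S.gram_rat
  have hlin : ∃ L : (Fin r → ℝ) →ₗ[ℝ] (Fin r → ℝ), ∀ x, L x = S.co x := by
    refine ⟨{ toFun := fun x => S.co x, map_add' := fun x y => ?_, map_smul' := fun c x => ?_ },
      fun x => rfl⟩
    · funext i
      show S.co (x + y) i = S.co x i + S.co y i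
      unfold co
      rw [dot_add_left]
      ring
    · funext i
      show S.co (c • x) i = c * S.co x i
      unfold co
      rw [dot_smul_left]
      ring
  obtain ⟨L, hL⟩ := hlin
  have hinj : Function.Injective L := by
    intro x y hxy
    rw [hL, hL] at hxy
    exact S.co_inj fun i => congrFun hxy i
  have hsurj : Function.Surjective L := LinearMap.injective_iff_surjective.1 hinj
  have hpos : ∀ v : Fin r → ℚ, v ≠ 0 → 0 < ∑ i, ∑ j, G i j * v i * v j := by
    intro v hv
    obtain ⟨x, hx⟩ := hsurj (fun i => (v i : ℝ))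
    rw [hL] at hx
    have hx0 : x ≠ 0 := by
      rintro rfl
      apply hv
      funext i
      have h1 := congrFun hx i
      have h2 : S.co 0 i = 0 := by
        unfold co dot
        simp
      rw [h2] at h1
      have h3 : ((v i : ℚ) : ℝ) = 0 := h1.symm
      exact_mod_cast h3
    have h1 := dot_self_pos hx0
    rw [hG2 x x, hx] at h1
    have h2 : ((∑ i, ∑ j, G i j * v i * v j : ℚ) : ℝ) = ∑ i, ∑ j, (G i j : ℝ) * (v i : ℝ) *
        (v j : ℝ) := by push_cast; rfl
    have h3 : (0 : ℝ) < ((∑ i, ∑ j, G i j * v i * v j : ℚ) : ℝ) := by rw [h2]; exact h1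
    exact_mod_cast h3
  obtain ⟨q, ell, hq, hdet, hform⟩ := hwrat_diag G hG1 hpos
  refine ⟨q, ell, hq, hdet, fun x => ?_⟩
  rw [hG2 x x]
  have h1 : ∀ j, (q j : ℝ) * (∑ i, (ell j i : ℝ) * S.co x i) ^ 2 = ∑ i, ∑ k,
      (q j : ℝ) * (ell j i : ℝ) * (ell j k : ℝ) * S.co x i * S.co x k := by
    intro j
    rw [sq, Finset.sum_mul_sum, Finset.mul_sum]
    refine Finset.sum_congr rfl fun i _ => ?_
    rw [Finset.mul_sum]
    exact Finset.sum_congr rfl fun k _ => by ring
  have h2 : ∀ i k, (G i k : ℝ) * S.co x i * S.co x k = ∑ j,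
      (q j : ℝ) * (ell j i : ℝ) * (ell j k : ℝ) * S.co x i * S.co x k := by
    intro i k
    rw [hform i k]
    push_cast
    rw [Finset.sum_mul, Finset.sum_mul]
  simp only [h1, h2]
  have h3 : ∀ i, ∑ k, ∑ j, (q j : ℝ) * (ell j i : ℝ) * (ell j k : ℝ) * S.co x i * S.co x k =
      ∑ j, ∑ k, (q j : ℝ) * (ell j i : ℝ) * (ell j k : ℝ) * S.co x i * S.co x k :=
    fun i => Finset.sum_comm
  simp only [h3]
  exact Finset.sum_comm

end LGD

end STC
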