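import Pool.Agent.STC.HWKer

/-!
# STC/HWSchur: (G3) the Schur orthogonality identity

PROOF of `schur`. Fix `g`. `z ↦ G z = ∫ φ(x) φ(g⁻¹ x⁻¹ z) dx` is an element of `HW l`: with an
orthonormal basis `e i` of `HW l`, `L y φ = ∑ i, c_i(y) e i`, `c_i(y) = ip (L y φ) (e i)` continuous in
`y`, and `G = ∑ i (∫ φ(x) c_i(x g) dx) e i`. For `t = tor x` we have `G (t z) = ∫ φ(x) φ(g⁻¹ x⁻¹ t z) dx =
∫ φ(t x) φ(g⁻¹ x⁻¹ z) dx = e^{i l.x} G z` (`phi_tor_left`, `int_left`). Thus
`(J G)(z t⁻¹) = G(t z⁻¹) = e^{i l.x} (J G)(z)`, i.e. `R (tor (-x)) (J G) = e^{i l.x} J G`, and the field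
`h_of_tor` (with `c = -l`) gives `h k (J G) = - l k • J G`, hence `LW l G`. By uniqueness
`G = G(1) • φ` (`eq_of_LW`), and `G 1 = ∫ φ(x) φ(g⁻¹ x⁻¹) dx = ∫ conj φ(x) φ(g⁻¹ x) dx`
(`int_inv`, `phi_inv`) `= conj (∫ φ(x) conj φ(g⁻¹ x) dx) = conj (φ(g)) / d` (`reprod`, `phi_inv`).

PROOF of `schur_ne` (`l ≠ m`): for fixed `g, z`,
`∫ φ_m(x) φ_l(g⁻¹ x⁻¹ z) dx = ∫ φ_m(x) conj (φ_l(z⁻¹ x g)) dx = ip φ_m (L z (R g φ_l))`, which vanishes
because `HW m ⊥ L z (low φ_l) `: `R g φ_l ∈ low φ_l` (`R_low`), `L z` commutes with `F b`, so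
`L z (R g φ_l)` is in `low (L z φ_l)`, and `ip f (word w u) = 0` for `f ∈ HW m`, `u ∈ HW l`: for `w = []`
it is `HW_orth`, for `w = b :: w'` it is `ip (E b f) (word w' u) = 0`.
-/

open MeasureTheory
open scoped ComplexConjugate

set_option linter.unusedSectionVars false

namespace STC

namespace LGD

variable {K : Type} [Group K] [TopologicalSpace K] [IsTopologicalGroup K] [CompactSpace K] [T2Space K]
  [SecondCountableTopology K] [MeasureSpace K] [BorelSpace K]
  [Measure.IsHaarMeasure (volume : Measure K)] [IsProbabilityMeasure (volume : Measure K)]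
  {r M : ℕ} (S : LGD K r M)

private lemma hws_L_word (x : K) (w : List (Fin M)) (f : S.A) :
    S.L x (S.word w f) = S.word w (S.L x f) := by
  induction w with
  | nil => rfl
  | cons b w ih =>
    change S.L x (S.F b (S.word w f)) = S.F b (S.word w (S.L x f))
    rw [← ih]
    exact (S.D_L _ x _).symm

lemma ip_word {l m : Fin r → ℝ} (hlm : l ≠ m) {f g : S.A} (hf : f ∈ S.HW m) (hg : g ∈ S.HW l)
    (w : List (Fin M)) : S.ip f (S.word w g) = 0 := by
  cases w with
  | nil => exact S.HW_orth (Ne.symm hlm) hf hg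
  | cons b w =>
    change S.ip f (S.F b (S.word w g)) = 0
    rw [← S.ip_E, hf.2 b]
    have := S.ip_smul_left 0 0 (S.word w g)
    simpa using this

private lemma hws_tor_zero : S.tor 0 = 1 := by
  have h := S.tor_add 0 0
  rw [add_zero] at h
  exact left_eq_mul.mp h

private lemma hws_tor_neg (x : Fin r → ℝ) : S.tor (-x) = (S.tor x)⁻¹ := by
  have h := S.tor_add x (-x)
  rw [add_neg_cancel, S.hws_tor_zero] at h
  exact (inv_eq_of_mul_eq_one_right h.symm).symm

private lemma hws_LW_smul {l : Fin r → ℝ} {f : S.A} (hf : S.LW l f) (c : ℂ) : S.LW l (c • f) := by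
  intro k
  rw [map_smul, Derivation.map_smul, map_smul, hf k, smul_neg, smul_comm]

private lemma hws_cont (f : S.A) : Continuous f.1 := S.cont f.1 f.2

private lemma hws_sum_apply {ι : Type*} (s : Finset ι) (f : ι → S.A) (z : K) :
    (∑ i ∈ s, f i).1 z = ∑ i ∈ s, (f i).1 z := by
  classical
  induction s using Finset.induction_on with
  | empty => rfl
  | insert a s ha ih =>
    rw [Finset.sum_insert ha, Finset.sum_insert ha, ← ih]
    rfl

/-- the function `G z = ∫ φ(x) φ(g⁻¹ x⁻¹ z) dx` is in `HW l` -/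
private lemma hws_exists_G {l : Fin r → ℝ} (hl : l ∈ S.wts) (g : K) :
    ∃ G : S.A, G ∈ S.HW l ∧
      ∀ z, G.1 z = ∫ x, (S.phi l).1 x * (S.phi l).1 (g⁻¹ * x⁻¹ * z) := by
  obtain ⟨e, he, -, hex⟩ := S.exists_onb (S.HW l)
  set c : Fin (Module.finrank ℂ (S.HW l)) → K → ℂ := fun i y => S.ip (S.L y (S.phi l)) (e i)
    with hc
  have hcc : ∀ i, Continuous (c i) := by
    intro i
    have h : Continuous (Function.uncurry fun (x z : K) =>
        (S.phi l).1 (z⁻¹ * x) * conj ((e i).1 x)) := by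
      have h1 := S.hws_cont (S.phi l)
      have h2 := S.hws_cont (e i)
      simp only [Function.uncurry_def]
      exact (h1.comp (continuous_snd.inv.mul continuous_fst)).mul
        (Complex.continuous_conj.comp (h2.comp continuous_fst))
    exact cont_int h
  have hexp : ∀ y z, (S.phi l).1 (y⁻¹ * z) = ∑ i, c i y * (e i).1 z := by
    intro y z
    have h1 := hex (S.L y (S.phi l)) (S.HW_L (S.phi_mem hl) y)
    have h2 := congrArg (fun f : S.A => f.1 z) h1
    simp only [RepAlg.L_apply] at h2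
    rw [h2, S.hws_sum_apply]
    rfl
  refine ⟨∑ i, (∫ x, (S.phi l).1 x * c i (x * g)) • e i, ?_, ?_⟩
  · exact Submodule.sum_mem _ fun i _ => Submodule.smul_mem _ _ (he i)
  · intro z
    rw [S.hws_sum_apply]
    have h3 : ∀ x, (S.phi l).1 x * (S.phi l).1 (g⁻¹ * x⁻¹ * z) =
        ∑ i, (S.phi l).1 x * c i (x * g) * (e i).1 z := by
      intro x
      have h4 : g⁻¹ * x⁻¹ * z = (x * g)⁻¹ * z := by rw [mul_inv_rev]
      rw [h4, hexp, Finset.mul_sum]
      exact Finset.sum_congr rfl fun i _ => by ring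
    simp only [h3]
    rw [integral_finsetSum]
    · refine Finset.sum_congr rfl fun i _ => ?_
      rw [integral_mul_const]
      rfl
    · intro i _
      apply int_of_cont
      have h1 := S.hws_cont (S.phi l)
      exact (h1.mul ((hcc i).comp (continuous_id.mul continuous_const))).mul continuous_const

lemma schur {l : Fin r → ℝ} (hl : l ∈ S.wts) (z g : K) :
    ∫ x, (S.phi l).1 x * (S.phi l).1 (g⁻¹ * x⁻¹ * z) =
      (S.phi l).1 z * conj ((S.phi l).1 g) / S.dm l := by
  obtain ⟨G, hG, hGz⟩ := S.hws_exists_G hl g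
  -- left weight
  have htor : ∀ (x : Fin r → ℝ) (z : K), G.1 (S.tor x * z) =
      Complex.exp (Complex.I * (dot l x : ℂ)) * G.1 z := by
    intro x z
    rw [hGz, hGz, ← int_left (fun w => (S.phi l).1 w * (S.phi l).1 (g⁻¹ * w⁻¹ * (S.tor x * z)))
      (S.tor x), ← integral_const_mul]
    congr 1
    funext w
    rw [S.phi_tor_left hl]
    have h4 : g⁻¹ * (S.tor x * w)⁻¹ * (S.tor x * z) = g⁻¹ * w⁻¹ * z := by group
    rw [h4, mul_assoc]
  have hLW : S.LW l G := by
    intro k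
    have h5 : ∀ x, S.R (S.tor x) (S.J G) = Complex.exp (Complex.I * (dot (-l) x : ℂ)) • S.J G := by
      intro x
      apply Subtype.ext
      funext z
      change G.1 (z * S.tor x)⁻¹ = Complex.exp (Complex.I * (dot (-l) x : ℂ)) * G.1 z⁻¹
      rw [mul_inv_rev, ← S.hws_tor_neg, htor]
      congr 3
      unfold dot
      simp
    have h6 := S.h_of_tor (S.J G) (-l) h5 k
    change S.J (S.D (Sum.inl k) (S.J G)) = _
    rw [h6, map_smul]
    have h7 : S.J (S.J G) = G := by
      apply Subtype.ext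
      funext z
      change G.1 z⁻¹⁻¹ = G.1 z
      rw [inv_inv]
    rw [h7, ← neg_smul]
    congr 1
    simp
  have hG1 : G.1 1 = conj ((S.phi l).1 g) / S.dm l := by
    have hr := S.reprod hl (S.phi_mem hl) g
    have hd : (S.dm l : ℂ) ≠ 0 := by
      exact_mod_cast (S.dm_pos hl).ne'
    rw [hGz, ← int_inv]
    have h8 : ∀ x, (S.phi l).1 x⁻¹ * (S.phi l).1 (g⁻¹ * x⁻¹⁻¹ * 1) =
        conj ((S.phi l).1 x * (S.phi l).1 (x⁻¹ * g)) := by
      intro x
      rw [map_mul, S.phi_inv hl, S.phi_inv hl, inv_inv, mul_one, mul_inv_rev, inv_inv]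
    simp only [h8]
    rw [integral_conj, eq_div_iff hd, hr, map_mul, map_natCast, mul_comm]
  have hfin : G = G.1 1 • S.phi l := by
    refine S.eq_of_LW hG hLW (Submodule.smul_mem _ _ (S.phi_mem hl))
      (S.hws_LW_smul (S.phi_LW hl) _) ?_
    change G.1 1 = G.1 1 * (S.phi l).1 1
    rw [S.phi_one hl, mul_one]
  rw [← hGz z]
  have h9 := congrArg (fun f : S.A => f.1 z) hfin
  have h10 : G.1 z = G.1 1 * (S.phi l).1 z := h9
  rw [h10, hG1]
  ring

lemma schur_ne {l m : Fin r → ℝ} (hl : l ∈ S.wts) (hm : m ∈ S.wts) (hlm : l ≠ m) (z g : K) :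
    ∫ x, (S.phi m).1 x * (S.phi l).1 (g⁻¹ * x⁻¹ * z) = 0 := by
  have h1 : ∀ u ∈ S.low (S.phi l), S.ip (S.phi m) (S.L z u) = 0 := by
    intro u hu
    refine Submodule.span_induction (p := fun u _ => S.ip (S.phi m) (S.L z u) = 0) ?_ ?_ ?_ ?_ hu
    · rintro _ ⟨w, rfl⟩
      change S.ip (S.phi m) (S.L z (S.word w (S.phi l))) = 0
      rw [S.hws_L_word]
      exact S.ip_word hlm (S.phi_mem hm) (S.HW_L (S.phi_mem hl) z) w
    · rw [map_zero]
      have := S.ip_smul_right 0 (S.phi m) 0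
      simpa using this
    · intro f g _ _ hf hg
      rw [map_add, S.ip_add_right, hf, hg, add_zero]
    · intro c f _ hf
      rw [map_smul, S.ip_smul_right, hf, mul_zero]
  have h2 := h1 (S.R g (S.phi l)) (S.R_low (S.phi_mem hl) g _ (S.self_mem_low _))
  rw [← h2]
  unfold ip
  congr 1
  funext x
  change _ = (S.phi m).1 x * conj ((S.phi l).1 (z⁻¹ * x * g))
  rw [S.phi_inv hl]
  congr 2
  group

end LGD

end STC
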