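import Pool.Agent.STC.Iface
import Pool.Agent.STC.HWDim
import Pool.Agent.STC.HWDick
import Pool.Agent.STC.HWRat
import Pool.Agent.STC.HWSchur
import Pool.Agent.STC.HWIso

/-!
# STC/HWFam: the `TFam` of Lie group data (metric = `β` times minus the Killing form)
-/

open MeasureTheory
open scoped ComplexConjugate

namespace STC

namespace LGD

variable {K : Type} [Group K] [TopologicalSpace K] [IsTopologicalGroup K] [CompactSpace K] [T2Space K]
  [SecondCountableTopology K] [MeasureSpace K] [BorelSpace K]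
  [Measure.IsHaarMeasure (volume : Measure K)] [IsProbabilityMeasure (volume : Measure K)]
  {r M : ℕ} (S : LGD K r M)

/-- the point `∑ θ_i a_i^∨` of the torus algebra -/
noncomputable def cow (θ : Fin r → ℝ) : Fin r → ℝ :=
  ∑ i, (θ i * 2 / dot (S.sim i) (S.sim i)) • S.sim i

lemma dot_cow (l : Fin r → ℝ) (θ : Fin r → ℝ) : dot l (S.cow θ) = ∑ i, S.co l i * θ i := by
  unfold cow
  rw [dot_comm, dot_sum_left]
  refine Finset.sum_congr rfl fun i _ => ?_
  rw [dot_smul_left, dot_comm (S.sim i) l, co]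
  ring

lemma co_eq_choose {l : Fin r → ℝ} (hl : l ∈ S.wts) (i : Fin r) :
    S.co l i = (((S.co_nat hl i).choose : ℤ) : ℝ) := by
  rw [Int.cast_natCast]
  exact (S.co_nat hl i).choose_spec

lemma cow_add (x y : Fin r → ℝ) : S.cow (x + y) = S.cow x + S.cow y := by
  unfold cow
  rw [← Finset.sum_add_distrib]
  refine Finset.sum_congr rfl fun i _ => ?_
  rw [← add_smul]
  congr 1
  rw [Pi.add_apply]
  ring

lemma cow_cont : Continuous S.cow := by
  unfold cow
  fun_prop

/-- The family of highest weight functions of `K`. -/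
noncomputable def fam (β : ℝ) (hβ : 0 < β) : TFam K (Fin r) where
  Λ := {l // l ∈ S.wts}
  φ l := (S.phi l.1).1
  d l := S.dm l.1
  w l i := ((S.co_nat l.2 i).choose : ℤ)
  tor θ := S.tor (S.cow θ)
  cas l := (dot l.1 l.1 + dot l.1 S.rho2) / β
  q j := (S.diag_rat.choose j : ℝ) / β
  ell := fun j i => S.diag_rat.choose_spec.choose j i
  eta := fun i => (∑ j, (S.gram_rat.choose i j : ℝ) * S.co S.rho2 j) / β
  cont l := S.cont _ (S.phi l.1).2
  one_le_d l := by exact_mod_cast S.dm_pos l.2
  φ_one l := S.phi_one l.2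
  φ_inv l y := S.phi_inv l.2 y
  φ_le l y := S.phi_le l.2 y
  schur l z g := by
    have := S.schur l.2 z g
    push_cast
    exact this
  schur_ne l m hlm z g := S.schur_ne l.2 m.2 (fun h => hlm (Subtype.ext h)) z g
  w_inj l m h := by
    apply Subtype.ext
    apply S.co_inj
    intro i
    have h1 := S.co_eq_choose l.2 i
    have h2 := S.co_eq_choose m.2 i
    have h3 : ((S.co_nat l.2 i).choose : ℤ) = ((S.co_nat m.2 i).choose : ℤ) := congrFun h i
    calc S.co l.1 i = _ := h1
      _ = _ := by rw [h3]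
      _ = _ := h2.symm
  tor_add x y := by rw [S.cow_add, S.tor_add]
  tor_cont := S.tor_cont.comp S.cow_cont
  φ_tor l z θ := by
    rw [S.phi_tor_right l.2 z (S.cow θ), S.dot_cow]
    congr 4
    refine Finset.sum_congr rfl fun i _ => ?_
    exact congrArg (· * θ i) (S.co_eq_choose l.2 i)
  q_pos j := by
    have := S.diag_rat.choose_spec.choose_spec.1 j
    have h2 : (0 : ℝ) < (S.diag_rat.choose j : ℝ) := by exact_mod_cast this
    positivity
  ell_inj x hx := by
    have h1 := S.diag_rat.choose_spec.choose_spec.2.1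
    by_contra hne
    apply h1
    rw [← Matrix.exists_mulVec_eq_zero_iff]
    exact ⟨x, hne, funext fun j => hx j⟩
  cas_eq l := by
    have h1 := S.diag_rat.choose_spec.choose_spec.2.2 l.1
    have h2 := S.gram_rat.choose_spec.2 l.1 S.rho2
    have h3 : ∀ i, S.co l.1 i = (((S.co_nat l.2 i).choose : ℤ) : ℝ) := fun i =>
      S.co_eq_choose l.2 i
    rw [h1, h2, add_div]
    congr 1
    · rw [Finset.sum_div]
      refine Finset.sum_congr rfl fun j _ => ?_
      rw [div_mul_eq_mul_div]
      congr 3
      refine Finset.sum_congr rfl fun i _ => ?_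
      exact congrArg _ (h3 i)
    · rw [Finset.sum_div]
      refine Finset.sum_congr rfl fun i _ => ?_
      refine Eq.trans ?_ (congrArg _ (h3 i))
      rw [div_mul_eq_mul_div, Finset.sum_mul]
      congr 1
      refine Finset.sum_congr rfl fun j _ => ?_
      ring
  cas_nonneg l := by
    refine div_nonneg (add_nonneg ?_ ?_) hβ.le
    · exact Finset.sum_nonneg fun i _ => mul_self_nonneg _
    · have h1 : dot l.1 S.rho2 = ∑ b, dot l.1 (S.root b) := by
        unfold dot rho2
        simp_rw [Finset.mul_sum]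
        exact Finset.sum_comm
      rw [h1]
      refine Finset.sum_nonneg fun b _ => ?_
      obtain ⟨n, hn⟩ := S.co_root_nat l.2 b
      have h2 := S.root_sq_pos b
      have h3 : (0 : ℝ) ≤ n * dot (S.root b) (S.root b) := by positivity
      linarith

@[simp] lemma fam_φ (β : ℝ) (hβ : 0 < β) (l : {l // l ∈ S.wts}) :
    (S.fam β hβ).φ l = (S.phi l.1).1 := rfl

@[simp] lemma fam_d (β : ℝ) (hβ : 0 < β) (l : {l // l ∈ S.wts}) :
    (S.fam β hβ).d l = S.dm l.1 := rfl

lemma fam_w (β : ℝ) (hβ : 0 < β) (l : {l // l ∈ S.wts}) (i : Fin r) :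
    ((S.fam β hβ).w l i : ℝ) = S.co l.1 i := by
  exact (S.co_eq_choose l.2 i).symm

end LGD

end STC
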