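import Pool.Agent.STC.HWPhi

/-!
# STC/HWFin: (F3) `HW l` is finite dimensional and spanned by the left translates of `φ_l`

PROOF. `l ∉ wts`: `HW l = ⊥`. Let `l ∈ wts`, `V₀` = span of `{L x (phi l)}`: finite dimensional (inside
the space `W` of the field `finite` for `phi l`), left invariant, `V₀ ≤ HW l` (`HW_L`). Let `f ∈ HW l`,
`g ∈ V₀` its projection (`exists_proj`), `u = f - g ∈ HW l`, `u ⊥ V₀`. Let `V₁` = span of `{L x u}`;
`V₁ ⊥ V₀` because `ip (L x u) w = ip u (L x⁻¹ w)`. If `u ≠ 0` then `V₁ ≠ ⊥`, so `phi l ∈ V₁`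
(`phi_mem_of_inv`) and `phi l ∈ V₀`, hence `ip (phi l) (phi l) = 0`, `phi l = 0`, contradicting
`phi_one`. So `HW l = V₀`.
-/

open MeasureTheory
open scoped ComplexConjugate

namespace STC

namespace LGD

set_option linter.unusedSectionVars false

variable {K : Type} [Group K] [TopologicalSpace K] [IsTopologicalGroup K] [CompactSpace K] [T2Space K]
  [SecondCountableTopology K] [MeasureSpace K] [BorelSpace K]
  [Measure.IsHaarMeasure (volume : Measure K)] [IsProbabilityMeasure (volume : Measure K)]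
  {r M : ℕ} (S : LGD K r M)

private lemma L_L (x y : K) (f : S.A) : S.L x (S.L y f) = S.L (x * y) f := by
  apply Subtype.ext
  funext z
  show f.1 (y⁻¹ * (x⁻¹ * z)) = f.1 ((x * y)⁻¹ * z)
  rw [mul_inv_rev, mul_assoc]

private lemma L_one (f : S.A) : S.L 1 f = f := by
  apply Subtype.ext
  funext z
  show f.1 (1⁻¹ * z) = f.1 z
  rw [inv_one, one_mul]

private lemma span_L_inv (f : S.A) (x : K) (g : S.A)
    (hg : g ∈ Submodule.span ℂ (Set.range fun x : K => S.L x f)) :
    S.L x g ∈ Submodule.span ℂ (Set.range fun x : K => S.L x f) := by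
  induction hg using Submodule.span_induction with
  | mem g h =>
    obtain ⟨y, rfl⟩ := h
    exact Submodule.subset_span ⟨x * y, (S.L_L x y f).symm⟩
  | zero =>
    rw [map_zero]
    exact Submodule.zero_mem _
  | add g g' _ _ h h' =>
    rw [map_add]
    exact Submodule.add_mem _ h h'
  | smul c g _ h =>
    rw [map_smul]
    exact Submodule.smul_mem _ c h

private lemma span_L_le {l : Fin r → ℝ} {f : S.A} (hf : f ∈ S.HW l) :
    Submodule.span ℂ (Set.range fun x : K => S.L x f) ≤ S.HW l := by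
  rw [Submodule.span_le]
  rintro _ ⟨x, rfl⟩
  exact S.HW_L hf x

private lemma span_L_fin (f : S.A) :
    ∃ W : Submodule ℂ S.A, FiniteDimensional ℂ W ∧
      Submodule.span ℂ (Set.range fun x : K => S.L x f) ≤ W := by
  obtain ⟨W, hWf, hWm, hWL, -⟩ := S.finite f
  refine ⟨W, hWf, ?_⟩
  rw [Submodule.span_le]
  rintro _ ⟨x, rfl⟩
  exact hWL _ hWm x

lemma HW_eq_span {l : Fin r → ℝ} (hl : l ∈ S.wts) :
    S.HW l = Submodule.span ℂ (Set.range fun x : K => S.L x (S.phi l)) := by
  obtain ⟨V₀, hV₀⟩ : ∃ V₀, V₀ = Submodule.span ℂ (Set.range fun x : K => S.L x (S.phi l)) :=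
    ⟨_, rfl⟩
  have hle : V₀ ≤ S.HW l := by
    rw [hV₀]
    exact S.span_L_le (S.phi_mem hl)
  have hphi : S.phi l ∈ V₀ := by
    rw [hV₀]
    exact Submodule.subset_span ⟨1, S.L_one _⟩
  have hinv : ∀ x, ∀ f ∈ V₀, S.L x f ∈ V₀ := by
    intro x f hf
    rw [hV₀] at hf ⊢
    exact S.span_L_inv _ x f hf
  obtain ⟨W, hWf, hW⟩ := S.span_L_fin (S.phi l)
  rw [← hV₀] at hW ⊢
  have : FiniteDimensional ℂ V₀ := Submodule.finiteDimensional_of_le hW
  refine le_antisymm ?_ hle
  intro f hf
  obtain ⟨g, hg, hgp⟩ := S.exists_proj V₀ f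
  obtain ⟨u, hu⟩ : ∃ u, u = f - g := ⟨_, rfl⟩
  have huHW : u ∈ S.HW l := by
    rw [hu]
    exact Submodule.sub_mem _ hf (hle hg)
  rw [← hu] at hgp
  by_cases hu0 : u = 0
  · rw [hu0] at hu
    rw [sub_eq_zero.1 hu.symm]
    exact hg
  · exfalso
    have h1 : S.phi l ∈ Submodule.span ℂ (Set.range fun x : K => S.L x u) := by
      refine S.phi_mem_of_inv _ (S.span_L_le huHW) (fun x f hf => S.span_L_inv u x f hf) ?_
      intro h
      apply hu0
      have h2 : u ∈ Submodule.span ℂ (Set.range fun x : K => S.L x u) :=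
        Submodule.subset_span ⟨1, S.L_one _⟩
      rw [h] at h2
      exact (Submodule.mem_bot ℂ).1 h2
    have h2 : ∀ v ∈ Submodule.span ℂ (Set.range fun x : K => S.L x u), ∀ w ∈ V₀,
        S.ip v w = 0 := by
      intro v hv
      induction hv using Submodule.span_induction with
      | mem v h =>
        intro w hw
        obtain ⟨x, rfl⟩ := h
        show S.ip (S.L x u) w = 0
        have h3 := S.ip_L x⁻¹ (S.L x u) w
        rw [S.L_L, inv_mul_cancel, S.L_one] at h3
        rw [← h3]
        exact hgp _ (hinv _ w hw)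
      | zero =>
        intro w _
        have h3 := S.ip_smul_left 0 0 w
        rwa [zero_smul, zero_mul] at h3
      | add v v' _ _ h h' =>
        intro w hw
        rw [S.ip_add_left, h w hw, h' w hw, add_zero]
      | smul c v _ h =>
        intro w hw
        rw [S.ip_smul_left, h w hw, mul_zero]
    have h3 := S.ip_self_eq_zero (h2 _ h1 _ hphi)
    have h4 := S.phi_one hl
    rw [h3] at h4
    exact zero_ne_one h4

instance HW_finite (l : Fin r → ℝ) : FiniteDimensional ℂ (S.HW l) := by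
  by_cases hl : l ∈ S.wts
  · obtain ⟨W, hWf, hW⟩ := S.span_L_fin (S.phi l)
    rw [← S.HW_eq_span hl] at hW
    exact Submodule.finiteDimensional_of_le hW
  · have h : S.HW l = ⊥ := by
      by_contra h
      exact hl h
    rw [h]
    infer_instance

lemma dm_pos {l : Fin r → ℝ} (hl : l ∈ S.wts) : 0 < S.dm l := by
  have : Nontrivial (S.HW l) := Submodule.nontrivial_iff_ne_bot.2 hl
  show 0 < Module.finrank ℂ (S.HW l)
  exact Module.finrank_pos (R := ℂ) (M := S.HW l)

end LGD

end STC
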