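import Pool.Agent.STC.Haar

/-!
# STC/HWIp: the inner product `ip` on `A`, finite dimensional linear algebra

PROOF. `ip f g = ∫ f conj g` for continuous `f, g` on the compact space `K`; everything is integrable
(`int_of_cont`). `ip_self`: `f conj f = |f|² ≥ 0`; if the integral is `0` then `f = 0` by
`eq_zero_of_int`. `ip_L`, `ip_R`: invariance of the Haar measure (`int_left`, `int_right`); `ip_J` uses
`int_inv`. `ip_adj` is the field `adj`.

`exists_onb`, `exists_proj`, `joint_eig`: transport the structure to a genuine inner product space: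
for a finite dimensional submodule `W` of `A` build `InnerProductSpace.Core ℂ W` from `ip` (note that
Mathlib's inner product is conjugate linear in the FIRST variable: `inner f g = ip g f`), then use
`stdOrthonormalBasis`, orthogonal projection (or Gram-Schmidt, or induction on the dimension), and for
`joint_eig` the joint eigenspace theorem of `Mathlib/Analysis/InnerProductSpace/JointEigenspace.lean`
(`LinearMap.IsSymmetric.directSum_isInternal_of_pairwise_commute`) for the commuting symmetric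
operators `T k` restricted to `W`; the eigenvalues are real because the operators are symmetric.
Alternatively prove `joint_eig` by induction on `r` with the spectral theorem for one symmetric
operator.
-/

open MeasureTheory
open scoped ComplexConjugate

namespace STC

section Gen

variable {V : Type*} [AddCommGroup V] [Module ℂ V]

@[instance_reducible]
private noncomputable def hwipCore (B : V → V → ℂ) (hconj : ∀ f g, conj (B f g) = B g f)
    (hnn : ∀ f, 0 ≤ (B f f).re) (hadd : ∀ f g u, B (f + g) u = B f u + B g u)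
    (hsmul : ∀ (c : ℂ) f g, B (c • f) g = c * B f g) (hdef : ∀ f, B f f = 0 → f = 0) :
    InnerProductSpace.Core ℂ V where
  inner x y := B y x
  conj_inner_symm x y := hconj x y
  re_inner_nonneg x := hnn x
  add_left x y z := by
    show B z (x + y) = B z x + B z y
    rw [← hconj, hadd, map_add, hconj, hconj]
  smul_left x y c := by
    show B y (c • x) = conj c * B y x
    rw [← hconj, hsmul, map_mul, hconj]
  definite x h := hdef x h

private theorem hwip_onb [FiniteDimensional ℂ V] (B : V → V → ℂ)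
    (hconj : ∀ f g, conj (B f g) = B g f)
    (hnn : ∀ f, 0 ≤ (B f f).re) (hadd : ∀ f g u, B (f + g) u = B f u + B g u)
    (hsmul : ∀ (c : ℂ) f g, B (c • f) g = c * B f g) (hdef : ∀ f, B f f = 0 → f = 0) :
    ∃ e : Fin (Module.finrank ℂ V) → V, (∀ i j, B (e i) (e j) = if i = j then 1 else 0) ∧
      ∀ f, f = ∑ i, B f (e i) • e i := by
  let core := hwipCore B hconj hnn hadd hsmul hdef
  let _ : NormedAddCommGroup V := core.toNormedAddCommGroup
  let _ : InnerProductSpace ℂ V := InnerProductSpace.ofCore core.toCore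
  let b := stdOrthonormalBasis ℂ V
  refine ⟨fun i => b i, fun i j => ?_, fun f => ?_⟩
  · have h := (orthonormal_iff_ite.mp b.orthonormal) j i
    have h2 : B (b i) (b j) = inner ℂ (b j) (b i) := rfl
    rw [h2, h]
    simp only [eq_comm]
  · exact (b.sum_repr' f).symm

private theorem hwip_joint [FiniteDimensional ℂ V] (B : V → V → ℂ)
    (hconj : ∀ f g, conj (B f g) = B g f)
    (hnn : ∀ f, 0 ≤ (B f f).re) (hadd : ∀ f g u, B (f + g) u = B f u + B g u)
    (hsmul : ∀ (c : ℂ) f g, B (c • f) g = c * B f g) (hdef : ∀ f, B f f = 0 → f = 0)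
    {m : ℕ} (T : Fin m → (V →ₗ[ℂ] V)) (hT : ∀ j k f, T j (T k f) = T k (T j f))
    (hs : ∀ k f g, B (T k f) g = B f (T k g)) (f : V) :
    ∃ (s : Finset (Fin m → ℝ)) (u : (Fin m → ℝ) → V),
      (∀ c k, T k (u c) = (c k : ℂ) • u c) ∧ f = ∑ c ∈ s, u c := by
  let core := hwipCore B hconj hnn hadd hsmul hdef
  let _ : NormedAddCommGroup V := core.toNormedAddCommGroup
  let _ : InnerProductSpace ℂ V := InnerProductSpace.ofCore core.toCore
  have hsym : ∀ i, (T i).IsSymmetric := by
    intro i x y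
    show B y (T i x) = B (T i y) x
    exact (hs i y x).symm
  have hcomm : Pairwise (Function.onFun Commute T) := by
    intro i j _
    refine LinearMap.ext fun x => ?_
    exact hT i j x
  have htop := LinearMap.IsSymmetric.iSup_iInf_eq_top_of_commute hsym hcomm
  have hle : (⨆ χ : Fin m → ℂ, ⨅ i, Module.End.eigenspace (T i) (χ i)) ≤
      ⨆ c : Fin m → ℝ, ⨅ i, Module.End.eigenspace (T i) ((c i : ℝ) : ℂ) := by
    refine iSup_le fun χ => ?_
    by_cases hbot : (⨅ i, Module.End.eigenspace (T i) (χ i)) = ⊥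
    · rw [hbot]
      exact bot_le
    · obtain ⟨v, hv, hv0⟩ := Submodule.exists_mem_ne_zero_of_ne_bot hbot
      have hreal : ∀ i, (((χ i).re : ℝ) : ℂ) = χ i := by
        intro i
        have h1 : v ∈ Module.End.eigenspace (T i) (χ i) := (Submodule.mem_iInf _).1 hv i
        have h2 : Module.End.HasEigenvalue (T i) (χ i) :=
          Module.End.hasEigenvalue_of_hasEigenvector ⟨h1, hv0⟩
        have h3 := (hsym i).conj_eigenvalue_eq_self h2
        exact Complex.conj_eq_iff_re.1 h3
      refine le_trans (le_of_eq ?_) (le_iSup _ (fun i => (χ i).re))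
      refine iInf_congr fun i => ?_
      rw [hreal i]
  have hf : f ∈ ⨆ c : Fin m → ℝ, ⨅ i, Module.End.eigenspace (T i) ((c i : ℝ) : ℂ) := by
    apply hle
    rw [htop]
    exact Submodule.mem_top
  rw [Submodule.mem_iSup_iff_exists_finsupp] at hf
  obtain ⟨u, hu, hsum⟩ := hf
  refine ⟨u.support, fun c => u c, fun c k => ?_, hsum.symm⟩
  exact Module.End.mem_eigenspace_iff.1 ((Submodule.mem_iInf _).1 (hu c) k)

end Gen

namespace LGD

variable {K : Type} [Group K] [TopologicalSpace K] [IsTopologicalGroup K] [CompactSpace K] [T2Space K]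
  [SecondCountableTopology K] [MeasureSpace K] [BorelSpace K]
  [Measure.IsHaarMeasure (volume : Measure K)] [IsProbabilityMeasure (volume : Measure K)]
  {r M : ℕ} (S : LGD K r M)

lemma ip_add_left (f g u : S.A) : S.ip (f + g) u = S.ip f u + S.ip g u := by
  unfold ip
  have h1 : Integrable (fun z => f.1 z * conj (u.1 z)) :=
    int_of_cont ((S.cont f.1 f.2).mul (Complex.continuous_conj.comp (S.cont u.1 u.2)))
  have h2 : Integrable (fun z => g.1 z * conj (u.1 z)) :=
    int_of_cont ((S.cont g.1 g.2).mul (Complex.continuous_conj.comp (S.cont u.1 u.2)))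
  rw [← integral_add h1 h2]
  refine integral_congr_ae (Filter.Eventually.of_forall fun z => ?_)
  show (f.1 z + g.1 z) * conj (u.1 z) = f.1 z * conj (u.1 z) + g.1 z * conj (u.1 z)
  ring

lemma ip_smul_left (c : ℂ) (f g : S.A) : S.ip (c • f) g = c * S.ip f g := by
  unfold ip
  rw [← integral_const_mul]
  refine integral_congr_ae (Filter.Eventually.of_forall fun z => ?_)
  show (c * f.1 z) * conj (g.1 z) = c * (f.1 z * conj (g.1 z))
  ring

lemma ip_conj (f g : S.A) : conj (S.ip f g) = S.ip g f := by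
  unfold ip
  rw [← integral_conj]
  refine integral_congr_ae (Filter.Eventually.of_forall fun z => ?_)
  show conj (f.1 z * conj (g.1 z)) = g.1 z * conj (f.1 z)
  rw [map_mul, Complex.conj_conj]
  ring

lemma ip_add_right (f g u : S.A) : S.ip u (f + g) = S.ip u f + S.ip u g := by
  rw [← S.ip_conj, S.ip_add_left, map_add, S.ip_conj, S.ip_conj]

lemma ip_smul_right (c : ℂ) (f g : S.A) : S.ip f (c • g) = conj c * S.ip f g := by
  rw [← S.ip_conj, S.ip_smul_left, map_mul, S.ip_conj]

lemma ip_sum_left {ι : Type*} (s : Finset ι) (f : ι → S.A) (g : S.A) :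
    S.ip (∑ i ∈ s, f i) g = ∑ i ∈ s, S.ip (f i) g := by
  classical
  induction s using Finset.induction_on with
  | empty =>
    simp only [Finset.sum_empty]
    have h := S.ip_smul_left 0 (0 : S.A) g
    rw [zero_smul, zero_mul] at h
    exact h
  | insert a s ha ih =>
    rw [Finset.sum_insert ha, Finset.sum_insert ha, S.ip_add_left, ih]

lemma ip_sum_right {ι : Type*} (s : Finset ι) (f : ι → S.A) (g : S.A) :
    S.ip g (∑ i ∈ s, f i) = ∑ i ∈ s, S.ip g (f i) := by
  rw [← S.ip_conj, S.ip_sum_left, map_sum]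
  exact Finset.sum_congr rfl fun i _ => S.ip_conj _ _

private lemma hwip_self (f : S.A) : S.ip f f = ((∫ z, ‖f.1 z‖ ^ 2 : ℝ) : ℂ) := by
  unfold ip
  rw [← integral_complex_ofReal]
  refine integral_congr_ae (Filter.Eventually.of_forall fun z => ?_)
  show f.1 z * conj (f.1 z) = ((‖f.1 z‖ ^ 2 : ℝ) : ℂ)
  rw [Complex.mul_conj, Complex.normSq_eq_norm_sq]

lemma ip_self_nonneg (f : S.A) : 0 ≤ (S.ip f f).re := by
  rw [S.hwip_self f, Complex.ofReal_re]
  exact integral_nonneg fun z => by positivity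

lemma ip_self_im (f : S.A) : (S.ip f f).im = 0 := by
  rw [S.hwip_self f, Complex.ofReal_im]

lemma ip_self_eq_zero {f : S.A} (h : S.ip f f = 0) : f = 0 := by
  rw [S.hwip_self f] at h
  have h1 : ∫ z, ‖f.1 z‖ ^ 2 = 0 := by exact_mod_cast h
  have h2 := eq_zero_of_int (f := fun z => ‖f.1 z‖ ^ 2) ((S.cont f.1 f.2).norm.pow 2)
    (fun z => by positivity) h1
  refine Subtype.ext (funext fun z => ?_)
  have h3 := h2 z
  have h4 : ‖f.1 z‖ = 0 := by simpa using h3
  exact norm_eq_zero.1 h4

lemma ip_self_pos {f : S.A} (h : f ≠ 0) : 0 < (S.ip f f).re := by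
  refine lt_of_le_of_ne (S.ip_self_nonneg f) fun h1 => h ?_
  refine S.ip_self_eq_zero (Complex.ext ?_ ?_)
  · rw [← h1, Complex.zero_re]
  · rw [S.ip_self_im, Complex.zero_im]

lemma ip_L (x : K) (f g : S.A) : S.ip (S.L x f) (S.L x g) = S.ip f g := by
  unfold ip
  exact int_left (fun z => f.1 z * conj (g.1 z)) x⁻¹

lemma ip_R (y : K) (f g : S.A) : S.ip (S.R y f) (S.R y g) = S.ip f g := by
  unfold ip
  exact int_right (fun z => f.1 z * conj (g.1 z)) y

lemma ip_J (f g : S.A) : S.ip (S.J f) (S.J g) = S.ip f g := by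
  unfold ip
  exact int_inv (fun z => f.1 z * conj (g.1 z))

lemma ip_h (k : Fin r) (f g : S.A) : S.ip (S.h k f) g = S.ip f (S.h k g) := S.adj (Sum.inl k) f g

lemma ip_E (b : Fin M) (f g : S.A) : S.ip (S.E b f) g = S.ip f (S.F b g) := S.adj (Sum.inr (Sum.inl b)) f g

lemma ip_F (b : Fin M) (f g : S.A) : S.ip (S.F b f) g = S.ip f (S.E b g) := S.adj (Sum.inr (Sum.inr b)) f g

/-- orthonormal bases of finite dimensional subspaces -/
lemma exists_onb (W : Submodule ℂ S.A) [FiniteDimensional ℂ W] :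
    ∃ e : Fin (Module.finrank ℂ W) → S.A, (∀ i, e i ∈ W) ∧
      (∀ i j, S.ip (e i) (e j) = if i = j then 1 else 0) ∧
      ∀ f ∈ W, f = ∑ i, S.ip f (e i) • e i := by
  obtain ⟨e, he1, he2⟩ := hwip_onb (V := W) (fun f g => S.ip f.1 g.1)
    (fun f g => S.ip_conj _ _) (fun f => S.ip_self_nonneg _)
    (fun f g u => S.ip_add_left _ _ _) (fun c f g => S.ip_smul_left _ _ _)
    (fun f h => Subtype.ext (S.ip_self_eq_zero h))
  refine ⟨fun i => (e i).1, fun i => (e i).2, he1, fun f hf => ?_⟩
  have h := congrArg Subtype.val (he2 ⟨f, hf⟩)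
  rw [Submodule.coe_sum] at h
  exact h

/-- orthogonal projection to a finite dimensional subspace -/
lemma exists_proj (W : Submodule ℂ S.A) [FiniteDimensional ℂ W] (f : S.A) :
    ∃ g ∈ W, ∀ w ∈ W, S.ip (f - g) w = 0 := by
  obtain ⟨e, he, he1, he2⟩ := S.exists_onb W
  refine ⟨∑ i, S.ip f (e i) • e i, W.sum_mem fun i _ => W.smul_mem _ (he i), fun w hw => ?_⟩
  have h1 : ∀ j, S.ip (f - ∑ i, S.ip f (e i) • e i) (e j) = 0 := by
    intro j
    rw [sub_eq_add_neg, S.ip_add_left, ← neg_one_smul ℂ (∑ i, S.ip f (e i) • e i),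
      S.ip_smul_left, S.ip_sum_left]
    have h2 : ∑ i, S.ip (S.ip f (e i) • e i) (e j) = S.ip f (e j) := by
      rw [Finset.sum_eq_single j]
      · rw [S.ip_smul_left, he1, if_pos rfl, mul_one]
      · intro i _ hij
        rw [S.ip_smul_left, he1, if_neg hij, mul_zero]
      · intro hj
        exact absurd (Finset.mem_univ j) hj
    rw [h2]
    ring
  rw [he2 w hw, S.ip_sum_right]
  refine Finset.sum_eq_zero fun i _ => ?_
  rw [S.ip_smul_right, h1, mul_zero]

/-- joint diagonalisation of commuting symmetric operators -/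
lemma joint_eig {m : ℕ} (T : Fin m → (S.A →ₗ[ℂ] S.A)) (W : Submodule ℂ S.A) [FiniteDimensional ℂ W]
    (hW : ∀ k, ∀ f ∈ W, T k f ∈ W) (hT : ∀ j k, ∀ f ∈ W, T j (T k f) = T k (T j f))
    (hs : ∀ k, ∀ f ∈ W, ∀ g ∈ W, S.ip (T k f) g = S.ip f (T k g)) (f : S.A) (hf : f ∈ W) :
    ∃ (s : Finset (Fin m → ℝ)) (u : (Fin m → ℝ) → S.A), (∀ c, u c ∈ W) ∧
      (∀ c k, T k (u c) = (c k : ℂ) • u c) ∧ f = ∑ c ∈ s, u c := by
  obtain ⟨s, u, h1, h2⟩ := hwip_joint (V := W) (fun f g => S.ip f.1 g.1)
    (fun f g => S.ip_conj _ _) (fun f => S.ip_self_nonneg _)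
    (fun f g u => S.ip_add_left _ _ _) (fun c f g => S.ip_smul_left _ _ _)
    (fun f h => Subtype.ext (S.ip_self_eq_zero h))
    (fun k => (T k).restrict (hW k)) (fun j k f => Subtype.ext (hT j k f.1 f.2))
    (fun k f g => hs k f.1 f.2 g.1 g.2) ⟨f, hf⟩
  refine ⟨s, fun c => (u c).1, fun c => (u c).2, fun c k => congrArg Subtype.val (h1 c k), ?_⟩
  have h := congrArg Subtype.val h2
  rw [Submodule.coe_sum] at h
  exact h

end LGD

end STC
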