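import Mathlib

/-!
# STC/KernCount: counting representations `ν = n + n'` with `n, n'` in a box

`box L = ∏ [L_j - 1, 4 L_j - 1]`, `rep L ν` = number of `n ∈ box L` with `ν - n ∈ box L`.

PROOF. All statements factor over the coordinates (`Fintype.card_piFinset`, the filtered set is the
`piFinset` of the one-dimensional sets). One dimension, `L ≥ 1`, `I = [L-1, 4L-1]`, `|I| = 3L+1 ≤ 4L`.
Let `3L ≤ ν + 3 < 6L`. If `ν ≤ 5L - 2` then `n = L-1, ..., ν+1-L` all work (`ν - n ∈ [L-1, ν-L+1]`,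
`ν - L + 1 ≤ 4L - 1`): `ν - 2L + 3 ≥ L` values. If `ν ≥ 5L - 1` then `n = ν+1-4L, ..., 4L-1` all work:
`8L - 1 - ν ≥ 2L + 3` values (here `ν + 1 - 4L ≥ L`). If `n, ν - n ∈ I` then `2L - 2 ≤ ν ≤ 8L - 2`.
`sq_expand`: `(∑_{n ∈ B} x^n)² = ∑ ν rep(ν) x^ν`.
-/

namespace STC

/-- the box `∏ [L_j - 1, 4 L_j - 1]` -/
def box {r : ℕ} (L : Fin r → ℕ) : Finset (Fin r → ℕ) :=
  Fintype.piFinset fun j => Finset.Icc (L j - 1) (4 * L j - 1)

/-- the number of representations `ν = n + n'` with `n, n' ∈ box L` -/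
def nrep {r : ℕ} (L ν : Fin r → ℕ) : ℕ :=
  ((box L ×ˢ box L).filter fun x => x.1 + x.2 = ν).card

/-- the set of all sums -/
def sums {r : ℕ} (L : Fin r → ℕ) : Finset (Fin r → ℕ) :=
  Fintype.piFinset fun j => Finset.Icc (2 * L j - 2) (8 * L j - 2)

/-- the middle set -/
def mids {r : ℕ} (L : Fin r → ℕ) : Finset (Fin r → ℕ) :=
  Fintype.piFinset fun j => Finset.Ico (3 * L j - 3) (6 * L j - 3)

variable {r : ℕ} (L : Fin r → ℕ) (hL : ∀ j, 1 ≤ L j)

include hL

lemma card_box : (box L).card ≤ 4 ^ r * ∏ j, L j := by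
  unfold box
  have h4 : (4 : ℕ) ^ r = ∏ _j : Fin r, 4 := by simp
  rw [Fintype.card_piFinset, h4, ← Finset.prod_mul_distrib]
  apply Finset.prod_le_prod'
  intro j _
  rw [Nat.card_Icc]
  have := hL j
  omega

lemma box_card_pos : 0 < (box L).card := by
  unfold box
  rw [Fintype.card_piFinset]
  apply Finset.prod_pos
  intro j _
  rw [Nat.card_Icc]
  have := hL j
  omega

lemma nrep_ge {ν : Fin r → ℕ} (hν : ν ∈ mids L) : ∏ j, L j ≤ nrep L ν := by
  classical
  let lo : Fin r → ℕ := fun j => if ν j ≤ 5 * L j - 2 then L j - 1 else ν j + 1 - 4 * L j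
  have hν' : ∀ j, 3 * L j - 3 ≤ ν j ∧ ν j < 6 * L j - 3 := by
    intro j
    have := (Fintype.mem_piFinset.mp hν) j
    exact Finset.mem_Ico.mp this
  have key : ∀ j, ∀ n, lo j ≤ n → n ≤ lo j + L j - 1 →
      L j - 1 ≤ n ∧ n ≤ 4 * L j - 1 ∧ n ≤ ν j ∧ L j - 1 ≤ ν j - n ∧ ν j - n ≤ 4 * L j - 1 := by
    intro j n h1 h2
    have h3 := hν' j
    have h4 := hL j
    simp only [lo] at h1 h2
    split_ifs at h1 h2 with h
    · omega
    · omega
  have hcard : (Fintype.piFinset fun j => Finset.Icc (lo j) (lo j + L j - 1)).card = ∏ j, L j := by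
    rw [Fintype.card_piFinset]
    apply Finset.prod_congr rfl
    intro j _
    rw [Nat.card_Icc]
    have := hL j
    omega
  rw [← hcard]
  unfold nrep
  apply Finset.card_le_card_of_injOn (fun n => (n, ν - n))
  · intro n hn
    have hn' : ∀ j, lo j ≤ n j ∧ n j ≤ lo j + L j - 1 := by
      intro j
      exact Finset.mem_Icc.mp ((Fintype.mem_piFinset.mp (Finset.mem_coe.mp hn)) j)
    have hk : ∀ j, L j - 1 ≤ n j ∧ n j ≤ 4 * L j - 1 ∧ n j ≤ ν j ∧ L j - 1 ≤ ν j - n j ∧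
        ν j - n j ≤ 4 * L j - 1 := fun j => key j (n j) (hn' j).1 (hn' j).2
    rw [Finset.mem_coe, Finset.mem_filter, Finset.mem_product]
    refine ⟨⟨?_, ?_⟩, ?_⟩
    · unfold box
      rw [Fintype.mem_piFinset]
      intro j
      rw [Finset.mem_Icc]
      exact ⟨(hk j).1, (hk j).2.1⟩
    · unfold box
      rw [Fintype.mem_piFinset]
      intro j
      rw [Finset.mem_Icc]
      exact ⟨(hk j).2.2.2.1, (hk j).2.2.2.2⟩
    · funext j
      simp only [Pi.add_apply, Pi.sub_apply]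
      have := (hk j).2.2.1
      omega
  · intro n _ n' _ h
    exact (Prod.mk.inj h).1

lemma nrep_le (ν : Fin r → ℕ) : nrep L ν ≤ (box L).card := by
  classical
  unfold nrep
  apply Finset.card_le_card_of_injOn Prod.fst
  · intro x hx
    rw [Finset.mem_coe, Finset.mem_filter, Finset.mem_product] at hx
    exact hx.1.1
  · intro x hx y hy h
    rw [Finset.mem_coe, Finset.mem_filter] at hx hy
    have h1 : x.1 + x.2 = y.1 + y.2 := hx.2.trans hy.2.symm
    rw [h] at h1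
    exact Prod.ext h (add_left_cancel h1)

lemma mids_sub : mids L ⊆ sums L := by
  intro ν hν
  unfold mids at hν
  unfold sums
  rw [Fintype.mem_piFinset] at hν ⊢
  intro j
  have h1 := Finset.mem_Ico.mp (hν j)
  have h2 := hL j
  rw [Finset.mem_Icc]
  omega

lemma add_mem_sums {n n' : Fin r → ℕ} (hn : n ∈ box L) (hn' : n' ∈ box L) : n + n' ∈ sums L := by
  unfold box at hn hn'
  unfold sums
  rw [Fintype.mem_piFinset] at hn hn' ⊢
  intro j
  have h1 := Finset.mem_Icc.mp (hn j)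
  have h2 := Finset.mem_Icc.mp (hn' j)
  have h3 := hL j
  rw [Finset.mem_Icc, Pi.add_apply]
  omega

lemma sq_expand {A : Type*} [CommRing A] (f : (Fin r → ℕ) → A)
    (hf : ∀ n n', f n * f n' = f (n + n')) :
    (∑ n ∈ box L, f n) ^ 2 = ∑ ν ∈ sums L, (nrep L ν : A) * f ν := by
  classical
  rw [sq, Finset.sum_mul_sum, ← Finset.sum_product']
  have h1 : ∀ x ∈ box L ×ˢ box L, x.1 + x.2 ∈ sums L := by
    intro x hx
    rw [Finset.mem_product] at hx
    exact add_mem_sums L hL hx.1 hx.2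
  rw [← Finset.sum_fiberwise_of_maps_to h1]
  apply Finset.sum_congr rfl
  intro ν _
  unfold nrep
  rw [Finset.sum_congr rfl (g := fun _ => f ν), Finset.sum_const, nsmul_eq_mul]
  intro x hx
  rw [Finset.mem_filter] at hx
  rw [hf, hx.2]

omit hL in
/-- dyadic cover: every `n` lies in the middle set of some dyadic `L ≤ N + 1` -/
lemma mids_cover (N : ℕ) (n : Fin r → ℕ) (hn : ∀ j, n j ≤ N) :
    ∃ k : Fin r → ℕ, (∀ j, 2 ^ k j ≤ N + 1) ∧ n ∈ mids fun j => 2 ^ k j := by
  refine ⟨fun j => Nat.log 2 ((n j + 3) / 3), ?_, ?_⟩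
  · intro j
    have h1 : (n j + 3) / 3 ≠ 0 := by
      have : 3 ≤ n j + 3 := by omega
      have := Nat.div_pos this (by norm_num)
      omega
    have h2 := Nat.pow_log_le_self 2 h1
    have h3 := hn j
    calc 2 ^ Nat.log 2 ((n j + 3) / 3) ≤ (n j + 3) / 3 := h2
      _ ≤ N + 1 := by omega
  · unfold mids
    rw [Fintype.mem_piFinset]
    intro j
    have h1 : (n j + 3) / 3 ≠ 0 := by
      have : 3 ≤ n j + 3 := by omega
      have := Nat.div_pos this (by norm_num)
      omega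
    have h2 := Nat.pow_log_le_self 2 h1
    have h3 := Nat.lt_pow_succ_log_self (b := 2) (by norm_num) ((n j + 3) / 3)
    rw [Nat.pow_succ] at h3
    rw [Finset.mem_Ico]
    dsimp only
    generalize 2 ^ Nat.log 2 ((n j + 3) / 3) = q at h2 h3 ⊢
    omega

end STC
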