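import Pool.Agent.STC.HWDim

/-!
# STC/KernNorm: the `L¹` norm of `φ_t F²`

PROOF. `|φ_t| ≤ 1` (`phi_le`), so the left side is at most `∫ |F|² = ip F F` with
`F = ∑_{n ∈ B} φ_{σ n}`, `σ n = ∑ n_j s_j`. By `HW_orth` (the weights `σ n` are distinct: `co (σ n) i =
n_i m_i` with `m_i > 0`, `co_s`) `ip F F = ∑ ip (φ_{σ n}) (φ_{σ n}) = ∑ 1/dm (σ n)` (`phi_norm`).
`sum_s_mem_wts` with `t = 0` (`zero_mem_wts`) gives `σ n ∈ wts`.
-/

open MeasureTheory
open scoped ComplexConjugate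

namespace STC

namespace LGD

variable {K : Type} [Group K] [TopologicalSpace K] [IsTopologicalGroup K] [CompactSpace K] [T2Space K]
  [SecondCountableTopology K] [MeasureSpace K] [BorelSpace K]
  [Measure.IsHaarMeasure (volume : Measure K)] [IsProbabilityMeasure (volume : Measure K)]
  {r M : ℕ} (S : LGD K r M)

/-- `σ n = ∑ n_j s_j` -/
noncomputable def sig (n : Fin r → ℕ) : Fin r → ℝ := ∑ j, (n j : ℝ) • S.s j

lemma sig_mem_wts (n : Fin r → ℕ) : S.sig n ∈ S.wts := by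
  have h := S.sum_s_mem_wts S.zero_mem_wts n
  rw [zero_add] at h
  exact h

lemma sig_inj : Function.Injective S.sig := by
  intro n n' h
  funext i
  choose m hm hco using S.co_s
  have key : ∀ q : Fin r → ℕ, S.co (S.sig q) i = (q i : ℝ) * m i := by
    intro q
    have h1 : S.co (S.sig q) i = ∑ j, (q j : ℝ) * S.co (S.s j) i := by
      unfold co sig
      rw [dot_sum_left, Finset.mul_sum, Finset.sum_div]
      apply Finset.sum_congr rfl
      intro j _
      rw [dot_smul_left]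
      ring
    rw [h1, Finset.sum_eq_single i]
    · rw [hco i i, if_pos rfl]
    · intro j _ hj
      rw [hco j i, if_neg (Ne.symm hj), mul_zero]
    · intro hi
      exact absurd (Finset.mem_univ i) hi
  have h2 : (n i : ℝ) * m i = (n' i : ℝ) * m i := by
    rw [← key n, ← key n', h]
  have h3 : (m i : ℝ) ≠ 0 := by
    have := hm i
    positivity
  exact_mod_cast mul_right_cancel₀ h3 h2

lemma sig_add (n n' : Fin r → ℕ) : S.sig (n + n') = S.sig n + S.sig n' := by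
  unfold sig
  rw [← Finset.sum_add_distrib]
  apply Finset.sum_congr rfl
  intro j _
  rw [← add_smul, Pi.add_apply]
  push_cast
  rfl

lemma phi_sig_mul (n n' : Fin r → ℕ) : S.phi (S.sig n) * S.phi (S.sig n') = S.phi (S.sig (n + n')) := by
  rw [S.sig_add, S.phi_add (S.sig_mem_wts n) (S.sig_mem_wts n')]

lemma norm_F_le {t : Fin r → ℝ} (ht : t ∈ S.wts) (B : Finset (Fin r → ℕ)) :
    ∫ x, ‖(S.phi t).1 x * (∑ n ∈ B, (S.phi (S.sig n)).1 x) ^ 2‖ ≤ ∑ n ∈ B, 1 / (S.dm (S.sig n) : ℝ) := by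
  classical
  set F : S.A := ∑ n ∈ B, S.phi (S.sig n) with hF
  have hFx : ∀ x, F.1 x = ∑ n ∈ B, (S.phi (S.sig n)).1 x := by
    intro x
    rw [hF]
    have : ((∑ n ∈ B, S.phi (S.sig n) : S.A) : K → ℂ) = ∑ n ∈ B, ((S.phi (S.sig n) : S.A) : K → ℂ) :=
      map_sum S.A.val _ _
    rw [this, Finset.sum_apply]
  have hFc : Continuous F.1 := S.cont F.1 F.2
  have hpc : Continuous (S.phi t).1 := S.cont _ (S.phi t).2
  have h1 : ∫ x, ‖(S.phi t).1 x * (∑ n ∈ B, (S.phi (S.sig n)).1 x) ^ 2‖ ≤ ∫ x, ‖F.1 x‖ ^ 2 := by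
    apply integral_mono
    · have : Continuous fun x => ‖(S.phi t).1 x * (∑ n ∈ B, (S.phi (S.sig n)).1 x) ^ 2‖ := by
        have h : (fun x => ‖(S.phi t).1 x * (∑ n ∈ B, (S.phi (S.sig n)).1 x) ^ 2‖) =
            fun x => ‖(S.phi t).1 x * (F.1 x) ^ 2‖ := by
          funext x
          rw [hFx]
        rw [h]
        exact (hpc.mul (hFc.pow 2)).norm
      exact this.integrable_of_hasCompactSupport (HasCompactSupport.of_compactSpace _)
    · exact (hFc.norm.pow 2).integrable_of_hasCompactSupport (HasCompactSupport.of_compactSpace _)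
    · intro x
      dsimp only
      rw [← hFx, norm_mul, norm_pow]
      have h2 := S.phi_le ht x
      have h3 : 0 ≤ ‖F.1 x‖ ^ 2 := by positivity
      calc ‖(S.phi t).1 x‖ * ‖F.1 x‖ ^ 2 ≤ 1 * ‖F.1 x‖ ^ 2 := mul_le_mul_of_nonneg_right h2 h3
        _ = ‖F.1 x‖ ^ 2 := one_mul _
  have hself : ∀ f : S.A, S.ip f f = ((∫ z, ‖f.1 z‖ ^ 2 : ℝ) : ℂ) := by
    intro f
    unfold ip
    rw [← integral_complex_ofReal]
    refine integral_congr_ae (Filter.Eventually.of_forall fun z => ?_)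
    show f.1 z * conj (f.1 z) = ((‖f.1 z‖ ^ 2 : ℝ) : ℂ)
    rw [Complex.mul_conj, Complex.normSq_eq_norm_sq]
  have h2 : ((∫ x, ‖F.1 x‖ ^ 2 : ℝ) : ℂ) = ((∑ n ∈ B, 1 / (S.dm (S.sig n) : ℝ) : ℝ) : ℂ) := by
    rw [← hself F, hF, S.ip_sum_left]
    rw [Complex.ofReal_sum]
    apply Finset.sum_congr rfl
    intro n hn
    rw [S.ip_sum_right, Finset.sum_eq_single n]
    · rw [hself, S.phi_norm (S.sig_mem_wts n)]
    · intro n' _ hne
      apply S.HW_orth _ (S.phi_mem (S.sig_mem_wts n)) (S.phi_mem (S.sig_mem_wts n'))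
      intro h
      exact hne (S.sig_inj h).symm
    · intro h
      exact absurd hn h
  have h3 : ∫ x, ‖F.1 x‖ ^ 2 = ∑ n ∈ B, 1 / (S.dm (S.sig n) : ℝ) := by
    exact_mod_cast h2
  rw [← h3]
  exact h1

end LGD

end STC
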