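import Pool.Agent.STC.HWDim

/-!
# STC/KernSum: the sum of `D^θ` over the dyadic boxes

`DL L = ∏_b max_{j ∈ supp b} L_j`.

PROOF. For `i : Fin r` choose `b i` with `root (b i) = sim i` (`sim_root`); the support of `coef (b i)`
is `{i}` (`coef_sim`), so `mx L (b i) = L i`, and `b` is injective (`sim` is injective, being linearly
independent). For the other `b` we have `mx L b ≤ N + 1` if all `L j ≤ N + 1`. So
`DL L ≤ (∏_i L_i) (N+1)^(M - r)` and `∑_k (DL 2^k)^θ ≤ (N+1)^((M-r)θ) ∏_i ∑_{2^{k} ≤ N+1} 2^{kθ}`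
(`Finset.prod_univ_sum`), and `∑_{2^k ≤ N+1} 2^{kθ} ≤ (N+1)^θ / (1 - 2^{-θ})` (geometric sum).
-/

open MeasureTheory
open scoped ComplexConjugate

namespace STC

namespace LGD

variable {K : Type} [Group K] [TopologicalSpace K] [IsTopologicalGroup K] [CompactSpace K] [T2Space K]
  [SecondCountableTopology K] [MeasureSpace K] [BorelSpace K]
  [Measure.IsHaarMeasure (volume : Measure K)] [IsProbabilityMeasure (volume : Measure K)]
  {r M : ℕ} (S : LGD K r M)

/-- the size `∏_b max_{j ∈ supp b} L_j` of the dimension on the box `L` -/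
def DL (L : Fin r → ℕ) : ℕ := ∏ b, S.mx L b

omit [IsTopologicalGroup K] [CompactSpace K] [T2Space K]
  [SecondCountableTopology K] [BorelSpace K]
  [Measure.IsHaarMeasure (volume : Measure K)] [IsProbabilityMeasure (volume : Measure K)] in
private lemma kernSum_supp (b : Fin M) : ∃ j, 0 < S.coef b j := by
  by_contra h
  push Not at h
  have h1 : S.root b = 0 := by
    rw [S.root_eq b]
    apply Finset.sum_eq_zero
    intro i _
    have : S.coef b i = 0 := Nat.le_zero.mp (h i)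
    rw [this]
    simp
  have h2 := S.root_pos b
  rw [h1] at h2
  simp [dot] at h2

omit [IsTopologicalGroup K] [CompactSpace K] [T2Space K]
  [SecondCountableTopology K] [BorelSpace K]
  [Measure.IsHaarMeasure (volume : Measure K)] [IsProbabilityMeasure (volume : Measure K)] in
private lemma kernSum_le_mx {L : Fin r → ℕ} {b : Fin M} {j : Fin r} (hj : 0 < S.coef b j) :
    L j ≤ S.mx L b := by
  unfold mx
  exact Finset.le_sup (f := L) (Finset.mem_filter.mpr ⟨Finset.mem_univ j, hj⟩)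

lemma one_le_DL {L : Fin r → ℕ} (hL : ∀ j, 1 ≤ L j) : 1 ≤ S.DL L := by
  unfold DL
  apply Finset.one_le_prod'
  intro b _
  obtain ⟨j, hj⟩ := kernSum_supp S b
  exact le_trans (hL j) (kernSum_le_mx S hj)

private lemma kernSum_DL_le {L : Fin r → ℕ} {N : ℕ} (hN : ∀ j, L j ≤ N + 1) :
    r ≤ M ∧ S.DL L ≤ (∏ i, L i) * (N + 1) ^ (M - r) := by
  classical
  choose b hb using S.sim_root
  have hinj : Function.Injective b := by
    intro i j hij
    apply S.sim_indep.injective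
    rw [← hb i, ← hb j, hij]
  have hmx : ∀ i, S.mx L (b i) = L i := by
    intro i
    unfold mx
    have : (Finset.univ.filter fun j => 0 < S.coef (b i) j) = {i} := by
      ext j
      rw [Finset.mem_filter, Finset.mem_singleton, S.coef_sim (hb i) j]
      by_cases h : j = i
      · simp [h]
      · simp [h]
    rw [this, Finset.sup_singleton]
  have hle : ∀ c, S.mx L c ≤ N + 1 := by
    intro c
    unfold mx
    apply Finset.sup_le
    intro j _
    exact hN j
  have hrM : r ≤ M := by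
    have := Fintype.card_le_of_injective b hinj
    simpa using this
  refine ⟨hrM, ?_⟩
  unfold DL
  rw [← Finset.prod_sdiff (Finset.subset_univ (Finset.univ.image b)), mul_comm]
  apply Nat.mul_le_mul
  · rw [Finset.prod_image (fun x _ y _ h => hinj h)]
    exact le_of_eq (Finset.prod_congr rfl fun i _ => hmx i)
  · have hc : (Finset.univ \ Finset.univ.image b).card = M - r := by
      rw [Finset.card_sdiff_of_subset (Finset.subset_univ _), Finset.card_image_of_injective _ hinj]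
      simp
    rw [← hc]
    exact Finset.prod_le_pow_card _ _ _ fun c _ => hle c

private lemma kernSum_geom {θ : ℝ} (hθ : 0 < θ) (N : ℕ) :
    ∑ k ∈ Finset.range (Nat.log 2 (N + 1) + 1), ((2 : ℝ) ^ k) ^ θ ≤
      ((2 : ℝ) ^ θ / ((2 : ℝ) ^ θ - 1)) * ((N : ℝ) + 1) ^ θ := by
  have hq : 1 < (2 : ℝ) ^ θ := Real.one_lt_rpow (by norm_num) hθ
  have hk : ∀ k : ℕ, ((2 : ℝ) ^ k) ^ θ = ((2 : ℝ) ^ θ) ^ k := by
    intro k
    rw [← Real.rpow_natCast, ← Real.rpow_natCast, ← Real.rpow_mul (by norm_num),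
      ← Real.rpow_mul (by norm_num), mul_comm]
  have h1 : ∑ k ∈ Finset.range (Nat.log 2 (N + 1) + 1), ((2 : ℝ) ^ k) ^ θ =
      ∑ k ∈ Finset.range (Nat.log 2 (N + 1) + 1), ((2 : ℝ) ^ θ) ^ k :=
    Finset.sum_congr rfl fun k _ => hk k
  rw [h1, geom_sum_eq (ne_of_gt hq)]
  have h2 : ((2 : ℝ) ^ θ) ^ (Nat.log 2 (N + 1)) ≤ ((N : ℝ) + 1) ^ θ := by
    rw [← hk]
    apply Real.rpow_le_rpow (by positivity) _ hθ.le
    have := Nat.pow_log_le_self 2 (x := N + 1) (by omega)
    exact_mod_cast this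
  have h3 : 0 < (2 : ℝ) ^ θ - 1 := by linarith
  rw [div_mul_eq_mul_div]
  apply (div_le_div_iff_of_pos_right h3).mpr
  rw [pow_succ]
  have h4 : ((2 : ℝ) ^ θ) ^ (Nat.log 2 (N + 1)) * (2 : ℝ) ^ θ ≤ ((N : ℝ) + 1) ^ θ * (2 : ℝ) ^ θ :=
    mul_le_mul_of_nonneg_right h2 (by linarith)
  linarith

lemma sum_DL {θ : ℝ} (hθ : 0 < θ) : ∃ C : ℝ, ∀ N : ℕ,
    ∑ k ∈ Fintype.piFinset (fun _ : Fin r => Finset.range (Nat.log 2 (N + 1) + 1)),
      (S.DL (fun j => 2 ^ k j) : ℝ) ^ θ ≤ C * ((N : ℝ) + 1) ^ ((M : ℝ) * θ) := by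
  classical
  set c : ℝ := (2 : ℝ) ^ θ / ((2 : ℝ) ^ θ - 1) with hc
  have hq : 1 < (2 : ℝ) ^ θ := Real.one_lt_rpow (by norm_num) hθ
  have hc0 : 0 ≤ c := div_nonneg (by linarith) (by linarith)
  refine ⟨c ^ r, fun N => ?_⟩
  set R := Finset.range (Nat.log 2 (N + 1) + 1) with hR
  have hN0 : (0 : ℝ) < (N : ℝ) + 1 := by positivity
  have hpow : ∀ k ∈ R, 2 ^ k ≤ N + 1 := by
    intro k hk
    rw [hR, Finset.mem_range] at hk
    calc 2 ^ k ≤ 2 ^ Nat.log 2 (N + 1) := Nat.pow_le_pow_right (by norm_num) (by omega)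
      _ ≤ N + 1 := Nat.pow_log_le_self 2 (by omega)
  have hrM : r ≤ M := (kernSum_DL_le S (L := fun _ => 1) (N := 0) (fun _ => le_refl _)).1
  have hterm : ∀ k ∈ Fintype.piFinset (fun _ : Fin r => R),
      (S.DL (fun j => 2 ^ k j) : ℝ) ^ θ ≤
        (∏ i, ((2 : ℝ) ^ k i) ^ θ) * ((N : ℝ) + 1) ^ (((M : ℝ) - r) * θ) := by
    intro k hk
    have hk' : ∀ j, 2 ^ k j ≤ N + 1 := fun j => hpow _ ((Fintype.mem_piFinset.mp hk) j)
    have h1 := (kernSum_DL_le S (L := fun j => 2 ^ k j) hk').2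
    have h2 : (S.DL (fun j => 2 ^ k j) : ℝ) ≤ (∏ i, (2 : ℝ) ^ k i) * ((N : ℝ) + 1) ^ (M - r) := by
      exact_mod_cast h1
    calc (S.DL (fun j => 2 ^ k j) : ℝ) ^ θ
        ≤ ((∏ i, (2 : ℝ) ^ k i) * ((N : ℝ) + 1) ^ (M - r)) ^ θ :=
          Real.rpow_le_rpow (by positivity) h2 hθ.le
      _ = (∏ i, ((2 : ℝ) ^ k i) ^ θ) * ((N : ℝ) + 1) ^ (((M : ℝ) - r) * θ) := by
          rw [Real.mul_rpow (Finset.prod_nonneg fun i _ => by positivity) (by positivity),
            ← Real.finsetProd_rpow _ _ (fun i _ => by positivity)]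
          congr 1
          rw [← Real.rpow_natCast, ← Real.rpow_mul hN0.le, Nat.cast_sub hrM]
  calc ∑ k ∈ Fintype.piFinset (fun _ : Fin r => R), (S.DL (fun j => 2 ^ k j) : ℝ) ^ θ
      ≤ ∑ k ∈ Fintype.piFinset (fun _ : Fin r => R),
          (∏ i, ((2 : ℝ) ^ k i) ^ θ) * ((N : ℝ) + 1) ^ (((M : ℝ) - r) * θ) :=
        Finset.sum_le_sum hterm
    _ = (∏ _i : Fin r, ∑ k ∈ R, ((2 : ℝ) ^ k) ^ θ) * ((N : ℝ) + 1) ^ (((M : ℝ) - r) * θ) := by
        rw [← Finset.sum_mul, Finset.prod_univ_sum]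
    _ ≤ (∏ _i : Fin r, (c * ((N : ℝ) + 1) ^ θ)) * ((N : ℝ) + 1) ^ (((M : ℝ) - r) * θ) := by
        apply mul_le_mul_of_nonneg_right _ (by positivity)
        apply Finset.prod_le_prod
        · intro i _
          apply Finset.sum_nonneg
          intro k _
          positivity
        · intro i _
          exact kernSum_geom hθ N
    _ = c ^ r * ((N : ℝ) + 1) ^ ((M : ℝ) * θ) := by
        rw [Finset.prod_const, Finset.card_univ, Fintype.card_fin, mul_pow, mul_assoc]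
        congr 1
        rw [← Real.rpow_natCast, ← Real.rpow_mul hN0.le, ← Real.rpow_add hN0]
        congr 1
        ring

end LGD

end STC
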