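import Pool.Agent.STC.HWFam
import Pool.Agent.STC.KernCount
import Pool.Agent.STC.KernSum
import Pool.Agent.STC.KernNorm

/-!
# STC/HWKern: (I) the kernel family of `K`

PROOF. Let `T` be the finite set of `exists_classes`, `c` from `dm_lower`, `C_t` from `dm_upper`.
PIECE for `t ∈ T` and `L = 2^k`, all `L j ≤ N + 1`: `D = DL L`, `B = box L`,
`supp` = the set of `t + sig ν`, `ν ∈ sums L`; `κ (t + sig ν) = (D/|B|) nrep L ν`;
`mid` = the set of `t + sig ν`, `ν ∈ mids L` (images under the injective map `ν ↦ t + sig ν` into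
`{l // l ∈ wts}`). `∑ κ_l φ_l = (D/|B|) φ_t F²`, `F = ∑_{n ∈ B} φ_{sig n}` (`sq_expand` for
`f n = φ_{sig n}(x)`, `phi_sig_mul`, `phi_add`).
`norm_le`: `norm_F_le`; for `n ∈ B`: `n j + 1 ≥ L j`, so `1 + mx n b ≥ mx L b` and
`dm (sig n) ≥ c ∏ (1 + mx n b) ≥ c D` (`dm_lower` with `t = 0`), so the norm is at most
`(D/|B|) |B| /(c D) = 1/c`.
`κ_ge`: `nrep ≥ ∏ L_j` (`nrep_ge`) and `|B| ≤ 4^r ∏ L_j`: `κ ≥ D/4^r`. `κ_le`: `nrep ≤ |B|`, `0 ≤ κ ≤ D`.
`d_le` on `mid`: `ν_j < 6 L_j`, so `1 + mx ν b ≤ 6 mx L b` (supports nonempty, `1 ≤ L j`, `ν_j + 1 ≤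
6 L_j`), `dm ≤ C_t 6^M D`. `le_d` on `supp`: `ν_j + 1 ≥ 2 L_j - 1 ≥ L_j`: `dm ≥ c D`.
`cover`: let `l ∈ wts` with `|w_l| ≤ N`; `l = t + sig n` (`exists_classes`), and
`co l j = co t j + n_j m_j ≥ n_j` (`co_s`, `co_nat`), so `n_j ≤ N`; `mids_cover`.
`w_le`: `co l j = co t j + ν_j m_j ≤ C (N + 1)` as `ν_j ≤ 6 (N + 1)`.
`sum_D`: the pieces are indexed by `T × {k | 2^k ≤ N + 1}` (an enumeration by `Fin (n N)`:
`Finset.equivFin` of the product finset, `k j ∈ range (Nat.log 2 (N+1) + 1)`), `sum_DL`.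
Take for `C` the maximum of the constants above (`1`, `1/c`, `4^r`, `C_t 6^M`, ...).
-/

open MeasureTheory
open scoped ComplexConjugate

namespace STC

namespace LGD

variable {K : Type} [Group K] [TopologicalSpace K] [IsTopologicalGroup K] [CompactSpace K] [T2Space K]
  [SecondCountableTopology K] [MeasureSpace K] [BorelSpace K]
  [Measure.IsHaarMeasure (volume : Measure K)] [IsProbabilityMeasure (volume : Measure K)]
  {r M : ℕ} (S : LGD K r M)

lemma hwk_supp (b : Fin M) : ∃ j, 0 < S.coef b j := by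
  by_contra h
  push Not at h
  have h1 : S.root b = 0 := by
    rw [S.root_eq b]
    apply Finset.sum_eq_zero
    intro i _
    have : S.coef b i = 0 := Nat.le_zero.mp (h i)
    rw [this]
    simp
  have h2 := S.root_pos b
  rw [h1] at h2
  simp [dot] at h2

lemma hwk_le_mx {L : Fin r → ℕ} {b : Fin M} {j : Fin r} (hj : 0 < S.coef b j) :
    L j ≤ S.mx L b := by
  unfold mx
  exact Finset.le_sup (f := L) (Finset.mem_filter.mpr ⟨Finset.mem_univ j, hj⟩)

lemma hwk_one_le_mx {L : Fin r → ℕ} (hL : ∀ j, 1 ≤ L j) (b : Fin M) : 1 ≤ S.mx L b := by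
  obtain ⟨j, hj⟩ := S.hwk_supp b
  exact le_trans (hL j) (S.hwk_le_mx hj)

lemma hwk_mx_lower {L n : Fin r → ℕ} (h : ∀ j, L j ≤ n j + 1) (b : Fin M) :
    S.mx L b ≤ 1 + S.mx n b := by
  unfold mx
  apply Finset.sup_le
  intro j hj
  have h1 : n j ≤ (Finset.univ.filter fun j => 0 < S.coef b j).sup n := Finset.le_sup (f := n) hj
  have h2 := h j
  omega

lemma hwk_mx_upper {L n : Fin r → ℕ} (hL : ∀ j, 1 ≤ L j) (h : ∀ j, n j + 1 ≤ 6 * L j)
    (b : Fin M) : 1 + S.mx n b ≤ 6 * S.mx L b := by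
  have h0 := S.hwk_one_le_mx hL b
  have h1 : S.mx n b ≤ 6 * S.mx L b - 1 := by
    have h2 : ∀ j ∈ (Finset.univ.filter fun j => 0 < S.coef b j), n j ≤ 6 * S.mx L b - 1 := by
      intro j hj
      have h3 := S.hwk_le_mx (L := L) (Finset.mem_filter.mp hj).2
      have h4 := h j
      omega
    exact Finset.sup_le h2
  omega

lemma hwk_DL_lower {c : ℝ} (hc : 0 < c)
    (hlow : ∀ t ∈ S.wts, ∀ n : Fin r → ℕ,
      c * ∏ b, (1 + (S.mx n b : ℝ)) ≤ S.dm (t + ∑ j, (n j : ℝ) • S.s j))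
    {t : Fin r → ℝ} (ht : t ∈ S.wts) {L n : Fin r → ℕ} (h : ∀ j, L j ≤ n j + 1) :
    c * (S.DL L : ℝ) ≤ S.dm (t + S.sig n) := by
  refine le_trans ?_ (hlow t ht n)
  apply mul_le_mul_of_nonneg_left _ hc.le
  unfold DL
  push_cast
  apply Finset.prod_le_prod
  · intro b _
    positivity
  · intro b _
    have := S.hwk_mx_lower h b
    exact_mod_cast this

lemma hwk_DL_upper {Ct : ℝ} (hCt : 0 < Ct) {t : Fin r → ℝ}
    (hup : ∀ n : Fin r → ℕ,
      (S.dm (t + ∑ j, (n j : ℝ) • S.s j) : ℝ) ≤ Ct * ∏ b, (1 + (S.mx n b : ℝ)))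
    {L n : Fin r → ℕ} (hL : ∀ j, 1 ≤ L j) (h : ∀ j, n j + 1 ≤ 6 * L j) :
    (S.dm (t + S.sig n) : ℝ) ≤ Ct * 6 ^ M * (S.DL L : ℝ) := by
  refine le_trans (hup n) ?_
  rw [mul_assoc]
  apply mul_le_mul_of_nonneg_left _ hCt.le
  have h6 : (6 : ℝ) ^ M = ∏ _b : Fin M, 6 := by simp
  unfold DL
  push_cast
  rw [h6, ← Finset.prod_mul_distrib]
  apply Finset.prod_le_prod
  · intro b _
    positivity
  · intro b _
    have := S.hwk_mx_upper hL h b
    exact_mod_cast this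

lemma hwk_co (t : Fin r → ℝ) (n : Fin r → ℕ) (i : Fin r) :
    S.co (t + S.sig n) i = S.co t i + ∑ j, (n j : ℝ) * S.co (S.s j) i := by
  unfold co sig
  rw [dot_add_left, dot_sum_left, mul_add, add_div]
  congr 1
  rw [Finset.mul_sum, Finset.sum_div]
  apply Finset.sum_congr rfl
  intro j _
  rw [dot_smul_left]
  ring

/-- The pieces for one class `t`, with constants independent of `L`. -/
theorem exists_piece (β : ℝ) (hβ : 0 < β) {t : Fin r → ℝ} (ht : t ∈ S.wts) :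
    ∃ C : ℝ, 1 ≤ C ∧ ∀ C' : ℝ, C ≤ C' → ∀ L : Fin r → ℕ, (∀ j, 1 ≤ L j) →
      ∃ P : Piece (S.fam β hβ) C', P.D = S.DL L ∧
        ∀ l : {l // l ∈ S.wts}, l ∈ P.mid ↔ ∃ n ∈ mids L, l.1 = t + S.sig n := by
  classical
  obtain ⟨c, hc0, hc⟩ := S.dm_lower
  obtain ⟨Ct, hCt0, hCt⟩ := S.dm_upper ht
  have h4r : (0 : ℝ) < 4 ^ r := by positivity
  have h1c : 0 < 1 / c := by positivity
  have hC6 : 0 < Ct * 6 ^ M := by positivity
  refine ⟨1 + 1 / c + 4 ^ r + Ct * 6 ^ M, by linarith, ?_⟩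
  intro C' hC' L hL
  have hC'1 : 1 ≤ C' := by linarith
  have hC'c : 1 / c ≤ C' := by linarith
  have hC'4 : (4 : ℝ) ^ r ≤ C' := by linarith
  have hC'6 : Ct * 6 ^ M ≤ C' := by linarith
  have hmem : ∀ ν : Fin r → ℕ, t + S.sig ν ∈ S.wts := fun ν => S.sum_s_mem_wts ht ν
  let e : (Fin r → ℕ) ↪ {l // l ∈ S.wts} :=
    ⟨fun ν => ⟨t + S.sig ν, hmem ν⟩, by
      intro ν ν' h
      have h1 : t + S.sig ν = t + S.sig ν' := congrArg Subtype.val h
      exact S.sig_inj (add_left_cancel h1)⟩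
  have he : ∀ ν, (e ν).1 = t + S.sig ν := fun ν => rfl
  have hinv : ∀ ν, Function.invFun e (e ν) = ν := Function.leftInverse_invFun e.injective
  set D : ℝ := (S.DL L : ℝ) with hD
  have hD1 : 1 ≤ D := by
    have := S.one_le_DL hL
    rw [hD]
    exact_mod_cast this
  have hB0 : (0 : ℝ) < ((box L).card : ℝ) := by
    have := box_card_pos L hL
    exact_mod_cast this
  have hDB : 0 ≤ D / ((box L).card : ℝ) := by positivity
  set κ : {l // l ∈ S.wts} → ℝ := fun l => D / ((box L).card : ℝ) * nrep L (Function.invFun e l)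
    with hκ
  have hκe : ∀ ν, κ (e ν) = D / ((box L).card : ℝ) * nrep L ν := by
    intro ν
    rw [hκ]
    dsimp only
    rw [hinv]
  have hκ0 : ∀ ν, 0 ≤ κ (e ν) := by
    intro ν
    rw [hκe]
    positivity
  refine ⟨⟨D, (sums L).map e, κ, (mids L).map e, hD1, ?_, ?_, ?_, ?_, ?_, ?_⟩, rfl, ?_⟩
  · exact Finset.map_subset_map.mpr (mids_sub L hL)
  · have h1 : ∀ x : K, ∑ l ∈ (sums L).map e, ((κ l : ℝ) : ℂ) * (S.fam β hβ).φ l x =
        ((D / ((box L).card : ℝ) : ℝ) : ℂ) *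
          ((S.phi t).1 x * (∑ n ∈ box L, (S.phi (S.sig n)).1 x) ^ 2) := by
      intro x
      rw [Finset.sum_map]
      rw [sq_expand L hL (fun n => (S.phi (S.sig n)).1 x)
        (fun n n' => congrFun (congrArg Subtype.val (S.phi_sig_mul n n')) x)]
      rw [Finset.mul_sum, Finset.mul_sum]
      apply Finset.sum_congr rfl
      intro ν _
      have h2 : (S.fam β hβ).φ (e ν) x = (S.phi t).1 x * (S.phi (S.sig ν)).1 x := by
        have h3 : S.phi (t + S.sig ν) = S.phi t * S.phi (S.sig ν) :=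
          S.phi_add ht (S.sig_mem_wts ν)
        exact congrFun (congrArg Subtype.val h3) x
      rw [h2, hκe]
      push_cast
      ring
    have h2 : ∀ x : K, ‖∑ l ∈ (sums L).map e, ((κ l : ℝ) : ℂ) * (S.fam β hβ).φ l x‖ =
        D / ((box L).card : ℝ) *
          ‖(S.phi t).1 x * (∑ n ∈ box L, (S.phi (S.sig n)).1 x) ^ 2‖ := by
      intro x
      rw [h1 x, norm_mul, Complex.norm_real, Real.norm_of_nonneg hDB]
    have h3 : ∫ x, ‖∑ l ∈ (sums L).map e, ((κ l : ℝ) : ℂ) * (S.fam β hβ).φ l x‖ =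
        D / ((box L).card : ℝ) *
          ∫ x, ‖(S.phi t).1 x * (∑ n ∈ box L, (S.phi (S.sig n)).1 x) ^ 2‖ := by
      rw [← integral_const_mul]
      exact integral_congr_ae (Filter.Eventually.of_forall fun x => h2 x)
    refine le_trans (le_of_eq h3) ?_
    have h4 := S.norm_F_le ht (box L)
    have h5 : ∑ n ∈ box L, 1 / (S.dm (S.sig n) : ℝ) ≤ ((box L).card : ℝ) * (1 / (c * D)) := by
      rw [← nsmul_eq_mul]
      apply Finset.sum_le_card_nsmul
      intro n hn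
      have h6 : c * D ≤ S.dm (S.sig n) := by
        have h7 : ∀ j, L j ≤ n j + 1 := by
          intro j
          unfold box at hn
          have h8 := Finset.mem_Icc.mp ((Fintype.mem_piFinset.mp hn) j)
          omega
        have h9 := S.hwk_DL_lower hc0 hc S.zero_mem_wts h7
        rw [zero_add] at h9
        exact h9
      exact one_div_le_one_div_of_le (by positivity) h6
    calc D / ((box L).card : ℝ) *
          ∫ x, ‖(S.phi t).1 x * (∑ n ∈ box L, (S.phi (S.sig n)).1 x) ^ 2‖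
        ≤ D / ((box L).card : ℝ) * (((box L).card : ℝ) * (1 / (c * D))) :=
          mul_le_mul_of_nonneg_left (h4.trans h5) hDB
      _ = 1 / c := by
          have hD0 : D ≠ 0 := by positivity
          field_simp
      _ ≤ C' := hC'c
  · intro l hl
    obtain ⟨ν, hν, rfl⟩ := Finset.mem_map.mp hl
    have h1 : (∏ j, (L j : ℝ)) ≤ (nrep L ν : ℝ) := by
      have := nrep_ge L hL hν
      exact_mod_cast this
    have h2 : ((box L).card : ℝ) ≤ 4 ^ r * ∏ j, (L j : ℝ) := by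
      have := card_box L hL
      exact_mod_cast this
    have h3 : D ≤ 4 ^ r * κ (e ν) := by
      rw [hκe]
      have h4 : ((box L).card : ℝ) ≤ 4 ^ r * (nrep L ν : ℝ) :=
        h2.trans (mul_le_mul_of_nonneg_left h1 h4r.le)
      calc D = D / ((box L).card : ℝ) * ((box L).card : ℝ) := by field_simp
        _ ≤ D / ((box L).card : ℝ) * (4 ^ r * (nrep L ν : ℝ)) :=
            mul_le_mul_of_nonneg_left h4 hDB
        _ = _ := by ring
    exact h3.trans (mul_le_mul_of_nonneg_right hC'4 (hκ0 ν))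
  · intro l hl
    obtain ⟨ν, hν, rfl⟩ := Finset.mem_map.mp hl
    have h1 : ∀ j, ν j + 1 ≤ 6 * L j := by
      intro j
      unfold mids at hν
      have := Finset.mem_Ico.mp ((Fintype.mem_piFinset.mp hν) j)
      omega
    have h2 := S.hwk_DL_upper hCt0 hCt hL h1
    refine le_trans h2 ?_
    exact mul_le_mul_of_nonneg_right hC'6 (by linarith)
  · intro l hl
    obtain ⟨ν, hν, rfl⟩ := Finset.mem_map.mp hl
    have h0 : |κ (e ν)| = D / ((box L).card : ℝ) * nrep L ν := by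
      rw [abs_of_nonneg (hκ0 ν), hκe]
    refine le_trans (le_of_eq h0) ?_
    have h1 : (nrep L ν : ℝ) ≤ ((box L).card : ℝ) := by
      have := nrep_le L hL ν
      exact_mod_cast this
    calc D / ((box L).card : ℝ) * (nrep L ν : ℝ)
        ≤ D / ((box L).card : ℝ) * ((box L).card : ℝ) := mul_le_mul_of_nonneg_left h1 hDB
      _ = 1 * D := by field_simp
      _ ≤ C' * D := mul_le_mul_of_nonneg_right hC'1 (by linarith)
  · intro l hl
    obtain ⟨ν, hν, rfl⟩ := Finset.mem_map.mp hl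
    have h1 : ∀ j, L j ≤ ν j + 1 := by
      intro j
      unfold sums at hν
      have h2 := Finset.mem_Icc.mp ((Fintype.mem_piFinset.mp hν) j)
      have h3 := hL j
      omega
    have h2 := S.hwk_DL_lower hc0 hc ht h1
    have h3 : D ≤ 1 / c * (S.dm (t + S.sig ν) : ℝ) := by
      rw [one_div, ← div_eq_inv_mul, le_div_iff₀ hc0]
      linarith
    refine h3.trans ?_
    exact mul_le_mul_of_nonneg_right hC'c (by positivity)
  · intro l
    show l ∈ (mids L).map e ↔ _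
    rw [Finset.mem_map]
    constructor
    · rintro ⟨ν, hν, rfl⟩
      exact ⟨ν, hν, rfl⟩
    · rintro ⟨ν, hν, h⟩
      exact ⟨ν, hν, Subtype.ext h.symm⟩

theorem exists_kern (β : ℝ) (hβ : 0 < β) : Nonempty (KernFam (S.fam β hβ) M) := by
  classical
  obtain ⟨T, hT, hcl⟩ := S.exists_classes
  choose m hm hco using S.co_s
  have hcosum : ∀ (t : Fin r → ℝ) (n : Fin r → ℕ) (i : Fin r),
      S.co (t + S.sig n) i = S.co t i + (n i : ℝ) * m i := by
    intro t n i
    rw [S.hwk_co]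
    congr 1
    rw [Finset.sum_eq_single i]
    · rw [hco i i, if_pos rfl]
    · intro j _ hj
      rw [hco j i, if_neg (Ne.symm hj), mul_zero]
    · intro hi
      exact absurd (Finset.mem_univ i) hi
  choose! Cp hCp1 hCp using fun (t : Fin r → ℝ) (ht : t ∈ S.wts) => S.exists_piece β hβ ht
  set Cw : ℝ := ∑ t ∈ T, ∑ j, (|S.co t j| + 6 * (m j : ℝ)) with hCw
  have hCw0 : 0 ≤ Cw := Finset.sum_nonneg fun t _ => Finset.sum_nonneg fun j _ => by positivity
  have hCp0 : ∀ t ∈ T, 0 ≤ Cp t := fun t ht => by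
    have := hCp1 t (hT t ht)
    linarith
  set C : ℝ := 1 + ∑ t ∈ T, Cp t + Cw with hC
  have hsumCp : 0 ≤ ∑ t ∈ T, Cp t := Finset.sum_nonneg hCp0
  have hCpC : ∀ t ∈ T, Cp t ≤ C := by
    intro t ht
    have := Finset.single_le_sum (f := Cp) hCp0 ht
    linarith
  have hP : ∀ t ∈ T, ∀ k : Fin r → ℕ, ∃ P : Piece (S.fam β hβ) C,
      P.D = S.DL (fun j => 2 ^ k j) ∧
        ∀ l : {l // l ∈ S.wts}, l ∈ P.mid ↔ ∃ n ∈ mids (fun j => 2 ^ k j), l.1 = t + S.sig n := by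
    intro t ht k
    exact hCp t (hT t ht) C (hCpC t ht) (fun j => 2 ^ k j) (fun j => Nat.one_le_two_pow)
  choose P hPD hPm using hP
  let I : ℕ → Finset ({t // t ∈ T} × (Fin r → ℕ)) := fun N =>
    T.attach ×ˢ Fintype.piFinset (fun _ : Fin r => Finset.range (Nat.log 2 (N + 1) + 1))
  refine ⟨⟨C, by linarith, fun N => (I N).card, fun N i =>
    P ((I N).equivFin.symm i).1.1.1 ((I N).equivFin.symm i).1.1.2 ((I N).equivFin.symm i).1.2,
    ?_, ?_, ?_⟩⟩
  · intro N l hl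
    obtain ⟨t, htT, n, hn⟩ := hcl l.1 l.2
    have hn' : l.1 = t + S.sig n := hn
    have hnN : ∀ j, n j ≤ N := by
      intro j
      have h1 := hl j
      rw [S.fam_w] at h1
      rw [hn', hcosum] at h1
      obtain ⟨a, ha⟩ := S.co_nat (hT t htT) j
      rw [ha] at h1
      have h2 : ((a : ℝ) + (n j : ℝ) * (m j : ℝ)) ≤ N := le_trans (le_abs_self _) h1
      have h3 : a + n j * m j ≤ N := by exact_mod_cast h2
      have h4 : n j ≤ n j * m j := Nat.le_mul_of_pos_right _ (hm j)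
      omega
    obtain ⟨k, hk1, hk2⟩ := mids_cover N n hnN
    have hmem : ((⟨t, htT⟩, k) : {t // t ∈ T} × (Fin r → ℕ)) ∈ I N := by
      rw [Finset.mem_product]
      refine ⟨Finset.mem_attach _ _, ?_⟩
      rw [Fintype.mem_piFinset]
      intro j
      rw [Finset.mem_range]
      have := Nat.le_log_of_pow_le (by norm_num) (hk1 j)
      dsimp only
      omega
    refine ⟨(I N).equivFin ⟨_, hmem⟩, ?_⟩
    refine (hPm _ _ _ l).mpr ?_
    simp only [Equiv.symm_apply_apply]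
    exact ⟨n, hk2, hn'⟩
  · intro N i l hl k
    obtain ⟨n, hn, hln⟩ := (hPm _ _ _ l).mp hl
    set x := (I N).equivFin.symm i with hx
    have hxm := x.2
    rw [Finset.mem_product] at hxm
    have h1 : 2 ^ (x.1.2 k) ≤ N + 1 := by
      have h2 := (Fintype.mem_piFinset.mp hxm.2) k
      rw [Finset.mem_range] at h2
      calc 2 ^ (x.1.2 k) ≤ 2 ^ Nat.log 2 (N + 1) := Nat.pow_le_pow_right (by norm_num) (by omega)
        _ ≤ N + 1 := Nat.pow_log_le_self 2 (by omega)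
    have h3 : n k ≤ 6 * (N + 1) := by
      unfold mids at hn
      have := Finset.mem_Ico.mp ((Fintype.mem_piFinset.mp hn) k)
      dsimp only at this
      omega
    rw [S.fam_w, hln, hcosum]
    have h4 : (n k : ℝ) ≤ 6 * ((N : ℝ) + 1) := by exact_mod_cast h3
    have hN1 : (1 : ℝ) ≤ (N : ℝ) + 1 := by
      have : (0 : ℝ) ≤ N := Nat.cast_nonneg N
      linarith
    have h5 : |S.co x.1.1.1 k + (n k : ℝ) * (m k : ℝ)| ≤
        (|S.co x.1.1.1 k| + 6 * (m k : ℝ)) * ((N : ℝ) + 1) := by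
      have h6 : |(n k : ℝ) * (m k : ℝ)| ≤ 6 * ((N : ℝ) + 1) * (m k : ℝ) := by
        rw [abs_of_nonneg (by positivity)]
        exact mul_le_mul_of_nonneg_right h4 (by positivity)
      have h7 : |S.co x.1.1.1 k| ≤ |S.co x.1.1.1 k| * ((N : ℝ) + 1) :=
        le_mul_of_one_le_right (abs_nonneg _) hN1
      calc |S.co x.1.1.1 k + (n k : ℝ) * (m k : ℝ)|
          ≤ |S.co x.1.1.1 k| + |(n k : ℝ) * (m k : ℝ)| := abs_add_le _ _
        _ ≤ |S.co x.1.1.1 k| * ((N : ℝ) + 1) + 6 * ((N : ℝ) + 1) * (m k : ℝ) :=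
            add_le_add h7 h6
        _ = _ := by ring
    refine h5.trans ?_
    apply mul_le_mul_of_nonneg_right _ (by linarith)
    have h8 : (|S.co x.1.1.1 k| + 6 * (m k : ℝ)) ≤ Cw := by
      have h9 : (|S.co x.1.1.1 k| + 6 * (m k : ℝ)) ≤
          ∑ j, (|S.co x.1.1.1 j| + 6 * (m j : ℝ)) :=
        Finset.single_le_sum (f := fun j => (|S.co x.1.1.1 j| + 6 * (m j : ℝ)))
          (fun j _ => by positivity) (Finset.mem_univ k)
      have h10 : ∑ j, (|S.co x.1.1.1 j| + 6 * (m j : ℝ)) ≤ Cw :=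
        Finset.single_le_sum (f := fun t => ∑ j, (|S.co t j| + 6 * (m j : ℝ)))
          (fun t _ => Finset.sum_nonneg fun j _ => by positivity) x.1.1.2
      linarith
    linarith
  · intro θ hθ
    obtain ⟨Cθ, hCθ⟩ := S.sum_DL hθ
    refine ⟨(T.card : ℝ) * Cθ, fun N => ?_⟩
    have h1 : ∑ i : Fin (I N).card, (P ((I N).equivFin.symm i).1.1.1 ((I N).equivFin.symm i).1.1.2
        ((I N).equivFin.symm i).1.2).D ^ θ =
        ∑ x ∈ I N, ((S.DL (fun j => 2 ^ x.2 j) : ℕ) : ℝ) ^ θ := by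
      rw [← Finset.sum_coe_sort (I N) (fun x => ((S.DL (fun j => 2 ^ x.2 j) : ℕ) : ℝ) ^ θ)]
      rw [← Equiv.sum_comp (I N).equivFin.symm]
      apply Finset.sum_congr rfl
      intro i _
      rw [hPD]
    have h2 : ∑ x ∈ I N, ((S.DL (fun j => 2 ^ x.2 j) : ℕ) : ℝ) ^ θ =
        (T.card : ℝ) * ∑ k ∈ Fintype.piFinset
          (fun _ : Fin r => Finset.range (Nat.log 2 (N + 1) + 1)),
            (S.DL (fun j => 2 ^ k j) : ℝ) ^ θ := by
      rw [Finset.sum_product]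
      dsimp only
      rw [Finset.sum_const, Finset.card_attach, nsmul_eq_mul]
    rw [h1, h2, mul_assoc]
    exact mul_le_mul_of_nonneg_left (hCθ N) (Nat.cast_nonneg _)

end LGD

end STC
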