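import Pool.Agent.STC.HWDefs

/-!
# STC/HWLow: words of lowering operators applied to a highest weight function

PROOF. Let `f ∈ HW l`. `h_word`: induction on the word, `⁅h k, F b⁆ = - root_b(k) F b`, i.e.
`h k (F b g) = F b (h k g) - root_b(k) F b g`. `D_low`: `low f` is stable under every `F b`
(prepend `b` to the word) and every `h k` (`h_word`). For `E b` show by induction on the length of the
word `w` that `E b (word w f) ∈ low f` for all `b`: for `w = []` it is `0`; and
`E b (F c g) = F c (E b g) + ⁅E b, F c⁆ g`, `g = word w f`: the first term is in `low f` by the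
induction hypothesis (`low f` is stable under `F c`), and `⁅E b, F c⁆` is a linear combination of
`h k`'s (if `b = c`, field `EF`) or of `E e`'s and `F e`'s (field `EFne`; if `D` is in the span of a set
of derivations each of which maps `g` into the submodule `low f`, then `D g ∈ low f`, by
`Submodule.span_induction`), and `E e g ∈ low f` by the induction hypothesis.
`Derivation.commutator_apply : ⁅D1, D2⁆ a = D1 (D2 a) - D2 (D1 a)`.
-/

open MeasureTheory
open scoped ComplexConjugate

namespace STC

namespace LGD

variable {K : Type} [Group K] [TopologicalSpace K] [MeasureSpace K] {r M : ℕ} (S : LGD K r M)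

lemma self_mem_low (f : S.A) : f ∈ S.low f :=
  Submodule.subset_span ⟨[], rfl⟩

lemma word_mem_low (f : S.A) (w : List (Fin M)) : S.word w f ∈ S.low f :=
  Submodule.subset_span ⟨w, rfl⟩

private lemma word_cons (f : S.A) (b : Fin M) (w : List (Fin M)) :
    S.word (b :: w) f = S.F b (S.word w f) := rfl

/-- weights of words -/
lemma h_word {l : Fin r → ℝ} {f : S.A} (hf : f ∈ S.HW l) (w : List (Fin M)) (k : Fin r) :
    S.h k (S.word w f) = ((l k - (w.map fun b => S.root b k).sum : ℝ) : ℂ) • S.word w f := by
  induction w with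
  | nil =>
    have h1 := hf.1 k
    show S.h k f = _
    rw [h1]
    simp [word]
  | cons b w ih =>
    have h1 : S.h k (S.F b (S.word w f)) - S.F b (S.h k (S.word w f)) =
        -((S.root b k : ℂ) • S.F b (S.word w f)) := by
      rw [← Derivation.commutator_apply, S.hF]
      rfl
    rw [word_cons, sub_eq_iff_eq_add.1 h1, ih, Derivation.map_smul, ← neg_smul, ← add_smul]
    congr 1
    rw [List.map_cons, List.sum_cons]
    push_cast
    ring

private lemma der_span (W : Submodule ℂ S.A) (g : S.A) (X : Set (Derivation ℂ S.A S.A))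
    (hX : ∀ D ∈ X, D g ∈ W) (D : Derivation ℂ S.A S.A) (hD : D ∈ Submodule.span ℂ X) :
    D g ∈ W := by
  induction hD using Submodule.span_induction with
  | mem D h => exact hX D h
  | zero =>
    rw [Derivation.zero_apply]
    exact W.zero_mem
  | add D D' _ _ h h' =>
    rw [Derivation.add_apply]
    exact W.add_mem h h'
  | smul c D _ h =>
    rw [Derivation.smul_apply]
    exact W.smul_mem c h

private lemma low_of_words {f : S.A} (D : Derivation ℂ S.A S.A)
    (hD : ∀ w, D (S.word w f) ∈ S.low f) (g : S.A) (hg : g ∈ S.low f) : D g ∈ S.low f := by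
  unfold low at hg
  induction hg using Submodule.span_induction with
  | mem g h =>
    obtain ⟨w, rfl⟩ := h
    exact hD w
  | zero =>
    rw [map_zero]
    exact Submodule.zero_mem _
  | add g g' _ _ h h' =>
    rw [map_add]
    exact Submodule.add_mem _ h h'
  | smul c g _ h =>
    rw [Derivation.map_smul]
    exact Submodule.smul_mem _ c h

private lemma F_low {f : S.A} (b : Fin M) (g : S.A) (hg : g ∈ S.low f) : S.F b g ∈ S.low f :=
  S.low_of_words (S.F b) (fun w => S.word_mem_low f (b :: w)) g hg

private lemma h_low {l : Fin r → ℝ} {f : S.A} (hf : f ∈ S.HW l) (k : Fin r) (g : S.A)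
    (hg : g ∈ S.low f) : S.h k g ∈ S.low f :=
  S.low_of_words (S.h k) (fun w => by
    rw [S.h_word hf w k]
    exact Submodule.smul_mem _ _ (S.word_mem_low f w)) g hg

private lemma E_word_low {l : Fin r → ℝ} {f : S.A} (hf : f ∈ S.HW l) (w : List (Fin M)) :
    ∀ b, S.E b (S.word w f) ∈ S.low f := by
  induction w with
  | nil =>
    intro b
    show S.E b f ∈ S.low f
    rw [hf.2 b]
    exact Submodule.zero_mem _
  | cons c w ih =>
    intro b
    rw [word_cons]
    have h1 : S.E b (S.F c (S.word w f)) =
        (⁅S.E b, S.F c⁆ : Derivation ℂ S.A S.A) (S.word w f) + S.F c (S.E b (S.word w f)) := by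
      rw [Derivation.commutator_apply, sub_add_cancel]
    rw [h1]
    refine Submodule.add_mem _ ?_ (S.F_low c _ (ih b))
    by_cases hbc : b = c
    · subst hbc
      refine S.der_span (S.low f) (S.word w f) (Set.range S.h) ?_ _ ?_
      · rintro D ⟨k, rfl⟩
        exact S.h_low hf k _ (S.word_mem_low f w)
      · rw [S.EF]
        exact Submodule.sum_mem _ (fun k _ => Submodule.smul_mem _ _
          (Submodule.subset_span ⟨k, rfl⟩))
    · refine S.der_span (S.low f) (S.word w f) _ ?_ _ (S.EFne b c hbc)
      rintro D (⟨e, -, rfl⟩ | ⟨e, -, rfl⟩)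
      · exact ih e
      · exact S.F_low e _ (S.word_mem_low f w)

/-- `low f` is stable under all operators -/
lemma D_low {l : Fin r → ℝ} {f : S.A} (hf : f ∈ S.HW l) (o : Op r M) (g : S.A) (hg : g ∈ S.low f) :
    S.D o g ∈ S.low f := by
  rcases o with k | b | b
  · exact S.h_low hf k g hg
  · exact S.low_of_words (S.E b) (fun w => S.E_word_low hf w b) g hg
  · exact S.F_low b g hg

/-- `low f` is stable under right translations -/
lemma R_low {l : Fin r → ℝ} {f : S.A} (hf : f ∈ S.HW l) (y : K) (g : S.A) (hg : g ∈ S.low f) :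
    S.R y g ∈ S.low f :=
  S.R_of_D (S.low f) (fun o g hg => S.D_low hf o g hg) y g hg

/-- `low f` is contained in every right invariant subspace which contains `f` -/
lemma low_le {f : S.A} (W : Submodule ℂ S.A) (hW : ∀ y, ∀ g ∈ W, S.R y g ∈ W) (hf : f ∈ W) :
    S.low f ≤ W := by
  have hD := S.D_of_R W hW
  refine Submodule.span_le.2 ?_
  rintro _ ⟨w, rfl⟩
  show S.word w f ∈ W
  induction w with
  | nil => exact hf
  | cons b w ih => exact hD (Sum.inr (Sum.inr b)) _ ih

end LGD

end STC
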