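import Pool.Agent.STC.HWCo

/-!
# STC/HWPsi: the functions `ψ_b(z) = ⟨π(z) v, F_b v⟩`

PROOF. Let `φ = phi (s i)` (`s_mem_wts`) and `ψ = -J (E b (J φ))`. `ψ ∈ HW (s i)`: the left derivative
`J ∘ E b ∘ J` commutes with all right derivatives (field `D_J`). `ψ 1 = -(E b (J φ)) 1 = (E b φ) 1 = 0`
(`D_J_one`, `φ ∈ HW`). `(F c ψ) 1 = -(F c (J (E b (J φ)))) 1 = -(J (E b (J (F c φ)))) 1 =
-(E b (J (F c φ))) 1 = (E b (F c φ)) 1` (`D_J`, `J` at `1`, `D_J_one`) `= (⁅E b, F c⁆ φ) 1` as
`E b φ = 0`. If `c = b` this is `∑ k root_b(k) (h k φ) 1 = dot (root b) (s i)`. If `c ≠ b`, `⁅E b, F c⁆`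
is a combination of `E e`'s (`E e φ = 0`) and `F e`'s (field `EFne`), and `(F e φ) 1 = 0`: as in
`HWLeft`, `h k` at `F e φ` gives `s i k - root_e(k)` on the right and `- s i k` on the left, so
`root_e(k) (F e φ) 1 = 0` for all `k`, and `root e ≠ 0`.
-/

open MeasureTheory
open scoped ComplexConjugate

namespace STC

namespace LGD

variable {K : Type} [Group K] [TopologicalSpace K] [IsTopologicalGroup K] [CompactSpace K] [T2Space K]
  [SecondCountableTopology K] [MeasureSpace K] [BorelSpace K]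
  [Measure.IsHaarMeasure (volume : Measure K)] [IsProbabilityMeasure (volume : Measure K)]
  {r M : ℕ} (S : LGD K r M)

private lemma psi_F_one (i : Fin r) (e : Fin M) : (S.F e (S.phi (S.s i))).1 1 = 0 := by
  have hw := S.s_mem_wts i
  have hφ := S.phi_mem hw
  have hL := S.phi_LW hw
  set φ := S.phi (S.s i) with hφdef
  set l := S.s i with hldef
  by_contra hne
  have h2 : ∀ k, S.root e k = 0 := by
    intro k
    -- right action
    have hr : S.h k (S.F e φ) = ((l k : ℂ) - (S.root e k : ℂ)) • S.F e φ := by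
      have h1 := congrArg (fun D : Derivation ℂ S.A S.A => D φ) (S.hF k e)
      have h3 : ⁅S.h k, S.F e⁆ φ = S.h k (S.F e φ) - S.F e (S.h k φ) :=
        Derivation.commutator_apply _
      have h4 : (-((S.root e k : ℂ) • S.F e) : Derivation ℂ S.A S.A) φ =
          -((S.root e k : ℂ) • S.F e φ) := rfl
      have h5 : ⁅S.h k, S.F e⁆ φ = -((S.root e k : ℂ) • S.F e φ) := by
        rw [← h4]; exact h1
      rw [h3, hφ.1 k, Derivation.map_smul] at h5
      rw [sub_smul]
      have h6 : S.h k (S.F e φ) = (S.h k (S.F e φ) - (l k : ℂ) • S.F e φ) + (l k : ℂ) • S.F e φ := by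
        abel
      rw [h6, h5]
      abel
    -- left action
    have hl : S.J (S.h k (S.J (S.F e φ))) = -((l k : ℂ) • S.F e φ) := by
      have h1 : S.J (S.h k (S.J (S.F e φ))) = S.F e (S.J (S.h k (S.J φ))) := S.D_J _ _ _
      rw [h1, hL k, map_neg, Derivation.map_smul]
    have h3 := congrArg (fun g : S.A => g.1 1) hl
    have h4 := congrArg (fun g : S.A => g.1 1) hr
    have h5 : (S.J (S.h k (S.J (S.F e φ)))).1 1 = (S.h k (S.J (S.F e φ))).1 1⁻¹ := rfl
    have h6 : (S.h k (S.J (S.F e φ))).1 1 = -(S.h k (S.F e φ)).1 1 := S.D_J_one _ (S.F e φ)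
    have h7 : (-((l k : ℂ) • S.F e φ) : S.A).1 1 = -((l k : ℂ) * (S.F e φ).1 1) := rfl
    have h8 : ((((l k : ℂ) - (S.root e k : ℂ)) • S.F e φ : S.A)).1 1 =
        ((l k : ℂ) - (S.root e k : ℂ)) * (S.F e φ).1 1 := rfl
    rw [h5, inv_one, h6, h7] at h3
    rw [h8] at h4
    rw [h4] at h3
    have h9 := mul_right_cancel₀ hne (neg_injective h3)
    have h10 : (S.root e k : ℂ) = 0 := by linear_combination -h9
    exact_mod_cast h10
  have h11 := S.root_pos e
  simp only [dot, h2, zero_mul, Finset.sum_const_zero, lt_self_iff_false] at h11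

private lemma psi_comm_ne (i : Fin r) {b c : Fin M} (hbc : b ≠ c) :
    (⁅S.E b, S.F c⁆ (S.phi (S.s i))).1 1 = 0 := by
  have hφ := S.phi_mem (S.s_mem_wts i)
  have h1 := S.EFne b c hbc
  have h2 : ∀ D ∈ Submodule.span ℂ
      ({D | ∃ e, S.root b = S.root c + S.root e ∧ D = S.toOpAlg.E e} ∪
      {D | ∃ e, S.root c = S.root b + S.root e ∧ D = S.toOpAlg.F e}),
      (D (S.phi (S.s i))).1 1 = 0 := by
    intro D hD
    induction hD using Submodule.span_induction with
    | mem x hx =>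
      rcases hx with ⟨e, _, rfl⟩ | ⟨e, _, rfl⟩
      · have h3 : S.E e (S.phi (S.s i)) = 0 := hφ.2 e
        rw [h3]
        rfl
      · exact S.psi_F_one i e
    | zero => rfl
    | add x y _ _ hx hy =>
      have : ((x + y) (S.phi (S.s i))).1 1 = (x (S.phi (S.s i))).1 1 + (y (S.phi (S.s i))).1 1 := rfl
      rw [this, hx, hy, add_zero]
    | smul a x _ hx =>
      have : ((a • x) (S.phi (S.s i))).1 1 = a * (x (S.phi (S.s i))).1 1 := rfl
      rw [this, hx, mul_zero]
  exact h2 _ h1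

omit [IsTopologicalGroup K] [CompactSpace K] [T2Space K] [SecondCountableTopology K] [BorelSpace K]
  [Measure.IsHaarMeasure (volume : Measure K)] [IsProbabilityMeasure (volume : Measure K)] in
private lemma psi_eval_sum (g : Fin r → S.A) : (∑ k, g k : S.A).1 1 = ∑ k, (g k).1 1 := by
  have h1 : ∀ s : Finset (Fin r), (∑ k ∈ s, g k : S.A).1 1 = ∑ k ∈ s, (g k).1 1 := by
    intro s
    classical
    induction s using Finset.induction_on with
    | empty => rfl
    | insert a s ha ih =>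
      rw [Finset.sum_insert ha, Finset.sum_insert ha, ← ih]
      rfl
  exact h1 Finset.univ

omit [IsTopologicalGroup K] [CompactSpace K] [T2Space K] [SecondCountableTopology K] [BorelSpace K]
  [Measure.IsHaarMeasure (volume : Measure K)] [IsProbabilityMeasure (volume : Measure K)] in
private lemma psi_der_sum (g : Fin r → Derivation ℂ S.A S.A) (f : S.A) :
    (∑ k, g k) f = ∑ k, g k f := by
  have h1 : ∀ s : Finset (Fin r), (∑ k ∈ s, g k) f = ∑ k ∈ s, g k f := by
    intro s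
    classical
    induction s using Finset.induction_on with
    | empty => rfl
    | insert a s ha ih =>
      rw [Finset.sum_insert ha, Finset.sum_insert ha, ← ih]
      rfl
  exact h1 Finset.univ

private lemma psi_comm_eq (i : Fin r) (b : Fin M) :
    (⁅S.E b, S.F b⁆ (S.phi (S.s i))).1 1 = ((dot (S.s i) (S.root b) : ℝ) : ℂ) := by
  have hφ := S.phi_mem (S.s_mem_wts i)
  have h0 := S.phi_one (S.s_mem_wts i)
  have h1 : ⁅S.E b, S.F b⁆ = ∑ k, (S.root b k : ℂ) • S.h k := S.EF b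
  rw [h1, psi_der_sum, psi_eval_sum, dot, Complex.ofReal_sum]
  refine Finset.sum_congr rfl fun k _ => ?_
  have h2 : (((S.root b k : ℂ) • S.h k) (S.phi (S.s i))).1 1 =
      (S.root b k : ℂ) * (S.h k (S.phi (S.s i))).1 1 := rfl
  have h3 : ((((S.s i) k : ℂ) • S.phi (S.s i) : S.A)).1 1 =
      ((S.s i) k : ℂ) * (S.phi (S.s i)).1 1 := rfl
  rw [h2, hφ.1 k, h3, h0, mul_one, Complex.ofReal_mul, mul_comm]

lemma exists_psi (i : Fin r) (b : Fin M) :
    ∃ ψ ∈ S.HW (S.s i), ψ.1 1 = 0 ∧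
      ∀ c, (S.F c ψ).1 1 = if c = b then ((dot (S.s i) (S.root b) : ℝ) : ℂ) else 0 := by
  have hw := S.s_mem_wts i
  have hφ := S.phi_mem hw
  have h0 := S.phi_one hw
  -- `T f = J (E b (J f))` commutes with all right derivatives
  have hT : ∀ (o : Op r M) (f : S.A), S.D o (S.J (S.E b (S.J f))) = S.J (S.E b (S.J (S.D o f))) :=
    fun o f => (S.D_J _ o f).symm
  refine ⟨-S.J (S.E b (S.J (S.phi (S.s i)))), ⟨fun k => ?_, fun c => ?_⟩, ?_, fun c => ?_⟩
  · have h1 : S.h k (S.J (S.E b (S.J (S.phi (S.s i))))) =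
        S.J (S.E b (S.J (S.h k (S.phi (S.s i))))) := hT _ _
    rw [map_neg, h1, hφ.1 k, map_smul, Derivation.map_smul, map_smul, smul_neg]
  · have h1 : S.E c (S.J (S.E b (S.J (S.phi (S.s i))))) =
        S.J (S.E b (S.J (S.E c (S.phi (S.s i))))) := hT _ _
    rw [map_neg, h1, hφ.2 c, map_zero, map_zero, map_zero, neg_zero]
  · have h1 : (-S.J (S.E b (S.J (S.phi (S.s i)))) : S.A).1 1 =
        -(S.E b (S.J (S.phi (S.s i)))).1 1⁻¹ := rfl
    have h2 : (S.E b (S.J (S.phi (S.s i)))).1 1 = -(S.E b (S.phi (S.s i))).1 1 :=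
      S.D_J_one _ _
    rw [h1, inv_one, h2, hφ.2 b, neg_neg]
    rfl
  · have h1 : S.F c (S.J (S.E b (S.J (S.phi (S.s i))))) =
        S.J (S.E b (S.J (S.F c (S.phi (S.s i))))) := hT _ _
    have h2 : (-S.J (S.E b (S.J (S.F c (S.phi (S.s i))))) : S.A).1 1 =
        -(S.E b (S.J (S.F c (S.phi (S.s i))))).1 1⁻¹ := rfl
    have h3 : (S.E b (S.J (S.F c (S.phi (S.s i))))).1 1 = -(S.E b (S.F c (S.phi (S.s i)))).1 1 :=
      S.D_J_one _ _
    have h4 : ⁅S.E b, S.F c⁆ (S.phi (S.s i)) = S.E b (S.F c (S.phi (S.s i))) := by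
      have h5 : ⁅S.E b, S.F c⁆ (S.phi (S.s i)) =
          S.E b (S.F c (S.phi (S.s i))) - S.F c (S.E b (S.phi (S.s i))) :=
        Derivation.commutator_apply _
      rw [h5, hφ.2 b, map_zero, sub_zero]
    rw [map_neg, h1, h2, inv_one, h3, neg_neg, ← h4]
    split_ifs with hcb
    · rw [hcb]
      exact S.psi_comm_eq i b
    · exact S.psi_comm_ne i (Ne.symm hcb)

end LGD

end STC
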