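import Pool.Agent.STC.HWIp

/-!
# STC/HWSl2: (C) the sl2 argument by norms

PROOF of `EF_pow`: induction on `j`: `E (F^j f) = F (E (F^{j-1} f)) + ⁅E,F⁆ (F^{j-1} f)`, and
`⁅E b, F b⁆ = ∑ k root_b(k) h k` acts on `F^{j-1} f`, which has weight `c - (j-1) root_b`, as
`dot c (root b) - (j-1) dot (root b) (root b)`.
`norm_F_pow`: `ip (F^{j+1} f) (F^{j+1} f) = ip (F^j f) (E (F^{j+1} f))` and `EF_pow`.
`sl2_nat`: let `p = dot c (root b)`, `q = dot (root b) (root b) > 0` (`root b ≠ 0` by `root_pos`). If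
`F^j f ≠ 0` for all `j` then `p - j q / 2 > 0` for all `j` by `norm_F_pow`, impossible. Let `n + 1` be
minimal with `F^{n+1} f = 0` (`f ≠ 0`). Then `0 = (n+1)(p - n q/2) |F^n f|²`, so `2 p = n q`.
`sl2_int`: let `f ≠ 0` have weight `c`. The vectors `E^j f` have weight `c + j root b`, they lie in a
finite dimensional space (field `finite`, and stability under `D` by `D_of_R`) and nonzero ones are
linearly independent, so there is `j` with `u = E^j f ≠ 0`, `E u = 0`; apply `sl2_nat` to `u`.
-/

open MeasureTheory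
open scoped ComplexConjugate

namespace STC

private theorem hwsl2_fin {V U : Type*} [AddCommGroup V] [Module ℂ V] [FiniteDimensional ℂ V]
    [AddCommGroup U] [Module ℂ U] (i : V →ₗ[ℂ] U)
    (v : ℕ → V) (u : ℕ → U) (hu : ∀ j, i (v j) = u j) (hli : LinearIndependent ℂ u) : False := by
  have hno : IsNoetherian ℂ V := inferInstance
  have h1 : LinearIndependent ℂ v := by
    refine LinearIndependent.of_comp i ?_
    have h2 : (⇑i ∘ v) = u := funext hu
    rw [h2]
    exact hli
  have := h1.finite_of_isNoetherian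
  exact not_finite ℕ

namespace LGD

variable {K : Type} [Group K] [TopologicalSpace K] [IsTopologicalGroup K] [CompactSpace K] [T2Space K]
  [SecondCountableTopology K] [MeasureSpace K] [BorelSpace K]
  [Measure.IsHaarMeasure (volume : Measure K)] [IsProbabilityMeasure (volume : Measure K)]
  {r M : ℕ} (S : LGD K r M)

private lemma hwsl2_hF (k : Fin r) (b : Fin M) (g : S.A) :
    S.h k (S.F b g) = S.F b (S.h k g) - (S.root b k : ℂ) • S.F b g := by
  have h1 : ⁅S.h k, S.F b⁆ g = (-((S.root b k : ℂ) • S.F b)) g := by rw [S.hF k b]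
  rw [Derivation.commutator_apply, Derivation.neg_apply, Derivation.smul_apply] at h1
  rw [← sub_eq_zero] at h1 ⊢
  rw [← h1]
  abel

private lemma hwsl2_hE (k : Fin r) (b : Fin M) (g : S.A) :
    S.h k (S.E b g) = S.E b (S.h k g) + (S.root b k : ℂ) • S.E b g := by
  have h1 : ⁅S.h k, S.E b⁆ g = ((S.root b k : ℂ) • S.E b) g := by rw [S.hE k b]
  rw [Derivation.commutator_apply, Derivation.smul_apply] at h1
  rw [← sub_eq_zero] at h1 ⊢
  rw [← h1]
  abel

private lemma hwsl2_sum (a : Fin r → ℂ) (D : Fin r → Derivation ℂ S.A S.A) (g : S.A) :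
    (∑ k, a k • D k) g = ∑ k, a k • D k g := by
  have h1 : (∑ k, a k • D k) g =
      (Derivation.coeFnAddMonoidHom (R := ℂ) (A := S.A) (M := S.A) (∑ k, a k • D k)) g := rfl
  rw [h1, map_sum, Finset.sum_apply]
  rfl

private lemma hwsl2_EF (b : Fin M) (g : S.A) {c : Fin r → ℝ}
    (hc : ∀ k, S.h k g = (c k : ℂ) • g) :
    S.E b (S.F b g) = S.F b (S.E b g) + ((dot c (S.root b) : ℝ) : ℂ) • g := by
  have h1 : ⁅S.E b, S.F b⁆ g = (∑ k, (S.root b k : ℂ) • S.h k) g := by rw [S.EF b]
  rw [Derivation.commutator_apply, hwsl2_sum] at h1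
  have h2 : ∑ k, (S.root b k : ℂ) • S.h k g = ((dot c (S.root b) : ℝ) : ℂ) • g := by
    unfold dot
    rw [Complex.ofReal_sum, Finset.sum_smul]
    refine Finset.sum_congr rfl fun k _ => ?_
    rw [hc k, smul_smul, Complex.ofReal_mul, mul_comm]
  rw [h2] at h1
  rw [← h1]
  abel

lemma h_F_pow {c : Fin r → ℝ} {f : S.A} (hc : ∀ k, S.h k f = (c k : ℂ) • f) (b : Fin M) (j : ℕ)
    (k : Fin r) : S.h k ((fun g => S.F b g)^[j] f) =
      ((c k - j * S.root b k : ℝ) : ℂ) • (fun g => S.F b g)^[j] f := by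
  induction j with
  | zero =>
    simp only [Function.iterate_zero, id_eq, Nat.cast_zero, zero_mul, sub_zero]
    exact hc k
  | succ j ih =>
    rw [Function.iterate_succ_apply']
    show S.h k (S.F b ((fun g => S.F b g)^[j] f)) = _ • S.F b ((fun g => S.F b g)^[j] f)
    rw [hwsl2_hF, ih, Derivation.map_smul, ← sub_smul]
    congr 1
    push_cast
    ring

private lemma hwsl2_h_E_pow {c : Fin r → ℝ} {f : S.A} (hc : ∀ k, S.h k f = (c k : ℂ) • f)
    (b : Fin M) (j : ℕ) (k : Fin r) : S.h k ((fun g => S.E b g)^[j] f) =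
      ((c k + j * S.root b k : ℝ) : ℂ) • (fun g => S.E b g)^[j] f := by
  induction j with
  | zero =>
    simp only [Function.iterate_zero, id_eq, Nat.cast_zero, zero_mul, add_zero]
    exact hc k
  | succ j ih =>
    rw [Function.iterate_succ_apply']
    show S.h k (S.E b ((fun g => S.E b g)^[j] f)) = _ • S.E b ((fun g => S.E b g)^[j] f)
    rw [hwsl2_hE, ih, Derivation.map_smul, ← add_smul]
    congr 1
    push_cast
    ring

private lemma hwsl2_dot_sub (c v : Fin r → ℝ) (t : ℝ) :
    dot (fun k => c k - t * v k) v = dot c v - t * dot v v := by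
  unfold dot
  rw [Finset.mul_sum, ← Finset.sum_sub_distrib]
  exact Finset.sum_congr rfl fun k _ => by ring

private lemma hwsl2_dot_add (c v : Fin r → ℝ) (t : ℝ) :
    dot (fun k => c k + t * v k) v = dot c v + t * dot v v := by
  unfold dot
  rw [Finset.mul_sum, ← Finset.sum_add_distrib]
  exact Finset.sum_congr rfl fun k _ => by ring

lemma EF_pow {c : Fin r → ℝ} {f : S.A} (hc : ∀ k, S.h k f = (c k : ℂ) • f) (b : Fin M)
    (hE : S.E b f = 0) (j : ℕ) : S.E b ((fun g => S.F b g)^[j + 1] f) =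
      (((j + 1) * (dot c (S.root b) - j * dot (S.root b) (S.root b) / 2) : ℝ) : ℂ) •
        (fun g => S.F b g)^[j] f := by
  induction j with
  | zero =>
    simp only [zero_add, Function.iterate_one, Function.iterate_zero, id_eq, Nat.cast_zero,
      zero_mul, zero_div, sub_zero, one_mul]
    rw [S.hwsl2_EF b f hc, hE, map_zero, zero_add]
  | succ j ih =>
    have h1 := S.hwsl2_EF b ((fun g => S.F b g)^[j + 1] f) (S.h_F_pow hc b (j + 1))
    rw [Function.iterate_succ_apply' _ (j + 1)]
    show S.E b (S.F b ((fun g => S.F b g)^[j + 1] f)) = _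
    rw [h1, ih, Derivation.map_smul]
    have h2 : S.F b ((fun g => S.F b g)^[j] f) = (fun g => S.F b g)^[j + 1] f :=
      (Function.iterate_succ_apply' _ j f).symm
    rw [h2, ← add_smul, hwsl2_dot_sub]
    congr 1
    push_cast
    ring

lemma norm_F_pow {c : Fin r → ℝ} {f : S.A} (hc : ∀ k, S.h k f = (c k : ℂ) • f) (b : Fin M)
    (hE : S.E b f = 0) (j : ℕ) :
    S.ip ((fun g => S.F b g)^[j + 1] f) ((fun g => S.F b g)^[j + 1] f) =
      (((j + 1) * (dot c (S.root b) - j * dot (S.root b) (S.root b) / 2) : ℝ) : ℂ) *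
        S.ip ((fun g => S.F b g)^[j] f) ((fun g => S.F b g)^[j] f) := by
  have h2 : (fun g => S.F b g)^[j + 1] f = S.F b ((fun g => S.F b g)^[j] f) :=
    Function.iterate_succ_apply' _ j f
  calc S.ip ((fun g => S.F b g)^[j + 1] f) ((fun g => S.F b g)^[j + 1] f)
      = S.ip (S.F b ((fun g => S.F b g)^[j] f)) ((fun g => S.F b g)^[j + 1] f) := by
        conv_lhs => rw [h2]
        rw [h2]
    _ = S.ip ((fun g => S.F b g)^[j] f) (S.E b ((fun g => S.F b g)^[j + 1] f)) := S.ip_F b _ _
    _ = _ := by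
        rw [S.EF_pow hc b hE j, S.ip_smul_right, Complex.conj_ofReal]

lemma root_sq_pos (b : Fin M) : 0 < dot (S.root b) (S.root b) := by
  have h0 : 0 ≤ dot (S.root b) (S.root b) :=
    Finset.sum_nonneg fun k _ => mul_self_nonneg _
  rcases h0.lt_or_eq with h | h
  · exact h
  · exfalso
    have h1 : ∀ k ∈ Finset.univ, S.root b k * S.root b k = 0 :=
      (Finset.sum_eq_zero_iff_of_nonneg fun k _ => mul_self_nonneg _).1 h.symm
    have h2 : dot (S.root b) S.H0 = 0 := by
      unfold dot
      refine Finset.sum_eq_zero fun k hk => ?_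
      rw [mul_self_eq_zero.1 (h1 k hk), zero_mul]
    have h3 := S.root_pos b
    rw [h2] at h3
    exact lt_irrefl _ h3

lemma sl2_nat {c : Fin r → ℝ} {f : S.A} (hf : f ≠ 0) (hc : ∀ k, S.h k f = (c k : ℂ) • f)
    (b : Fin M) (hE : S.E b f = 0) :
    ∃ n : ℕ, 2 * dot c (S.root b) = n * dot (S.root b) (S.root b) ∧
      (fun g => S.F b g)^[n + 1] f = 0 := by
  classical
  have hq := S.root_sq_pos b
  have hre : ∀ j : ℕ, (S.ip ((fun g => S.F b g)^[j + 1] f) ((fun g => S.F b g)^[j + 1] f)).re =
      ((j + 1) * (dot c (S.root b) - j * dot (S.root b) (S.root b) / 2)) *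
        (S.ip ((fun g => S.F b g)^[j] f) ((fun g => S.F b g)^[j] f)).re := by
    intro j
    rw [S.norm_F_pow hc b hE j, Complex.re_ofReal_mul]
  have hex : ∃ n : ℕ, (fun g => S.F b g)^[n + 1] f = 0 := by
    by_contra hcon
    push Not at hcon
    have hall : ∀ j : ℕ, (fun g => S.F b g)^[j] f ≠ 0 := by
      intro j
      cases j with
      | zero => exact hf
      | succ j => exact hcon j
    obtain ⟨j, hj⟩ := exists_nat_gt (2 * dot c (S.root b) / dot (S.root b) (S.root b))
    rw [div_lt_iff₀ hq] at hj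
    have h1 := S.ip_self_pos (hall (j + 1))
    have h2 := S.ip_self_pos (hall j)
    rw [hre j] at h1
    have h3 : 0 < ((j : ℝ) + 1) * (dot c (S.root b) - j * dot (S.root b) (S.root b) / 2) :=
      pos_of_mul_pos_left h1 h2.le
    have h4 : 0 < dot c (S.root b) - j * dot (S.root b) (S.root b) / 2 :=
      pos_of_mul_pos_right h3 (by positivity)
    linarith
  refine ⟨Nat.find hex, ?_, Nat.find_spec hex⟩
  have h0 := Nat.find_spec hex
  have hne : (fun g => S.F b g)^[Nat.find hex] f ≠ 0 := by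
    rcases Nat.eq_zero_or_pos (Nat.find hex) with h | h
    · rw [h]; exact hf
    · have h5 := Nat.find_min hex (m := Nat.find hex - 1) (by omega)
      rwa [show Nat.find hex - 1 + 1 = Nat.find hex by omega] at h5
  have h1 := hre (Nat.find hex)
  have h2 := S.ip_self_pos hne
  have h6 : (S.ip ((fun g => S.F b g)^[Nat.find hex + 1] f)
      ((fun g => S.F b g)^[Nat.find hex + 1] f)).re = 0 := by
    rw [h0]
    have h7 := S.ip_smul_left 0 (0 : S.A) (0 : S.A)
    rw [zero_smul, zero_mul] at h7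
    rw [h7, Complex.zero_re]
  rw [h6] at h1
  have h8 : ((Nat.find hex : ℝ) + 1) *
      (dot c (S.root b) - (Nat.find hex : ℝ) * dot (S.root b) (S.root b) / 2) = 0 := by
    rcases mul_eq_zero.1 h1.symm with h | h
    · exact h
    · exact absurd h h2.ne'
  rcases mul_eq_zero.1 h8 with h | h
  · have : (0 : ℝ) < (Nat.find hex : ℝ) + 1 := by positivity
    exact absurd h this.ne'
  · linarith

lemma sl2_int {c : Fin r → ℝ} {f : S.A} (hf : f ≠ 0) (hc : ∀ k, S.h k f = (c k : ℂ) • f)
    (b : Fin M) : ∃ n : ℤ, 2 * dot c (S.root b) = n * dot (S.root b) (S.root b) := by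
  classical
  have hq := S.root_sq_pos b
  have hex : ∃ n : ℕ, (fun g => S.E b g)^[n + 1] f = 0 := by
    by_contra hcon
    push Not at hcon
    have hall : ∀ j : ℕ, (fun g => S.E b g)^[j] f ≠ 0 := by
      intro j
      cases j with
      | zero => exact hf
      | succ j => exact hcon j
    obtain ⟨W, hWf, hfW, -, hWR⟩ := S.finite f
    have hWE : ∀ g ∈ W, S.E b g ∈ W := fun g hg =>
      S.D_of_R W (fun y g hg => hWR g hg y) (Sum.inr (Sum.inl b)) g hg
    have hin : ∀ j : ℕ, (fun g => S.E b g)^[j] f ∈ W := by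
      intro j
      induction j with
      | zero => exact hfW
      | succ j ih =>
        rw [Function.iterate_succ_apply']
        exact hWE _ ih
    obtain ⟨k, hk⟩ : ∃ k, S.root b k ≠ 0 := by
      by_contra h
      push Not at h
      have h1 : dot (S.root b) (S.root b) = 0 := by
        unfold dot
        exact Finset.sum_eq_zero fun k _ => by rw [h k, zero_mul]
      exact hq.ne' h1
    have hinj : Function.Injective fun j : ℕ => ((c k + j * S.root b k : ℝ) : ℂ) := by
      intro i j hij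
      have h1 : (c k + i * S.root b k : ℝ) = c k + j * S.root b k := Complex.ofReal_injective hij
      have h2 : (i : ℝ) = j := mul_right_cancel₀ hk (by linarith)
      exact_mod_cast h2
    have hli : LinearIndependent ℂ fun j : ℕ => (fun g => S.E b g)^[j] f := by
      refine Module.End.eigenvectors_linearIndependent'
        ((S.h k : Derivation ℂ S.A S.A) : S.A →ₗ[ℂ] S.A) _ hinj _ fun j => ?_
      exact ⟨Module.End.mem_eigenspace_iff.2 (S.hwsl2_h_E_pow hc b j k), hall j⟩
    exact hwsl2_fin (V := W) (U := S.A) W.subtype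
      (fun j : ℕ => (⟨(fun g => S.E b g)^[j] f, hin j⟩ : W)) _ (fun j => rfl) hli
  have h0 := Nat.find_spec hex
  have hne : (fun g => S.E b g)^[Nat.find hex] f ≠ 0 := by
    rcases Nat.eq_zero_or_pos (Nat.find hex) with h | h
    · rw [h]; exact hf
    · have h5 := Nat.find_min hex (m := Nat.find hex - 1) (by omega)
      rwa [show Nat.find hex - 1 + 1 = Nat.find hex by omega] at h5
  rw [Function.iterate_succ_apply'] at h0
  obtain ⟨n, hn, -⟩ := S.sl2_nat hne (S.hwsl2_h_E_pow hc b (Nat.find hex)) b h0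
  rw [hwsl2_dot_add] at hn
  refine ⟨(n : ℤ) - 2 * (Nat.find hex : ℤ), ?_⟩
  push_cast
  linarith

end LGD

end STC
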