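import Pool.Agent.STC.HWSl2
import Pool.Agent.STC.HWKer

/-!
# STC/HWUp: (H) upper bound `d_l ≤ ∏_b (1 + ⟨l, b^∨⟩)`

PROOF. Let `f = phi l`.
(1) `word_perm`: if `w ~ w'` (`List.Perm`), `|w| = j`, then `word w f - word w' f` lies in
`V_{j-1}` = span of `word u f`, `|u| + 1 ≤ j`. Induction on `Perm`: `cons` (apply `F b`, which maps
`V_{i}` to `V_{i+1}`), `swap` (`⁅F b, F c⁆` is a combination of `F e`'s, field `FF`), `trans`.
(2) `word_mem_mono`: every `word w f` is in the span of the monomials
`mono a = F_0^{a_0} F_1^{a_1} ⋯ F_{M-1}^{a_{M-1}} f` with `a b ≤ n b` for all `b`: strong induction on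
`|w|`: if `count b w ≤ n b` for all `b`, `w` is a permutation of the sorted word, so `word w f ∈
mono (count · w) + V_{|w|-1}`; if `count b w > n b` for some `b` then `w ~ w' ++ replicate (n b + 1) b` and
`word (w' ++ replicate (n b + 1) b) f = word w' (F_b^{n b + 1} f) = 0` (`sl2_nat` and `root_sq_pos`:
the `n` of `sl2_nat` is `n b`), so `word w f ∈ V_{|w|-1}`. In both cases use the induction hypothesis
for `V_{|w|-1}`.
(3) Hence `low f` is finite dimensional with `finrank ≤ ∏ (1 + n b)` (number of `a` with `a ≤ n`).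
(4) `finrank (HW l) ≤ finrank (low f)`: let `e i`, `i < d`, be an orthonormal basis of `HW l`
(`exists_onb`) and `e' i = cj (J (e i))`, i.e. `e' i z = conj (e i z⁻¹)`. They are linearly independent
(conjugate a relation). They lie in `low f`: the set of `u` with `cj (J u) ∈ low f` is closed under
addition and scalar multiplication and contains `L x f`, as `cj (J (L x f)) = R x f` (`phi_inv`) and
`R x f ∈ low f` (`R_low`); use `HW_eq_span`.
-/

open MeasureTheory
open scoped ComplexConjugate

set_option linter.unusedSectionVars false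

namespace STC

namespace LGD

variable {K : Type} [Group K] [TopologicalSpace K] [IsTopologicalGroup K] [CompactSpace K] [T2Space K]
  [SecondCountableTopology K] [MeasureSpace K] [BorelSpace K]
  [Measure.IsHaarMeasure (volume : Measure K)] [IsProbabilityMeasure (volume : Measure K)]
  {r M : ℕ} (S : LGD K r M)

/-- span of the words of length `< j` applied to `f` -/
private def hwuV (f : S.A) (j : ℕ) : Submodule ℂ S.A :=
  Submodule.span ℂ {g | ∃ u : List (Fin M), u.length < j ∧ g = S.word u f}

private lemma hwuV_F (f : S.A) (b : Fin M) (j : ℕ) {g : S.A} (hg : g ∈ S.hwuV f j) :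
    S.F b g ∈ S.hwuV f (j + 1) := by
  refine Submodule.span_induction (p := fun g _ => S.F b g ∈ S.hwuV f (j + 1)) ?_ ?_ ?_ ?_ hg
  · rintro _ ⟨u, hu, rfl⟩
    refine Submodule.subset_span ⟨b :: u, ?_, rfl⟩
    simpa using hu
  · rw [map_zero]; exact Submodule.zero_mem _
  · intro x y _ _ hx hy
    rw [map_add]; exact Submodule.add_mem _ hx hy
  · intro c x _ hx
    rw [Derivation.map_smul]; exact Submodule.smul_mem _ c hx

private lemma hwu_word_perm (f : S.A) {w w' : List (Fin M)} (h : w.Perm w') :
    S.word w f - S.word w' f ∈ S.hwuV f w.length := by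
  induction h with
  | nil => rw [sub_self]; exact Submodule.zero_mem _
  | cons b h ih =>
    have h1 := S.hwuV_F f b _ ih
    rw [map_sub] at h1
    exact h1
  | swap a b w =>
    change S.F b (S.F a (S.word w f)) - S.F a (S.F b (S.word w f)) ∈ _
    rw [← Derivation.commutator_apply]
    refine Submodule.span_induction
      (p := fun (D : Derivation ℂ S.A S.A) _ => D (S.word w f) ∈ S.hwuV f (b :: a :: w).length)
      ?_ ?_ ?_ ?_ (S.FF b a)
    · rintro _ ⟨e, -, rfl⟩
      refine Submodule.subset_span ⟨e :: w, ?_, rfl⟩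
      simp
    · exact Submodule.zero_mem _
    · intro x y _ _ hx hy
      exact Submodule.add_mem _ hx hy
    · intro c x _ hx
      exact Submodule.smul_mem _ c hx
  | trans h1 h2 ih1 ih2 =>
    rw [← h1.length_eq] at ih2
    have := Submodule.add_mem _ ih1 ih2
    rwa [sub_add_sub_cancel] at this

private lemma hwu_word_append (u v : List (Fin M)) (f : S.A) :
    S.word (u ++ v) f = S.word u (S.word v f) := by
  unfold word
  rw [List.foldr_append]

private lemma hwu_word_zero (u : List (Fin M)) : S.word u 0 = 0 := by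
  induction u with
  | nil => rfl
  | cons b u ih =>
    change S.F b (S.word u 0) = 0
    rw [ih, map_zero]

private lemma hwu_word_replicate (b : Fin M) (j : ℕ) (f : S.A) :
    S.word (List.replicate j b) f = (fun g => S.F b g)^[j] f := by
  induction j with
  | zero => rfl
  | succ j ih =>
    rw [List.replicate_succ, Function.iterate_succ_apply']
    change S.F b (S.word (List.replicate j b) f) = _
    rw [ih]

/-- the multiset with multiplicities `a` -/
private def hwuMs (a : Fin M → ℕ) : Multiset (Fin M) := ∑ b, a b • ({b} : Multiset (Fin M))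

private lemma hwuMs_count (a : Fin M → ℕ) (b : Fin M) : (hwuMs a).count b = a b := by
  unfold hwuMs
  rw [Multiset.count_sum']
  simp [Multiset.count_nsmul, Multiset.count_singleton]

private lemma hwu_perm (w : List (Fin M)) : w.Perm (hwuMs fun b => w.count b).toList := by
  rw [← Multiset.coe_eq_coe, Multiset.coe_toList]
  ext b
  rw [hwuMs_count, Multiset.coe_count]

/-- the finite set of the monomials -/
private noncomputable def hwuT (f : S.A) (n : Fin M → ℕ) : Finset S.A :=
  open Classical in
  (Fintype.piFinset fun b => Finset.range (1 + n b)).image fun a => S.word (hwuMs a).toList f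

private lemma hwu_word_mem {l : Fin r → ℝ} {f : S.A} (hf : f ∈ S.HW l) (hf0 : f ≠ 0)
    (n : Fin M → ℕ) (hn : ∀ b, 2 * dot l (S.root b) = n b * dot (S.root b) (S.root b)) (j : ℕ) :
    S.hwuV f j ≤ Submodule.span ℂ (S.hwuT f n : Set S.A) := by
  classical
  induction j with
  | zero =>
    unfold hwuV
    rw [Submodule.span_le]
    rintro _ ⟨u, hu, rfl⟩
    exact absurd hu (Nat.not_lt_zero _)
  | succ j ih =>
    unfold hwuV
    rw [Submodule.span_le]
    rintro _ ⟨w, hw, rfl⟩
    have hVle : S.hwuV f w.length ≤ Submodule.span ℂ (S.hwuT f n : Set S.A) := by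
      refine le_trans ?_ ih
      unfold hwuV
      apply Submodule.span_mono
      rintro _ ⟨u, hu, rfl⟩
      exact ⟨u, lt_of_lt_of_le hu (Nat.lt_succ_iff.mp hw), rfl⟩
    by_cases hc : ∀ b, w.count b ≤ n b
    · have h1 := hVle (S.hwu_word_perm f (hwu_perm w))
      have h2 : S.word (hwuMs fun b => w.count b).toList f ∈
          Submodule.span ℂ (S.hwuT f n : Set S.A) := by
        apply Submodule.subset_span
        unfold hwuT
        rw [Finset.mem_coe, Finset.mem_image]
        refine ⟨fun b => w.count b, ?_, rfl⟩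
        rw [Fintype.mem_piFinset]
        intro b
        rw [Finset.mem_range]
        have := hc b
        omega
      have h3 := Submodule.add_mem _ h1 h2
      rwa [sub_add_cancel] at h3
    · push Not at hc
      obtain ⟨b, hb⟩ := hc
      have h1 : (List.replicate (n b + 1) b).Sublist w := List.replicate_sublist_iff.mpr hb
      obtain ⟨w', hw'⟩ := h1.exists_perm_append
      have h2 : w.Perm (w' ++ List.replicate (n b + 1) b) := hw'.trans List.perm_append_comm
      have h3 := hVle (S.hwu_word_perm f h2)
      have h4 : S.word (w' ++ List.replicate (n b + 1) b) f = 0 := by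
        rw [S.hwu_word_append, S.hwu_word_replicate]
        obtain ⟨n', hn', h0⟩ := S.sl2_nat hf0 hf.1 b (hf.2 b)
        have h5 : (n' : ℝ) = n b := by
          have h6 := S.root_sq_pos b
          rw [hn b] at hn'
          exact (mul_right_cancel₀ h6.ne' hn').symm
        have h7 : n' = n b := by exact_mod_cast h5
        rw [← h7, h0, S.hwu_word_zero]
      rwa [h4, sub_zero] at h3

lemma low_finrank {l : Fin r → ℝ} {f : S.A} (hf : f ∈ S.HW l) (hf0 : f ≠ 0) (n : Fin M → ℕ)
    (hn : ∀ b, 2 * dot l (S.root b) = n b * dot (S.root b) (S.root b)) :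
    FiniteDimensional ℂ (S.low f) ∧ Module.finrank ℂ (S.low f) ≤ ∏ b, (1 + n b) := by
  classical
  have h1 : S.low f ≤ Submodule.span ℂ (S.hwuT f n : Set S.A) := by
    unfold low
    rw [Submodule.span_le]
    rintro _ ⟨w, rfl⟩
    refine S.hwu_word_mem hf hf0 n hn (w.length + 1) ?_
    exact Submodule.subset_span ⟨w, Nat.lt_succ_self _, rfl⟩
  have h2 : FiniteDimensional ℂ (Submodule.span ℂ (S.hwuT f n : Set S.A)) :=
    FiniteDimensional.span_finset ℂ _
  refine ⟨Submodule.finiteDimensional_of_le h1, ?_⟩
  refine (Submodule.finrank_mono h1).trans ?_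
  refine (finrank_span_finset_le_card _).trans ?_
  unfold hwuT
  refine Finset.card_image_le.trans ?_
  rw [Fintype.card_piFinset]
  simp

private lemma hwu_cj_add (f g : S.A) : S.cj (S.J (f + g)) = S.cj (S.J f) + S.cj (S.J g) := by
  apply Subtype.ext
  funext z
  exact map_add (starRingEnd ℂ) _ _

private lemma hwu_cj_smul (c : ℂ) (f : S.A) : S.cj (S.J (c • f)) = conj c • S.cj (S.J f) := by
  apply Subtype.ext
  funext z
  exact map_mul (starRingEnd ℂ) _ _

private lemma hwu_cj_zero : S.cj (S.J 0) = 0 := by
  apply Subtype.ext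
  funext z
  exact map_zero (starRingEnd ℂ)

private lemma hwu_cj_cj (f : S.A) : S.cj (S.J (S.cj (S.J f))) = f := by
  apply Subtype.ext
  funext z
  change conj (conj (f.1 z⁻¹⁻¹)) = f.1 z
  rw [Complex.conj_conj, inv_inv]

private lemma hwu_cj_sum {ι : Type*} (s : Finset ι) (f : ι → S.A) :
    S.cj (S.J (∑ i ∈ s, f i)) = ∑ i ∈ s, S.cj (S.J (f i)) := by
  classical
  induction s using Finset.induction_on with
  | empty => exact S.hwu_cj_zero
  | insert a s ha ih => rw [Finset.sum_insert ha, Finset.sum_insert ha, S.hwu_cj_add, ih]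

lemma dm_le {l : Fin r → ℝ} (hl : l ∈ S.wts) (n : Fin M → ℕ)
    (hn : ∀ b, 2 * dot l (S.root b) = n b * dot (S.root b) (S.root b)) :
    S.dm l ≤ ∏ b, (1 + n b) := by
  have hf0 : S.phi l ≠ 0 := by
    intro h
    have h1 := S.phi_one hl
    rw [h] at h1
    exact zero_ne_one h1
  obtain ⟨hfd, hle⟩ := S.low_finrank (S.phi_mem hl) hf0 n hn
  refine le_trans ?_ hle
  have hmem : ∀ u ∈ S.HW l, S.cj (S.J u) ∈ S.low (S.phi l) := by
    intro u hu
    rw [S.HW_eq_span hl] at hu
    refine Submodule.span_induction (p := fun u _ => S.cj (S.J u) ∈ S.low (S.phi l))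
      ?_ ?_ ?_ ?_ hu
    · rintro _ ⟨x, rfl⟩
      have h1 : S.cj (S.J (S.L x (S.phi l))) = S.R x (S.phi l) := by
        apply Subtype.ext
        funext z
        change conj ((S.phi l).1 (x⁻¹ * z⁻¹)) = (S.phi l).1 (z * x)
        rw [S.phi_inv hl, mul_inv_rev, inv_inv, inv_inv]
      change S.cj (S.J (S.L x (S.phi l))) ∈ _
      rw [h1]
      exact S.R_low (S.phi_mem hl) x _ (S.self_mem_low _)
    · rw [S.hwu_cj_zero]; exact Submodule.zero_mem _
    · intro x y _ _ hx hy
      rw [S.hwu_cj_add]; exact Submodule.add_mem _ hx hy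
    · intro c x _ hx
      rw [S.hwu_cj_smul]; exact Submodule.smul_mem _ _ hx
  obtain ⟨e, he, hon, -⟩ := S.exists_onb (S.HW l)
  have hli : LinearIndependent ℂ (fun i => (⟨S.cj (S.J (e i)), hmem _ (he i)⟩ :
      S.low (S.phi l))) := by
    rw [Fintype.linearIndependent_iffₛ]
    intro g g' hg j
    have h1 : ∑ i, g i • S.cj (S.J (e i)) = ∑ i, g' i • S.cj (S.J (e i)) := by
      have := congrArg (S.low (S.phi l)).subtype hg
      rw [map_sum, map_sum] at this
      exact this
    have h2 := congrArg (fun f => S.cj (S.J f)) h1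
    simp only [S.hwu_cj_sum, S.hwu_cj_smul, S.hwu_cj_cj] at h2
    have h3 := congrArg (fun f => S.ip f (e j)) h2
    simp only [S.ip_sum_left, S.ip_smul_left, hon] at h3
    have h4 : conj (g j) = conj (g' j) := by simpa using h3
    exact (starRingEnd ℂ).injective h4
  have := hli.fintype_card_le_finrank
  simpa [dm] using this

end LGD

end STC
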