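import Pool.Agent.STC.SCDefs

/-!
# STC/Hip : elementary facts on the hermitian product `hip` of `ℂ^d`

All statements are transfers from `EuclideanSpace ℂ (Fin d)` (`hip_eq_inner`), or direct computations.
`expand`, `trace_eq`: an orthonormal family of `d` vectors is a basis; `Σ_i ⟨T v_i, v_i⟩` is the trace
of `T` in that basis. For `trace_eq`: expand `v_i = Σ_j (v_i j) e_j` and `T e_j = Σ_m ⟨T e_j, e_m⟩ e_m`,
and use `Σ_i (v_i j) conj (v_i m) = δ_jm`, which is `expand` applied to `e_j` (the `m`-th coordinate).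
-/

open scoped ComplexConjugate

namespace STC

variable {d : ℕ}

lemma hip_eq_inner (x y : Fin d → ℂ) :
    hip x y = inner ℂ (WithLp.toLp 2 y : EuclideanSpace ℂ (Fin d)) (WithLp.toLp 2 x) := by
  simp [hip, PiLp.inner_apply]

lemma hip_add_left (x x' y : Fin d → ℂ) : hip (x + x') y = hip x y + hip x' y := by
  simp [hip, add_mul, Finset.sum_add_distrib]
lemma hip_smul_left (a : ℂ) (x y : Fin d → ℂ) : hip (a • x) y = a * hip x y := by
  simp [hip, Finset.mul_sum, mul_assoc]
lemma hip_neg_left (x y : Fin d → ℂ) : hip (-x) y = -hip x y := by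
  simp [hip]
lemma hip_sum_left {ι : Type*} (s : Finset ι) (f : ι → Fin d → ℂ) (y : Fin d → ℂ) :
    hip (∑ i ∈ s, f i) y = ∑ i ∈ s, hip (f i) y := by
  simp only [hip, Finset.sum_apply, Finset.sum_mul]
  exact Finset.sum_comm
lemma hip_add_right (x y y' : Fin d → ℂ) : hip x (y + y') = hip x y + hip x y' := by
  simp [hip, mul_add, Finset.sum_add_distrib]
lemma hip_smul_right (a : ℂ) (x y : Fin d → ℂ) : hip x (a • y) = conj a * hip x y := by
  simp only [hip, Pi.smul_apply, smul_eq_mul, map_mul, Finset.mul_sum]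
  exact Finset.sum_congr rfl fun i _ => by ring
lemma hip_neg_right (x y : Fin d → ℂ) : hip x (-y) = -hip x y := by
  simp [hip]
lemma hip_sum_right {ι : Type*} (s : Finset ι) (f : ι → Fin d → ℂ) (x : Fin d → ℂ) :
    hip x (∑ i ∈ s, f i) = ∑ i ∈ s, hip x (f i) := by
  simp only [hip, Finset.sum_apply, map_sum, Finset.mul_sum]
  exact Finset.sum_comm
lemma hip_conj (x y : Fin d → ℂ) : conj (hip x y) = hip y x := by
  simp only [hip, map_sum, map_mul, Complex.conj_conj]
  exact Finset.sum_congr rfl fun i _ => by ring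
lemma hip_star_star (x y : Fin d → ℂ) : hip (star x) (star y) = conj (hip x y) := by
  simp [hip]
lemma hip_cx (x y : Fin d → ℝ) : hip (cx x) (cx y) = ((∑ i, x i * y i : ℝ) : ℂ) := by
  simp [hip, cx]
lemma star_cx (x : Fin d → ℝ) : star (cx x) = cx x := by
  ext i; simp [cx]
lemma hip_self_eq (x : Fin d → ℂ) : hip x x = ((∑ i, Complex.normSq (x i) : ℝ) : ℂ) := by
  simp only [hip, Complex.mul_conj, Complex.ofReal_sum]

lemma hip_self_nonneg (x : Fin d → ℂ) : 0 ≤ (hip x x).re := by
  rw [hip_self_eq, Complex.ofReal_re]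
  exact Finset.sum_nonneg fun i _ => Complex.normSq_nonneg _
lemma hip_self_im (x : Fin d → ℂ) : (hip x x).im = 0 := by
  rw [hip_self_eq, Complex.ofReal_im]
lemma hip_self_eq_zero {x : Fin d → ℂ} : hip x x = 0 ↔ x = 0 := by
  rw [hip_self_eq, Complex.ofReal_eq_zero,
    Finset.sum_eq_zero_iff_of_nonneg fun i _ => Complex.normSq_nonneg _]
  simp only [Finset.mem_univ, true_implies, Complex.normSq_eq_zero]
  exact ⟨fun h => funext h, fun h i => by rw [h]; rfl⟩

lemma orthonormal_toLp {ι : Type*} [DecidableEq ι] (v : ι → Fin d → ℂ)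
    (hv : ∀ i j, hip (v i) (v j) = if i = j then 1 else 0) :
    Orthonormal ℂ (fun i => (WithLp.toLp 2 (v i) : EuclideanSpace ℂ (Fin d))) := by
  rw [orthonormal_iff_ite]
  intro i j
  rw [← hip_eq_inner, hv]
  exact if_congr eq_comm rfl rfl

/-- an orthonormal family has at most `d` members -/
lemma card_le_of_orthonormal {ι : Type*} [Fintype ι] [DecidableEq ι] (v : ι → Fin d → ℂ)
    (hv : ∀ i j, hip (v i) (v j) = if i = j then 1 else 0) : Fintype.card ι ≤ d := by
  have h := (orthonormal_toLp v hv).linearIndependent.fintype_card_le_finrank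
  simpa using h

/-- expansion in an orthonormal basis -/
lemma expand {ι : Type*} [Fintype ι] [DecidableEq ι] (v : ι → Fin d → ℂ)
    (hv : ∀ i j, hip (v i) (v j) = if i = j then 1 else 0) (hc : Fintype.card ι = d)
    (x : Fin d → ℂ) : x = ∑ i, hip x (v i) • v i := by
  classical
  set w : ι → EuclideanSpace ℂ (Fin d) := fun i => WithLp.toLp 2 (v i) with hw
  have ho : Orthonormal ℂ w := orthonormal_toLp v hv
  have hcard : Fintype.card ι = Module.finrank ℂ (EuclideanSpace ℂ (Fin d)) := by simp [hc]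
  have hsp : ⊤ ≤ Submodule.span ℂ (Set.range w) :=
    (ho.linearIndependent.span_eq_top_of_card_eq_finrank' hcard).ge
  let b : OrthonormalBasis ι ℂ (EuclideanSpace ℂ (Fin d)) := OrthonormalBasis.mk ho hsp
  have hb : ∀ i, b i = w i := fun i => by simp [b]
  have hx := b.sum_repr' (WithLp.toLp 2 x : EuclideanSpace ℂ (Fin d))
  have hx2 : (WithLp.toLp 2 x : EuclideanSpace ℂ (Fin d)) = ∑ i, hip x (v i) • w i := by
    rw [← hx]
    refine Finset.sum_congr rfl fun i _ => ?_
    rw [hb, hip_eq_inner]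
  have h3 := congrArg (fun z : EuclideanSpace ℂ (Fin d) => WithLp.ofLp z) hx2
  simpa [hw] using h3

/-- the trace does not depend on the orthonormal basis -/
lemma trace_eq {ι : Type*} [Fintype ι] [DecidableEq ι] (v : ι → Fin d → ℂ)
    (hv : ∀ i j, hip (v i) (v j) = if i = j then 1 else 0) (hc : Fintype.card ι = d)
    (T : (Fin d → ℂ) →ₗ[ℂ] (Fin d → ℂ)) :
    ∑ i, hip (T (v i)) (v i) = ∑ j, T (Pi.single j 1) j := by
  classical
  have h1 : ∀ y x : Fin d → ℂ, hip (T y) x =
      ∑ j, ∑ m, y j * conj (x m) * T (Pi.single j 1) m := by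
    intro y x
    have hy : y = ∑ j, y j • (Pi.single j (1 : ℂ) : Fin d → ℂ) := by
      ext m
      simp [Finset.sum_apply, Pi.single_apply]
    conv_lhs => rw [hy]
    rw [map_sum, hip_sum_left]
    refine Finset.sum_congr rfl fun j _ => ?_
    rw [map_smul, hip_smul_left, hip, Finset.mul_sum]
    exact Finset.sum_congr rfl fun m _ => by ring
  have h2 : ∀ j m : Fin d, ∑ i, v i j * conj (v i m) = if j = m then 1 else 0 := by
    intro j m
    have he := expand v hv hc (Pi.single m (1 : ℂ))
    have he' := congrFun he j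
    have hs : ∀ i, hip (Pi.single m (1 : ℂ)) (v i) = conj (v i m) := by
      intro i
      simp [hip, Pi.single_apply]
    simp only [Finset.sum_apply, Pi.smul_apply, smul_eq_mul, hs] at he'
    rw [Pi.single_apply] at he'
    rw [he']
    exact Finset.sum_congr rfl fun i _ => by ring
  calc ∑ i, hip (T (v i)) (v i)
      = ∑ i, ∑ j, ∑ m, v i j * conj (v i m) * T (Pi.single j 1) m :=
        Finset.sum_congr rfl fun i _ => h1 _ _
    _ = ∑ j, ∑ m, (∑ i, v i j * conj (v i m)) * T (Pi.single j 1) m := by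
        rw [Finset.sum_comm]
        refine Finset.sum_congr rfl fun j _ => ?_
        rw [Finset.sum_comm]
        exact Finset.sum_congr rfl fun m _ => by rw [Finset.sum_mul]
    _ = ∑ j, T (Pi.single j 1) j := by
        simp only [h2, ite_mul, one_mul, zero_mul, Finset.sum_ite_eq, Finset.mem_univ, if_true]

end STC
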