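import Mathlib

/-!
# STC/Iface: the interface between highest weight theory and the transference argument

`TFam G ι`: the family of highest weight functions `φ_l` of a compact group `G` (matrix coefficients
`⟨π_l(z) v_l, v_l⟩`), with dimensions `d_l`, integral weights `w_l ∈ ℤ^ι` (the rank is the number of
elements of `ι`), the torus, and Casimir eigenvalues. The only analytic property is the Schur identity
`∫ φ_m(x) φ_l(g⁻¹ x⁻¹ z) dx = δ_{lm} φ_l(z) conj (φ_l(g)) / d_l`.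
Everything is closed under products of groups (Fubini) and holds for the circle (`φ_m = e^{imx}`,
`d = 1`).

Consequences (see note 1472 and helper62's note 1462). `M_l` = span of the translates
`x ↦ φ_l(a x b)`. For `f ∈ M_l` put `C f (z,g) = ∫ f(x) φ_l(g⁻¹ x⁻¹ z) dx`. For `f(x) = φ_l(a x b)`:
`C f (z,g) = φ_l(a z) conj (φ_l(b⁻¹ g)) / d_l`, hence
(a) `∫∫ C f (z,g) φ_m(z⁻¹ x g) dz dg = δ_{lm} d_l⁻³ f(x)` for `f ∈ M_l`,
(b) `∫∫ |C f|² = d_l⁻³ ‖f‖²`,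
(c) `|C f (z,g)|² ≤ d_l ∫ |C f (z',g)|² dz'` (reproducing property, `|φ| ≤ 1`),
(d) `‖∑ κ_l C_l h‖_{L²(G×G)}² = ∑ κ_l² d_l⁻³ ‖P_l h‖² ≤ max (κ_l² d_l⁻³) ‖h‖²`.
-/

open MeasureTheory
open scoped ComplexConjugate

namespace STC

/-- Highest weight functions of a compact group; the rank is `Fintype.card ι`. -/
structure TFam (G : Type) [Group G] [TopologicalSpace G] [MeasureSpace G] (ι : Type) [Fintype ι] where
  /-- the set of irreducible representations -/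
  Λ : Type
  φ : Λ → G → ℂ
  d : Λ → ℝ
  w : Λ → ι → ℤ
  /-- the torus in coordinates dual to `w` -/
  tor : (ι → ℝ) → G
  /-- Casimir eigenvalues -/
  cas : Λ → ℝ
  /-- the quadratic part of the Casimir eigenvalue: `∑ q_j (∑ ℓ_{ji} w_i)²`, `ℓ` rational -/
  q : ι → ℝ
  ell : ι → ι → ℚ
  eta : ι → ℝ
  cont : ∀ l, Continuous (φ l)
  one_le_d : ∀ l, 1 ≤ d l
  φ_one : ∀ l, φ l 1 = 1
  φ_inv : ∀ l y, conj (φ l y) = φ l y⁻¹
  φ_le : ∀ l y, ‖φ l y‖ ≤ 1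
  schur : ∀ l z g, ∫ x, φ l x * φ l (g⁻¹ * x⁻¹ * z) = φ l z * conj (φ l g) / d l
  schur_ne : ∀ l m, l ≠ m → ∀ z g, ∫ x, φ m x * φ l (g⁻¹ * x⁻¹ * z) = 0
  w_inj : Function.Injective w
  tor_add : ∀ x y, tor (x + y) = tor x * tor y
  tor_cont : Continuous tor
  φ_tor : ∀ l z θ, φ l (z * tor θ) =
    Complex.exp (Complex.I * ((∑ k, (w l k : ℝ) * θ k : ℝ) : ℂ)) * φ l z
  q_pos : ∀ j, 0 < q j
  ell_inj : ∀ x : ι → ℚ, (∀ j, ∑ i, ell j i * x i = 0) → x = 0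
  cas_eq : ∀ l, cas l = ∑ j, q j * (∑ i, (ell j i : ℝ) * w l i) ^ 2 + ∑ i, eta i * w l i
  cas_nonneg : ∀ l, 0 ≤ cas l

variable {G : Type} [Group G] [TopologicalSpace G] [MeasureSpace G] {ι : Type} [Fintype ι]

/-- The isotypic component of `l`: the span of the two-sided translates of `φ_l`. -/
def TFam.iso (T : TFam G ι) (l : T.Λ) : Submodule ℂ (G → ℂ) :=
  Submodule.span ℂ {f | ∃ a b : G, f = fun x => T.φ l (a * x * b)}

/-- A piece: a kernel `k = ∑_{l ∈ supp} κ_l φ_l` of size `D` with constant `C`. -/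
structure Piece (T : TFam G ι) (C : ℝ) where
  D : ℝ
  supp : Finset T.Λ
  κ : T.Λ → ℝ
  /-- the middle set -/
  mid : Finset T.Λ
  one_le_D : 1 ≤ D
  mid_sub : mid ⊆ supp
  norm_le : ∫ x, ‖∑ l ∈ supp, (κ l : ℂ) * T.φ l x‖ ≤ C
  κ_ge : ∀ l ∈ mid, D ≤ C * κ l
  d_le : ∀ l ∈ mid, T.d l ≤ C * D
  κ_le : ∀ l ∈ supp, |κ l| ≤ C * D
  le_d : ∀ l ∈ supp, D ≤ C * T.d l

/-- Kernel families: for every `N` finitely many pieces whose middle sets cover all weights of size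
`≤ N`, with `∑ D^θ ≤ C_θ (N+1)^{Mθ}`; `M` is the number of positive roots,
`M = (dim G - rank G)/2`. -/
structure KernFam (T : TFam G ι) (M : ℝ) where
  C : ℝ
  one_le_C : 1 ≤ C
  n : ℕ → ℕ
  piece : ∀ N : ℕ, Fin (n N) → Piece T C
  cover : ∀ (N : ℕ) (l : T.Λ), (∀ k, |(T.w l k : ℝ)| ≤ N) → ∃ i, l ∈ (piece N i).mid
  w_le : ∀ (N : ℕ) (i : Fin (n N)) (l : T.Λ), l ∈ (piece N i).mid → ∀ k,
    |(T.w l k : ℝ)| ≤ C * (N + 1)
  sum_D : ∀ θ : ℝ, 0 < θ → ∃ Cθ : ℝ, ∀ N : ℕ,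
    ∑ i, (piece N i).D ^ θ ≤ Cθ * ((N : ℝ) + 1) ^ (M * θ)

end STC
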