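import Pool.Agent.STC.LieAlg

/-!
# STC/LieBas : a basis of the Lie algebra which is orthonormal for minus the Killing form

PROOF of `LieBasis.exists`. `L = lieAlg K hK` is finite dimensional over `ℝ` (subspace of `Mat N`).
Frobenius product on `L`: `f(x, y) = re tr (x * star y)`, it is a positive definite symmetric
real bilinear form (on all of `Mat N`), and `f([z, x], y) = - f(x, [z, y])` for `z ∈ L`
(`star z = - z`, cyclicity of the trace). Let `e_1, …, e_d` be an `f`-orthonormal basis of `L`. For
`x ∈ L`, `killingForm x x = trace (ad x ∘ ad x) = Σ_i f(ad x (ad x e_i), e_i) = - Σ_i f([x, e_i],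
[x, e_i]) ≤ 0`, with equality only if `[x, e_i] = 0` for all `i`, so `x` is central, `x = 0`. So
minus the Killing form is a symmetric (`LieModule.traceForm_comm`) positive definite bilinear form on
`L`; it has an orthonormal basis (`InnerProductSpace.Core` and `stdOrthonormalBasis`, or
`LinearMap.BilinForm.exists_orthogonal_basis` and normalisation).
-/

namespace STC

attribute [local instance 100] LieRing.ofAssociativeRing

variable {N : ℕ}

/-- The Lie algebra of a closed subgroup of `U(N)`, as a real Lie subalgebra of `M_N(ℂ)`. -/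
def lieAlg (K : Subgroup (UG N)) (hK : IsClosed (K : Set (UG N))) : LieSubalgebra ℝ (Mat N) where
  carrier := lieSet K
  zero_mem' := zero_mem_lieSet
  add_mem' := fun hX hY => add_mem_lieSet hK hX hY
  smul_mem' := fun c _ hX => smul_mem_lieSet hX c
  lie_mem' := fun hX hY => by
    rw [Ring.lie_def]; exact bracket_mem_lieSet hK hX hY

theorem mem_lieAlg {K : Subgroup (UG N)} {hK : IsClosed (K : Set (UG N))} {X : Mat N} :
    X ∈ lieAlg K hK ↔ X ∈ lieSet K := Iff.rfl

/-- The Lie algebra of `K` has trivial centre. -/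
def Centreless (K : Subgroup (UG N)) : Prop :=
  ∀ X ∈ lieSet K, (∀ Y ∈ lieSet K, X * Y - Y * X = 0) → X = 0

/-- A basis of the Lie algebra of `K` which is orthonormal for minus the Killing form. -/
structure LieBasis (K : Subgroup (UG N)) (hK : IsClosed (K : Set (UG N))) (d : ℕ) where
  X : Module.Basis (Fin d) ℝ (lieAlg K hK)
  orth : ∀ i j, killingForm ℝ (lieAlg K hK) (X i) (X j) = if i = j then -1 else 0

section Abstract

variable {V : Type*} [AddCommGroup V] [Module ℝ V]

/-- The inner product core of a positive definite symmetric form. -/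
@[instance_reducible] private noncomputable def LieBas_core (B : V →ₗ[ℝ] V →ₗ[ℝ] ℝ) (hs : ∀ x y, B x y = B y x)
    (hp : ∀ x, x ≠ 0 → 0 < B x x) : InnerProductSpace.Core ℝ V where
  inner x y := B x y
  conj_inner_symm x y := by
    change (starRingEnd ℝ) (B y x) = B x y
    rw [hs y x]
    exact conj_trivial _
  re_inner_nonneg x := by
    change 0 ≤ B x x
    by_cases h : x = 0
    · rw [h, map_zero]
    · exact (hp x h).le
  add_left x y z := by
    change B (x + y) z = B x z + B y z
    rw [map_add, LinearMap.add_apply]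
  smul_left x y r := by
    change B (r • x) y = (starRingEnd ℝ) r * B x y
    rw [map_smul, LinearMap.smul_apply, smul_eq_mul]
    rfl
  definite x h := by
    by_contra hx
    exact absurd h (hp x hx).ne'

private lemma LieBas_orth [FiniteDimensional ℝ V] (B : V →ₗ[ℝ] V →ₗ[ℝ] ℝ)
    (hs : ∀ x y, B x y = B y x) (hp : ∀ x, x ≠ 0 → 0 < B x x) :
    ∃ b : Module.Basis (Fin (Module.finrank ℝ V)) ℝ V,
      ∀ i j, B (b i) (b j) = if i = j then 1 else 0 := by
  let c := LieBas_core B hs hp
  let _ : NormedAddCommGroup V := c.toNormedAddCommGroup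
  let _ : InnerProductSpace ℝ V := InnerProductSpace.ofCore c.toCore
  let b := stdOrthonormalBasis ℝ V
  refine ⟨b.toBasis, fun i j => ?_⟩
  have h := orthonormal_iff_ite.1 b.orthonormal i j
  rw [OrthonormalBasis.coe_toBasis]
  exact h

private lemma LieBas_repr {ι : Type*} [Fintype ι] [DecidableEq ι] (B : V →ₗ[ℝ] V →ₗ[ℝ] ℝ)
    (b : Module.Basis ι ℝ V) (hb : ∀ i j, B (b i) (b j) = if i = j then 1 else 0) (v : V) (i : ι) :
    b.repr v i = B v (b i) := by
  conv_rhs => rw [← b.sum_repr v]
  rw [map_sum, LinearMap.sum_apply, Finset.sum_eq_single i]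
  · rw [map_smul, LinearMap.smul_apply, hb, if_pos rfl, smul_eq_mul, mul_one]
  · intro j _ hj
    rw [map_smul, LinearMap.smul_apply, hb, if_neg hj, smul_zero]
  · intro h
    exact absurd (Finset.mem_univ i) h

/-- The trace of the square of a skew operator. -/
private lemma LieBas_trace {ι : Type*} [Fintype ι] [DecidableEq ι] (B : V →ₗ[ℝ] V →ₗ[ℝ] ℝ)
    (b : Module.Basis ι ℝ V) (hb : ∀ i j, B (b i) (b j) = if i = j then 1 else 0)
    (T : V →ₗ[ℝ] V) (hT : ∀ x y, B (T x) y = -B x (T y)) :
    LinearMap.trace ℝ V (T ∘ₗ T) = -∑ i, B (T (b i)) (T (b i)) := by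
  rw [LinearMap.trace_eq_matrix_trace ℝ b, Matrix.trace, ← Finset.sum_neg_distrib]
  refine Finset.sum_congr rfl fun i _ => ?_
  rw [Matrix.diag_apply, LinearMap.toMatrix_apply, LieBas_repr B b hb, LinearMap.comp_apply, hT]

end Abstract

/-- The Frobenius product on the Lie algebra of `K`. -/
private noncomputable def LieBas_frob (K : Subgroup (UG N)) (hK : IsClosed (K : Set (UG N))) :
    lieAlg K hK →ₗ[ℝ] lieAlg K hK →ₗ[ℝ] ℝ :=
  LinearMap.mk₂ ℝ (fun x y => -(Matrix.trace ((x : Mat N) * (y : Mat N))).re)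
    (by
      intro x x' y
      change -(Matrix.trace (((x : Mat N) + (x' : Mat N)) * (y : Mat N))).re = _
      rw [add_mul, Matrix.trace_add, Complex.add_re]
      ring)
    (by
      intro c x y
      change -(Matrix.trace ((c • (x : Mat N)) * (y : Mat N))).re = _
      rw [smul_mul_assoc, Matrix.trace_smul, Complex.real_smul,
        Complex.re_ofReal_mul, smul_eq_mul]
      ring)
    (by
      intro x y y'
      change -(Matrix.trace ((x : Mat N) * ((y : Mat N) + (y' : Mat N)))).re = _
      rw [mul_add, Matrix.trace_add, Complex.add_re]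
      ring)
    (by
      intro c x y
      change -(Matrix.trace ((x : Mat N) * (c • (y : Mat N)))).re = _
      rw [mul_smul_comm, Matrix.trace_smul, Complex.real_smul,
        Complex.re_ofReal_mul, smul_eq_mul]
      ring)

private lemma LieBas_frob_apply (K : Subgroup (UG N)) (hK : IsClosed (K : Set (UG N)))
    (x y : lieAlg K hK) :
    LieBas_frob K hK x y = -(Matrix.trace ((x : Mat N) * (y : Mat N))).re := rfl

private lemma LieBas_frob_symm (K : Subgroup (UG N)) (hK : IsClosed (K : Set (UG N)))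
    (x y : lieAlg K hK) : LieBas_frob K hK x y = LieBas_frob K hK y x := by
  rw [LieBas_frob_apply, LieBas_frob_apply, Matrix.trace_mul_comm]

private lemma LieBas_frob_pos (K : Subgroup (UG N)) (hK : IsClosed (K : Set (UG N)))
    (x : lieAlg K hK) (hx : x ≠ 0) : 0 < LieBas_frob K hK x x := by
  have h1 : star (x : Mat N) = -(x : Mat N) := star_of_mem_lieSet (K := K) x.2
  have h2 : LieBas_frob K hK x x = ∑ i, ∑ j, Complex.normSq ((x : Mat N) i j) := by
    rw [LieBas_frob_apply]
    have e : (x : Mat N) * (x : Mat N) = -((x : Mat N) * star (x : Mat N)) := by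
      rw [h1, mul_neg, neg_neg]
    rw [e, Matrix.trace_neg, Complex.neg_re, neg_neg, Matrix.trace, Complex.re_sum]
    refine Finset.sum_congr rfl fun i _ => ?_
    rw [Matrix.diag_apply, Matrix.mul_apply, Complex.re_sum]
    refine Finset.sum_congr rfl fun j _ => ?_
    rw [Matrix.star_apply]
    change ((x : Mat N) i j * (starRingEnd ℂ) ((x : Mat N) i j)).re = _
    rw [Complex.mul_conj, Complex.ofReal_re]
  rw [h2]
  have h3 : ∃ i j, (x : Mat N) i j ≠ 0 := by
    by_contra h
    push Not at h
    apply hx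
    apply Subtype.ext
    ext i j
    exact h i j
  obtain ⟨i, j, hij⟩ := h3
  refine Finset.sum_pos' (fun i _ => Finset.sum_nonneg fun j _ => Complex.normSq_nonneg _)
    ⟨i, Finset.mem_univ _, ?_⟩
  exact Finset.sum_pos' (fun j _ => Complex.normSq_nonneg _)
    ⟨j, Finset.mem_univ _, Complex.normSq_pos.2 hij⟩

private lemma LieBas_frob_inv (K : Subgroup (UG N)) (hK : IsClosed (K : Set (UG N)))
    (z x y : lieAlg K hK) : LieBas_frob K hK ⁅z, x⁆ y = -LieBas_frob K hK x ⁅z, y⁆ := by
  rw [LieBas_frob_apply, LieBas_frob_apply, LieSubalgebra.coe_bracket, LieSubalgebra.coe_bracket,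
    Ring.lie_def, Ring.lie_def, neg_neg, ← Complex.neg_re]
  congr 1
  rw [← Matrix.trace_neg]
  have h : Matrix.trace ((z : Mat N) * ((x : Mat N) * (y : Mat N)))
      = Matrix.trace ((x : Mat N) * (y : Mat N) * (z : Mat N)) := Matrix.trace_mul_comm _ _
  have h' : Matrix.trace ((z : Mat N) * (x : Mat N) * (y : Mat N))
      = Matrix.trace ((x : Mat N) * ((y : Mat N) * (z : Mat N))) := by
    rw [mul_assoc, h, mul_assoc]
  have h'' : Matrix.trace ((x : Mat N) * (z : Mat N) * (y : Mat N))
      = Matrix.trace ((x : Mat N) * ((z : Mat N) * (y : Mat N))) := by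
    rw [mul_assoc]
  rw [sub_mul, mul_sub, neg_sub, Matrix.trace_sub, Matrix.trace_sub, h', h'']

theorem LieBasis.exists {K : Subgroup (UG N)} (hK : IsClosed (K : Set (UG N)))
    (hcl : Centreless K) : ∃ d : ℕ, Nonempty (LieBasis K hK d) := by
  classical
  have : FiniteDimensional ℝ (lieAlg K hK) :=
    inferInstanceAs (FiniteDimensional ℝ (lieAlg K hK).toSubmodule)
  obtain ⟨e, he⟩ := LieBas_orth (LieBas_frob K hK) (LieBas_frob_symm K hK)
    (LieBas_frob_pos K hK)
  have hpos : ∀ x : lieAlg K hK, x ≠ 0 → 0 < (-killingForm ℝ (lieAlg K hK)) x x := by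
    intro x hx
    have h1 : killingForm ℝ (lieAlg K hK) x x = -∑ i, LieBas_frob K hK ⁅x, e i⁆ ⁅x, e i⁆ := by
      rw [killingForm_apply_apply]
      exact LieBas_trace (LieBas_frob K hK) e he (LieAlgebra.ad ℝ (lieAlg K hK) x)
        (fun a b => LieBas_frob_inv K hK x a b)
    rw [LinearMap.neg_apply, LinearMap.neg_apply, h1, neg_neg]
    have h2 : ∃ i, ⁅x, e i⁆ ≠ 0 := by
      by_contra h
      push Not at h
      apply hx
      have h3 : ∀ y : lieAlg K hK, ⁅x, y⁆ = 0 := by
        intro y
        have h4 : LieAlgebra.ad ℝ (lieAlg K hK) x = 0 := by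
          apply e.ext
          intro i
          exact h i
        have h5 : LieAlgebra.ad ℝ (lieAlg K hK) x y = 0 := by rw [h4]; rfl
        exact h5
      apply Subtype.ext
      refine hcl x x.2 fun Y hY => ?_
      have h6 := h3 ⟨Y, hY⟩
      have h7 : ((⁅x, (⟨Y, hY⟩ : lieAlg K hK)⁆ : lieAlg K hK) : Mat N) = 0 := by
        rw [h6]; rfl
      rw [LieSubalgebra.coe_bracket, Ring.lie_def] at h7
      exact h7
    obtain ⟨i, hi⟩ := h2
    refine Finset.sum_pos' (fun j _ => ?_) ⟨i, Finset.mem_univ _, LieBas_frob_pos K hK _ hi⟩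
    by_cases hj : ⁅x, e j⁆ = 0
    · rw [hj, map_zero]
    · exact (LieBas_frob_pos K hK _ hj).le
  have hsymm : ∀ x y : lieAlg K hK,
      (-killingForm ℝ (lieAlg K hK)) x y = (-killingForm ℝ (lieAlg K hK)) y x := by
    intro x y
    simp only [LinearMap.neg_apply]
    rw [LieModule.traceForm_comm]
  obtain ⟨b, hb⟩ := LieBas_orth (-killingForm ℝ (lieAlg K hK)) hsymm hpos
  refine ⟨_, ⟨⟨b, fun i j => ?_⟩⟩⟩
  have h := hb i j
  simp only [LinearMap.neg_apply] at h
  split_ifs at h ⊢ with hij
  · linarith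
  · linarith

end STC
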