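import Mathlib

/-!
# STC/LieDefs : matrices, the unitary group, the Lie algebra of a subgroup of `U(N)`
-/

namespace STC

/-- `N × N` complex matrices -/
abbrev Mat (N : ℕ) := Matrix (Fin N) (Fin N) ℂ

/-- the unitary group -/
abbrev UG (N : ℕ) := Matrix.unitaryGroup (Fin N) ℂ

/-- The Lie algebra of a subgroup of `U(N)`, as a set of matrices: all `X` with `exp (s X) ∈ K` for
all real `s`. -/
def lieSet {N : ℕ} (K : Subgroup (UG N)) : Set (Mat N) :=
  {X | ∀ s : ℝ, ∃ u ∈ K, (u : Mat N) = NormedSpace.exp (s • X)}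

end STC
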