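import Pool.Agent.STC.LieDefs

/-!
# STC/LieL : the main lemma on one-parameter subgroups of a closed subgroup of `U(N)`

(L) `K` closed, `w n ∈ K`, `ε n > 0`, `ε n → 0`, `(w n - 1) / ε n → Y`. Then `Y ∈ lieSet K`.
PROOF. `w n` unitary: `w n * star (w n) = 1`, so with `w n = 1 + ε n • Y n`, `Y n → Y`:
`Y n + star (Y n) + ε n • (Y n * star (Y n)) = 0`, whence `Y + star Y = 0`, and `exp (c Y)` is
unitary for every real `c` (`NormedSpace.exp_mem_unitary_of_mem_skewAdjoint` or similar). For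
unitary `A, B`: `‖A ^ m - B ^ m‖ ≤ m ‖A - B‖` (induction, norms of unitaries are `≤ 1`).
`exp (ε Y) = 1 + ε Y + o(ε)` (derivative of `exp` at `0`), so `‖w n - exp (ε n Y)‖ / ε n → 0`. For
`s ≥ 0` put `m n = ⌊s / ε n⌋₊`; then `‖(w n) ^ (m n) - exp ((m n * ε n) Y)‖ ≤ (s / ε n) ‖w n -
exp (ε n Y)‖ → 0` and `m n * ε n → s`; so `(w n) ^ (m n) → exp (s Y)`. The element `exp (s Y)` of
the unitary group is therefore in the closure of `K` (the topology of `UG N` is the subspace
topology), so in `K`. For `s < 0` take the inverse of `exp (-s Y)`.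
-/

namespace STC

open Filter Topology
open scoped Matrix.Norms.L2Operator

variable {N : ℕ} {K : Subgroup (UG N)}

/-- the norm of a unitary matrix is at most `1` -/
theorem norm_coe_le (A : UG N) : ‖(A : Mat N)‖ ≤ 1 := by
  rcases subsingleton_or_nontrivial (Mat N) with h | h
  · have : (A : Mat N) = 0 := Subsingleton.elim _ _
    rw [this, norm_zero]; exact zero_le_one
  · exact (CStarRing.norm_coe_unitary (E := Mat N) A).le

/-- `‖A ^ m - B ^ m‖ ≤ m ‖A - B‖` for unitaries -/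
theorem norm_pow_sub_pow (A B : UG N) (m : ℕ) :
    ‖(A : Mat N) ^ m - (B : Mat N) ^ m‖ ≤ m * ‖(A : Mat N) - (B : Mat N)‖ := by
  induction m with
  | zero => simp
  | succ m ih =>
    have h1 : (A : Mat N) ^ (m + 1) - (B : Mat N) ^ (m + 1) =
        (A : Mat N) ^ m * ((A : Mat N) - (B : Mat N)) +
          ((A : Mat N) ^ m - (B : Mat N) ^ m) * (B : Mat N) := by
      rw [pow_succ, pow_succ, mul_sub, sub_mul]; abel
    have h2 : ‖(A : Mat N) ^ m * ((A : Mat N) - (B : Mat N))‖ ≤ ‖(A : Mat N) - (B : Mat N)‖ := by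
      have h3 : ‖(A : Mat N) ^ m‖ ≤ 1 := by
        have := norm_coe_le (A ^ m)
        simpa using this
      calc _ ≤ ‖(A : Mat N) ^ m‖ * ‖(A : Mat N) - (B : Mat N)‖ := norm_mul_le _ _
        _ ≤ 1 * ‖(A : Mat N) - (B : Mat N)‖ := by gcongr
        _ = _ := one_mul _
    have h4 : ‖((A : Mat N) ^ m - (B : Mat N) ^ m) * (B : Mat N)‖ ≤
        ‖(A : Mat N) ^ m - (B : Mat N) ^ m‖ := by
      calc _ ≤ ‖(A : Mat N) ^ m - (B : Mat N) ^ m‖ * ‖(B : Mat N)‖ := norm_mul_le _ _
        _ ≤ ‖(A : Mat N) ^ m - (B : Mat N) ^ m‖ * 1 := by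
            gcongr
            exact norm_coe_le B
        _ = _ := mul_one _
    rw [h1]
    push_cast
    calc _ ≤ _ := norm_add_le _ _
      _ ≤ ‖(A : Mat N) - (B : Mat N)‖ + m * ‖(A : Mat N) - (B : Mat N)‖ :=
          add_le_add h2 (h4.trans ih)
      _ = _ := by ring

/-- the main lemma (L) of the header -/
theorem mem_lieSet_of_tendsto (hK : IsClosed (K : Set (UG N))) (w : ℕ → UG N)
    (hw : ∀ n, w n ∈ K) (ε : ℕ → ℝ) (hε : ∀ n, 0 < ε n) (hε0 : Tendsto ε atTop (𝓝 0))
    (Y : Mat N) (hY : Tendsto (fun n => (ε n)⁻¹ • ((w n : Mat N) - 1)) atTop (𝓝 Y)) :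
    Y ∈ lieSet K := by
  letI : NormedAlgebra ℚ (Mat N) := NormedAlgebra.restrictScalars ℚ ℝ (Mat N)
  -- `Y` is skew-adjoint
  have hst : star Y = -Y := by
    have hw1 : ∀ n, (w n : Mat N) * star (w n : Mat N) = 1 := fun n =>
      Unitary.coe_mul_star_self (w n)
    have hS : Tendsto (fun n => star ((ε n)⁻¹ • ((w n : Mat N) - 1))) atTop (𝓝 (star Y)) :=
      (continuous_star.tendsto Y).comp hY
    have hsum : Tendsto (fun n => (ε n)⁻¹ • ((w n : Mat N) - 1) +
        star ((ε n)⁻¹ • ((w n : Mat N) - 1)) + ε n • (((ε n)⁻¹ • ((w n : Mat N) - 1)) *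
          star ((ε n)⁻¹ • ((w n : Mat N) - 1)))) atTop (𝓝 (Y + star Y + (0 : ℝ) • (Y * star Y))) :=
      (hY.add hS).add (hε0.smul (hY.mul hS))
    have h0 : ∀ n, (ε n)⁻¹ • ((w n : Mat N) - 1) +
        star ((ε n)⁻¹ • ((w n : Mat N) - 1)) + ε n • (((ε n)⁻¹ • ((w n : Mat N) - 1)) *
          star ((ε n)⁻¹ • ((w n : Mat N) - 1))) = 0 := by
      intro n
      have h1 : ε n ≠ 0 := (hε n).ne'
      have h2 : star ((ε n)⁻¹ • ((w n : Mat N) - 1)) = (ε n)⁻¹ • (star (w n : Mat N) - 1) := by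
        rw [star_smul, star_sub, star_one, star_trivial]
      rw [h2, smul_mul_smul_comm, smul_smul, ← mul_assoc, mul_inv_cancel₀ h1, one_mul, ← smul_add,
        ← smul_add, sub_mul, mul_sub, mul_sub, hw1 n]
      simp
    have h3 := tendsto_nhds_unique (hsum.congr h0) tendsto_const_nhds
    rw [zero_smul, add_zero] at h3
    exact (neg_eq_of_add_eq_zero_right h3).symm
  -- the unitary elements `exp (c Y)`
  have hU : ∀ c : ℝ, NormedSpace.exp (c • Y) ∈ Matrix.unitaryGroup (Fin N) ℂ := by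
    intro c
    have h1 : star (NormedSpace.exp (c • Y)) = NormedSpace.exp (-(c • Y)) := by
      rw [NormedSpace.star_exp, star_smul, star_trivial, hst, smul_neg]
    rw [Matrix.mem_unitaryGroup_iff, h1, ← NormedSpace.exp_add_of_commute
      ((Commute.refl _).neg_right)]
    simp
  -- the derivative at `0`
  have hd : Tendsto (fun n => (ε n)⁻¹ • (NormedSpace.exp (ε n • Y) - 1)) atTop (𝓝 Y) := by
    have h1 : HasDerivAt (fun u : ℝ => NormedSpace.exp (u • Y)) Y 0 := by
      simpa using hasDerivAt_exp_smul_const (𝕂 := ℝ) Y (0 : ℝ)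
    have h2 := h1.tendsto_slope_zero
    have h3 : Tendsto ε atTop (𝓝[≠] 0) :=
      tendsto_nhdsWithin_iff.2 ⟨hε0, Eventually.of_forall fun n => (hε n).ne'⟩
    have h4 := h2.comp h3
    refine h4.congr fun n => ?_
    simp
  have hdiff : Tendsto (fun n => (ε n)⁻¹ * ‖(w n : Mat N) - NormedSpace.exp (ε n • Y)‖) atTop
      (𝓝 0) := by
    have h1 := (hY.sub hd).norm
    rw [sub_self, norm_zero] at h1
    refine h1.congr fun n => ?_
    rw [← smul_sub, norm_smul, Real.norm_of_nonneg (inv_nonneg.2 (hε n).le)]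
    congr 2
    abel
  -- nonnegative times
  have hpos : ∀ s : ℝ, 0 ≤ s → (⟨NormedSpace.exp (s • Y), hU s⟩ : UG N) ∈ K := by
    intro s hs
    set m : ℕ → ℕ := fun n => ⌊s / ε n⌋₊ with hm
    have hmle : ∀ n, (m n : ℝ) ≤ s / ε n := fun n => Nat.floor_le (div_nonneg hs (hε n).le)
    have hmlt : ∀ n, s / ε n < (m n : ℝ) + 1 := fun n => Nat.lt_floor_add_one _
    have hme : Tendsto (fun n => (m n : ℝ) * ε n) atTop (𝓝 s) := by
      have h1 : Tendsto (fun n => s - ε n) atTop (𝓝 s) := by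
        simpa using tendsto_const_nhds.sub hε0
      refine tendsto_of_tendsto_of_tendsto_of_le_of_le h1 tendsto_const_nhds (fun n => ?_)
        (fun n => ?_)
      · have h2 := hmlt n
        rw [div_lt_iff₀ (hε n)] at h2
        show s - ε n ≤ (m n : ℝ) * ε n
        nlinarith
      · have h2 := hmle n
        rw [le_div_iff₀ (hε n)] at h2
        exact h2
    have hpow : ∀ n, ‖(w n : Mat N) ^ m n - NormedSpace.exp (((m n : ℝ) * ε n) • Y)‖ ≤
        s * ((ε n)⁻¹ * ‖(w n : Mat N) - NormedSpace.exp (ε n • Y)‖) := by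
      intro n
      have h1 := norm_pow_sub_pow (w n) (⟨NormedSpace.exp (ε n • Y), hU (ε n)⟩ : UG N) (m n)
      have h2 : NormedSpace.exp (((m n : ℝ) * ε n) • Y) = NormedSpace.exp (ε n • Y) ^ m n := by
        rw [← NormedSpace.exp_nsmul, mul_smul, Nat.cast_smul_eq_nsmul]
      rw [h2]
      refine h1.trans ?_
      calc (m n : ℝ) * ‖(w n : Mat N) - NormedSpace.exp (ε n • Y)‖
          ≤ (s / ε n) * ‖(w n : Mat N) - NormedSpace.exp (ε n • Y)‖ := by
            gcongr
            exact hmle n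
        _ = _ := by rw [div_eq_mul_inv]; ring
    have hlim1 : Tendsto (fun n => (w n : Mat N) ^ m n -
        NormedSpace.exp (((m n : ℝ) * ε n) • Y)) atTop (𝓝 0) := by
      refine squeeze_zero_norm hpow ?_
      simpa using hdiff.const_mul s
    have hlim2 : Tendsto (fun n => NormedSpace.exp (((m n : ℝ) * ε n) • Y)) atTop
        (𝓝 (NormedSpace.exp (s • Y))) := by
      have hc : Continuous fun u : ℝ => NormedSpace.exp (u • Y) :=
        (NormedSpace.exp_continuous).comp (continuous_id.smul continuous_const)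
      exact (hc.tendsto s).comp hme
    have hlim : Tendsto (fun n => (w n : Mat N) ^ m n) atTop (𝓝 (NormedSpace.exp (s • Y))) := by
      have := hlim1.add hlim2
      simpa using this
    have hlim3 : Tendsto (fun n => (w n) ^ m n) atTop
        (𝓝 (⟨NormedSpace.exp (s • Y), hU s⟩ : UG N)) := by
      rw [tendsto_subtype_rng]
      simpa using hlim
    exact hK.mem_of_tendsto hlim3 (Eventually.of_forall fun n => K.pow_mem (hw n) _)
  intro s
  rcases le_total 0 s with hs | hs
  · exact ⟨_, hpos s hs, rfl⟩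
  · refine ⟨_, K.inv_mem (hpos (-s) (by linarith)), ?_⟩
    show star (NormedSpace.exp (-s • Y)) = _
    rw [NormedSpace.star_exp, star_smul, star_trivial, hst]
    congr 1
    rw [smul_neg, neg_smul, neg_neg]

end STC
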