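import Pool.Agent.STC.LieDefs

/-!
# STC/SCDefs : structure constants of a centreless compact Lie algebra, root decomposition

Coordinates: the real Lie algebra `k` of dimension `d` has a basis `X_i` which is orthonormal for
minus the Killing form, `[X_i, X_j] = ∑ l, c i j l X_l`, and its complexification is `Fin d → ℂ` with
the standard hermitian product `hip`, the standard conjugation `star` and the bracket `br`. For
`Z = X + i Y` in the complexification (inside `M_N(ℂ)`, where `X, Y` are skew-hermitian) the adjoint
matrix is `Z^* = - (X - i Y)`, i.e. it corresponds to `- star Z` in coordinates.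
-/

open scoped ComplexConjugate

namespace STC

/-- Structure constants of a centreless compact real Lie algebra, with respect to a basis which is
orthonormal for minus the Killing form. -/
structure SC (d : ℕ) where
  c : Fin d → Fin d → Fin d → ℝ
  anti12 : ∀ i j l, c j i l = -c i j l
  anti23 : ∀ i j l, c i l j = -c i j l
  jac : ∀ i j k m, ∑ l, (c i j l * c l k m + c j k l * c l i m + c k i l * c l j m) = 0
  kil : ∀ i i', ∑ j, ∑ l, c i j l * c i' j l = if i = i' then 1 else 0

/-- The standard hermitian product of `ℂ^d` (linear in the first argument). -/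
def hip {d : ℕ} (x y : Fin d → ℂ) : ℂ := ∑ i, x i * conj (y i)

/-- Real vectors as complex vectors. -/
def cx {d : ℕ} (x : Fin d → ℝ) : Fin d → ℂ := fun i => (x i : ℂ)

namespace SC

variable {d : ℕ} (S : SC d)

/-- The bracket of the complexified Lie algebra. -/
noncomputable def br : (Fin d → ℂ) →ₗ[ℂ] (Fin d → ℂ) →ₗ[ℂ] (Fin d → ℂ) :=
  LinearMap.mk₂ ℂ (fun x y l => ∑ i, ∑ j, (S.c i j l : ℂ) * x i * y j)
    (by
      intro x x' y; ext l
      simp only [Pi.add_apply, mul_add, add_mul, Finset.sum_add_distrib])
    (by
      intro a x y; ext l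
      simp only [Pi.smul_apply, smul_eq_mul, Finset.mul_sum]
      refine Finset.sum_congr rfl fun i _ => Finset.sum_congr rfl fun j _ => by ring)
    (by
      intro x y y'; ext l
      simp only [Pi.add_apply, mul_add, Finset.sum_add_distrib])
    (by
      intro a x y; ext l
      simp only [Pi.smul_apply, smul_eq_mul, Finset.mul_sum]
      refine Finset.sum_congr rfl fun i _ => Finset.sum_congr rfl fun j _ => by ring)

lemma br_apply (x y : Fin d → ℂ) (l : Fin d) :
    S.br x y l = ∑ i, ∑ j, (S.c i j l : ℂ) * x i * y j := rfl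

end SC

/-- Root decomposition of a centreless compact Lie algebra given by structure constants `S`:
`r` = rank, `M` = number of positive roots counted with multiplicity. The vectors `cx (H k)`,
`E b`, `star (E b)` form an orthonormal basis of `ℂ^d`. -/
structure RootDec {d : ℕ} (S : SC d) (r M : ℕ) where
  /-- orthonormal basis of a maximal abelian subalgebra -/
  H : Fin r → Fin d → ℝ
  /-- orthonormal root vectors for the positive roots -/
  E : Fin M → Fin d → ℂ
  root : Fin M → Fin r → ℝ
  H0 : Fin r → ℝ
  dim : r + 2 * M = d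
  hipHH : ∀ j k, ∑ i, H j i * H k i = if j = k then 1 else 0
  hipEE : ∀ b c, hip (E b) (E c) = if b = c then 1 else 0
  hipEsE : ∀ b c, hip (E b) (star (E c)) = 0
  hipEH : ∀ b k, hip (E b) (cx (H k)) = 0
  brHH : ∀ j k, S.br (cx (H j)) (cx (H k)) = 0
  brHE : ∀ k b, S.br (cx (H k)) (E b) = (Complex.I * (root b k : ℂ)) • E b
  /-- `[E, E^*] = - i t_b`, with `E^* = - star E` -/
  brEF : ∀ b, S.br (E b) (-star (E b)) = -(Complex.I • ∑ k, (root b k : ℂ) • cx (H k))
  brEE : ∀ b c, S.br (E b) (E c) ∈
    Submodule.span ℂ {Z | ∃ e, root e = root b + root c ∧ Z = E e}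
  brEFne : ∀ b c, b ≠ c → S.br (E b) (-star (E c)) ∈ Submodule.span ℂ
    ({Z | ∃ e, root b = root c + root e ∧ Z = E e} ∪
      {Z | ∃ e, root c = root b + root e ∧ Z = -star (E e)})
  root_pos : ∀ b, 0 < ∑ k, root b k * H0 k
  killing : ∀ x y : Fin r → ℝ, ∑ k, x k * y k =
    2 * ∑ b, (∑ k, root b k * x k) * (∑ k, root b k * y k)

end STC
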