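import Pool.Agent.STC.LieBas
import Pool.Agent.STC.SCDefs

/-!
# STC/LieSC : structure constants of a Lie basis, coordinates on the complexification

`c i j l = B.X.repr ⁅B.X i, B.X j⁆ l`. `anti12`: `lie_skew`. `c i j l = - κ([X_i, X_j], X_l)`
(expand `[X_i, X_j]` and use `B.orth`), and `κ([x, y], z) = κ(x, [y, z])`
(`LieModule.traceForm_apply_lie_apply`), `κ` symmetric: `c i j l = c j l i`; with `anti12` this gives
`anti23`. `jac`: the Jacobi identity (`lie_jacobi` or `leibniz_lie`) in coordinates. `kil`: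
`κ(X_i, X_i') = trace (ad X_i ∘ ad X_i') = Σ_j (coordinate j of [X_i, [X_i', X_j]])
= Σ_j Σ_l c i' j l c i l j = - Σ_j Σ_l c i' j l c i j l` (`LinearMap.trace_eq_matrix_trace`).
`toMat_injective`: the `mat i` are real linearly independent and skew-hermitian; if `Σ (a_i + I b_i)
mat i = 0` with `a, b` real then `Σ a_i mat i` is skew-hermitian and equals `- I Σ b_i mat i`,
hermitian; so both vanish.
-/

open scoped ComplexConjugate

namespace STC

attribute [local instance 100] LieRing.ofAssociativeRing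

namespace LieBasis

variable {N : ℕ} {K : Subgroup (UG N)} {hK : IsClosed (K : Set (UG N))} {d : ℕ}
  (B : LieBasis K hK d)

/-- the basis as matrices -/
noncomputable def mat (i : Fin d) : Mat N := (B.X i : Mat N)

private lemma repr_kil (v : lieAlg K hK) (l : Fin d) :
    killingForm ℝ (lieAlg K hK) v (B.X l) = -B.X.repr v l := by
  conv_lhs => rw [← B.X.sum_repr v]
  rw [map_sum, LinearMap.sum_apply]
  simp only [map_smul, LinearMap.smul_apply, B.orth, smul_eq_mul]
  rw [Finset.sum_eq_single l]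
  · simp
  · intro b _ hb
    rw [if_neg hb, mul_zero]
  · intro h
    exact absurd (Finset.mem_univ l) h

private lemma repr_lie_right (v : lieAlg K hK) (k m : Fin d) :
    B.X.repr ⁅v, B.X k⁆ m = ∑ l, B.X.repr v l * B.X.repr ⁅B.X l, B.X k⁆ m := by
  conv_lhs => rw [← B.X.sum_repr v]
  rw [sum_lie, map_sum, Finsupp.finsetSum_apply]
  refine Finset.sum_congr rfl fun l _ => ?_
  rw [smul_lie, map_smul, Finsupp.smul_apply, smul_eq_mul]

private lemma repr_lie_left (v : lieAlg K hK) (k m : Fin d) :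
    B.X.repr ⁅B.X k, v⁆ m = ∑ l, B.X.repr v l * B.X.repr ⁅B.X k, B.X l⁆ m := by
  conv_lhs => rw [← B.X.sum_repr v]
  rw [lie_sum, map_sum, Finsupp.finsetSum_apply]
  refine Finset.sum_congr rfl fun l _ => ?_
  rw [lie_smul, map_smul, Finsupp.smul_apply, smul_eq_mul]

private lemma c_anti12 (i j l : Fin d) :
    B.X.repr ⁅B.X j, B.X i⁆ l = -B.X.repr ⁅B.X i, B.X j⁆ l := by
  rw [← lie_skew (B.X j) (B.X i), map_neg, Finsupp.neg_apply]

private lemma c_anti23 (i j l : Fin d) :
    B.X.repr ⁅B.X i, B.X l⁆ j = -B.X.repr ⁅B.X i, B.X j⁆ l := by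
  have h1 := B.repr_kil ⁅B.X i, B.X l⁆ j
  have h2 := B.repr_kil ⁅B.X i, B.X j⁆ l
  have h3 : killingForm ℝ (lieAlg K hK) ⁅B.X i, B.X l⁆ (B.X j) =
      killingForm ℝ (lieAlg K hK) (B.X i) ⁅B.X l, B.X j⁆ :=
    LieModule.traceForm_apply_lie_apply ℝ (lieAlg K hK) (lieAlg K hK) _ _ _
  have h4 : killingForm ℝ (lieAlg K hK) ⁅B.X i, B.X j⁆ (B.X l) =
      killingForm ℝ (lieAlg K hK) (B.X i) ⁅B.X j, B.X l⁆ :=
    LieModule.traceForm_apply_lie_apply ℝ (lieAlg K hK) (lieAlg K hK) _ _ _
  rw [← lie_skew (B.X j) (B.X l), map_neg] at h4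
  rw [h3] at h1
  rw [h4] at h2
  linarith

/-- the structure constants -/
noncomputable def sc : SC d where
  c := fun i j l => B.X.repr ⁅B.X i, B.X j⁆ l
  anti12 := by
    intro i j l
    exact c_anti12 B i j l
  anti23 := by
    intro i j l
    exact c_anti23 B i j l
  jac := by
    intro i j k m
    rw [Finset.sum_add_distrib, Finset.sum_add_distrib]
    rw [← repr_lie_right B ⁅B.X i, B.X j⁆ k m, ← repr_lie_right B ⁅B.X j, B.X k⁆ i m,
      ← repr_lie_right B ⁅B.X k, B.X i⁆ j m, ← Finsupp.add_apply, ← Finsupp.add_apply, ← map_add,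
      ← map_add]
    have h : ⁅⁅B.X i, B.X j⁆, B.X k⁆ + ⁅⁅B.X j, B.X k⁆, B.X i⁆ + ⁅⁅B.X k, B.X i⁆, B.X j⁆ = 0 := by
      have := lie_jacobi (B.X i) (B.X j) (B.X k)
      have a1 : ⁅⁅B.X i, B.X j⁆, B.X k⁆ = -⁅B.X k, ⁅B.X i, B.X j⁆⁆ := (lie_skew _ _).symm
      have a2 : ⁅⁅B.X j, B.X k⁆, B.X i⁆ = -⁅B.X i, ⁅B.X j, B.X k⁆⁆ := (lie_skew _ _).symm
      have a3 : ⁅⁅B.X k, B.X i⁆, B.X j⁆ = -⁅B.X j, ⁅B.X k, B.X i⁆⁆ := (lie_skew _ _).symm
      rw [a1, a2, a3, ← neg_add, ← neg_add, neg_eq_zero, ← this]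
      abel
    rw [h, map_zero, Finsupp.zero_apply]
  kil := by
    intro i i'
    have h1 := B.orth i i'
    rw [killingForm_apply_apply, LinearMap.trace_eq_matrix_trace ℝ B.X, Matrix.trace] at h1
    have h2 : ∀ j, Matrix.diag (LinearMap.toMatrix B.X B.X
        (LieAlgebra.ad ℝ (lieAlg K hK) (B.X i) ∘ₗ LieAlgebra.ad ℝ (lieAlg K hK) (B.X i'))) j =
        -∑ l, B.X.repr ⁅B.X i, B.X j⁆ l * B.X.repr ⁅B.X i', B.X j⁆ l := by
      intro j
      rw [Matrix.diag_apply, LinearMap.toMatrix_apply, LinearMap.comp_apply, LieAlgebra.ad_apply,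
        LieAlgebra.ad_apply, repr_lie_left, ← Finset.sum_neg_distrib]
      refine Finset.sum_congr rfl fun l _ => ?_
      rw [c_anti23 B i j l]
      ring
    rw [Finset.sum_congr rfl fun j _ => h2 j, Finset.sum_neg_distrib] at h1
    by_cases hii : i = i'
    · rw [if_pos hii] at h1 ⊢
      linarith
    · rw [if_neg hii] at h1 ⊢
      linarith

/-- coordinates on the complexified Lie algebra -/
noncomputable def toMat : (Fin d → ℂ) →ₗ[ℂ] Mat N where
  toFun x := ∑ i, x i • B.mat i
  map_add' x y := by simp only [Pi.add_apply, add_smul, Finset.sum_add_distrib]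
  map_smul' a x := by
    simp only [Pi.smul_apply, smul_eq_mul, mul_smul, Finset.smul_sum, RingHom.id_apply]

lemma toMat_apply (x : Fin d → ℂ) : B.toMat x = ∑ i, x i • B.mat i := rfl

theorem mat_mem (i : Fin d) : B.mat i ∈ lieSet K := (B.X i).2

theorem star_mat (i : Fin d) : star (B.mat i) = -B.mat i := star_of_mem_lieSet (B.mat_mem i)

private lemma toMat_cx (x : Fin d → ℝ) :
    B.toMat (cx x) = ((∑ i, x i • B.X i : lieAlg K hK) : Mat N) := by
  rw [toMat_apply, AddSubmonoidClass.coe_finsetSum]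
  refine Finset.sum_congr rfl fun i _ => ?_
  have h : ((x i • B.X i : lieAlg K hK) : Mat N) = x i • B.mat i := rfl
  rw [h]
  ext a b
  simp only [cx, Matrix.smul_apply, smul_eq_mul, Complex.real_smul]

/-- every element of the Lie algebra is a real combination of the basis -/
theorem exists_real (Y : Mat N) (hY : Y ∈ lieSet K) : ∃ x : Fin d → ℝ, Y = B.toMat (cx x) := by
  refine ⟨fun i => B.X.repr (⟨Y, hY⟩ : lieAlg K hK) i, ?_⟩
  rw [toMat_cx, B.X.sum_repr]

theorem toMat_cx_mem (x : Fin d → ℝ) : B.toMat (cx x) ∈ lieSet K := by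
  rw [toMat_cx]
  exact (∑ i, x i • B.X i : lieAlg K hK).2

/-- `Z^*` corresponds to `- star z` -/
private theorem toMat_star' (x : Fin d → ℂ) : star (B.toMat x) = B.toMat (-star x) := by
  rw [toMat_apply, toMat_apply, star_sum]
  refine Finset.sum_congr rfl fun i _ => ?_
  rw [star_smul, star_mat, Pi.neg_apply, Pi.star_apply, smul_neg, neg_smul]

private lemma toMat_cx_inj (x : Fin d → ℝ) (h : B.toMat (cx x) = 0) : x = 0 := by
  rw [toMat_cx] at h
  have h1 : (∑ i, x i • B.X i : lieAlg K hK) = 0 := Subtype.ext h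
  have h2 := Fintype.linearIndependent_iff.1 B.X.linearIndependent x h1
  exact funext h2

theorem toMat_injective : Function.Injective B.toMat := by
  rw [← LinearMap.ker_eq_bot, LinearMap.ker_eq_bot']
  intro x hx
  have h1 : B.toMat (star x) = 0 := by
    have h := toMat_star' B x
    rw [hx, star_zero, map_neg] at h
    exact neg_eq_zero.1 h.symm
  have h2 : B.toMat (cx fun i => 2 * (x i).re) = 0 := by
    have h3 : (cx fun i => 2 * (x i).re) = x + star x := by
      ext i
      rw [Pi.add_apply, Pi.star_apply]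
      simp only [cx]
      rw [show star (x i) = conj (x i) from rfl, Complex.add_conj]
    rw [h3, map_add, hx, h1, add_zero]
  have h4 : B.toMat (cx fun i => 2 * (x i).im) = 0 := by
    have h5 : (cx fun i => 2 * (x i).im) = (-Complex.I) • (x - star x) := by
      ext i
      rw [Pi.smul_apply, Pi.sub_apply, Pi.star_apply]
      simp only [cx]
      rw [show star (x i) = conj (x i) from rfl, Complex.sub_conj, smul_eq_mul]
      rw [show -Complex.I * (((2 * (x i).im : ℝ) : ℂ) * Complex.I) =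
        -(Complex.I * Complex.I) * ((2 * (x i).im : ℝ) : ℂ) by ring, Complex.I_mul_I]
      ring
    rw [h5, map_smul, map_sub, hx, h1, sub_zero, smul_zero]
  have h6 := toMat_cx_inj B _ h2
  have h7 := toMat_cx_inj B _ h4
  ext i
  apply Complex.ext
  · have := congrFun h6 i
    simp only [Pi.zero_apply] at this
    simp only [Pi.zero_apply, Complex.zero_re]
    linarith
  · have := congrFun h7 i
    simp only [Pi.zero_apply] at this
    simp only [Pi.zero_apply, Complex.zero_im]
    linarith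

private lemma mat_br (i j : Fin d) : B.mat i * B.mat j - B.mat j * B.mat i =
    ∑ l, (B.sc.c i j l : ℂ) • B.mat l := by
  have h := toMat_cx B (fun l => B.sc.c i j l)
  have h1 : (∑ l, B.sc.c i j l • B.X l : lieAlg K hK) = ⁅B.X i, B.X j⁆ :=
    B.X.sum_repr ⁅B.X i, B.X j⁆
  rw [h1] at h
  rw [toMat_apply] at h
  rw [show (∑ l, (B.sc.c i j l : ℂ) • B.mat l) = ∑ i_1, cx (fun l => B.sc.c i j l) i_1 • B.mat i_1
    from rfl, h]
  rw [LieSubalgebra.coe_bracket]
  exact (Ring.lie_def _ _).symm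

theorem toMat_br (x y : Fin d → ℂ) :
    B.toMat (B.sc.br x y) = B.toMat x * B.toMat y - B.toMat y * B.toMat x := by
  have h1 : B.toMat x * B.toMat y - B.toMat y * B.toMat x =
      ∑ i, ∑ j, (x i * y j) • (B.mat i * B.mat j - B.mat j * B.mat i) := by
    rw [toMat_apply, toMat_apply, Finset.sum_mul_sum, Finset.sum_mul_sum]
    rw [Finset.sum_comm (f := fun i j => y i • B.mat i * x j • B.mat j), ← Finset.sum_sub_distrib]
    refine Finset.sum_congr rfl fun i _ => ?_
    rw [← Finset.sum_sub_distrib]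
    refine Finset.sum_congr rfl fun j _ => ?_
    rw [smul_mul_smul_comm, smul_mul_smul_comm, smul_sub, mul_comm (y j) (x i)]
  rw [h1, toMat_apply]
  simp only [mat_br, Finset.smul_sum, SC.br_apply, Finset.sum_smul]
  rw [Finset.sum_comm]
  refine Finset.sum_congr rfl fun i _ => ?_
  rw [Finset.sum_comm]
  refine Finset.sum_congr rfl fun j _ => ?_
  refine Finset.sum_congr rfl fun l _ => ?_
  rw [smul_smul]
  congr 1
  ring

/-- `Z^*` corresponds to `- star z` -/
theorem toMat_star (x : Fin d → ℂ) : star (B.toMat x) = B.toMat (-star x) := toMat_star' B x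

/-- linear functionals on `M_N(ℂ)` which give the coordinates -/
theorem exists_lam : ∃ lam : Fin d → (Mat N →ₗ[ℂ] ℂ), ∀ i x, lam i (B.toMat x) = x i := by
  obtain ⟨g, hg⟩ := B.toMat.exists_leftInverse_of_injective
    (LinearMap.ker_eq_bot.2 B.toMat_injective)
  refine ⟨fun i => (LinearMap.proj i).comp g, fun i x => ?_⟩
  have h : g (B.toMat x) = x := congrFun (congrArg DFunLike.coe hg) x
  rw [LinearMap.comp_apply, h]
  rfl

end LieBasis

end STC
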