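import Pool.Agent.STC.Iface

/-!
# STC/PiFam: finite products of families

PROOF. Everything is componentwise. `schur`: the integrand is a product over `j` of functions of `x j`;
`MeasureTheory.integral_fintype_prod_eq_prod` / `integral_fintype_prod_volume_eq_prod` (`volume` on the
product is `Measure.pi fun _ => volume`). `schur_ne`: if `l ≠ m` then `l j ≠ m j` for some `j` and the
`j`-th factor vanishes. `cas_eq`, `φ_tor`: `Fintype.sum_sigma`; for `cas_eq` and `ell_inj` note that
`ell ⟨j, a⟩ ⟨j', b⟩ = 0` for `j ≠ j'` (the cast in the definition is along `j = j'`).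
-/

open MeasureTheory
open scoped ComplexConjugate

namespace STC

variable {J : Type} [Fintype J] [DecidableEq J] {G : J → Type} [∀ j, Group (G j)]
  [∀ j, TopologicalSpace (G j)] [∀ j, MeasureSpace (G j)]
  [∀ j, IsProbabilityMeasure (volume : Measure (G j))] {ι : J → Type} [∀ j, Fintype (ι j)]

private lemma sum_single {R : Type} [AddCommMonoid R] (j : J) (C : (Σ j, ι j) → R)
    (hC : ∀ b : Σ j, ι j, b.1 ≠ j → C b = 0) : ∑ b, C b = ∑ i, C ⟨j, i⟩ := by
  rw [Fintype.sum_sigma, Finset.sum_eq_single j]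
  · intro j' _ hj'
    exact Finset.sum_eq_zero fun i _ => hC ⟨j', i⟩ hj'
  · intro h
    exact absurd (Finset.mem_univ j) h

/-- The product family on `∀ j, G j`. -/
noncomputable def TFam.pi (T : ∀ j, TFam (G j) (ι j)) : TFam (∀ j, G j) (Σ j, ι j) where
  Λ := ∀ j, (T j).Λ
  φ l x := ∏ j, (T j).φ (l j) (x j)
  d l := ∏ j, (T j).d (l j)
  w l a := (T a.1).w (l a.1) a.2
  tor θ := fun j => (T j).tor fun i => θ ⟨j, i⟩
  cas l := ∑ j, (T j).cas (l j)
  q a := (T a.1).q a.2
  ell a b := if h : b.1 = a.1 then (T a.1).ell a.2 (h ▸ b.2) else 0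
  eta a := (T a.1).eta a.2
  cont := by
    intro l
    refine continuous_finsetProd _ fun j _ => ?_
    exact ((T j).cont (l j)).comp (continuous_apply j)
  one_le_d := by
    intro l
    exact Finset.prod_induction _ (fun x : ℝ => 1 ≤ x)
      (fun a b ha hb => one_le_mul_of_one_le_of_one_le ha hb) le_rfl
      fun j _ => (T j).one_le_d (l j)
  φ_one := by
    intro l
    exact Finset.prod_eq_one fun j _ => (T j).φ_one (l j)
  φ_inv := by
    intro l y
    rw [map_prod]
    exact Finset.prod_congr rfl fun j _ => (T j).φ_inv (l j) (y j)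
  φ_le := by
    intro l y
    rw [norm_prod]
    exact Finset.prod_le_one (fun j _ => norm_nonneg _) fun j _ => (T j).φ_le (l j) (y j)
  schur := by
    intro l z g
    have h1 : ∀ x : ∀ j, G j, (∏ j, (T j).φ (l j) (x j)) *
        ∏ j, (T j).φ (l j) ((g⁻¹ * x⁻¹ * z) j) =
        ∏ j, ((T j).φ (l j) (x j) * (T j).φ (l j) ((g j)⁻¹ * (x j)⁻¹ * z j)) := fun x =>
      Finset.prod_mul_distrib.symm
    simp only [h1]
    rw [MeasureTheory.integral_fintype_prod_volume_eq_prod
      (fun j (t : G j) => (T j).φ (l j) t * (T j).φ (l j) ((g j)⁻¹ * t⁻¹ * z j))]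
    simp only [(T _).schur]
    rw [Finset.prod_div_distrib, Finset.prod_mul_distrib, map_prod, Complex.ofReal_prod]
  schur_ne := by
    intro l m hlm z g
    obtain ⟨j, hj⟩ := Function.ne_iff.1 hlm
    have h1 : ∀ x : ∀ j, G j, (∏ j, (T j).φ (m j) (x j)) *
        ∏ j, (T j).φ (l j) ((g⁻¹ * x⁻¹ * z) j) =
        ∏ j, ((T j).φ (m j) (x j) * (T j).φ (l j) ((g j)⁻¹ * (x j)⁻¹ * z j)) := fun x =>
      Finset.prod_mul_distrib.symm
    simp only [h1]
    rw [MeasureTheory.integral_fintype_prod_volume_eq_prod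
      (fun j (t : G j) => (T j).φ (m j) t * (T j).φ (l j) ((g j)⁻¹ * t⁻¹ * z j))]
    exact Finset.prod_eq_zero (Finset.mem_univ j) ((T j).schur_ne _ _ hj (z j) (g j))
  w_inj := by
    intro l m h
    funext j
    apply (T j).w_inj
    funext i
    exact congrFun h ⟨j, i⟩
  tor_add := by
    intro x y
    funext j
    exact (T j).tor_add (fun i => x ⟨j, i⟩) (fun i => y ⟨j, i⟩)
  tor_cont := by
    refine continuous_pi fun j => (T j).tor_cont.comp ?_
    exact continuous_pi fun i => continuous_apply _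
  φ_tor := by
    intro l z θ
    have h1 : ∀ j, (T j).φ (l j) (z j * (T j).tor fun i => θ ⟨j, i⟩) =
        Complex.exp (Complex.I * ((∑ k, ((T j).w (l j) k : ℝ) * θ ⟨j, k⟩ : ℝ) : ℂ)) *
          (T j).φ (l j) (z j) := fun j => (T j).φ_tor (l j) (z j) fun i => θ ⟨j, i⟩
    change ∏ j, (T j).φ (l j) (z j * (T j).tor fun i => θ ⟨j, i⟩) = _
    simp only [h1]
    rw [Finset.prod_mul_distrib, ← Complex.exp_sum, ← Finset.mul_sum, ← Complex.ofReal_sum,
      Fintype.sum_sigma]
  q_pos := fun a => (T a.1).q_pos a.2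
  ell_inj := by
    intro x hx
    have h1 : ∀ j, (fun i => x ⟨j, i⟩) = (0 : ι j → ℚ) := by
      intro j
      apply (T j).ell_inj
      intro i
      have h2 := hx ⟨j, i⟩
      rw [sum_single j _ (fun b hb => by rw [dif_neg hb, zero_mul])] at h2
      simpa using h2
    funext a
    exact congrFun (h1 a.1) a.2
  cas_eq := by
    intro l
    have h1 : ∀ j, (T j).cas (l j) = ∑ i, (T j).q i * (∑ k, ((T j).ell i k : ℝ) *
        (T j).w (l j) k) ^ 2 + ∑ i, (T j).eta i * (T j).w (l j) i := fun j => (T j).cas_eq (l j)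
    simp only [h1]
    rw [Finset.sum_add_distrib, Fintype.sum_sigma, Fintype.sum_sigma]
    congr 1
    refine Finset.sum_congr rfl fun j _ => Finset.sum_congr rfl fun i _ => ?_
    congr 2
    rw [sum_single j _ (fun b hb => by rw [dif_neg hb, Rat.cast_zero, zero_mul])]
    refine Finset.sum_congr rfl fun k _ => ?_
    rw [dif_pos rfl]
  cas_nonneg := fun l => Finset.sum_nonneg fun j _ => (T j).cas_nonneg (l j)

end STC
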