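import Pool.Agent.STC.PiFam

/-!
# STC/PiKern: kernel families on finite products

PROOF. As in `ProdKern`: `C = ∏ C_j`, pieces = choice functions `i : ∀ j, Fin (n_j N)`,
`D = ∏ D_j`, `supp = Fintype.piFinset`, `mid = Fintype.piFinset`, `κ l = ∏ κ_j (l j)`. The kernel is the
product of the kernels: `∑_{l ∈ piFinset} ∏ = ∏ ∑` (`Finset.prod_univ_sum`), its `L¹` norm is the product
(`integral_fintype_prod_volume_eq_prod`). `sum_D`: `∑_i ∏ D_j^θ = ∏_j ∑ D_j^θ`
(`Finset.prod_univ_sum`, `Real.finset_prod_rpow`), `∏ (N+1)^{M_j θ} = (N+1)^{(∑ M_j) θ}`. Indices: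
`Fintype.equivFin (∀ j, Fin (n_j N))`.
-/

open MeasureTheory
open scoped ComplexConjugate

namespace STC

variable {J : Type} [Fintype J] [DecidableEq J] {G : J → Type} [∀ j, Group (G j)]
  [∀ j, TopologicalSpace (G j)] [∀ j, MeasureSpace (G j)]
  [∀ j, IsProbabilityMeasure (volume : Measure (G j))] {ι : J → Type} [∀ j, Fintype (ι j)]

private lemma piKern_norm {T : ∀ j, TFam (G j) (ι j)} {C : J → ℝ}
    (P : ∀ j, Piece (T j) (C j)) :
    ∫ x : (∀ j, G j), ‖∑ l ∈ Fintype.piFinset (fun j => (P j).supp),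
      ((∏ j, (P j).κ (l j) : ℝ) : ℂ) * ∏ j, (T j).φ (l j) (x j)‖ ≤ ∏ j, C j := by
  have h1 : ∀ x : (∀ j, G j), ‖∑ l ∈ Fintype.piFinset (fun j => (P j).supp),
      ((∏ j, (P j).κ (l j) : ℝ) : ℂ) * ∏ j, (T j).φ (l j) (x j)‖ =
      ∏ j, ‖∑ l ∈ (P j).supp, ((P j).κ l : ℂ) * (T j).φ l (x j)‖ := by
    intro x
    rw [← norm_prod, Finset.prod_univ_sum]
    congr 1
    refine Finset.sum_congr rfl fun l _ => ?_
    push_cast
    rw [Finset.prod_mul_distrib]
  simp_rw [h1]
  have h2 := MeasureTheory.integral_fintype_prod_volume_eq_prod (𝕜 := ℝ)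
    (fun j (x : G j) => ‖∑ l ∈ (P j).supp, ((P j).κ l : ℂ) * (T j).φ l x‖)
  rw [h2]
  exact Finset.prod_le_prod (fun j _ => integral_nonneg fun _ => norm_nonneg _)
    fun j _ => (P j).norm_le

private lemma one_le_prod' {f : J → ℝ} (hf : ∀ j, 1 ≤ f j) : 1 ≤ ∏ j, f j := by
  calc (1 : ℝ) = ∏ _j : J, (1 : ℝ) := by simp
    _ ≤ ∏ j, f j := Finset.prod_le_prod (fun _ _ => zero_le_one) fun j _ => hf j

private lemma le_prod' {f : J → ℝ} (hf : ∀ j, 1 ≤ f j) (i : J) : f i ≤ ∏ j, f j := by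
  rw [← Finset.mul_prod_erase Finset.univ f (Finset.mem_univ i)]
  have h1 : 1 ≤ ∏ j ∈ Finset.univ.erase i, f j := by
    calc (1 : ℝ) = ∏ _j ∈ Finset.univ.erase i, (1 : ℝ) := by simp
      _ ≤ _ := Finset.prod_le_prod (fun _ _ => zero_le_one) fun j _ => hf j
  have h2 : 0 ≤ f i := zero_le_one.trans (hf i)
  nlinarith

/-- The product of finitely many pieces. -/
private noncomputable def piPiece {T : ∀ j, TFam (G j) (ι j)} {C : J → ℝ}
    (P : ∀ j, Piece (T j) (C j)) : Piece (TFam.pi T) (∏ j, C j) where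
  D := ∏ j, (P j).D
  supp := Fintype.piFinset fun j => (P j).supp
  κ l := ∏ j, (P j).κ (l j)
  mid := Fintype.piFinset fun j => (P j).mid
  one_le_D := one_le_prod' fun j => (P j).one_le_D
  mid_sub := Fintype.piFinset_subset _ _ fun j => (P j).mid_sub
  norm_le := piKern_norm P
  κ_ge := by
    intro l hl
    have hl' := Fintype.mem_piFinset.1 hl
    rw [← Finset.prod_mul_distrib]
    exact Finset.prod_le_prod (fun j _ => zero_le_one.trans (P j).one_le_D)
      fun j _ => (P j).κ_ge (l j) (hl' j)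
  d_le := by
    intro l hl
    have hl' := Fintype.mem_piFinset.1 hl
    show ∏ j, (T j).d (l j) ≤ _
    rw [← Finset.prod_mul_distrib]
    exact Finset.prod_le_prod (fun j _ => zero_le_one.trans ((T j).one_le_d _))
      fun j _ => (P j).d_le (l j) (hl' j)
  κ_le := by
    intro l hl
    have hl' := Fintype.mem_piFinset.1 hl
    rw [Finset.abs_prod, ← Finset.prod_mul_distrib]
    exact Finset.prod_le_prod (fun j _ => abs_nonneg _)
      fun j _ => (P j).κ_le (l j) (hl' j)
  le_d := by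
    intro l hl
    have hl' := Fintype.mem_piFinset.1 hl
    show _ ≤ (∏ j, C j) * ∏ j, (T j).d (l j)
    rw [← Finset.prod_mul_distrib]
    exact Finset.prod_le_prod (fun j _ => zero_le_one.trans (P j).one_le_D)
      fun j _ => (P j).le_d (l j) (hl' j)

theorem KernFam.pi {T : ∀ j, TFam (G j) (ι j)} {M : J → ℝ} (A : ∀ j, KernFam (T j) (M j)) :
    Nonempty (KernFam (TFam.pi T) (∑ j, M j)) := by
  refine ⟨{
    C := ∏ j, (A j).C
    one_le_C := one_le_prod' fun j => (A j).one_le_C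
    n := fun N => Fintype.card (∀ j, Fin ((A j).n N))
    piece := fun N i => piPiece fun j =>
      (A j).piece N ((Fintype.equivFin (∀ j, Fin ((A j).n N))).symm i j)
    cover := ?_
    w_le := ?_
    sum_D := ?_ }⟩
  · intro N l hl
    have h := fun j => (A j).cover N (l j) fun k => hl ⟨j, k⟩
    choose i hi using h
    refine ⟨Fintype.equivFin (∀ j, Fin ((A j).n N)) i, ?_⟩
    simp only [Equiv.symm_apply_apply]
    exact Fintype.mem_piFinset.2 hi
  · intro N i l hl k
    have hl' := Fintype.mem_piFinset.1 hl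
    have hN : (0 : ℝ) ≤ (N : ℝ) + 1 := by positivity
    exact ((A k.1).w_le N _ (l k.1) (hl' k.1) k.2).trans
      (mul_le_mul_of_nonneg_right (le_prod' (fun j => (A j).one_le_C) k.1) hN)
  · intro θ hθ
    have h := fun j => (A j).sum_D θ hθ
    choose c hc using h
    refine ⟨∏ j, max (c j) 0, fun N => ?_⟩
    have hN : (0 : ℝ) < (N : ℝ) + 1 := by positivity
    have e1 : ∑ i, (piPiece fun j => (A j).piece N
        ((Fintype.equivFin (∀ j, Fin ((A j).n N))).symm i j)).D ^ θ =
        ∏ j, ∑ i, ((A j).piece N i).D ^ θ := by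
      rw [Finset.prod_univ_sum, Fintype.piFinset_univ]
      rw [← Equiv.sum_comp (Fintype.equivFin (∀ j, Fin ((A j).n N))).symm
        (fun x => ∏ j, ((A j).piece N (x j)).D ^ θ)]
      refine Finset.sum_congr rfl fun i _ => ?_
      show (∏ j, _) ^ θ = _
      exact (Real.finset_prod_rpow _ _
        (fun j _ => zero_le_one.trans ((A j).piece N _).one_le_D) _).symm
    rw [e1]
    calc ∏ j, ∑ i, ((A j).piece N i).D ^ θ
        ≤ ∏ j, (max (c j) 0 * ((N : ℝ) + 1) ^ (M j * θ)) := by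
          refine Finset.prod_le_prod (fun j _ => Finset.sum_nonneg fun i _ =>
            Real.rpow_nonneg (zero_le_one.trans ((A j).piece N i).one_le_D) _) fun j _ => ?_
          exact (hc j N).trans
            (mul_le_mul_of_nonneg_right (le_max_left _ _) (Real.rpow_nonneg hN.le _))
      _ = _ := by
          rw [Finset.prod_mul_distrib, Finset.sum_mul, Real.rpow_sum_of_pos hN]

end STC
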