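import Pool.Agent.STC.Iface

/-!
# STC/ProdFam: products of two families

PROOF. Everything is componentwise. `schur`: the integrand is a product of a function of `x.1` and a
function of `x.2`; `MeasureTheory.integral_prod_mul` (`volume` on `G × H` is `volume.prod volume`,
`Measure.volume_eq_prod`). `schur_ne`: one of the two factors vanishes. `cont`, `φ_le`, ...: products.
`cas_eq`, `φ_tor`: `Fintype.sum_sum_type`.
-/

open MeasureTheory
open scoped ComplexConjugate

namespace STC

variable {G H : Type} [Group G] [TopologicalSpace G] [MeasureSpace G]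
  [IsProbabilityMeasure (volume : Measure G)] [Group H] [TopologicalSpace H] [MeasureSpace H]
  [IsProbabilityMeasure (volume : Measure H)] {ι κ : Type} [Fintype ι] [Fintype κ]

private lemma prod_schur_aux (T : TFam G ι) (U : TFam H κ) (l m : T.Λ × U.Λ) (z g : G × H) :
    ∫ x : G × H, T.φ m.1 x.1 * U.φ m.2 x.2 *
      (T.φ l.1 (g⁻¹ * x⁻¹ * z).1 * U.φ l.2 (g⁻¹ * x⁻¹ * z).2) =
    (∫ x, T.φ m.1 x * T.φ l.1 (g.1⁻¹ * x⁻¹ * z.1)) *
      ∫ x, U.φ m.2 x * U.φ l.2 (g.2⁻¹ * x⁻¹ * z.2) := by
  rw [Measure.volume_eq_prod, ← MeasureTheory.integral_prod_mul]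
  refine integral_congr_ae (Filter.Eventually.of_forall fun x => ?_)
  simp only [Prod.fst_mul, Prod.snd_mul, Prod.fst_inv, Prod.snd_inv]
  ring

/-- The product family on `G × H`. -/
noncomputable def TFam.prod (T : TFam G ι) (U : TFam H κ) : TFam (G × H) (ι ⊕ κ) where
  Λ := T.Λ × U.Λ
  φ l x := T.φ l.1 x.1 * U.φ l.2 x.2
  d l := T.d l.1 * U.d l.2
  w l := Sum.elim (T.w l.1) (U.w l.2)
  tor θ := (T.tor fun i => θ (Sum.inl i), U.tor fun i => θ (Sum.inr i))
  cas l := T.cas l.1 + U.cas l.2
  q := Sum.elim T.q U.q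
  ell := Sum.elim (fun j => Sum.elim (T.ell j) fun _ => 0) (fun j => Sum.elim (fun _ => 0) (U.ell j))
  eta := Sum.elim T.eta U.eta
  cont l := ((T.cont l.1).comp continuous_fst).mul ((U.cont l.2).comp continuous_snd)
  one_le_d l := one_le_mul_of_one_le_of_one_le (T.one_le_d _) (U.one_le_d _)
  φ_one l := by
    show T.φ l.1 1 * U.φ l.2 1 = 1
    rw [T.φ_one, U.φ_one, one_mul]
  φ_inv l y := by
    show conj (T.φ l.1 y.1 * U.φ l.2 y.2) = T.φ l.1 y.1⁻¹ * U.φ l.2 y.2⁻¹
    rw [map_mul, T.φ_inv, U.φ_inv]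
  φ_le l y := by
    rw [norm_mul]
    exact mul_le_one₀ (T.φ_le _ _) (norm_nonneg _) (U.φ_le _ _)
  schur l z g := by
    rw [prod_schur_aux T U l l z g, T.schur, U.schur, map_mul]
    push_cast
    rw [div_mul_div_comm]
    congr 1
    ring
  schur_ne l m hlm z g := by
    rw [prod_schur_aux T U l m z g]
    by_cases h1 : l.1 = m.1
    · have h2 : l.2 ≠ m.2 := fun h => hlm (Prod.ext h1 h)
      rw [U.schur_ne l.2 m.2 h2, mul_zero]
    · rw [T.schur_ne l.1 m.1 h1, zero_mul]
  w_inj l m h := by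
    have h1 : T.w l.1 = T.w m.1 := by
      funext k
      exact congrFun h (Sum.inl k)
    have h2 : U.w l.2 = U.w m.2 := by
      funext k
      exact congrFun h (Sum.inr k)
    exact Prod.ext (T.w_inj h1) (U.w_inj h2)
  tor_add x y := Prod.ext (T.tor_add _ _) (U.tor_add _ _)
  tor_cont := (T.tor_cont.comp (by fun_prop)).prodMk (U.tor_cont.comp (by fun_prop))
  φ_tor l z θ := by
    show T.φ l.1 (z.1 * T.tor fun i => θ (Sum.inl i)) * U.φ l.2 (z.2 * U.tor fun i => θ (Sum.inr i))
      = _
    rw [T.φ_tor, U.φ_tor, Fintype.sum_sum_type]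
    simp only [Sum.elim_inl, Sum.elim_inr]
    rw [Complex.ofReal_add, mul_add, Complex.exp_add]
    ring
  q_pos j := by
    rcases j with j | j
    · exact T.q_pos j
    · exact U.q_pos j
  ell_inj x hx := by
    have h1 : (fun i => x (Sum.inl i)) = 0 := by
      refine T.ell_inj _ fun j => ?_
      have := hx (Sum.inl j)
      simpa [Fintype.sum_sum_type] using this
    have h2 : (fun i => x (Sum.inr i)) = 0 := by
      refine U.ell_inj _ fun j => ?_
      have := hx (Sum.inr j)
      simpa [Fintype.sum_sum_type] using this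
    funext i
    rcases i with i | i
    · exact congrFun h1 i
    · exact congrFun h2 i
  cas_eq l := by
    rw [T.cas_eq, U.cas_eq]
    simp only [Fintype.sum_sum_type, Sum.elim_inl, Sum.elim_inr, Rat.cast_zero, zero_mul,
      Finset.sum_const_zero, add_zero, zero_add]
    ring
  cas_nonneg l := add_nonneg (T.cas_nonneg _) (U.cas_nonneg _)

end STC
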