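import Pool.Agent.STC.ProdFam

/-!
# STC/ProdKern: kernel families on products

PROOF. Let `C₁, C₂` be the constants, `C = C₁ C₂` (both `≥ 1`). Pieces: pairs of pieces, `D = D₁ D₂`,
`supp`, `mid` products of finsets, `κ (l,m) = κ₁ l κ₂ m`. The kernel is the product of the kernels, so its
`L¹` norm is the product (`integral_prod_mul`); note `C_i ≥ 1`, and `κ₁ ≥ D₁/C₁ > 0` on `mid`. `sum_D`:
`∑ (D₁ D₂)^θ = (∑ D₁^θ)(∑ D₂^θ)` (`Real.mul_rpow`), exponents add. Indices: `Fin (n₁ N * n₂ N)` via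
`finProdFinEquiv`. In `sum_D` one may assume `Cθ ≥ 0` (replace by `max`).
-/

open MeasureTheory
open scoped ComplexConjugate

namespace STC

variable {G H : Type} [Group G] [TopologicalSpace G] [MeasureSpace G]
  [IsProbabilityMeasure (volume : Measure G)] [Group H] [TopologicalSpace H] [MeasureSpace H]
  [IsProbabilityMeasure (volume : Measure H)] {ι κ : Type} [Fintype ι] [Fintype κ]

private lemma prodKern_norm {T : TFam G ι} {U : TFam H κ} {C₁ C₂ : ℝ} (P : Piece T C₁)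
    (Q : Piece U C₂) :
    ∫ x : G × H, ‖∑ l ∈ P.supp ×ˢ Q.supp,
      ((P.κ l.1 * Q.κ l.2 : ℝ) : ℂ) * (T.φ l.1 x.1 * U.φ l.2 x.2)‖ ≤ C₁ * C₂ := by
  have h1 : ∀ x : G × H, ‖∑ l ∈ P.supp ×ˢ Q.supp,
      ((P.κ l.1 * Q.κ l.2 : ℝ) : ℂ) * (T.φ l.1 x.1 * U.φ l.2 x.2)‖ =
      ‖∑ l ∈ P.supp, (P.κ l : ℂ) * T.φ l x.1‖ * ‖∑ l ∈ Q.supp, (Q.κ l : ℂ) * U.φ l x.2‖ := by
    intro x
    rw [← norm_mul, Finset.sum_mul_sum, ← Finset.sum_product']
    congr 1
    refine Finset.sum_congr rfl fun l _ => ?_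
    push_cast
    ring
  simp_rw [h1]
  have h2 := MeasureTheory.integral_prod_mul (μ := (volume : Measure G))
    (ν := (volume : Measure H)) (fun x => ‖∑ l ∈ P.supp, (P.κ l : ℂ) * T.φ l x‖)
    (fun x => ‖∑ l ∈ Q.supp, (Q.κ l : ℂ) * U.φ l x‖)
  rw [Measure.volume_eq_prod, h2]
  exact mul_le_mul P.norm_le Q.norm_le (integral_nonneg fun _ => norm_nonneg _)
    ((integral_nonneg fun _ => norm_nonneg _).trans P.norm_le)

/-- The product of two pieces. -/
private noncomputable def prodPiece {T : TFam G ι} {U : TFam H κ} {C₁ C₂ : ℝ} (h₁ : 1 ≤ C₁)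
    (h₂ : 1 ≤ C₂) (P : Piece T C₁) (Q : Piece U C₂) : Piece (T.prod U) (C₁ * C₂) where
  D := P.D * Q.D
  supp := P.supp ×ˢ Q.supp
  κ l := P.κ l.1 * Q.κ l.2
  mid := P.mid ×ˢ Q.mid
  one_le_D := one_le_mul_of_one_le_of_one_le P.one_le_D Q.one_le_D
  mid_sub := Finset.product_subset_product P.mid_sub Q.mid_sub
  norm_le := prodKern_norm P Q
  κ_ge := by
    intro l hl
    have hl' := Finset.mem_product.1 hl
    have a := P.κ_ge l.1 hl'.1
    have b := Q.κ_ge l.2 hl'.2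
    have a0 : 0 ≤ P.D := zero_le_one.trans P.one_le_D
    have b0 : 0 ≤ Q.D := zero_le_one.trans Q.one_le_D
    calc P.D * Q.D ≤ (C₁ * P.κ l.1) * (C₂ * Q.κ l.2) := mul_le_mul a b b0 (a0.trans a)
      _ = _ := by ring
  d_le := by
    intro l hl
    have hl' := Finset.mem_product.1 hl
    have a := P.d_le l.1 hl'.1
    have b := Q.d_le l.2 hl'.2
    have a0 : 0 ≤ T.d l.1 := zero_le_one.trans (T.one_le_d _)
    have b0 : 0 ≤ U.d l.2 := zero_le_one.trans (U.one_le_d _)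
    show T.d l.1 * U.d l.2 ≤ _
    calc T.d l.1 * U.d l.2 ≤ (C₁ * P.D) * (C₂ * Q.D) := mul_le_mul a b b0 (a0.trans a)
      _ = _ := by ring
  κ_le := by
    intro l hl
    have hl' := Finset.mem_product.1 hl
    have a := P.κ_le l.1 hl'.1
    have b := Q.κ_le l.2 hl'.2
    rw [abs_mul]
    calc |P.κ l.1| * |Q.κ l.2| ≤ (C₁ * P.D) * (C₂ * Q.D) :=
          mul_le_mul a b (abs_nonneg _) ((abs_nonneg _).trans a)
      _ = _ := by ring
  le_d := by
    intro l hl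
    have hl' := Finset.mem_product.1 hl
    have a := P.le_d l.1 hl'.1
    have b := Q.le_d l.2 hl'.2
    have a0 : 0 ≤ P.D := zero_le_one.trans P.one_le_D
    have b0 : 0 ≤ Q.D := zero_le_one.trans Q.one_le_D
    show _ ≤ C₁ * C₂ * (T.d l.1 * U.d l.2)
    calc P.D * Q.D ≤ (C₁ * T.d l.1) * (C₂ * U.d l.2) := mul_le_mul a b b0 (a0.trans a)
      _ = _ := by ring

theorem KernFam.prod {T : TFam G ι} {U : TFam H κ} {M₁ M₂ : ℝ} (A : KernFam T M₁)
    (B : KernFam U M₂) : Nonempty (KernFam (T.prod U) (M₁ + M₂)) := by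
  refine ⟨{
    C := A.C * B.C
    one_le_C := one_le_mul_of_one_le_of_one_le A.one_le_C B.one_le_C
    n := fun N => A.n N * B.n N
    piece := fun N i => prodPiece A.one_le_C B.one_le_C
      (A.piece N (finProdFinEquiv.symm i).1) (B.piece N (finProdFinEquiv.symm i).2)
    cover := ?_
    w_le := ?_
    sum_D := ?_ }⟩
  · intro N l hl
    obtain ⟨i, hi⟩ := A.cover N l.1 fun k => hl (Sum.inl k)
    obtain ⟨j, hj⟩ := B.cover N l.2 fun k => hl (Sum.inr k)
    refine ⟨finProdFinEquiv (i, j), ?_⟩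
    simp only [Equiv.symm_apply_apply]
    exact Finset.mem_product.2 ⟨hi, hj⟩
  · intro N i l hl k
    have hl' := Finset.mem_product.1 hl
    have hN : (0 : ℝ) ≤ (N : ℝ) + 1 := by positivity
    have hA := A.one_le_C
    have hB := B.one_le_C
    rcases k with k | k
    · refine (A.w_le N _ l.1 hl'.1 k).trans (mul_le_mul_of_nonneg_right ?_ hN)
      nlinarith
    · refine (B.w_le N _ l.2 hl'.2 k).trans (mul_le_mul_of_nonneg_right ?_ hN)
      nlinarith
  · intro θ hθ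
    obtain ⟨c₁, h₁⟩ := A.sum_D θ hθ
    obtain ⟨c₂, h₂⟩ := B.sum_D θ hθ
    refine ⟨max c₁ 0 * max c₂ 0, fun N => ?_⟩
    have hN : (0 : ℝ) < (N : ℝ) + 1 := by positivity
    have e1 : ∑ i, (prodPiece A.one_le_C B.one_le_C (A.piece N (finProdFinEquiv.symm i).1)
        (B.piece N (finProdFinEquiv.symm i).2)).D ^ θ =
        (∑ i, (A.piece N i).D ^ θ) * ∑ j, (B.piece N j).D ^ θ := by
      rw [Finset.sum_mul_sum, ← Finset.sum_product', Finset.univ_product_univ]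
      rw [← Equiv.sum_comp (finProdFinEquiv.symm : Fin (A.n N * B.n N) ≃ _)
        (fun x => (A.piece N x.1).D ^ θ * (B.piece N x.2).D ^ θ)]
      refine Finset.sum_congr rfl fun i _ => ?_
      show (_ * _) ^ θ = _
      exact Real.mul_rpow (zero_le_one.trans (A.piece N _).one_le_D)
        (zero_le_one.trans (B.piece N _).one_le_D)
    rw [e1]
    have p1 : ∑ i, (A.piece N i).D ^ θ ≤ max c₁ 0 * ((N : ℝ) + 1) ^ (M₁ * θ) :=
      (h₁ N).trans (mul_le_mul_of_nonneg_right (le_max_left _ _) (Real.rpow_nonneg hN.le _))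
    have p2 : ∑ i, (B.piece N i).D ^ θ ≤ max c₂ 0 * ((N : ℝ) + 1) ^ (M₂ * θ) :=
      (h₂ N).trans (mul_le_mul_of_nonneg_right (le_max_left _ _) (Real.rpow_nonneg hN.le _))
    have q2 : 0 ≤ ∑ j, (B.piece N j).D ^ θ :=
      Finset.sum_nonneg fun i _ => Real.rpow_nonneg (zero_le_one.trans (B.piece N i).one_le_D) _
    have q1 : 0 ≤ max c₁ 0 * ((N : ℝ) + 1) ^ (M₁ * θ) :=
      mul_nonneg (le_max_right _ _) (Real.rpow_nonneg hN.le _)
    calc _ ≤ (max c₁ 0 * ((N : ℝ) + 1) ^ (M₁ * θ)) * (max c₂ 0 * ((N : ℝ) + 1) ^ (M₂ * θ)) :=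
          mul_le_mul p1 p2 q2 q1
      _ = _ := by rw [add_mul, Real.rpow_add hN]; ring

end STC
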