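import Pool.Agent.STC.Circ
import Pool.Agent.STC.LieBas
import Pool.Agent.STC.Grp

/-!
# STC/StDefs : the definitions used in the statement of the final theorem

`GT n K = T^n x K_1 x ... x K_m` with Haar probability measure, each `K j` a closed subgroup of
`U(N j)`. `Q` is a compact group with a continuous surjective homomorphism `π : GT n K →* Q` (with finite
kernel: then `Q` is a connected compact Lie group, and all of them are of this form).

The metric `(⊗ α_i dt_i²) ⊗ (⊗ β_j g_j)`, `g_j` = minus the Killing form of `K j`, each circle of length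
`2π` for `dt_i²`. Its Laplace operator is the sum of the second derivatives along the one-parameter
groups of an orthonormal basis of the Lie algebra: `Σ_i α_i⁻¹ ∂_i² + Σ_j β_j⁻¹ Σ_k ∂_{X_{j,k}}²` with
`X_{j,1}, X_{j,2}, …` a basis of the Lie algebra of `K j` orthonormal for minus the Killing form.
-/

open MeasureTheory
open scoped ENNReal NNReal ComplexConjugate

namespace STC

/-- The compact group `T^n x K_1 x ... x K_m`. -/
abbrev GT (n : ℕ) {m : ℕ} {N : Fin m → ℕ} (K : ∀ j, ClosedSubgroup (UG (N j))) : Type :=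
  (Fin n → Circ) × (∀ j, CG (K j))

/-- The rank of a closed subgroup of `U(N)`: the largest number of linearly independent pairwise
commuting elements of its Lie algebra. -/
noncomputable def rank {N : ℕ} (K : ClosedSubgroup (UG N)) : ℕ :=
  sSup {k | ∃ v : Fin k → Mat N, LinearIndependent ℝ v ∧ (∀ i, v i ∈ lieSet K.toSubgroup) ∧
    ∀ i j, v i * v j = v j * v i}

section defs

variable {n m : ℕ} {N : Fin m → ℕ} {K : ∀ j, ClosedSubgroup (UG (N j))}

/-- The `i`-th circle of `GT n K`, with the parameter `s ∈ ℝ/2πℤ`. -/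
noncomputable def circ (K : ∀ j, ClosedSubgroup (UG (N j))) (i : Fin n) (s : ℝ) : GT n K :=
  (Pi.mulSingle i (Multiplicative.ofAdd ((s / (2 * Real.pi) : ℝ) : UnitAddCircle)), 1)

/-- The one-parameter group of `GT n K` of an element `Y` of the Lie algebra of `K j`. -/
noncomputable def onePar (n : ℕ) (j : Fin m) (Y : lieAlg (K j).toSubgroup (K j).isClosed')
    (s : ℝ) : GT n K :=
  (1, Pi.mulSingle j (CG.ex (K := K j) Y.2 s))

/-- The trigonometric polynomials on `GT n K`: the algebra generated by the coordinates of the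
circles, the matrix entries of the elements of the groups `K j`, and their complex conjugates. -/
def trig (n : ℕ) (K : ∀ j, ClosedSubgroup (UG (N j))) : Subalgebra ℂ (GT n K → ℂ) :=
  Algebra.adjoin ℂ
    ({f | ∃ i, f = fun x => fourier 1 (Multiplicative.toAdd (x.1 i))} ∪
      {f | ∃ i, f = fun x => conj (fourier 1 (Multiplicative.toAdd (x.1 i)))} ∪
      {f | ∃ j a b, f = fun x => (x.2 j).mat a b} ∪
      {f | ∃ j a b, f = fun x => conj ((x.2 j).mat a b)})

variable {dim : Fin m → ℕ} {Q : Type} [Group Q]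

/-- The Laplace operator of `Q`. -/
noncomputable def lap (π : GT n K →* Q) (α : Fin n → ℝ) (β : Fin m → ℝ)
    (X : ∀ j, LieBasis (K j).toSubgroup (K j).isClosed' (dim j)) (f : Q → ℂ) (x : Q) : ℂ :=
  ∑ i, ((1 / α i : ℝ) : ℂ) * iteratedDeriv 2 (fun s : ℝ => f (x * π (circ K i s))) 0 +
    ∑ j, ((1 / β j : ℝ) : ℂ) *
      ∑ k, iteratedDeriv 2 (fun s : ℝ => f (x * π (onePar n j ((X j).X k) s))) 0

/-- The eigenfunctions of the Laplace operator with eigenvalue `-lam` (the trigonometric polynomials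
`f` on `Q` with `Δ f = - lam f`). -/
def eigFun (π : GT n K →* Q) (α : Fin n → ℝ) (β : Fin m → ℝ)
    (X : ∀ j, LieBasis (K j).toSubgroup (K j).isClosed' (dim j)) (lam : ℝ) : Set (Q → ℂ) :=
  {f | (fun y => f (π y)) ∈ trig n K ∧ ∀ x, lap π α β X f x = -(lam : ℂ) * f x}

variable [MeasureSpace Q]

/-- The closed subspace of `L²(Q)` spanned by the eigenfunctions with eigenvalue `-lam`. -/
noncomputable def eigL2 (π : GT n K →* Q) (α : Fin n → ℝ) (β : Fin m → ℝ)
    (X : ∀ j, LieBasis (K j).toSubgroup (K j).isClosed' (dim j)) (lam : ℝ) :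
    Submodule ℂ (Lp ℂ 2 (volume : Measure Q)) :=
  (Submodule.span ℂ {F : Lp ℂ 2 (volume : Measure Q) |
    ∃ f ∈ eigFun π α β X lam, (F : Q → ℂ) =ᵐ[volume] f}).topologicalClosure

instance instProjEigL2 (π : GT n K →* Q) (α : Fin n → ℝ) (β : Fin m → ℝ)
    (X : ∀ j, LieBasis (K j).toSubgroup (K j).isClosed' (dim j)) (lam : ℝ) :
    (eigL2 π α β X lam).HasOrthogonalProjection := by
  unfold eigL2
  infer_instance

/-- The Schrödinger group `e^{itΔ} f = Σ_lam e^{- i t lam} P_lam f` (sum in `L²(Q)`, over the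
eigenvalues; all other terms vanish), `P_lam` the orthogonal projection on `eigL2 lam`. -/
noncomputable def eitD (π : GT n K →* Q) (α : Fin n → ℝ) (β : Fin m → ℝ)
    (X : ∀ j, LieBasis (K j).toSubgroup (K j).isClosed' (dim j)) (t : ℝ)
    (f : Lp ℂ 2 (volume : Measure Q)) : Lp ℂ 2 (volume : Measure Q) :=
  ∑' lam : ℝ, Complex.exp (-((t * lam : ℝ) : ℂ) * Complex.I) •
    (eigL2 π α β X lam).starProjection f

/-- The square of the Sobolev norm `‖(I - Δ)^{s/2} f‖²_{L²} = Σ_lam (1 + lam)^s ‖P_lam f‖²`, possibly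
infinite. -/
noncomputable def sobSq (π : GT n K →* Q) (α : Fin n → ℝ) (β : Fin m → ℝ)
    (X : ∀ j, LieBasis (K j).toSubgroup (K j).isClosed' (dim j)) (s : ℝ)
    (f : Lp ℂ 2 (volume : Measure Q)) : ℝ≥0∞ :=
  ∑' lam : ℝ, ENNReal.ofReal ((1 + lam) ^ s * ‖(eigL2 π α β X lam).starProjection f‖ ^ 2)

end defs

end STC
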