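import Pool.Agent.STC.SCMain
import Pool.Agent.STC.LieSC
import Pool.Agent.STC.StDefs

/-!
# STC/RankEq : the rank of the root decomposition is the rank of the statement
-/

open scoped ComplexConjugate

namespace STC

private lemma rk_sum {N : ℕ} {K : ClosedSubgroup (UG N)} {d : ℕ}
    (B : LieBasis K.toSubgroup K.isClosed' d) {n : ℕ} (c : Fin n → ℝ) (x : Fin n → Fin d → ℝ) :
    B.toMat (cx (∑ i, c i • x i)) = ∑ i, c i • B.toMat (cx (x i)) := by
  have h1 : cx (∑ i, c i • x i) = ∑ i, (c i : ℂ) • cx (x i) := by
    funext l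
    simp [cx, Finset.sum_apply]
  rw [h1, map_sum]
  refine Finset.sum_congr rfl fun i _ => ?_
  rw [map_smul]
  exact (Complex.coe_smul (c i) _)

theorem rank_eq {N : ℕ} {K : ClosedSubgroup (UG N)} {d : ℕ}
    (B : LieBasis K.toSubgroup K.isClosed' d) {r M : ℕ} (P : RootDec B.sc r M)
    (hmax : ∀ (n : ℕ) (H' : Fin n → Fin d → ℝ), LinearIndependent ℝ H' →
      (∀ j k, B.sc.br (cx (H' j)) (cx (H' k)) = 0) → n ≤ r) : rank K = r := by
  classical
  unfold rank
  refine IsGreatest.csSup_eq ⟨?_, ?_⟩
  · refine ⟨fun k => B.toMat (cx (P.H k)), ?_, fun i => B.toMat_cx_mem _, fun i j => ?_⟩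
    · rw [Fintype.linearIndependent_iff]
      intro c hc i
      rw [← rk_sum] at hc
      have h0 : B.toMat (cx (∑ i, c i • P.H i)) = B.toMat 0 := by rw [hc, map_zero]
      have h1 : cx (∑ i, c i • P.H i) = 0 := B.toMat_injective h0
      have h2 : ∑ i, c i • P.H i = 0 := by
        funext l
        have h5 : (((∑ i, c i • P.H i) l : ℝ) : ℂ) = 0 := congrFun h1 l
        exact_mod_cast h5
      have h3 : ∑ l, (∑ i, c i • P.H i) l * P.H i l = c i := by
        have h4 : ∀ l, (∑ i, c i • P.H i) l * P.H i l = ∑ i', c i' * (P.H i' l * P.H i l) := by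
          intro l
          rw [Finset.sum_apply, Finset.sum_mul]
          refine Finset.sum_congr rfl fun i' _ => ?_
          rw [Pi.smul_apply, smul_eq_mul]
          ring
        simp only [h4]
        rw [Finset.sum_comm]
        simp only [← Finset.mul_sum, P.hipHH]
        simp
      rw [← h3, h2]
      simp
    · have h := B.toMat_br (cx (P.H i)) (cx (P.H j))
      rw [P.brHH, map_zero] at h
      exact (sub_eq_zero.1 h.symm)
  · rintro k ⟨v, hli, hmem, hcomm⟩
    choose x hx using fun i => B.exists_real (v i) (hmem i)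
    refine hmax k x ?_ fun i j => ?_
    · rw [Fintype.linearIndependent_iff]
      intro c hc
      have h1 : ∑ i, c i • v i = 0 := by
        have h2 := rk_sum B c x
        rw [hc] at h2
        have h3 : cx (0 : Fin d → ℝ) = 0 := by funext l; simp [cx]
        rw [h3, map_zero] at h2
        rw [h2]
        exact Finset.sum_congr rfl fun i _ => by rw [hx]
      exact (Fintype.linearIndependent_iff.1 hli) c h1
    · apply B.toMat_injective
      rw [B.toMat_br, ← hx, ← hx, hcomm, sub_self, map_zero]

end STC
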