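import Pool.Agent.STC.Grp
import Pool.Agent.STC.Defs

/-!
# STC/Rep : the algebra of representative functions of a closed subgroup of `U(N)`

`alg K` is generated by the entries `ent i j` and the conjugate entries `entc i j`. Proofs by
`Algebra.adjoin_induction`, or by the remark that each of the maps `f ↦ f ∘ σ` (`σ` a left or right
translation or the inversion) is an algebra homomorphism of `CG K → ℂ` which maps generators into
`alg K` (so `Algebra.adjoin_le` into a `Subalgebra.comap`). LEFT: `(x⁻¹ z)_ij = Σ_k (x⁻¹)_ik z_kj`.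
RIGHT: `(z y)_ij = Σ_k z_ik y_kj`. INVERSE: `(z⁻¹)_ij = conj z_ji` (`mat_inv`). `alg_dense`: the star
subalgebra of `C(CG K, ℂ)` of all continuous maps with underlying function in `alg K` separates points
(`mat_injective`), so it is dense (`ContinuousMap.starSubalgebra_topologicalClosure_eq_top_of_separatesPoints`).
`alg_finite` by `adjoin_induction`: constants: the span of `1`. Generators: the span of all `ent i j`
(resp. all `entc i j`) is finite dimensional and invariant under left and right translations. Sum: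
`W₁ ⊔ W₂`. Product: `W₁ * W₂` (product of submodules of the algebra `CG K → ℂ`,
`Submodule.FG.mul`); translations are algebra homomorphisms.
-/

open MeasureTheory
open scoped ComplexConjugate

namespace STC

namespace CG

variable {N : ℕ} (K : ClosedSubgroup (UG N))

/-- entries as functions on the group -/
def ent (i j : Fin N) : CG K → ℂ := fun z => z.mat i j

/-- conjugate entries -/
def entc (i j : Fin N) : CG K → ℂ := fun z => conj (z.mat i j)

/-- the generators -/
def gens : Set (CG K → ℂ) := {f | ∃ i j, f = ent K i j ∨ f = entc K i j}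

/-- The algebra of polynomials in the entries and their conjugates. -/
def alg : Subalgebra ℂ (CG K → ℂ) := Algebra.adjoin ℂ (gens K)

variable {K}

theorem ent_mem (i j : Fin N) : ent K i j ∈ alg K := Algebra.subset_adjoin ⟨i, j, Or.inl rfl⟩

theorem entc_mem (i j : Fin N) : entc K i j ∈ alg K := Algebra.subset_adjoin ⟨i, j, Or.inr rfl⟩

theorem alg_cont (f : CG K → ℂ) (hf : f ∈ alg K) : Continuous f := by
  refine Algebra.adjoin_induction (s := gens K) (p := fun f _ => Continuous f) ?_ ?_ ?_ ?_ hf
  · rintro f ⟨i, j, rfl | rfl⟩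
    · exact (continuous_apply_apply i j).comp continuous_mat
    · exact Complex.continuous_conj.comp ((continuous_apply_apply i j).comp continuous_mat)
  · intro r
    exact continuous_const
  · intro f g _ _ h1 h2
    exact h1.add h2
  · intro f g _ _ h1 h2
    exact h1.mul h2

private lemma comp_mem (σ : CG K → CG K) (h1 : ∀ i j, (fun z => ent K i j (σ z)) ∈ alg K)
    (h2 : ∀ i j, (fun z => entc K i j (σ z)) ∈ alg K) (f : CG K → ℂ) (hf : f ∈ alg K) :
    (fun z => f (σ z)) ∈ alg K := by
  refine Algebra.adjoin_induction (s := gens K) (p := fun f _ => (fun z => f (σ z)) ∈ alg K)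
    ?_ ?_ ?_ ?_ hf
  · rintro f ⟨i, j, rfl | rfl⟩
    · exact h1 i j
    · exact h2 i j
  · intro r
    exact (alg K).algebraMap_mem r
  · intro f g _ _ h1 h2
    exact (alg K).add_mem h1 h2
  · intro f g _ _ h1 h2
    exact (alg K).mul_mem h1 h2

theorem alg_conj (f : CG K → ℂ) (hf : f ∈ alg K) : (fun z => conj (f z)) ∈ alg K := by
  refine Algebra.adjoin_induction (s := gens K) (p := fun f _ => (fun z => conj (f z)) ∈ alg K)
    ?_ ?_ ?_ ?_ hf
  · rintro f ⟨i, j, rfl | rfl⟩
    · exact entc_mem i j
    · have : (fun z => conj (entc K i j z)) = ent K i j := by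
        funext z; simp [ent, entc]
      rw [this]; exact ent_mem i j
  · intro r
    exact (alg K).algebraMap_mem (conj r)
  · intro f g _ _ h1 h2
    have := (alg K).add_mem h1 h2
    have e : (fun z => conj ((f + g) z)) = (fun z => conj (f z)) + fun z => conj (g z) := by
      funext z; simp
    rw [e]; exact this
  · intro f g _ _ h1 h2
    have := (alg K).mul_mem h1 h2
    have e : (fun z => conj ((f * g) z)) = (fun z => conj (f z)) * fun z => conj (g z) := by
      funext z; simp
    rw [e]; exact this

private lemma conj_comp_mem (σ : CG K → CG K) (h1 : ∀ i j, (fun z => ent K i j (σ z)) ∈ alg K)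
    (i j) : (fun z => entc K i j (σ z)) ∈ alg K := alg_conj _ (h1 i j)

theorem alg_left (f : CG K → ℂ) (hf : f ∈ alg K) (x : CG K) : (fun z => f (x⁻¹ * z)) ∈ alg K := by
  have h1 : ∀ i j, (fun z => ent K i j (x⁻¹ * z)) ∈ alg K := by
    intro i j
    have : (fun z => ent K i j (x⁻¹ * z)) = ∑ k, (x⁻¹).mat i k • ent K k j := by
      funext z
      simp only [ent, mat_mul, Matrix.mul_apply, Finset.sum_apply, Pi.smul_apply, smul_eq_mul]
    rw [this]
    exact (alg K).sum_mem fun k _ => (alg K).smul_mem (ent_mem k j) _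
  exact comp_mem (fun z => x⁻¹ * z) h1 (conj_comp_mem _ h1) f hf

theorem alg_right (f : CG K → ℂ) (hf : f ∈ alg K) (y : CG K) : (fun z => f (z * y)) ∈ alg K := by
  have h1 : ∀ i j, (fun z => ent K i j (z * y)) ∈ alg K := by
    intro i j
    have : (fun z => ent K i j (z * y)) = ∑ k, y.mat k j • ent K i k := by
      funext z
      simp only [ent, mat_mul, Matrix.mul_apply, Finset.sum_apply, Pi.smul_apply, smul_eq_mul]
      exact Finset.sum_congr rfl fun k _ => mul_comm _ _
    rw [this]
    exact (alg K).sum_mem fun k _ => (alg K).smul_mem (ent_mem i k) _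
  exact comp_mem (fun z => z * y) h1 (conj_comp_mem _ h1) f hf

theorem alg_inv (f : CG K → ℂ) (hf : f ∈ alg K) : (fun z => f z⁻¹) ∈ alg K := by
  have h1 : ∀ i j, (fun z : CG K => ent K i j z⁻¹) ∈ alg K := by
    intro i j
    have : (fun z : CG K => ent K i j z⁻¹) = entc K j i := by
      funext z
      simp only [ent, entc, mat_inv, Matrix.star_apply]
      rfl
    rw [this]
    exact entc_mem j i
  exact comp_mem (fun z => z⁻¹) h1 (conj_comp_mem _ h1) f hf

theorem alg_dense (f : CG K → ℂ) (hf : Continuous f) (ε : ℝ) (hε : 0 < ε) :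
    ∃ g ∈ alg K, ∀ z, ‖f z - g z‖ < ε := by
  let S : StarSubalgebra ℂ C(CG K, ℂ) :=
    { carrier := {g | (g : CG K → ℂ) ∈ alg K}
      mul_mem' := fun {a b} ha hb => (alg K).mul_mem ha hb
      add_mem' := fun {a b} ha hb => (alg K).add_mem ha hb
      algebraMap_mem' := fun r => (alg K).algebraMap_mem r
      star_mem' := fun {a} ha => alg_conj _ ha }
  have hsep : S.SeparatesPoints := by
    intro x y hxy
    have : x.mat ≠ y.mat := fun h => hxy (mat_injective h)
    obtain ⟨i, j, hij⟩ : ∃ i j, x.mat i j ≠ y.mat i j := by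
      by_contra hcon
      push Not at hcon
      exact this (Matrix.ext hcon)
    refine ⟨ent K i j, ⟨⟨ent K i j, alg_cont _ (ent_mem i j)⟩, ent_mem i j, rfl⟩, hij⟩
  have htop := ContinuousMap.starSubalgebra_topologicalClosure_eq_top_of_separatesPoints S hsep
  have hmem : (⟨f, hf⟩ : C(CG K, ℂ)) ∈ S.topologicalClosure := by rw [htop]; trivial
  have hcl : (⟨f, hf⟩ : C(CG K, ℂ)) ∈ closure (S : Set C(CG K, ℂ)) := hmem
  obtain ⟨g, hg, hd⟩ := Metric.mem_closure_iff.1 hcl ε hε
  refine ⟨g, hg, fun z => ?_⟩
  have := (ContinuousMap.dist_lt_iff hε).1 hd z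
  rwa [dist_eq_norm] at this

variable (K) in
/-- the representative functions as a `RepAlg` -/
def rep : RepAlg (CG K) where
  A := alg K
  cont := alg_cont
  conj_mem := alg_conj
  left_mem := alg_left
  right_mem := alg_right
  inv_mem := alg_inv
  dense := alg_dense

private def Inv (W : Submodule ℂ (rep K).A) : Prop :=
  (∀ g ∈ W, ∀ x, (rep K).L x g ∈ W) ∧ (∀ g ∈ W, ∀ y, (rep K).R y g ∈ W)

private lemma L_mul (x : CG K) (f g : (rep K).A) :
    (rep K).L x (f * g) = (rep K).L x f * (rep K).L x g := rfl

private lemma R_mul (x : CG K) (f g : (rep K).A) :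
    (rep K).R x (f * g) = (rep K).R x f * (rep K).R x g := rfl

private lemma inv_span (s : Set (rep K).A) (hL : ∀ g ∈ s, ∀ x, (rep K).L x g ∈ Submodule.span ℂ s)
    (hR : ∀ g ∈ s, ∀ y, (rep K).R y g ∈ Submodule.span ℂ s) : Inv (Submodule.span ℂ s) := by
  constructor
  · intro g hg x
    have : Submodule.span ℂ s ≤ (Submodule.span ℂ s).comap ((rep K).L x) :=
      Submodule.span_le.2 fun g hg => hL g hg x
    exact this hg
  · intro g hg x
    have : Submodule.span ℂ s ≤ (Submodule.span ℂ s).comap ((rep K).R x) :=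
      Submodule.span_le.2 fun g hg => hR g hg x
    exact this hg

private lemma inv_sup {W₁ W₂ : Submodule ℂ (rep K).A} (h1 : Inv W₁) (h2 : Inv W₂) :
    Inv (W₁ ⊔ W₂) := by
  constructor
  · intro g hg x
    obtain ⟨a, ha, b, hb, rfl⟩ := Submodule.mem_sup.1 hg
    rw [map_add]
    exact Submodule.add_mem_sup (h1.1 a ha x) (h2.1 b hb x)
  · intro g hg x
    obtain ⟨a, ha, b, hb, rfl⟩ := Submodule.mem_sup.1 hg
    rw [map_add]
    exact Submodule.add_mem_sup (h1.2 a ha x) (h2.2 b hb x)

private lemma inv_mul {W₁ W₂ : Submodule ℂ (rep K).A} (h1 : Inv W₁) (h2 : Inv W₂) :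
    Inv (W₁ * W₂) := by
  constructor
  · intro g hg x
    refine Submodule.mul_induction_on hg ?_ ?_
    · intro a ha b hb
      rw [L_mul]
      exact Submodule.mul_mem_mul (h1.1 a ha x) (h2.1 b hb x)
    · intro a b ha hb
      rw [map_add]
      exact Submodule.add_mem _ ha hb
  · intro g hg x
    refine Submodule.mul_induction_on hg ?_ ?_
    · intro a ha b hb
      rw [R_mul]
      exact Submodule.mul_mem_mul (h1.2 a ha x) (h2.2 b hb x)
    · intro a b ha hb
      rw [map_add]
      exact Submodule.add_mem _ ha hb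

private lemma gen_case (e : Fin N → Fin N → (rep K).A)
    (hL : ∀ i j x, (rep K).L x (e i j) ∈ Submodule.span ℂ (Set.range fun p : Fin N × Fin N => e p.1 p.2))
    (hR : ∀ i j x, (rep K).R x (e i j) ∈ Submodule.span ℂ (Set.range fun p : Fin N × Fin N => e p.1 p.2))
    (i j : Fin N) :
    ∃ W : Submodule ℂ (rep K).A, W.FG ∧ e i j ∈ W ∧ Inv W := by
  refine ⟨Submodule.span ℂ (Set.range fun p : Fin N × Fin N => e p.1 p.2),
    Submodule.fg_span (Set.finite_range _), Submodule.subset_span ⟨(i, j), rfl⟩,
    inv_span _ ?_ ?_⟩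
  · rintro _ ⟨p, rfl⟩ x
    exact hL _ _ x
  · rintro _ ⟨p, rfl⟩ x
    exact hR _ _ x

private lemma fg_aux (f : CG K → ℂ) (hf : f ∈ alg K) :
    ∃ W : Submodule ℂ (rep K).A, W.FG ∧ (⟨f, hf⟩ : (rep K).A) ∈ W ∧ Inv W := by
  refine Algebra.adjoin_induction (s := gens K)
    (p := fun f hf => ∃ W : Submodule ℂ (rep K).A, W.FG ∧ (⟨f, hf⟩ : (rep K).A) ∈ W ∧ Inv W)
    ?_ ?_ ?_ ?_ hf
  · rintro f ⟨i, j, rfl | rfl⟩
    · refine gen_case (fun i j => ⟨ent K i j, ent_mem i j⟩) ?_ ?_ i j
      · intro i j x
        have : (rep K).L x ⟨ent K i j, ent_mem i j⟩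
            = ∑ k, (x⁻¹).mat i k • (⟨ent K k j, ent_mem k j⟩ : (rep K).A) := by
          apply Subtype.ext
          funext z
          rw [RepAlg.L_apply]
          simp only [AddSubmonoidClass.coe_finsetSum, Finset.sum_apply]
          simp only [ent, mat_mul, Matrix.mul_apply]
          rfl
        rw [this]
        exact Submodule.sum_mem _ fun k _ => Submodule.smul_mem _ _
          (Submodule.subset_span ⟨(k, j), rfl⟩)
      · intro i j x
        have : (rep K).R x ⟨ent K i j, ent_mem i j⟩
            = ∑ k, x.mat k j • (⟨ent K i k, ent_mem i k⟩ : (rep K).A) := by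
          apply Subtype.ext
          funext z
          rw [RepAlg.R_apply]
          simp only [AddSubmonoidClass.coe_finsetSum, Finset.sum_apply]
          simp only [ent, mat_mul, Matrix.mul_apply]
          exact Finset.sum_congr rfl fun k _ => mul_comm _ _
        rw [this]
        exact Submodule.sum_mem _ fun k _ => Submodule.smul_mem _ _
          (Submodule.subset_span ⟨(i, k), rfl⟩)
    · refine gen_case (fun i j => ⟨entc K i j, entc_mem i j⟩) ?_ ?_ i j
      · intro i j x
        have : (rep K).L x ⟨entc K i j, entc_mem i j⟩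
            = ∑ k, conj ((x⁻¹).mat i k) • (⟨entc K k j, entc_mem k j⟩ : (rep K).A) := by
          apply Subtype.ext
          funext z
          rw [RepAlg.L_apply]
          simp only [AddSubmonoidClass.coe_finsetSum, Finset.sum_apply]
          simp only [entc, mat_mul, Matrix.mul_apply, map_sum, map_mul]
          rfl
        rw [this]
        exact Submodule.sum_mem _ fun k _ => Submodule.smul_mem _ _
          (Submodule.subset_span ⟨(k, j), rfl⟩)
      · intro i j x
        have : (rep K).R x ⟨entc K i j, entc_mem i j⟩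
            = ∑ k, conj (x.mat k j) • (⟨entc K i k, entc_mem i k⟩ : (rep K).A) := by
          apply Subtype.ext
          funext z
          rw [RepAlg.R_apply]
          simp only [AddSubmonoidClass.coe_finsetSum, Finset.sum_apply]
          simp only [entc, mat_mul, Matrix.mul_apply, map_sum, map_mul]
          exact Finset.sum_congr rfl fun k _ => mul_comm _ _
        rw [this]
        exact Submodule.sum_mem _ fun k _ => Submodule.smul_mem _ _
          (Submodule.subset_span ⟨(i, k), rfl⟩)
  · intro r
    refine ⟨Submodule.span ℂ {1}, Submodule.fg_span (Set.finite_singleton _), ?_,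
      inv_span _ ?_ ?_⟩
    · rw [Submodule.mem_span_singleton]
      refine ⟨r, ?_⟩
      apply Subtype.ext
      funext z
      show r • (1 : ℂ) = algebraMap ℂ ℂ r
      simp
    · rintro g rfl x
      exact Submodule.subset_span rfl
    · rintro g rfl x
      exact Submodule.subset_span rfl
  · rintro f g hf hg ⟨W₁, a1, b1, c1⟩ ⟨W₂, a2, b2, c2⟩
    exact ⟨W₁ ⊔ W₂, a1.sup a2, Submodule.add_mem_sup b1 b2, inv_sup c1 c2⟩
  · rintro f g hf hg ⟨W₁, a1, b1, c1⟩ ⟨W₂, a2, b2, c2⟩
    exact ⟨W₁ * W₂, a1.mul a2, Submodule.mul_mem_mul b1 b2, inv_mul c1 c2⟩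

/-- finite dimensional two-sided invariant subspaces -/
theorem alg_finite (f : (rep K).A) : ∃ W : Submodule ℂ (rep K).A, FiniteDimensional ℂ W ∧ f ∈ W ∧
    (∀ g ∈ W, ∀ x, (rep K).L x g ∈ W) ∧ (∀ g ∈ W, ∀ y, (rep K).R y g ∈ W) := by
  obtain ⟨W, h1, h2, h3⟩ := fg_aux f.1 f.2
  exact ⟨W, Module.Finite.iff_fg.2 h1, h2, h3.1, h3.2⟩

/-- a linear functional of `u Y u^*` is in the algebra (polynomial in the entries) -/
theorem lam_conj_mem (lam : Mat N →ₗ[ℂ] ℂ) (Y : Mat N) :
    (fun z : CG K => lam (z.mat * Y * star z.mat)) ∈ alg K := by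
  have h : (fun z : CG K => lam (z.mat * Y * star z.mat)) = ∑ i, ∑ j, ∑ k, ∑ l,
      (lam (Matrix.single i j 1) * Y k l) • (ent K i k * entc K j l) := by
    funext z
    have h1 : lam (z.mat * Y * star z.mat) = ∑ i, ∑ j,
        (z.mat * Y * star z.mat) i j * lam (Matrix.single i j 1) := by
      conv_lhs => rw [Matrix.matrix_eq_sum_single (z.mat * Y * star z.mat)]
      rw [map_sum]
      refine Finset.sum_congr rfl fun i _ => ?_
      rw [map_sum]
      refine Finset.sum_congr rfl fun j _ => ?_
      have : Matrix.single i j ((z.mat * Y * star z.mat) i j)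
          = (z.mat * Y * star z.mat) i j • Matrix.single i j (1 : ℂ) := by
        rw [Matrix.smul_single, smul_eq_mul, mul_one]
      rw [this, map_smul, smul_eq_mul]
    rw [h1]
    simp only [Finset.sum_apply]
    refine Finset.sum_congr rfl fun i _ => Finset.sum_congr rfl fun j _ => ?_
    have h2 : (z.mat * Y * star z.mat) i j
        = ∑ k, ∑ l, z.mat i k * Y k l * conj (z.mat j l) := by
      rw [Matrix.mul_apply]
      simp only [Matrix.mul_apply, Matrix.star_apply, Finset.sum_mul]
      rw [Finset.sum_comm]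
      rfl
    rw [h2, Finset.sum_mul]
    refine Finset.sum_congr rfl fun k _ => ?_
    rw [Finset.sum_mul]
    refine Finset.sum_congr rfl fun l _ => ?_
    simp only [Pi.smul_apply, Pi.mul_apply, smul_eq_mul, ent, entc]
    ring
  rw [h]
  refine (alg K).sum_mem fun i _ => (alg K).sum_mem fun j _ => (alg K).sum_mem fun k _ =>
    (alg K).sum_mem fun l _ => (alg K).smul_mem ((alg K).mul_mem (ent_mem _ _) (entc_mem _ _)) _

end CG

end STC
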