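import Pool.Agent.STC.Hip

/-!
# STC/SCBr : the bracket of the complexified Lie algebra in coordinates

`br_jac`: `[x, [y, z]] = [[x, y], z] + [y, [x, z]]`, by multilinearity from `S.jac` and `S.anti12`.
`hip_br`: `hip (br x y) z = Σ c_ijl x_i y_j conj z_l`, `hip y (br (star x) z) = Σ y_j c_ilj x_i conj z_l`
and `S.anti23`. `killing`: `(br x (br y e_j)) j = Σ_{i', l, i} c_i'lj c_ijl x_i' y_i`, use `anti23` and
`S.kil`. `eq_zero_of_br`: by `killing` with `y = star x`: `- hip x x = 0`.
-/

open scoped ComplexConjugate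

namespace STC

namespace SC

variable {d : ℕ} (S : SC d)

lemma br_swap (x y : Fin d → ℂ) : S.br y x = -S.br x y := by
  ext l
  simp only [br_apply, Pi.neg_apply]
  rw [Finset.sum_comm, ← Finset.sum_neg_distrib]
  refine Finset.sum_congr rfl fun i _ => ?_
  rw [← Finset.sum_neg_distrib]
  refine Finset.sum_congr rfl fun j _ => ?_
  rw [S.anti12 i j l]
  push_cast
  ring

lemma br_self (x : Fin d → ℂ) : S.br x x = 0 := by
  have h := S.br_swap x x
  have h2 : (2 : ℂ) • S.br x x = 0 := by
    rw [two_smul]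
    nth_rewrite 1 [h]
    simp
  rcases smul_eq_zero.mp h2 with h3 | h3
  · norm_num at h3
  · exact h3

lemma br_single (i j : Fin d) (l : Fin d) :
    S.br (Pi.single i 1) (Pi.single j 1) l = (S.c i j l : ℂ) := by
  rw [br_apply]
  rw [Finset.sum_eq_single i]
  · rw [Finset.sum_eq_single j]
    · simp
    · intro b _ hb
      simp [Pi.single_apply, hb]
    · intro h
      exact absurd (Finset.mem_univ _) h
  · intro b _ hb
    simp [Pi.single_apply, hb]
  · intro h
    exact absurd (Finset.mem_univ _) h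

lemma br_jac_aux (x y z : Fin d → ℂ) (m : Fin d) :
    S.br x (S.br y z) m = ∑ i, ∑ j, ∑ k, (∑ l, (S.c j k l : ℂ) * (S.c i l m : ℂ)) *
      (x i * y j * z k) := by
  rw [br_apply]
  refine Finset.sum_congr rfl fun i _ => ?_
  have : ∀ l, (S.c i l m : ℂ) * x i * S.br y z l = ∑ j, ∑ k, ((S.c j k l : ℂ) * (S.c i l m : ℂ)) *
      (x i * y j * z k) := by
    intro l
    rw [br_apply, Finset.mul_sum]
    refine Finset.sum_congr rfl fun j _ => ?_
    rw [Finset.mul_sum]
    refine Finset.sum_congr rfl fun k _ => ?_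
    ring
  rw [Finset.sum_congr rfl fun l _ => this l]
  rw [Finset.sum_comm]
  refine Finset.sum_congr rfl fun j _ => ?_
  rw [Finset.sum_comm]
  refine Finset.sum_congr rfl fun k _ => ?_
  rw [Finset.sum_mul]

lemma br_jac (x y z : Fin d → ℂ) :
    S.br x (S.br y z) = S.br (S.br x y) z + S.br y (S.br x z) := by
  have key : S.br x (S.br y z) + S.br y (S.br z x) + S.br z (S.br x y) = 0 := by
    ext m
    simp only [Pi.add_apply, Pi.zero_apply]
    rw [S.br_jac_aux x y z m, S.br_jac_aux y z x m, S.br_jac_aux z x y m]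
    have e1 : (∑ i, ∑ j, ∑ k, (∑ l, (S.c j k l : ℂ) * (S.c i l m : ℂ)) * (y i * z j * x k)) =
        ∑ k, ∑ i, ∑ j, (∑ l, (S.c j k l : ℂ) * (S.c i l m : ℂ)) * (y i * z j * x k) := by
      rw [Finset.sum_congr rfl fun i _ => Finset.sum_comm]
      rw [Finset.sum_comm]
    have e2 : (∑ i, ∑ j, ∑ k, (∑ l, (S.c j k l : ℂ) * (S.c i l m : ℂ)) * (z i * x j * y k)) =
        ∑ j, ∑ k, ∑ i, (∑ l, (S.c j k l : ℂ) * (S.c i l m : ℂ)) * (z i * x j * y k) := by
      rw [Finset.sum_comm]
      exact Finset.sum_congr rfl fun i _ => Finset.sum_comm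
    rw [e1, e2, ← Finset.sum_add_distrib, ← Finset.sum_add_distrib]
    refine Finset.sum_eq_zero fun i _ => ?_
    rw [← Finset.sum_add_distrib, ← Finset.sum_add_distrib]
    refine Finset.sum_eq_zero fun j _ => ?_
    rw [← Finset.sum_add_distrib, ← Finset.sum_add_distrib]
    refine Finset.sum_eq_zero fun k _ => ?_
    have hj := S.jac i j k m
    have hj' : ∑ l, ((S.c j k l : ℂ) * (S.c i l m : ℂ) + (S.c k i l : ℂ) * (S.c j l m : ℂ) +
        (S.c i j l : ℂ) * (S.c k l m : ℂ)) = 0 := by
      have : (∑ l, ((S.c j k l : ℂ) * (S.c i l m : ℂ) + (S.c k i l : ℂ) * (S.c j l m : ℂ) +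
        (S.c i j l : ℂ) * (S.c k l m : ℂ))) =
        -((∑ l, (S.c i j l * S.c l k m + S.c j k l * S.c l i m + S.c k i l * S.c l j m) : ℝ) : ℂ) := by
        push_cast
        rw [← Finset.sum_neg_distrib]
        refine Finset.sum_congr rfl fun l _ => ?_
        rw [S.anti12 k l m, S.anti12 i l m, S.anti12 j l m]
        push_cast
        ring
      rw [this, hj]
      simp
    have : (∑ l, (S.c j k l : ℂ) * (S.c i l m : ℂ)) * (x i * y j * z k) +
        (∑ l, (S.c k i l : ℂ) * (S.c j l m : ℂ)) * (y j * z k * x i) +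
        (∑ l, (S.c i j l : ℂ) * (S.c k l m : ℂ)) * (z k * x i * y j) =
        (∑ l, ((S.c j k l : ℂ) * (S.c i l m : ℂ) + (S.c k i l : ℂ) * (S.c j l m : ℂ) +
        (S.c i j l : ℂ) * (S.c k l m : ℂ))) * (x i * y j * z k) := by
      rw [Finset.sum_add_distrib, Finset.sum_add_distrib]
      ring
    rw [this, hj', zero_mul]
  have h1 : S.br y (S.br z x) = -S.br y (S.br x z) := by
    rw [S.br_swap x z, map_neg]
  have h2 : S.br z (S.br x y) = -S.br (S.br x y) z := S.br_swap _ _
  rw [h1, h2] at key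
  have : S.br x (S.br y z) = S.br y (S.br x z) + S.br (S.br x y) z := by
    have h3 : S.br x (S.br y z) - (S.br y (S.br x z) + S.br (S.br x y) z) = 0 := by
      rw [← key]; abel
    exact sub_eq_zero.mp h3
  rw [this, add_comm]

lemma br_star (x y : Fin d → ℂ) : S.br (star x) (star y) = star (S.br x y) := by
  ext l
  simp only [br_apply, Pi.star_apply, star_sum, star_mul', Complex.star_def, Complex.conj_ofReal]

lemma hip_br (x y z : Fin d → ℂ) : hip (S.br x y) z = -hip y (S.br (star x) z) := by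
  unfold hip
  simp only [br_apply, Pi.star_apply]
  have e1 : ∀ l, (∑ i, ∑ j, (S.c i j l : ℂ) * x i * y j) * conj (z l) =
      ∑ i, ∑ j, (S.c i j l : ℂ) * x i * y j * conj (z l) := by
    intro l
    rw [Finset.sum_mul]
    exact Finset.sum_congr rfl fun i _ => by rw [Finset.sum_mul]
  have e2 : ∀ j, y j * conj (∑ i, ∑ l, (S.c i l j : ℂ) * star (x i) * z l) =
      ∑ i, ∑ l, -((S.c i j l : ℂ) * x i * y j * conj (z l)) := by
    intro j
    rw [map_sum, Finset.mul_sum]
    refine Finset.sum_congr rfl fun i _ => ?_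
    rw [map_sum, Finset.mul_sum]
    refine Finset.sum_congr rfl fun l _ => ?_
    rw [S.anti23 i j l]
    simp only [map_mul, Complex.star_def, Complex.conj_conj, Complex.conj_ofReal]
    push_cast
    ring
  rw [Finset.sum_congr rfl fun l _ => e1 l, Finset.sum_congr rfl fun j _ => e2 j]
  rw [Finset.sum_comm]
  rw [Finset.sum_congr rfl fun i _ => Finset.sum_comm]
  rw [Finset.sum_comm (f := fun j i => ∑ l, -((S.c i j l : ℂ) * x i * y j * conj (z l)))]
  rw [← Finset.sum_neg_distrib]
  refine Finset.sum_congr rfl fun i _ => ?_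
  rw [← Finset.sum_neg_distrib]
  refine Finset.sum_congr rfl fun j _ => ?_
  rw [← Finset.sum_neg_distrib]
  refine Finset.sum_congr rfl fun l _ => ?_
  ring

lemma killing (x y : Fin d → ℂ) :
    ∑ j, S.br x (S.br (star y) (Pi.single j 1)) j = -hip x y := by
  have e1 : ∀ j, S.br x (S.br (star y) (Pi.single j 1)) j =
      ∑ i, ∑ i', (∑ l, (S.c i' j l : ℂ) * (S.c i l j : ℂ)) * (x i * conj (y i')) := by
    intro j
    rw [S.br_jac_aux]
    refine Finset.sum_congr rfl fun i _ => ?_
    refine Finset.sum_congr rfl fun i' _ => ?_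
    rw [Finset.sum_eq_single j]
    · simp
    · intro b _ hb
      simp [Pi.single_apply, hb]
    · intro h
      exact absurd (Finset.mem_univ _) h
  rw [Finset.sum_congr rfl fun j _ => e1 j]
  rw [Finset.sum_comm]
  unfold hip
  rw [← Finset.sum_neg_distrib]
  refine Finset.sum_congr rfl fun i _ => ?_
  rw [Finset.sum_comm]
  have e2 : ∀ i', ∑ j, (∑ l, (S.c i' j l : ℂ) * (S.c i l j : ℂ)) * (x i * conj (y i')) =
      if i = i' then -(x i * conj (y i)) else 0 := by
    intro i'
    rw [← Finset.sum_mul]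
    have e3 : ∑ j, ∑ l, (S.c i' j l : ℂ) * (S.c i l j : ℂ) =
        -((∑ j, ∑ l, S.c i j l * S.c i' j l : ℝ) : ℂ) := by
      push_cast
      rw [← Finset.sum_neg_distrib]
      refine Finset.sum_congr rfl fun j _ => ?_
      rw [← Finset.sum_neg_distrib]
      refine Finset.sum_congr rfl fun l _ => ?_
      rw [S.anti23 i j l]
      push_cast
      ring
    rw [e3, S.kil]
    split_ifs with h
    · subst h
      simp
    · simp
  rw [Finset.sum_congr rfl fun i' _ => e2 i']
  simp

lemma eq_zero_of_br (x : Fin d → ℂ) (h : ∀ y, S.br x y = 0) : x = 0 := by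
  have h1 := S.killing x x
  have h2 : ∑ j, S.br x (S.br (star x) (Pi.single j 1)) j = 0 := by
    refine Finset.sum_eq_zero fun j _ => ?_
    rw [h]
    rfl
  rw [h2] at h1
  have h3 : hip x x = 0 := by
    have := congrArg (fun t => -t) h1
    simpa using this.symm
  exact hip_self_eq_zero.mp h3

/-- the real bracket -/
noncomputable def brR (x y : Fin d → ℝ) : Fin d → ℝ := fun l => ∑ i, ∑ j, S.c i j l * x i * y j

lemma br_cx (x y : Fin d → ℝ) : S.br (cx x) (cx y) = cx (S.brR x y) := by
  ext l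
  simp only [br_apply, cx, brR]
  push_cast
  rfl

end SC

end STC
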