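import Pool.Agent.STC.SCBr

/-!
# STC/SCJoint : an orthonormal basis of joint eigenvectors

`exists_joint`: on `V = EuclideanSpace ℂ (Fin d)` the operators `T k = -i ad (H k)`,
`T k x = -I • br (cx (H k)) x`, are symmetric: `hip (br (cx h) x) y = - hip x (br (cx h) y)` by
`hip_br` and `star_cx`, and `-I` turns skew into symmetric. They commute pairwise by `br_jac` and
`br (cx (H j)) (cx (H k)) = 0`. By Mathlib (`LinearMap.IsSymmetric.iSup_iInf_eq_top_of_commute`,
`LinearMap.IsSymmetric.orthogonalFamily_iInf_eigenspaces`) `V` is the orthogonal sum of the joint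
eigenspaces `V_γ`, `γ : Fin r → ℂ`; only finitely many are nonzero
(`DirectSum.IsInternal`/`iSupIndep` in finite dimension). Choose orthonormal bases of the nonzero ones
(`DirectSum.IsInternal.subordinateOrthonormalBasis` over the finite index set, or
`OrthonormalBasis` glued); eigenvalues are real as `T k` is symmetric
(`LinearMap.IsSymmetric.conj_eigenvalue_eq_self`). Then `br (cx (H k)) v = I • T k v = (I * w k) • v`.
ALTERNATIVE (induction free): the whole statement also follows from the simultaneous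
diagonalisation by choosing `H0` generic and one `eigenvectorBasis`.

`exists_generic`: for finitely many nonzero vectors `w i` of `ℝ^r` there is `H0` not orthogonal to any
of them: `H0 = (1, t, t², …, t^(r-1))`, each `t ↦ Σ_k w_i k t^k` is a nonzero polynomial, so has
finitely many zeros, and `ℝ` is infinite.
-/

open scoped ComplexConjugate

namespace STC

private theorem SCJoint_diag {V : Type*} [NormedAddCommGroup V] [InnerProductSpace ℂ V]
    [FiniteDimensional ℂ V] {r d : ℕ} (hd : Module.finrank ℂ V = d) (T : Fin r → Module.End ℂ V)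
    (hsym : ∀ k, (T k).IsSymmetric) (hcomm : Pairwise (Function.onFun Commute T)) :
    ∃ (v : Fin d → V) (w : Fin d → Fin r → ℝ), Orthonormal ℂ v ∧
      ∀ k i, T k (v i) = (w i k : ℂ) • v i := by
  classical
  have hfam : OrthogonalFamily ℂ (fun γ : Fin r → ℂ =>
      (⨅ j, Module.End.eigenspace (T j) (γ j) : Submodule ℂ V))
      fun γ => (⨅ j, Module.End.eigenspace (T j) (γ j)).subtypeₗᵢ :=
    LinearMap.IsSymmetric.orthogonalFamily_iInf_eigenspaces hsym
  have htop : ⨆ γ : Fin r → ℂ, (⨅ j, Module.End.eigenspace (T j) (γ j) : Submodule ℂ V) = ⊤ :=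
    LinearMap.IsSymmetric.iSup_iInf_eq_top_of_commute hsym hcomm
  generalize hE : (fun γ : Fin r → ℂ =>
    (⨅ j, Module.End.eigenspace (T j) (γ j) : Submodule ℂ V)) = E at hfam
  have hEγ : ∀ γ, E γ = ⨅ j, Module.End.eigenspace (T j) (γ j) := fun γ => by rw [← hE]
  have hfam' : OrthogonalFamily ℂ (fun γ : Fin r → ℂ => E γ) fun γ => (E γ).subtypeₗᵢ := by
    subst hE
    exact hfam
  have htop' : ⨆ γ, E γ = ⊤ := by
    rw [← htop]
    exact iSup_congr hEγ
  have hon := hfam'.orthonormal_sigma_orthonormal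
    (fun γ => (stdOrthonormalBasis ℂ (E γ)).orthonormal)
  generalize hu' : (fun a : Σ γ : Fin r → ℂ, Fin (Module.finrank ℂ (E γ)) =>
    (E a.1).subtypeₗᵢ ((stdOrthonormalBasis ℂ (E a.1)) a.2)) = u at hon
  have hua : ∀ a, u a = ((stdOrthonormalBasis ℂ (E a.1)) a.2 : E a.1) := fun a => by
    rw [← hu']
    rfl
  have hfin : Finite (Σ γ : Fin r → ℂ, Fin (Module.finrank ℂ (E γ))) :=
    hon.linearIndependent.finite
  have : Fintype (Σ γ : Fin r → ℂ, Fin (Module.finrank ℂ (E γ))) := Fintype.ofFinite _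
  have hspan : ⊤ ≤ Submodule.span ℂ (Set.range u) := by
    rw [← htop']
    refine iSup_le fun γ => ?_
    intro x hx
    have h1 := (stdOrthonormalBasis ℂ (E γ)).sum_repr ⟨x, hx⟩
    have h2 : x = ∑ i, (stdOrthonormalBasis ℂ (E γ)).repr ⟨x, hx⟩ i •
        ((stdOrthonormalBasis ℂ (E γ)) i : V) := by
      have h3 := congrArg (fun z : E γ => (z : V)) h1
      simp only [Submodule.coe_sum, Submodule.coe_smul] at h3
      exact h3.symm
    rw [h2]
    refine Submodule.sum_mem _ fun i _ => Submodule.smul_mem _ _ (Submodule.subset_span ?_)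
    exact ⟨⟨γ, i⟩, hua _⟩
  have hcard : Fintype.card (Σ γ : Fin r → ℂ, Fin (Module.finrank ℂ (E γ))) = d := by
    rw [← hd, Module.finrank_eq_card_basis (Module.Basis.mk hon.linearIndependent hspan)]
  have hmem : ∀ a (k : Fin r), T k (u a) = a.1 k • u a := by
    intro a k
    have h1 : u a ∈ E a.1 := by
      rw [hua]
      exact ((stdOrthonormalBasis ℂ (E a.1)) a.2).2
    rw [hEγ] at h1
    have h2 := (Submodule.mem_iInf _).1 h1 k
    exact Module.End.mem_eigenspace_iff.1 h2
  have hreal : ∀ (a : Σ γ : Fin r → ℂ, Fin (Module.finrank ℂ (E γ))) (k : Fin r),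
      conj (a.1 k) = a.1 k := by
    intro a k
    apply (hsym k).conj_eigenvalue_eq_self
    apply Module.End.hasEigenvalue_of_hasEigenvector (x := u a)
    exact ⟨Module.End.mem_eigenspace_iff.2 (hmem a k), hon.ne_zero a⟩
  refine ⟨fun i => u ((Fintype.equivFinOfCardEq hcard).symm i),
    fun i k => (((Fintype.equivFinOfCardEq hcard).symm i).1 k).re,
    hon.comp _ (Fintype.equivFinOfCardEq hcard).symm.injective, ?_⟩
  intro k i
  rw [hmem]
  have h6 := Complex.conj_eq_iff_re.1 (hreal ((Fintype.equivFinOfCardEq hcard).symm i) k)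
  rw [h6]

/-- the operator `-i ad (h)` -/
private noncomputable def SCJoint_T {d : ℕ} (S : SC d) (h : Fin d → ℂ) :
    Module.End ℂ (EuclideanSpace ℂ (Fin d)) where
  toFun x := WithLp.toLp 2 ((-Complex.I) • S.br h (WithLp.ofLp x))
  map_add' x y := by
    rw [WithLp.ofLp_add, map_add, smul_add, WithLp.toLp_add]
  map_smul' c x := by
    rw [WithLp.ofLp_smul, map_smul, smul_comm, WithLp.toLp_smul]
    rfl

private theorem SCJoint_T_apply {d : ℕ} (S : SC d) (h : Fin d → ℂ)
    (x : EuclideanSpace ℂ (Fin d)) :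
    SCJoint_T S h x = WithLp.toLp 2 ((-Complex.I) • S.br h (WithLp.ofLp x)) := rfl

private theorem SCJoint_T_symm {d : ℕ} (S : SC d) (h : Fin d → ℝ) :
    (SCJoint_T S (cx h)).IsSymmetric := by
  intro x y
  rw [SCJoint_T_apply, SCJoint_T_apply]
  have e1 := hip_eq_inner (WithLp.ofLp y) ((-Complex.I) • S.br (cx h) (WithLp.ofLp x))
  have e2 := hip_eq_inner ((-Complex.I) • S.br (cx h) (WithLp.ofLp y)) (WithLp.ofLp x)
  rw [WithLp.toLp_ofLp] at e1 e2
  rw [← e1, ← e2, hip_smul_right, hip_smul_left, S.hip_br, star_cx]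
  simp

private theorem SCJoint_T_comm {d : ℕ} (S : SC d) (h h' : Fin d → ℂ) (hh : S.br h h' = 0) :
    Commute (SCJoint_T S h) (SCJoint_T S h') := by
  show SCJoint_T S h * SCJoint_T S h' = SCJoint_T S h' * SCJoint_T S h
  apply LinearMap.ext
  intro x
  rw [Module.End.mul_apply, Module.End.mul_apply, SCJoint_T_apply, SCJoint_T_apply,
    SCJoint_T_apply, SCJoint_T_apply, WithLp.ofLp_toLp, WithLp.ofLp_toLp, map_smul, map_smul,
    S.br_jac h h', hh, map_zero, LinearMap.zero_apply, zero_add]

namespace SC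

variable {d : ℕ} (S : SC d)

theorem exists_joint {r : ℕ} (H : Fin r → Fin d → ℝ)
    (hH : ∀ j k, S.br (cx (H j)) (cx (H k)) = 0) :
    ∃ (v : Fin d → Fin d → ℂ) (w : Fin d → Fin r → ℝ),
      (∀ i j, hip (v i) (v j) = if i = j then 1 else 0) ∧
      (∀ k i, S.br (cx (H k)) (v i) = (Complex.I * (w i k : ℂ)) • v i) := by
  obtain ⟨v, w, hv, hw⟩ := SCJoint_diag (V := EuclideanSpace ℂ (Fin d)) (d := d) (by simp)
    (fun k => SCJoint_T S (cx (H k))) (fun k => SCJoint_T_symm S (H k))
    (fun j k _ => SCJoint_T_comm S _ _ (hH j k))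
  refine ⟨fun i => WithLp.ofLp (v i), w, ?_, ?_⟩
  · intro i j
    rw [hip_eq_inner, WithLp.toLp_ofLp, WithLp.toLp_ofLp, orthonormal_iff_ite.1 hv j i]
    by_cases hij : i = j
    · subst hij
      simp
    · rw [if_neg (fun h => hij h.symm), if_neg hij]
  · intro k i
    have h1 := hw k i
    rw [SCJoint_T_apply] at h1
    have h2 := congrArg WithLp.ofLp h1
    rw [WithLp.ofLp_toLp, WithLp.ofLp_smul] at h2
    have h4 := congrArg (fun z => Complex.I • z) h2
    simp only [smul_smul] at h4
    have h5 : Complex.I * -Complex.I = 1 := by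
      rw [mul_neg, Complex.I_mul_I, neg_neg]
    rw [h5, one_smul] at h4
    exact h4

end SC

theorem exists_generic {d r : ℕ} (w : Fin d → Fin r → ℝ) :
    ∃ H0 : Fin r → ℝ, ∀ i, w i ≠ 0 → ∑ k, w i k * H0 k ≠ 0 := by
  classical
  let p : Fin d → Polynomial ℝ := fun i => ∑ k : Fin r, Polynomial.C (w i k) * Polynomial.X ^ (k : ℕ)
  have hp : ∀ i, w i ≠ 0 → p i ≠ 0 := by
    intro i hi h0
    apply hi
    funext k
    have h1 : (p i).coeff (k : ℕ) = w i k := by
      simp only [p, Polynomial.finsetSum_coeff, Polynomial.coeff_C_mul, Polynomial.coeff_X_pow]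
      rw [Finset.sum_eq_single k]
      · simp
      · intro j _ hj
        rw [if_neg, mul_zero]
        intro h
        exact hj (Fin.ext h.symm)
      · intro h
        exact (h (Finset.mem_univ k)).elim
    rw [← h1, h0]
    simp
  have hP : (∏ i ∈ Finset.univ.filter (fun i => w i ≠ 0), p i) ≠ 0 := by
    rw [Finset.prod_ne_zero_iff]
    intro i hi
    exact hp i (Finset.mem_filter.1 hi).2
  obtain ⟨t, ht⟩ : ∃ t : ℝ, (∏ i ∈ Finset.univ.filter (fun i => w i ≠ 0), p i).eval t ≠ 0 := by
    by_contra hcon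
    push Not at hcon
    apply hP
    apply Polynomial.funext
    intro t
    rw [hcon t, Polynomial.eval_zero]
  refine ⟨fun k => t ^ (k : ℕ), fun i hi => ?_⟩
  rw [Polynomial.eval_prod, Finset.prod_ne_zero_iff] at ht
  have h1 := ht i (Finset.mem_filter.2 ⟨Finset.mem_univ i, hi⟩)
  simpa only [p, Polynomial.eval_finsetSum, Polynomial.eval_mul, Polynomial.eval_C,
    Polynomial.eval_pow, Polynomial.eval_X] using h1

end STC
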