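import Pool.Agent.STC.SCBr

/-!
# STC/SCTor : a maximal abelian subalgebra, with an orthonormal basis

PROOF of `exists_tor`. Let `P n` say that there is `H : Fin n → Fin d → ℝ` orthonormal with commuting
members. `P 0` holds, `P n` implies `n ≤ d` (`card_le_of_orthonormal` for `cx ∘ H`, or
`Fintype.card_le` for orthonormal families in `EuclideanSpace ℝ (Fin d)`). Let `r` be the largest
`n` with `P n` (`Nat.findGreatest` or `Nat.find` of the complement). If `x` commutes with all `H k`,
put `x' = x - Σ_k (x ⋅ H k) H k`: it commutes with all `H k` and is orthogonal to them. If `x' ≠ 0`,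
normalise it and append it (`Fin.cons`): the family of size `r + 1` satisfies `P (r + 1)`,
contradiction (`br x' x' = 0`). So `x' = 0`. The complex statement: `z = cx (re z) + i cx (im z)` and
`br (cx (H k)) z = cx (brR (H k) (re z)) + i cx (brR (H k) (im z))` (`br_cx`), so `re z` and `im z`
both commute with all `H k`.
-/

open scoped ComplexConjugate

namespace STC

private lemma sctor_cx_add {d : ℕ} (x y : Fin d → ℝ) : cx (x + y) = cx x + cx y := by
  funext i; simp [cx]

private lemma sctor_cx_sub {d : ℕ} (x y : Fin d → ℝ) : cx (x - y) = cx x - cx y := by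
  funext i; simp [cx]

private lemma sctor_cx_smul {d : ℕ} (a : ℝ) (x : Fin d → ℝ) : cx (a • x) = (a : ℂ) • cx x := by
  funext i; simp [cx]

private lemma sctor_cx_sum {d n : ℕ} (a : Fin n → ℝ) (x : Fin n → Fin d → ℝ) :
    cx (∑ k, a k • x k) = ∑ k, (a k : ℂ) • cx (x k) := by
  funext i; simp [cx, Finset.sum_apply]

private lemma sctor_decomp {d : ℕ} (z : Fin d → ℂ) :
    z = cx (fun i => (z i).re) + Complex.I • cx (fun i => (z i).im) := by
  funext i
  simp only [Pi.add_apply, Pi.smul_apply, cx, smul_eq_mul]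
  rw [mul_comm]
  exact (Complex.re_add_im (z i)).symm

private lemma sctor_cx_zero {d : ℕ} (x y : Fin d → ℝ) (h : cx x + Complex.I • cx y = 0) :
    x = 0 ∧ y = 0 := by
  constructor
  · funext i
    have := congrArg Complex.re (congrFun h i)
    simpa [cx] using this
  · funext i
    have := congrArg Complex.im (congrFun h i)
    simpa [cx] using this

namespace SC

variable {d : ℕ} (S : SC d)

/-- an orthonormal commuting family in the span of a linearly independent commuting family -/
theorem orth_of_indep {n : ℕ} (H' : Fin n → Fin d → ℝ) (hli : LinearIndependent ℝ H')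
    (hc : ∀ j k, S.br (cx (H' j)) (cx (H' k)) = 0) :
    ∃ H : Fin n → Fin d → ℝ, (∀ j k, ∑ i, H j i * H k i = if j = k then 1 else 0) ∧
      (∀ j k, S.br (cx (H j)) (cx (H k)) = 0) := by
  classical
  -- work in Euclidean space
  let e : (Fin d → ℝ) ≃ₗ[ℝ] EuclideanSpace ℝ (Fin d) :=
    (WithLp.linearEquiv 2 ℝ (Fin d → ℝ)).symm
  have hli' : LinearIndependent ℝ (fun k => e (H' k)) := hli.map' e.toLinearMap e.ker
  let W : Submodule ℝ (EuclideanSpace ℝ (Fin d)) := Submodule.span ℝ (Set.range fun k => e (H' k))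
  have hW : Module.finrank ℝ W = n := by
    have h := finrank_span_eq_card hli'
    rwa [Fintype.card_fin] at h
  let b : OrthonormalBasis (Fin n) ℝ W :=
    (stdOrthonormalBasis ℝ W).reindex (finCongr hW)
  have hspan : ∀ w : EuclideanSpace ℝ (Fin d), w ∈ W → ∃ c : Fin n → ℝ,
      (WithLp.ofLp w : Fin d → ℝ) = ∑ k, c k • H' k := by
    intro w hw
    obtain ⟨c, hcw⟩ := (Submodule.mem_span_range_iff_exists_fun ℝ).1 hw
    refine ⟨c, ?_⟩
    rw [← hcw]
    simp [e]
  refine ⟨fun k => WithLp.ofLp (b k : EuclideanSpace ℝ (Fin d)), fun j k => ?_, fun j k => ?_⟩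
  · have h := orthonormal_iff_ite.1 b.orthonormal k j
    rw [Submodule.coe_inner, PiLp.inner_apply] at h
    simp only [RCLike.inner_apply, conj_trivial] at h
    rw [h]
    by_cases hjk : j = k
    · rw [if_pos hjk, if_pos hjk.symm]
    · rw [if_neg hjk, if_neg (Ne.symm hjk)]
  · obtain ⟨c, hcj⟩ := hspan _ (b j).2
    obtain ⟨c', hck⟩ := hspan _ (b k).2
    beta_reduce
    rw [hcj, hck, sctor_cx_sum, sctor_cx_sum, map_sum]
    refine Finset.sum_eq_zero fun i _ => ?_
    rw [map_smul, map_sum, LinearMap.sum_apply]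
    rw [Finset.sum_eq_zero, smul_zero]
    intro i' _
    rw [map_smul, LinearMap.smul_apply, hc, smul_zero]

theorem exists_tor_max : ∃ r : ℕ, ∃ H : Fin r → Fin d → ℝ,
    (∀ j k, ∑ i, H j i * H k i = if j = k then 1 else 0) ∧
    (∀ j k, S.br (cx (H j)) (cx (H k)) = 0) ∧
    (∀ z : Fin d → ℂ, (∀ k, S.br (cx (H k)) z = 0) → z = ∑ k, hip z (cx (H k)) • cx (H k)) ∧
    (∀ (n : ℕ) (H' : Fin n → Fin d → ℝ), LinearIndependent ℝ H' →
      (∀ j k, S.br (cx (H' j)) (cx (H' k)) = 0) → n ≤ r) := by
  classical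
  let P : ℕ → Prop := fun n => ∃ H : Fin n → Fin d → ℝ,
    (∀ j k, ∑ i, H j i * H k i = if j = k then 1 else 0) ∧
    (∀ j k, S.br (cx (H j)) (cx (H k)) = 0)
  have hP0 : P 0 := ⟨fun j => j.elim0, fun j => j.elim0, fun j => j.elim0⟩
  have hle : ∀ n, P n → n ≤ d := by
    rintro n ⟨H, h1, -⟩
    have := card_le_of_orthonormal (fun k => cx (H k))
      (by intro i j; rw [hip_cx, h1]; split_ifs <;> simp)
    simpa using this
  obtain ⟨r, hr, hrmax⟩ : ∃ r, P r ∧ ∀ n, P n → n ≤ r := by
    refine ⟨Nat.findGreatest P d, Nat.findGreatest_spec (P := P) (Nat.zero_le d) hP0, ?_⟩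
    intro n hn
    exact Nat.le_findGreatest (hle n hn) hn
  have hr1 : ¬ P (r + 1) := fun h => by
    have := hrmax _ h
    omega
  obtain ⟨H, h1, h2⟩ := hr
  have key : ∀ x : Fin d → ℝ, (∀ k, S.br (cx (H k)) (cx x) = 0) →
      x = ∑ k, (∑ i, x i * H k i) • H k := by
    intro x hx
    by_contra hne
    obtain ⟨y, hy⟩ : ∃ y : Fin d → ℝ, y = x - ∑ k, (∑ i, x i * H k i) • H k := ⟨_, rfl⟩
    have hy0 : y ≠ 0 := by rw [hy]; exact sub_ne_zero.mpr hne
    have hyc : ∀ k, S.br (cx (H k)) (cx y) = 0 := by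
      intro k
      rw [hy, sctor_cx_sub, sctor_cx_sum, map_sub, map_sum, hx k, zero_sub, neg_eq_zero]
      refine Finset.sum_eq_zero fun j _ => ?_
      rw [map_smul, h2, smul_zero]
    have hyo : ∀ k, ∑ i, y i * H k i = 0 := by
      intro k
      have e1 : ∑ i, y i * H k i = ∑ i, x i * H k i -
          ∑ i, (∑ j, (∑ i', x i' * H j i') * H j i) * H k i := by
        rw [← Finset.sum_sub_distrib]
        refine Finset.sum_congr rfl fun i _ => ?_
        rw [hy]
        simp only [Pi.sub_apply, Finset.sum_apply, Pi.smul_apply, smul_eq_mul]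
        ring
      have e2 : ∑ i, (∑ j, (∑ i', x i' * H j i') * H j i) * H k i =
          ∑ j, (∑ i', x i' * H j i') * ∑ i, H j i * H k i := by
        simp only [Finset.sum_mul, Finset.mul_sum]
        rw [Finset.sum_comm]
        refine Finset.sum_congr rfl fun j _ => ?_
        refine Finset.sum_congr rfl fun i _ => ?_
        refine Finset.sum_congr rfl fun i' _ => ?_
        ring
      rw [e1, e2]
      simp only [h1]
      simp
    have hyy : 0 < ∑ i, y i * y i := by
      have hnn : ∀ i ∈ Finset.univ, 0 ≤ y i * y i := fun i _ => mul_self_nonneg _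
      rcases (Finset.sum_nonneg hnn).lt_or_eq with h | h
      · exact h
      · exfalso
        apply hy0
        funext i
        have := (Finset.sum_eq_zero_iff_of_nonneg hnn).1 h.symm i (Finset.mem_univ i)
        simpa using this
    apply hr1
    obtain ⟨c, hc⟩ : ∃ c : ℝ, c * c * ∑ i, y i * y i = 1 := by
      refine ⟨(Real.sqrt (∑ i, y i * y i))⁻¹, ?_⟩
      have hs := Real.mul_self_sqrt hyy.le
      have hs0 : Real.sqrt (∑ i, y i * y i) ≠ 0 := (Real.sqrt_pos.2 hyy).ne'
      rw [← mul_inv, hs]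
      exact inv_mul_cancel₀ hyy.ne'
    refine ⟨Fin.cons (c • y) H, ?_, ?_⟩
    · intro j k
      refine Fin.cases ?_ (fun j => ?_) j
      · refine Fin.cases ?_ (fun k => ?_) k
        · simp only [Fin.cons_zero, Pi.smul_apply, smul_eq_mul, if_true]
          rw [← hc, Finset.mul_sum]
          refine Finset.sum_congr rfl fun i _ => by ring
        · rw [if_neg (Fin.succ_ne_zero k).symm]
          simp only [Fin.cons_zero, Fin.cons_succ, Pi.smul_apply, smul_eq_mul]
          have : ∑ i, c * y i * H k i = c * ∑ i, y i * H k i := by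
            rw [Finset.mul_sum]
            refine Finset.sum_congr rfl fun i _ => by ring
          rw [this, hyo, mul_zero]
      · refine Fin.cases ?_ (fun k => ?_) k
        · rw [if_neg (Fin.succ_ne_zero j)]
          simp only [Fin.cons_zero, Fin.cons_succ, Pi.smul_apply, smul_eq_mul]
          have : ∑ i, H j i * (c * y i) = c * ∑ i, y i * H j i := by
            rw [Finset.mul_sum]
            refine Finset.sum_congr rfl fun i _ => by ring
          rw [this, hyo, mul_zero]
        · simp only [Fin.cons_succ, Fin.succ_inj]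
          exact h1 j k
    · intro j k
      refine Fin.cases ?_ (fun j => ?_) j
      · refine Fin.cases ?_ (fun k => ?_) k
        · exact S.br_self _
        · simp only [Fin.cons_zero, Fin.cons_succ]
          rw [S.br_swap, sctor_cx_smul, map_smul, hyc, smul_zero, neg_zero]
      · refine Fin.cases ?_ (fun k => ?_) k
        · simp only [Fin.cons_zero, Fin.cons_succ]
          rw [sctor_cx_smul, map_smul, hyc, smul_zero]
        · simp only [Fin.cons_succ]
          exact h2 j k
  refine ⟨r, H, h1, h2, ?_, fun n H' hli hc => hrmax n (S.orth_of_indep H' hli hc)⟩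
  intro z hz
  have hd := sctor_decomp z
  obtain ⟨x, hxdef⟩ : ∃ x : Fin d → ℝ, x = fun i => (z i).re := ⟨_, rfl⟩
  obtain ⟨y, hydef⟩ : ∃ y : Fin d → ℝ, y = fun i => (z i).im := ⟨_, rfl⟩
  rw [← hxdef, ← hydef] at hd
  have hxy : ∀ k, S.br (cx (H k)) (cx x) = 0 ∧ S.br (cx (H k)) (cx y) = 0 := by
    intro k
    have h3 := hz k
    rw [hd, map_add, map_smul, S.br_cx, S.br_cx] at h3
    obtain ⟨h4, h5⟩ := sctor_cx_zero _ _ h3
    rw [S.br_cx, S.br_cx, h4, h5]
    constructor <;> (funext i; simp [cx])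
  have kx := key x (fun k => (hxy k).1)
  have ky := key y (fun k => (hxy k).2)
  have hh : ∀ k, hip z (cx (H k)) =
      ((∑ i, x i * H k i : ℝ) : ℂ) + Complex.I * ((∑ i, y i * H k i : ℝ) : ℂ) := by
    intro k
    rw [hd, hip_add_left, hip_smul_left, hip_cx, hip_cx]
  have e3 : ∑ k, hip z (cx (H k)) • cx (H k) =
      cx (∑ k, (∑ i, x i * H k i) • H k) + Complex.I • cx (∑ k, (∑ i, y i * H k i) • H k) := by
    rw [sctor_cx_sum, sctor_cx_sum, Finset.smul_sum, ← Finset.sum_add_distrib]
    refine Finset.sum_congr rfl fun k _ => ?_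
    rw [hh, add_smul, smul_smul]
  rw [e3, ← kx, ← ky]
  exact hd

theorem exists_tor : ∃ r : ℕ, ∃ H : Fin r → Fin d → ℝ,
    (∀ j k, ∑ i, H j i * H k i = if j = k then 1 else 0) ∧
    (∀ j k, S.br (cx (H j)) (cx (H k)) = 0) ∧
    (∀ z : Fin d → ℂ, (∀ k, S.br (cx (H k)) z = 0) → z = ∑ k, hip z (cx (H k)) • cx (H k)) := by
  obtain ⟨r, H, h1, h2, h3, -⟩ := S.exists_tor_max
  exact ⟨r, H, h1, h2, h3⟩

end SC

end STC
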