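import Pool.Agent.STC.SCPre
import Pool.Agent.STC.SCTor
import Pool.Agent.STC.SCJoint

/-!
# STC/SCPos : existence of the root decomposition (`PreDec`)

PROOF. `r, H` from `SC.exists_tor`, `v, w` from `SC.exists_joint`, `H0` from `exists_generic`. Let
`M` be the number of `i : Fin d` with `0 < w i ⬝ H0`, `E b = v (e b)`, `root b = w (e b)` for an
equivalence `e : Fin M ≃ {i // 0 < w i ⬝ H0}`. Weight lemma: if `br (cx (H k)) x = (I γ_k) x` and
`br (cx (H k)) y = (I δ_k) y` for all `k` (with `γ, δ` real) and `γ ≠ δ` then `hip x y = 0`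
(`hip_br`, `star_cx`: `I γ_k hip x y = - hip x (I δ_k y) = I δ_k hip x y`). `star (E b)` has weight
`- root b` (`br_star`, `star_cx`), `cx (H k)` has weight `0`, and `root b ≠ 0`, `root b ≠ - root c`
(pair with `H0`); this gives `hipEE`, `hipEsE`, `hipEH`. DIMENSION: the family `cx (H k)`, `E b`,
`star (E b)` indexed by `Fin r ⊕ (Fin M ⊕ Fin M)` is orthonormal, so `r + 2 M ≤ d`
(`card_le_of_orthonormal`). It spans: each `v i` is in the span. If `w i ⬝ H0 > 0` it is some `E b`.
If `w i = 0` (equivalently `w i ⬝ H0 = 0`) it commutes with all `H k`, so is in the span of the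
`cx (H k)` (last clause of `exists_tor`). If `w i ⬝ H0 < 0`, expand `star (v i)` (weight `- w i`) in
the basis `v` (`expand`): only `v j` with `w j = - w i` occur, and these are `E`s; take `star`.
Since the `v i` span `ℂ^d` (`expand`), `d ≤ r + 2 M`.
-/

open scoped ComplexConjugate

namespace STC

private lemma pos_hip_zero {d : ℕ} (S : SC d) {r : ℕ} (H : Fin r → Fin d → ℝ)
    {x y : Fin d → ℂ} {γ δ : Fin r → ℝ}
    (hx : ∀ k, S.br (cx (H k)) x = (Complex.I * (γ k : ℂ)) • x)
    (hy : ∀ k, S.br (cx (H k)) y = (Complex.I * (δ k : ℂ)) • y)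
    (h : γ ≠ δ) : hip x y = 0 := by
  obtain ⟨k, hk⟩ := Function.ne_iff.mp h
  have h1 := S.hip_br (cx (H k)) x y
  rw [star_cx, hx k, hy k, hip_smul_left, hip_smul_right] at h1
  simp only [map_mul, Complex.conj_I, Complex.conj_ofReal] at h1
  have h2 : (Complex.I * ((γ k : ℂ) - δ k)) * hip x y = 0 := by linear_combination h1
  rcases mul_eq_zero.mp h2 with h3 | h3
  · exfalso
    rcases mul_eq_zero.mp h3 with h4 | h4
    · exact Complex.I_ne_zero h4
    · exact hk (by exact_mod_cast sub_eq_zero.mp h4)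
  · exact h3

private lemma pos_br_star {d : ℕ} (S : SC d) {r : ℕ} (H : Fin r → Fin d → ℝ)
    {x : Fin d → ℂ} {γ : Fin r → ℝ}
    (hx : ∀ k, S.br (cx (H k)) x = (Complex.I * (γ k : ℂ)) • x) (k : Fin r) :
    S.br (cx (H k)) (star x) = (Complex.I * ((-γ) k : ℂ)) • star x := by
  conv_lhs => rw [← star_cx (H k)]
  rw [S.br_star, hx, star_smul]
  congr 1
  rw [star_mul', Complex.star_def, Complex.conj_I, Complex.conj_ofReal, Pi.neg_apply]
  push_cast
  ring

theorem PreDec.exists_of_tor {d : ℕ} (S : SC d) {r : ℕ} (H : Fin r → Fin d → ℝ)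
    (hHH : ∀ j k, ∑ i, H j i * H k i = if j = k then 1 else 0)
    (hbr : ∀ j k, S.br (cx (H j)) (cx (H k)) = 0)
    (hmax : ∀ z : Fin d → ℂ, (∀ k, S.br (cx (H k)) z = 0) →
      z = ∑ k, hip z (cx (H k)) • cx (H k)) : ∃ M : ℕ, Nonempty (PreDec S r M) := by
  classical
  obtain ⟨v, w, hv, hvw⟩ := S.exists_joint H hbr
  obtain ⟨H0, hH0⟩ := exists_generic w
  obtain ⟨M, ⟨e⟩⟩ : ∃ M : ℕ, Nonempty (Fin M ≃ {i : Fin d // 0 < ∑ k, w i k * H0 k}) :=
    ⟨_, ⟨(Fintype.equivFin _).symm⟩⟩
  have hpos : ∀ b, 0 < ∑ k, w (e b) k * H0 k := fun b => (e b).2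
  -- weights
  have hsv : ∀ i k, S.br (cx (H k)) (star (v i)) = (Complex.I * ((-w i) k : ℂ)) • star (v i) :=
    fun i k => pos_br_star S H (fun k => hvw k i) k
  have hHw : ∀ k' k, S.br (cx (H k)) (cx (H k')) =
      (Complex.I * ((0 : Fin r → ℝ) k : ℂ)) • cx (H k') := by
    intro k' k
    rw [hbr, Pi.zero_apply, Complex.ofReal_zero, mul_zero, zero_smul]
  have hne0 : ∀ b, w (e b) ≠ 0 := by
    intro b h
    have h1 := hpos b
    rw [h] at h1
    simp at h1
  have hneneg : ∀ b c, w (e b) ≠ -w (e c) := by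
    intro b c h
    have h1 := hpos b
    rw [h] at h1
    have h2 := hpos c
    simp only [Pi.neg_apply, neg_mul, Finset.sum_neg_distrib] at h1
    linarith
  have hEE : ∀ b c, hip (v (e b)) (v (e c)) = if b = c then 1 else 0 := by
    intro b c
    rw [hv]
    by_cases hbc : b = c
    · rw [if_pos hbc, if_pos (by rw [hbc])]
    · rw [if_neg hbc, if_neg (fun h => hbc (e.injective (Subtype.ext h)))]
  have hEsE : ∀ b c, hip (v (e b)) (star (v (e c))) = 0 := fun b c =>
    pos_hip_zero S H (fun k => hvw k (e b)) (fun k => hsv (e c) k) (hneneg b c)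
  have hEH : ∀ b k, hip (v (e b)) (cx (H k)) = 0 := fun b k =>
    pos_hip_zero S H (fun k => hvw k (e b)) (fun k' => hHw k k') (hne0 b)
  have hHE : ∀ k b, hip (cx (H k)) (v (e b)) = 0 := by
    intro k b
    rw [← hip_conj, hEH, map_zero]
  have hHs : ∀ k b, hip (cx (H k)) (star (v (e b))) = 0 := by
    intro k b
    rw [← star_cx (H k), hip_star_star, hHE, map_zero]
  -- the orthonormal family
  let bs : Fin r ⊕ (Fin M ⊕ Fin M) → Fin d → ℂ :=
    Sum.elim (fun k => cx (H k)) (Sum.elim (fun b => v (e b)) (fun b => star (v (e b))))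
  have hbs : ∀ a a', hip (bs a) (bs a') = if a = a' then 1 else 0 := by
    intro a a'
    rcases a with k | b | b <;> rcases a' with k' | c | c
    · simp only [bs, Sum.elim_inl, Sum.inl.injEq]
      rw [hip_cx, hHH]
      split_ifs <;> simp
    · simp only [bs, Sum.elim_inl, Sum.elim_inr, reduceCtorEq, if_false]
      exact hHE k c
    · simp only [bs, Sum.elim_inl, Sum.elim_inr, reduceCtorEq, if_false]
      exact hHs k c
    · simp only [bs, Sum.elim_inl, Sum.elim_inr, reduceCtorEq, if_false]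
      exact hEH b k'
    · simp only [bs, Sum.elim_inl, Sum.elim_inr, Sum.inr.injEq, Sum.inl.injEq]
      exact hEE b c
    · simp only [bs, Sum.elim_inl, Sum.elim_inr, Sum.inr.injEq, reduceCtorEq, if_false]
      exact hEsE b c
    · simp only [bs, Sum.elim_inl, Sum.elim_inr, reduceCtorEq, if_false]
      rw [← hip_conj, hHs, map_zero]
    · simp only [bs, Sum.elim_inl, Sum.elim_inr, Sum.inr.injEq, reduceCtorEq, if_false]
      rw [← hip_conj, hEsE, map_zero]
    · simp only [bs, Sum.elim_inr, Sum.inr.injEq]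
      rw [hip_star_star, hEE]
      split_ifs <;> simp
  have hle : r + 2 * M ≤ d := by
    have h := card_le_of_orthonormal bs hbs
    simp only [Fintype.card_sum, Fintype.card_fin] at h
    omega
  -- spanning
  have hspan : ∀ i, v i ∈ Submodule.span ℂ (Set.range bs) := by
    intro i
    rcases lt_trichotomy (∑ k, w i k * H0 k) 0 with hlt | heq | hgt
    · have h1 := expand v hv (Fintype.card_fin d) (star (v i))
      have h2 : v i = ∑ j, star (hip (star (v i)) (v j)) • star (v j) := by
        conv_lhs => rw [← star_star (v i), h1]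
        rw [star_sum]
        exact Finset.sum_congr rfl fun j _ => star_smul _ _
      rw [h2]
      refine Submodule.sum_mem _ fun j _ => ?_
      by_cases hj : -w i = w j
      · have hpj : 0 < ∑ k, w j k * H0 k := by
          rw [← hj]
          simp only [Pi.neg_apply, neg_mul, Finset.sum_neg_distrib]
          linarith
        refine Submodule.smul_mem _ _ (Submodule.subset_span ?_)
        refine ⟨Sum.inr (Sum.inr (e.symm ⟨j, hpj⟩)), ?_⟩
        simp only [bs, Sum.elim_inr, Equiv.apply_symm_apply]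
      · rw [pos_hip_zero S H (fun k => hsv i k) (fun k => hvw k j) hj, star_zero, zero_smul]
        exact Submodule.zero_mem _
    · have hw0 : w i = 0 := by
        by_contra hne
        exact hH0 i hne heq
      have h1 := hmax (v i) (fun k => by
        rw [hvw, hw0, Pi.zero_apply, Complex.ofReal_zero, mul_zero, zero_smul])
      rw [h1]
      refine Submodule.sum_mem _ fun k _ => Submodule.smul_mem _ _ (Submodule.subset_span ?_)
      exact ⟨Sum.inl k, rfl⟩
    · refine Submodule.subset_span ⟨Sum.inr (Sum.inl (e.symm ⟨i, hgt⟩)), ?_⟩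
      simp only [bs, Sum.elim_inr, Sum.elim_inl, Equiv.apply_symm_apply]
  have htop : Submodule.span ℂ (Set.range bs) = ⊤ := by
    rw [eq_top_iff]
    intro x _
    rw [expand v hv (Fintype.card_fin d) x]
    exact Submodule.sum_mem _ fun i _ => Submodule.smul_mem _ _ (hspan i)
  have hge : d ≤ r + 2 * M := by
    have h := finrank_range_le_card (R := ℂ) bs
    rw [Set.finrank, htop, finrank_top, Module.finrank_fin_fun] at h
    simp only [Fintype.card_sum, Fintype.card_fin] at h
    omega
  exact ⟨M, ⟨{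
    H := H
    E := fun b => v (e b)
    root := fun b => w (e b)
    H0 := H0
    dim := le_antisymm hle hge
    hipHH := hHH
    hipEE := hEE
    hipEsE := hEsE
    hipEH := hEH
    brHH := hbr
    brHE := fun k b => hvw k (e b)
    root_pos := hpos }⟩⟩

/-- the rank is the largest number of linearly independent commuting elements -/
theorem PreDec.exists_max {d : ℕ} (S : SC d) : ∃ r M : ℕ, Nonempty (PreDec S r M) ∧
    ∀ (n : ℕ) (H' : Fin n → Fin d → ℝ), LinearIndependent ℝ H' →
      (∀ j k, S.br (cx (H' j)) (cx (H' k)) = 0) → n ≤ r := by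
  obtain ⟨r, H, h1, h2, h3, h4⟩ := S.exists_tor_max
  obtain ⟨M, hM⟩ := PreDec.exists_of_tor S H h1 h2 h3
  exact ⟨r, M, hM, h4⟩

theorem PreDec.exists {d : ℕ} (S : SC d) : ∃ r M : ℕ, Nonempty (PreDec S r M) := by
  obtain ⟨r, M, h, -⟩ := PreDec.exists_max S
  exact ⟨r, M, h⟩

end STC
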