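import Pool.Agent.STC.SCBr

/-!
# STC/SCPre : root decomposition without the bracket relations between root vectors
-/

open scoped ComplexConjugate

namespace STC

/-- Root decomposition, without the relations between the root vectors. -/
structure PreDec {d : ℕ} (S : SC d) (r M : ℕ) where
  H : Fin r → Fin d → ℝ
  E : Fin M → Fin d → ℂ
  root : Fin M → Fin r → ℝ
  H0 : Fin r → ℝ
  dim : r + 2 * M = d
  hipHH : ∀ j k, ∑ i, H j i * H k i = if j = k then 1 else 0
  hipEE : ∀ b c, hip (E b) (E c) = if b = c then 1 else 0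
  hipEsE : ∀ b c, hip (E b) (star (E c)) = 0
  hipEH : ∀ b k, hip (E b) (cx (H k)) = 0
  brHH : ∀ j k, S.br (cx (H j)) (cx (H k)) = 0
  brHE : ∀ k b, S.br (cx (H k)) (E b) = (Complex.I * (root b k : ℂ)) • E b
  root_pos : ∀ b, 0 < ∑ k, root b k * H0 k

end STC
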