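import Pool.Agent.STC.SpecDefs
import Pool.Agent.STC.Circ

/-!
# STC/SpecCirc : spectral family of the circle

PROOF. `(TFam.circ α hα).iso k` is spanned by the functions `x ↦ fourier k (a x b)`, which are
multiples of `fourier k` (`fourier k` is a character); it is `span {fourier k}`. `fourier k` is a power of
`fourier 1` or of its conjugate, so in `circAlg`. `decomp`: `Algebra.adjoin_induction`, a product of a
multiple of `fourier k` and of `fourier l` is a multiple of `fourier (k + l)` (`Submodule.iSup` is closed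
under products: induction). `smooth`: `fourier k (x + s/(2π)) = fourier k x * exp (I k s)`
(`fourier_coe_apply`). `eig`: the second derivative of `s ↦ exp (I k s)` at `0` is `- k²`, and
`cas k = k² / α`.
-/

open MeasureTheory
open scoped ComplexConjugate

namespace STC

/-- trigonometric polynomials on the circle -/
def circAlg : Subalgebra ℂ (Circ → ℂ) :=
  Algebra.adjoin ℂ ({fun x => fourier 1 (Multiplicative.toAdd x)} ∪
    {fun x => conj (fourier 1 (Multiplicative.toAdd x))})

/-- the curve of the circle of length `2π` -/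
noncomputable def circCurves (α : ℝ) : Curves Circ where
  κ := Unit
  fin := inferInstance
  γ := fun _ s => Multiplicative.ofAdd ((s / (2 * Real.pi) : ℝ) : UnitAddCircle)
  c := fun _ => 1 / α

private noncomputable def sc_chi (k : ℤ) : Circ → ℂ :=
  fun x => fourier k (Multiplicative.toAdd x)

private lemma sc_chi_mul (k l : ℤ) : sc_chi k * sc_chi l = sc_chi (k + l) := by
  funext x
  show (fourier k (Multiplicative.toAdd x) : ℂ) * fourier l (Multiplicative.toAdd x) =
    fourier (k + l) (Multiplicative.toAdd x)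
  rw [fourier_add]

private lemma sc_chi_zero : sc_chi 0 = 1 := by
  funext x
  show (fourier 0 (Multiplicative.toAdd x) : ℂ) = 1
  rw [fourier_zero]

private lemma sc_add (k : ℤ) (x y : UnitAddCircle) :
    (fourier k (x + y) : ℂ) = fourier k x * fourier k y := by
  rw [fourier_apply, fourier_apply, fourier_apply, smul_add, AddCircle.toCircle_add,
    Circle.coe_mul]

private lemma sc_chi_hom (k : ℤ) (x y : Circ) : sc_chi k (x * y) = sc_chi k x * sc_chi k y :=
  sc_add k (Multiplicative.toAdd x) (Multiplicative.toAdd y)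

private lemma sc_chi_cont (k : ℤ) : Continuous (sc_chi k) :=
  (fourier k).continuous.comp continuous_toAdd

private lemma sc_chi_mem (k : ℤ) : sc_chi k ∈ circAlg := by
  have h1 : sc_chi 1 ∈ circAlg := Algebra.subset_adjoin (Or.inl rfl)
  have h2 : sc_chi (-1) ∈ circAlg := by
    refine Algebra.subset_adjoin (Or.inr ?_)
    rw [Set.mem_singleton_iff]
    funext x
    show (fourier (-1) (Multiplicative.toAdd x) : ℂ) = conj (fourier 1 (Multiplicative.toAdd x))
    rw [fourier_neg]
  induction k using Int.induction_on with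
  | zero =>
    rw [sc_chi_zero]
    exact one_mem _
  | succ n ih =>
    rw [← sc_chi_mul]
    exact mul_mem ih h1
  | pred n ih =>
    rw [sub_eq_add_neg, ← sc_chi_mul]
    exact mul_mem ih h2

private lemma sc_iso (α : ℝ) (hα : 0 < α) (k : ℤ) :
    (TFam.circ α hα).iso k = Submodule.span ℂ {sc_chi k} := by
  apply le_antisymm
  · unfold TFam.iso
    rw [Submodule.span_le]
    rintro f ⟨a, b, rfl⟩
    rw [SetLike.mem_coe, Submodule.mem_span_singleton]
    refine ⟨sc_chi k a * sc_chi k b, ?_⟩
    funext x
    show (sc_chi k a * sc_chi k b) * sc_chi k x = sc_chi k (a * x * b)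
    rw [sc_chi_hom, sc_chi_hom]
    ring
  · rw [Submodule.span_le, Set.singleton_subset_iff]
    refine Submodule.subset_span ⟨1, 1, ?_⟩
    funext x
    show sc_chi k x = sc_chi k (1 * x * 1)
    rw [one_mul, mul_one]

private lemma sc_alg_span {f : Circ → ℂ} (hf : f ∈ circAlg) :
    f ∈ Submodule.span ℂ (Set.range sc_chi) := by
  have hchi : ∀ k, sc_chi k ∈ Submodule.span ℂ (Set.range sc_chi) := fun k =>
    Submodule.subset_span ⟨k, rfl⟩
  unfold circAlg at hf
  induction hf using Algebra.adjoin_induction with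
  | mem g hg =>
    rcases hg with hg | hg
    · rw [Set.mem_singleton_iff] at hg
      rw [hg]
      exact hchi 1
    · rw [Set.mem_singleton_iff] at hg
      have h1 : g = sc_chi (-1) := by
        rw [hg]
        funext x
        show conj (fourier 1 (Multiplicative.toAdd x) : ℂ) =
          fourier (-1) (Multiplicative.toAdd x)
        rw [fourier_neg]
      rw [h1]
      exact hchi (-1)
  | algebraMap r =>
    rw [Algebra.algebraMap_eq_smul_one, ← sc_chi_zero]
    exact Submodule.smul_mem _ r (hchi 0)
  | add g h _ _ ihg ihh => exact Submodule.add_mem _ ihg ihh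
  | mul g h _ _ ihg ihh =>
    have h1 := Submodule.mul_mem_mul ihg ihh
    rw [Submodule.span_mul_span] at h1
    refine Submodule.span_mono ?_ h1
    rintro _ ⟨_, ⟨k, rfl⟩, _, ⟨l, rfl⟩, rfl⟩
    exact ⟨k + l, (sc_chi_mul k l).symm⟩

private lemma sc_curve (α : ℝ) (hα : 0 < α) (k : ℤ) (x : Circ) (s : ℝ) :
    sc_chi k (x * (circCurves α).γ () s) = sc_chi k x * Complex.exp ((Complex.I * k) * (s : ℂ)) := by
  have h1 := (TFam.circ α hα).φ_tor k x (fun _ => s)
  have h2 : sc_chi k (x * (circCurves α).γ () s) =
      Complex.exp (Complex.I * ((∑ j : Unit, ((k : ℤ) : ℝ) * s : ℝ) : ℂ)) * sc_chi k x := h1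
  rw [h2, mul_comm]
  congr 2
  simp only [Finset.univ_unique, Finset.sum_singleton]
  push_cast
  ring

private lemma sc_deriv (C μ : ℂ) (s : ℝ) :
    HasDerivAt (fun s : ℝ => C * Complex.exp (μ * (s : ℂ))) (C * μ * Complex.exp (μ * (s : ℂ)))
      s := by
  have h1 : HasDerivAt (fun z : ℂ => μ * z) μ (s : ℂ) := by
    simpa using (hasDerivAt_id (s : ℂ)).const_mul μ
  have h2 := (h1.cexp.const_mul C).comp_ofReal
  convert h2 using 1
  ring

private lemma sc_deriv2 (C μ : ℂ) :
    iteratedDeriv 2 (fun s : ℝ => C * Complex.exp (μ * (s : ℂ))) 0 = μ ^ 2 * C := by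
  have h1 : deriv (fun s : ℝ => C * Complex.exp (μ * (s : ℂ))) =
      fun s : ℝ => (C * μ) * Complex.exp (μ * (s : ℂ)) := by
    funext s
    exact (sc_deriv C μ s).deriv
  rw [show (2 : ℕ) = 1 + 1 from rfl, iteratedDeriv_succ, iteratedDeriv_one, h1,
    (sc_deriv (C * μ) μ 0).deriv]
  simp
  ring

private lemma sc_span_cont {f : Circ → ℂ} (hf : f ∈ Submodule.span ℂ (Set.range sc_chi)) :
    Continuous f := by
  induction hf using Submodule.span_induction with
  | mem g hg =>
    obtain ⟨k, rfl⟩ := hg
    exact sc_chi_cont k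
  | zero => exact continuous_const
  | add g h _ _ ihg ihh => exact ihg.add ihh
  | smul c g _ ihg => exact ihg.const_smul c

private lemma sc_span_smooth (α : ℝ) (hα : 0 < α) (x : Circ) {f : Circ → ℂ}
    (hf : f ∈ Submodule.span ℂ (Set.range sc_chi)) :
    ContDiff ℝ 2 fun s : ℝ => f (x * (circCurves α).γ () s) := by
  induction hf using Submodule.span_induction with
  | mem g hg =>
    obtain ⟨k, rfl⟩ := hg
    have h1 : (fun s : ℝ => sc_chi k (x * (circCurves α).γ () s)) =
        fun s : ℝ => sc_chi k x * Complex.exp ((Complex.I * k) * (s : ℂ)) := by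
      funext s
      exact sc_curve α hα k x s
    rw [h1]
    have h2 : ContDiff ℝ 2 (fun s : ℝ => (s : ℂ)) := Complex.ofRealCLM.contDiff
    have h3 : ContDiff ℝ 2 (fun s : ℝ => (Complex.I * k) * (s : ℂ)) := contDiff_const.mul h2
    exact contDiff_const.mul h3.cexp
  | zero => exact contDiff_const
  | add g h _ _ ihg ihh => exact ihg.add ihh
  | smul c g _ ihg => exact ihg.const_smul c

theorem specFam_circ (α : ℝ) (hα : 0 < α) : SpecFam (TFam.circ α hα) circAlg (circCurves α) where
  iso_le := by
    intro l f hf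
    change f ∈ (TFam.circ α hα).iso (l : ℤ) at hf
    rw [sc_iso α hα l, Submodule.mem_span_singleton] at hf
    obtain ⟨c, rfl⟩ := hf
    exact circAlg.smul_mem (sc_chi_mem l) c
  iso_fg := by
    intro l
    rw [sc_iso α hα l]
    exact Submodule.fg_span (Set.finite_singleton _)
  decomp := by
    intro f hf
    have h1 := sc_alg_span hf
    refine (Submodule.span_le.2 ?_) h1
    rintro _ ⟨k, rfl⟩
    rw [SetLike.mem_coe]
    refine Submodule.mem_iSup_of_mem (p := fun l => (TFam.circ α hα).iso l) k ?_
    rw [sc_iso α hα k]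
    exact Submodule.mem_span_singleton_self _
  cont := fun f hf => sc_span_cont (sc_alg_span hf)
  smooth := fun f hf _ x => sc_span_smooth α hα x (sc_alg_span hf)
  eig := by
    intro (l : ℤ) f hf x
    rw [sc_iso α hα l, Submodule.mem_span_singleton] at hf
    obtain ⟨c, rfl⟩ := hf
    have h1 : (fun s : ℝ => (c • sc_chi l) (x * (circCurves α).γ () s)) =
        fun s : ℝ => (c * sc_chi l x) * Complex.exp ((Complex.I * l) * (s : ℂ)) := by
      funext s
      show c * sc_chi l (x * (circCurves α).γ () s) = _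
      rw [sc_curve α hα l x s]
      ring
    have h2 : (circCurves α).lap (c • sc_chi l) x =
        ((1 / α : ℝ) : ℂ) *
          iteratedDeriv 2 (fun s : ℝ => (c • sc_chi l) (x * (circCurves α).γ () s)) 0 := by
      unfold Curves.lap
      exact Fintype.sum_unique (ι := Unit) _
    have h3 : ((TFam.circ α hα).cas l : ℂ) = (l : ℂ) ^ 2 / (α : ℂ) := by
      show (((l : ℝ) ^ 2 / α : ℝ) : ℂ) = _
      push_cast
      rfl
    rw [h2, h1, sc_deriv2, h3]
    show ((1 / α : ℝ) : ℂ) * ((Complex.I * (l : ℂ)) ^ 2 * (c * sc_chi l x)) =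
      -((l : ℂ) ^ 2 / (α : ℂ)) * (c * sc_chi l x)
    rw [mul_pow, Complex.I_sq]
    push_cast
    ring

end STC
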