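import Pool.Agent.STC.Iface

/-!
# STC/SpecDefs : Laplace operators given by curves, spectral families, products

`Curves G`: finitely many curves `γ k` in `G` with weights `c k`; the operator is
`L.lap f x = Σ_k c_k (d/ds)² f (x γ_k(s))` at `s = 0`. `SpecFam T A L`: the algebra `A` of functions on
`G` is the sum of the isotypic components `T.iso l`, on which `L.lap` is `- T.cas l`.
-/

open MeasureTheory
open scoped ComplexConjugate

namespace STC

/-- Finitely many curves with weights. -/
structure Curves (G : Type) where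
  κ : Type
  fin : Fintype κ
  γ : κ → ℝ → G
  c : κ → ℝ

attribute [instance] Curves.fin

/-- The second order operator of a family of curves. -/
noncomputable def Curves.lap {G : Type} [Group G] (L : Curves G) (f : G → ℂ) (x : G) : ℂ :=
  ∑ k, (L.c k : ℂ) * iteratedDeriv 2 (fun s : ℝ => f (x * L.γ k s)) 0

/-- The isotypic components are the eigenspaces of the operator on the algebra `A`. -/
structure SpecFam {G : Type} [Group G] [TopologicalSpace G] [MeasureSpace G] {ι : Type} [Fintype ι]
    (T : TFam G ι) (A : Subalgebra ℂ (G → ℂ)) (L : Curves G) : Prop where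
  iso_le : ∀ l, ∀ f ∈ T.iso l, f ∈ A
  iso_fg : ∀ l, (T.iso l).FG
  decomp : ∀ f ∈ A, f ∈ ⨆ l, T.iso l
  cont : ∀ f ∈ A, Continuous f
  smooth : ∀ f ∈ A, ∀ k x, ContDiff ℝ 2 fun s : ℝ => f (x * L.γ k s)
  eig : ∀ l, ∀ f ∈ T.iso l, ∀ x, L.lap f x = -(T.cas l : ℂ) * f x

/-- curves of a product -/
def Curves.prod {G H : Type} [Group G] [Group H] (L : Curves G) (L' : Curves H) :
    Curves (G × H) where
  κ := L.κ ⊕ L'.κ
  fin := inferInstance
  γ := Sum.elim (fun k s => (L.γ k s, 1)) (fun k s => (1, L'.γ k s))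
  c := Sum.elim L.c L'.c

/-- curves of a finite product -/
def Curves.pi {J : Type} [Fintype J] [DecidableEq J] {G : J → Type} [∀ j, Group (G j)]
    (L : ∀ j, Curves (G j)) : Curves (∀ j, G j) where
  κ := Σ j, (L j).κ
  fin := inferInstance
  γ := fun k s => Pi.mulSingle k.1 ((L k.1).γ k.2 s)
  c := fun k => (L k.1).c k.2

/-- the algebra generated by the functions of one of the two variables -/
def algProd {G H : Type} (A : Subalgebra ℂ (G → ℂ)) (B : Subalgebra ℂ (H → ℂ)) :
    Subalgebra ℂ (G × H → ℂ) :=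
  Algebra.adjoin ℂ ({F | ∃ f ∈ A, F = fun x => f x.1} ∪ {F | ∃ g ∈ B, F = fun x => g x.2})

/-- the algebra generated by the functions of one of the variables -/
def algPi {J : Type} {G : J → Type} (A : ∀ j, Subalgebra ℂ (G j → ℂ)) :
    Subalgebra ℂ ((∀ j, G j) → ℂ) :=
  Algebra.adjoin ℂ {F | ∃ j, ∃ f ∈ A j, F = fun x => f (x j)}

end STC
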