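import Pool.Agent.STC.SpecMain

/-!
# STC/SpecDense : completeness of the eigenfunctions

PROOF. The image of `C(Q, ℂ)` is dense in `L²(Q)` (`ContinuousMap.toLp_denseRange`). Let `h` be
continuous on `Q`, `ε > 0`. Take `g ∈ A` with `‖h (π x) - g x‖ < ε` (`hA`) and write `g = Σ_{l ∈ F} g l`,
`g l ∈ T.iso l` (`hS.decomp`). For a function `u` on `G` put `avg u x = |ker π|⁻¹ Σ_{k ∈ ker π} u (x k)`.
`T.iso l` is invariant under right translations (its generators are), so `avg (g l) ∈ T.iso l`;
`avg u` is constant on the fibres of `π` (`π x = π y` gives `y = x k'` with `k' ∈ ker π`), so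
`avg (g l) = f l ∘ π` with a function `f l` on `Q` (`π` surjective), and `f l ∈ eigQ π A L (T.cas l)`
(`hS.iso_le`, `hS.eig`). As `h ∘ π` is constant on fibres, `‖h q - Σ_l f l q‖ < ε` for all `q`, so the
`L²` distance of `h` and `Σ_l f l` is at most `ε` (probability measure), and `Σ_l f l` (as an element of
`L²`, the `f l` are continuous) lies in `⨆ lam, eigE π A L lam`.
-/

open MeasureTheory Complex Filter
open scoped ComplexConjugate ENNReal NNReal Topology

namespace STC

section kernelAverage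

variable {G Q : Type} [Group G] [Group Q]

/-- the average over the kernel -/
noncomputable def avgK (π : G →* Q) [Fintype π.ker] (u : G → ℂ) (x : G) : ℂ :=
  (Fintype.card π.ker : ℂ)⁻¹ * ∑ k : π.ker, u (x * k)

theorem avgK_fibre (π : G →* Q) [Fintype π.ker] (u : G → ℂ) {x y : G} (h : π x = π y) :
    avgK π u x = avgK π u y := by
  unfold avgK
  congr 1
  have hk : y⁻¹ * x ∈ π.ker := by
    rw [MonoidHom.mem_ker, map_mul, map_inv, h, inv_mul_cancel]
  refine Fintype.sum_equiv (Equiv.mulLeft (⟨y⁻¹ * x, hk⟩ : π.ker)) _ _ fun k => ?_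
  simp [mul_assoc]

theorem avgK_sum {α : Type} (π : G →* Q) [Fintype π.ker] (F : Finset α) (u : α → G → ℂ) (x : G) :
    avgK π (∑ l ∈ F, u l) x = ∑ l ∈ F, avgK π (u l) x := by
  unfold avgK
  rw [← Finset.mul_sum, Finset.sum_comm]
  simp [Finset.sum_apply]

theorem avgK_near (π : G →* Q) [Fintype π.ker] (h g : G → ℂ) (ε : ℝ)
    (hk : ∀ (x k : G), π k = 1 → h (x * k) = h x) (hg : ∀ z, ‖h z - g z‖ ≤ ε) (x : G) :
    ‖h x - avgK π g x‖ ≤ ε := by
  have hc : (0 : ℝ) < Fintype.card π.ker := by
    exact_mod_cast Fintype.card_pos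
  have hc' : (Fintype.card π.ker : ℂ) ≠ 0 := by
    exact_mod_cast hc.ne'
  have h1 : h x = (Fintype.card π.ker : ℂ)⁻¹ * ∑ k : π.ker, h (x * k) := by
    have : ∀ k : π.ker, h (x * k) = h x := fun k => hk x k k.2
    rw [Finset.sum_congr rfl (fun k _ => this k), Finset.sum_const, Finset.card_univ,
      nsmul_eq_mul, inv_mul_cancel_left₀ hc']
  have h2 : h x - avgK π g x =
      (Fintype.card π.ker : ℂ)⁻¹ * ∑ k : π.ker, (h (x * k) - g (x * k)) := by
    rw [Finset.sum_sub_distrib, mul_sub, ← h1]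
    rfl
  rw [h2, norm_mul, norm_inv, Complex.norm_natCast]
  calc _ ≤ (Fintype.card π.ker : ℝ)⁻¹ * ∑ _k : π.ker, ε := by
        gcongr
        exact norm_sum_le_of_le _ fun k _ => hg _
    _ = ε := by
        rw [Finset.sum_const, Finset.card_univ, nsmul_eq_mul, inv_mul_cancel_left₀ hc.ne']

variable [TopologicalSpace G] [MeasureSpace G] {ι : Type} [Fintype ι] (T : TFam G ι)

theorem iso_right (l : T.Λ) (c : G) {f : G → ℂ} (hf : f ∈ T.iso l) :
    (fun x => f (x * c)) ∈ T.iso l := by
  unfold TFam.iso at hf ⊢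
  induction hf using Submodule.span_induction with
  | mem f hf =>
    obtain ⟨a, b, rfl⟩ := hf
    refine Submodule.subset_span ⟨a, c * b, ?_⟩
    funext x
    simp [mul_assoc]
  | zero => exact Submodule.zero_mem _
  | add f g _ _ h1 h2 => exact Submodule.add_mem _ h1 h2
  | smul r f _ h1 => exact Submodule.smul_mem _ r h1

theorem avgK_mem (π : G →* Q) [Fintype π.ker] (l : T.Λ) {f : G → ℂ} (hf : f ∈ T.iso l) :
    avgK π f ∈ T.iso l := by
  have h1 : avgK π f = (Fintype.card π.ker : ℂ)⁻¹ • ∑ k : π.ker, fun x => f (x * k) := by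
    funext x
    simp [avgK, Finset.sum_apply]
  rw [h1]
  exact Submodule.smul_mem _ _ (Submodule.sum_mem _ fun k _ => iso_right T l k hf)

end kernelAverage

variable {G : Type} [Group G] [TopologicalSpace G] [IsTopologicalGroup G] [CompactSpace G] [T2Space G]
  [SecondCountableTopology G] [MeasureSpace G] [BorelSpace G]
  [Measure.IsHaarMeasure (volume : Measure G)] [IsProbabilityMeasure (volume : Measure G)]
  {ι : Type} [Fintype ι] (T : TFam G ι)
  {Q : Type} [Group Q] [TopologicalSpace Q] [IsTopologicalGroup Q] [CompactSpace Q] [T2Space Q]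
  [SecondCountableTopology Q] [MeasureSpace Q] [BorelSpace Q]
  [Measure.IsHaarMeasure (volume : Measure Q)] [IsProbabilityMeasure (volume : Measure Q)]

/-- the eigenfunctions are complete, if `A` is dense in the continuous functions -/
theorem spec_dense {A : Subalgebra ℂ (G → ℂ)} {L : Curves G} (hS : SpecFam T A L)
    (hA : ∀ f : G → ℂ, Continuous f → ∀ ε : ℝ, 0 < ε → ∃ g ∈ A, ∀ z, ‖f z - g z‖ < ε)
    (π : G →* Q) (hπ : Continuous π) (hs : Function.Surjective π) (hker : Finite π.ker) :
    (⨆ lam : ℝ, eigE π A L lam).topologicalClosure = ⊤ := by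
  classical
  have : Fintype π.ker := Fintype.ofFinite _
  have hQ : Topology.IsQuotientMap π := hπ.isClosedMap.isQuotientMap hπ hs
  rw [← Submodule.dense_iff_topologicalClosure_eq_top]
  have hmem : ∀ h : C(Q, ℂ), ContinuousMap.toLp 2 (volume : Measure Q) ℂ h ∈
      closure ((⨆ lam : ℝ, eigE π A L lam : Submodule ℂ (Lp ℂ 2 (volume : Measure Q))) :
        Set (Lp ℂ 2 (volume : Measure Q))) := by
    intro h
    rw [Metric.mem_closure_iff]
    intro ε hε
    obtain ⟨g, hgA, hg⟩ := hA (fun x => h (π x)) (h.continuous.comp hπ) (ε / 2) (by linarith)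
    have hdec := hS.decomp g hgA
    rw [Submodule.mem_iSup_iff_exists_finsupp] at hdec
    obtain ⟨gl, hgl, hsum⟩ := hdec
    have hav : ∀ l, avgK π (gl l) ∈ T.iso l := fun l => avgK_mem T π l (hgl l)
    set fl : T.Λ → Q → ℂ := fun l q => avgK π (gl l) (Function.surjInv hs q) with hfl
    have hflπ : ∀ l x, fl l (π x) = avgK π (gl l) x := by
      intro l x
      exact avgK_fibre π (gl l) (Function.surjInv_eq hs (π x))
    have hflA : ∀ l, (fun x => fl l (π x)) ∈ T.iso l := by
      intro l
      have : (fun x => fl l (π x)) = avgK π (gl l) := funext (hflπ l)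
      rw [this]
      exact hav l
    have hflc : ∀ l, Continuous (fl l) := by
      intro l
      rw [hQ.continuous_iff]
      exact hS.cont _ (hS.iso_le l _ (hflA l))
    have hflE : ∀ l, ContinuousMap.toLp 2 (volume : Measure Q) ℂ ⟨fl l, hflc l⟩ ∈
        eigE π A L (T.cas l) := by
      intro l
      refine Submodule.le_topologicalClosure _ (Submodule.subset_span ⟨fl l, ⟨?_, ?_⟩, ?_⟩)
      · exact hS.iso_le l _ (hflA l)
      · intro y
        exact hS.eig l _ (hflA l) y
      · exact ContinuousMap.coeFn_toLp _ _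
    refine ⟨ContinuousMap.toLp 2 (volume : Measure Q) ℂ
      (∑ l ∈ gl.support, (⟨fl l, hflc l⟩ : C(Q, ℂ))), ?_, ?_⟩
    · rw [map_sum]
      exact Submodule.sum_mem _ fun l _ => Submodule.mem_iSup_of_mem (T.cas l) (hflE l)
    · rw [dist_eq_norm, ← map_sub]
      have hn : ‖h - ∑ l ∈ gl.support, (⟨fl l, hflc l⟩ : C(Q, ℂ))‖ ≤ ε / 2 := by
        rw [ContinuousMap.norm_le _ (by linarith)]
        intro q
        obtain ⟨x, rfl⟩ := hs q
        have h1 : (∑ l ∈ gl.support, (⟨fl l, hflc l⟩ : C(Q, ℂ))) (π x) = avgK π g x := by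
          rw [ContinuousMap.sum_apply]
          have h2 : ∀ l ∈ gl.support, (⟨fl l, hflc l⟩ : C(Q, ℂ)) (π x) = avgK π (gl l) x :=
            fun l _ => hflπ l x
          rw [Finset.sum_congr rfl h2, ← hsum]
          exact (avgK_sum π gl.support (fun l => gl l) x).symm
        rw [ContinuousMap.sub_apply, h1]
        exact avgK_near π (fun x => h (π x)) g (ε / 2)
          (fun x k hk => by simp [hk]) (fun z => (hg z).le) x
      have h3 := ContinuousMap.toLp_norm_le (p := 2) (𝕜 := ℂ) (E := ℂ) (volume : Measure Q)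
      have h4 : measureUnivNNReal (volume : Measure Q) = 1 := by
        simp [measureUnivNNReal]
      rw [h4] at h3
      simp only [NNReal.coe_one, Real.one_rpow] at h3
      calc _ ≤ ‖(ContinuousMap.toLp 2 (volume : Measure Q) ℂ : C(Q, ℂ) →L[ℂ] _)‖ *
            ‖h - ∑ l ∈ gl.support, (⟨fl l, hflc l⟩ : C(Q, ℂ))‖ :=
            ContinuousLinearMap.le_opNorm _ _
        _ ≤ 1 * (ε / 2) := by gcongr
        _ < ε := by linarith
  have hd := ContinuousMap.toLp_denseRange ℂ (volume : Measure Q) (p := 2) ℂ (by simp)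
  rw [dense_iff_closure_eq] 
  rw [DenseRange, dense_iff_closure_eq] at hd
  refine Set.eq_univ_of_univ_subset ?_
  rw [← hd]
  refine closure_minimal ?_ isClosed_closure
  rintro _ ⟨h, rfl⟩
  exact hmem h

end STC
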