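import Pool.Agent.STC.Iface
import Pool.Agent.STC.Haar
import Pool.Agent.STZ.Proj

/-!
# STC/TRrk: the reproducing kernel family (`STZ.RK`) of a `TFam`, the operators `Cop`

`k_l(x,y) = d_l² ∫ φ_l(g⁻¹ y⁻¹ x g) dg` is the orthogonal projection on the isotypic component.

PROOF. `conv`: `schur` and `schur_ne` with `g = 1` (`φ_one`). `phi_sq`: `conv` at `z = 1` and `φ_inv`.
`rk.cont`: the integral of a continuous function depending continuously on a parameter
(`cont_int`). `herm`: `φ_inv`, `(g⁻¹ y⁻¹ x g)⁻¹ = g⁻¹ x⁻¹ y g`. `diag`: `φ_one`. `comp`: with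
`K_l(w) = ∫ φ_l(g⁻¹ w g) dg` (a class function, `K_l(a⁻¹ w a) = K_l(w)` by `int_left`), the claim is
`∫ K_l(z⁻¹ x) K_m(y⁻¹ z) dz = δ_{lm} d⁻² K_l(y⁻¹ x)`; the left side is `∫ K_l(v) K_m(y⁻¹ x v⁻¹) dv`
(`z = x v⁻¹`, invariances) and `= ∫∫∫ φ_l(g⁻¹ v g) φ_m(h⁻¹ y⁻¹ x v⁻¹ h) dv dg dh
= ∫∫∫ φ_l(v) φ_m(h⁻¹ y⁻¹ x g v⁻¹ g⁻¹ h)` (`v → g v g⁻¹`). Replace `h` by `g h`... (any order): use
`K_m(y⁻¹ x v⁻¹) = K_m(v⁻¹ y⁻¹ x)` and then `∫ φ_l(v) φ_m(a⁻¹ v⁻¹ b) dv` from `schur`, `schur_ne`: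
with `w = y⁻¹ x`: `∫ K_l(v) K_m(v⁻¹ w) dv = ∫∫∫ φ_l(v) φ_m(h⁻¹ g v⁻¹ g⁻¹ w h) dv dg dh =
δ d⁻¹ ∫∫ φ_l(g⁻¹ w h) conj φ_l(g⁻¹ h) dg dh = δ d⁻¹ ∫∫ φ_l(g⁻¹ w h) φ_l(h⁻¹ g) dh dg
= δ d⁻² ∫ φ_l(g⁻¹ w g) dg` (`conv`: `∫ φ(a h) φ(h⁻¹ b) dh = φ(a b)/d`). All integrands are continuous on
compact spaces (`int_swap`).

`cop_cont`: `k` is uniformly continuous. `cop_rk`: Fubini (all functions bounded measurable):
`∫_z φ_l(g⁻¹ y⁻¹ z) φ_m(z⁻¹ x g) dz = δ φ_l(g⁻¹ y⁻¹ x g)/d_l` (`conv`), then `∫_g`, then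
`∫_y f(y) ...` `= d_l⁻³ P_l f (x)`.
`cop_sq`: `conj (Cop φ f z g) = ∫ conj (f x) φ(z⁻¹ x g) dx`, Fubini and `cop_rk` with `P_l f = f`
(`Mem`). `cop_sup`: `F(z) = Cop φ f z g` satisfies `F(z) = d ∫ F(z') φ(z'⁻¹ z) dz'` (`conv`), so by
Cauchy-Schwarz and `phi_sq`: `|F z|² ≤ d² ∫|F|² · (1/d)`. `cop_L1`: Fubini, `int_left`. `cop_tor`:
`φ_tor` under the integral.
-/

set_option linter.unusedSectionVars false

open MeasureTheory Complex
open scoped ComplexConjugate

namespace STC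

variable {G : Type} [Group G] [TopologicalSpace G] [IsTopologicalGroup G] [CompactSpace G] [T2Space G]
  [SecondCountableTopology G] [MeasureSpace G] [BorelSpace G]
  [Measure.IsHaarMeasure (volume : Measure G)] [IsProbabilityMeasure (volume : Measure G)]
  {ι : Type} [Fintype ι] (T : TFam G ι)

omit [IsTopologicalGroup G] [CompactSpace G] [T2Space G] [SecondCountableTopology G] [BorelSpace G]
  [Measure.IsHaarMeasure (volume : Measure G)] [IsProbabilityMeasure (volume : Measure G)] in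
private lemma rk_d_pos (l : T.Λ) : 0 < T.d l := lt_of_lt_of_le one_pos (T.one_le_d l)

omit [IsTopologicalGroup G] [CompactSpace G] [T2Space G] [SecondCountableTopology G] [BorelSpace G]
  [Measure.IsHaarMeasure (volume : Measure G)] [IsProbabilityMeasure (volume : Measure G)] in
private lemma rk_d_ne (l : T.Λ) : (T.d l : ℂ) ≠ 0 := by
  exact_mod_cast (rk_d_pos T l).ne'

/-- the general form of the Schur relations -/
private lemma rk_gs (l m : T.Λ) [DecidableEq T.Λ] (a b c e : G) :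
    ∫ z, T.φ m (a * z * b) * T.φ l (c * z⁻¹ * e) =
      if l = m then T.φ l (a * e) * T.φ l (c * b) / T.d l else 0 := by
  have h1 : ∫ z, T.φ m (a * z * b) * T.φ l (c * z⁻¹ * e) =
      ∫ x, T.φ m x * T.φ l ((c * b) * x⁻¹ * (a * e)) := by
    have h2 := int_left (fun z => T.φ m (z * b) * T.φ l (c * z⁻¹ * (a * e))) a
    have h3 := int_right (fun x => T.φ m x * T.φ l ((c * b) * x⁻¹ * (a * e))) b
    rw [← h3]
    rw [show (∫ z, T.φ m (z * b) * T.φ l (c * b * (z * b)⁻¹ * (a * e))) =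
      ∫ z, T.φ m (z * b) * T.φ l (c * z⁻¹ * (a * e)) from by
        congr 1; funext z; congr 2; group]
    rw [← h2]
    congr 1
    funext z
    congr 2
    group
  rw [h1]
  by_cases hlm : l = m
  · subst hlm
    rw [if_pos rfl]
    have h2 := T.schur l (a * e) (c * b)⁻¹
    rw [inv_inv, T.φ_inv, inv_inv] at h2
    exact h2
  · rw [if_neg hlm]
    have h2 := T.schur_ne l m hlm (a * e) (c * b)⁻¹
    rw [inv_inv] at h2
    exact h2

lemma conv (l m : T.Λ) [DecidableEq T.Λ] (a b : G) :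
    ∫ h, T.φ l (a * h) * T.φ m (h⁻¹ * b) = if l = m then T.φ l (a * b) / T.d l else 0 := by
  have h := rk_gs T m l a 1 1 b
  simp only [mul_one, one_mul, T.φ_one] at h
  rw [h]
  by_cases hlm : l = m
  · subst hlm; rfl
  · rw [if_neg hlm, if_neg (fun h => hlm h.symm)]

private lemma rk_sq {z : ℂ} : ((‖z‖ ^ 2 : ℝ) : ℂ) = z * conj z := by
  rw [Complex.mul_conj, Complex.normSq_eq_norm_sq]

lemma phi_sq (l : T.Λ) (a : G) : ∫ z, ‖T.φ l (z⁻¹ * a)‖ ^ 2 = 1 / T.d l := by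
  classical
  have h1 : ((∫ z, ‖T.φ l (z⁻¹ * a)‖ ^ 2 : ℝ) : ℂ) = ((1 / T.d l : ℝ) : ℂ) := by
    rw [← integral_complex_ofReal]
    have h2 : ∀ z, ((‖T.φ l (z⁻¹ * a)‖ ^ 2 : ℝ) : ℂ) =
        T.φ l (a⁻¹ * z) * T.φ l (z⁻¹ * a) := by
      intro z
      rw [rk_sq, T.φ_inv, mul_comm]
      congr 2
      group
    simp only [h2]
    rw [conv, if_pos rfl, inv_mul_cancel, T.φ_one]
    push_cast
    rfl
  exact Complex.ofReal_injective h1

/-- the class function of `l` -/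
private noncomputable def rkK (l : T.Λ) (w : G) : ℂ := ∫ g, T.φ l (g⁻¹ * w * g)

private lemma rkK_cont (l : T.Λ) : Continuous (rkK T l) := by
  refine cont_int (f := fun g w => T.φ l (g⁻¹ * w * g)) ?_
  have := T.cont l
  fun_prop

private lemma rkK_eq (l : T.Λ) (x y : G) :
    ∫ g, T.φ l (g⁻¹ * y⁻¹ * x * g) = rkK T l (y⁻¹ * x) := by
  unfold rkK
  simp only [mul_assoc]

private lemma rkK_comp [DecidableEq T.Λ] (l m : T.Λ) (x y : G) :
    ∫ z, rkK T l (z⁻¹ * x) * rkK T m (y⁻¹ * z) =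
      if l = m then rkK T l (y⁻¹ * x) / (T.d l : ℂ) ^ 2 else 0 := by
  have hK := rkK_cont T l
  have hφl := T.cont l
  have hφm := T.cont m
  have h1 : ∀ z, rkK T l (z⁻¹ * x) * rkK T m (y⁻¹ * z) =
      ∫ h, rkK T l (z⁻¹ * x) * T.φ m (h⁻¹ * (y⁻¹ * z) * h) := by
    intro z
    rw [integral_const_mul]
    rfl
  simp only [h1]
  rw [int_swap (f := fun z h => rkK T l (z⁻¹ * x) * T.φ m (h⁻¹ * (y⁻¹ * z) * h)) (by fun_prop)]
  have h2 : ∀ h, ∫ z, rkK T l (z⁻¹ * x) * T.φ m (h⁻¹ * (y⁻¹ * z) * h) =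
      if l = m then T.φ l (h⁻¹ * (y⁻¹ * x) * h) / (T.d l : ℂ) ^ 2 else 0 := by
    intro h
    have h3 : ∀ z, rkK T l (z⁻¹ * x) * T.φ m (h⁻¹ * (y⁻¹ * z) * h) =
        ∫ g, T.φ l (g⁻¹ * (z⁻¹ * x) * g) * T.φ m (h⁻¹ * (y⁻¹ * z) * h) := by
      intro z
      rw [integral_mul_const]
      rfl
    simp only [h3]
    rw [int_swap (f := fun z g => T.φ l (g⁻¹ * (z⁻¹ * x) * g) *
      T.φ m (h⁻¹ * (y⁻¹ * z) * h)) (by fun_prop)]
    have h4 : ∀ g, ∫ z, T.φ l (g⁻¹ * (z⁻¹ * x) * g) * T.φ m (h⁻¹ * (y⁻¹ * z) * h) =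
        if l = m then T.φ l (h⁻¹ * y⁻¹ * x * g) * T.φ l (g⁻¹ * h) / T.d l else 0 := by
      intro g
      have h5 := rk_gs T l m (h⁻¹ * y⁻¹) h g⁻¹ (x * g)
      rw [← mul_assoc (h⁻¹ * y⁻¹) x g] at h5
      rw [← h5]
      congr 1
      funext z
      rw [mul_comm]
      simp only [mul_assoc]
    simp only [h4]
    by_cases hlm : l = m
    · simp only [if_pos hlm]
      rw [integral_div]
      have h6 := conv T l l (h⁻¹ * y⁻¹ * x) h
      rw [if_pos rfl] at h6
      rw [h6, div_div, ← pow_two]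
      simp only [mul_assoc]
    · simp only [if_neg hlm]
      rw [integral_zero]
  simp only [h2]
  by_cases hlm : l = m
  · simp only [if_pos hlm]
    rw [integral_div]
    rfl
  · simp only [if_neg hlm]
    rw [integral_zero]

/-- the reproducing kernel family of the isotypic components -/
noncomputable def TFam.rk [DecidableEq T.Λ] : STZ.RK G T.Λ where
  k l x y := (T.d l : ℂ) ^ 2 * ∫ g, T.φ l (g⁻¹ * y⁻¹ * x * g)
  D l := (T.d l) ^ 2
  cont := by
    intro l
    have h := rkK_cont T l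
    simp only [rkK_eq]
    fun_prop
  herm := by
    intro l x y
    rw [map_mul, map_pow, Complex.conj_ofReal, ← integral_conj]
    congr 2
    funext g
    rw [T.φ_inv]
    congr 1
    group
  diag := by
    intro l x
    have h1 : ∀ g : G, T.φ l (g⁻¹ * x⁻¹ * x * g) = 1 := by
      intro g
      rw [← T.φ_one l]
      congr 1
      group
    simp only [h1]
    simp
  comp := by
    intro l m x y
    simp only [rkK_eq]
    have h1 : ∀ z, (T.d l : ℂ) ^ 2 * rkK T l (z⁻¹ * x) * ((T.d m : ℂ) ^ 2 *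
        rkK T m (y⁻¹ * z)) = (T.d l : ℂ) ^ 2 * (T.d m : ℂ) ^ 2 *
          (rkK T l (z⁻¹ * x) * rkK T m (y⁻¹ * z)) := by
      intro z; ring
    simp only [h1]
    rw [integral_const_mul, rkK_comp]
    by_cases hlm : l = m
    · subst hlm
      rw [if_pos rfl, if_pos rfl]
      have h2 := rk_d_ne T l
      field_simp
    · rw [if_neg hlm, if_neg hlm, mul_zero]

/-- `C_k h (z,g) = ∫ h(x) k(g⁻¹ x⁻¹ z) dx` -/
noncomputable def Cop (k h : G → ℂ) (z g : G) : ℂ := ∫ x, h x * k (g⁻¹ * x⁻¹ * z)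

private lemma rk_bdd {k : G → ℂ} (hk : Continuous k) : ∃ C : ℝ, 0 ≤ C ∧ ∀ x, ‖k x‖ ≤ C := by
  obtain ⟨C, hC⟩ := (isCompact_range (continuous_norm.comp hk)).bddAbove
  exact ⟨C, (norm_nonneg _).trans (hC ⟨1, rfl⟩), fun x => hC ⟨x, rfl⟩⟩

private lemma rk_nonneg {h : G → ℂ} {B : ℝ} (hb : ∀ x, ‖h x‖ ≤ B) : 0 ≤ B :=
  (norm_nonneg _).trans (hb 1)

lemma cop_cont {k h : G → ℂ} {B : ℝ} (hk : Continuous k) (hh : Measurable h)
    (hb : ∀ x, ‖h x‖ ≤ B) : Continuous fun p : G × G => Cop k h p.1 p.2 := by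
  obtain ⟨C, hC0, hC⟩ := rk_bdd hk
  unfold Cop
  refine continuous_of_dominated (bound := fun _ => B * C) ?_ ?_ ?_ ?_
  · intro p
    have h1 : Continuous fun x : G => k (p.2⁻¹ * x⁻¹ * p.1) := by fun_prop
    exact (hh.mul h1.measurable).aestronglyMeasurable
  · intro p
    refine Filter.Eventually.of_forall fun x => ?_
    rw [norm_mul]
    exact mul_le_mul (hb x) (hC _) (norm_nonneg _) (rk_nonneg hb)
  · exact integrable_const _
  · exact Filter.Eventually.of_forall fun x => by fun_prop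

private lemma rk_conv_int [DecidableEq T.Λ] (l m : T.Λ) {f : G → ℂ} {B : ℝ} (hf : Measurable f)
    (hb : ∀ x, ‖f x‖ ≤ B) (g x : G) :
    ∫ z, Cop (T.φ l) f z g * T.φ m (z⁻¹ * x) =
      if l = m then Cop (T.φ l) f x g / T.d l else 0 := by
  obtain ⟨C, hC0, hC⟩ := rk_bdd (T.cont l)
  obtain ⟨C', hC0', hC'⟩ := rk_bdd (T.cont m)
  have hφl := T.cont l
  have hφm := T.cont m
  have h1 : ∀ z, Cop (T.φ l) f z g * T.φ m (z⁻¹ * x) =
      ∫ y, f y * T.φ l (g⁻¹ * y⁻¹ * z) * T.φ m (z⁻¹ * x) := by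
    intro z
    rw [integral_mul_const]
    rfl
  simp only [h1]
  rw [STZ.RK.swap_bdd (C := B * C * C')]
  · have h2 : ∀ y, ∫ z, f y * T.φ l (g⁻¹ * y⁻¹ * z) * T.φ m (z⁻¹ * x) =
        f y * (if l = m then T.φ l (g⁻¹ * y⁻¹ * x) / T.d l else 0) := by
      intro y
      rw [← conv T l m (g⁻¹ * y⁻¹) x, ← integral_const_mul]
      simp only [mul_assoc]
    simp only [h2]
    by_cases hlm : l = m
    · simp only [if_pos hlm]
      unfold Cop
      rw [← integral_div]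
      congr 1
      funext y
      ring
    · simp only [if_neg hlm, mul_zero, integral_zero]
  · refine Measurable.mul (Measurable.mul (hf.comp measurable_snd) ?_) ?_
    · exact Continuous.measurable (by fun_prop)
    · exact Continuous.measurable (by fun_prop)
  · intro z y
    rw [norm_mul, norm_mul]
    exact mul_le_mul (mul_le_mul (hb y) (hC _) (norm_nonneg _) (rk_nonneg hb)) (hC' _)
      (norm_nonneg _) (mul_nonneg (rk_nonneg hb) hC0)

lemma cop_rk [DecidableEq T.Λ] (l m : T.Λ) {f : G → ℂ} {B : ℝ} (hf : Measurable f)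
    (hb : ∀ x, ‖f x‖ ≤ B) (x : G) :
    ∫ z, ∫ g, Cop (T.φ l) f z g * T.φ m (z⁻¹ * x * g) =
      if l = m then T.rk.P l f x / (T.d l : ℂ) ^ 3 else 0 := by
  obtain ⟨C, hC0, hC⟩ := rk_bdd (T.cont l)
  have hφl := T.cont l
  have hφm := T.cont m
  have hcc := cop_cont (T.cont l) hf hb
  rw [int_swap (f := fun z g => Cop (T.φ l) f z g * T.φ m (z⁻¹ * x * g)) (by
    refine Continuous.mul hcc ?_
    fun_prop)]
  have h1 : ∀ g, ∫ z, Cop (T.φ l) f z g * T.φ m (z⁻¹ * x * g) =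
      if l = m then Cop (T.φ l) f (x * g) g / T.d l else 0 := by
    intro g
    rw [← rk_conv_int T l m hf hb g (x * g)]
    simp only [mul_assoc]
  simp only [h1]
  by_cases hlm : l = m
  · simp only [if_pos hlm]
    rw [integral_div]
    have h2 : ∫ g, Cop (T.φ l) f (x * g) g = T.rk.P l f x / (T.d l : ℂ) ^ 2 := by
      have h3 : ∫ g, Cop (T.φ l) f (x * g) g =
          ∫ y, ∫ g, f y * T.φ l (g⁻¹ * y⁻¹ * (x * g)) := by
        unfold Cop
        refine STZ.RK.swap_bdd (C := B * C) ?_ ?_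
        · refine Measurable.mul (hf.comp measurable_snd) ?_
          exact Continuous.measurable (by fun_prop)
        · intro g y
          rw [norm_mul]
          exact mul_le_mul (hb y) (hC _) (norm_nonneg _) (rk_nonneg hb)
      rw [h3]
      unfold STZ.RK.P
      rw [← integral_div]
      congr 1
      funext y
      rw [integral_const_mul]
      have h4 : T.rk.k l x y = (T.d l : ℂ) ^ 2 * ∫ g, T.φ l (g⁻¹ * y⁻¹ * x * g) := rfl
      rw [h4]
      simp only [mul_assoc]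
      have h2 := rk_d_ne T l
      field_simp
    rw [h2, div_div, pow_succ (T.d l : ℂ) 2]
  · simp only [if_neg hlm, integral_zero]

/-- continuity of a parametric integral over the group -/
private lemma rk_cont_int {Y : Type} [TopologicalSpace Y] [CompactSpace Y]
    [FirstCountableTopology Y] {f : G → Y → ℂ} (hf : Continuous (Function.uncurry f)) :
    Continuous fun z => ∫ x, f x z := by
  obtain ⟨C, hC⟩ := (isCompact_range (continuous_norm.comp hf)).bddAbove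
  refine continuous_of_dominated (F := fun z x => f x z) (bound := fun _ => C) ?_ ?_ ?_ ?_
  · intro z
    have h1 : Continuous fun x => f x z := hf.comp (continuous_id.prodMk continuous_const)
    exact h1.aestronglyMeasurable
  · intro z
    exact Filter.Eventually.of_forall (fun x => hC ⟨(x, z), rfl⟩)
  · exact integrable_const C
  · exact Filter.Eventually.of_forall (fun x => hf.comp (continuous_const.prodMk continuous_id))

lemma cop_sq [DecidableEq T.Λ] (l : T.Λ) {f : G → ℂ} (hf : T.rk.Mem l f) :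
    ∫ g, ∫ z, ‖Cop (T.φ l) f z g‖ ^ 2 = (∫ x, ‖f x‖ ^ 2) / (T.d l) ^ 3 := by
  obtain ⟨hfc, hfm⟩ := hf
  obtain ⟨B, hB0, hB⟩ := rk_bdd hfc
  have hφl := T.cont l
  have hcc := cop_cont (T.cont l) hfc.measurable hB
  have hPf : ∀ x, T.rk.P l f x = f x := hfm
  have hcf : Continuous fun x => conj (f x) := Complex.continuous_conj.comp hfc
  have h0 : ((∫ g, ∫ z, ‖Cop (T.φ l) f z g‖ ^ 2 : ℝ) : ℂ) =
      (((∫ x, ‖f x‖ ^ 2) / (T.d l) ^ 3 : ℝ) : ℂ) := by
    rw [← integral_complex_ofReal]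
    simp only [← integral_complex_ofReal, rk_sq]
    have h1 : ∀ g z, Cop (T.φ l) f z g * conj (Cop (T.φ l) f z g) =
        ∫ x, Cop (T.φ l) f z g * T.φ l (z⁻¹ * x * g) * conj (f x) := by
      intro g z
      have h2 : conj (Cop (T.φ l) f z g) = ∫ x, T.φ l (z⁻¹ * x * g) * conj (f x) := by
        unfold Cop
        rw [← integral_conj]
        congr 1
        funext x
        rw [map_mul, T.φ_inv, mul_comm]
        congr 2
        group
      rw [h2, ← integral_const_mul]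
      simp only [mul_assoc]
    simp only [h1]
    have h2 : ∀ g, ∫ z, ∫ x, Cop (T.φ l) f z g * T.φ l (z⁻¹ * x * g) * conj (f x) =
        ∫ x, ∫ z, Cop (T.φ l) f z g * T.φ l (z⁻¹ * x * g) * conj (f x) := by
      intro g
      refine int_swap (f := fun z x => Cop (T.φ l) f z g * T.φ l (z⁻¹ * x * g) * conj (f x)) ?_
      refine Continuous.mul (Continuous.mul ?_ ?_) ?_
      · exact hcc.comp (continuous_fst.prodMk continuous_const)
      · fun_prop
      · fun_prop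
    simp only [h2]
    rw [int_swap (f := fun g x => ∫ z, Cop (T.φ l) f z g * T.φ l (z⁻¹ * x * g) * conj (f x))]
    · have h3 : ∀ x, ∫ g, ∫ z, Cop (T.φ l) f z g * T.φ l (z⁻¹ * x * g) * conj (f x) =
          f x * conj (f x) / (T.d l : ℂ) ^ 3 := by
        intro x
        simp only [integral_mul_const]
        rw [int_swap (f := fun g z => Cop (T.φ l) f z g * T.φ l (z⁻¹ * x * g)) (by
          refine Continuous.mul (hcc.comp (continuous_snd.prodMk continuous_fst)) ?_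
          fun_prop), cop_rk T l l hfc.measurable hB x, if_pos rfl, hPf]
        ring
      simp only [h3]
      rw [integral_div]
      push_cast
      rw [← integral_complex_ofReal]
      simp only [rk_sq]
    · refine rk_cont_int (Y := G × G)
        (f := fun z p => Cop (T.φ l) f z p.1 * T.φ l (z⁻¹ * p.2 * p.1) * conj (f p.2)) ?_
      refine Continuous.mul (Continuous.mul ?_ ?_) ?_
      · exact hcc.comp (continuous_fst.prodMk (continuous_fst.comp continuous_snd))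
      · fun_prop
      · fun_prop
  exact Complex.ofReal_injective h0

private lemma rk_cs {a b : G → ℝ} (ha : Continuous a) (hb : Continuous b) :
    (∫ x, a x * b x) ^ 2 ≤ (∫ x, a x ^ 2) * ∫ x, b x ^ 2 := by
  have hi : ∀ {u : G → ℝ}, Continuous u → Integrable u := fun hu =>
    hu.integrable_of_hasCompactSupport (HasCompactSupport.of_compactSpace _)
  have h : ∀ s : ℝ, 0 ≤ (∫ x, a x ^ 2) * (s * s) + (2 * ∫ x, a x * b x) * s +
      ∫ x, b x ^ 2 := by
    intro s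
    have h1 : ∫ x, (s * a x + b x) ^ 2 = (∫ x, a x ^ 2) * (s * s) +
        (2 * ∫ x, a x * b x) * s + ∫ x, b x ^ 2 := by
      have h2 : ∀ x, (s * a x + b x) ^ 2 = (s * s) * a x ^ 2 + (2 * s) * (a x * b x) + b x ^ 2 := by
        intro x; ring
      simp only [h2]
      have i0 : Integrable (fun x => b x ^ 2) := hi (by fun_prop)
      have i1 : Integrable (fun x => (s * s) * a x ^ 2) := hi (by fun_prop)
      have i2 : Integrable (fun x => (2 * s) * (a x * b x)) := hi (by fun_prop)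
      have i3 : Integrable (fun x => (s * s) * a x ^ 2 + (2 * s) * (a x * b x)) := i1.add i2
      rw [integral_add i3 i0, integral_add i1 i2, integral_const_mul, integral_const_mul]
      ring
    rw [← h1]
    exact integral_nonneg fun x => sq_nonneg _
  have h3 := discrim_le_zero h
  unfold discrim at h3
  nlinarith [h3]

lemma cop_sup (l : T.Λ) {f : G → ℂ} {B : ℝ} (hf : Measurable f) (hb : ∀ x, ‖f x‖ ≤ B) (z g : G) :
    ‖Cop (T.φ l) f z g‖ ^ 2 ≤ T.d l * ∫ z', ‖Cop (T.φ l) f z' g‖ ^ 2 := by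
  classical
  have hφl := T.cont l
  have hcc := cop_cont (T.cont l) hf hb
  have hF : Continuous fun z' => Cop (T.φ l) f z' g := hcc.comp (continuous_id.prodMk
    continuous_const)
  have hd := rk_d_pos T l
  have h1 := rk_conv_int T l l hf hb g z
  rw [if_pos rfl, eq_div_iff (rk_d_ne T l)] at h1
  have h2 : ‖Cop (T.φ l) f z g‖ ≤
      T.d l * ∫ z', ‖Cop (T.φ l) f z' g‖ * ‖T.φ l (z'⁻¹ * z)‖ := by
    rw [← h1, norm_mul, Complex.norm_real, Real.norm_of_nonneg hd.le, mul_comm]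
    refine mul_le_mul_of_nonneg_left ?_ hd.le
    refine (norm_integral_le_integral_norm _).trans (le_of_eq ?_)
    simp only [norm_mul]
  have h3 := rk_cs (a := fun z' => ‖Cop (T.φ l) f z' g‖) (b := fun z' => ‖T.φ l (z'⁻¹ * z)‖)
    hF.norm (by fun_prop)
  rw [phi_sq] at h3
  have h4 : 0 ≤ ∫ z', ‖Cop (T.φ l) f z' g‖ * ‖T.φ l (z'⁻¹ * z)‖ :=
    integral_nonneg fun _ => mul_nonneg (norm_nonneg _) (norm_nonneg _)
  calc ‖Cop (T.φ l) f z g‖ ^ 2 ≤
      (T.d l * ∫ z', ‖Cop (T.φ l) f z' g‖ * ‖T.φ l (z'⁻¹ * z)‖) ^ 2 :=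
        pow_le_pow_left₀ (norm_nonneg _) h2 2
    _ = T.d l ^ 2 * (∫ z', ‖Cop (T.φ l) f z' g‖ * ‖T.φ l (z'⁻¹ * z)‖) ^ 2 := by ring
    _ ≤ T.d l ^ 2 * ((∫ z', ‖Cop (T.φ l) f z' g‖ ^ 2) * (1 / T.d l)) :=
        mul_le_mul_of_nonneg_left h3 (sq_nonneg _)
    _ = T.d l * ∫ z', ‖Cop (T.φ l) f z' g‖ ^ 2 := by field_simp

lemma cop_L1 {k h : G → ℂ} {B : ℝ} (hk : Continuous k) (hh : Measurable h)
    (hb : ∀ x, ‖h x‖ ≤ B) (g : G) :
    ∫ z, ‖Cop k h z g‖ ≤ (∫ x, ‖k x‖) * ∫ x, ‖h x‖ := by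
  obtain ⟨C, hC0, hC⟩ := rk_bdd hk
  have hcc := cop_cont hk hh hb
  have hF : Continuous fun z' => Cop k h z' g := hcc.comp (continuous_id.prodMk continuous_const)
  have hm : Measurable (Function.uncurry fun z x => ‖h x‖ * ‖k (g⁻¹ * x⁻¹ * z)‖) := by
    refine Measurable.mul (hh.norm.comp measurable_snd) ?_
    exact Continuous.measurable (by fun_prop)
  have hbd : ∀ p : G × G, ‖Function.uncurry (fun z x => ‖h x‖ * ‖k (g⁻¹ * x⁻¹ * z)‖) p‖ ≤
      B * C := by
    intro p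
    simp only [Function.uncurry]
    rw [Real.norm_of_nonneg (mul_nonneg (norm_nonneg _) (norm_nonneg _))]
    exact mul_le_mul (hb _) (hC _) (norm_nonneg _) (rk_nonneg hb)
  have hint : Integrable (Function.uncurry fun z x => ‖h x‖ * ‖k (g⁻¹ * x⁻¹ * z)‖)
      ((volume : Measure G).prod volume) :=
    Integrable.of_bound hm.aestronglyMeasurable _ (Filter.Eventually.of_forall hbd)
  calc ∫ z, ‖Cop k h z g‖ ≤ ∫ z, ∫ x, ‖h x‖ * ‖k (g⁻¹ * x⁻¹ * z)‖ := by
        refine integral_mono ?_ ?_ ?_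
        · exact hF.norm.integrable_of_hasCompactSupport (HasCompactSupport.of_compactSpace _)
        · exact hint.integral_prod_left
        · intro z
          refine (norm_integral_le_integral_norm _).trans (le_of_eq ?_)
          simp only [norm_mul]
    _ = ∫ x, ∫ z, ‖h x‖ * ‖k (g⁻¹ * x⁻¹ * z)‖ := integral_integral_swap hint
    _ = ∫ x, ‖h x‖ * ∫ z, ‖k z‖ := by
        congr 1
        funext x
        rw [integral_const_mul]
        congr 1
        exact integral_mul_left_eq_self (fun z => ‖k z‖) (g⁻¹ * x⁻¹)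
    _ = _ := by rw [integral_mul_const, mul_comm]

lemma cop_tor (l : T.Λ) (f : G → ℂ) (z g : G) (θ : ι → ℝ) :
    Cop (T.φ l) f (z * T.tor θ) g =
      cexp (I * ((∑ k, (T.w l k : ℝ) * θ k : ℝ) : ℂ)) * Cop (T.φ l) f z g := by
  unfold Cop
  rw [← integral_const_mul]
  congr 1
  funext x
  rw [← mul_assoc (g⁻¹ * x⁻¹) z (T.tor θ), T.φ_tor]
  ring

end STC
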