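import Pool.Agent.STC.SpecDefs
import Pool.Agent.STC.TRrk

/-!
# STC/SpecIso : isotypic components of a `TFam`, eigenfunctions

`iso_mem`: for `f = φ_l(a x b)`: `d² ∫_g ∫_y φ_l(g⁻¹ y⁻¹ x g) φ_l(a y b) dy dg`; substitute
`y = a⁻¹ u b⁻¹` (invariance of the Haar measure): `∫_u φ_l(u) φ_l((b⁻¹ g)⁻¹ u⁻¹ (a x g)) du =
φ_l(a x g) conj φ_l(b⁻¹ g)/d` (`schur`), and `conj φ_l(b⁻¹ g) = φ_l(g⁻¹ b)`, so the whole is
`d ∫_g φ_l(a x g) φ_l(g⁻¹ b) dg = φ_l(a x b)` (`conv`). `Mem` is closed under linear combinations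
(`STZ.RK.mem_smul`, `STZ.RK.mem_sum`).
`iso_orth`: `STZ.RK.orth`.
`eig_decomp`: `decomp` gives `f = Σ_{l ∈ F} g l`, `g l ∈ T.iso l` (`Submodule.mem_iSup_iff_exists_finsupp`
or `_dfinsupp`). `L.lap` is additive on `A` (`smooth`, `iteratedDeriv_fun_add`), so
`Σ_{l ∈ F} (lam - cas l) g l = 0`; take the `L²` product with `g l` (`iso_orth`):
`(lam - cas l) ∫ |g l|² = 0`, so `cas l = lam` or `g l = 0` (continuous, `Measure.IsOpenPosMeasure`). Drop
the vanishing terms.
-/

open MeasureTheory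
open scoped ComplexConjugate

namespace STC

variable {G : Type} [Group G] [TopologicalSpace G] [IsTopologicalGroup G] [CompactSpace G] [T2Space G]
  [SecondCountableTopology G] [MeasureSpace G] [BorelSpace G]
  [Measure.IsHaarMeasure (volume : Measure G)] [IsProbabilityMeasure (volume : Measure G)]
  {ι : Type} [Fintype ι] (T : TFam G ι)

/-- the general form of the Schur relation -/
private theorem si_gs (l : T.Λ) (a b c e : G) :
    ∫ z, T.φ l (a * z * b) * T.φ l (c * z⁻¹ * e) = T.φ l (a * e) * T.φ l (c * b) / T.d l := by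
  have h1 : ∫ z, T.φ l (a * z * b) * T.φ l (c * z⁻¹ * e) =
      ∫ x, T.φ l x * T.φ l ((c * b) * x⁻¹ * (a * e)) := by
    have h2 := int_left (fun z => T.φ l (z * b) * T.φ l (c * z⁻¹ * (a * e))) a
    have h3 := int_right (fun x => T.φ l x * T.φ l ((c * b) * x⁻¹ * (a * e))) b
    rw [← h3]
    rw [show (∫ z, T.φ l (z * b) * T.φ l (c * b * (z * b)⁻¹ * (a * e))) =
      ∫ z, T.φ l (z * b) * T.φ l (c * z⁻¹ * (a * e)) from by
        congr 1; funext z; congr 2; group]
    rw [← h2]
    congr 1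
    funext z
    congr 2
    group
  rw [h1]
  have h2 := T.schur l (a * e) (c * b)⁻¹
  rw [inv_inv, T.φ_inv, inv_inv] at h2
  exact h2

private theorem si_base [DecidableEq T.Λ] (l : T.Λ) (a b : G) :
    T.rk.Mem l (fun x => T.φ l (a * x * b)) := by
  have hφ := T.cont l
  have hd : (T.d l : ℂ) ≠ 0 := by
    have := T.one_le_d l
    exact_mod_cast (by linarith : (0:ℝ) < T.d l).ne'
  refine ⟨by fun_prop, fun x => ?_⟩
  have e1 : ∀ z, T.rk.k l x z * T.φ l (a * z * b) =
      (T.d l : ℂ) ^ 2 * ∫ g, T.φ l (g⁻¹ * z⁻¹ * x * g) * T.φ l (a * z * b) := by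
    intro z
    rw [integral_mul_const, ← mul_assoc]
    rfl
  simp only [e1]
  rw [integral_const_mul, int_swap (f := fun z g => T.φ l (g⁻¹ * z⁻¹ * x * g) *
    T.φ l (a * z * b)) (by fun_prop)]
  have e2 : ∀ g, ∫ z, T.φ l (g⁻¹ * z⁻¹ * x * g) * T.φ l (a * z * b) =
      T.φ l (a * x * g) * T.φ l (g⁻¹ * b) / T.d l := by
    intro g
    have h := si_gs T l a b g⁻¹ (x * g)
    rw [← mul_assoc a x g] at h
    rw [← h]
    congr 1
    funext z
    rw [mul_comm]
    simp only [mul_assoc]
  simp only [e2]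
  rw [integral_div]
  have e3 := conv T l l (a * x) b
  rw [if_pos rfl] at e3
  rw [e3]
  field_simp

private theorem si_zero [DecidableEq T.Λ] (l : T.Λ) : T.rk.Mem l (0 : G → ℂ) := by
  refine ⟨continuous_const, fun x => ?_⟩
  simp

private theorem si_add [DecidableEq T.Λ] {l : T.Λ} {f g : G → ℂ} (hf : T.rk.Mem l f)
    (hg : T.rk.Mem l g) : T.rk.Mem l (f + g) := by
  have h := T.rk.mem_sum l (Finset.univ : Finset (Fin 2)) (fun i => if i = 0 then f else g)
    (fun i _ => by
      fin_cases i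
      · exact hf
      · exact hg)
  have e : (fun x => ∑ i : Fin 2, (if i = 0 then f else g) x) = f + g := by
    funext x
    rw [Fin.sum_univ_two]
    rfl
  rw [e] at h
  exact h

theorem iso_mem [DecidableEq T.Λ] (l : T.Λ) (f : G → ℂ) (hf : f ∈ T.iso l) : T.rk.Mem l f := by
  unfold TFam.iso at hf
  induction hf using Submodule.span_induction with
  | mem x hx =>
    obtain ⟨a, b, rfl⟩ := hx
    exact si_base T l a b
  | zero => exact si_zero T l
  | add x y _ _ hx hy => exact si_add T hx hy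
  | smul c x _ hx => exact T.rk.mem_smul hx c

theorem iso_orth {l m : T.Λ} (hlm : l ≠ m) {f g : G → ℂ} (hf : f ∈ T.iso l) (hg : g ∈ T.iso m) :
    ∫ x, f x * conj (g x) = 0 := by
  classical
  exact T.rk.orth hlm (iso_mem T l f hf) (iso_mem T m g hg)

theorem lap_add {A : Subalgebra ℂ (G → ℂ)} {L : Curves G} (hS : SpecFam T A L) {f g : G → ℂ}
    (hf : f ∈ A) (hg : g ∈ A) (x : G) : L.lap (f + g) x = L.lap f x + L.lap g x := by
  unfold Curves.lap
  rw [← Finset.sum_add_distrib]
  refine Finset.sum_congr rfl fun k _ => ?_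
  rw [← mul_add]
  congr 1
  have h := iteratedDeriv_add (n := 2) (x := (0:ℝ)) ((hS.smooth f hf k x).contDiffAt)
    ((hS.smooth g hg k x).contDiffAt)
  exact h

private theorem lap_zero (L : Curves G) (x : G) : L.lap (0 : G → ℂ) x = 0 := by
  unfold Curves.lap
  refine Finset.sum_eq_zero fun k _ => ?_
  have h : iteratedDeriv 2 (fun s : ℝ => (0 : G → ℂ) (x * L.γ k s)) 0 = 0 := by
    change iteratedDeriv 2 (fun _ : ℝ => (0 : ℂ)) 0 = 0
    simp
  rw [h, mul_zero]

private theorem lap_sum {A : Subalgebra ℂ (G → ℂ)} {L : Curves G} (hS : SpecFam T A L)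
    (F : Finset T.Λ) (g : T.Λ → G → ℂ) (hg : ∀ l ∈ F, g l ∈ A) (x : G) :
    L.lap (∑ l ∈ F, g l) x = ∑ l ∈ F, L.lap (g l) x := by
  classical
  induction F using Finset.induction_on with
  | empty => rw [Finset.sum_empty, Finset.sum_empty, lap_zero]
  | insert a F ha ih =>
    rw [Finset.sum_insert ha, Finset.sum_insert ha, lap_add T hS (hg a (Finset.mem_insert_self _ _))
      (A.sum_mem fun l hl => hg l (Finset.mem_insert_of_mem hl)),
      ih (fun l hl => hg l (Finset.mem_insert_of_mem hl))]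

theorem eig_decomp {A : Subalgebra ℂ (G → ℂ)} {L : Curves G} (hS : SpecFam T A L) {f : G → ℂ}
    {lam : ℝ} (hf : f ∈ A) (he : ∀ x, L.lap f x = -(lam : ℂ) * f x) :
    ∃ (F : Finset T.Λ) (g : T.Λ → G → ℂ), (∀ l ∈ F, g l ∈ T.iso l ∧ T.cas l = lam) ∧
      f = ∑ l ∈ F, g l := by
  classical
  obtain ⟨u, hu, hsum⟩ := (Submodule.mem_iSup_iff_exists_finsupp _ _).1 (hS.decomp f hf)
  have hfs : f = ∑ l ∈ u.support, u l := hsum.symm
  have huA : ∀ l, u l ∈ A := fun l => hS.iso_le l _ (hu l)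
  have hcont : ∀ l, Continuous (u l) := fun l => hS.cont _ (huA l)
  have h1 : ∀ x, ∑ l ∈ u.support, (((lam - T.cas l : ℝ)) : ℂ) * u l x = 0 := by
    intro x
    have e1 := he x
    rw [hfs, lap_sum T hS _ _ (fun l _ => huA l)] at e1
    rw [Finset.sum_apply, Finset.mul_sum] at e1
    have e2 : ∀ l ∈ u.support, L.lap (u l) x = -(T.cas l : ℂ) * u l x := fun l _ =>
      hS.eig l _ (hu l) x
    rw [Finset.sum_congr rfl e2] at e1
    have e3 : ∑ l ∈ u.support, (((lam - T.cas l : ℝ)) : ℂ) * u l x =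
        ∑ l ∈ u.support, (-(T.cas l : ℂ) * u l x) - ∑ l ∈ u.support, (-(lam : ℂ) * u l x) := by
      rw [← Finset.sum_sub_distrib]
      refine Finset.sum_congr rfl fun l _ => ?_
      push_cast
      ring
    rw [e3, e1, sub_self]
  have h2 : ∀ m ∈ u.support, T.cas m = lam := by
    intro m hm
    by_contra hne
    have h3 : ∫ x, (∑ l ∈ u.support, (((lam - T.cas l : ℝ)) : ℂ) * u l x) * conj (u m x) = 0 := by
      simp only [h1, zero_mul, integral_zero]
    have h4 : ∫ x, (∑ l ∈ u.support, (((lam - T.cas l : ℝ)) : ℂ) * u l x) * conj (u m x) =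
        ∑ l ∈ u.support, (((lam - T.cas l : ℝ)) : ℂ) * ∫ x, u l x * conj (u m x) := by
      simp only [Finset.sum_mul]
      rw [integral_finsetSum]
      · refine Finset.sum_congr rfl fun l _ => ?_
        rw [← integral_const_mul]
        congr 1
        funext x
        ring
      · intro l _
        refine int_of_cont ?_
        have := hcont l
        have := hcont m
        have hc : Continuous fun x => conj (u m x) := Complex.continuous_conj.comp (hcont m)
        exact (continuous_const.mul (hcont l)).mul hc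
    rw [h4, Finset.sum_eq_single m] at h3
    · rcases mul_eq_zero.1 h3 with h5 | h5
      · have h6 : lam - T.cas m = 0 := by exact_mod_cast h5
        exact hne (by linarith)
      · have h6 : ∫ x, ‖u m x‖ ^ 2 = 0 := by
          have h7 : ((∫ x, ‖u m x‖ ^ 2 : ℝ) : ℂ) = 0 := by
            rw [← integral_complex_ofReal, ← h5]
            congr 1
            funext x
            rw [Complex.mul_conj, Complex.normSq_eq_norm_sq]
          exact_mod_cast h7
        have h7 := eq_zero_of_int (K := G) (f := fun x => ‖u m x‖ ^ 2)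
          ((continuous_norm.comp (hcont m)).pow 2) (fun x => sq_nonneg _) h6
        have h8 : u m = 0 := by
          funext x
          have := h7 x
          exact norm_eq_zero.1 (pow_eq_zero_iff (two_ne_zero) |>.1 this)
        exact (Finsupp.mem_support_iff.1 hm) h8
    · intro l _ hlm
      rw [iso_orth T hlm (hu l) (hu m), mul_zero]
    · intro h
      exact absurd hm h
  exact ⟨u.support, u, fun l hl => ⟨hu l, h2 l hl⟩, hfs⟩

/-- conversely -/
theorem eig_of_sum {A : Subalgebra ℂ (G → ℂ)} {L : Curves G} (hS : SpecFam T A L)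
    {lam : ℝ} (F : Finset T.Λ) (g : T.Λ → G → ℂ) (hg : ∀ l ∈ F, g l ∈ T.iso l ∧ T.cas l = lam)
    (x : G) : L.lap (∑ l ∈ F, g l) x = -(lam : ℂ) * (∑ l ∈ F, g l) x := by
  rw [lap_sum T hS F g (fun l hl => hS.iso_le l _ (hg l hl).1), Finset.sum_apply, Finset.mul_sum]
  refine Finset.sum_congr rfl fun l hl => ?_
  rw [hS.eig l _ (hg l hl).1, (hg l hl).2]

end STC
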