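import Pool.Agent.STC.SpecDefs
import Pool.Agent.STC.AsmLgd
import Pool.Agent.STC.HWFam
import Pool.Agent.STC.HWComp

/-!
# STC/SpecK : spectral family of a closed connected centreless subgroup of `U(N)`

Let `S = CG.lgd B Q hc` (`S.A = alg K` as a type: `(lgd B Q hc).toRepAlg = rep K` is `rfl`).
PROOF. `(S.fam β hβ).iso l` is the span of `z ↦ φ_l(a z b)`; `S.ML l` is the span of
`S.L a (S.R b (S.phi l))`, `z ↦ φ_l(a⁻¹ z b)`; so the iso component is the image of `S.ML l` under the
inclusion of `S.A` in functions. `iso_le`: members of `S.A` are in `alg K`. `iso_fg`: `S.ML_finite`.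
`decomp`: `S.exists_decomp` (or `S.HWComp_mem`). `cont`: `alg_cont`. `smooth`: for `f ∈ alg K` the
function `s ↦ f (x ex(s))` has derivative `(dfun f)(x ex(s))` (`hasDerivAt_dfun`), with
`dfun f ∈ alg K`; so it is `C^1`, `C^2` (`contDiff_succ_iff_deriv` or `contDiff_one_iff_deriv`).
`eig`: `iteratedDeriv 2 (fun s => f (x ex(s))) 0 = (DX (DX f)) x`; the sum over the basis is
`(lapB B f) x = (S.lap f) x` (`lgd_lap`) `= -(dot l l + dot l rho2) f x` (`S.lap_ML`); multiply by
`1 / β`.
-/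

open MeasureTheory
open scoped ComplexConjugate

namespace STC

namespace CG

variable {N : ℕ} {K : ClosedSubgroup (UG N)} {d : ℕ} (B : LieBasis K.toSubgroup K.isClosed' d)

/-- the one-parameter groups of an orthonormal basis for `β` times minus the Killing form, up to
the factor `β` -/
noncomputable def curvesK (β : ℝ) : Curves (CG K) where
  κ := Fin d
  fin := inferInstance
  γ := fun k s => ex (B.mat_mem k) s
  c := fun _ => 1 / β

private theorem speck_deriv {X : Mat N} (hX : X ∈ lieSet K.toSubgroup) (f : CG K → ℂ)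
    (hf : f ∈ alg K) (x : CG K) :
    deriv (fun s : ℝ => f (x * ex hX s)) = fun s : ℝ => dfun hX f (x * ex hX s) := by
  funext s
  exact (hasDerivAt_dfun hX f hf x s).deriv

private theorem speck_contDiff {X : Mat N} (hX : X ∈ lieSet K.toSubgroup) (x : CG K) (n : ℕ) :
    ∀ f ∈ alg K, ContDiff ℝ n (fun s : ℝ => f (x * ex hX s)) := by
  induction n with
  | zero =>
    intro f hf
    rw [Nat.cast_zero, contDiff_zero, continuous_iff_continuousAt]
    exact fun s => (hasDerivAt_dfun hX f hf x s).continuousAt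
  | succ n ih =>
    intro f hf
    rw [Nat.cast_succ, contDiff_succ_iff_deriv]
    refine ⟨fun s => (hasDerivAt_dfun hX f hf x s).differentiableAt, ?_, ?_⟩
    · intro h
      exact absurd h (by simp)
    · rw [speck_deriv hX f hf x]
      exact ih _ (dfun_mem hX f hf)

private theorem speck_iter {X : Mat N} (hX : X ∈ lieSet K.toSubgroup) (g : (rep K).A)
    (x : CG K) :
    iteratedDeriv 2 (fun s : ℝ => g.1 (x * ex hX s)) 0 = (DX hX (DX hX g)).1 x := by
  have h1 : iteratedDeriv 2 (fun s : ℝ => g.1 (x * ex hX s)) =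
      deriv (deriv (fun s : ℝ => g.1 (x * ex hX s))) := by
    rw [iteratedDeriv_succ, iteratedDeriv_one]
  rw [h1, speck_deriv hX g.1 g.2 x, speck_deriv hX _ (dfun_mem hX g.1 g.2) x]
  change dfun hX (dfun hX g.1) (x * ex hX 0) = _
  rw [ex_zero, mul_one]
  rfl

theorem specFam_K {r M : ℕ} {P : RootDec B.sc r M} (Q : Simple P)
    (hc : IsPreconnected (K.toSubgroup : Set (UG N))) (β : ℝ) (hβ : 0 < β) :
    SpecFam ((lgd B Q hc).fam β hβ) (alg K) (curvesK B β) := by
  let S : LGD (CG K) r M := lgd B Q hc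
  have hiso : ∀ l : {l // l ∈ S.wts}, ∀ f : CG K → ℂ, f ∈ (S.fam β hβ).iso l ↔
      ∃ g : S.A, g ∈ S.ML l.1 ∧ g.1 = f := by
    intro l f
    have h1 : (S.fam β hβ).iso l = (S.ML l.1).map (S.A.val.toLinearMap) := by
      unfold TFam.iso LGD.ML
      rw [Submodule.map_span]
      congr 1
      ext f
      constructor
      · rintro ⟨a, b, rfl⟩
        refine ⟨S.L a⁻¹ (S.R b (S.phi l.1)), ⟨a⁻¹, b, rfl⟩, ?_⟩
        funext x
        change (S.phi l.1).1 ((a⁻¹)⁻¹ * x * b) = (S.phi l.1).1 (a * x * b)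
        rw [inv_inv]
      · rintro ⟨g, ⟨a, b, rfl⟩, rfl⟩
        exact ⟨a⁻¹, b, rfl⟩
    rw [h1, Submodule.mem_map]
    rfl
  refine ⟨?_, ?_, ?_, alg_cont, ?_, ?_⟩
  · intro l f hf
    obtain ⟨g, -, rfl⟩ := (hiso l f).1 hf
    exact g.2
  · intro l
    have h1 : (S.fam β hβ).iso l = (S.ML l.1).map (S.A.val.toLinearMap) := by
      ext f
      rw [hiso l f, Submodule.mem_map]
      rfl
    have h2 : (S.ML l.1).FG := by
      have := S.ML_finite l.1
      exact Module.Finite.iff_fg.1 this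
    change ((S.fam β hβ).iso l).FG
    rw [h1]
    exact h2.map _
  · intro f hf
    obtain ⟨s, u, hu, hfu⟩ := S.exists_decomp ⟨f, hf⟩
    have h1 : f = ∑ l ∈ s, (u l).1 := by
      have h2 := congrArg S.A.val hfu
      rw [map_sum] at h2
      exact h2
    rw [h1]
    refine Submodule.sum_mem _ fun l hl => ?_
    exact Submodule.mem_iSup_of_mem (⟨l, (hu l hl).1⟩ : {l // l ∈ S.wts})
      ((hiso ⟨l, (hu l hl).1⟩ _).2 ⟨u l, (hu l hl).2, rfl⟩)
  · intro f hf k x
    exact speck_contDiff (B.mat_mem k) x 2 f hf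
  · intro l f hf x
    obtain ⟨g, hg, rfl⟩ := (hiso l f).1 hf
    have h1 : S.lap g = lapB B g := lgd_lap B Q hc g
    have h2 := S.lap_ML l.2 hg
    have h3 : (lapB B g).1 x = ∑ i, (DX (B.mat_mem i) (DX (B.mat_mem i) g)).1 x := by
      have h4 : (lapB B g).1 = ∑ i, (DX (B.mat_mem i) (DX (B.mat_mem i) g)).1 := by
        change (rep K).A.val (lapB B g) = _
        unfold lapB
        rw [map_sum]
        rfl
      rw [h4, Finset.sum_apply]
    have h5 : (lapB B g).1 x = -((dot l.1 l.1 + dot l.1 S.rho2 : ℝ) : ℂ) * g.1 x := by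
      rw [← h1, h2]
      rfl
    change ∑ k, (((1 / β : ℝ)) : ℂ) * iteratedDeriv 2 (fun s : ℝ => g.1 (x * ex (B.mat_mem k) s)) 0 =
      -((((dot l.1 l.1 + dot l.1 S.rho2) / β : ℝ)) : ℂ) * g.1 x
    have h6 : ∀ k, iteratedDeriv 2 (fun s : ℝ => g.1 (x * ex (B.mat_mem k) s)) 0 =
        (DX (B.mat_mem k) (DX (B.mat_mem k) g)).1 x := fun k => speck_iter (B.mat_mem k) g x
    simp_rw [h6]
    rw [← Finset.mul_sum, ← h3, h5]
    push_cast
    ring

end CG

end STC
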