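import Pool.Agent.STC.SpecIso
import Pool.Agent.STC.FullAbs

/-!
# STC/SpecMain : from finite sums of isotypic functions on `G` to `L²` of a quotient `Q`

`π : G →* Q` continuous and surjective. `eigQ lam` = functions `f` on `Q` with `f ∘ π ∈ A` and
`L.lap (f ∘ π) = - lam (f ∘ π)`; `eigE lam` = the closed span in `L²(Q)`.

PROOF of `spec_full`. Apply `full_abs` with `Λ = ℝ`, `E = eigE`, `e = id`, `R lam` = the continuous
functions in `eigQ lam`.
(1) `π` is a quotient map (`G` compact, `Q` Hausdorff), so a function `f` on `Q` with `f ∘ π` continuous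
is continuous; hence members of `eigQ lam` are continuous (`hS.cont`). `π` is measure preserving: the
image of the Haar probability measure is a left invariant probability measure on `Q`
(`Measure.isHaarMeasure_map`, `Measure.isHaarMeasure_eq_of_isProbabilityMeasure`), so
`∫_Q h = ∫_G h ∘ π` for continuous `h`.
(2) `V lam = {f ∈ A : L.lap f = - lam f}` is contained in the sum of the `T.iso l` over the FINITE set of
the `l` with `cas l = lam` (`eig_decomp`, `hfin`), so finite dimensional (`iso_fg`); `f ↦ f ∘ π` is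
injective, so `eigQ lam` spans a finite dimensional space (it is a linear space: `lap_add` and
homogeneity), its image in `L²(Q)` is finite dimensional, so closed: every `u ∈ eigE lam` is
`toLp h`, `h ∈ R lam` (`hrep`).
(3) `horth`: for `h ∈ R lam`, `h' ∈ R lam'`: `∫_Q h conj h' = ∫_G (h ∘ π) conj (h' ∘ π) = 0` by
`eig_decomp` and `iso_orth` (`cas l = lam ≠ lam' = cas l'` gives `l ≠ l'`).
(4) `he`: if `eigE lam ≠ ⊥` there is a nonzero eigenfunction, so some `l` with `cas l = lam`, and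
`T.cas_nonneg`.
(5) `hbound`: `h lam ∘ π = Σ_{l ∈ F_lam} g l` (`eig_decomp`, choose `F_lam`, `g_lam`); the `F_lam` are
disjoint; with `F' = ⋃ F_lam` and `f' l = g_{cas l} l`: `Σ_lam e^{-it lam} h_lam ∘ π =
Σ_{l ∈ F'} e^{-it cas l} f' l`, and `∫ |h_lam|² = Σ_{l ∈ F_lam} ∫ |g l|²` (`iso_orth`). Use `hbound`.
-/

open MeasureTheory Complex Filter
open scoped ComplexConjugate ENNReal NNReal Topology

namespace STC

section defs

variable {G Q : Type} [Group G] [Group Q]

/-- eigenfunctions on the quotient -/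
def eigQ (π : G →* Q) (A : Subalgebra ℂ (G → ℂ)) (L : Curves G) (lam : ℝ) : Set (Q → ℂ) :=
  {f | (fun y => f (π y)) ∈ A ∧ ∀ y, L.lap (fun y => f (π y)) y = -(lam : ℂ) * f (π y)}

variable [MeasureSpace Q]

/-- the closed span of the eigenfunctions in `L²(Q)` -/
noncomputable def eigE (π : G →* Q) (A : Subalgebra ℂ (G → ℂ)) (L : Curves G) (lam : ℝ) :
    Submodule ℂ (Lp ℂ 2 (volume : Measure Q)) :=
  (Submodule.span ℂ {F : Lp ℂ 2 (volume : Measure Q) |
    ∃ f ∈ eigQ π A L lam, (F : Q → ℂ) =ᵐ[volume] f}).topologicalClosure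

instance instProjEigE (π : G →* Q) (A : Subalgebra ℂ (G → ℂ)) (L : Curves G) (lam : ℝ) :
    (eigE π A L lam).HasOrthogonalProjection := by
  unfold eigE
  infer_instance

end defs

variable {G : Type} [Group G] [TopologicalSpace G] [IsTopologicalGroup G] [CompactSpace G] [T2Space G]
  [SecondCountableTopology G] [MeasureSpace G] [BorelSpace G]
  [Measure.IsHaarMeasure (volume : Measure G)] [IsProbabilityMeasure (volume : Measure G)]
  {ι : Type} [Fintype ι] (T : TFam G ι)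
  {Q : Type} [Group Q] [TopologicalSpace Q] [IsTopologicalGroup Q] [CompactSpace Q] [T2Space Q]
  [SecondCountableTopology Q] [MeasureSpace Q] [BorelSpace Q]
  [Measure.IsHaarMeasure (volume : Measure Q)] [IsProbabilityMeasure (volume : Measure Q)]

theorem measurePreserving_of_surjective (π : G →* Q) (hπ : Continuous π)
    (hs : Function.Surjective π) : MeasurePreserving π volume volume := by
  have h1 : Measure.IsHaarMeasure (Measure.map π (volume : Measure G)) :=
    Measure.isHaarMeasure_map (volume : Measure G) π hπ hs (by simp)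
  have h2 : IsProbabilityMeasure (Measure.map π (volume : Measure G)) :=
    Measure.isProbabilityMeasure_map hπ.measurable.aemeasurable
  exact ⟨hπ.measurable, Measure.isHaarMeasure_eq_of_isProbabilityMeasure _ _⟩

section helpers

variable {A : Subalgebra ℂ (G → ℂ)} {L : Curves G}

private theorem sm_integral (π : G →* Q) (hπ : Continuous π) (hs : Function.Surjective π)
    {h : Q → ℂ} (hh : Continuous h) : ∫ y, h y = ∫ x, h (π x) := by
  have hm := measurePreserving_of_surjective π hπ hs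
  have h1 := integral_map (μ := (volume : Measure G)) hm.aemeasurable (f := h)
    hh.aestronglyMeasurable
  rw [hm.map_eq] at h1
  exact h1

private theorem sm_integralR (π : G →* Q) (hπ : Continuous π) (hs : Function.Surjective π)
    {h : Q → ℝ} (hh : Continuous h) : ∫ y, h y = ∫ x, h (π x) := by
  have hm := measurePreserving_of_surjective π hπ hs
  have h1 := integral_map (μ := (volume : Measure G)) hm.aemeasurable (f := h)
    hh.aestronglyMeasurable
  rw [hm.map_eq] at h1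
  exact h1

private theorem sm_mem_iff (hS : SpecFam T A L) (hfin : ∀ lam : ℝ, {l | T.cas l = lam}.Finite)
    (π : G →* Q) (lam : ℝ) (f : Q → ℂ) :
    f ∈ eigQ π A L lam ↔ (fun y => f (π y)) ∈ ⨆ l ∈ (hfin lam).toFinset, T.iso l := by
  constructor
  · rintro ⟨h1, h2⟩
    obtain ⟨F, g, hg, hf⟩ := eig_decomp T hS h1 h2
    rw [hf]
    refine Submodule.sum_mem _ fun l hl => ?_
    exact Submodule.mem_iSup_of_mem l
      (Submodule.mem_iSup_of_mem (by simpa using (hg l hl).2) (hg l hl).1)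
  · intro h
    obtain ⟨μ, hμ⟩ := (Submodule.mem_iSup_finset_iff_exists_sum _ _).1 h
    have hg : ∀ l ∈ (hfin lam).toFinset, (μ l : G → ℂ) ∈ T.iso l ∧ T.cas l = lam :=
      fun l hl => ⟨(μ l).2, by simpa using hl⟩
    have h1 := eig_of_sum T hS (hfin lam).toFinset (fun l => (μ l : G → ℂ)) hg
    refine ⟨?_, ?_⟩
    · rw [← hμ]
      exact A.sum_mem fun l hl => hS.iso_le l _ (hg l hl).1
    · intro y
      have h2 := h1 y
      rw [hμ] at h2
      exact h2

private theorem sm_cont (hS : SpecFam T A L) (π : G →* Q) (hπ : Continuous π)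
    (hs : Function.Surjective π) {lam : ℝ} {f : Q → ℂ} (hf : f ∈ eigQ π A L lam) :
    Continuous f := by
  have h1 : Topology.IsQuotientMap π := hπ.isClosedMap.isQuotientMap hπ hs
  rw [h1.continuous_iff]
  exact hS.cont _ hf.1

private noncomputable def sm_J (V : Submodule ℂ (Q → ℂ)) (hV : ∀ f ∈ V, Continuous f) :
    V →ₗ[ℂ] C(Q, ℂ) where
  toFun f := ⟨f.1, hV f.1 f.2⟩
  map_add' f g := by ext; rfl
  map_smul' c f := by ext; rfl

private theorem sm_rep (hS : SpecFam T A L) (hfin : ∀ lam : ℝ, {l | T.cas l = lam}.Finite)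
    (π : G →* Q) (hπ : Continuous π) (hs : Function.Surjective π) (lam : ℝ)
    (u : Lp ℂ 2 (volume : Measure Q)) (hu : u ∈ eigE π A L lam) :
    ∃ h : C(Q, ℂ), (h : Q → ℂ) ∈ eigQ π A L lam ∧
      (ContinuousMap.toLp 2 volume ℂ h : Lp ℂ 2 (volume : Measure Q)) = u := by
  obtain ⟨W, hW⟩ : ∃ W : Submodule ℂ (G → ℂ), W = ⨆ l ∈ (hfin lam).toFinset, T.iso l := ⟨_, rfl⟩
  obtain ⟨V, hV⟩ : ∃ V : Submodule ℂ (Q → ℂ), V = W.comap (LinearMap.funLeft ℂ ℂ π) := ⟨_, rfl⟩
  have hVm : ∀ f, f ∈ V ↔ f ∈ eigQ π A L lam := by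
    intro f
    rw [sm_mem_iff T hS hfin π lam f, hV, Submodule.mem_comap, hW]
    rfl
  have hVc : ∀ f ∈ V, Continuous f := fun f hf => sm_cont T hS π hπ hs ((hVm f).1 hf)
  have hWfg : W.FG := by
    rw [hW]
    exact Submodule.fg_biSup _ _ fun l _ => hS.iso_fg l
  have hWf : Module.Finite ℂ W := Module.Finite.iff_fg.2 hWfg
  have hVf : Module.Finite ℂ V := by
    have h1 : ∀ x ∈ V, LinearMap.funLeft ℂ ℂ π x ∈ W := by
      intro x hx
      rw [hV] at hx
      exact hx
    refine Module.Finite.of_injective ((LinearMap.funLeft ℂ ℂ π).restrict h1) ?_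
    intro x y hxy
    have h2 : LinearMap.funLeft ℂ ℂ π x.1 = LinearMap.funLeft ℂ ℂ π y.1 := congrArg Subtype.val hxy
    exact Subtype.ext (LinearMap.funLeft_injective_of_surjective ℂ ℂ π hs h2)
  obtain ⟨R', hR'⟩ : ∃ R' : Submodule ℂ (Lp ℂ 2 (volume : Measure Q)),
      R' = LinearMap.range ((ContinuousMap.toLp (E := ℂ) 2 (volume : Measure Q) ℂ).toLinearMap ∘ₗ
        sm_J V hVc) := ⟨_, rfl⟩
  have hRf : FiniteDimensional ℂ R' := by
    rw [hR']
    infer_instance
  have hcl : IsClosed (R' : Set (Lp ℂ 2 (volume : Measure Q))) :=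
    Submodule.closed_of_finiteDimensional R'
  have hle : eigE π A L lam ≤ R' := by
    refine Submodule.topologicalClosure_minimal _ (Submodule.span_le.2 ?_) hcl
    rintro F ⟨f, hf, hFf⟩
    have hfV : f ∈ V := (hVm f).2 hf
    have h3 : F = (ContinuousMap.toLp (E := ℂ) 2 (volume : Measure Q) ℂ) (sm_J V hVc ⟨f, hfV⟩) := by
      refine Lp.ext (hFf.trans ?_)
      exact (ContinuousMap.coeFn_toLp (volume : Measure Q) (sm_J V hVc ⟨f, hfV⟩)).symm
    rw [h3, hR']
    exact ⟨⟨f, hfV⟩, rfl⟩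
  have h4 := hle hu
  rw [hR'] at h4
  obtain ⟨v, hv⟩ := h4
  exact ⟨sm_J V hVc v, (hVm _).1 v.2, hv⟩

private theorem sm_integrable {f : G → ℂ} (hf : Continuous f) : Integrable f :=
  hf.integrable_of_hasCompactSupport (HasCompactSupport.of_compactSpace _)

private theorem sm_prod (hS : SpecFam T A L) {F F' : Finset T.Λ} {g g' : T.Λ → G → ℂ}
    (hg : ∀ l ∈ F, g l ∈ T.iso l) (hg' : ∀ l ∈ F', g' l ∈ T.iso l) :
    ∫ x, (∑ l ∈ F, g l) x * conj ((∑ l ∈ F', g' l) x) =
      ∑ l ∈ F, ∑ m ∈ F', ∫ x, g l x * conj (g' m x) := by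
  have hc : ∀ l ∈ F, Continuous (g l) := fun l hl => hS.cont _ (hS.iso_le l _ (hg l hl))
  have hc' : ∀ l ∈ F', Continuous (g' l) := fun l hl => hS.cont _ (hS.iso_le l _ (hg' l hl))
  have h1 : ∀ x, (∑ l ∈ F, g l) x * conj ((∑ l ∈ F', g' l) x) =
      ∑ l ∈ F, ∑ m ∈ F', g l x * conj (g' m x) := by
    intro x
    rw [Finset.sum_apply, Finset.sum_apply, map_sum, Finset.sum_mul_sum]
  have hi : ∀ l ∈ F, ∀ m ∈ F', Integrable fun x => g l x * conj (g' m x) := fun l hl m hm =>
    sm_integrable ((hc l hl).mul (Complex.continuous_conj.comp (hc' m hm)))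
  simp_rw [h1]
  rw [integral_finsetSum _ fun l hl => integrable_finsetSum _ fun m hm => hi l hl m hm]
  refine Finset.sum_congr rfl fun l hl => ?_
  rw [integral_finsetSum _ fun m hm => hi l hl m hm]

private theorem sm_sq {f : G → ℂ} :
    ((∫ x, ‖f x‖ ^ 2 : ℝ) : ℂ) = ∫ x, f x * conj (f x) := by
  refine (integral_ofReal (𝕜 := ℂ) (f := fun x => ‖f x‖ ^ 2)).symm.trans ?_
  refine integral_congr_ae (Filter.Eventually.of_forall fun x => ?_)
  show ((‖f x‖ ^ 2 : ℝ) : ℂ) = f x * conj (f x)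
  rw [Complex.mul_conj, Complex.normSq_eq_norm_sq]

private theorem sm_norm (hS : SpecFam T A L) {F : Finset T.Λ} {g : T.Λ → G → ℂ}
    (hg : ∀ l ∈ F, g l ∈ T.iso l) :
    ∫ x, ‖(∑ l ∈ F, g l) x‖ ^ 2 = ∑ l ∈ F, ∫ x, ‖g l x‖ ^ 2 := by
  have h1 : ((∫ x, ‖(∑ l ∈ F, g l) x‖ ^ 2 : ℝ) : ℂ) =
      ((∑ l ∈ F, ∫ x, ‖g l x‖ ^ 2 : ℝ) : ℂ) := by
    rw [sm_sq, sm_prod T hS hg hg]
    push_cast
    refine Finset.sum_congr rfl fun l hl => ?_
    rw [Finset.sum_eq_single l]
    · exact (sm_sq (f := g l)).symm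
    · intro m hm hml
      exact iso_orth T hml.symm (hg l hl) (hg m hm)
    · intro h; exact absurd hl h
  exact_mod_cast h1

end helpers

/-- eigenspaces of different eigenvalues are orthogonal -/
theorem eigE_orth {A : Subalgebra ℂ (G → ℂ)} {L : Curves G} (hS : SpecFam T A L)
    (hfin : ∀ lam : ℝ, {l | T.cas l = lam}.Finite) (π : G →* Q) (hπ : Continuous π)
    (hs : Function.Surjective π) {lam lam' : ℝ} (hne : lam ≠ lam')
    (u : Lp ℂ 2 (volume : Measure Q)) (hu : u ∈ eigE π A L lam)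
    (v : Lp ℂ 2 (volume : Measure Q)) (hv : v ∈ eigE π A L lam') : inner ℂ u v = 0 := by
  obtain ⟨h, hh, rfl⟩ := sm_rep T hS hfin π hπ hs lam u hu
  obtain ⟨h', hh', rfl⟩ := sm_rep T hS hfin π hπ hs lam' v hv
  obtain ⟨F, g, hg, hf⟩ := eig_decomp T hS hh.1 hh.2
  obtain ⟨F', g', hg', hf'⟩ := eig_decomp T hS hh'.1 hh'.2
  rw [ContinuousMap.inner_toLp, sm_integral (h := fun x => h' x * conj (h x)) π hπ hs
    (h'.continuous.mul (Complex.continuous_conj.comp h.continuous))]
  have h1 : ∀ x, h' (π x) * conj (h (π x)) =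
      (∑ l ∈ F', g' l) x * conj ((∑ l ∈ F, g l) x) := by
    intro x
    rw [← hf, ← hf']
  have h2 : ∫ x, h' (π x) * conj (h (π x)) =
      ∫ x, (∑ l ∈ F', g' l) x * conj ((∑ l ∈ F, g l) x) :=
    integral_congr_ae (Filter.Eventually.of_forall h1)
  refine h2.trans ?_
  rw [sm_prod T hS (fun l hl => (hg' l hl).1) (fun l hl => (hg l hl).1)]
  refine Finset.sum_eq_zero fun l hl => Finset.sum_eq_zero fun m hm => ?_
  refine iso_orth T ?_ (hg' l hl).1 (hg m hm).1
  rintro rfl
  exact hne ((hg l hm).2.symm.trans (hg' l hl).2)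

/-- the eigenvalues are nonnegative -/
theorem eigE_nonneg {A : Subalgebra ℂ (G → ℂ)} {L : Curves G} (hS : SpecFam T A L)
    (hfin : ∀ lam : ℝ, {l | T.cas l = lam}.Finite) (π : G →* Q) (hπ : Continuous π)
    (hs : Function.Surjective π) {lam : ℝ} (hne : eigE π A L lam ≠ ⊥) : 0 ≤ lam := by
  obtain ⟨u, hu, hu0⟩ := Submodule.exists_mem_ne_zero_of_ne_bot hne
  obtain ⟨h, hh, rfl⟩ := sm_rep T hS hfin π hπ hs lam u hu
  obtain ⟨F, g, hg, hf⟩ := eig_decomp T hS hh.1 hh.2
  rcases F.eq_empty_or_nonempty with hF | ⟨l, hl⟩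
  · exfalso
    apply hu0
    have h1 : h = 0 := by
      ext y
      obtain ⟨x, rfl⟩ := hs y
      have h2 := congrFun hf x
      rw [hF] at h2
      simpa using h2
    rw [h1, map_zero]
  · have h1 := (hg l hl).2
    have h2 := T.cas_nonneg l
    linarith

theorem spec_full {A : Subalgebra ℂ (G → ℂ)} {L : Curves G} (hS : SpecFam T A L)
    (hfin : ∀ lam : ℝ, {l | T.cas l = lam}.Finite) (π : G →* Q) (hπ : Continuous π)
    (hs : Function.Surjective π) (s p a b C : ℝ) (hp : 0 < p) (hab : a < b) (hC : 0 < C)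
    (hbound : ∀ (F : Finset T.Λ) (f : T.Λ → G → ℂ), (∀ l ∈ F, f l ∈ T.iso l) →
      ∫ t in a..b, ∫ x, ‖∑ l ∈ F, cexp (-((t * T.cas l : ℝ) : ℂ) * I) * f l x‖ ^ p ≤
        C * (∑ l ∈ F, (1 + T.cas l) ^ s * ∫ x, ‖f l x‖ ^ 2) ^ (p / 2))
    (f : Lp ℂ 2 (volume : Measure Q)) :
    ∫⁻ t in Set.Icc a b, (eLpNorm ((∑' lam : ℝ, cexp (-((t * lam : ℝ) : ℂ) * I) •
        (eigE π A L lam).starProjection f : Lp ℂ 2 (volume : Measure Q)) : Q → ℂ)
          (ENNReal.ofReal p) volume) ^ p ≤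
      ENNReal.ofReal C * (∑' lam : ℝ, ENNReal.ofReal ((1 + lam) ^ s *
        ‖(eigE π A L lam).starProjection f‖ ^ 2)) ^ (p / 2) := by
  classical
  refine full_abs (eigE π A L) (fun lam => lam)
    (fun lam => {h : C(Q, ℂ) | (h : Q → ℂ) ∈ eigQ π A L lam}) s p a b C hp hab hC ?_ ?_ ?_ ?_ f
  · intro lam hne
    obtain ⟨u, hu, hu0⟩ := Submodule.exists_mem_ne_zero_of_ne_bot hne
    obtain ⟨h, hh, rfl⟩ := sm_rep T hS hfin π hπ hs lam u hu
    obtain ⟨F, g, hg, hf⟩ := eig_decomp T hS hh.1 hh.2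
    rcases F.eq_empty_or_nonempty with hF | ⟨l, hl⟩
    · exfalso
      apply hu0
      have h1 : h = 0 := by
        ext y
        obtain ⟨x, rfl⟩ := hs y
        have h2 := congrFun hf x
        rw [hF] at h2
        simpa using h2
      rw [h1, map_zero]
    · have h1 := (hg l hl).2
      have h2 := T.cas_nonneg l
      show 0 ≤ 1 + lam
      linarith
  · intro lam lam' hne u hu v hv
    obtain ⟨h, hh, rfl⟩ := sm_rep T hS hfin π hπ hs lam u hu
    obtain ⟨h', hh', rfl⟩ := sm_rep T hS hfin π hπ hs lam' v hv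
    obtain ⟨F, g, hg, hf⟩ := eig_decomp T hS hh.1 hh.2
    obtain ⟨F', g', hg', hf'⟩ := eig_decomp T hS hh'.1 hh'.2
    rw [ContinuousMap.inner_toLp, sm_integral (h := fun x => h' x * conj (h x)) π hπ hs
      (h'.continuous.mul (Complex.continuous_conj.comp h.continuous))]
    have h1 : ∀ x, h' (π x) * conj (h (π x)) =
        (∑ l ∈ F', g' l) x * conj ((∑ l ∈ F, g l) x) := by
      intro x
      rw [← hf, ← hf']
    have h2 : ∫ x, h' (π x) * conj (h (π x)) =
        ∫ x, (∑ l ∈ F', g' l) x * conj ((∑ l ∈ F, g l) x) :=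
      integral_congr_ae (Filter.Eventually.of_forall h1)
    refine h2.trans ?_
    rw [sm_prod T hS (fun l hl => (hg' l hl).1) (fun l hl => (hg l hl).1)]
    refine Finset.sum_eq_zero fun l hl => Finset.sum_eq_zero fun m hm => ?_
    refine iso_orth T ?_ (hg' l hl).1 (hg m hm).1
    rintro rfl
    exact hne ((hg l hm).2.symm.trans (hg' l hl).2)
  · intro lam u hu
    obtain ⟨h, hh, hhu⟩ := sm_rep T hS hfin π hπ hs lam u hu
    exact ⟨h, hh, hhu⟩
  · intro F h hh
    have hdec : ∀ lam, ∃ (F' : Finset T.Λ) (g : T.Λ → G → ℂ), lam ∈ F →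
        (∀ l ∈ F', g l ∈ T.iso l ∧ T.cas l = lam) ∧
          (fun y => h lam (π y)) = ∑ l ∈ F', g l := by
      intro lam
      by_cases hl : lam ∈ F
      · obtain ⟨F', g, hg, hf⟩ := eig_decomp T hS (hh lam hl).1 (hh lam hl).2
        exact ⟨F', g, fun _ => ⟨hg, hf⟩⟩
      · exact ⟨∅, fun _ => 0, fun h1 => absurd h1 hl⟩
    choose FF gg hFg using hdec
    obtain ⟨F', hF'⟩ : ∃ F' : Finset T.Λ, F' = F.biUnion FF := ⟨_, rfl⟩
    have hdisj : Set.PairwiseDisjoint (F : Set ℝ) FF := by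
      intro lam hl lam' hl' hne
      rw [Function.onFun, Finset.disjoint_left]
      intro m hm hm'
      exact hne (((hFg lam hl).1 m hm).2.symm.trans ((hFg lam' hl').1 m hm').2)
    have hmem : ∀ l ∈ F', gg (T.cas l) l ∈ T.iso l := by
      intro l hl
      rw [hF', Finset.mem_biUnion] at hl
      obtain ⟨lam, hlam, hl⟩ := hl
      obtain ⟨h1, h2⟩ := (hFg lam hlam).1 l hl
      rw [h2]
      exact h1
    have key := hbound F' (fun l => gg (T.cas l) l) hmem
    have e1 : ∀ (t : ℝ) (x : G),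
        ∑ l ∈ F', cexp (-((t * T.cas l : ℝ) : ℂ) * I) * gg (T.cas l) l x =
        ∑ lam ∈ F, cexp (-((t * lam : ℝ) : ℂ) * I) * h lam (π x) := by
      intro t x
      rw [hF', Finset.sum_biUnion hdisj]
      refine Finset.sum_congr rfl fun lam hlam => ?_
      have h3 : h lam (π x) = ∑ l ∈ FF lam, gg lam l x := by
        have h4 := congrFun (hFg lam hlam).2 x
        rw [Finset.sum_apply] at h4
        exact h4
      rw [h3, Finset.mul_sum]
      refine Finset.sum_congr rfl fun l hl => ?_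
      rw [((hFg lam hlam).1 l hl).2]
    have e2 : ∀ t : ℝ, ∫ x : Q, ‖∑ lam ∈ F, cexp (-((t * lam : ℝ) : ℂ) * I) * h lam x‖ ^ p =
        ∫ x : G, ‖∑ l ∈ F', cexp (-((t * T.cas l : ℝ) : ℂ) * I) * gg (T.cas l) l x‖ ^ p := by
      intro t
      have hc : Continuous fun x : Q =>
          ‖∑ lam ∈ F, cexp (-((t * lam : ℝ) : ℂ) * I) * h lam x‖ ^ p := by
        refine Continuous.rpow_const ?_ fun x => Or.inr hp.le
        exact (continuous_finsetSum _ fun lam _ =>
          continuous_const.mul (h lam).continuous).norm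
      rw [sm_integralR π hπ hs hc]
      refine integral_congr_ae (Filter.Eventually.of_forall fun x => ?_)
      show _ = ‖∑ l ∈ F', cexp (-((t * T.cas l : ℝ) : ℂ) * I) * gg (T.cas l) l x‖ ^ p
      rw [e1]
    have e3 : ∑ l ∈ F', (1 + T.cas l) ^ s * ∫ x, ‖gg (T.cas l) l x‖ ^ 2 =
        ∑ lam ∈ F, (1 + lam) ^ s * ∫ x, ‖h lam x‖ ^ 2 := by
      rw [hF', Finset.sum_biUnion hdisj]
      refine Finset.sum_congr rfl fun lam hlam => ?_
      have hc : Continuous fun x : Q => ‖h lam x‖ ^ 2 := (h lam).continuous.norm.pow 2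
      have h5 : ∫ x, ‖h lam x‖ ^ 2 = ∑ l ∈ FF lam, ∫ x, ‖gg lam l x‖ ^ 2 := by
        rw [sm_integralR π hπ hs hc, ← sm_norm T hS fun l hl => ((hFg lam hlam).1 l hl).1]
        refine integral_congr_ae (Filter.Eventually.of_forall fun x => ?_)
        show ‖h lam (π x)‖ ^ 2 = ‖(∑ l ∈ FF lam, gg lam l) x‖ ^ 2
        rw [← (hFg lam hlam).2]
      rw [h5, Finset.mul_sum]
      refine Finset.sum_congr rfl fun l hl => ?_
      rw [((hFg lam hlam).1 l hl).2]
    have e4 : ∫ t in a..b, ∫ x : Q, ‖∑ lam ∈ F, cexp (-((t * lam : ℝ) : ℂ) * I) * h lam x‖ ^ p =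
        ∫ t in a..b, ∫ x : G, ‖∑ l ∈ F', cexp (-((t * T.cas l : ℝ) : ℂ) * I) *
          gg (T.cas l) l x‖ ^ p := by
      congr 1
      funext t
      exact e2 t
    rw [e3, ← e4] at key
    exact key

end STC
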