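import Pool.Agent.STC.SpecDefs
import Pool.Agent.STC.PiFam

/-!
# STC/SpecPi : spectral family of a finite product

PROOF. (a) `(TFam.pi T).iso l` is the span of the functions `x ↦ ∏ j, f j (x j)`,
`f j ∈ (T j).iso (l j)`: its generators `x ↦ ∏ j, φ_{l j}(a_j x_j b_j)` are of this form, and
conversely by multilinearity (`MultilinearMap`, or induction: replace the factors one after the other;
e.g. show by `Finset.induction_on s` that the product is in the iso component when the factors in `s`
are arbitrary members and the others are translates of `φ`). (b) `iso_le`: from (a), a product of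
members of `algPi`. `iso_fg`: the iso component is contained in the product over `j` of the images of
the `(T j).iso (l j)` under `f ↦ f ∘ (· j)`; see `STZ.fg_prod`, `STZ.mem_prod` in
`Pool/Agent/STZ/FullProj.lean`; `Submodule.FG.of_le`. (c) every element of `algPi A` is a finite sum of
products `∏ j, f j (x j)` with `f j ∈ A j` (`Algebra.adjoin_induction`). `decomp`: by (c) it is enough
to treat `∏ j, f j (x j)`; decompose the factors (write `f j` as a finite sum over `l` of members of
`(T j).iso l`, expand the product with `Finset.prod_univ_sum` or by induction), use (a). `cont`,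
`smooth`: by (c): along the curve `Pi.mulSingle j (γ s)` the function is
`s ↦ f j (x j * γ s) * ∏_{i ≠ j} f i (x i)`. `eig`: for `F x = ∏ j, f j (x j)` with
`f j ∈ (T j).iso (l j)`: `lap F x = ∑ j, (L j).lap (f j) (x j) * ∏_{i ≠ j} f i (x i)`
(`Fintype.sum_sigma`) `= -(∑ j, cas (l j)) F x`; a general element is a finite sum of such functions,
and `lap` is additive on functions in `algPi A` (`smooth`).
-/

open MeasureTheory
open scoped ComplexConjugate Pointwise

namespace STC

variable {J : Type} [Fintype J] [DecidableEq J] {G : J → Type} [∀ j, Group (G j)]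
  [∀ j, TopologicalSpace (G j)] [∀ j, MeasureSpace (G j)]
  [∀ j, IsProbabilityMeasure (volume : Measure (G j))] {ι : J → Type} [∀ j, Fintype (ι j)]

/-- The function `x ↦ f (x j)`. -/
private noncomputable def ev (j : J) : (G j → ℂ) →ₗ[ℂ] ((∀ j, G j) → ℂ) :=
  LinearMap.funLeft ℂ ℂ fun x : ∀ j, G j => x j

omit [Fintype J] [DecidableEq J] [∀ j, Group (G j)] [∀ j, TopologicalSpace (G j)]
  [∀ j, MeasureSpace (G j)] [∀ j, IsProbabilityMeasure (volume : Measure (G j))] in
private theorem ev_apply (j : J) (f : G j → ℂ) (x : ∀ j, G j) : ev j f x = f (x j) := rfl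

omit [Fintype J] in
private theorem mem_prod' {A : Type} [CommRing A] [Algebra ℂ A] (s : Finset J)
    (W : J → Submodule ℂ A) (w : J → A) (hw : ∀ i ∈ s, w i ∈ W i) :
    ∏ i ∈ s, w i ∈ ∏ i ∈ s, W i := by
  induction s using Finset.induction_on with
  | empty =>
    rw [Finset.prod_empty, Finset.prod_empty, Submodule.one_eq_span]
    exact Submodule.mem_span_singleton_self _
  | insert i s his ih =>
    rw [Finset.prod_insert his, Finset.prod_insert his]
    exact Submodule.mul_mem_mul (hw i (Finset.mem_insert_self i s))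
      (ih fun j hj => hw j (Finset.mem_insert_of_mem hj))

omit [Fintype J] in
private theorem fg_prod' {A : Type} [CommRing A] [Algebra ℂ A] (s : Finset J)
    (W : J → Submodule ℂ A) (hW : ∀ i ∈ s, (W i).FG) : (∏ i ∈ s, W i).FG := by
  induction s using Finset.induction_on with
  | empty =>
    rw [Finset.prod_empty, Submodule.one_eq_span]
    exact ⟨{1}, by simp⟩
  | insert i s his ih =>
    rw [Finset.prod_insert his]
    exact Submodule.FG.mul (hW i (Finset.mem_insert_self i s))
      (ih fun j hj => hW j (Finset.mem_insert_of_mem hj))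

omit [Fintype J] in
private theorem prod_iSup_le {A : Type} [CommRing A] [Algebra ℂ A] {Λ : J → Type}
    [∀ j, Nonempty (Λ j)] (S : ∀ j, Λ j → Submodule ℂ A) (s : Finset J) :
    ∏ j ∈ s, (⨆ a, S j a) ≤ ⨆ l : ∀ j, Λ j, ∏ j ∈ s, S j (l j) := by
  induction s using Finset.induction_on with
  | empty =>
    simp only [Finset.prod_empty]
    exact le_iSup (fun _ : ∀ j, Λ j => (1 : Submodule ℂ A)) fun j => Classical.arbitrary (Λ j)
  | insert i s his ih =>
    rw [Finset.prod_insert his]
    refine (mul_le_mul' le_rfl ih).trans ?_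
    rw [Submodule.iSup_mul]
    refine iSup_le fun a => ?_
    rw [Submodule.mul_iSup]
    refine iSup_le fun l => ?_
    refine le_iSup_of_le (Function.update l i a) ?_
    rw [Finset.prod_insert his, Function.update_self]
    refine le_of_eq ?_
    congr 1
    refine Finset.prod_congr rfl fun j hj => ?_
    rw [Function.update_of_ne (by rintro rfl; exact his hj)]

omit [DecidableEq J] [∀ j, Group (G j)] [∀ j, TopologicalSpace (G j)]
  [∀ j, MeasureSpace (G j)] [∀ j, IsProbabilityMeasure (volume : Measure (G j))] in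
/-- Induction for members of a product of spaces of functions of one variable. -/
private theorem prod_map_induction {S : ∀ j, Submodule ℂ (G j → ℂ)}
    {p : ((∀ j, G j) → ℂ) → Prop} (h0 : p 0) (hadd : ∀ F F', p F → p F' → p (F + F'))
    (hsmul : ∀ (c : ℂ) F, p F → p (c • F))
    (hprod : ∀ f : ∀ j, G j → ℂ, (∀ j, f j ∈ S j) → p fun x => ∏ j, f j (x j))
    {F : (∀ j, G j) → ℂ} (hF : F ∈ ∏ j, (S j).map (ev j)) : p F := by
  have h1 : ∏ j, (S j).map (ev (G := G) j) =
      Submodule.span ℂ (∏ j, (((S j).map (ev (G := G) j) : Submodule ℂ _) :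
        Set ((∀ j, G j) → ℂ))) := by
    rw [← Submodule.prod_span]
    refine Finset.prod_congr rfl fun j _ => ?_
    rw [Submodule.span_eq]
  rw [h1] at hF
  induction hF using Submodule.span_induction with
  | mem F hF =>
    obtain ⟨g, hg, rfl⟩ := (Set.mem_finsetProd _ _ _).1 hF
    have h2 : ∀ j, ∃ f ∈ S j, ev j f = g j := fun j => hg (Finset.mem_univ j)
    choose f hf hfg using h2
    have h3 := hprod f hf
    convert h3 using 1
    funext x
    rw [Finset.prod_apply]
    exact Finset.prod_congr rfl fun j _ => by rw [← hfg j, ev_apply]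
  | zero => exact h0
  | add F F' _ _ h h' => exact hadd F F' h h'
  | smul c F _ h => exact hsmul c F h

omit [∀ j, TopologicalSpace (G j)]
  [∀ j, MeasureSpace (G j)] [∀ j, IsProbabilityMeasure (volume : Measure (G j))] in
private theorem prod_curve (f : ∀ j, G j → ℂ) (x : ∀ j, G j) (j : J) (g : G j) :
    ∏ i, f i ((x * Pi.mulSingle j g) i) =
      f j (x j * g) * ∏ i ∈ Finset.univ.erase j, f i (x i) := by
  rw [← Finset.mul_prod_erase Finset.univ _ (Finset.mem_univ j)]
  congr 1
  · rw [Pi.mul_apply, Pi.mulSingle_eq_same]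
  · refine Finset.prod_congr rfl fun i hi => ?_
    rw [Pi.mul_apply, Pi.mulSingle_eq_of_ne (Finset.ne_of_mem_erase hi), mul_one]

private theorem iter2_mul_const (f : ℝ → ℂ) (c : ℂ) :
    iteratedDeriv 2 (fun s => f s * c) 0 = iteratedDeriv 2 f 0 * c := by
  rw [iteratedDeriv_succ, iteratedDeriv_one, iteratedDeriv_succ, iteratedDeriv_one]
  have h1 : deriv (fun s => f s * c) = fun s => deriv f s * c := by
    funext s
    exact deriv_mul_const_field c
  rw [h1]
  exact deriv_mul_const_field c

private theorem iter2_const_mul (f : ℝ → ℂ) (c : ℂ) :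
    iteratedDeriv 2 (fun s => c * f s) 0 = c * iteratedDeriv 2 f 0 := by
  rw [iteratedDeriv_succ, iteratedDeriv_one, iteratedDeriv_succ, iteratedDeriv_one]
  have h1 : deriv (fun s => c * f s) = fun s => c * deriv f s := by
    funext s
    exact deriv_const_mul_field c
  rw [h1]
  exact deriv_const_mul_field c

private theorem iso_pi (T : ∀ j, TFam (G j) (ι j)) (l : ∀ j, (T j).Λ) :
    (TFam.pi T).iso l = ∏ j, ((T j).iso (l j)).map (ev j) := by
  have h1 : ∀ j, ((T j).iso (l j)).map (ev j) = Submodule.span ℂ
      (ev j '' {f | ∃ a b : G j, f = fun x => (T j).φ (l j) (a * x * b)}) := fun j => by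
    rw [TFam.iso, Submodule.map_span]
  simp only [h1]
  rw [Submodule.prod_span, TFam.iso]
  congr 1
  ext F
  rw [Set.mem_finsetProd]
  constructor
  · rintro ⟨a, b, rfl⟩
    refine ⟨fun j => ev j fun x => (T j).φ (l j) (a j * x * b j), fun {j} _ =>
      ⟨_, ⟨a j, b j, rfl⟩, rfl⟩, ?_⟩
    funext x
    rw [Finset.prod_apply]
    rfl
  · rintro ⟨g, hg, rfl⟩
    have h2 : ∀ j, ∃ a b : G j, ev j (fun x => (T j).φ (l j) (a * x * b)) = g j := fun j => by
      obtain ⟨_, ⟨a, b, rfl⟩, h⟩ := hg (Finset.mem_univ j)
      exact ⟨a, b, h⟩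
    choose a b hab using h2
    refine ⟨a, b, ?_⟩
    funext x
    rw [Finset.prod_apply]
    refine Finset.prod_congr rfl fun j _ => ?_
    rw [← hab j]
    rfl

omit [DecidableEq J] [∀ j, Group (G j)] [∀ j, TopologicalSpace (G j)]
  [∀ j, MeasureSpace (G j)] [∀ j, IsProbabilityMeasure (volume : Measure (G j))] in
private theorem prod_mul_le (A : ∀ j, Subalgebra ℂ (G j → ℂ)) :
    (∏ j, ((Subalgebra.toSubmodule (A j)).map (ev j))) *
      (∏ j, ((Subalgebra.toSubmodule (A j)).map (ev j))) ≤
      ∏ j, ((Subalgebra.toSubmodule (A j)).map (ev j)) := by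
  rw [← Finset.prod_mul_distrib]
  refine Finset.prod_le_prod' fun j _ => ?_
  rw [Submodule.mul_le]
  rintro _ ⟨f, hf, rfl⟩ _ ⟨g, hg, rfl⟩
  exact ⟨f * g, (A j).mul_mem hf hg, rfl⟩

omit [∀ j, Group (G j)] [∀ j, TopologicalSpace (G j)] [∀ j, MeasureSpace (G j)]
  [∀ j, IsProbabilityMeasure (volume : Measure (G j))] in
private theorem algPi_le (A : ∀ j, Subalgebra ℂ (G j → ℂ)) {F : (∀ j, G j) → ℂ}
    (hF : F ∈ algPi A) : F ∈ ∏ j, ((Subalgebra.toSubmodule (A j)).map (ev j)) := by
  have hone : (1 : (∀ j, G j) → ℂ) ∈ ∏ j, ((Subalgebra.toSubmodule (A j)).map (ev j)) := by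
    have h1 := mem_prod' Finset.univ (fun j => ((Subalgebra.toSubmodule (A j)).map (ev j)))
      (fun _ => (1 : (∀ j, G j) → ℂ)) fun j _ => ⟨1, (A j).one_mem, rfl⟩
    rwa [Finset.prod_const_one] at h1
  have h2 : algPi A ≤ Submodule.toSubalgebra
      (∏ j, ((Subalgebra.toSubmodule (A j)).map (ev j))) hone
      (fun x y hx hy => prod_mul_le A (Submodule.mul_mem_mul hx hy)) := by
    refine Algebra.adjoin_le ?_
    rintro _ ⟨j, f, hf, rfl⟩
    have h3 := mem_prod' Finset.univ (fun j => ((Subalgebra.toSubmodule (A j)).map (ev j)))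
      (Function.update (fun _ => (1 : (∀ j, G j) → ℂ)) j (ev j f)) (fun i _ => by
        rcases eq_or_ne i j with rfl | hij
        · rw [Function.update_self]
          exact ⟨f, hf, rfl⟩
        · rw [Function.update_of_ne hij]
          exact ⟨1, (A i).one_mem, rfl⟩)
    rw [Finset.prod_update_of_mem (Finset.mem_univ j), Finset.prod_const_one, mul_one] at h3
    exact h3
  exact h2 hF

theorem SpecFam.pi {T : ∀ j, TFam (G j) (ι j)} {A : ∀ j, Subalgebra ℂ (G j → ℂ)}
    {L : ∀ j, Curves (G j)} (hT : ∀ j, SpecFam (T j) (A j) (L j)) :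
    SpecFam (TFam.pi T) (algPi A) (Curves.pi L) := by
  have hne : ∀ j, Nonempty (T j).Λ := by
    intro j
    by_contra hc
    rw [not_nonempty_iff] at hc
    have h1 := (hT j).decomp 1 (A j).one_mem
    rw [iSup_of_empty, Submodule.mem_bot] at h1
    have h2 := congrFun h1 (1 : G j)
    simp at h2
  have hgen : ∀ f : ∀ j, G j → ℂ, (∀ j, f j ∈ A j) → (fun x : ∀ j, G j => ∏ j, f j (x j)) ∈
      algPi A := by
    intro f hf
    have h1 : (fun x : ∀ j, G j => ∏ j, f j (x j)) = ∏ j, ev j (f j) := by
      funext x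
      rw [Finset.prod_apply]
      rfl
    rw [h1]
    exact Subalgebra.prod_mem _ fun j _ => Algebra.subset_adjoin ⟨j, f j, hf j, rfl⟩
  refine ⟨?_, ?_, ?_, ?_, ?_, ?_⟩
  · intro l f hf
    rw [iso_pi] at hf
    refine prod_map_induction (p := fun F => F ∈ algPi A) (algPi A).zero_mem
      (fun F F' h h' => (algPi A).add_mem h h') (fun c F h => (algPi A).smul_mem h c)
      (fun f hf => hgen f fun j => (hT j).iso_le (l j) (f j) (hf j)) hf
  · intro l
    rw [iso_pi]
    exact fg_prod' _ _ fun j _ => ((hT j).iso_fg (l j)).map _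
  · intro f hf
    have h1 := algPi_le A hf
    have h2 : ∏ j, ((Subalgebra.toSubmodule (A j)).map (ev j)) ≤
        ∏ j, (⨆ a, ((T j).iso a).map (ev j)) := by
      refine Finset.prod_le_prod' fun j _ => ?_
      rw [← Submodule.map_iSup]
      exact Submodule.map_mono fun g hg => (hT j).decomp g hg
    have h3 := prod_iSup_le (fun j a => ((T j).iso a).map (ev j)) Finset.univ (h2 h1)
    have h4 : (⨆ l : ∀ j, (T j).Λ, ∏ j, ((T j).iso (l j)).map (ev j)) =
        ⨆ l, (TFam.pi T).iso l := iSup_congr fun l => (iso_pi T l).symm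
    rw [← h4]
    exact h3
  · intro f hf
    refine prod_map_induction (p := fun F => Continuous F) continuous_const
      (fun F F' h h' => h.add h') (fun c F h => h.const_smul c) (fun f hf => ?_) (algPi_le A hf)
    exact continuous_finsetProd _ fun j _ => ((hT j).cont (f j) (hf j)).comp (continuous_apply j)
  · intro f hf
    refine prod_map_induction (p := fun F => ∀ (k : (Curves.pi L).κ) (x : ∀ j, G j),
      ContDiff ℝ 2 fun s : ℝ => F (x * (Curves.pi L).γ k s)) (fun k x => contDiff_const)
      (fun F F' h h' k x => (h k x).add (h' k x)) (fun c F h k x => (h k x).const_smul c)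
      (fun f hf => ?_) (algPi_le A hf)
    rintro ⟨j, k⟩ x
    have h1 : (fun s : ℝ => ∏ i, f i ((x * (Curves.pi L).γ ⟨j, k⟩ s) i)) =
        fun s => f j (x j * (L j).γ k s) * ∏ i ∈ Finset.univ.erase j, f i (x i) := by
      funext s
      exact prod_curve f x j _
    rw [h1]
    exact ((hT j).smooth (f j) (hf j) k (x j)).mul contDiff_const
  · intro l f hf
    rw [iso_pi] at hf
    have key : (∀ (k : (Curves.pi L).κ) (x : ∀ j, G j),
        ContDiff ℝ 2 fun s : ℝ => f (x * (Curves.pi L).γ k s)) ∧
        ∀ x, (Curves.pi L).lap f x = -((TFam.pi T).cas l : ℂ) * f x := by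
      refine prod_map_induction (p := fun F => (∀ (k : (Curves.pi L).κ) (x : ∀ j, G j),
        ContDiff ℝ 2 fun s : ℝ => F (x * (Curves.pi L).γ k s)) ∧
        ∀ x, (Curves.pi L).lap F x = -((TFam.pi T).cas l : ℂ) * F x) ?_ ?_ ?_ ?_ hf
      · refine ⟨fun k x => contDiff_const, fun x => ?_⟩
        rw [Curves.lap, Pi.zero_apply, mul_zero]
        refine Finset.sum_eq_zero fun k _ => ?_
        have h1 : (fun s : ℝ => (0 : (∀ j, G j) → ℂ) (x * (Curves.pi L).γ k s)) =
            fun s : ℝ => (0 : ℂ) * (0 : ℂ) := by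
          funext s
          simp
        rw [h1, iter2_const_mul (fun _ => 0) 0, zero_mul, mul_zero]
      · rintro F F' ⟨hs, he⟩ ⟨hs', he'⟩
        refine ⟨fun k x => (hs k x).add (hs' k x), fun x => ?_⟩
        have h1 := he x
        have h2 := he' x
        rw [Curves.lap] at h1 h2 ⊢
        rw [Pi.add_apply, mul_add, ← h1, ← h2, ← Finset.sum_add_distrib]
        refine Finset.sum_congr rfl fun k _ => ?_
        rw [← mul_add]
        congr 1
        exact iteratedDeriv_add (hs k x).contDiffAt (hs' k x).contDiffAt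
      · rintro c F ⟨hs, he⟩
        refine ⟨fun k x => (hs k x).const_smul c, fun x => ?_⟩
        have h1 := he x
        rw [Curves.lap] at h1 ⊢
        rw [Pi.smul_apply, smul_eq_mul, mul_left_comm, ← h1, Finset.mul_sum]
        refine Finset.sum_congr rfl fun k _ => ?_
        rw [mul_left_comm]
        congr 1
        exact iter2_const_mul _ c
      · intro f hf
        refine ⟨?_, ?_⟩
        · rintro ⟨j, k⟩ x
          have h1 : (fun s : ℝ => ∏ i, f i ((x * (Curves.pi L).γ ⟨j, k⟩ s) i)) =
              fun s => f j (x j * (L j).γ k s) * ∏ i ∈ Finset.univ.erase j, f i (x i) := by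
            funext s
            exact prod_curve f x j _
          rw [h1]
          exact ((hT j).smooth (f j) ((hT j).iso_le (l j) _ (hf j)) k (x j)).mul contDiff_const
        · intro x
          rw [Curves.lap]
          have h0 : (∑ k : (Curves.pi L).κ, ((Curves.pi L).c k : ℂ) * iteratedDeriv 2
              (fun s : ℝ => (fun x : ∀ j, G j => ∏ j, f j (x j))
                (x * (Curves.pi L).γ k s)) 0) =
              ∑ k : (Σ j, (L j).κ), ((L k.1).c k.2 : ℂ) * (iteratedDeriv 2
                (fun s : ℝ => f k.1 (x k.1 * (L k.1).γ k.2 s)) 0 *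
                ∏ i ∈ Finset.univ.erase k.1, f i (x i)) := by
            refine Finset.sum_congr rfl ?_
            rintro ⟨j, k⟩ _
            have h1 : (fun s : ℝ => (fun x : ∀ j, G j => ∏ j, f j (x j))
                (x * (Curves.pi L).γ ⟨j, k⟩ s)) =
                fun s => f j (x j * (L j).γ k s) * ∏ i ∈ Finset.univ.erase j, f i (x i) := by
              funext s
              exact prod_curve f x j _
            rw [h1, iter2_mul_const]
            rfl
          rw [h0, Fintype.sum_sigma]
          have h2 : ∀ j, (∑ k, ((L j).c k : ℂ) * (iteratedDeriv 2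
                (fun s : ℝ => f j (x j * (L j).γ k s)) 0 *
                ∏ i ∈ Finset.univ.erase j, f i (x i))) =
                -((T j).cas (l j) : ℂ) * ∏ i, f i (x i) := by
            intro j
            have h3 := (hT j).eig (l j) (f j) (hf j) (x j)
            rw [Curves.lap] at h3
            simp only [← mul_assoc]
            rw [← Finset.sum_mul, h3, mul_assoc,
              Finset.mul_prod_erase Finset.univ (fun i => f i (x i)) (Finset.mem_univ j)]
          have h4 : ((TFam.pi T).cas l : ℂ) = ∑ j, ((T j).cas (l j) : ℂ) := by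
            change ((∑ j, (T j).cas (l j) : ℝ) : ℂ) = _
            rw [Complex.ofReal_sum]
          rw [Finset.sum_congr rfl fun j _ => h2 j, ← Finset.sum_mul, h4, Finset.sum_neg_distrib]
    exact key.2

end STC
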