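import Pool.Agent.STC.SpecDefs
import Pool.Agent.STC.ProdFam

/-!
# STC/SpecProd : spectral family of a product

PROOF. (a) `(T.prod U).iso (l, m)` is the span of the functions `x ↦ f x.1 * g x.2`, `f ∈ T.iso l`,
`g ∈ U.iso m`: its generators `x ↦ φ_l(a₁ x₁ b₁) φ_m(a₂ x₂ b₂)` are of this form, and conversely by
bilinearity. (b) `iso_le`: from (a). `iso_fg`: `(T.prod U).iso (l, m)` is contained in (equal to) the
product `W * W'` of the images of `T.iso l`, `U.iso m` under the linear maps `f ↦ f ∘ fst`,
`g ↦ g ∘ snd`; `Submodule.FG.map`, `Submodule.FG.mul`, `Submodule.FG.of_le`. (c) every element of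
`algProd A B` is a finite sum of products `f x.1 * g x.2` with `f ∈ A`, `g ∈ B`
(`Algebra.adjoin_induction`: the set of these sums is closed under addition and multiplication and
contains constants). `decomp`: by (c) it is enough to treat `f x.1 * g x.2`; decompose `f` and `g`
(`Submodule.iSup_induction` twice), use (a). `cont`, `smooth`: by (c): along the curve
`(γ s, 1)` the function is `s ↦ f (x.1 γ s) * g x.2` (`mul_one`). `eig`: for `F x = f x.1 * g x.2`,
`f ∈ T.iso l`, `g ∈ U.iso m`: `lap F x = (L.lap f x.1) g x.2 + f x.1 (L'.lap g x.2)`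
(`Fintype.sum_sum_type`, `iteratedDeriv` of a constant multiple) `= -(cas l + cas m) F x`; a general
element is a finite sum of such functions, and `lap` is additive on functions in `algProd A B`
(`smooth`; `iteratedDeriv_add` or `iteratedDeriv_fun_add`).
-/

open MeasureTheory
open scoped ComplexConjugate

namespace STC

variable {G H : Type} [Group G] [TopologicalSpace G] [MeasureSpace G]
  [IsProbabilityMeasure (volume : Measure G)] [Group H] [TopologicalSpace H] [MeasureSpace H]
  [IsProbabilityMeasure (volume : Measure H)] {ι κ : Type} [Fintype ι] [Fintype κ]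

/-- tensor product of functions -/
private noncomputable def tpL : (G → ℂ) →ₗ[ℂ] (H → ℂ) →ₗ[ℂ] (G × H → ℂ) :=
  LinearMap.mk₂ ℂ (fun f g x => f x.1 * g x.2)
    (fun f f' g => by funext x; exact add_mul _ _ _)
    (fun c f g => by funext x; exact mul_assoc _ _ _)
    (fun f g g' => by funext x; exact mul_add _ _ _)
    (fun c f g => by funext x; exact mul_left_comm _ _ _)

omit [Group G] [TopologicalSpace G] [MeasureSpace G] [IsProbabilityMeasure (volume : Measure G)]
  [Group H] [TopologicalSpace H] [MeasureSpace H] [IsProbabilityMeasure (volume : Measure H)] in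
private lemma tpL_apply (f : G → ℂ) (g : H → ℂ) (x : G × H) :
    tpL f g x = f x.1 * g x.2 := rfl

private lemma iso_eq (T : TFam G ι) (U : TFam H κ) (l : T.Λ) (m : U.Λ) :
    (T.prod U).iso (l, m) = Submodule.map₂ tpL (T.iso l) (U.iso m) := by
  unfold TFam.iso
  rw [Submodule.map₂_span_span]
  congr 1
  ext F
  constructor
  · rintro ⟨a, b, rfl⟩
    exact ⟨_, ⟨a.1, b.1, rfl⟩, _, ⟨a.2, b.2, rfl⟩, rfl⟩
  · rintro ⟨_, ⟨a, b, rfl⟩, _, ⟨a', b', rfl⟩, rfl⟩
    exact ⟨(a, a'), (b, b'), rfl⟩

omit [Group G] [TopologicalSpace G] [MeasureSpace G] [IsProbabilityMeasure (volume : Measure G)]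
  [Group H] [TopologicalSpace H] [MeasureSpace H] [IsProbabilityMeasure (volume : Measure H)] in
private lemma tp_mem {A : Subalgebra ℂ (G → ℂ)} {B : Subalgebra ℂ (H → ℂ)} {f : G → ℂ}
    {g : H → ℂ} (hf : f ∈ A) (hg : g ∈ B) : tpL f g ∈ algProd A B := by
  have h1 : (fun x : G × H => f x.1) ∈ algProd A B :=
    Algebra.subset_adjoin (Or.inl ⟨f, hf, rfl⟩)
  have h2 : (fun x : G × H => g x.2) ∈ algProd A B :=
    Algebra.subset_adjoin (Or.inr ⟨g, hg, rfl⟩)
  exact mul_mem h1 h2

omit [Group G] [TopologicalSpace G] [MeasureSpace G] [IsProbabilityMeasure (volume : Measure G)]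
  [Group H] [TopologicalSpace H] [MeasureSpace H] [IsProbabilityMeasure (volume : Measure H)] in
private lemma algProd_le {A : Subalgebra ℂ (G → ℂ)} {B : Subalgebra ℂ (H → ℂ)} {F : G × H → ℂ}
    (hF : F ∈ algProd A B) :
    F ∈ Submodule.map₂ tpL (Subalgebra.toSubmodule A) (Subalgebra.toSubmodule B) := by
  rw [Submodule.map₂_eq_span_image2]
  unfold algProd at hF
  induction hF using Algebra.adjoin_induction with
  | mem F hF =>
    rcases hF with ⟨f, hf, rfl⟩ | ⟨g, hg, rfl⟩
    · refine Submodule.subset_span ⟨f, hf, 1, one_mem B, ?_⟩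
      funext x
      exact mul_one _
    · refine Submodule.subset_span ⟨1, one_mem A, g, hg, ?_⟩
      funext x
      exact one_mul _
  | algebraMap r =>
    refine Submodule.subset_span ⟨algebraMap ℂ _ r, A.algebraMap_mem r, 1, one_mem B, ?_⟩
    funext x
    exact mul_one _
  | add x y _ _ hx hy => exact Submodule.add_mem _ hx hy
  | mul x y _ _ hx hy =>
    have h := Submodule.mul_mem_mul hx hy
    rw [Submodule.span_mul_span] at h
    refine Submodule.span_mono ?_ h
    rintro _ ⟨_, ⟨f, hf, g, hg, rfl⟩, _, ⟨f', hf', g', hg', rfl⟩, rfl⟩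
    refine ⟨f * f', A.mul_mem hf hf', g * g', B.mul_mem hg hg', ?_⟩
    funext x
    exact mul_mul_mul_comm _ _ _ _

omit [TopologicalSpace G] [MeasureSpace G] [IsProbabilityMeasure (volume : Measure G)]
  [TopologicalSpace H] [MeasureSpace H] [IsProbabilityMeasure (volume : Measure H)] in
private lemma lap_tp (L : Curves G) (L' : Curves H) (f : G → ℂ) (g : H → ℂ) (x : G × H) :
    (L.prod L').lap (tpL f g) x = L.lap f x.1 * g x.2 + f x.1 * L'.lap g x.2 := by
  have h0 : (L.prod L').lap (tpL f g) x = ∑ k : L.κ ⊕ L'.κ,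
      ((Sum.elim L.c L'.c k : ℝ) : ℂ) * iteratedDeriv 2 (fun s : ℝ => tpL f g
        (x * (Sum.elim (fun k s => (L.γ k s, (1 : H))) (fun k s => ((1 : G), L'.γ k s)) k :
          ℝ → G × H) s)) 0 := rfl
  rw [h0, Fintype.sum_sum_type]
  unfold Curves.lap
  rw [Finset.sum_mul, Finset.mul_sum]
  congr 1
  · refine Finset.sum_congr rfl fun k _ => ?_
    simp only [Sum.elim_inl, tpL_apply, Prod.fst_mul, Prod.snd_mul, mul_one]
    rw [iteratedDeriv_mul_const_field]
    ring
  · refine Finset.sum_congr rfl fun k _ => ?_
    simp only [Sum.elim_inr, tpL_apply, Prod.fst_mul, Prod.snd_mul, mul_one]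
    rw [iteratedDeriv_const_mul_field]
    ring

theorem SpecFam.prod {T : TFam G ι} {U : TFam H κ} {A : Subalgebra ℂ (G → ℂ)}
    {B : Subalgebra ℂ (H → ℂ)} {L : Curves G} {L' : Curves H} (hT : SpecFam T A L)
    (hU : SpecFam U B L') : SpecFam (T.prod U) (algProd A B) (L.prod L') := by
  have hle : ∀ p : (T.prod U).Λ, ∀ F ∈ (T.prod U).iso p, F ∈ algProd A B := by
    rintro ⟨l, m⟩ F hF
    rw [iso_eq] at hF
    have h1 : Submodule.map₂ tpL (T.iso l) (U.iso m) ≤ Subalgebra.toSubmodule (algProd A B) :=
      Submodule.map₂_le.2 fun f hf g hg => tp_mem (hT.iso_le l f hf) (hU.iso_le m g hg)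
    exact h1 hF
  have hsm : ∀ F ∈ algProd A B, ∀ k x,
      ContDiff ℝ 2 fun s : ℝ => F (x * (L.prod L').γ k s) := by
    intro F hF k x
    have h1 := algProd_le hF
    rw [Submodule.map₂_eq_span_image2] at h1
    clear hF
    induction h1 using Submodule.span_induction with
    | mem F hF =>
      obtain ⟨f, hf, g, hg, rfl⟩ := hF
      rcases k with k | k
      · have h2 := (hT.smooth f hf k x.1).mul (contDiff_const (c := g x.2))
        have h3 : (fun s : ℝ => tpL f g (x * (L.prod L').γ (Sum.inl k) s)) =
            fun s => f (x.1 * L.γ k s) * g x.2 := by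
          funext s
          change f (x.1 * L.γ k s) * g (x.2 * 1) = _
          rw [mul_one]
        rw [h3]
        exact h2
      · have h2 := (contDiff_const (c := f x.1)).mul (hU.smooth g hg k x.2)
        have h3 : (fun s : ℝ => tpL f g (x * (L.prod L').γ (Sum.inr k) s)) =
            fun s => f x.1 * g (x.2 * L'.γ k s) := by
          funext s
          change f (x.1 * 1) * g (x.2 * L'.γ k s) = _
          rw [mul_one]
        rw [h3]
        exact h2
    | zero => exact contDiff_const
    | add F F' _ _ h h' => exact h.add h'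
    | smul c F _ h => exact h.const_smul c
  refine ⟨hle, ?_, ?_, ?_, hsm, ?_⟩
  · rintro ⟨l, m⟩
    rw [iso_eq]
    exact Submodule.FG.map₂ _ (hT.iso_fg l) (hU.iso_fg m)
  · intro F hF
    have h1 := algProd_le hF
    have h2 : Submodule.map₂ tpL (Subalgebra.toSubmodule A) (Subalgebra.toSubmodule B) ≤
        ⨆ p, (T.prod U).iso p := by
      calc Submodule.map₂ tpL (Subalgebra.toSubmodule A) (Subalgebra.toSubmodule B)
          ≤ Submodule.map₂ tpL (⨆ l, T.iso l) (⨆ m, U.iso m) :=
            Submodule.map₂_le_map₂ (fun f hf => hT.decomp f hf) (fun g hg => hU.decomp g hg)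
        _ = ⨆ l, ⨆ m, Submodule.map₂ tpL (T.iso l) (U.iso m) := by
            rw [Submodule.map₂_iSup_left]
            simp only [Submodule.map₂_iSup_right]
        _ ≤ ⨆ p, (T.prod U).iso p := by
            refine iSup_le fun l => iSup_le fun m => ?_
            rw [← iso_eq]
            exact le_iSup (fun p => (T.prod U).iso p) (l, m)
    exact h2 h1
  · intro F hF
    have h1 := algProd_le hF
    rw [Submodule.map₂_eq_span_image2] at h1
    clear hF
    induction h1 using Submodule.span_induction with
    | mem F hF =>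
      obtain ⟨f, hf, g, hg, rfl⟩ := hF
      exact ((hT.cont f hf).comp continuous_fst).mul ((hU.cont g hg).comp continuous_snd)
    | zero => exact continuous_const
    | add F F' _ _ h h' => exact h.add h'
    | smul c F _ h => exact h.const_smul c
  · rintro ⟨l, m⟩ F hF
    have hcas : (T.prod U).cas (l, m) = T.cas l + U.cas m := rfl
    rw [iso_eq, Submodule.map₂_eq_span_image2] at hF
    have hmem : ∀ F ∈ Submodule.span ℂ (Set.image2 (fun f g => tpL f g) (T.iso l : Set (G → ℂ))
        (U.iso m : Set (H → ℂ))), F ∈ algProd A B := by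
      intro F hF
      rw [← Submodule.map₂_eq_span_image2, ← iso_eq] at hF
      exact hle (l, m) F hF
    induction hF using Submodule.span_induction with
    | mem F hF =>
      obtain ⟨f, hf, g, hg, rfl⟩ := hF
      intro x
      simp only
      rw [lap_tp, hT.eig l f hf, hU.eig m g hg, hcas, tpL_apply]
      push_cast
      ring
    | zero =>
      intro x
      unfold Curves.lap
      simp
    | add F F' hF hF' h h' =>
      intro x
      have h1 : (L.prod L').lap (F + F') x = (L.prod L').lap F x + (L.prod L').lap F' x := by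
        unfold Curves.lap
        rw [← Finset.sum_add_distrib]
        refine Finset.sum_congr rfl fun k _ => ?_
        rw [← mul_add]
        congr 1
        exact iteratedDeriv_fun_add (hsm F (hmem F hF) k x).contDiffAt
          (hsm F' (hmem F' hF') k x).contDiffAt
      rw [h1, h, h', Pi.add_apply, mul_add]
    | smul c F hF h =>
      intro x
      have h1 : (L.prod L').lap (c • F) x = c * (L.prod L').lap F x := by
        unfold Curves.lap
        rw [Finset.mul_sum]
        refine Finset.sum_congr rfl fun k _ => ?_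
        rw [mul_left_comm]
        congr 1
        exact iteratedDeriv_const_mul_field c _
      rw [h1, h, Pi.smul_apply, smul_eq_mul]
      ring
end STC
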