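import Pool.Agent.STC.StDefs
import Pool.Agent.STC.SpecMain
import Pool.Agent.STC.SpecCirc
import Pool.Agent.STC.SpecK

/-!
# STC/StEq : the definitions of the statement in terms of products of spectral families

`trig_eq`: both inclusions by `Algebra.adjoin_le`. The generators of `trig n K` are generators of
`algProd (algPi ..) (algPi ..)` of the form `F ∘ Prod.fst`, `F ∘ Prod.snd` with `F` in `algPi`.
Conversely `{F | F ∘ fst ∈ trig}` is a subalgebra (comap along an algebra homomorphism) which contains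
`f ∘ (· i)` for `f ∈ circAlg` (again comap, check on the two generators), so it contains `algPi`;
similarly for the second factor, `alg (K j) = Algebra.adjoin ℂ (gens (K j))`.
`lap_eq`: unfold, `Fintype.sum_sum_type`, `Fintype.sum_sigma`, `π (x y) = π x π y`.
-/

open MeasureTheory
open scoped ENNReal NNReal ComplexConjugate

namespace STC

variable {n m : ℕ} {N : Fin m → ℕ} {K : ∀ j, ClosedSubgroup (UG (N j))} {dim : Fin m → ℕ}
  {Q : Type} [Group Q]

/-- the curves of the metric -/
noncomputable def stCurves (α : Fin n → ℝ) (β : Fin m → ℝ)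
    (X : ∀ j, LieBasis (K j).toSubgroup (K j).isClosed' (dim j)) : Curves (GT n K) :=
  (Curves.pi fun i => circCurves (α i)).prod (Curves.pi fun j => CG.curvesK (X j) (β j))

/-- composition with a map, as an algebra homomorphism -/
private def cmap {X Y : Type} (σ : X → Y) : (Y → ℂ) →ₐ[ℂ] (X → ℂ) where
  toFun f := fun x => f (σ x)
  map_one' := rfl
  map_mul' _ _ := rfl
  map_zero' := rfl
  map_add' _ _ := rfl
  commutes' _ := rfl

theorem trig_eq (n : ℕ) (K : ∀ j, ClosedSubgroup (UG (N j))) :
    trig n K = algProd (algPi fun _ : Fin n => circAlg) (algPi fun j => CG.alg (K j)) := by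
  apply le_antisymm
  · refine Algebra.adjoin_le ?_
    rintro f (((⟨i, rfl⟩ | ⟨i, rfl⟩) | ⟨j, a, b, rfl⟩) | ⟨j, a, b, rfl⟩)
    · exact Algebra.subset_adjoin (Or.inl ⟨fun y => fourier 1 (Multiplicative.toAdd (y i)),
        Algebra.subset_adjoin ⟨i, fun y => fourier 1 (Multiplicative.toAdd y),
          Algebra.subset_adjoin (Or.inl rfl), rfl⟩, rfl⟩)
    · exact Algebra.subset_adjoin (Or.inl ⟨fun y => conj (fourier 1 (Multiplicative.toAdd (y i))),
        Algebra.subset_adjoin ⟨i, fun y => conj (fourier 1 (Multiplicative.toAdd y)),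
          Algebra.subset_adjoin (Or.inr rfl), rfl⟩, rfl⟩)
    · exact Algebra.subset_adjoin (Or.inr ⟨fun y => (y j).mat a b,
        Algebra.subset_adjoin ⟨j, CG.ent (K j) a b, CG.ent_mem a b, rfl⟩, rfl⟩)
    · exact Algebra.subset_adjoin (Or.inr ⟨fun y => conj ((y j).mat a b),
        Algebra.subset_adjoin ⟨j, CG.entc (K j) a b, CG.entc_mem a b, rfl⟩, rfl⟩)
  · refine Algebra.adjoin_le ?_
    rintro F (⟨f, hf, rfl⟩ | ⟨f, hf, rfl⟩)
    · have h1 : (algPi fun _ : Fin n => circAlg) ≤
          (trig n K).comap (cmap (Prod.fst : GT n K → (Fin n → Circ))) := by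
        refine Algebra.adjoin_le ?_
        rintro F ⟨i, g, hg, rfl⟩
        have h2 : circAlg ≤ (trig n K).comap (cmap (fun x : GT n K => x.1 i)) := by
          refine Algebra.adjoin_le ?_
          rintro g (hg | hg)
          · rw [Set.mem_singleton_iff] at hg
            rw [hg]
            exact Algebra.subset_adjoin (Or.inl (Or.inl (Or.inl ⟨i, rfl⟩)))
          · rw [Set.mem_singleton_iff] at hg
            rw [hg]
            exact Algebra.subset_adjoin (Or.inl (Or.inl (Or.inr ⟨i, rfl⟩)))
        exact h2 hg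
      exact h1 hf
    · have h1 : (algPi fun j => CG.alg (K j)) ≤
          (trig n K).comap (cmap (Prod.snd : GT n K → (∀ j, CG (K j)))) := by
        refine Algebra.adjoin_le ?_
        rintro F ⟨j, g, hg, rfl⟩
        have h2 : CG.alg (K j) ≤ (trig n K).comap (cmap (fun x : GT n K => x.2 j)) := by
          refine Algebra.adjoin_le ?_
          rintro g ⟨a, b, rfl | rfl⟩
          · exact Algebra.subset_adjoin (Or.inl (Or.inr ⟨j, a, b, rfl⟩))
          · exact Algebra.subset_adjoin (Or.inr ⟨j, a, b, rfl⟩)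
        exact h2 hg
      exact h1 hf

private theorem lap_prod' {G H : Type} [Group G] [Group H] (L : Curves G) (L' : Curves H)
    (F : G × H → ℂ) (x : G × H) : (L.prod L').lap F x =
      ∑ k, (L.c k : ℂ) * iteratedDeriv 2 (fun s : ℝ => F (x * (L.γ k s, 1))) 0 +
        ∑ k, (L'.c k : ℂ) * iteratedDeriv 2 (fun s : ℝ => F (x * (1, L'.γ k s))) 0 := by
  unfold Curves.lap
  exact Fintype.sum_sum_type (α₁ := L.κ) (α₂ := L'.κ) _

private theorem sum_pi' {J : Type} [Fintype J] [DecidableEq J] {G : J → Type} [∀ j, Group (G j)]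
    (L : ∀ j, Curves (G j)) (Φ : (Curves.pi L).κ → ℂ) :
    ∑ k, Φ k = ∑ j, ∑ k, Φ ⟨j, k⟩ :=
  Fintype.sum_sigma (α := fun j => (L j).κ) Φ

theorem lap_eq (π : GT n K →* Q) (α : Fin n → ℝ) (β : Fin m → ℝ)
    (X : ∀ j, LieBasis (K j).toSubgroup (K j).isClosed' (dim j)) (f : Q → ℂ) (x : GT n K) :
    lap π α β X f (π x) = (stCurves α β X).lap (fun y => f (π y)) x := by
  unfold stCurves
  rw [lap_prod', sum_pi', sum_pi']
  unfold lap
  congr 1
  · refine Finset.sum_congr rfl fun i _ => ?_
    have h1 : ∀ Ψ : Unit → ℂ, ∑ k, Ψ k = Ψ () := fun Ψ => by simp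
    refine Eq.trans ?_ (h1 _).symm
    simp only [← map_mul]
    rfl
  · refine Finset.sum_congr rfl fun j _ => ?_
    rw [Finset.mul_sum]
    simp only [← map_mul]
    rfl

theorem eigFun_eq (π : GT n K →* Q) (hs : Function.Surjective π) (α : Fin n → ℝ) (β : Fin m → ℝ)
    (X : ∀ j, LieBasis (K j).toSubgroup (K j).isClosed' (dim j)) (lam : ℝ) :
    eigFun π α β X lam = eigQ π (trig n K) (stCurves α β X) lam := by
  ext f
  unfold eigFun eigQ
  simp only [Set.mem_ofPred_eq]
  refine and_congr_right fun _ => ?_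
  constructor
  · intro h y
    rw [← lap_eq]
    exact h (π y)
  · intro h x
    obtain ⟨y, rfl⟩ := hs x
    rw [lap_eq]
    exact h y

private theorem trig_cont {f : GT n K → ℂ} (hf : f ∈ trig n K) : Continuous f := by
  refine Algebra.adjoin_induction (p := fun f _ => Continuous f) ?_ ?_ ?_ ?_ hf
  · rintro f (((⟨i, rfl⟩ | ⟨i, rfl⟩) | ⟨j, a, b, rfl⟩) | ⟨j, a, b, rfl⟩)
    · exact (fourier 1).continuous.comp
        (continuous_toAdd.comp ((continuous_apply i).comp continuous_fst))
    · exact Complex.continuous_conj.comp ((fourier 1).continuous.comp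
        (continuous_toAdd.comp ((continuous_apply i).comp continuous_fst)))
    · exact (CG.alg_cont _ (CG.ent_mem a b)).comp ((continuous_apply j).comp continuous_snd)
    · exact (CG.alg_cont _ (CG.entc_mem a b)).comp ((continuous_apply j).comp continuous_snd)
  · intro r
    exact continuous_const
  · intro f g _ _ h1 h2
    exact h1.add h2
  · intro f g _ _ h1 h2
    exact h1.mul h2

private theorem trig_conj {f : GT n K → ℂ} (hf : f ∈ trig n K) :
    (fun z => conj (f z)) ∈ trig n K := by
  refine Algebra.adjoin_induction (p := fun f _ => (fun z => conj (f z)) ∈ trig n K)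
    ?_ ?_ ?_ ?_ hf
  · rintro f (((⟨i, rfl⟩ | ⟨i, rfl⟩) | ⟨j, a, b, rfl⟩) | ⟨j, a, b, rfl⟩)
    · exact Algebra.subset_adjoin (Or.inl (Or.inl (Or.inr ⟨i, rfl⟩)))
    · refine Algebra.subset_adjoin (Or.inl (Or.inl (Or.inl ⟨i, ?_⟩)))
      funext x
      exact Complex.conj_conj _
    · exact Algebra.subset_adjoin (Or.inr ⟨j, a, b, rfl⟩)
    · refine Algebra.subset_adjoin (Or.inl (Or.inr ⟨j, a, b, ?_⟩))
      funext x
      exact Complex.conj_conj _
  · intro r
    exact (trig n K).algebraMap_mem (conj r)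
  · intro f g _ _ h1 h2
    have := (trig n K).add_mem h1 h2
    have e : (fun z => conj ((f + g) z)) = (fun z => conj (f z)) + fun z => conj (g z) := by
      funext z
      simp
    rw [e]
    exact this
  · intro f g _ _ h1 h2
    have := (trig n K).mul_mem h1 h2
    have e : (fun z => conj ((f * g) z)) = (fun z => conj (f z)) * fun z => conj (g z) := by
      funext z
      simp
    rw [e]
    exact this

private theorem fourier_one_inj {x y : UnitAddCircle} (h : (fourier 1 x : ℂ) = fourier 1 y) :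
    x = y := by
  rw [fourier_one, fourier_one] at h
  exact AddCircle.injective_toCircle one_ne_zero (Circle.coe_injective h)

/-- trigonometric polynomials are dense: `alg_dense` for the factors and Stone-Weierstrass
(`trig n K` is closed under conjugation and separates the points of `GT n K`) -/
theorem trig_dense (f : GT n K → ℂ) (hf : Continuous f) (ε : ℝ) (hε : 0 < ε) :
    ∃ g ∈ trig n K, ∀ z, ‖f z - g z‖ < ε := by
  let S : StarSubalgebra ℂ C(GT n K, ℂ) :=
    { carrier := {g | (g : GT n K → ℂ) ∈ trig n K}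
      mul_mem' := fun {a b} ha hb => (trig n K).mul_mem ha hb
      add_mem' := fun {a b} ha hb => (trig n K).add_mem ha hb
      algebraMap_mem' := fun r => (trig n K).algebraMap_mem r
      star_mem' := fun {a} ha => trig_conj ha }
  have hsep : S.SeparatesPoints := by
    intro x y hxy
    by_cases h1 : x.1 = y.1
    · have h2 : x.2 ≠ y.2 := fun h => hxy (Prod.ext h1 h)
      obtain ⟨j, hj⟩ := Function.ne_iff.1 h2
      have : (x.2 j).mat ≠ (y.2 j).mat := fun h => hj (CG.mat_injective h)
      obtain ⟨a, b, hab⟩ : ∃ a b, (x.2 j).mat a b ≠ (y.2 j).mat a b := by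
        by_contra hcon
        push Not at hcon
        exact this (Matrix.ext hcon)
      have h3 : (fun z : GT n K => (z.2 j).mat a b) ∈ trig n K :=
        Algebra.subset_adjoin (Or.inl (Or.inr ⟨j, a, b, rfl⟩))
      exact ⟨_, ⟨⟨_, trig_cont h3⟩, h3, rfl⟩, hab⟩
    · obtain ⟨i, hi⟩ := Function.ne_iff.1 h1
      have h3 : (fun z : GT n K => (fourier 1 (Multiplicative.toAdd (z.1 i)) : ℂ)) ∈ trig n K :=
        Algebra.subset_adjoin (Or.inl (Or.inl (Or.inl ⟨i, rfl⟩)))
      exact ⟨_, ⟨⟨_, trig_cont h3⟩, h3, rfl⟩, fun h => hi (fourier_one_inj h)⟩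
  have htop := ContinuousMap.starSubalgebra_topologicalClosure_eq_top_of_separatesPoints S hsep
  have hmem : (⟨f, hf⟩ : C(GT n K, ℂ)) ∈ S.topologicalClosure := by rw [htop]; trivial
  have hcl : (⟨f, hf⟩ : C(GT n K, ℂ)) ∈ closure (S : Set C(GT n K, ℂ)) := hmem
  obtain ⟨g, hg, hd⟩ := Metric.mem_closure_iff.1 hcl ε hε
  refine ⟨g, hg, fun z => ?_⟩
  have := (ContinuousMap.dist_lt_iff hε).1 hd z
  rwa [dist_eq_norm] at this

end STC
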