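import Pool.Agent.STC.TRmain
import Pool.Agent.STC.SpecIso

/-!
# STC/StFin : the estimate for finite sums on an arbitrary interval

PROOF. `fin_interval`: as `STZ/Interval` (copy that proof) from `strichartz_fin` with `T0 = b - a`:
translate the time by `a`, replacing `f l` by `e^{-i a cas l} f l`; `iso_mem` gives `T.rk.Mem`.
`cas_finite`: by `coercive` `size l` is bounded on `{l | cas l = lam}`, and `w` is injective
(`T.w_inj`); finitely many integer vectors with entries bounded by `size`.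
-/

open MeasureTheory Complex
open scoped ComplexConjugate

namespace STC

variable {G : Type} [Group G] [TopologicalSpace G] [IsTopologicalGroup G] [CompactSpace G] [T2Space G]
  [SecondCountableTopology G] [MeasureSpace G] [BorelSpace G]
  [Measure.IsHaarMeasure (volume : Measure G)] [IsProbabilityMeasure (volume : Measure G)]
  {ι : Type} [Fintype ι] (T : TFam G ι)

omit [IsTopologicalGroup G] [CompactSpace G] [T2Space G] [SecondCountableTopology G] [BorelSpace G]
  [Measure.IsHaarMeasure (volume : Measure G)] [IsProbabilityMeasure (volume : Measure G)] in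
theorem cas_finite (lam : ℝ) : {l | T.cas l = lam}.Finite := by
  obtain ⟨c, hc, h⟩ := coercive T
  obtain ⟨B, hB⟩ := exists_nat_ge (((1 + lam) / c) : ℝ)
  have h1 : ∀ l, T.cas l = lam → T.size l ≤ B := by
    intro l hl
    have h2 := h l
    rw [hl] at h2
    have h3 : (T.size l : ℝ) ≤ (1 + (T.size l : ℝ)) ^ 2 := by nlinarith [Nat.cast_nonneg (α := ℝ) (T.size l)]
    have h4 : (1 + (T.size l : ℝ)) ^ 2 ≤ (1 + lam) / c := by
      rw [le_div_iff₀ hc]; linarith
    have h5 : (T.size l : ℝ) ≤ B := by linarith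
    exact_mod_cast h5
  have h2 : (T.w '' {l | T.cas l = lam}).Finite := by
    refine Set.Finite.subset (Set.Finite.pi (t := fun _ : ι => Set.Icc (-(B : ℤ)) B)
      (fun _ => Set.finite_Icc _ _)) ?_
    rintro _ ⟨l, hl, rfl⟩
    rw [Set.mem_pi]
    intro k _
    have h3 : (T.w l k).natAbs ≤ T.size l :=
      Finset.le_sup (f := fun k => (T.w l k).natAbs) (Finset.mem_univ k)
    have h4 := h1 l hl
    rw [Set.mem_Icc]
    omega
  exact Set.Finite.of_finite_image h2 (T.w_inj.injOn)

theorem fin_interval [Nonempty ι] {M : ℕ} (A : KernFam T M)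
    (hR : ∀ q : ℝ, 2 + 4 / (Fintype.card ι : ℝ) < q → RectStr (Fintype.card ι) q)
    {p : ℝ} (hp : 2 + 4 / (Fintype.card ι : ℝ) < p) (a b : ℝ) (hab : a < b) :
    ∃ C : ℝ, 0 < C ∧ ∀ (F : Finset T.Λ) (f : T.Λ → G → ℂ), (∀ l ∈ F, f l ∈ T.iso l) →
      ∫ t in a..b, ∫ x, ‖∑ l ∈ F, cexp (-((t * T.cas l : ℝ) : ℂ) * I) * f l x‖ ^ p ≤
        C * (∑ l ∈ F, (1 + T.cas l) ^ (((Fintype.card ι + 2 * M : ℕ) : ℝ) / 2 -
          (((Fintype.card ι + 2 * M : ℕ) : ℝ) + 2) / p) * ∫ x, ‖f l x‖ ^ 2) ^ (p / 2) := by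
  classical
  obtain ⟨C, hC, hmain⟩ := strichartz_fin T A hR hp (b - a) (by linarith)
  have hp0 : 0 < p := by
    have : 0 ≤ 4 / (Fintype.card ι : ℝ) := by positivity
    linarith
  refine ⟨C, hC, fun F f hf => ?_⟩
  -- translate the time by `a`
  set f' : T.Λ → G → ℂ := fun l x => cexp (-((a * T.cas l : ℝ) : ℂ) * I) * f l x with hf'
  have hphase : ∀ (t : ℝ) (l : T.Λ), ‖cexp (-((t * T.cas l : ℝ) : ℂ) * I)‖ = 1 := by
    intro t l
    rw [show -((t * T.cas l : ℝ) : ℂ) * I = ((-(t * T.cas l) : ℝ) : ℂ) * I by push_cast; ring]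
    exact Complex.norm_exp_ofReal_mul_I _
  have hf'mem : ∀ l ∈ F, f' l ∈ T.iso l := by
    intro l hl
    have : f' l = cexp (-((a * T.cas l : ℝ) : ℂ) * I) • f l := by
      ext x; simp [hf']
    rw [this]
    exact (T.iso l).smul_mem _ (hf l hl)
  have h1 := hmain F f' fun l hl => iso_mem T l _ (hf'mem l hl)
  have hcont : ∀ l ∈ F, Continuous (f l) := fun l hl => (iso_mem T l (f l) (hf l hl)).1
  have hcont' : ∀ l ∈ F, Continuous (f' l) := fun l hl => (iso_mem T l (f' l) (hf'mem l hl)).1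
  have hnorm : ∀ l, ∫ x, ‖f' l x‖ ^ 2 = ∫ x, ‖f l x‖ ^ 2 := by
    intro l
    simp only [hf', norm_mul, hphase, one_mul]
  simp only [hnorm] at h1
  refine le_trans (le_of_eq ?_) h1
  -- the function
  have hev : ∀ s x, STZ.evol T.cas F f' s x =
      ∑ l ∈ F, cexp (-(((s + a) * T.cas l : ℝ) : ℂ) * I) * f l x := by
    intro s x
    unfold STZ.evol
    refine Finset.sum_congr rfl fun l _ => ?_
    simp only [hf']
    rw [← mul_assoc, ← Complex.exp_add]
    congr 2
    push_cast; ring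
  have hUcont : Continuous fun q : ℝ × G => ‖STZ.evol T.cas F f' q.1 q.2‖ ^ p := by
    refine Continuous.rpow_const ?_ fun _ => Or.inr hp0.le
    refine Continuous.norm ?_
    unfold STZ.evol
    refine continuous_finsetSum _ fun l hl => ?_
    refine Continuous.mul ?_ ((hcont' l hl).comp continuous_snd)
    fun_prop
  have hint : Integrable (fun q : ℝ × G => ‖STZ.evol T.cas F f' q.1 q.2‖ ^ p)
      (STZ.stm G (b - a)) := by
    have h2 : IntegrableOn (fun q : ℝ × G => ‖STZ.evol T.cas F f' q.1 q.2‖ ^ p)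
        (Set.Icc (0 : ℝ) (b - a) ×ˢ Set.univ) ((volume : Measure ℝ).prod volume) :=
      hUcont.continuousOn.integrableOn_compact (isCompact_Icc.prod isCompact_univ)
    have h3 : STZ.stm G (b - a) = ((volume : Measure ℝ).prod (volume : Measure G)).restrict
        (Set.Icc (0 : ℝ) (b - a) ×ˢ Set.univ) := by
      unfold STZ.stm
      rw [← Measure.prod_restrict, Measure.restrict_univ]
    rw [h3]
    exact h2
  have e1 : ∫ q, ‖STZ.evol T.cas F f' q.1 q.2‖ ^ p ∂(STZ.stm G (b - a)) =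
      ∫ s in (0 : ℝ)..(b - a), ∫ x, ‖STZ.evol T.cas F f' s x‖ ^ p := by
    rw [intervalIntegral.integral_of_le (by linarith), ← integral_Icc_eq_integral_Ioc]
    exact integral_prod _ hint
  rw [e1]
  have e2 := intervalIntegral.integral_comp_add_right (a := (0 : ℝ)) (b := b - a)
    (fun t => ∫ x : G, ‖∑ l ∈ F, cexp (-((t * T.cas l : ℝ) : ℂ) * I) * f l x‖ ^ p) a
  rw [zero_add, sub_add_cancel] at e2
  rw [← e2]
  simp only [hev]

end STC
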