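import Pool.Agent.STC.StEq
import Pool.Agent.STC.StFin
import Pool.Agent.STC.SpecDense
import Pool.Agent.STC.SpecProd
import Pool.Agent.STC.SpecPi
import Pool.Agent.STC.ProdKern
import Pool.Agent.STC.PiKern
import Pool.Agent.STC.HWKern
import Pool.Agent.STC.CircHaar
import Pool.Agent.STC.RankEq

/-!
# STC/StMain : final assembly, from the torus estimate `RectStr` to the statement of the hand-in
-/

open MeasureTheory Complex
open scoped ENNReal NNReal ComplexConjugate

namespace STC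

instance instHaarGT (n : ℕ) {m : ℕ} {N : Fin m → ℕ} (K : ∀ j, ClosedSubgroup (UG (N j))) :
    Measure.IsHaarMeasure (volume : Measure (GT n K)) :=
  Measure.prod.instIsHaarMeasure (volume : Measure (Fin n → Circ))
    (volume : Measure (∀ j, CG (K j)))

variable {n m : ℕ} {N : Fin m → ℕ} {K : ∀ j, ClosedSubgroup (UG (N j))} {dim : Fin m → ℕ}
  {Q : Type} [Group Q] [TopologicalSpace Q] [IsTopologicalGroup Q] [CompactSpace Q] [T2Space Q]
  [SecondCountableTopology Q] [MeasureSpace Q] [BorelSpace Q]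
  [Measure.IsHaarMeasure (volume : Measure Q)] [IsProbabilityMeasure (volume : Measure Q)]

theorem eigL2_eq (π : GT n K →* Q) (hs : Function.Surjective π) (α : Fin n → ℝ) (β : Fin m → ℝ)
    (X : ∀ j, LieBasis (K j).toSubgroup (K j).isClosed' (dim j)) (lam : ℝ) :
    eigL2 π α β X lam = eigE π (trig n K) (stCurves α β X) lam := by
  unfold eigL2 eigE
  rw [eigFun_eq π hs]

theorem proj_eq (π : GT n K →* Q) (hs : Function.Surjective π) (α : Fin n → ℝ) (β : Fin m → ℝ)
    (X : ∀ j, LieBasis (K j).toSubgroup (K j).isClosed' (dim j)) (lam : ℝ)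
    (f : Lp ℂ 2 (volume : Measure Q)) :
    (eigL2 π α β X lam).starProjection f =
      (eigE π (trig n K) (stCurves α β X) lam).starProjection f := by
  have key : ∀ (S T : Submodule ℂ (Lp ℂ 2 (volume : Measure Q))) (hS : S.HasOrthogonalProjection)
      (hT : T.HasOrthogonalProjection), S = T →
      @Submodule.starProjection ℂ (Lp ℂ 2 (volume : Measure Q)) _ _ _ S hS f =
        @Submodule.starProjection ℂ (Lp ℂ 2 (volume : Measure Q)) _ _ _ T hT f := by
    intro S T _ _ hST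
    subst hST
    rfl
  exact key _ _ _ _ (eigL2_eq π hs α β X lam)

/-- spectral family and kernel family of `GT n K` -/
theorem exists_family (hconn : ∀ j, IsPreconnected ((K j).toSubgroup : Set (UG (N j))))
    (X : ∀ j, LieBasis (K j).toSubgroup (K j).isClosed' (dim j))
    (α : Fin n → ℝ) (β : Fin m → ℝ) (hα : ∀ i, 0 < α i) (hβ : ∀ j, 0 < β j) :
    ∃ (ι : Type) (_ : Fintype ι) (M : ℕ) (T : TFam (GT n K) ι),
      Fintype.card ι = n + ∑ j, rank (K j) ∧ Fintype.card ι + 2 * M = n + ∑ j, dim j ∧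
        SpecFam T (trig n K) (stCurves α β X) ∧ Nonempty (KernFam T M) := by
  classical
  choose r M hP hmax using fun j => RootDec.exists_max (X j).sc
  have P := fun j => (hP j).some
  have hQ : ∀ j, Nonempty (Simple (P j)) := fun j => by
    obtain ⟨sim, coef, h1, h2, h3⟩ := (P j).exists_simple
    exact ⟨⟨sim, coef, h1, h2, h3⟩⟩
  have Q' := fun j => (hQ j).some
  have hrank : ∀ j, rank (K j) = r j := fun j => rank_eq (X j) (P j) (hmax j)
  let T1 : TFam (Fin n → Circ) (Σ _ : Fin n, Unit) := TFam.pi fun i => TFam.circ (α i) (hα i)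
  let T2 : TFam (∀ j, CG (K j)) (Σ j, Fin (r j)) :=
    TFam.pi fun j => (CG.lgd (X j) (Q' j) (hconn j)).fam (β j) (hβ j)
  have hS1 : SpecFam T1 (algPi fun _ : Fin n => circAlg) (Curves.pi fun i => circCurves (α i)) :=
    SpecFam.pi fun i => specFam_circ (α i) (hα i)
  have hS2 : SpecFam T2 (algPi fun j => CG.alg (K j)) (Curves.pi fun j => CG.curvesK (X j) (β j)) :=
    SpecFam.pi fun j => CG.specFam_K (X j) (Q' j) (hconn j) (β j) (hβ j)
  obtain ⟨A1⟩ : Nonempty (KernFam T1 (∑ _ : Fin n, (0 : ℝ))) :=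
    KernFam.pi fun i => (KernFam.circ (α i) (hα i)).some
  obtain ⟨A2⟩ : Nonempty (KernFam T2 (∑ j, (M j : ℝ))) :=
    KernFam.pi fun j => ((CG.lgd (X j) (Q' j) (hconn j)).exists_kern (β j) (hβ j)).some
  obtain ⟨A⟩ := KernFam.prod A1 A2
  refine ⟨(Σ _ : Fin n, Unit) ⊕ (Σ j, Fin (r j)), inferInstance, ∑ j, M j, T1.prod T2,
    ?_, ?_, ?_, ?_⟩
  · simp [hrank]
  · have h1 : ∀ j, r j + 2 * M j = dim j := fun j => (P j).dim
    have h2 : ∑ j, dim j = ∑ j, r j + 2 * ∑ j, M j := by
      rw [Finset.mul_sum, ← Finset.sum_add_distrib]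
      exact Finset.sum_congr rfl fun j _ => (h1 j).symm
    simp only [Fintype.card_sum, Fintype.card_sigma, Fintype.card_fin, Fintype.card_unit,
      Finset.sum_const, Finset.card_univ, smul_eq_mul, mul_one]
    omega
  · rw [trig_eq]
    exact hS1.prod hS2
  · have h3 : (∑ _ : Fin n, (0 : ℝ)) + ∑ j, (M j : ℝ) = ((∑ j, M j : ℕ) : ℝ) := by
      push_cast
      simp
    rw [← h3]
    exact ⟨A⟩

/-- The scale-invariant Strichartz estimate, from the estimate on rectangular tori. -/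
theorem strichartz_main
    (hR : ∀ (r : ℕ) (q : ℝ), 0 < r → 2 + 4 / (r : ℝ) < q → RectStr r q)
    (hconn : ∀ j, IsConnected ((K j).toSubgroup : Set (UG (N j))))
    (X : ∀ j, LieBasis (K j).toSubgroup (K j).isClosed' (dim j))
    (π : GT n K →* Q) (hπ : Continuous π) (hs : Function.Surjective π)
    (α : Fin n → ℝ) (β : Fin m → ℝ) (hα : ∀ i, 0 < α i) (hβ : ∀ j, 0 < β j)
    (a b : ℝ) (hab : a < b) (r d : ℕ) (hr : r = n + ∑ j, rank (K j)) (hr0 : 0 < r)
    (hd : d = n + ∑ j, dim j) (p : ℝ) (hp : 2 + 4 / (r : ℝ) < p) :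
    ∃ C : ℝ≥0, ∀ f : Lp ℂ 2 (volume : Measure Q),
      ∫⁻ t in Set.Icc a b, (eLpNorm (eitD π α β X t f) (ENNReal.ofReal p) volume) ^ p ≤
        C * (sobSq π α β X ((d : ℝ) / 2 - ((d : ℝ) + 2) / p) f) ^ (p / 2) := by
  classical
  obtain ⟨ι, _, M, T, h1, h2, hS, ⟨A⟩⟩ :=
    exists_family (fun j => (hconn j).isPreconnected) X α β hα hβ
  have hcard : Fintype.card ι = r := by rw [h1, hr]
  have hdim : Fintype.card ι + 2 * M = d := by rw [h2, hd]
  haveI : Nonempty ι := Fintype.card_pos_iff.1 (by omega)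
  have hp0 : 0 < p := by
    have : 0 ≤ 4 / (r : ℝ) := by positivity
    linarith
  obtain ⟨C, hC, hfin⟩ := fin_interval T A (p := p)
    (fun q hq => by rw [hcard] at hq ⊢; exact hR r q hr0 hq) (by rw [hcard]; exact hp) a b hab
  rw [hdim] at hfin
  refine ⟨C.toNNReal, fun f => ?_⟩
  have h := spec_full T hS (cas_finite T) π hπ hs ((d : ℝ) / 2 - ((d : ℝ) + 2) / p) p a b C hp0
    hab hC hfin f
  unfold eitD sobSq
  simp only [proj_eq π hs]
  exact h

/-- the eigenfunctions are complete -/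
theorem eigL2_dense
    (hconn : ∀ j, IsConnected ((K j).toSubgroup : Set (UG (N j))))
    (X : ∀ j, LieBasis (K j).toSubgroup (K j).isClosed' (dim j))
    (π : GT n K →* Q) (hπ : Continuous π) (hs : Function.Surjective π) (hker : Finite π.ker)
    (α : Fin n → ℝ) (β : Fin m → ℝ) (hα : ∀ i, 0 < α i) (hβ : ∀ j, 0 < β j) :
    (⨆ lam : ℝ, eigL2 π α β X lam).topologicalClosure = ⊤ := by
  obtain ⟨ι, _, M, T, h1, h2, hS, -⟩ :=
    exists_family (fun j => (hconn j).isPreconnected) X α β hα hβ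
  simp only [eigL2_eq π hs]
  exact spec_dense T hS trig_dense π hπ hs hker

/-- eigenspaces of different eigenvalues are orthogonal -/
theorem eigL2_orth
    (hconn : ∀ j, IsConnected ((K j).toSubgroup : Set (UG (N j))))
    (X : ∀ j, LieBasis (K j).toSubgroup (K j).isClosed' (dim j))
    (π : GT n K →* Q) (hπ : Continuous π) (hs : Function.Surjective π)
    (α : Fin n → ℝ) (β : Fin m → ℝ) (hα : ∀ i, 0 < α i) (hβ : ∀ j, 0 < β j) (lam mu : ℝ)
    (hne : lam ≠ mu) : eigL2 π α β X lam ⟂ eigL2 π α β X mu := by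
  obtain ⟨ι, _, M, T, h1, h2, hS, -⟩ :=
    exists_family (fun j => (hconn j).isPreconnected) X α β hα hβ
  rw [Submodule.isOrtho_iff_inner_eq, eigL2_eq π hs, eigL2_eq π hs]
  exact fun u hu v hv => eigE_orth T hS (cas_finite T) π hπ hs hne u hu v hv

/-- the eigenvalues of minus the Laplace operator are nonnegative -/
theorem eigL2_nonneg
    (hconn : ∀ j, IsConnected ((K j).toSubgroup : Set (UG (N j))))
    (X : ∀ j, LieBasis (K j).toSubgroup (K j).isClosed' (dim j))
    (π : GT n K →* Q) (hπ : Continuous π) (hs : Function.Surjective π)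
    (α : Fin n → ℝ) (β : Fin m → ℝ) (hα : ∀ i, 0 < α i) (hβ : ∀ j, 0 < β j) (lam : ℝ)
    (hne : eigL2 π α β X lam ≠ ⊥) : 0 ≤ lam := by
  obtain ⟨ι, _, M, T, h1, h2, hS, -⟩ :=
    exists_family (fun j => (hconn j).isPreconnected) X α β hα hβ
  rw [eigL2_eq π hs] at hne
  exact eigE_nonneg T hS (cas_finite T) π hπ hs hne

end STC
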