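import Pool.Agent.STC.StMain

/-!
# STC/StResult : the statement of the hand-in, from the estimate on rectangular tori
-/

open MeasureTheory
open scoped ENNReal NNReal

namespace STC

theorem final_of_rect
    (hR : ∀ (r : ℕ) (q : ℝ), 0 < r → 2 + 4 / (r : ℝ) < q → RectStr r q)
    {n m : ℕ} {N : Fin m → ℕ} (K : ∀ j, ClosedSubgroup (UG (N j)))
    (hconn : ∀ j, IsConnected ((K j).toSubgroup : Set (UG (N j))))
    (hcl : ∀ j, Centreless (K j).toSubgroup) :
    (∀ j, ∃ k, Nonempty (LieBasis (K j).toSubgroup (K j).isClosed' k)) ∧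
    ∀ (dim : Fin m → ℕ) (X : ∀ j, LieBasis (K j).toSubgroup (K j).isClosed' (dim j))
      (Q : Type) [Group Q] [TopologicalSpace Q] [IsTopologicalGroup Q] [CompactSpace Q] [T2Space Q]
      [MeasureSpace Q] [BorelSpace Q] [Measure.IsHaarMeasure (volume : Measure Q)]
      [IsProbabilityMeasure (volume : Measure Q)]
      (π : GT n K →* Q), Continuous π → Function.Surjective π → Finite π.ker →
    ∀ (α : Fin n → ℝ) (β : Fin m → ℝ), (∀ i, 0 < α i) → (∀ j, 0 < β j) →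
      (⨆ lam : ℝ, eigL2 π α β X lam).topologicalClosure = ⊤ ∧
      (∀ lam mu : ℝ, lam ≠ mu → eigL2 π α β X lam ⟂ eigL2 π α β X mu) ∧
      (∀ lam : ℝ, eigL2 π α β X lam ≠ ⊥ → 0 ≤ lam) ∧
      ∀ r d : ℕ, r = n + ∑ j, rank (K j) → d = n + ∑ j, dim j → 0 < r →
      ∀ p : ℝ, 2 + 4 / (r : ℝ) < p → ∀ a b : ℝ, a < b →
      ∃ C : ℝ≥0, ∀ f : Lp ℂ 2 (volume : Measure Q),
        (∫⁻ t in Set.Icc a b, (eLpNorm (eitD π α β X t f) (ENNReal.ofReal p) volume) ^ p) ^
            (1 / p) ≤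
          C * (sobSq π α β X ((d : ℝ) / 2 - ((d : ℝ) + 2) / p) f) ^ (1 / 2 : ℝ) := by
  refine ⟨fun j => LieBasis.exists (K j).isClosed' (hcl j), ?_⟩
  intro dim X Q _ _ _ _ _ _ _ _ _ π hπ hs hker α β hα hβ
  have hopen : IsOpenMap π := MonoidHom.isOpenMap_of_sigmaCompact π hs hπ
  haveI : SecondCountableTopology Q :=
    (hπ.isClosedMap.isQuotientMap hπ hs).secondCountableTopology hopen
  refine ⟨eigL2_dense hconn X π hπ hs hker α β hα hβ,
    fun lam mu hne => eigL2_orth hconn X π hπ hs α β hα hβ lam mu hne,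
    fun lam hne => eigL2_nonneg hconn X π hπ hs α β hα hβ lam hne, ?_⟩
  intro r d hr hd hr0 p hp a b hab
  obtain ⟨C, hC⟩ := strichartz_main hR hconn X π hπ hs α β hα hβ a b hab r d hr hr0 hd p hp
  have hp0 : 0 < p := by
    have : 0 ≤ 4 / (r : ℝ) := by positivity
    linarith
  have e : (p / 2) * (1 / p) = (1 / 2 : ℝ) := by field_simp
  refine ⟨C ^ (1 / p), fun f => ?_⟩
  refine (ENNReal.rpow_le_rpow (hC f) (by positivity : (0 : ℝ) ≤ 1 / p)).trans (le_of_eq ?_)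
  rw [ENNReal.mul_rpow_of_nonneg _ _ (by positivity : (0 : ℝ) ≤ 1 / p), ← ENNReal.rpow_mul, e,
    ENNReal.coe_rpow_of_nonneg _ (by positivity : (0 : ℝ) ≤ 1 / p)]

end STC
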