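import Mathlib

/-!
# STC/TRhol: two Hölder inequalities

PROOF. `hol3`: Hölder with the three functions `‖Φ‖` (exponent `q`), `‖H‖^{1-2/q}` (exponent `q/(q-2)`),
`‖H‖^{2/q}` (exponent `q`), `1/q + (q-2)/q + 1/q = 1`; e.g. two applications of
`integral_mul_le_Lp_mul_Lq_of_nonneg`, or `ENNReal.lintegral_prod_norm_pow_le`.
`hol2`: probability measure, `1/2 + 1/q ≤ 1`: Hölder for `X^{1/2}` (exponent `2`) and `Y^{1/q}`
(exponent `2`), then `∫ Y^{2/q} ≤ (∫ Y)^{2/q}` (Jensen, `2/q ≤ 1`). All functions are bounded and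
measurable, so everything is integrable.
-/

open MeasureTheory

namespace STC

private lemma memLp_bdd {Ω : Type*} [MeasurableSpace Ω] (μ : Measure Ω) [IsFiniteMeasure μ]
    {F : Ω → ℝ} (hF : Measurable F) (hF0 : ∀ x, 0 ≤ F x) {B : ℝ} (hB : ∀ x, F x ≤ B)
    (p : ENNReal) : MemLp F p μ := by
  refine MemLp.of_bound hF.aestronglyMeasurable B (Filter.Eventually.of_forall fun x => ?_)
  rw [Real.norm_eq_abs, abs_of_nonneg (hF0 x)]
  exact hB x

/-- Interpolation: `∫ H^(1+b) ≤ (∫ H)^(1-b) (∫ H^2)^b`, `0 < b < 1`. -/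
private lemma interp {Ω : Type*} [MeasurableSpace Ω] (μ : Measure Ω) [IsFiniteMeasure μ] {b : ℝ}
    (hb : 0 < b) (hb1 : b < 1) {H : Ω → ℝ} (hH : Measurable H) (hH0 : ∀ x, 0 ≤ H x)
    {B : ℝ} (hHB : ∀ x, H x ≤ B) :
    ∫ x, H x ^ (1 + b) ∂μ ≤ (∫ x, H x ∂μ) ^ (1 - b) * (∫ x, H x ^ 2 ∂μ) ^ b := by
  have hconj : (1 / (1 - b)).HolderConjugate (1 / b) := by
    rw [Real.holderConjugate_iff]
    constructor
    · rw [lt_div_iff₀ (by linarith)]; linarith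
    · simp
  have h1 := integral_mul_le_Lp_mul_Lq_of_nonneg (μ := μ) hconj
    (f := fun x => H x ^ (1 - b)) (g := fun x => H x ^ (2 * b))
    (Filter.Eventually.of_forall fun x => Real.rpow_nonneg (hH0 x) _)
    (Filter.Eventually.of_forall fun x => Real.rpow_nonneg (hH0 x) _)
    (memLp_bdd μ (hH.pow_const _) (fun x => Real.rpow_nonneg (hH0 x) _)
      (B := B ^ (1 - b)) (fun x => Real.rpow_le_rpow (hH0 x) (hHB x) (by linarith)) _)
    (memLp_bdd μ (hH.pow_const _) (fun x => Real.rpow_nonneg (hH0 x) _)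
      (B := B ^ (2 * b)) (fun x => Real.rpow_le_rpow (hH0 x) (hHB x) (by linarith)) _)
  have e1 : ∀ x, H x ^ (1 - b) * H x ^ (2 * b) = H x ^ (1 + b) := by
    intro x
    rw [← Real.rpow_add_of_nonneg (hH0 x) (by linarith) (by linarith)]
    congr 1; ring
  have e2 : ∀ x, (H x ^ (1 - b)) ^ (1 / (1 - b)) = H x := by
    intro x
    rw [← Real.rpow_mul (hH0 x), mul_one_div_cancel (by linarith), Real.rpow_one]
  have e3 : ∀ x, (H x ^ (2 * b)) ^ (1 / b) = H x ^ 2 := by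
    intro x
    rw [← Real.rpow_mul (hH0 x), mul_assoc, mul_one_div_cancel hb.ne']
    norm_num
  simp only [e1, e2, e3, one_div_one_div] at h1
  exact h1

lemma hol3 {Ω : Type*} [MeasurableSpace Ω] (μ : Measure Ω) [IsFiniteMeasure μ] {q : ℝ} (hq : 2 < q)
    {A H : Ω → ℝ} (hA : Measurable A) (hH : Measurable H) (hA0 : ∀ x, 0 ≤ A x) (hH0 : ∀ x, 0 ≤ H x)
    {B : ℝ} (hAB : ∀ x, A x ≤ B) (hHB : ∀ x, H x ≤ B) :
    ∫ x, A x * H x ∂μ ≤ (∫ x, A x ^ q ∂μ) ^ (1 / q) * (∫ x, H x ∂μ) ^ (1 - 2 / q) *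
      (∫ x, H x ^ 2 ∂μ) ^ (1 / q) := by
  have hq0 : 0 < q := by linarith
  have hq1 : 0 < q - 1 := by linarith
  have hconj : q.HolderConjugate (q / (q - 1)) :=
    (Real.holderConjugate_iff_eq_conjExponent (by linarith)).2 rfl
  have h1 := integral_mul_le_Lp_mul_Lq_of_nonneg (μ := μ) hconj
    (f := A) (g := H)
    (Filter.Eventually.of_forall hA0) (Filter.Eventually.of_forall hH0)
    (memLp_bdd μ hA hA0 hAB _) (memLp_bdd μ hH hH0 hHB _)
  have h2 := interp μ (b := 1 / (q - 1)) (by positivity)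
    (by rw [div_lt_one hq1]; linarith) hH hH0 hHB
  have e : 1 + 1 / (q - 1) = q / (q - 1) := by field_simp; ring
  rw [e] at h2
  have i0 : 0 ≤ ∫ x, H x ∂μ := integral_nonneg hH0
  have i1 : 0 ≤ ∫ x, H x ^ 2 ∂μ := integral_nonneg fun x => by positivity
  have i2 : 0 ≤ ∫ x, H x ^ (q / (q - 1)) ∂μ := integral_nonneg fun x => Real.rpow_nonneg (hH0 x) _
  have i3 : 0 ≤ ∫ x, A x ^ q ∂μ := integral_nonneg fun x => Real.rpow_nonneg (hA0 x) _
  have h3 : (∫ x, H x ^ (q / (q - 1)) ∂μ) ^ (1 / (q / (q - 1))) ≤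
      (∫ x, H x ∂μ) ^ (1 - 2 / q) * (∫ x, H x ^ 2 ∂μ) ^ (1 / q) := by
    refine (Real.rpow_le_rpow i2 h2 (by positivity)).trans (le_of_eq ?_)
    rw [Real.mul_rpow (Real.rpow_nonneg i0 _) (Real.rpow_nonneg i1 _), ← Real.rpow_mul i0,
      ← Real.rpow_mul i1]
    congr 2
    · field_simp; ring
    · field_simp
  calc ∫ x, A x * H x ∂μ ≤ _ := h1
    _ ≤ (∫ x, A x ^ q ∂μ) ^ (1 / q) *
        ((∫ x, H x ∂μ) ^ (1 - 2 / q) * (∫ x, H x ^ 2 ∂μ) ^ (1 / q)) :=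
      mul_le_mul_of_nonneg_left h3 (Real.rpow_nonneg i3 _)
    _ = _ := by ring

lemma hol2 {Ω : Type*} [MeasurableSpace Ω] (μ : Measure Ω) [IsProbabilityMeasure μ] {q : ℝ}
    (hq : 2 < q) {X Y : Ω → ℝ} (hX : Measurable X) (hY : Measurable Y) (hX0 : ∀ x, 0 ≤ X x)
    (hY0 : ∀ x, 0 ≤ Y x) {B : ℝ} (hXB : ∀ x, X x ≤ B) (hYB : ∀ x, Y x ≤ B) :
    ∫ x, X x ^ (1 / 2 : ℝ) * Y x ^ (1 / q) ∂μ ≤
      (∫ x, X x ∂μ) ^ (1 / 2 : ℝ) * (∫ x, Y x ∂μ) ^ (1 / q) := by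
  have hq0 : 0 < q := by linarith
  have hconj : (2 : ℝ).HolderConjugate 2 := by
    rw [Real.holderConjugate_iff]; norm_num
  have mX : ∀ c : ℝ, 0 ≤ c → ∀ p : ENNReal, MemLp (fun x => X x ^ c) p μ := fun c hc p =>
    memLp_bdd μ (hX.pow_const _) (fun x => Real.rpow_nonneg (hX0 x) _)
      (B := B ^ c) (fun x => Real.rpow_le_rpow (hX0 x) (hXB x) hc) _
  have mY : ∀ c : ℝ, 0 ≤ c → ∀ p : ENNReal, MemLp (fun x => Y x ^ c) p μ := fun c hc p =>
    memLp_bdd μ (hY.pow_const _) (fun x => Real.rpow_nonneg (hY0 x) _)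
      (B := B ^ c) (fun x => Real.rpow_le_rpow (hY0 x) (hYB x) hc) _
  have h1 := integral_mul_le_Lp_mul_Lq_of_nonneg (μ := μ) hconj
    (f := fun x => X x ^ (1 / 2 : ℝ)) (g := fun x => Y x ^ (1 / q))
    (Filter.Eventually.of_forall fun x => Real.rpow_nonneg (hX0 x) _)
    (Filter.Eventually.of_forall fun x => Real.rpow_nonneg (hY0 x) _)
    (mX _ (by norm_num) _) (mY _ (by positivity) _)
  have e2 : ∀ x, (X x ^ (1 / 2 : ℝ)) ^ (2 : ℝ) = X x := by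
    intro x
    rw [← Real.rpow_mul (hX0 x)]; norm_num
  have e3 : ∀ x, (Y x ^ (1 / q)) ^ (2 : ℝ) = Y x ^ (2 / q) := by
    intro x
    rw [← Real.rpow_mul (hY0 x)]; congr 1; ring
  simp only [e2, e3] at h1
  -- Jensen: `∫ Y^(2/q) ≤ (∫ Y)^(2/q)` via Hölder with exponents `q/2` and its conjugate
  have hconj2 : (q / 2).HolderConjugate ((q / 2) / (q / 2 - 1)) :=
    (Real.holderConjugate_iff_eq_conjExponent (by linarith)).2 rfl
  have h2 := integral_mul_le_Lp_mul_Lq_of_nonneg (μ := μ) hconj2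
    (f := fun x => Y x ^ (2 / q)) (g := fun _ => (1 : ℝ))
    (Filter.Eventually.of_forall fun x => Real.rpow_nonneg (hY0 x) _)
    (Filter.Eventually.of_forall fun x => zero_le_one)
    (mY _ (by positivity) _) (memLp_const _)
  have e4 : ∀ x, (Y x ^ (2 / q)) ^ (q / 2) = Y x := by
    intro x
    rw [← Real.rpow_mul (hY0 x)]
    have : 2 / q * (q / 2) = 1 := by field_simp
    rw [this, Real.rpow_one]
  simp only [e4, mul_one, Real.one_rpow, integral_const, probReal_univ, smul_eq_mul,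
    one_div_div, Real.one_rpow] at h2
  have i0 : 0 ≤ ∫ x, X x ∂μ := integral_nonneg hX0
  have i1 : 0 ≤ ∫ x, Y x ∂μ := integral_nonneg hY0
  have i2 : 0 ≤ ∫ x, Y x ^ (2 / q) ∂μ := integral_nonneg fun x => Real.rpow_nonneg (hY0 x) _
  refine h1.trans (mul_le_mul_of_nonneg_left ?_ (Real.rpow_nonneg i0 _))
  refine (Real.rpow_le_rpow i2 h2 (by norm_num)).trans (le_of_eq ?_)
  rw [← Real.rpow_mul i1]
  congr 1
  ring

end STC
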