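import Pool.Agent.STC.TorusDefs

/-!
# STC/TorusGen: reduction of the general phase to rectangular tori

PROOF. Let `r = Fintype.card ι`, `e : ι ≃ Fin r`.
(1) Linear term: `chr k x * e^{-i t η.k} = chr k (x - t η/(2π))` (`fourier k x = e^{2 π i k x}`), so for every
`t` the inner integral does not change if the linear term is dropped (translation invariance of the
Haar measure on `ι → UnitAddCircle`).
(2) Let `m ≥ 1` be a common denominator of the `ℓ_{ji}`, `A j i = m ℓ_{ji} ∈ ℤ`. The endomorphism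
`Θ(x)_i = ∑_j A j i • x_j` of the compact group `(ℝ/ℤ)^ι` is continuous and surjective (`A` is invertible
over `ℚ` by `hell`: lift `y` to `ℝ^ι` and solve the linear system), so it preserves the Haar probability
measure (`AddMonoidHom.measurePreserving`), and
`chr k (Θ x) = chr (A k) x`, `(A k)_j = ∑_i A j i k_i`. The phase is `∑ (q_j/m²) ((A k)_j)²`. The map
`k ↦ A k` is injective, and `|(A k)_j| ≤ C_A N`. Apply the rectangular estimate with `a_j = q_j/m²`,
`N' = C_A N` (`C_A` a natural number, `N'^{e} ≤ C_A^{|e|} N^{e}`) to `s' = A(s)`, `b'_{A k} = b_k`.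
(3) Reindexing `ι ≃ Fin r`: the measurable equivalence `(ι → ℝ/ℤ) ≃ (Fin r → ℝ/ℤ)`
(`volume_measurePreserving_piCongrLeft`), `Fintype.card`.
-/

open MeasureTheory Complex
open scoped ComplexConjugate

namespace STC

namespace TorusGenAux

lemma toCircle_sum {α : Type} (s : Finset α) (f : α → UnitAddCircle) :
    ((∑ i ∈ s, f i : UnitAddCircle).toCircle : ℂ) = ∏ i ∈ s, ((f i).toCircle : ℂ) := by
  classical
  induction s using Finset.induction_on with
  | empty => simp
  | insert a s ha ih =>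
    rw [Finset.sum_insert ha, Finset.prod_insert ha, AddCircle.toCircle_add, Circle.coe_mul, ih]

lemma chr_eq {ι : Type} [Fintype ι] (k : ι → ℤ) (x : ι → UnitAddCircle) :
    chr k x = ((∑ j, k j • x j : UnitAddCircle).toCircle : ℂ) := by
  rw [toCircle_sum]
  simp [chr, fourier_apply]

lemma chr_add {ι : Type} [Fintype ι] (k : ι → ℤ) (x y : ι → UnitAddCircle) :
    chr k (x + y) = chr k x * chr k y := by
  rw [chr_eq, chr_eq, chr_eq, ← Circle.coe_mul, ← AddCircle.toCircle_add]
  congr 2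
  simp [smul_add, Finset.sum_add_distrib]

lemma chr_cont {ι : Type} [Fintype ι] (k : ι → ℤ) : Continuous (chr k) := by
  unfold chr
  fun_prop

/-- the shift that absorbs the linear term -/
lemma chr_shift {ι : Type} [Fintype ι] (k : ι → ℤ) (t : ℝ) (eta : ι → ℝ) :
    chr k (fun i => ((-(t * eta i / (2 * Real.pi)) : ℝ) : UnitAddCircle)) =
      cexp (-((t * ∑ i, eta i * k i : ℝ) : ℂ) * I) := by
  unfold chr
  simp only [fourier_coe_apply]
  rw [← Complex.exp_sum]
  congr 1
  push_cast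
  rw [Finset.mul_sum, ← Finset.sum_neg_distrib, Finset.sum_mul]
  refine Finset.sum_congr rfl (fun i _ => ?_)
  have hpi : (Real.pi : ℂ) ≠ 0 := by exact_mod_cast Real.pi_ne_zero
  field_simp

/-- common denominator -/
lemma common_den {ι : Type} [Fintype ι] (ell : ι → ι → ℚ) :
    ∃ m : ℕ, 0 < m ∧ ∃ A : ι → ι → ℤ, ∀ j i, (A j i : ℚ) = m * ell j i := by
  classical
  refine ⟨∏ p : ι × ι, (ell p.1 p.2).den, Finset.prod_pos (fun p _ => (ell p.1 p.2).den_pos), ?_⟩
  have h : ∀ p : ι × ι, ∃ a : ℤ, (a : ℚ) = ((∏ p : ι × ι, (ell p.1 p.2).den : ℕ) : ℚ) *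
      ell p.1 p.2 := by
    intro p
    obtain ⟨c, hc⟩ := Finset.dvd_prod_of_mem (fun p : ι × ι => (ell p.1 p.2).den)
      (Finset.mem_univ p)
    refine ⟨c * (ell p.1 p.2).num, ?_⟩
    rw [hc]
    push_cast
    have h1 : ((ell p.1 p.2).num : ℚ) = ell p.1 p.2 * (ell p.1 p.2).den := by
      rw [Rat.mul_den_eq_num]
    rw [h1]
    ring
  choose a ha using h
  exact ⟨fun j i => a (j, i), fun j i => ha (j, i)⟩

/-- the dual endomorphism -/
noncomputable def Theta {ι : Type} [Fintype ι] (A : ι → ι → ℤ) :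
    (Fin (Fintype.card ι) → UnitAddCircle) →+ (ι → UnitAddCircle) where
  toFun y := fun i => ∑ j, A j i • y (Fintype.equivFin ι j)
  map_zero' := by
    funext i
    simp
  map_add' x y := by
    funext i
    simp [smul_add, Finset.sum_add_distrib]

/-- the linear map on frequencies -/
noncomputable def Ak {ι : Type} [Fintype ι] (A : ι → ι → ℤ) (k : ι → ℤ) :
    Fin (Fintype.card ι) → ℤ :=
  fun j' => ∑ i, A ((Fintype.equivFin ι).symm j') i * k i

lemma chr_Theta {ι : Type} [Fintype ι] (A : ι → ι → ℤ) (k : ι → ℤ)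
    (y : Fin (Fintype.card ι) → UnitAddCircle) :
    chr (Ak A k) y = chr k (Theta A y) := by
  rw [chr_eq, chr_eq]
  congr 2
  have h1 : ∑ j', Ak A k j' • y j' =
      ∑ j : ι, (∑ i, A j i * k i) • y (Fintype.equivFin ι j) := by
    rw [← Equiv.sum_comp (Fintype.equivFin ι)]
    simp [Ak]
  rw [h1]
  have h2 : ∑ i, k i • (Theta A y) i = ∑ i, ∑ j, (A j i * k i) • y (Fintype.equivFin ι j) := by
    refine Finset.sum_congr rfl (fun i _ => ?_)
    change k i • (∑ j, A j i • y (Fintype.equivFin ι j)) = _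
    rw [Finset.smul_sum]
    refine Finset.sum_congr rfl (fun j _ => ?_)
    rw [smul_smul, mul_comm]
  rw [h2, Finset.sum_comm]
  refine Finset.sum_congr rfl (fun j _ => ?_)
  rw [Finset.sum_smul]

lemma Theta_cont {ι : Type} [Fintype ι] (A : ι → ι → ℤ) : Continuous (Theta A) := by
  refine continuous_pi (fun i => ?_)
  change Continuous (fun y : Fin (Fintype.card ι) → UnitAddCircle =>
    ∑ j, A j i • y (Fintype.equivFin ι j))
  fun_prop

lemma Theta_surj {ι : Type} [Fintype ι] (A : ι → ι → ℤ)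
    (hA : ∀ x : ι → ℚ, (∀ j, ∑ i, (A j i : ℚ) * x i = 0) → x = 0) :
    Function.Surjective (Theta A) := by
  classical
  set M : Matrix ι ι ℚ := Matrix.of (fun j i => (A j i : ℚ)) with hM
  have h1 : Function.Injective M.mulVec := by
    intro x y hxy
    have h2 : x - y = 0 := by
      apply hA
      intro j
      have h3 := congrFun hxy j
      simp only [Matrix.mulVec, dotProduct, hM, Matrix.of_apply] at h3
      simp only [Pi.sub_apply, mul_sub, Finset.sum_sub_distrib]
      rw [h3, sub_self]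
    exact sub_eq_zero.mp h2
  have h2 : IsUnit M := Matrix.mulVec_injective_iff_isUnit.1 h1
  have h3 : IsUnit (M.map (Rat.castHom ℝ)) := by
    have := h2.map (RingHom.mapMatrix (m := ι) (Rat.castHom ℝ))
    simpa using this
  have h4 := Matrix.vecMul_surjective_iff_isUnit.2 h3
  intro y
  choose w hw using fun i => QuotientAddGroup.mk_surjective (y i)
  obtain ⟨z, hz⟩ := h4 w
  refine ⟨fun j' => ((z ((Fintype.equivFin ι).symm j') : ℝ) : UnitAddCircle), ?_⟩
  funext i
  change ∑ j, A j i • ((z ((Fintype.equivFin ι).symm (Fintype.equivFin ι j)) : ℝ) :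
    UnitAddCircle) = y i
  have h5 := congrFun hz i
  simp only [Matrix.vecMul, dotProduct, Matrix.map_apply, hM, Matrix.of_apply] at h5
  rw [← hw i, ← h5]
  simp only [Equiv.symm_apply_apply]
  have h6 : ∀ (s : Finset ι), ∑ j ∈ s, A j i • ((z j : ℝ) : UnitAddCircle) =
      ((∑ j ∈ s, z j * (Rat.castHom ℝ) (A j i : ℚ) : ℝ) : UnitAddCircle) := by
    intro s
    induction s using Finset.induction_on with
    | empty => simp
    | insert a s ha ih =>
      rw [Finset.sum_insert ha, Finset.sum_insert ha, ih, AddCircle.coe_add, ← AddCircle.coe_zsmul]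
      congr 2
      simp [mul_comm]
  exact h6 Finset.univ

lemma Theta_mp {ι : Type} [Fintype ι] (A : ι → ι → ℤ)
    (hA : ∀ x : ι → ℚ, (∀ j, ∑ i, (A j i : ℚ) * x i = 0) → x = 0) :
    MeasurePreserving (Theta A) volume volume := by
  refine AddMonoidHom.measurePreserving (Theta_cont A) (Theta_surj A hA) ?_
  rw [volume_pi, volume_pi, Measure.pi_univ, Measure.pi_univ]
  simp

lemma integral_Theta {ι : Type} [Fintype ι] (A : ι → ι → ℤ)
    (hA : ∀ x : ι → ℚ, (∀ j, ∑ i, (A j i : ℚ) * x i = 0) → x = 0)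
    (F : (ι → UnitAddCircle) → ℝ) (hF : Continuous F) :
    ∫ y, F (Theta A y) = ∫ x, F x := by
  have h := Theta_mp A hA
  have h1 := integral_map (μ := (volume : Measure (Fin (Fintype.card ι) → UnitAddCircle)))
    h.measurable.aemeasurable (f := F) (by rw [h.map_eq]; exact hF.aestronglyMeasurable)
  rw [h.map_eq] at h1
  exact h1.symm

lemma Ak_inj {ι : Type} [Fintype ι] (A : ι → ι → ℤ)
    (hA : ∀ x : ι → ℚ, (∀ j, ∑ i, (A j i : ℚ) * x i = 0) → x = 0) :
    Function.Injective (Ak A) := by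
  intro k l hkl
  have h2 : (fun i => (k i : ℚ) - l i) = 0 := by
    apply hA
    intro j
    have h3 := congrFun hkl (Fintype.equivFin ι j)
    simp only [Ak, Equiv.symm_apply_apply] at h3
    have h4 : (∑ i, (A j i : ℚ) * k i) = ∑ i, (A j i : ℚ) * l i := by exact_mod_cast h3
    simp only [mul_sub, Finset.sum_sub_distrib]
    rw [h4, sub_self]
  funext i
  have h5 := congrFun h2 i
  simp only [Pi.zero_apply, sub_eq_zero] at h5
  exact_mod_cast h5

end TorusGenAux

open TorusGenAux in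
theorem torStr_gen {ι : Type} [Fintype ι] {p : ℝ} (hp : 2 ≤ p) (h : RectStr (Fintype.card ι) p)
    (q : ι → ℝ) (hq : ∀ j, 0 < q j) (ell : ι → ι → ℚ)
    (hell : ∀ x : ι → ℚ, (∀ j, ∑ i, ell j i * x i = 0) → x = 0) (eta : ι → ℝ) :
    TorStr (genPhase q ell eta) p := by
  classical
  obtain ⟨m, hm, A, hAm⟩ := common_den ell
  have hm' : (m : ℚ) ≠ 0 := by exact_mod_cast hm.ne'
  have hmR : (m : ℝ) ≠ 0 := by exact_mod_cast hm.ne'
  have hmR0 : (0 : ℝ) < m := by exact_mod_cast hm
  have hA : ∀ x : ι → ℚ, (∀ j, ∑ i, (A j i : ℚ) * x i = 0) → x = 0 := by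
    intro x hx
    apply hell
    intro j
    have h1 := hx j
    simp only [hAm, mul_assoc] at h1
    rw [← Finset.mul_sum] at h1
    exact (mul_eq_zero.1 h1).resolve_left hm'
  have hAR : ∀ j i, (A j i : ℝ) = m * (ell j i : ℝ) := by
    intro j i
    have := hAm j i
    exact_mod_cast this
  set a : Fin (Fintype.card ι) → ℝ := fun j' => q ((Fintype.equivFin ι).symm j') / (m : ℝ) ^ 2
    with ha
  have hapos : ∀ j, 0 < a j := fun j => div_pos (hq _) (by positivity)
  -- the phases
  have hphase : ∀ k : ι → ℤ, genPhase q ell eta k =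
      (∑ j, a j * ((Ak A k) j : ℝ) ^ 2) + ∑ i, eta i * k i := by
    intro k
    unfold genPhase
    congr 1
    rw [← Equiv.sum_comp (Fintype.equivFin ι)]
    refine Finset.sum_congr rfl (fun j _ => ?_)
    simp only [ha, Ak, Equiv.symm_apply_apply]
    push_cast
    simp only [hAR, mul_assoc]
    rw [← Finset.mul_sum]
    field_simp
  intro T0 hT0
  obtain ⟨C, hC, hmain⟩ := h a hapos T0 hT0
  set CA : ℕ := 1 + ∑ j, ∑ i, (A j i).natAbs with hCA
  have hCApos : 1 ≤ CA := Nat.le_add_right _ _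
  have hCAR : (0 : ℝ) < CA := by exact_mod_cast hCApos
  set E : ℝ := (Fintype.card ι : ℝ) * p / 2 - (Fintype.card ι + 2) with hE
  refine ⟨C * (CA : ℝ) ^ E, by positivity, ?_⟩
  intro N hN s b hs
  have hNR : (0 : ℝ) < N := by exact_mod_cast hN
  have hinj := Ak_inj A hA
  set s' : Finset (Fin (Fintype.card ι) → ℤ) := s.image (Ak A) with hs'
  set b' : (Fin (Fintype.card ι) → ℤ) → ℂ := Function.extend (Ak A) b 0 with hb'
  have hbb : ∀ k, b' (Ak A k) = b k := fun k => hinj.extend_apply b 0 k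
  have hbound : ∀ k' ∈ s', ∀ j, |(k' j : ℝ)| ≤ ((CA * N : ℕ) : ℝ) := by
    intro k' hk' j'
    obtain ⟨k, hk, rfl⟩ := Finset.mem_image.1 hk'
    simp only [Ak]
    push_cast
    set j := (Fintype.equivFin ι).symm j'
    calc |∑ i, (A j i : ℝ) * k i| ≤ ∑ i, |(A j i : ℝ) * k i| := Finset.abs_sum_le_sum_abs _ _
      _ ≤ ∑ i, ((A j i).natAbs : ℝ) * N := by
        refine Finset.sum_le_sum (fun i _ => ?_)
        rw [abs_mul, Nat.cast_natAbs, Int.cast_abs]
        exact mul_le_mul_of_nonneg_left (hs k hk i) (abs_nonneg _)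
      _ = (∑ i, ((A j i).natAbs : ℝ)) * N := by rw [Finset.sum_mul]
      _ ≤ (CA : ℝ) * N := by
        refine mul_le_mul_of_nonneg_right ?_ hNR.le
        have h1 : ∑ i, (A j i).natAbs ≤ CA := by
          rw [hCA]
          calc ∑ i, (A j i).natAbs ≤ ∑ j, ∑ i, (A j i).natAbs :=
                Finset.single_le_sum (f := fun j => ∑ i, (A j i).natAbs)
                  (fun _ _ => Nat.zero_le _) (Finset.mem_univ j)
            _ ≤ _ := Nat.le_add_left _ _
        exact_mod_cast h1
  have hfin := hmain (CA * N) (Nat.one_le_iff_ne_zero.2 (by positivity)) s' b' hbound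
  -- compare the inner integrals
  have hinner : ∀ t : ℝ,
      (∫ x : ι → UnitAddCircle,
        ‖∑ k ∈ s, b k * cexp (-((t * genPhase q ell eta k : ℝ) : ℂ) * I) * chr k x‖ ^ p) =
      ∫ y : Fin (Fintype.card ι) → UnitAddCircle,
        ‖∑ k ∈ s', b' k * cexp (-((t * ∑ j, a j * (k j : ℝ) ^ 2 : ℝ) : ℂ) * I) * chr k y‖ ^ p := by
    intro t
    set F : (ι → UnitAddCircle) → ℝ := fun x =>
      ‖∑ k ∈ s, b k * cexp (-((t * ∑ j, a j * ((Ak A k) j : ℝ) ^ 2 : ℝ) : ℂ) * I) * chr k x‖ ^ p
      with hF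
    have hFc : Continuous F := by
      refine Continuous.rpow_const ?_ (fun x => Or.inr (by linarith))
      refine Continuous.norm (continuous_finsetSum _ (fun k _ => ?_))
      exact continuous_const.mul (chr_cont k)
    have h1 : (∫ y : Fin (Fintype.card ι) → UnitAddCircle,
        ‖∑ k ∈ s', b' k * cexp (-((t * ∑ j, a j * (k j : ℝ) ^ 2 : ℝ) : ℂ) * I) * chr k y‖ ^ p) =
        ∫ y, F (Theta A y) := by
      congr 1
      funext y
      simp only [hF, hs']
      congr 2
      rw [Finset.sum_image (fun x _ y _ hxy => hinj hxy)]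
      refine Finset.sum_congr rfl (fun k _ => ?_)
      rw [hbb, chr_Theta]
    rw [h1, integral_Theta A hA F hFc]
    have h2 := integral_add_right_eq_self (μ := (volume : Measure (ι → UnitAddCircle))) F
      (fun i => ((-(t * eta i / (2 * Real.pi)) : ℝ) : UnitAddCircle))
    rw [← h2]
    congr 1
    funext x
    simp only [hF]
    congr 2
    refine Finset.sum_congr rfl (fun k _ => ?_)
    rw [chr_add, chr_shift, hphase]
    have h3 : cexp (-((t * ((∑ j, a j * ((Ak A k) j : ℝ) ^ 2) + ∑ i, eta i * k i) : ℝ) : ℂ) * I) =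
        cexp (-((t * ∑ j, a j * ((Ak A k) j : ℝ) ^ 2 : ℝ) : ℂ) * I) *
          cexp (-((t * ∑ i, eta i * k i : ℝ) : ℂ) * I) := by
      rw [← Complex.exp_add]
      congr 1
      push_cast
      ring
    rw [h3]
    ring
  have hsum : ∑ k ∈ s', ‖b' k‖ ^ 2 = ∑ k ∈ s, ‖b k‖ ^ 2 := by
    rw [hs', Finset.sum_image (fun x _ y _ hxy => hinj hxy)]
    refine Finset.sum_congr rfl (fun k _ => ?_)
    rw [hbb]
  rw [hsum] at hfin
  simp only [Fintype.card_fin] at hfin
  rw [← hE] at hfin
  have hpow : ((CA * N : ℕ) : ℝ) ^ E = (CA : ℝ) ^ E * (N : ℝ) ^ E := by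
    push_cast
    exact Real.mul_rpow hCAR.le hNR.le
  rw [hpow] at hfin
  calc _ = ∫ t in Set.Icc (0 : ℝ) T0, ∫ y : Fin (Fintype.card ι) → UnitAddCircle,
        ‖∑ k ∈ s', b' k * cexp (-((t * ∑ j, a j * (k j : ℝ) ^ 2 : ℝ) : ℂ) * I) * chr k y‖ ^ p := by
        congr 1
        funext t
        exact hinner t
    _ ≤ _ := hfin
    _ = _ := by ring

end STC
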