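import Pool.Agent.STC.TRstrong
import Pool.Agent.STC.TorusGen
import Pool.Agent.STZ.HsSum

/-!
# STC/TRmain: the Strichartz estimate for a `TFam` with a kernel family (finite sums)

`r = card ι`, `M : ℕ` the number of positive roots, `d = r + 2 M`.

PROOF. `be`: given `N` and `F` with `size ≤ N`: `cover` assigns to every `l ∈ F` some `i(l)` with
`l ∈ mid i`; `F_i = {l ∈ F : i(l) = i}`, `u = ∑_i u_i`. By `strong_piece` (constant `C0 = A.C`, the same
for all pieces) `‖u_i‖_p ≤ (C N^{e})^{1/p} D_i^{1-2/p} S^{1/2}` in `L^p(stm)`, `e = rp/2 - (r+2)`, so by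
the triangle inequality `‖u‖_p ≤ (C N^e)^{1/p} S^{1/2} ∑_i D_i^{1-2/p}` and `sum_D` with `θ = 1 - 2/p > 0`
gives `∑ ≤ Cθ (N+1)^{M(1-2/p)} ≤ C N^{M(1-2/p)}`; the `p`-th power: `e + M(p-2) =
(r+2M)p/2 - (r + 2M) - 2`.
`ds`: `∑_{l ∈ F} d_l² ≤ ∑_i ∑_{l ∈ F_i} (C0 D_i)² ≤ (2N+1)^r C0² ∑ D_i² ≤ C N^r N^{2M}` (`sum_D`,
`θ = 2`; `w` injective).
`coercive`: `Q(x) = ∑ q_j (∑ ℓ_{ji} x_i)²` is positive definite on `ℝ^ι` (`ell` is injective over `ℚ`, so
`det ≠ 0`, so injective over `ℝ`; continuous and positive on the compact unit sphere), so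
`Q(x) ≥ c |x|²`, `cas l ≥ c|w|² - C|w| ≥ (c/2)|w|² - C'`, and `cas l ≥ 0`; hence
`1 + cas l ≥ c'' (1 + |w_l|)²`.
`strichartz`: `STZ.Hs_of_BE` with some `q` between `2 + 4/r` and `p`, `size`, `d = r + 2M`, and
`torStr_gen` for some `q' ∈ (2 + 4/r, q)`; `0 ≤ d/2 - (d+2)/p` since `p ≥ 2 + 4/r ≥ 2 + 4/d`.
-/

open MeasureTheory Complex
open scoped ComplexConjugate

namespace STC

variable {G : Type} [Group G] [TopologicalSpace G] [IsTopologicalGroup G] [CompactSpace G] [T2Space G]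
  [SecondCountableTopology G] [MeasureSpace G] [BorelSpace G]
  [Measure.IsHaarMeasure (volume : Measure G)] [IsProbabilityMeasure (volume : Measure G)]
  {ι : Type} [Fintype ι] (T : TFam G ι)

/-- the size of the weight -/
def TFam.size (l : T.Λ) : ℕ := Finset.univ.sup fun k => (T.w l k).natAbs

omit [IsTopologicalGroup G] [CompactSpace G] [T2Space G] [SecondCountableTopology G] [BorelSpace G]
  [Measure.IsHaarMeasure (volume : Measure G)] [IsProbabilityMeasure (volume : Measure G)] in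
private lemma trm_size (l : T.Λ) (N : ℕ) (h : T.size l ≤ N) (k : ι) : |(T.w l k : ℝ)| ≤ N := by
  have h1 : (T.w l k).natAbs ≤ N :=
    (Finset.le_sup (f := fun k => (T.w l k).natAbs) (Finset.mem_univ k)).trans h
  have h2 : |T.w l k| ≤ (N : ℤ) := by
    rw [Int.abs_eq_natAbs]
    exact_mod_cast h1
  exact_mod_cast h2

omit [IsTopologicalGroup G] [CompactSpace G] [T2Space G] [SecondCountableTopology G] [BorelSpace G]
  [Measure.IsHaarMeasure (volume : Measure G)] [IsProbabilityMeasure (volume : Measure G)] in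
private lemma trm_card (F : Finset T.Λ) (N : ℕ) (hN : 1 ≤ N)
    (hF : ∀ l ∈ F, ∀ k, |(T.w l k : ℝ)| ≤ N) :
    (F.card : ℝ) ≤ (3 * (N : ℝ)) ^ (Fintype.card ι) := by
  classical
  have h1 : F.card ≤ (Fintype.piFinset fun _ : ι => Finset.Icc (-(N : ℤ)) N).card := by
    refine Finset.card_le_card_of_injOn T.w (fun l hl => ?_) (T.w_inj.injOn)
    rw [Finset.mem_coe, Fintype.mem_piFinset]
    intro k
    rw [Finset.mem_Icc]
    obtain ⟨h2, h3⟩ := abs_le.1 (hF l hl k)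
    constructor
    · have : ((-(N : ℤ) : ℤ) : ℝ) ≤ (T.w l k : ℝ) := by push_cast; exact h2
      exact_mod_cast this
    · have : ((T.w l k : ℤ) : ℝ) ≤ ((N : ℤ) : ℝ) := by push_cast; exact h3
      exact_mod_cast this
  rw [Fintype.card_piFinset] at h1
  simp only [Int.card_Icc, Finset.prod_const, Finset.card_univ] at h1
  have h4 : ((N : ℤ) + 1 - -(N : ℤ)).toNat = 2 * N + 1 := by omega
  rw [h4] at h1
  have h5 : (F.card : ℝ) ≤ ((2 * N + 1 : ℕ) : ℝ) ^ (Fintype.card ι) := by exact_mod_cast h1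
  refine h5.trans ?_
  have h6 : (1 : ℝ) ≤ N := by exact_mod_cast hN
  refine pow_le_pow_left₀ (by positivity) ?_ _
  push_cast
  linarith

lemma be [DecidableEq T.Λ] {M : ℕ} (A : KernFam T M) {q p : ℝ} (hq : 2 < q) (hqp : q < p)
    (hT : TorStr (genPhase T.q T.ell T.eta) q) :
    STZ.BE T.rk T.cas T.size (Fintype.card ι + 2 * M) p := by
  intro T0 hT0
  obtain ⟨C, hC, hsp⟩ := strong_piece T hq hqp hT A.C A.one_le_C T0 hT0
  have hp0 : 0 < p := by linarith
  have hp2 : 0 < p - 2 := by linarith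
  set θ : ℝ := 1 - 2 / p with hθ
  have hθ0 : 0 < θ := by
    have : 2 / p < 1 := by rw [div_lt_one hp0]; linarith
    rw [hθ]; linarith
  have hθp : θ * p = p - 2 := by rw [hθ]; field_simp
  obtain ⟨Cθ, hCθ⟩ := A.sum_D θ hθ0
  set n : ℕ := Fintype.card ι with hn
  refine ⟨C * ((|Cθ| + 1) * 2 ^ ((M : ℝ) * θ)) ^ p, by positivity, ?_⟩
  intro N hN F hF f hf
  have hN1 : (1 : ℝ) ≤ N := by exact_mod_cast hN
  have hN0 : (0 : ℝ) < N := by linarith
  set E : ℝ := ∑ l ∈ F, ∫ x, ‖f l x‖ ^ 2 with hE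
  have hE0 : 0 ≤ E := Finset.sum_nonneg fun l _ => integral_nonneg fun x => by positivity
  by_cases hFe : F = ∅
  · have h0 : ∀ z : ℝ × G, ‖STZ.evol T.cas F f z.1 z.2‖ ^ p = 0 := by
      intro z
      rw [hFe]
      simp [STZ.evol, Real.zero_rpow hp0.ne']
    simp only [h0, integral_zero]
    positivity
  obtain ⟨l0, hl0⟩ := Finset.nonempty_iff_ne_empty.2 hFe
  have hsize : ∀ l ∈ F, ∀ k, |(T.w l k : ℝ)| ≤ N := fun l hl k => trm_size T l N (hF l hl) k
  obtain ⟨i0, hi0⟩ := A.cover N l0 (hsize l0 hl0)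
  have hidx : ∀ l, ∃ i, l ∈ F → l ∈ (A.piece N i).mid := by
    intro l
    by_cases hl : l ∈ F
    · obtain ⟨i, hi⟩ := A.cover N l (hsize l hl)
      exact ⟨i, fun _ => hi⟩
    · exact ⟨i0, fun h => absurd h hl⟩
  choose idx hidx using hidx
  have hD1 : ∀ i, 1 ≤ (A.piece N i).D := fun i => (A.piece N i).one_le_D
  have hD0 : ∀ i, 0 < (A.piece N i).D := fun i => by linarith [hD1 i]
  set a : Fin (A.n N) → ℝ := fun i => (A.piece N i).D ^ θ with ha
  have ha0 : ∀ i, 0 < a i := fun i => Real.rpow_pos_of_pos (hD0 i) _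
  set S : ℝ := ∑ i, a i with hS
  have hS0 : 0 < S := Finset.sum_pos (fun i _ => ha0 i) ⟨i0, Finset.mem_univ _⟩
  set Fi : Fin (A.n N) → Finset T.Λ := fun i => F.filter fun l => idx l = i with hFi
  have hFiF : ∀ i, Fi i ⊆ F := fun i => Finset.filter_subset _ _
  have hFimid : ∀ i, Fi i ⊆ (A.piece N i).mid := by
    intro i l hl
    rw [hFi, Finset.mem_filter] at hl
    rw [← hl.2]
    exact hidx l hl.1
  -- the pieces
  set e : ℝ := (n : ℝ) * p / 2 - (n + 2) with he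
  have hpiece : ∀ i, ∫ z, ‖STZ.evol T.cas (Fi i) f z.1 z.2‖ ^ p ∂(STZ.stm G T0) ≤
      C * (N : ℝ) ^ e * a i ^ p * E ^ (p / 2) := by
    intro i
    have h1 := hsp N hN (A.piece N i) (Fi i) (hFimid i) (fun l hl k => hsize l (hFiF i hl) k) f
      (fun l hl => hf l (hFiF i hl))
    have h2 : a i ^ p = (A.piece N i).D ^ (p - 2) := by
      rw [ha, ← Real.rpow_mul (hD0 i).le, hθp]
    rw [h2]
    refine h1.trans ?_
    have h3 : ∑ l ∈ Fi i, ∫ x, ‖f l x‖ ^ 2 ≤ E :=
      Finset.sum_le_sum_of_subset_of_nonneg (hFiF i) fun l _ _ =>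
        integral_nonneg fun x => by positivity
    have h4 : 0 ≤ ∑ l ∈ Fi i, ∫ x, ‖f l x‖ ^ 2 :=
      Finset.sum_nonneg fun l _ => integral_nonneg fun x => by positivity
    refine mul_le_mul_of_nonneg_left (Real.rpow_le_rpow h4 h3 (by positivity)) ?_
    have := hD0 i
    positivity
  -- integrability
  have hfin : IsFiniteMeasure (STZ.stm G T0) := by
    unfold STZ.stm
    have : IsFiniteMeasure ((volume : Measure ℝ).restrict (Set.Icc (0 : ℝ) T0)) :=
      ⟨by rw [Measure.restrict_apply_univ, Real.volume_Icc]; exact ENNReal.ofReal_lt_top⟩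
    infer_instance
  have hint : ∀ F' : Finset T.Λ, F' ⊆ F →
      Integrable (fun z : ℝ × G => ‖STZ.evol T.cas F' f z.1 z.2‖ ^ p) (STZ.stm G T0) := by
    intro F' hF'
    have hf' : ∀ l ∈ F', T.rk.Mem l (f l) := fun l hl => hf l (hF' hl)
    have hm := STZ.HsSumAux.evol_measurable T.rk T.cas F' f hf'
    set B : ℝ := (∑ l ∈ F', T.rk.D l) * ∑ l ∈ F', ∫ z, ‖f l z‖ ^ 2 with hB
    refine Integrable.of_bound (hm.norm.pow_const p).aestronglyMeasurable ((√B) ^ p)
      (Filter.Eventually.of_forall fun z => ?_)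
    rw [Real.norm_of_nonneg (by positivity)]
    refine Real.rpow_le_rpow (norm_nonneg _) ?_ hp0.le
    exact Real.le_sqrt_of_sq_le (STZ.HsSumAux.evol_le T.rk T.cas F' f hf' z.1 z.2)
  -- pointwise
  have hpt : ∀ z : ℝ × G, ‖STZ.evol T.cas F f z.1 z.2‖ ^ p ≤
      ∑ i, (a i / S * (S / a i) ^ p) * ‖STZ.evol T.cas (Fi i) f z.1 z.2‖ ^ p := by
    intro z
    have h1 : STZ.evol T.cas F f z.1 z.2 = ∑ i, STZ.evol T.cas (Fi i) f z.1 z.2 := by
      unfold STZ.evol
      rw [← Finset.sum_fiberwise F idx]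
    have h2 : ‖STZ.evol T.cas F f z.1 z.2‖ ≤ ∑ i, ‖STZ.evol T.cas (Fi i) f z.1 z.2‖ := by
      rw [h1]; exact norm_sum_le _ _
    have h3 := Real.rpow_arith_mean_le_arith_mean_rpow Finset.univ (fun i => a i / S)
      (fun i => S / a i * ‖STZ.evol T.cas (Fi i) f z.1 z.2‖)
      (fun i _ => (div_pos (ha0 i) hS0).le) (by rw [← Finset.sum_div]; exact div_self hS0.ne')
      (fun i _ => mul_nonneg (div_pos hS0 (ha0 i)).le (norm_nonneg _)) (p := p) (by linarith)
    have h4 : ∑ i, a i / S * (S / a i * ‖STZ.evol T.cas (Fi i) f z.1 z.2‖) =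
        ∑ i, ‖STZ.evol T.cas (Fi i) f z.1 z.2‖ := by
      refine Finset.sum_congr rfl fun i _ => ?_
      have := (ha0 i).ne'
      have := hS0.ne'
      field_simp
    rw [h4] at h3
    refine (Real.rpow_le_rpow (norm_nonneg _) h2 hp0.le).trans (h3.trans (le_of_eq ?_))
    refine Finset.sum_congr rfl fun i _ => ?_
    rw [Real.mul_rpow (div_pos hS0 (ha0 i)).le (norm_nonneg _)]
    ring
  have hSle : S ≤ (|Cθ| + 1) * 2 ^ ((M : ℝ) * θ) * (N : ℝ) ^ ((M : ℝ) * θ) := by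
    have h1 := hCθ N
    calc S ≤ Cθ * ((N : ℝ) + 1) ^ ((M : ℝ) * θ) := h1
      _ ≤ (|Cθ| + 1) * (2 * (N : ℝ)) ^ ((M : ℝ) * θ) := by
          refine mul_le_mul (by linarith [le_abs_self Cθ]) ?_ (by positivity) (by positivity)
          exact Real.rpow_le_rpow (by positivity) (by linarith) (by positivity)
      _ = _ := by rw [Real.mul_rpow (by norm_num) hN0.le]; ring
  have hSp : S ^ p ≤ ((|Cθ| + 1) * 2 ^ ((M : ℝ) * θ)) ^ p * (N : ℝ) ^ ((M : ℝ) * (p - 2)) := by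
    calc S ^ p ≤ ((|Cθ| + 1) * 2 ^ ((M : ℝ) * θ) * (N : ℝ) ^ ((M : ℝ) * θ)) ^ p :=
          Real.rpow_le_rpow hS0.le hSle hp0.le
      _ = _ := by
          rw [Real.mul_rpow (by positivity) (by positivity), ← Real.rpow_mul hN0.le]
          congr 2
          rw [mul_assoc, hθp]
  calc ∫ z, ‖STZ.evol T.cas F f z.1 z.2‖ ^ p ∂(STZ.stm G T0) ≤
      ∫ z, ∑ i, (a i / S * (S / a i) ^ p) * ‖STZ.evol T.cas (Fi i) f z.1 z.2‖ ^ p
        ∂(STZ.stm G T0) := by
        refine integral_mono (hint F subset_rfl) ?_ hpt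
        exact integrable_finsetSum _ fun i _ => (hint (Fi i) (hFiF i)).const_mul _
    _ = ∑ i, (a i / S * (S / a i) ^ p) *
        ∫ z, ‖STZ.evol T.cas (Fi i) f z.1 z.2‖ ^ p ∂(STZ.stm G T0) := by
        rw [integral_finsetSum _ fun i _ => (hint (Fi i) (hFiF i)).const_mul _]
        simp only [integral_const_mul]
    _ ≤ ∑ i, (a i / S * (S / a i) ^ p) * (C * (N : ℝ) ^ e * a i ^ p * E ^ (p / 2)) := by
        refine Finset.sum_le_sum fun i _ => mul_le_mul_of_nonneg_left (hpiece i) ?_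
        have := ha0 i
        positivity
    _ = ∑ i, a i / S * (S ^ p * (C * (N : ℝ) ^ e * E ^ (p / 2))) := by
        refine Finset.sum_congr rfl fun i _ => ?_
        rw [Real.div_rpow hS0.le (ha0 i).le]
        have := (Real.rpow_pos_of_pos (ha0 i) p).ne'
        field_simp
    _ = S ^ p * (C * (N : ℝ) ^ e * E ^ (p / 2)) := by
        rw [← Finset.sum_mul, ← Finset.sum_div, div_self hS0.ne', one_mul]
    _ ≤ (((|Cθ| + 1) * 2 ^ ((M : ℝ) * θ)) ^ p * (N : ℝ) ^ ((M : ℝ) * (p - 2))) *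
        (C * (N : ℝ) ^ e * E ^ (p / 2)) :=
        mul_le_mul_of_nonneg_right hSp (by positivity)
    _ = C * ((|Cθ| + 1) * 2 ^ ((M : ℝ) * θ)) ^ p *
        ((N : ℝ) ^ ((M : ℝ) * (p - 2)) * (N : ℝ) ^ e) * E ^ (p / 2) := by ring
    _ = _ := by
        rw [← Real.rpow_add hN0]
        congr 3
        rw [he]
        push_cast
        ring

lemma ds [DecidableEq T.Λ] {M : ℕ} (A : KernFam T M) :
    STZ.DS T.rk T.size (Fintype.card ι + 2 * M) := by
  obtain ⟨Cθ, hCθ⟩ := A.sum_D 2 (by norm_num)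
  have hC0 : 0 ≤ A.C := by have := A.one_le_C; linarith
  set K : ℝ := 3 ^ (Fintype.card ι) * A.C ^ 2 * (|Cθ| * 2 ^ (2 * M)) with hK
  have hK0 : 0 ≤ K := by positivity
  refine ⟨K + 1, by linarith, ?_⟩
  intro N hN F hF
  have hN1 : (1 : ℝ) ≤ N := by exact_mod_cast hN
  have hN0 : (0 : ℝ) < N := by linarith
  have hcard := trm_card T F N hN (fun l hl k => trm_size T l N (hF l hl) k)
  choose c hc using A.cover N
  have hD0 : ∀ i, 0 ≤ (A.piece N i).D := fun i => by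
    have := (A.piece N i).one_le_D
    linarith
  have h1 : ∀ l ∈ F, T.rk.D l ≤ A.C ^ 2 * ∑ i, (A.piece N i).D ^ 2 := by
    intro l hl
    obtain ⟨i, hi⟩ := A.cover N l (fun k => trm_size T l N (hF l hl) k)
    have h2 : T.rk.D l = (T.d l) ^ 2 := rfl
    have h3 := (A.piece N i).d_le l hi
    have h4 := T.one_le_d l
    rw [h2]
    calc (T.d l) ^ 2 ≤ (A.C * (A.piece N i).D) ^ 2 := pow_le_pow_left₀ (by linarith) h3 2
      _ = A.C ^ 2 * (A.piece N i).D ^ 2 := by ring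
      _ ≤ A.C ^ 2 * ∑ i, (A.piece N i).D ^ 2 := by
          refine mul_le_mul_of_nonneg_left ?_ (by positivity)
          exact Finset.single_le_sum (f := fun i => (A.piece N i).D ^ 2)
            (fun i _ => by positivity) (Finset.mem_univ i)
  have h5 : ∑ i, (A.piece N i).D ^ 2 ≤ |Cθ| * 2 ^ (2 * M) * (N : ℝ) ^ (2 * M) := by
    have h6 := hCθ N
    have h7 : ∀ i, (A.piece N i).D ^ (2 : ℝ) = (A.piece N i).D ^ 2 := fun i => by
      rw [← Real.rpow_natCast]; norm_num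
    simp only [h7] at h6
    refine h6.trans ?_
    have h8 : ((N : ℝ) + 1) ^ ((M : ℝ) * 2) = ((N : ℝ) + 1) ^ (2 * M) := by
      rw [← Real.rpow_natCast]; push_cast; ring_nf
    rw [h8]
    calc Cθ * ((N : ℝ) + 1) ^ (2 * M) ≤ |Cθ| * (2 * (N : ℝ)) ^ (2 * M) := by
          refine mul_le_mul (le_abs_self _) ?_ (by positivity) (abs_nonneg _)
          exact pow_le_pow_left₀ (by positivity) (by linarith) _
      _ = _ := by rw [mul_pow]; ring
  calc ∑ l ∈ F, T.rk.D l ≤ ∑ _l ∈ F, A.C ^ 2 * ∑ i, (A.piece N i).D ^ 2 :=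
        Finset.sum_le_sum h1
    _ = F.card * (A.C ^ 2 * ∑ i, (A.piece N i).D ^ 2) := by rw [Finset.sum_const, nsmul_eq_mul]
    _ ≤ (3 * (N : ℝ)) ^ (Fintype.card ι) *
        (A.C ^ 2 * (|Cθ| * 2 ^ (2 * M) * (N : ℝ) ^ (2 * M))) := by
        refine mul_le_mul hcard ?_ ?_ (by positivity)
        · exact mul_le_mul_of_nonneg_left h5 (by positivity)
        · exact mul_nonneg (by positivity) (Finset.sum_nonneg fun i _ => by positivity)
    _ = K * (N : ℝ) ^ (Fintype.card ι + 2 * M) := by rw [hK, mul_pow, pow_add]; ring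
    _ ≤ (K + 1) * (N : ℝ) ^ (Fintype.card ι + 2 * M) :=
        mul_le_mul_of_nonneg_right (by linarith) (by positivity)

omit [IsTopologicalGroup G] [CompactSpace G] [T2Space G] [SecondCountableTopology G] [BorelSpace G]
  [Measure.IsHaarMeasure (volume : Measure G)] [IsProbabilityMeasure (volume : Measure G)] in
private lemma trm_inv : ∃ K : ℝ, 0 < K ∧ ∀ x : ι → ℝ,
    ∀ i, (x i) ^ 2 ≤ K * ∑ j, T.q j * (∑ i, (T.ell j i : ℝ) * x i) ^ 2 := by
  classical
  set L : Matrix ι ι ℚ := Matrix.of T.ell with hL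
  have hdet : L.det ≠ 0 := by
    intro h
    obtain ⟨v, hv, hv0⟩ := Matrix.exists_mulVec_eq_zero_iff.2 h
    apply hv
    refine T.ell_inj v fun j => ?_
    have := congrFun hv0 j
    simpa [Matrix.mulVec, dotProduct, hL] using this
  set LR : Matrix ι ι ℝ := L.map (algebraMap ℚ ℝ) with hLR
  have hdetR : LR.det ≠ 0 := by
    rw [hLR, ← RingHom.mapMatrix_apply, ← RingHom.map_det]
    simpa using hdet
  have hunit : IsUnit LR.det := isUnit_iff_ne_zero.2 hdetR
  set B : ℝ := ∑ i, ∑ j, (LR⁻¹ i j) ^ 2 / T.q j with hB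
  have hB0 : 0 ≤ B := Finset.sum_nonneg fun i _ => Finset.sum_nonneg fun j _ => by
    have := T.q_pos j
    positivity
  refine ⟨B + 1, by linarith, fun x i => ?_⟩
  set y : ι → ℝ := LR.mulVec x with hy
  have hx : x = LR⁻¹.mulVec y := by
    rw [hy, Matrix.mulVec_mulVec, Matrix.nonsing_inv_mul _ hunit, Matrix.one_mulVec]
  have hyj : ∀ j, y j = ∑ i, (T.ell j i : ℝ) * x i := by
    intro j
    simp [hy, Matrix.mulVec, dotProduct, hLR, hL]
  have h1 : x i = ∑ j, LR⁻¹ i j * y j := by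
    conv_lhs => rw [hx]
    rfl
  have h2 : (x i) ^ 2 ≤ (∑ j, (LR⁻¹ i j) ^ 2 / T.q j) * ∑ j, T.q j * (y j) ^ 2 := by
    rw [h1]
    have h3 : ∑ j, LR⁻¹ i j * y j =
        ∑ j, (LR⁻¹ i j / √(T.q j)) * (√(T.q j) * y j) := by
      refine Finset.sum_congr rfl fun j _ => ?_
      have : √(T.q j) ≠ 0 := (Real.sqrt_pos.2 (T.q_pos j)).ne'
      field_simp
    rw [h3]
    refine (Finset.sum_mul_sq_le_sq_mul_sq _ _ _).trans (le_of_eq ?_)
    congr 1
    · refine Finset.sum_congr rfl fun j _ => ?_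
      rw [div_pow, Real.sq_sqrt (T.q_pos j).le]
    · refine Finset.sum_congr rfl fun j _ => ?_
      rw [mul_pow, Real.sq_sqrt (T.q_pos j).le]
  have h4 : (∑ j, (LR⁻¹ i j) ^ 2 / T.q j) ≤ B + 1 := by
    have h5 : (∑ j, (LR⁻¹ i j) ^ 2 / T.q j) ≤ B := by
      rw [hB]
      refine Finset.single_le_sum (f := fun i => ∑ j, (LR⁻¹ i j) ^ 2 / T.q j) (fun i _ => ?_)
        (Finset.mem_univ i)
      exact Finset.sum_nonneg fun j _ => by
        have := T.q_pos j
        positivity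
    linarith
  have h6 : 0 ≤ ∑ j, T.q j * (y j) ^ 2 := Finset.sum_nonneg fun j _ =>
    mul_nonneg (T.q_pos j).le (sq_nonneg _)
  have h7 := h2.trans (mul_le_mul_of_nonneg_right h4 h6)
  simp only [hyj] at h7
  exact h7

omit [IsTopologicalGroup G] [CompactSpace G] [T2Space G] [SecondCountableTopology G] [BorelSpace G]
  [Measure.IsHaarMeasure (volume : Measure G)] [IsProbabilityMeasure (volume : Measure G)] in
lemma coercive : ∃ c : ℝ, 0 < c ∧ ∀ l, c * (1 + (T.size l : ℝ)) ^ 2 ≤ 1 + T.cas l := by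
  obtain ⟨K, hK, hKx⟩ := trm_inv T
  set H : ℝ := ∑ i, |T.eta i| with hH
  have hH0 : 0 ≤ H := Finset.sum_nonneg fun i _ => abs_nonneg _
  set R : ℝ := 1 + 2 * H * K with hR
  have hR1 : 1 ≤ R := by
    have : 0 ≤ 2 * H * K := by positivity
    linarith
  set c : ℝ := min (1 / 2) (min (1 / (4 * K)) (1 / R ^ 2)) with hc
  have hc0 : 0 < c := by
    rw [hc]
    refine lt_min (by norm_num) (lt_min (by positivity) (by positivity))
  have hc1 : c ≤ 1 / 2 := min_le_left _ _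
  have hc2 : c ≤ 1 / (4 * K) := (min_le_right _ _).trans (min_le_left _ _)
  have hc3 : c ≤ 1 / R ^ 2 := (min_le_right _ _).trans (min_le_right _ _)
  refine ⟨c, hc0, fun l => ?_⟩
  set S : ℝ := (T.size l : ℝ) with hS
  have hS0 : 0 ≤ S := by positivity
  have hw : ∀ i, |(T.w l i : ℝ)| ≤ S := fun i => trm_size T l (T.size l) le_rfl i
  have hSK : S ^ 2 ≤ K * ∑ j, T.q j * (∑ i, (T.ell j i : ℝ) * T.w l i) ^ 2 := by
    by_cases hne : (Finset.univ : Finset ι).Nonempty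
    · obtain ⟨i, _, hi⟩ := Finset.exists_mem_eq_sup Finset.univ hne (fun k => (T.w l k).natAbs)
      have h1 : S ^ 2 = ((T.w l i : ℝ)) ^ 2 := by
        have h2 : (T.size l : ℝ) = |(T.w l i : ℝ)| := by
          have : (T.size l : ℤ) = |T.w l i| := by
            unfold TFam.size
            rw [hi]
            simp
          exact_mod_cast this
        rw [hS, h2, sq_abs]
      rw [h1]
      exact hKx (fun i => (T.w l i : ℝ)) i
    · rw [Finset.not_nonempty_iff_eq_empty] at hne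
      have h1 : S = 0 := by
        rw [hS]
        unfold TFam.size
        rw [hne]
        simp
      rw [h1]
      have h2 : 0 ≤ ∑ j, T.q j * (∑ i, (T.ell j i : ℝ) * T.w l i) ^ 2 :=
        Finset.sum_nonneg fun j _ => mul_nonneg (T.q_pos j).le (sq_nonneg _)
      have h3 := mul_nonneg hK.le h2
      simpa using h3
  have heta : -(H * S) ≤ ∑ i, T.eta i * T.w l i := by
    have h1 : |∑ i, T.eta i * T.w l i| ≤ H * S := by
      calc |∑ i, T.eta i * T.w l i| ≤ ∑ i, |T.eta i * T.w l i| := Finset.abs_sum_le_sum_abs _ _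
        _ ≤ ∑ i, |T.eta i| * S := by
            refine Finset.sum_le_sum fun i _ => ?_
            rw [abs_mul]
            exact mul_le_mul_of_nonneg_left (hw i) (abs_nonneg _)
        _ = H * S := by rw [hH, Finset.sum_mul]
    exact (abs_le.1 h1).1
  have hcas := T.cas_eq l
  have hnn := T.cas_nonneg l
  set Q : ℝ := ∑ j, T.q j * (∑ i, (T.ell j i : ℝ) * T.w l i) ^ 2 with hQ
  by_cases hbig : 2 * H * K ≤ S
  · have h1 : S ^ 2 / K ≤ Q := by
      rw [div_le_iff₀ hK]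
      linarith
    have h2 : H * S ≤ S ^ 2 / (2 * K) := by
      rw [le_div_iff₀ (by positivity)]
      nlinarith
    have h3 : S ^ 2 / (2 * K) ≤ T.cas l := by
      have : S ^ 2 / K = S ^ 2 / (2 * K) + S ^ 2 / (2 * K) := by field_simp; ring
      linarith
    have h4 : c * (1 + S) ^ 2 ≤ c * (2 + 2 * S ^ 2) := by
      refine mul_le_mul_of_nonneg_left ?_ hc0.le
      nlinarith [sq_nonneg (1 - S)]
    have h5 : c * 2 ≤ 1 := by linarith
    have h6 : c * (2 * S ^ 2) ≤ S ^ 2 / (2 * K) := by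
      calc c * (2 * S ^ 2) ≤ 1 / (4 * K) * (2 * S ^ 2) :=
            mul_le_mul_of_nonneg_right hc2 (by positivity)
        _ = S ^ 2 / (2 * K) := by field_simp; ring
    nlinarith
  · rw [not_le] at hbig
    have h1 : (1 + S) ^ 2 ≤ R ^ 2 := pow_le_pow_left₀ (by positivity) (by rw [hR]; linarith) 2
    calc c * (1 + S) ^ 2 ≤ 1 / R ^ 2 * R ^ 2 := mul_le_mul hc3 h1 (by positivity) (by positivity)
      _ = 1 := by field_simp
      _ ≤ 1 + T.cas l := by linarith

/-- Strichartz estimate for finite sums -/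
theorem strichartz_fin [DecidableEq T.Λ] [Nonempty ι] {M : ℕ} (A : KernFam T M)
    (hR : ∀ q : ℝ, 2 + 4 / (Fintype.card ι : ℝ) < q → RectStr (Fintype.card ι) q)
    {p : ℝ} (hp : 2 + 4 / (Fintype.card ι : ℝ) < p) (T0 : ℝ) (hT0 : 0 < T0) :
    ∃ C : ℝ, 0 < C ∧ ∀ (F : Finset T.Λ) (f : T.Λ → G → ℂ), (∀ l ∈ F, T.rk.Mem l (f l)) →
      ∫ z, ‖STZ.evol T.cas F f z.1 z.2‖ ^ p ∂(STZ.stm G T0) ≤
        C * (∑ l ∈ F, (1 + T.cas l) ^ (((Fintype.card ι + 2 * M : ℕ) : ℝ) / 2 -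
          (((Fintype.card ι + 2 * M : ℕ) : ℝ) + 2) / p) * ∫ x, ‖f l x‖ ^ 2) ^ (p / 2) := by
  have hcard : 0 < Fintype.card ι := Fintype.card_pos
  have hr : (0 : ℝ) < (Fintype.card ι : ℝ) := by exact_mod_cast hcard
  have h4 : 0 < 4 / (Fintype.card ι : ℝ) := by positivity
  obtain ⟨c, hc, hcl⟩ := coercive T
  -- exponents
  set q1 : ℝ := (2 + 4 / (Fintype.card ι : ℝ)) + (p - (2 + 4 / (Fintype.card ι : ℝ))) / 3 with hq1
  set q2 : ℝ := (2 + 4 / (Fintype.card ι : ℝ)) + 2 * (p - (2 + 4 / (Fintype.card ι : ℝ))) / 3 with hq2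
  have e1 : 2 + 4 / (Fintype.card ι : ℝ) < q1 := by rw [hq1]; linarith
  have e2 : q1 < q2 := by rw [hq1, hq2]; linarith
  have e3 : q2 < p := by rw [hq2]; linarith
  have hT : TorStr (genPhase T.q T.ell T.eta) q1 :=
    torStr_gen (by linarith) (hR q1 e1) T.q T.q_pos T.ell T.ell_inj T.eta
  have hBE := be T A (q := q1) (p := q2) (by linarith) e2 hT
  have hs : 0 ≤ ((Fintype.card ι + 2 * M : ℕ) : ℝ) / 2 -
      (((Fintype.card ι + 2 * M : ℕ) : ℝ) + 2) / p := by
    set D : ℝ := ((Fintype.card ι + 2 * M : ℕ) : ℝ) with hD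
    have hDr : (Fintype.card ι : ℝ) ≤ D := by
      rw [hD]; push_cast; have : (0 : ℝ) ≤ M := by positivity
      linarith
    have hD0 : 0 < D := by linarith
    have hp0 : 0 < p := by linarith
    have h5 : 2 + 4 / D ≤ p := by
      have : 4 / D ≤ 4 / (Fintype.card ι : ℝ) := div_le_div_of_nonneg_left (by norm_num) hr hDr
      linarith
    have h6 : (D + 2) / p ≤ D / 2 := by
      rw [div_le_div_iff₀ hp0 (by norm_num)]
      have h7 : (2 + 4 / D) * D ≤ p * D := mul_le_mul_of_nonneg_right h5 hD0.le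
      have h8 : (2 + 4 / D) * D = 2 * D + 4 := by field_simp
      nlinarith
    linarith
  exact STZ.Hs_of_BE T.rk T.cas T.size (Fintype.card ι + 2 * M) q2 p (by linarith) e3 hs hBE
    (ds T A) c hc hcl T0 hT0

end STC
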