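import Pool.Agent.STC.TRrk

/-!
# STC/TRpair: the `L²` bound and the pairing identity

PROOF. `cop_L2`. Let `W = Cop k h`, `k = ∑ κ_l φ_l`, so `W = ∑ κ_l Cop φ_l h`. For `l ≠ m`
`∫∫ Cop φ_l h conj (Cop φ_m h) = 0` and `∫∫ |Cop φ_l h|² = d_l⁻³ ∫ P_l h conj h` : write
`conj (Cop φ_m h z g) = ∫ conj (h x) φ_m(z⁻¹ x g) dx` (`φ_inv`) and use `cop_rk` (Fubini, bounded
measurable). So `∫∫ |W|² = ∑ κ_l² d_l⁻³ ∫ P_l h conj h ≤ B ∑ ∫ P_l h conj h`, and
`∫ P_l h conj h = ∫ |P_l h|² ≥ 0`, `∑_l ∫ |P_l h|² ≤ ∫ |h|²` (`STZ.bessel`, `STZ.inner_P` in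
`Pool/Agent/STZ/Proj.lean`).
`pairing`: `conj (Cop k h z g) = ∫ conj (h x) ∑_m κ_m φ_m(z⁻¹ x g) dx`; by Fubini the right side is
`∫ conj (h x) ∑_{l,m} c_l (d_l³/κ_l) κ_m (∫∫ Cop φ_l f_l (z,g) φ_m(z⁻¹ x g)) dx`, and `cop_rk` with
`P_l f_l = f_l` gives `∑ c_l f_l(x)` (`s ⊆ supp`).
-/

open MeasureTheory Complex
open scoped ComplexConjugate

namespace STC

variable {G : Type} [Group G] [TopologicalSpace G] [IsTopologicalGroup G] [CompactSpace G] [T2Space G]
  [SecondCountableTopology G] [MeasureSpace G] [BorelSpace G]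
  [Measure.IsHaarMeasure (volume : Measure G)] [IsProbabilityMeasure (volume : Measure G)]
  {ι : Type} [Fintype ι] (T : TFam G ι)

private lemma TRpair_cop_bound (l : T.Λ) {f : G → ℂ} {B : ℝ} (hb : ∀ x, ‖f x‖ ≤ B) (z g : G) :
    ‖Cop (T.φ l) f z g‖ ≤ B := by
  unfold Cop
  have h0 : 0 ≤ B := (norm_nonneg _).trans (hb 1)
  have h1 := norm_integral_le_of_norm_le_const (μ := (volume : Measure G))
    (f := fun x => f x * T.φ l (g⁻¹ * x⁻¹ * z)) (C := B)
    (Filter.Eventually.of_forall fun x => by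
      rw [norm_mul]
      calc ‖f x‖ * ‖T.φ l (g⁻¹ * x⁻¹ * z)‖ ≤ B * 1 :=
            mul_le_mul (hb x) (T.φ_le l _) (norm_nonneg _) h0
        _ = B := mul_one B)
  simpa using h1

private lemma TRpair_cop_conj (m : T.Λ) (h : G → ℂ) (z g : G) :
    conj (Cop (T.φ m) h z g) = ∫ x, conj (h x) * T.φ m (z⁻¹ * x * g) := by
  unfold Cop
  rw [← integral_conj]
  refine integral_congr_ae (Filter.Eventually.of_forall fun x => ?_)
  simp only [map_mul]
  rw [T.φ_inv]
  congr 2
  group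

private lemma TRpair_swap3 {F : G → G → G → ℂ} {C : ℝ}
    (hF : Measurable fun p : G × G × G => F p.1 p.2.1 p.2.2) (hC : ∀ g z x, ‖F g z x‖ ≤ C) :
    ∫ g, ∫ z, ∫ x, F g z x = ∫ x, ∫ z, ∫ g, F g z x := by
  have h1 : ∀ g, ∫ z, ∫ x, F g z x = ∫ x, ∫ z, F g z x := fun g =>
    STZ.RK.swap_bdd (C := C)
      (hF.comp (measurable_const.prodMk (measurable_fst.prodMk measurable_snd))) (hC g)
  have h2 : ∀ x, ∫ g, ∫ z, F g z x = ∫ z, ∫ g, F g z x := fun x =>
    STZ.RK.swap_bdd (C := C) (f := fun g z => F g z x)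
      (hF.comp (measurable_fst.prodMk (measurable_snd.prodMk measurable_const)))
      (fun g z => hC g z x)
  simp only [h1]
  have h3 : StronglyMeasurable fun p : G × G => ∫ z, F p.1 z p.2 := by
    have h4 : StronglyMeasurable fun q : (G × G) × G => F q.1.1 q.2 q.1.2 :=
      (hF.comp ((measurable_fst.comp measurable_fst).prodMk
        (measurable_snd.prodMk (measurable_snd.comp measurable_fst)))).stronglyMeasurable
    exact h4.integral_prod_right'
  rw [STZ.RK.swap_bdd (C := C) (f := fun g x => ∫ z, F g z x) h3.measurable]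
  · simp only [h2]
  · intro g x
    have h5 := norm_integral_le_of_norm_le_const (μ := (volume : Measure G))
      (f := fun z => F g z x) (C := C) (Filter.Eventually.of_forall fun z => hC g z x)
    simpa using h5

private lemma TRpair_cross [DecidableEq T.Λ] (l m : T.Λ) {f h : G → ℂ} {B B' : ℝ}
    (hf : Measurable f) (hfb : ∀ x, ‖f x‖ ≤ B) (hh : Measurable h) (hhb : ∀ x, ‖h x‖ ≤ B') :
    ∫ g, ∫ z, Cop (T.φ l) f z g * conj (Cop (T.φ m) h z g) =
      if l = m then (∫ x, T.rk.P l f x * conj (h x)) / (T.d l : ℂ) ^ 3 else 0 := by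
  have hB0 : 0 ≤ B := (norm_nonneg _).trans (hfb 1)
  have hB0' : 0 ≤ B' := (norm_nonneg _).trans (hhb 1)
  have hcc := cop_cont (T.cont l) hf hfb
  have hcm : Measurable fun x => conj (h x) := Complex.continuous_conj.measurable.comp hh
  have e1 : ∀ g z, Cop (T.φ l) f z g * conj (Cop (T.φ m) h z g) =
      ∫ x, conj (h x) * (Cop (T.φ l) f z g * T.φ m (z⁻¹ * x * g)) := by
    intro g z
    rw [TRpair_cop_conj, ← integral_const_mul]
    refine integral_congr_ae (Filter.Eventually.of_forall fun x => ?_)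
    simp only
    ring
  simp only [e1]
  rw [TRpair_swap3 (C := B' * (B * 1))]
  · have e2 : ∀ x, ∫ z, ∫ g, conj (h x) * (Cop (T.φ l) f z g * T.φ m (z⁻¹ * x * g)) =
        conj (h x) * if l = m then T.rk.P l f x / (T.d l : ℂ) ^ 3 else 0 := by
      intro x
      simp only [integral_const_mul]
      rw [cop_rk T l m hf hfb x]
    simp only [e2]
    by_cases hlm : l = m
    · simp only [if_pos hlm]
      rw [← integral_div]
      refine integral_congr_ae (Filter.Eventually.of_forall fun x => ?_)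
      simp only
      ring
    · simp only [if_neg hlm, mul_zero, integral_zero]
  · refine (hcm.comp (measurable_snd.comp measurable_snd)).mul (Measurable.mul ?_ ?_)
    · exact (hcc.comp ((continuous_fst.comp continuous_snd).prodMk continuous_fst)).measurable
    · refine ((T.cont m).comp ?_).measurable
      exact ((continuous_fst.comp continuous_snd).inv.mul
        (continuous_snd.comp continuous_snd)).mul continuous_fst
  · intro g z x
    rw [norm_mul, norm_mul, RCLike.norm_conj]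
    exact mul_le_mul (hhb x) (mul_le_mul (TRpair_cop_bound T l hfb z g) (T.φ_le m _)
      (norm_nonneg _) hB0) (by positivity) hB0'

private lemma TRpair_cop_sum (supp : Finset T.Λ) (κ : T.Λ → ℝ) {h : G → ℂ} {B : ℝ}
    (hh : Measurable h) (hb : ∀ x, ‖h x‖ ≤ B) (z g : G) :
    Cop (fun y => ∑ l ∈ supp, (κ l : ℂ) * T.φ l y) h z g =
      ∑ l ∈ supp, (κ l : ℂ) * Cop (T.φ l) h z g := by
  unfold Cop
  have e : ∀ x, h x * ∑ l ∈ supp, (κ l : ℂ) * T.φ l (g⁻¹ * x⁻¹ * z) =
      ∑ l ∈ supp, (κ l : ℂ) * (h x * T.φ l (g⁻¹ * x⁻¹ * z)) := by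
    intro x
    rw [Finset.mul_sum]
    refine Finset.sum_congr rfl fun l _ => ?_
    ring
  simp only [e]
  rw [integral_finsetSum]
  · refine Finset.sum_congr rfl fun l _ => ?_
    rw [integral_const_mul]
  · intro l _
    refine Integrable.const_mul ?_ _
    refine STZ.RK.integrable_bdd (C := B * 1) (hh.mul ?_) fun x => ?_
    · exact ((T.cont l).comp ((continuous_const.mul continuous_inv).mul
        continuous_const)).measurable
    · rw [norm_mul]
      exact mul_le_mul (hb x) (T.φ_le l _) (norm_nonneg _) ((norm_nonneg _).trans (hb 1))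

/-- expansion of a double integral of a product of two finite sums -/
private lemma TRpair_expand {α β : Type} (s : Finset α) (s' : Finset β) (a : α → ℂ) (b : β → ℂ)
    (u : α → G → G → ℂ) (v : β → G → G → ℂ)
    (hu : ∀ l, Continuous fun p : G × G => u l p.1 p.2)
    (hv : ∀ m, Continuous fun p : G × G => v m p.1 p.2) :
    ∫ g, ∫ z, (∑ l ∈ s, a l * u l z g) * (∑ m ∈ s', b m * v m z g) =
      ∑ l ∈ s, ∑ m ∈ s', a l * b m * ∫ g, ∫ z, u l z g * v m z g := by
  have hc : ∀ l m, Continuous fun p : G × G => u l p.2 p.1 * v m p.2 p.1 := fun l m =>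
    ((hu l).comp continuous_swap).mul ((hv m).comp continuous_swap)
  have e1 : ∀ g z, (∑ l ∈ s, a l * u l z g) * (∑ m ∈ s', b m * v m z g) =
      ∑ l ∈ s, ∑ m ∈ s', a l * b m * (u l z g * v m z g) := by
    intro g z
    rw [Finset.sum_mul]
    refine Finset.sum_congr rfl fun l _ => ?_
    rw [Finset.mul_sum]
    refine Finset.sum_congr rfl fun m _ => ?_
    ring
  have hi : ∀ l m g, Integrable fun z => u l z g * v m z g := fun l m g =>
    int_of_cont ((hc l m).comp (continuous_const.prodMk continuous_id))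
  have e2 : ∀ g, ∫ z, (∑ l ∈ s, a l * u l z g) * (∑ m ∈ s', b m * v m z g) =
      ∑ l ∈ s, ∑ m ∈ s', a l * b m * ∫ z, u l z g * v m z g := by
    intro g
    simp only [e1]
    rw [integral_finsetSum _ fun l _ =>
      integrable_finsetSum _ fun m _ => (hi l m g).const_mul (a l * b m)]
    refine Finset.sum_congr rfl fun l _ => ?_
    rw [integral_finsetSum _ fun m _ => (hi l m g).const_mul (a l * b m)]
    refine Finset.sum_congr rfl fun m _ => ?_
    rw [integral_const_mul]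
  simp only [e2]
  have hi2 : ∀ l m, Integrable fun g => ∫ z, u l z g * v m z g := fun l m =>
    int_of_cont (cont_int (f := fun z g => u l z g * v m z g)
      ((hu l).mul (hv m)))
  rw [integral_finsetSum _ fun l _ =>
    integrable_finsetSum _ fun m _ => (hi2 l m).const_mul (a l * b m)]
  refine Finset.sum_congr rfl fun l _ => ?_
  rw [integral_finsetSum _ fun m _ => (hi2 l m).const_mul (a l * b m)]
  refine Finset.sum_congr rfl fun m _ => ?_
  rw [integral_const_mul]

lemma cop_L2 [DecidableEq T.Λ] (supp : Finset T.Λ) (κ : T.Λ → ℝ) {B : ℝ} (hB : 0 ≤ B)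
    (hκ : ∀ l ∈ supp, κ l ^ 2 ≤ B * T.d l ^ 3) {h : G → ℂ} {B' : ℝ} (hh : Measurable h)
    (hb : ∀ x, ‖h x‖ ≤ B') :
    ∫ g, ∫ z, ‖Cop (fun y => ∑ l ∈ supp, (κ l : ℂ) * T.φ l y) h z g‖ ^ 2 ≤ B * ∫ x, ‖h x‖ ^ 2 := by
  have key : ((∫ g, ∫ z, ‖Cop (fun y => ∑ l ∈ supp, (κ l : ℂ) * T.φ l y) h z g‖ ^ 2 : ℝ) : ℂ) =
      ((∑ l ∈ supp, κ l ^ 2 / T.d l ^ 3 * ∫ x, ‖T.rk.P l h x‖ ^ 2 : ℝ) : ℂ) := by
    have e0 : ((∫ g, ∫ z, ‖Cop (fun y => ∑ l ∈ supp, (κ l : ℂ) * T.φ l y) h z g‖ ^ 2 : ℝ) : ℂ) =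
        ∫ g, ∫ z, (∑ l ∈ supp, (κ l : ℂ) * Cop (T.φ l) h z g) *
          (∑ m ∈ supp, (κ m : ℂ) * conj (Cop (T.φ m) h z g)) := by
      rw [← integral_complex_ofReal]
      refine integral_congr_ae (Filter.Eventually.of_forall fun g => ?_)
      simp only
      rw [← integral_complex_ofReal]
      refine integral_congr_ae (Filter.Eventually.of_forall fun z => ?_)
      simp only
      rw [TRpair_cop_sum T supp κ hh hb]
      have : (∑ m ∈ supp, (κ m : ℂ) * conj (Cop (T.φ m) h z g)) =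
          conj (∑ l ∈ supp, (κ l : ℂ) * Cop (T.φ l) h z g) := by
        rw [map_sum]
        refine Finset.sum_congr rfl fun m _ => ?_
        rw [map_mul, Complex.conj_ofReal]
      rw [this, Complex.mul_conj, Complex.normSq_eq_norm_sq]
    rw [e0, TRpair_expand supp supp (fun l => (κ l : ℂ)) (fun m => (κ m : ℂ))
      (fun l z g => Cop (T.φ l) h z g) (fun m z g => conj (Cop (T.φ m) h z g))
      (fun l => cop_cont (T.cont l) hh hb)
      (fun m => Complex.continuous_conj.comp (cop_cont (T.cont m) hh hb))]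
    rw [Complex.ofReal_sum]
    refine Finset.sum_congr rfl fun l hl => ?_
    simp only [TRpair_cross T l _ hh hb hh hb]
    rw [Finset.sum_eq_single_of_mem l hl]
    · rw [if_pos rfl, ← T.rk.inner_P l hh hb hh hb, ← STZ.RK.sq_eq]
      push_cast
      ring
    · intro m _ hne
      rw [if_neg (Ne.symm hne), mul_zero]
  have key' : ∫ g, ∫ z, ‖Cop (fun y => ∑ l ∈ supp, (κ l : ℂ) * T.φ l y) h z g‖ ^ 2 =
      ∑ l ∈ supp, κ l ^ 2 / T.d l ^ 3 * ∫ x, ‖T.rk.P l h x‖ ^ 2 := by
    exact_mod_cast key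
  rw [key']
  have hd : ∀ l, 0 < T.d l := fun l => zero_lt_one.trans_le (T.one_le_d l)
  calc ∑ l ∈ supp, κ l ^ 2 / T.d l ^ 3 * ∫ x, ‖T.rk.P l h x‖ ^ 2
      ≤ ∑ l ∈ supp, B * ∫ x, ‖T.rk.P l h x‖ ^ 2 := by
        refine Finset.sum_le_sum fun l hl => ?_
        refine mul_le_mul_of_nonneg_right ?_ (integral_nonneg fun x => by positivity)
        rw [div_le_iff₀ (pow_pos (hd l) 3)]
        exact hκ l hl
    _ = B * ∑ l ∈ supp, ∫ x, ‖T.rk.P l h x‖ ^ 2 := by rw [Finset.mul_sum]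
    _ ≤ B * ∫ x, ‖h x‖ ^ 2 := mul_le_mul_of_nonneg_left (T.rk.bessel supp hh hb) hB

lemma pairing [DecidableEq T.Λ] (supp s : Finset T.Λ) (hs : s ⊆ supp) (κ : T.Λ → ℝ)
    (hκ : ∀ l ∈ s, κ l ≠ 0) (c : T.Λ → ℂ) (f : T.Λ → G → ℂ) (hf : ∀ l ∈ s, T.rk.Mem l (f l))
    {h : G → ℂ} {B : ℝ} (hh : Measurable h) (hb : ∀ x, ‖h x‖ ≤ B) :
    ∫ x, (∑ l ∈ s, c l * f l x) * conj (h x) =
      ∫ g, ∫ z, (∑ l ∈ s, c l * (((T.d l) ^ 3 / κ l : ℝ) : ℂ) * Cop (T.φ l) (f l) z g) *
        conj (Cop (fun y => ∑ l ∈ supp, (κ l : ℂ) * T.φ l y) h z g) := by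
  classical
  -- replace `f l` by `0` outside `s`
  set f' : T.Λ → G → ℂ := fun l => if l ∈ s then f l else 0 with hf'
  have hff : ∀ l ∈ s, f' l = f l := fun l hl => by rw [hf']; simp only [if_pos hl]
  have hfc : ∀ l, Continuous (f' l) := by
    intro l
    by_cases hl : l ∈ s
    · rw [hff l hl]; exact (hf l hl).1
    · rw [hf']; simp only [if_neg hl]; exact continuous_const
  have hfb : ∀ l, ∃ C, ∀ x, ‖f' l x‖ ≤ C := by
    intro l
    obtain ⟨C, hC⟩ := (isCompact_range (continuous_norm.comp (hfc l))).bddAbove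
    exact ⟨C, fun x => hC ⟨x, rfl⟩⟩
  have hcm : Measurable fun x => conj (h x) := Complex.continuous_conj.measurable.comp hh
  have e1 : ∀ g z, (∑ l ∈ s, c l * (((T.d l) ^ 3 / κ l : ℝ) : ℂ) * Cop (T.φ l) (f l) z g) *
        conj (Cop (fun y => ∑ l ∈ supp, (κ l : ℂ) * T.φ l y) h z g) =
      (∑ l ∈ s, (c l * (((T.d l) ^ 3 / κ l : ℝ) : ℂ)) * Cop (T.φ l) (f' l) z g) *
        (∑ m ∈ supp, (κ m : ℂ) * conj (Cop (T.φ m) h z g)) := by
    intro g z
    congr 1
    · refine Finset.sum_congr rfl fun l hl => ?_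
      rw [hff l hl]
    · rw [TRpair_cop_sum T supp κ hh hb, map_sum]
      refine Finset.sum_congr rfl fun m _ => ?_
      rw [map_mul, Complex.conj_ofReal]
  simp only [e1]
  rw [TRpair_expand s supp (fun l => c l * (((T.d l) ^ 3 / κ l : ℝ) : ℂ)) (fun m => (κ m : ℂ))
    (fun l z g => Cop (T.φ l) (f' l) z g) (fun m z g => conj (Cop (T.φ m) h z g))
    (fun l => cop_cont (T.cont l) (hfc l).measurable (hfb l).choose_spec)
    (fun m => Complex.continuous_conj.comp (cop_cont (T.cont m) hh hb))]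
  have e2 : ∀ x, (∑ l ∈ s, c l * f l x) * conj (h x) = ∑ l ∈ s, c l * (f' l x * conj (h x)) := by
    intro x
    rw [Finset.sum_mul]
    refine Finset.sum_congr rfl fun l hl => ?_
    rw [hff l hl]
    ring
  simp only [e2]
  rw [integral_finsetSum]
  · refine Finset.sum_congr rfl fun l hl => ?_
    have hd : (T.d l : ℂ) ≠ 0 := by
      have := T.one_le_d l
      exact_mod_cast (by linarith : T.d l ≠ 0)
    have hk : (κ l : ℂ) ≠ 0 := by exact_mod_cast hκ l hl
    simp only [TRpair_cross T l _ (hfc l).measurable (hfb l).choose_spec hh hb]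
    rw [Finset.sum_eq_single_of_mem l (hs hl)]
    · rw [if_pos rfl, integral_const_mul]
      have hP : ∀ x, T.rk.P l (f' l) x = f' l x := by
        intro x
        rw [hff l hl]
        exact (hf l hl).2 x
      simp only [hP]
      push_cast
      field_simp
    · intro m _ hne
      rw [if_neg (Ne.symm hne), mul_zero]
  · intro l _
    refine Integrable.const_mul ?_ _
    obtain ⟨C, hC⟩ := hfb l
    refine STZ.RK.integrable_bdd (C := C * B) ((hfc l).measurable.mul hcm) fun x => ?_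
    rw [norm_mul, RCLike.norm_conj]
    exact mul_le_mul (hC x) (hb x) (norm_nonneg _) ((norm_nonneg _).trans (hC x))

end STC
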