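import Pool.Agent.STC.TRrk
import Pool.Agent.STC.TorusDefs
import Pool.Agent.STZ.Mink

/-!
# STC/TRphi: the torus estimate applied to `Φ`

PROOF. Fix `g` and put `F_l(z) = a_l Cop φ_l (f_l) z g` (continuous). For `x : ι → ℝ/ℤ` choose lifts
`θ_j ∈ ℝ` with `x_j = θ_j/(2π)`. By right invariance of the Haar measure (`int_right`) and `cop_tor`,
for every `t`: `∫_z ‖∑ e^{-it cas} F_l(z)‖^q = ∫_z ‖∑ e^{-it cas} F_l(z) e^{i w_l θ}‖^q =
∫_z ‖∑_{k ∈ w(s)} b_k(z) e^{-it om(k)} chr k x‖^q`, with `b_{w_l}(z) = F_l(z)` (`w` is injective),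
`om = genPhase`, `om(w_l) = cas l` (`cas_eq`), `e^{i w θ} = chr w x`. Integrate over `x` (probability
measure) and over `t`, interchange (continuous functions, compact spaces) and apply `hT` for every
`z`: `≤ C N^{...} ∫_z (∑ ‖F_l(z)‖²)^{q/2} dz`. Minkowski in `L^{q/2}` (`q ≥ 2`; see
`Pool/Agent/STZ/Mink.lean`): `≤ C N^{...} (∑_l (∫ ‖F_l‖^q)^{2/q})^{q/2}`, and by `cop_sup`
`∫ ‖F_l‖^q ≤ (sup ‖F_l‖²)^{(q-2)/2} ∫ ‖F_l‖² ≤ (d_l ∫ ‖F_l‖²)^{(q-2)/2} ∫ ‖F_l‖²`, so
`(∫ ‖F_l‖^q)^{2/q} ≤ d_l^{1-2/q} ∫ ‖F_l‖²`.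
-/

open MeasureTheory Complex
open scoped ComplexConjugate

namespace STC

set_option linter.unusedSectionVars false

namespace TRphi

/-- `chr k x` at lifted coordinates. -/
lemma chr_lift {ι : Type} [Fintype ι] (k : ι → ℤ) (θ : ι → ℝ) :
    chr k (fun j => ((θ j / (2 * Real.pi) : ℝ) : UnitAddCircle)) =
      cexp (I * ((∑ j, (k j : ℝ) * θ j : ℝ) : ℂ)) := by
  unfold chr
  have h1 : ∀ j, (fourier (k j) ((θ j / (2 * Real.pi) : ℝ) : UnitAddCircle) : ℂ) =
      cexp (I * ((k j : ℝ) * θ j : ℝ)) := by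
    intro j
    rw [fourier_coe_apply]
    congr 1
    have hpi : (Real.pi : ℂ) ≠ 0 := by exact_mod_cast Real.pi_ne_zero
    push_cast
    field_simp
  rw [Finset.prod_congr rfl fun j _ => h1 j, ← Complex.exp_sum]
  congr 1
  push_cast
  rw [Finset.mul_sum]

lemma exists_lift {ι : Type} [Fintype ι] (x : ι → UnitAddCircle) :
    ∃ θ : ι → ℝ, x = fun j => ((θ j / (2 * Real.pi) : ℝ) : UnitAddCircle) := by
  have h : ∀ j, ∃ r : ℝ, ((r : ℝ) : UnitAddCircle) = x j := fun j =>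
    QuotientAddGroup.mk_surjective (x j)
  choose r hr using h
  refine ⟨fun j => r j * (2 * Real.pi), ?_⟩
  funext j
  rw [← hr j]
  congr 1
  have hpi : Real.pi ≠ 0 := Real.pi_ne_zero
  field_simp

instance prob_uac : IsProbabilityMeasure (volume : Measure UnitAddCircle) :=
  ⟨UnitAddCircle.measure_univ⟩

lemma chr_cont {ι : Type} [Fintype ι] (k : ι → ℤ) : Continuous (chr k) := by
  unfold chr
  refine continuous_finsetProd _ fun j _ => ?_
  exact (fourier (k j)).continuous.comp (continuous_apply j)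

lemma chr_norm {ι : Type} [Fintype ι] (k : ι → ℤ) (x : ι → UnitAddCircle) : ‖chr k x‖ = 1 := by
  unfold chr
  rw [norm_prod]
  refine Finset.prod_eq_one fun j _ => ?_
  rw [fourier_apply]
  exact Circle.norm_coe _

end TRphi

open TRphi

variable {G : Type} [Group G] [TopologicalSpace G] [IsTopologicalGroup G] [CompactSpace G] [T2Space G]
  [SecondCountableTopology G] [MeasureSpace G] [BorelSpace G]
  [Measure.IsHaarMeasure (volume : Measure G)] [IsProbabilityMeasure (volume : Measure G)]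
  {ι : Type} [Fintype ι] (T : TFam G ι)

private lemma int_right_real (f : G → ℝ) (y : G) : ∫ z, f (z * y) = ∫ z, f z := by
  have h := int_right (K := G) (fun z => (f z : ℂ)) y
  rw [integral_complex_ofReal, integral_complex_ofReal] at h
  exact_mod_cast h

private lemma fub3 {X : Type} [TopologicalSpace X] [SecondCountableTopology X] [MeasureSpace X]
    [BorelSpace X] [IsProbabilityMeasure (volume : Measure X)]
    (H : ℝ → X → G → ℝ) (hHc : Continuous fun p : (ℝ × X) × G => H p.1.1 p.1.2 p.2)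
    {B : ℝ} (hHb : ∀ t x z, ‖H t x z‖ ≤ B) (T0 : ℝ) :
    (∫ t in Set.Icc (0 : ℝ) T0, ∫ x, ∫ z, H t x z =
      ∫ z, ∫ t in Set.Icc (0 : ℝ) T0, ∫ x, H t x z) ∧
    Integrable fun z => ∫ t in Set.Icc (0 : ℝ) T0, ∫ x, H t x z := by
  have hfin : IsFiniteMeasure ((volume : Measure ℝ).restrict (Set.Icc (0 : ℝ) T0)) :=
    ⟨by rw [Measure.restrict_apply_univ]; exact measure_Icc_lt_top⟩
  have hb4 : ∀ t z, ‖∫ x, H t x z‖ ≤ B := by
    intro t z
    have h4 := norm_integral_le_of_norm_le_const (μ := (volume : Measure X))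
      (f := fun x => H t x z) (C := B)
      (Filter.Eventually.of_forall fun x => hHb t x z)
    simpa using h4
  have h2 : Continuous fun p : (ℝ × G) × X => H p.1.1 p.2 p.1.2 :=
    hHc.comp (((continuous_fst.comp continuous_fst).prodMk continuous_snd).prodMk
      (continuous_snd.comp continuous_fst))
  have h3 : StronglyMeasurable fun p : ℝ × G => ∫ x, H p.1 x p.2 :=
    StronglyMeasurable.integral_prod_right (f := fun (p : ℝ × G) (x : X) => H p.1 x p.2)
      h2.stronglyMeasurable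
  have h5 : StronglyMeasurable fun p : G × ℝ => ∫ x, H p.2 x p.1 :=
    h3.comp_measurable measurable_swap
  have h6 : StronglyMeasurable fun z : G => ∫ t in Set.Icc (0 : ℝ) T0, ∫ x, H t x z :=
    StronglyMeasurable.integral_prod_right (f := fun (z : G) (t : ℝ) => ∫ x, H t x z)
      h5
  constructor
  · have hA : ∀ t, ∫ x, ∫ z, H t x z = ∫ z, ∫ x, H t x z := by
      intro t
      refine integral_integral_swap ?_
      refine Integrable.of_bound (C := B) ?_
        (Filter.Eventually.of_forall fun p => hHb t p.1 p.2)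
      have : Continuous fun p : X × G => H t p.1 p.2 :=
        hHc.comp ((continuous_const.prodMk continuous_fst).prodMk continuous_snd)
      exact this.aestronglyMeasurable
    simp only [hA]
    refine integral_integral_swap ?_
    exact Integrable.of_bound (C := B) h3.aestronglyMeasurable
      (Filter.Eventually.of_forall fun p => hb4 p.1 p.2)
  · refine Integrable.of_bound (C := B * ((volume : Measure ℝ).restrict
      (Set.Icc (0 : ℝ) T0)).real Set.univ) h6.aestronglyMeasurable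
      (Filter.Eventually.of_forall fun z => ?_)
    exact norm_integral_le_of_norm_le_const (Filter.Eventually.of_forall fun t => hb4 t z)

private lemma bound_l [DecidableEq T.Λ] {q : ℝ} (hq : 2 ≤ q) (l : T.Λ) (a : ℝ) {f : G → ℂ}
    (hf : Continuous f) (g : G) :
    (∫ z, (‖(a : ℂ) * Cop (T.φ l) f z g‖ ^ 2) ^ (q / 2)) ^ (1 / (q / 2)) ≤
      a ^ 2 * T.d l ^ (1 - 2 / q) * ∫ z, ‖Cop (T.φ l) f z g‖ ^ 2 := by
  obtain ⟨B, hB⟩ := (isCompact_range (continuous_norm.comp hf)).bddAbove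
  have hB' : ∀ x, ‖f x‖ ≤ B := fun x => hB ⟨x, rfl⟩
  have hc : Continuous fun z => Cop (T.φ l) f z g :=
    (cop_cont (T.cont l) hf.measurable hB').comp (continuous_id.prodMk continuous_const)
  set J : ℝ := ∫ z, ‖Cop (T.φ l) f z g‖ ^ 2 with hJ
  have hJ0 : 0 ≤ J := integral_nonneg fun z => by positivity
  have hd : 0 < T.d l := zero_lt_one.trans_le (T.one_le_d l)
  have hq0 : 0 < q := by linarith
  have hq2 : 0 < q / 2 := by linarith
  have hsup : ∀ z, ‖Cop (T.φ l) f z g‖ ^ 2 ≤ T.d l * J := fun z =>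
    cop_sup T l hf.measurable hB' z g
  have hpt : ∀ z, (‖(a : ℂ) * Cop (T.φ l) f z g‖ ^ 2) ^ (q / 2) ≤
      ((a ^ 2) ^ (q / 2) * (T.d l * J) ^ (q / 2 - 1)) * ‖Cop (T.φ l) f z g‖ ^ 2 := by
    intro z
    have h1 : ‖(a : ℂ) * Cop (T.φ l) f z g‖ ^ 2 = a ^ 2 * ‖Cop (T.φ l) f z g‖ ^ 2 := by
      rw [norm_mul, mul_pow, Complex.norm_real, Real.norm_eq_abs, sq_abs]
    rw [h1, Real.mul_rpow (by positivity) (by positivity), mul_assoc]
    refine mul_le_mul_of_nonneg_left ?_ (by positivity)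
    set S : ℝ := ‖Cop (T.φ l) f z g‖ ^ 2 with hS
    have hS0 : 0 ≤ S := by positivity
    have h2 : S ^ (q / 2) = S ^ (q / 2 - 1) * S := by
      rcases hS0.eq_or_lt with h | h
      · rw [← h, Real.zero_rpow hq2.ne', mul_zero]
      · conv_lhs => rw [show q / 2 = (q / 2 - 1) + 1 by ring]
        rw [Real.rpow_add h, Real.rpow_one]
    rw [h2]
    refine mul_le_mul_of_nonneg_right ?_ hS0
    exact Real.rpow_le_rpow hS0 (hsup z) (by linarith)
  have hint1 : Integrable fun z => (‖(a : ℂ) * Cop (T.φ l) f z g‖ ^ 2) ^ (q / 2) := by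
    have hcc : Continuous fun z => (‖(a : ℂ) * Cop (T.φ l) f z g‖ ^ 2) ^ (q / 2) :=
      (((continuous_const.mul hc).norm).pow 2).rpow_const fun z => Or.inr hq2.le
    exact hcc.integrable_of_hasCompactSupport (HasCompactSupport.of_compactSpace _)
  have hint2 : Integrable fun z =>
      ((a ^ 2) ^ (q / 2) * (T.d l * J) ^ (q / 2 - 1)) * ‖Cop (T.φ l) f z g‖ ^ 2 := by
    have hcc : Continuous fun z =>
        ((a ^ 2) ^ (q / 2) * (T.d l * J) ^ (q / 2 - 1)) * ‖Cop (T.φ l) f z g‖ ^ 2 :=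
      continuous_const.mul (hc.norm.pow 2)
    exact hcc.integrable_of_hasCompactSupport (HasCompactSupport.of_compactSpace _)
  have h3 : ∫ z, (‖(a : ℂ) * Cop (T.φ l) f z g‖ ^ 2) ^ (q / 2) ≤
      ((a ^ 2) ^ (q / 2) * (T.d l * J) ^ (q / 2 - 1)) * J := by
    calc _ ≤ ∫ z, ((a ^ 2) ^ (q / 2) * (T.d l * J) ^ (q / 2 - 1)) *
          ‖Cop (T.φ l) f z g‖ ^ 2 := integral_mono hint1 hint2 hpt
      _ = _ := by rw [integral_const_mul]
  have hr : 1 / (q / 2) = 2 / q := by field_simp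
  have hI0 : 0 ≤ ∫ z, (‖(a : ℂ) * Cop (T.φ l) f z g‖ ^ 2) ^ (q / 2) :=
    integral_nonneg fun z => Real.rpow_nonneg (by positivity) _
  refine (Real.rpow_le_rpow hI0 h3 (by positivity)).trans ?_
  rw [hr]
  have h4 : ((a ^ 2) ^ (q / 2) * (T.d l * J) ^ (q / 2 - 1)) * J =
      (a ^ 2) ^ (q / 2) * (T.d l ^ (q / 2 - 1) * J ^ (q / 2)) := by
    rw [Real.mul_rpow hd.le hJ0]
    have h5 : J ^ (q / 2) = J ^ (q / 2 - 1) * J := by
      rcases hJ0.eq_or_lt with h | h
      · rw [← h, Real.zero_rpow hq2.ne', mul_zero]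
      · conv_lhs => rw [show q / 2 = (q / 2 - 1) + 1 by ring]
        rw [Real.rpow_add h, Real.rpow_one]
    rw [h5]; ring
  rw [h4, Real.mul_rpow (by positivity) (by positivity), Real.mul_rpow (by positivity)
    (by positivity), ← Real.rpow_mul (by positivity), ← Real.rpow_mul hd.le,
    ← Real.rpow_mul hJ0]
  have e1 : q / 2 * (2 / q) = 1 := by field_simp
  have e2 : (q / 2 - 1) * (2 / q) = 1 - 2 / q := by field_simp
  rw [e1, e2, Real.rpow_one, Real.rpow_one, mul_assoc]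

theorem phi_bound [DecidableEq T.Λ] {q : ℝ} (hq : 2 ≤ q) (hT : TorStr (genPhase T.q T.ell T.eta) q)
    (T0 : ℝ) (hT0 : 0 < T0) :
    ∃ C : ℝ, 0 < C ∧ ∀ N : ℕ, 1 ≤ N → ∀ s : Finset T.Λ, (∀ l ∈ s, ∀ k, |(T.w l k : ℝ)| ≤ N) →
      ∀ (a : T.Λ → ℝ) (f : T.Λ → G → ℂ), (∀ l ∈ s, Continuous (f l)) → ∀ g : G,
      ∫ t in Set.Icc (0 : ℝ) T0, ∫ z,
        ‖∑ l ∈ s, cexp (-((t * T.cas l : ℝ) : ℂ) * I) * (a l : ℂ) * Cop (T.φ l) (f l) z g‖ ^ q ≤
        C * (N : ℝ) ^ ((Fintype.card ι : ℝ) * q / 2 - (Fintype.card ι + 2)) *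
          (∑ l ∈ s, a l ^ 2 * T.d l ^ (1 - 2 / q) * ∫ z, ‖Cop (T.φ l) (f l) z g‖ ^ 2) ^ (q / 2) := by
  obtain ⟨C, hC, hTor⟩ := hT T0 hT0
  refine ⟨C, hC, ?_⟩
  intro N hN s hs a f hf g
  have hq0 : 0 < q := by linarith
  have hq2 : 0 < q / 2 := by linarith
  -- the functions
  set F : T.Λ → G → ℂ := fun l z => (a l : ℂ) * Cop (T.φ l) (f l) z g with hF
  have hcop : ∀ l ∈ s, Continuous fun z => Cop (T.φ l) (f l) z g := by
    intro l hl
    obtain ⟨B, hB⟩ := (isCompact_range (continuous_norm.comp (hf l hl))).bddAbove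
    have hB' : ∀ x, ‖f l x‖ ≤ B := fun x => hB ⟨x, rfl⟩
    exact (cop_cont (T.cont l) (hf l hl).measurable hB').comp
      (continuous_id.prodMk continuous_const)
  have hFc : ∀ l ∈ s, Continuous (F l) := fun l hl => continuous_const.mul (hcop l hl)
  have hFb : ∀ l ∈ s, ∃ B : ℝ, ∀ z, ‖F l z‖ ≤ B := by
    intro l hl
    obtain ⟨B, hB⟩ := (isCompact_range (continuous_norm.comp (hFc l hl))).bddAbove
    exact ⟨B, fun x => hB ⟨x, rfl⟩⟩
  -- a uniform bound
  obtain ⟨M, hM0, hM⟩ : ∃ M : ℝ, 0 ≤ M ∧ ∀ l ∈ s, ∀ z, ‖F l z‖ ≤ M := by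
    choose! B hB using hFb
    refine ⟨∑ l ∈ s, |B l|, Finset.sum_nonneg fun _ _ => abs_nonneg _, ?_⟩
    intro l hl z
    exact ((hB l hl z).trans (le_abs_self _)).trans
      (Finset.single_le_sum (f := fun l => |B l|) (fun _ _ => abs_nonneg _) hl)
  -- the big function
  set H : ℝ → (ι → UnitAddCircle) → G → ℝ := fun t x z =>
    ‖∑ l ∈ s, F l z * cexp (-((t * T.cas l : ℝ) : ℂ) * I) * chr (T.w l) x‖ ^ q with hH
  have hHc : Continuous fun p : (ℝ × (ι → UnitAddCircle)) × G => H p.1.1 p.1.2 p.2 := by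
    refine Continuous.rpow_const ?_ fun p => Or.inr hq0.le
    refine (continuous_finsetSum _ fun l hl => ?_).norm
    refine Continuous.mul (Continuous.mul ((hFc l hl).comp continuous_snd) ?_)
      ((chr_cont _).comp (continuous_snd.comp continuous_fst))
    refine Complex.continuous_exp.comp ?_
    refine Continuous.mul (Continuous.neg ?_) continuous_const
    exact Complex.continuous_ofReal.comp ((continuous_fst.comp continuous_fst).mul continuous_const)
  have hHb : ∀ t x z, ‖H t x z‖ ≤ (s.card * M) ^ q := by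
    intro t x z
    have h0 : 0 ≤ H t x z := Real.rpow_nonneg (norm_nonneg _) _
    rw [Real.norm_eq_abs, abs_of_nonneg h0]
    refine Real.rpow_le_rpow (norm_nonneg _) ?_ hq0.le
    refine (norm_sum_le _ _).trans ?_
    refine (Finset.sum_le_card_nsmul s _ M ?_).trans (by rw [nsmul_eq_mul])
    intro l hl
    rw [norm_mul, norm_mul, chr_norm, mul_one]
    have he : ‖cexp (-((t * T.cas l : ℝ) : ℂ) * I)‖ = 1 := by
      rw [show -((t * T.cas l : ℝ) : ℂ) * I = ((-(t * T.cas l) : ℝ) : ℂ) * I by push_cast; ring]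
      exact Complex.norm_exp_ofReal_mul_I _
    rw [he, mul_one]
    exact hM l hl z
  -- Step 1: right translation by the torus
  have hstep1 : ∀ t : ℝ, ∀ x : ι → UnitAddCircle,
      ∫ z, ‖∑ l ∈ s, cexp (-((t * T.cas l : ℝ) : ℂ) * I) * (a l : ℂ) *
        Cop (T.φ l) (f l) z g‖ ^ q = ∫ z, H t x z := by
    intro t x
    obtain ⟨θ, rfl⟩ := exists_lift x
    rw [← int_right_real (fun z => ‖∑ l ∈ s, cexp (-((t * T.cas l : ℝ) : ℂ) * I) * (a l : ℂ) *
        Cop (T.φ l) (f l) z g‖ ^ q) (T.tor θ)]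
    refine integral_congr_ae (Filter.Eventually.of_forall fun z => ?_)
    simp only [hH, hF]
    congr 2
    refine Finset.sum_congr rfl fun l _ => ?_
    rw [cop_tor, chr_lift]
    ring
  -- Step 2: average over x
  have hstep2 : ∀ t : ℝ, ∫ z, ‖∑ l ∈ s, cexp (-((t * T.cas l : ℝ) : ℂ) * I) * (a l : ℂ) *
        Cop (T.φ l) (f l) z g‖ ^ q = ∫ x, ∫ z, H t x z := by
    intro t
    have h1 : ∀ x : ι → UnitAddCircle, ∫ z, H t x z = ∫ z, H t 0 z := fun x =>
      (hstep1 t x).symm.trans (hstep1 t 0)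
    rw [hstep1 t 0]
    simp only [h1]
    rw [integral_const]
    simp
  -- Step 3: Fubini
  obtain ⟨hstep3, hint3⟩ := fub3 H hHc hHb T0
  -- Step 4: the torus estimate for fixed z
  have hstep4 : ∀ z, ∫ t in Set.Icc (0 : ℝ) T0, ∫ x, H t x z ≤
      C * (N : ℝ) ^ ((Fintype.card ι : ℝ) * q / 2 - (Fintype.card ι + 2)) *
        (∑ l ∈ s, ‖F l z‖ ^ 2) ^ (q / 2) := by
    intro z
    classical
    set b : (ι → ℤ) → ℂ := Function.extend T.w (fun l => F l z) 0 with hb
    have hbw : ∀ l, b (T.w l) = F l z := fun l => T.w_inj.extend_apply _ _ l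
    have h1 := hTor N hN (s.image T.w) b (by
      intro k hk j
      obtain ⟨l, hl, rfl⟩ := Finset.mem_image.1 hk
      exact hs l hl j)
    have hom : ∀ l, genPhase T.q T.ell T.eta (T.w l) = T.cas l := by
      intro l
      rw [T.cas_eq l]
      rfl
    have h2 : ∀ t : ℝ, ∀ x : ι → UnitAddCircle,
        ∑ k ∈ s.image T.w, b k * cexp (-((t * genPhase T.q T.ell T.eta k : ℝ) : ℂ) * I) * chr k x =
        ∑ l ∈ s, F l z * cexp (-((t * T.cas l : ℝ) : ℂ) * I) * chr (T.w l) x := by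
      intro t x
      rw [Finset.sum_image fun l _ m _ h => T.w_inj h]
      refine Finset.sum_congr rfl fun l _ => ?_
      rw [hbw, hom]
    have h3 : ∑ k ∈ s.image T.w, ‖b k‖ ^ 2 = ∑ l ∈ s, ‖F l z‖ ^ 2 := by
      rw [Finset.sum_image fun l _ m _ h => T.w_inj h]
      refine Finset.sum_congr rfl fun l _ => ?_
      rw [hbw]
    simp only [h2] at h1
    rw [h3] at h1
    exact h1
  -- Step 5: Minkowski
  have hstep5 : ∫ z, (∑ l ∈ s, ‖F l z‖ ^ 2) ^ (q / 2) ≤
      (∑ l ∈ s, (∫ z, (‖F l z‖ ^ 2) ^ (q / 2)) ^ (1 / (q / 2))) ^ (q / 2) := by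
    have h1 := STZ.mink_real (volume : Measure G) (Measure.dirac ()) s
      (fun l z _ => ‖F l z‖ ^ 2) (fun l hl => by
        have : Continuous fun p : G × Unit => ‖F l p.1‖ ^ 2 :=
          ((hFc l hl).comp continuous_fst).norm.pow 2
        exact this.measurable) (fun l z _ => by positivity) (M ^ 2)
      (fun l hl z _ => pow_le_pow_left₀ (norm_nonneg _) (hM l hl z) 2) (q / 2) (by linarith)
    simpa using h1
  -- conclusion
  have hN0 : (0 : ℝ) < N := by exact_mod_cast hN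
  have hK : 0 ≤ C * (N : ℝ) ^ ((Fintype.card ι : ℝ) * q / 2 - (Fintype.card ι + 2)) := by
    positivity
  calc ∫ t in Set.Icc (0 : ℝ) T0, ∫ z,
        ‖∑ l ∈ s, cexp (-((t * T.cas l : ℝ) : ℂ) * I) * (a l : ℂ) * Cop (T.φ l) (f l) z g‖ ^ q
      = ∫ t in Set.Icc (0 : ℝ) T0, ∫ x, ∫ z, H t x z := by simp only [hstep2]
    _ = ∫ z, ∫ t in Set.Icc (0 : ℝ) T0, ∫ x, H t x z := hstep3
    _ ≤ ∫ z, C * (N : ℝ) ^ ((Fintype.card ι : ℝ) * q / 2 - (Fintype.card ι + 2)) *
          (∑ l ∈ s, ‖F l z‖ ^ 2) ^ (q / 2) := by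
        refine integral_mono hint3 ?_ hstep4
        · have hcc : Continuous fun z => C * (N : ℝ) ^ ((Fintype.card ι : ℝ) * q / 2 -
              (Fintype.card ι + 2)) * (∑ l ∈ s, ‖F l z‖ ^ 2) ^ (q / 2) := by
            refine continuous_const.mul ?_
            refine Continuous.rpow_const ?_ fun z => Or.inr hq2.le
            exact continuous_finsetSum _ fun l hl => (hFc l hl).norm.pow 2
          exact hcc.integrable_of_hasCompactSupport (HasCompactSupport.of_compactSpace _)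
    _ = C * (N : ℝ) ^ ((Fintype.card ι : ℝ) * q / 2 - (Fintype.card ι + 2)) *
          ∫ z, (∑ l ∈ s, ‖F l z‖ ^ 2) ^ (q / 2) := by rw [integral_const_mul]
    _ ≤ C * (N : ℝ) ^ ((Fintype.card ι : ℝ) * q / 2 - (Fintype.card ι + 2)) *
          (∑ l ∈ s, (∫ z, (‖F l z‖ ^ 2) ^ (q / 2)) ^ (1 / (q / 2))) ^ (q / 2) :=
        mul_le_mul_of_nonneg_left hstep5 hK
    _ ≤ _ := by
        refine mul_le_mul_of_nonneg_left ?_ hK
        refine Real.rpow_le_rpow ?_ ?_ hq2.le
        · exact Finset.sum_nonneg fun l _ => Real.rpow_nonneg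
            (integral_nonneg fun z => Real.rpow_nonneg (by positivity) _) _
        · exact Finset.sum_le_sum fun l hl => bound_l T hq l (a l) (hf l hl) g

end STC
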