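import Pool.Agent.STC.TRweak
import Pool.Agent.STZ.Distr

/-!
# STC/TRstrong: the strong type estimate for one piece

PROOF. `STZ.weak_strong` with `μ = stm G T0`, `v = ‖evol cas F f‖`, `p0 = q`, the bound of
`weak_piece`, and the sup bound `A`: `STZ.RK.bernstein`: `‖u‖² ≤ (∑_{l ∈ F} D_l) S` with
`D_l = d_l² ≤ (C0 P.D)²` (`d_le`, `F ⊆ mid`) and `#F ≤ (2N+1)^r ≤ 3^r N^r` (`w` injective into the box),
`r = card ι`. So `A = C N^{r/2} D S^{1/2}` and
`∫ v^p ≤ p/(p-q) B A^{p-q}`, `B = C N^{rq/2-(r+2)} D^{q-2} S^{q/2}`: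
`B A^{p-q} = C N^{rp/2-(r+2)} D^{p-2} S^{p/2}`. (If `S = 0` both sides vanish.)
-/

open MeasureTheory Complex
open scoped ComplexConjugate

namespace STC

variable {G : Type} [Group G] [TopologicalSpace G] [IsTopologicalGroup G] [CompactSpace G] [T2Space G]
  [SecondCountableTopology G] [MeasureSpace G] [BorelSpace G]
  [Measure.IsHaarMeasure (volume : Measure G)] [IsProbabilityMeasure (volume : Measure G)]
  {ι : Type} [Fintype ι] (T : TFam G ι)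

private lemma trs_norm_exp (x : ℝ) : ‖cexp (-((x : ℝ) : ℂ) * I)‖ = 1 := by
  rw [← Complex.ofReal_neg, Complex.norm_exp_ofReal_mul_I]

private lemma trs_point [DecidableEq T.Λ] (F : Finset T.Λ) (f : T.Λ → G → ℂ)
    (hf : ∀ l ∈ F, T.rk.Mem l (f l)) (t : ℝ) (x : G) :
    ‖STZ.evol T.cas F f t x‖ ^ 2 ≤
      (∑ l ∈ F, (T.d l) ^ 2) * ∑ l ∈ F, ∫ z, ‖f l z‖ ^ 2 := by
  have h := T.rk.bernstein F (fun l x => cexp (-((t * T.cas l : ℝ) : ℂ) * I) * f l x)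
    (fun l hl => T.rk.mem_smul (hf l hl) _) x
  have e : ∀ l ∈ F, (∫ z, ‖cexp (-((t * T.cas l : ℝ) : ℂ) * I) * f l z‖ ^ 2) =
      ∫ z, ‖f l z‖ ^ 2 := by
    intro l _
    simp only [norm_mul, trs_norm_exp, one_mul]
  rw [Finset.sum_congr rfl e] at h
  exact h

private lemma trs_cont [DecidableEq T.Λ] (F : Finset T.Λ) (f : T.Λ → G → ℂ)
    (hf : ∀ l ∈ F, T.rk.Mem l (f l)) :
    Continuous fun p : ℝ × G => STZ.evol T.cas F f p.1 p.2 := by
  unfold STZ.evol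
  refine continuous_finsetSum _ fun l hl => ?_
  refine Continuous.mul ?_ ((hf l hl).1.comp continuous_snd)
  refine Complex.continuous_exp.comp ?_
  refine Continuous.mul (Continuous.neg ?_) continuous_const
  exact Complex.continuous_ofReal.comp (continuous_fst.mul continuous_const)

private lemma trs_card [DecidableEq T.Λ] (F : Finset T.Λ) (N : ℕ) (hN : 1 ≤ N)
    (hF : ∀ l ∈ F, ∀ k, |(T.w l k : ℝ)| ≤ N) :
    (F.card : ℝ) ≤ (3 * (N : ℝ)) ^ (Fintype.card ι) := by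
  classical
  have h1 : F.card ≤ (Fintype.piFinset fun _ : ι => Finset.Icc (-(N : ℤ)) N).card := by
    refine Finset.card_le_card_of_injOn T.w (fun l hl => ?_) (T.w_inj.injOn)
    rw [Finset.mem_coe, Fintype.mem_piFinset]
    intro k
    rw [Finset.mem_Icc]
    obtain ⟨h2, h3⟩ := abs_le.1 (hF l hl k)
    constructor
    · have : ((-(N : ℤ) : ℤ) : ℝ) ≤ (T.w l k : ℝ) := by push_cast; exact h2
      exact_mod_cast this
    · have : ((T.w l k : ℤ) : ℝ) ≤ ((N : ℤ) : ℝ) := by push_cast; exact h3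
      exact_mod_cast this
  rw [Fintype.card_piFinset] at h1
  simp only [Int.card_Icc, Finset.prod_const, Finset.card_univ] at h1
  have h4 : ((N : ℤ) + 1 - -(N : ℤ)).toNat = 2 * N + 1 := by omega
  rw [h4] at h1
  have h5 : (F.card : ℝ) ≤ ((2 * N + 1 : ℕ) : ℝ) ^ (Fintype.card ι) := by exact_mod_cast h1
  refine h5.trans ?_
  have h6 : (1 : ℝ) ≤ N := by exact_mod_cast hN
  refine pow_le_pow_left₀ (by positivity) ?_ _
  push_cast
  linarith

theorem strong_piece [DecidableEq T.Λ] {q p : ℝ} (hq : 2 < q) (hqp : q < p)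
    (hT : TorStr (genPhase T.q T.ell T.eta) q) (C0 : ℝ) (hC0 : 1 ≤ C0) (T0 : ℝ) (hT0 : 0 < T0) :
    ∃ C : ℝ, 0 < C ∧ ∀ N : ℕ, 1 ≤ N → ∀ P : Piece T C0, ∀ F : Finset T.Λ, F ⊆ P.mid →
      (∀ l ∈ F, ∀ k, |(T.w l k : ℝ)| ≤ N) → ∀ f : T.Λ → G → ℂ, (∀ l ∈ F, T.rk.Mem l (f l)) →
      ∫ z, ‖STZ.evol T.cas F f z.1 z.2‖ ^ p ∂(STZ.stm G T0) ≤
        C * (N : ℝ) ^ ((Fintype.card ι : ℝ) * p / 2 - (Fintype.card ι + 2)) * P.D ^ (p - 2) *
          (∑ l ∈ F, ∫ x, ‖f l x‖ ^ 2) ^ (p / 2) := by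
  obtain ⟨C1, hC1, h1⟩ := weak_piece T hq hT C0 hC0 T0 hT0
  have hq0 : 0 < q := by linarith
  have hpq : 0 < p - q := by linarith
  have hC00 : 0 < C0 := by linarith
  set n : ℕ := Fintype.card ι with hn
  refine ⟨p / (p - q) * C1 * ((3 : ℝ) ^ ((n : ℝ) * ((p - q) / 2)) * C0 ^ (p - q)), by
    have : 0 < p := by linarith
    positivity, ?_⟩
  intro N hN P F hF hw f hf
  have hN0 : (0 : ℝ) < N := by exact_mod_cast hN
  have hD1 : 1 ≤ P.D := P.one_le_D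
  have hD0 : 0 < P.D := by linarith
  set E : ℝ := ∑ l ∈ F, ∫ z, ‖f l z‖ ^ 2 with hE
  have hE0 : 0 ≤ E := Finset.sum_nonneg fun l _ => integral_nonneg fun z => by positivity
  have hsum : ∑ l ∈ F, (T.d l) ^ 2 ≤ (3 * (N : ℝ)) ^ n * (C0 * P.D) ^ 2 := by
    calc ∑ l ∈ F, (T.d l) ^ 2 ≤ ∑ l ∈ F, (C0 * P.D) ^ 2 := by
          refine Finset.sum_le_sum fun l hl => ?_
          have h2 := T.one_le_d l
          exact pow_le_pow_left₀ (by linarith) (P.d_le l (hF hl)) 2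
      _ = F.card * (C0 * P.D) ^ 2 := by rw [Finset.sum_const, nsmul_eq_mul]
      _ ≤ (3 * (N : ℝ)) ^ n * (C0 * P.D) ^ 2 := by
          refine mul_le_mul_of_nonneg_right ?_ (by positivity)
          exact trs_card T F N hN hw
  have hsup : ∀ t x, ‖STZ.evol T.cas F f t x‖ ^ 2 ≤
      (3 * (N : ℝ)) ^ n * (C0 * P.D) ^ 2 * E := fun t x =>
    (trs_point T F f hf t x).trans (mul_le_mul_of_nonneg_right hsum hE0)
  have hfin : IsFiniteMeasure (STZ.stm G T0) := by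
    unfold STZ.stm
    have : IsFiniteMeasure ((volume : Measure ℝ).restrict (Set.Icc (0 : ℝ) T0)) :=
      ⟨by rw [Measure.restrict_apply_univ, Real.volume_Icc]; exact ENNReal.ofReal_lt_top⟩
    infer_instance
  set V : ℝ := ((3 * (N : ℝ)) ^ n * (C0 * P.D) ^ 2 * E) ^ (1 / 2 : ℝ) with hV
  have hV0 : 0 ≤ V := by positivity
  have hVle : ∀ z : ℝ × G, ‖STZ.evol T.cas F f z.1 z.2‖ ≤ V := by
    intro z
    have h5 : V ^ 2 = (3 * (N : ℝ)) ^ n * (C0 * P.D) ^ 2 * E := by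
      rw [hV, ← Real.rpow_natCast, ← Real.rpow_mul (by positivity)]; norm_num
    have h6 := hsup z.1 z.2
    rw [← h5] at h6
    exact (abs_le_of_sq_le_sq' h6 hV0).2
  have hWS := STZ.weak_strong (STZ.stm G T0) (fun z : ℝ × G => ‖STZ.evol T.cas F f z.1 z.2‖)
    (trs_cont T F f hf).norm.measurable (fun _ => norm_nonneg _) V
    (C1 * (N : ℝ) ^ ((n : ℝ) * q / 2 - (n + 2)) * P.D ^ (q - 2) * E ^ (q / 2)) q p hVle hV0
    (by positivity) hq0 hqp (fun t ht => h1 N hN P F hF hw f hf t ht)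
  refine hWS.trans (le_of_eq ?_)
  have e1 : V ^ (p - q) = (3 : ℝ) ^ ((n : ℝ) * ((p - q) / 2)) *
      (N : ℝ) ^ ((n : ℝ) * ((p - q) / 2)) * (C0 ^ (p - q) * P.D ^ (p - q)) *
        E ^ ((p - q) / 2) := by
    rw [hV, ← Real.rpow_mul (by positivity)]
    have h7 : (1 / 2 : ℝ) * (p - q) = (p - q) / 2 := by ring
    rw [h7, Real.mul_rpow (by positivity) hE0, Real.mul_rpow (by positivity) (by positivity),
      ← Real.rpow_natCast (3 * (N : ℝ)) n, ← Real.rpow_mul (by positivity),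
      Real.mul_rpow (by norm_num) hN0.le, ← Real.rpow_natCast (C0 * P.D) 2,
      ← Real.rpow_mul (by positivity)]
    have h8 : ((2 : ℕ) : ℝ) * ((p - q) / 2) = p - q := by push_cast; ring
    rw [h8, Real.mul_rpow hC00.le hD0.le]
  have e2 : E ^ (p / 2) = E ^ (q / 2) * E ^ ((p - q) / 2) := by
    rw [← Real.rpow_add_of_nonneg hE0 (by positivity) (by positivity)]
    congr 1; ring
  have e3 : (N : ℝ) ^ ((n : ℝ) * p / 2 - (n + 2)) = (N : ℝ) ^ ((n : ℝ) * q / 2 - (n + 2)) *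
      (N : ℝ) ^ ((n : ℝ) * ((p - q) / 2)) := by
    rw [← Real.rpow_add hN0]; congr 1; ring
  have e4 : P.D ^ (p - 2) = P.D ^ (q - 2) * P.D ^ (p - q) := by
    rw [← Real.rpow_add hD0]; congr 1; ring
  rw [e1, e2, e3, e4]
  ring

end STC
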