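import Pool.Agent.STC.TRpair
import Pool.Agent.STC.TRphi
import Pool.Agent.STC.TRhol

/-!
# STC/TRweak: the weak type estimate for one piece

PROOF. Let `u = evol cas F f`, `S = ∑_F ∫ ‖f_l‖²`, `λ > 0`, `E = {(t,x) : t ∈ [0,T0], ‖u(t,x)‖ > λ}`
(measurable; `u` is continuous), `h_t(x) = 1_E(t,x) u(t,x)/‖u(t,x)‖` (bounded by `1`, measurable), so
`λ |E| ≤ ∫_t ∫_x u conj h_t`. Let `k = ∑_{supp} κ_l φ_l` be the kernel of the piece, `a_l = d_l³/κ_l`,
`Φ_t = ∑_F e^{-it cas} a_l Cop φ_l (f_l)`, `H_t = Cop k h_t`. By `pairing` (for every `t`) and Fubini,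
`λ|E| ≤ ∫_g ∫_t ∫_z ‖Φ‖ ‖H‖`. By `hol3` for every `g` (finite measure `dt dz`)
`∫_t∫_z ‖Φ‖‖H‖ ≤ (∫∫‖Φ‖^q)^{1/q} (∫∫‖H‖)^{1-2/q} (∫∫‖H‖²)^{1/q}`, with
`∫∫ ‖H‖ ≤ ∫_t (∫‖k‖)(∫‖h_t‖) ≤ C0 |E|` (`cop_L1`), `∫∫‖Φ‖^q ≤ C N^{e} S_g^{q/2}` (`phi_bound`),
`S_g = ∑ a_l² d_l^{1-2/q} ∫_z ‖Cop φ_l f_l (z,g)‖²`. Then `hol2` over `g`:
`∫_g S_g^{1/2} Y_g^{1/q} ≤ (∫ S_g)^{1/2} (∫ Y_g)^{1/q}`, `Y_g = ∫_t∫_z ‖H‖²`.
`∫_g S_g = ∑ a_l² d_l^{1-2/q} d_l⁻³ ∫‖f_l‖²` (`cop_sq`) and `a_l² d_l^{-2-2/q} = d_l^{4-2/q}/κ_l² ≤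
(C0 D)^{4-2/q} (C0/D)² = C D^{2-2/q}`. `∫_g Y_g ≤ B ∫_t ∫ ‖h_t‖² = B |E|` (`cop_L2`) with
`B = C0⁵/D`: `κ_l² ≤ C0² D² ≤ B d_l³` since `D ≤ C0 d_l`. Altogether
`λ|E| ≤ (C N^e)^{1/q} (C0|E|)^{1-2/q} (C D^{2-2/q} S)^{1/2} (B|E|)^{1/q}`, i.e.
`λ |E|^{1/q} ≤ C' N^{e/q} D^{1-2/q} S^{1/2}`; raise to the power `q` (if `|E| = 0` trivial).
Measurability: everything is bounded and jointly measurable in `(t,x)`; `H_t(z,g)` is measurable in
`(t,z,g)` as a parameter integral.
-/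

open MeasureTheory Complex
open scoped ComplexConjugate

namespace STC

variable {G : Type} [Group G] [TopologicalSpace G] [IsTopologicalGroup G] [CompactSpace G] [T2Space G]
  [SecondCountableTopology G] [MeasureSpace G] [BorelSpace G]
  [Measure.IsHaarMeasure (volume : Measure G)] [IsProbabilityMeasure (volume : Measure G)]
  {ι : Type} [Fintype ι] (T : TFam G ι)

private lemma tw_int {Ω : Type*} [MeasurableSpace Ω] (μ : Measure Ω) [IsFiniteMeasure μ]
    {f : Ω → ℝ} (hf : Measurable f) {B : ℝ} (hB : ∀ x, ‖f x‖ ≤ B) : Integrable f μ :=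
  Integrable.of_bound hf.aestronglyMeasurable B (Filter.Eventually.of_forall hB)

private lemma tw_bdd {X : Type*} [TopologicalSpace X] [CompactSpace X] {f : X → ℂ}
    (hf : Continuous f) : ∃ B, 0 ≤ B ∧ ∀ x, ‖f x‖ ≤ B := by
  obtain ⟨C, hC⟩ := (isCompact_range (continuous_norm.comp hf)).bddAbove
  exact ⟨max C 0, le_max_right _ _, fun x => (hC ⟨x, rfl⟩).trans (le_max_left _ _)⟩

/-- the final algebra -/
private lemma tw_alg {q y m Cφ Ne C0 D S : ℝ} (hq : 2 < q) (hy : 0 < y) (hm : 0 ≤ m)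
    (hCφ : 0 < Cφ) (hNe : 0 < Ne) (hC0 : 1 ≤ C0) (hD : 0 < D) (hS : 0 ≤ S)
    (h : y * m ≤ (Cφ * Ne) ^ (1 / q) * (C0 * m) ^ (1 - 2 / q) *
      ((C0 ^ (6 - 2 / q) * D ^ (2 - 2 / q) * S) ^ (1 / 2 : ℝ) * (C0 ^ 5 / D * m) ^ (1 / q))) :
    m ≤ Cφ * C0 ^ (4 * q + 2) * Ne * D ^ (q - 2) * S ^ (q / 2) * y ^ (-q) := by
  have hq0 : 0 < q := by linarith
  have hC00 : 0 < C0 := by linarith
  rcases hm.eq_or_lt with h0 | h0
  · rw [← h0]
    positivity
  have hS' : 0 ≤ S ^ (1 / 2 : ℝ) := Real.rpow_nonneg hS _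
  have e1 : (C0 * m) ^ (1 - 2 / q) = C0 ^ (1 - 2 / q) * m ^ (1 - 2 / q) :=
    Real.mul_rpow hC00.le h0.le
  have e2 : (C0 ^ (6 - 2 / q) * D ^ (2 - 2 / q) * S) ^ (1 / 2 : ℝ) =
      C0 ^ (3 - 1 / q) * D ^ (1 - 1 / q) * S ^ (1 / 2 : ℝ) := by
    rw [Real.mul_rpow (by positivity) hS, Real.mul_rpow (by positivity) (by positivity),
      ← Real.rpow_mul hC00.le, ← Real.rpow_mul hD.le]
    congr 3 <;> ring
  have e3 : (C0 ^ 5 / D * m) ^ (1 / q) = C0 ^ (5 / q) * D ^ (-(1 / q)) * m ^ (1 / q) := by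
    rw [Real.mul_rpow (by positivity) h0.le, Real.div_rpow (by positivity) hD.le,
      ← Real.rpow_natCast C0 5, ← Real.rpow_mul hC00.le, Real.rpow_neg hD.le, div_eq_mul_inv]
    congr 3
    push_cast
    ring
  rw [e1, e2, e3] at h
  have e4 : (Cφ * Ne) ^ (1 / q) * (C0 ^ (1 - 2 / q) * m ^ (1 - 2 / q)) *
      (C0 ^ (3 - 1 / q) * D ^ (1 - 1 / q) * S ^ (1 / 2 : ℝ) *
        (C0 ^ (5 / q) * D ^ (-(1 / q)) * m ^ (1 / q))) =
      ((Cφ * Ne) ^ (1 / q) * C0 ^ (4 + 2 / q) * D ^ (1 - 2 / q) * S ^ (1 / 2 : ℝ)) *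
        m ^ (1 - 1 / q) := by
    have c1 : C0 ^ (4 + 2 / q) = C0 ^ (1 - 2 / q) * C0 ^ (3 - 1 / q) * C0 ^ (5 / q) := by
      rw [← Real.rpow_add hC00, ← Real.rpow_add hC00]; congr 1; ring
    have c2 : D ^ (1 - 2 / q) = D ^ (1 - 1 / q) * D ^ (-(1 / q)) := by
      rw [← Real.rpow_add hD]; congr 1; ring
    have c3 : m ^ (1 - 1 / q) = m ^ (1 - 2 / q) * m ^ (1 / q) := by
      rw [← Real.rpow_add h0]; congr 1; ring
    rw [c1, c2, c3]
    ring
  rw [e4] at h
  have e5 : y * m = (y * m ^ (1 / q)) * m ^ (1 - 1 / q) := by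
    have : m = m ^ (1 / q) * m ^ (1 - 1 / q) := by
      rw [← Real.rpow_add h0]
      simp
    rw [mul_assoc, ← this]
  rw [e5] at h
  have h1 : y * m ^ (1 / q) ≤
      (Cφ * Ne) ^ (1 / q) * C0 ^ (4 + 2 / q) * D ^ (1 - 2 / q) * S ^ (1 / 2 : ℝ) :=
    le_of_mul_le_mul_right h (Real.rpow_pos_of_pos h0 _)
  have h2 := Real.rpow_le_rpow (by positivity) h1 hq0.le
  have e6 : (y * m ^ (1 / q)) ^ q = y ^ q * m := by
    rw [Real.mul_rpow hy.le (by positivity), ← Real.rpow_mul h0.le, one_div_mul_cancel hq0.ne',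
      Real.rpow_one]
  have e7 : ((Cφ * Ne) ^ (1 / q) * C0 ^ (4 + 2 / q) * D ^ (1 - 2 / q) * S ^ (1 / 2 : ℝ)) ^ q =
      Cφ * C0 ^ (4 * q + 2) * Ne * D ^ (q - 2) * S ^ (q / 2) := by
    rw [Real.mul_rpow (by positivity) hS', Real.mul_rpow (by positivity) (by positivity),
      Real.mul_rpow (by positivity) (by positivity), ← Real.rpow_mul (by positivity),
      ← Real.rpow_mul hC00.le, ← Real.rpow_mul hD.le, ← Real.rpow_mul hS]
    have d1 : 1 / q * q = 1 := one_div_mul_cancel hq0.ne'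
    have d2 : (4 + 2 / q) * q = 4 * q + 2 := by field_simp
    have d3 : (1 - 2 / q) * q = q - 2 := by field_simp
    have d4 : 1 / 2 * q = q / 2 := by ring
    rw [d1, d2, d3, d4, Real.rpow_one]
    ring
  rw [e6, e7] at h2
  rw [Real.rpow_neg hy.le, ← div_eq_mul_inv, le_div_iff₀ (Real.rpow_pos_of_pos hy q), mul_comm]
  exact h2

theorem weak_piece [DecidableEq T.Λ] {q : ℝ} (hq : 2 < q)
    (hT : TorStr (genPhase T.q T.ell T.eta) q) (C0 : ℝ) (hC0 : 1 ≤ C0) (T0 : ℝ) (hT0 : 0 < T0) :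
    ∃ C : ℝ, 0 < C ∧ ∀ N : ℕ, 1 ≤ N → ∀ P : Piece T C0, ∀ F : Finset T.Λ, F ⊆ P.mid →
      (∀ l ∈ F, ∀ k, |(T.w l k : ℝ)| ≤ N) → ∀ f : T.Λ → G → ℂ, (∀ l ∈ F, T.rk.Mem l (f l)) →
      ∀ y : ℝ, 0 < y →
      (STZ.stm G T0).real {p | y < ‖STZ.evol T.cas F f p.1 p.2‖} ≤
        C * (N : ℝ) ^ ((Fintype.card ι : ℝ) * q / 2 - (Fintype.card ι + 2)) * P.D ^ (q - 2) *
          (∑ l ∈ F, ∫ x, ‖f l x‖ ^ 2) ^ (q / 2) * y ^ (-q) := by
  obtain ⟨Cφ, hCφ, hφ⟩ := phi_bound T hq.le hT T0 hT0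
  refine ⟨Cφ * C0 ^ (4 * q + 2), by positivity, ?_⟩
  intro N hN P F hF hw f hf y hy
  have hq0 : 0 < q := by linarith
  have hN0 : (0 : ℝ) < N := by exact_mod_cast hN
  have hC00 : 0 < C0 := by linarith
  have hD1 := P.one_le_D
  have hD0 : 0 < P.D := by linarith
  have hd0 : ∀ l, 0 < T.d l := fun l => lt_of_lt_of_le one_pos (T.one_le_d l)
  set e : ℝ := (Fintype.card ι : ℝ) * q / 2 - (Fintype.card ι + 2) with he
  set τ : Measure ℝ := volume.restrict (Set.Icc (0 : ℝ) T0) with hτ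
  have hτf : IsFiniteMeasure τ :=
    ⟨by rw [hτ, Measure.restrict_apply_univ, Real.volume_Icc]; exact ENNReal.ofReal_lt_top⟩
  have hstm : STZ.stm G T0 = τ.prod volume := rfl
  -- the functions
  have hfc : ∀ l ∈ F, Continuous (f l) := fun l hl => (hf l hl).1
  obtain ⟨u, hu0⟩ : ∃ u : ℝ → G → ℂ, ∀ t x, STZ.evol T.cas F f t x = u t x :=
    ⟨fun t x => STZ.evol T.cas F f t x, fun _ _ => rfl⟩
  have hu_eq : ∀ t x, u t x = ∑ l ∈ F, cexp (-((t * T.cas l : ℝ) : ℂ) * I) * f l x :=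
    fun t x => (hu0 t x).symm
  simp only [hu0]
  have hph : ∀ (t : ℝ) (l : T.Λ), ‖cexp (-((t * T.cas l : ℝ) : ℂ) * I)‖ = 1 := by
    intro t l
    rw [show -((t * T.cas l : ℝ) : ℂ) * I = ((-(t * T.cas l) : ℝ) : ℂ) * I by push_cast; ring]
    exact Complex.norm_exp_ofReal_mul_I _
  have huc : Continuous fun p : ℝ × G => u p.1 p.2 := by
    simp only [hu_eq]
    refine continuous_finsetSum _ fun l hl => ?_
    refine Continuous.mul ?_ ((hfc l hl).comp continuous_snd)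
    fun_prop
  have hfb : ∀ l, ∃ B, 0 ≤ B ∧ (l ∈ F → ∀ x, ‖f l x‖ ≤ B) := by
    intro l
    by_cases hl : l ∈ F
    · obtain ⟨B, hB0, hB⟩ := tw_bdd (hfc l hl)
      exact ⟨B, hB0, fun _ => hB⟩
    · exact ⟨0, le_rfl, fun h => absurd h hl⟩
  choose Bf hBf0 hBf using hfb
  set Bu : ℝ := ∑ l ∈ F, Bf l with hBu
  have hub : ∀ t x, ‖u t x‖ ≤ Bu := by
    intro t x
    rw [hu_eq]
    refine (norm_sum_le _ _).trans (Finset.sum_le_sum fun l hl => ?_)
    rw [norm_mul, hph, one_mul]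
    exact hBf l hl x
  obtain ⟨h, hh⟩ : ∃ h : ℝ → G → ℂ, ∀ t x, h t x =
      if y < ‖u t x‖ then u t x / (‖u t x‖ : ℂ) else 0 := ⟨_, fun _ _ => rfl⟩
  obtain ⟨v, hv⟩ : ∃ v : ℝ → G → ℝ, ∀ t x, v t x = if y < ‖u t x‖ then ‖u t x‖ else 0 :=
    ⟨_, fun _ _ => rfl⟩
  have hset : MeasurableSet {p : ℝ × G | y < ‖u p.1 p.2‖} :=
    measurableSet_lt measurable_const huc.norm.measurable
  have hhm : Measurable fun p : ℝ × G => h p.1 p.2 := by
    simp only [hh]
    refine Measurable.ite hset ?_ measurable_const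
    exact huc.measurable.div (Complex.measurable_ofReal.comp huc.norm.measurable)
  have hvm : Measurable fun p : ℝ × G => v p.1 p.2 := by
    simp only [hv]
    exact Measurable.ite hset huc.norm.measurable measurable_const
  have hhn : ∀ t x, ‖h t x‖ = if y < ‖u t x‖ then 1 else 0 := by
    intro t x
    rw [hh]
    split_ifs with h1
    · have : ‖u t x‖ ≠ 0 := by linarith
      rw [norm_div, Complex.norm_real, norm_norm, div_self this]
    · simp
  have hhb : ∀ t x, ‖h t x‖ ≤ 1 := by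
    intro t x
    rw [hhn]
    split_ifs <;> norm_num
  have hht : ∀ t, Measurable (h t) := fun t => hhm.comp measurable_prodMk_left
  have hv0 : ∀ t x, 0 ≤ v t x := by
    intro t x
    rw [hv]
    split_ifs
    · exact norm_nonneg _
    · exact le_rfl
  have hvb : ∀ t x, v t x ≤ Bu := by
    intro t x
    rw [hv]
    split_ifs
    · exact hub t x
    · exact (norm_nonneg _).trans (hub t x)
  have huv : ∀ t x, u t x * conj (h t x) = ((v t x : ℝ) : ℂ) := by
    intro t x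
    rw [hh, hv]
    split_ifs with h1
    · have h2 : ‖u t x‖ ≠ 0 := by linarith
      have h3 : ((‖u t x‖ : ℝ) : ℂ) ≠ 0 := by exact_mod_cast h2
      rw [map_div₀, Complex.conj_ofReal, ← mul_div_assoc, Complex.mul_conj', div_eq_iff h3]
      ring
    · simp
  -- the measure of the level set
  rw [hstm]
  set m : ℝ := (τ.prod (volume : Measure G)).real {p | y < ‖u p.1 p.2‖} with hm
  have hm0 : 0 ≤ m := measureReal_nonneg
  have hm_int : ∫ p, ‖h p.1 p.2‖ ∂(τ.prod (volume : Measure G)) = m := by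
    have : ∀ p : ℝ × G, ‖h p.1 p.2‖ =
        ({p : ℝ × G | y < ‖u p.1 p.2‖}).indicator (fun _ => (1 : ℝ)) p := by
      intro p
      rw [hhn]
      by_cases hp : y < ‖u p.1 p.2‖
      · rw [if_pos hp, Set.indicator_of_mem]
        exact hp
      · rw [if_neg hp, Set.indicator_of_notMem]
        exact hp
    simp only [this]
    rw [integral_indicator_const _ hset, smul_eq_mul, mul_one]
  have hhint : Integrable (fun p : ℝ × G => ‖h p.1 p.2‖) (τ.prod (volume : Measure G)) :=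
    tw_int _ hhm.norm (B := 1) fun p => by rw [norm_norm]; exact hhb _ _
  have hm_t : ∫ t, ∫ x, ‖h t x‖ ∂(volume : Measure G) ∂τ = m := by
    rw [← hm_int]
    exact (integral_prod _ hhint).symm
  -- step 1
  have hstep1 : y * m ≤ ∫ t, ∫ x, v t x ∂(volume : Measure G) ∂τ := by
    have hvint : Integrable (fun p : ℝ × G => v p.1 p.2) (τ.prod (volume : Measure G)) :=
      tw_int _ hvm (B := Bu) fun p => by rw [Real.norm_of_nonneg (hv0 _ _)]; exact hvb _ _
    rw [← hm_int, ← integral_const_mul]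
    have h1 := integral_prod _ hvint
    rw [← h1]
    refine integral_mono (hhint.const_mul y) hvint fun p => ?_
    simp only
    rw [hhn, hv]
    split_ifs with h2
    · linarith
    · simp
  -- the kernel
  obtain ⟨k, hk⟩ : ∃ k : G → ℂ, (fun x => ∑ l ∈ P.supp, (P.κ l : ℂ) * T.φ l x) = k := ⟨_, rfl⟩
  have hkc : Continuous k := by
    rw [← hk]
    refine continuous_finsetSum _ fun l _ => ?_
    exact continuous_const.mul (T.cont l)
  obtain ⟨Kb, hKb0, hKb⟩ := tw_bdd hkc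
  obtain ⟨a, ha⟩ : ∃ a : T.Λ → ℝ, ∀ l, (T.d l) ^ 3 / P.κ l = a l := ⟨_, fun _ => rfl⟩
  -- the functions A and H
  obtain ⟨A, hA⟩ : ∃ A : ℝ → G → G → ℝ, ∀ t z g,
    ‖∑ l ∈ F, cexp (-((t * T.cas l : ℝ) : ℂ) * I) * (a l : ℂ) * Cop (T.φ l) (f l) z g‖ = A t z g :=
    ⟨_, fun _ _ _ => rfl⟩
  obtain ⟨H, hH⟩ : ∃ H : ℝ → G → G → ℝ, ∀ t z g, ‖Cop k (h t) z g‖ = H t z g :=
    ⟨_, fun _ _ _ => rfl⟩
  have hccop : ∀ l ∈ F, Continuous fun p : G × G => Cop (T.φ l) (f l) p.1 p.2 := fun l hl =>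
    cop_cont (T.cont l) (hfc l hl).measurable (hBf l hl)
  have hAc : Continuous fun p : ℝ × G × G => A p.1 p.2.1 p.2.2 := by
    simp only [← hA]
    refine Continuous.norm (continuous_finsetSum _ fun l hl => ?_)
    refine Continuous.mul (Continuous.mul ?_ continuous_const) ((hccop l hl).comp continuous_snd)
    fun_prop
  have hcb : ∀ l, ∃ B, 0 ≤ B ∧ (l ∈ F → ∀ z g, ‖Cop (T.φ l) (f l) z g‖ ≤ B) := by
    intro l
    by_cases hl : l ∈ F
    · obtain ⟨B, hB0, hB⟩ := tw_bdd (hccop l hl)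
      exact ⟨B, hB0, fun _ z g => hB (z, g)⟩
    · exact ⟨0, le_rfl, fun h => absurd h hl⟩
  choose Bc hBc0 hBc using hcb
  set BA : ℝ := ∑ l ∈ F, |a l| * Bc l with hBA
  have hA0 : ∀ t z g, 0 ≤ A t z g := fun t z g => by rw [← hA]; exact norm_nonneg _
  have hAb : ∀ t z g, A t z g ≤ BA := by
    intro t z g
    rw [← hA]
    refine (norm_sum_le _ _).trans (Finset.sum_le_sum fun l hl => ?_)
    rw [norm_mul, norm_mul, hph, one_mul, Complex.norm_real, Real.norm_eq_abs]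
    exact mul_le_mul_of_nonneg_left (hBc l hl z g) (abs_nonneg _)
  have hHm : Measurable fun p : ℝ × G × G => H p.1 p.2.1 p.2.2 := by
    have h1 : StronglyMeasurable fun p : ℝ × G × G =>
        ∫ x, h p.1 x * k (p.2.2⁻¹ * x⁻¹ * p.2.1) := by
      refine StronglyMeasurable.integral_prod_right' (f := fun p : (ℝ × G × G) × G =>
        h p.1.1 p.2 * k (p.1.2.2⁻¹ * p.2⁻¹ * p.1.2.1)) ?_
      refine Measurable.stronglyMeasurable ?_
      refine Measurable.mul ?_ ?_
      · exact hhm.comp ((measurable_fst.comp measurable_fst).prodMk measurable_snd)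
      · refine Continuous.measurable ?_
        exact hkc.comp (by fun_prop)
    simp only [← hH]
    exact h1.norm.measurable
  have hH0 : ∀ t z g, 0 ≤ H t z g := fun t z g => by rw [← hH]; exact norm_nonneg _
  have hHb : ∀ t z g, H t z g ≤ Kb := by
    intro t z g
    have h1 : ‖∫ x, h t x * k (g⁻¹ * x⁻¹ * z)‖ ≤ Kb * (volume : Measure G).real Set.univ := by
      refine norm_integral_le_of_norm_le_const (Filter.Eventually.of_forall fun x => ?_)
      rw [norm_mul]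
      calc ‖h t x‖ * ‖k (g⁻¹ * x⁻¹ * z)‖ ≤ 1 * Kb :=
            mul_le_mul (hhb t x) (hKb _) (norm_nonneg _) zero_le_one
        _ = Kb := one_mul _
    rw [← hH]
    unfold Cop
    simpa using h1
  have hcH : ∀ t, Continuous fun p : G × G => H t p.1 p.2 := fun t => by
    simp only [← hH]
    exact (cop_cont hkc (hht t) (hhb t)).norm
  -- step 2
  have hκne : ∀ l ∈ F, P.κ l ≠ 0 := by
    intro l hl h0
    have := P.κ_ge l (hF hl)
    rw [h0, mul_zero] at this
    linarith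
  have hκpos : ∀ l ∈ F, 0 < P.κ l := by
    intro l hl
    have h1 := P.κ_ge l (hF hl)
    by_contra h2
    rw [not_lt] at h2
    nlinarith
  have hstep2 : ∀ t, ∫ x, v t x ≤ ∫ g, ∫ z, A t z g * H t z g := by
    intro t
    have h1 := pairing T P.supp F (hF.trans P.mid_sub) P.κ hκne
      (fun l => cexp (-((t * T.cas l : ℝ) : ℂ) * I)) f hf (hht t) (hhb t)
    have h2 : ∀ x, (∑ l ∈ F, cexp (-((t * T.cas l : ℝ) : ℂ) * I) * f l x) * conj (h t x) =
        ((v t x : ℝ) : ℂ) := fun x => by rw [← hu_eq]; exact huv t x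
    simp only [h2, hk, ha] at h1
    rw [integral_complex_ofReal] at h1
    have h3 : ∫ x, v t x = ‖((∫ x, v t x : ℝ) : ℂ)‖ := by
      rw [Complex.norm_real, Real.norm_of_nonneg (integral_nonneg fun x => hv0 t x)]
    rw [h3, h1]
    refine (norm_integral_le_integral_norm _).trans ?_
    have hcAH : Continuous fun p : G × G => A t p.2 p.1 * H t p.2 p.1 := by
      refine Continuous.mul ?_ ((hcH t).comp continuous_swap)
      exact hAc.comp (by fun_prop : Continuous fun p : G × G => (t, p.2, p.1))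
    have hnorm : ∀ g z, ‖(∑ l ∈ F, cexp (-((t * T.cas l : ℝ) : ℂ) * I) *
        (a l : ℂ) * Cop (T.φ l) (f l) z g) * conj (Cop k (h t) z g)‖ =
        A t z g * H t z g := by
      intro g z
      rw [norm_mul, RCLike.norm_conj, hA, hH]
    refine integral_mono_of_nonneg (Filter.Eventually.of_forall fun g => norm_nonneg _) ?_
      (Filter.Eventually.of_forall fun g => ?_)
    · refine tw_int _ (B := BA * Kb) ?_ fun g => ?_
      · have := (hcAH.measurable.stronglyMeasurable).integral_prod_right' (ν := (volume : Measure G))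
        exact this.measurable
      · rw [Real.norm_of_nonneg (integral_nonneg fun z => mul_nonneg (hA0 _ _ _) (hH0 _ _ _))]
        have h4 : ∫ z, A t z g * H t z g ≤ ∫ _z : G, BA * Kb := by
          refine integral_mono_of_nonneg
            (Filter.Eventually.of_forall fun z => mul_nonneg (hA0 _ _ _) (hH0 _ _ _))
            (integrable_const _) (Filter.Eventually.of_forall fun z => ?_)
          exact mul_le_mul (hAb _ _ _) (hHb _ _ _) (hH0 _ _ _) ((hA0 t z g).trans (hAb _ _ _))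
        simpa using h4
    · simp only
      refine (norm_integral_le_integral_norm _).trans (le_of_eq ?_)
      refine integral_congr_ae (Filter.Eventually.of_forall fun z => ?_)
      exact hnorm g z
  -- Fubini
  have hAHm : Measurable fun p : ℝ × G × G => A p.1 p.2.1 p.2.2 * H p.1 p.2.1 p.2.2 :=
    hAc.measurable.mul hHm
  have hAHb : ∀ t z g, ‖A t z g * H t z g‖ ≤ BA * Kb := by
    intro t z g
    rw [Real.norm_of_nonneg (mul_nonneg (hA0 _ _ _) (hH0 _ _ _))]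
    exact mul_le_mul (hAb _ _ _) (hHb _ _ _) (hH0 _ _ _) ((hA0 t z g).trans (hAb _ _ _))
  have hinner : ∀ (f1 : ℝ × G × G → ℝ) (B : ℝ), Measurable f1 → (∀ p, ‖f1 p‖ ≤ B) →
      Measurable (fun p : ℝ × G => ∫ z, f1 (p.1, z, p.2)) ∧
        ∀ p : ℝ × G, ‖∫ z, f1 (p.1, z, p.2)‖ ≤ B := by
    intro f1 B hf1 hb1
    refine ⟨?_, fun p => ?_⟩
    · have h1 : StronglyMeasurable fun p : ℝ × G => ∫ z, f1 (p.1, z, p.2) := by
        refine StronglyMeasurable.integral_prod_right' (f := fun p : (ℝ × G) × G =>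
          f1 (p.1.1, p.2, p.1.2)) ?_
        refine Measurable.stronglyMeasurable (hf1.comp ?_)
        exact (measurable_fst.comp measurable_fst).prodMk
          (measurable_snd.prodMk (measurable_snd.comp measurable_fst))
      exact h1.measurable
    · have h1 := norm_integral_le_of_norm_le_const (μ := (volume : Measure G))
        (f := fun z => f1 (p.1, z, p.2)) (C := B) (Filter.Eventually.of_forall fun z => hb1 _)
      simpa using h1
  have hswap : ∀ (f1 : ℝ × G × G → ℝ) (B : ℝ), Measurable f1 → (∀ p, ‖f1 p‖ ≤ B) →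
      ∫ t, ∫ g, ∫ z, f1 (t, z, g) ∂(volume : Measure G) ∂(volume : Measure G) ∂τ =
        ∫ g, ∫ p, f1 (p.1, p.2, g) ∂(τ.prod (volume : Measure G)) := by
    intro f1 B hf1 hb1
    obtain ⟨h1, h2⟩ := hinner f1 B hf1 hb1
    rw [integral_integral_swap (f := fun t g => ∫ z, f1 (t, z, g)) (tw_int _ h1 h2)]
    refine integral_congr_ae (Filter.Eventually.of_forall fun g => ?_)
    simp only
    have h3 : Measurable fun p : ℝ × G => f1 (p.1, p.2, g) :=
      hf1.comp (measurable_fst.prodMk (measurable_snd.prodMk measurable_const))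
    exact (integral_prod (fun p : ℝ × G => f1 (p.1, p.2, g))
      (tw_int (τ.prod (volume : Measure G)) (B := B) h3 fun p => hb1 _)).symm
  have hstep3 : y * m ≤ ∫ g, ∫ p, A p.1 p.2 g * H p.1 p.2 g ∂(τ.prod (volume : Measure G)) := by
    refine hstep1.trans ?_
    rw [← hswap (fun p => A p.1 p.2.1 p.2.2 * H p.1 p.2.1 p.2.2) (BA * Kb) hAHm
      fun p => hAHb _ _ _]
    obtain ⟨h1, h2⟩ := hinner (fun p => A p.1 p.2.1 p.2.2 * H p.1 p.2.1 p.2.2) (BA * Kb) hAHm
      fun p => hAHb _ _ _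
    refine integral_mono_of_nonneg
      (Filter.Eventually.of_forall fun t => integral_nonneg fun x => hv0 t x) ?_
      (Filter.Eventually.of_forall fun t => hstep2 t)
    refine tw_int _ (B := BA * Kb) ?_ fun t => ?_
    · exact (h1.stronglyMeasurable.integral_prod_right' (ν := (volume : Measure G))).measurable
    · have h3 := norm_integral_le_of_norm_le_const (μ := (volume : Measure G))
        (f := fun g => ∫ z, A t z g * H t z g) (C := BA * Kb)
        (Filter.Eventually.of_forall fun g => h2 (t, g))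
      simpa using h3
  -- the quantities for fixed g
  set X : G → ℝ := fun g => ∑ l ∈ F, a l ^ 2 * T.d l ^ (1 - 2 / q) *
    ∫ z, ‖Cop (T.φ l) (f l) z g‖ ^ 2 with hX
  set Yg : G → ℝ := fun g => ∫ p, H p.1 p.2 g ^ 2 ∂(τ.prod (volume : Measure G)) with hY
  have hHg : ∀ g, Measurable fun p : ℝ × G => H p.1 p.2 g := fun g =>
    hHm.comp (measurable_fst.prodMk (measurable_snd.prodMk measurable_const))
  have hAg : ∀ g, Measurable fun p : ℝ × G => A p.1 p.2 g := fun g =>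
    hAc.measurable.comp (measurable_fst.prodMk (measurable_snd.prodMk measurable_const))
  have hX0 : ∀ g, 0 ≤ X g := fun g => Finset.sum_nonneg fun l _ =>
    mul_nonneg (mul_nonneg (sq_nonneg _) (Real.rpow_nonneg (hd0 l).le _))
      (integral_nonneg fun z => by positivity)
  have hY0 : ∀ g, 0 ≤ Yg g := fun g => integral_nonneg fun p => by positivity
  have hL1 : ∀ g, ∫ p, H p.1 p.2 g ∂(τ.prod (volume : Measure G)) ≤ C0 * m := by
    intro g
    rw [integral_prod _ (tw_int _ (B := Kb) (hHg g) fun p => by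
      rw [Real.norm_of_nonneg (hH0 _ _ _)]; exact hHb _ _ _), ← hm_t, ← integral_const_mul]
    refine integral_mono_of_nonneg
      (Filter.Eventually.of_forall fun t => integral_nonneg fun z => hH0 _ _ _) ?_
      (Filter.Eventually.of_forall fun t => ?_)
    · exact (hhint.integral_prod_left).const_mul C0
    · have h1 := cop_L1 hkc (hht t) (hhb t) g
      simp only [hH] at h1
      refine h1.trans ?_
      have h2 : ∫ x, ‖k x‖ ≤ C0 := by rw [← hk]; exact P.norm_le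
      exact mul_le_mul_of_nonneg_right h2 (integral_nonneg fun x => norm_nonneg _)
  have hAq : ∀ g, ∫ p, A p.1 p.2 g ^ q ∂(τ.prod (volume : Measure G)) ≤
      Cφ * (N : ℝ) ^ e * X g ^ (q / 2) := by
    intro g
    have h1 := hφ N hN F hw a f hfc g
    simp only [hA] at h1
    refine le_trans (le_of_eq ?_) h1
    refine integral_prod _ (tw_int _ (B := BA ^ q) ((hAg g).pow_const q) fun p => ?_)
    rw [Real.norm_of_nonneg (Real.rpow_nonneg (hA0 _ _ _) _)]
    exact Real.rpow_le_rpow (hA0 _ _ _) (hAb _ _ _) hq0.le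
  have hNe : 0 < (N : ℝ) ^ e := Real.rpow_pos_of_pos hN0 _
  have hg : ∀ g, ∫ p, A p.1 p.2 g * H p.1 p.2 g ∂(τ.prod (volume : Measure G)) ≤
      (Cφ * (N : ℝ) ^ e) ^ (1 / q) * (C0 * m) ^ (1 - 2 / q) *
        (X g ^ (1 / 2 : ℝ) * Yg g ^ (1 / q)) := by
    intro g
    have h1 := hol3 (τ.prod (volume : Measure G)) hq (hAg g) (hHg g) (fun p => hA0 _ _ _)
      (fun p => hH0 _ _ _) (B := max BA Kb) (fun p => (hAb _ _ _).trans (le_max_left _ _))
      (fun p => (hHb _ _ _).trans (le_max_right _ _))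
    have h2 : 0 ≤ 1 - 2 / q := by
      have : 2 / q ≤ 1 := by rw [div_le_one hq0]; exact hq.le
      linarith
    have h3 : 0 ≤ ∫ p, A p.1 p.2 g ^ q ∂(τ.prod (volume : Measure G)) :=
      integral_nonneg fun p => Real.rpow_nonneg (hA0 _ _ _) _
    have h4 : 0 ≤ ∫ p, H p.1 p.2 g ∂(τ.prod (volume : Measure G)) :=
      integral_nonneg fun p => hH0 _ _ _
    have h5 : (∫ p, A p.1 p.2 g ^ q ∂(τ.prod (volume : Measure G))) ^ (1 / q) ≤
        (Cφ * (N : ℝ) ^ e) ^ (1 / q) * X g ^ (1 / 2 : ℝ) := by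
      refine (Real.rpow_le_rpow h3 (hAq g) (by positivity)).trans (le_of_eq ?_)
      rw [Real.mul_rpow (by positivity) (Real.rpow_nonneg (hX0 g) _), ← Real.rpow_mul (hX0 g)]
      congr 2
      field_simp
    have h6 : (∫ p, H p.1 p.2 g ∂(τ.prod (volume : Measure G))) ^ (1 - 2 / q) ≤
        (C0 * m) ^ (1 - 2 / q) := Real.rpow_le_rpow h4 (hL1 g) h2
    refine h1.trans ?_
    have h7 : 0 ≤ X g ^ (1 / 2 : ℝ) := Real.rpow_nonneg (hX0 g) _
    have h8 : 0 ≤ Yg g ^ (1 / q) := Real.rpow_nonneg (hY0 g) _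
    calc (∫ p, A p.1 p.2 g ^ q ∂(τ.prod (volume : Measure G))) ^ (1 / q) *
          (∫ p, H p.1 p.2 g ∂(τ.prod (volume : Measure G))) ^ (1 - 2 / q) *
          (∫ p, H p.1 p.2 g ^ 2 ∂(τ.prod (volume : Measure G))) ^ (1 / q)
        ≤ ((Cφ * (N : ℝ) ^ e) ^ (1 / q) * X g ^ (1 / 2 : ℝ)) * (C0 * m) ^ (1 - 2 / q) *
          Yg g ^ (1 / q) := by
          refine mul_le_mul_of_nonneg_right ?_ h8
          exact mul_le_mul h5 h6 (Real.rpow_nonneg h4 _) (by positivity)
      _ = _ := by ring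
  -- X and Y: measurable and bounded
  have hXc : Continuous X := by
    refine continuous_finsetSum _ fun l hl => ?_
    refine continuous_const.mul ?_
    have h1 : Continuous fun p : G × G => ((‖Cop (T.φ l) (f l) p.1 p.2‖ ^ 2 : ℝ) : ℂ) :=
      Complex.continuous_ofReal.comp ((hccop l hl).norm.pow 2)
    have h2 := cont_int (f := fun z g => ((‖Cop (T.φ l) (f l) z g‖ ^ 2 : ℝ) : ℂ)) h1
    have h3 : (fun g => ∫ z, ‖Cop (T.φ l) (f l) z g‖ ^ 2) =
        fun g => (∫ z, ((‖Cop (T.φ l) (f l) z g‖ ^ 2 : ℝ) : ℂ)).re := by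
      funext g
      rw [integral_complex_ofReal]
      rfl
    rw [h3]
    exact Complex.continuous_re.comp h2
  obtain ⟨BX, hBX⟩ : ∃ B, ∀ g, X g ≤ B := by
    obtain ⟨B, hB⟩ := (isCompact_range hXc).bddAbove
    exact ⟨B, fun g => hB ⟨g, rfl⟩⟩
  have hH2b : ∀ t z g, ‖H t z g ^ 2‖ ≤ Kb ^ 2 := by
    intro t z g
    rw [Real.norm_of_nonneg (by positivity)]
    exact pow_le_pow_left₀ (hH0 _ _ _) (hHb _ _ _) 2
  have hYm : Measurable Yg := by
    have h1 : StronglyMeasurable Yg := by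
      refine StronglyMeasurable.integral_prod_right' (f := fun p : G × (ℝ × G) =>
        H p.2.1 p.2.2 p.1 ^ 2) ?_
      refine Measurable.stronglyMeasurable (Measurable.pow_const ?_ 2)
      exact hHm.comp ((measurable_fst.comp measurable_snd).prodMk
        ((measurable_snd.comp measurable_snd).prodMk measurable_fst))
    exact h1.measurable
  obtain ⟨BY, hBY⟩ : ∃ B, ∀ g, Yg g ≤ B := by
    refine ⟨Kb ^ 2 * (τ.prod (volume : Measure G)).real Set.univ, fun g => ?_⟩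
    have h1 := norm_integral_le_of_norm_le_const (μ := τ.prod (volume : Measure G))
      (f := fun p => H p.1 p.2 g ^ 2) (C := Kb ^ 2) (Filter.Eventually.of_forall fun p => hH2b _ _ _)
    exact (le_abs_self _).trans h1
  have hstep4 : y * m ≤ (Cφ * (N : ℝ) ^ e) ^ (1 / q) * (C0 * m) ^ (1 - 2 / q) *
      ((∫ g, X g) ^ (1 / 2 : ℝ) * (∫ g, Yg g) ^ (1 / q)) := by
    refine hstep3.trans ?_
    have h1 := hol2 (volume : Measure G) hq hXc.measurable hYm hX0 hY0 (B := max BX BY)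
      (fun g => (hBX g).trans (le_max_left _ _)) (fun g => (hBY g).trans (le_max_right _ _))
    have h2 : 0 ≤ (Cφ * (N : ℝ) ^ e) ^ (1 / q) * (C0 * m) ^ (1 - 2 / q) := by positivity
    refine le_trans ?_ (mul_le_mul_of_nonneg_left h1 h2)
    rw [← integral_const_mul]
    refine integral_mono_of_nonneg (Filter.Eventually.of_forall fun g =>
      integral_nonneg fun p => mul_nonneg (hA0 _ _ _) (hH0 _ _ _)) ?_
      (Filter.Eventually.of_forall fun g => hg g)
    refine Integrable.const_mul ?_ _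
    refine tw_int _ (B := BX ^ (1 / 2 : ℝ) * BY ^ (1 / q))
      ((hXc.measurable.pow_const _).mul (hYm.pow_const _)) fun g => ?_
    rw [Real.norm_of_nonneg (mul_nonneg (Real.rpow_nonneg (hX0 g) _) (Real.rpow_nonneg (hY0 g) _))]
    exact mul_le_mul (Real.rpow_le_rpow (hX0 g) (hBX g) (by norm_num))
      (Real.rpow_le_rpow (hY0 g) (hBY g) (by positivity)) (Real.rpow_nonneg (hY0 g) _)
      (Real.rpow_nonneg ((hX0 g).trans (hBX g)) _)
  -- the integral of X
  set S : ℝ := ∑ l ∈ F, ∫ x, ‖f l x‖ ^ 2 with hS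
  have hS0 : 0 ≤ S := Finset.sum_nonneg fun l _ => integral_nonneg fun x => by positivity
  have hXint : ∫ g, X g ≤ C0 ^ (6 - 2 / q) * P.D ^ (2 - 2 / q) * S := by
    have hi : ∀ l ∈ F, Integrable fun g => a l ^ 2 * T.d l ^ (1 - 2 / q) *
        ∫ z, ‖Cop (T.φ l) (f l) z g‖ ^ 2 := by
      intro l hl
      refine Integrable.const_mul ?_ _
      have h1 : Continuous fun p : G × G => ‖Cop (T.φ l) (f l) p.2 p.1‖ ^ 2 :=
        ((hccop l hl).comp continuous_swap).norm.pow 2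
      refine tw_int _ (B := Bc l ^ 2) ?_ fun g => ?_
      · exact (h1.measurable.stronglyMeasurable.integral_prod_right'
          (ν := (volume : Measure G))).measurable
      · have h2 := norm_integral_le_of_norm_le_const (μ := (volume : Measure G))
          (f := fun z => ‖Cop (T.φ l) (f l) z g‖ ^ 2) (C := Bc l ^ 2)
          (Filter.Eventually.of_forall fun z => by
            rw [Real.norm_of_nonneg (by positivity)]
            exact pow_le_pow_left₀ (norm_nonneg _) (hBc l hl z g) 2)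
        simpa using h2
    rw [hX, integral_finsetSum _ hi, hS, Finset.mul_sum]
    refine Finset.sum_le_sum fun l hl => ?_
    rw [integral_const_mul, cop_sq T l (hf l hl)]
    have hd := hd0 l
    have hκ := hκpos l hl
    have hI : 0 ≤ ∫ x, ‖f l x‖ ^ 2 := integral_nonneg fun x => by positivity
    have h1 : a l ^ 2 * T.d l ^ (1 - 2 / q) * ((∫ x, ‖f l x‖ ^ 2) / T.d l ^ 3) =
        (T.d l ^ (4 - 2 / q) / P.κ l ^ 2) * ∫ x, ‖f l x‖ ^ 2 := by
      have h2 : T.d l ^ (4 - 2 / q) = T.d l ^ 3 * T.d l ^ (1 - 2 / q) := by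
        rw [← Real.rpow_natCast, ← Real.rpow_add hd]
        congr 1
        push_cast
        ring
      rw [h2, ← ha]
      field_simp
    rw [h1]
    refine mul_le_mul_of_nonneg_right ?_ hI
    have h3 := P.d_le l (hF hl)
    have h4 := P.κ_ge l (hF hl)
    have h46 : 0 ≤ 4 - 2 / q := by
      have : 2 / q ≤ 1 := by rw [div_le_one hq0]; exact hq.le
      linarith
    rw [div_le_iff₀ (by positivity)]
    calc T.d l ^ (4 - 2 / q) ≤ (C0 * P.D) ^ (4 - 2 / q) := Real.rpow_le_rpow hd.le h3 h46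
      _ = C0 ^ (4 - 2 / q) * P.D ^ (2 - 2 / q) * P.D ^ 2 := by
          rw [Real.mul_rpow hC00.le hD0.le, mul_assoc, ← Real.rpow_natCast, ← Real.rpow_add hD0]
          congr 2
          push_cast
          ring
      _ ≤ C0 ^ (4 - 2 / q) * P.D ^ (2 - 2 / q) * (C0 * P.κ l) ^ 2 := by
          refine mul_le_mul_of_nonneg_left ?_ (by positivity)
          exact pow_le_pow_left₀ hD0.le h4 2
      _ = C0 ^ (6 - 2 / q) * P.D ^ (2 - 2 / q) * P.κ l ^ 2 := by
          have h5 : C0 ^ (6 - 2 / q) = C0 ^ (4 - 2 / q) * C0 ^ 2 := by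
            rw [← Real.rpow_natCast, ← Real.rpow_add hC00]
            congr 1
            push_cast
            ring
          rw [h5]
          ring
  -- the integral of Y
  have hYint : ∫ g, Yg g ≤ C0 ^ 5 / P.D * m := by
    have h1 : ∫ g, Yg g =
        ∫ t, ∫ g, ∫ z, H t z g ^ 2 ∂(volume : Measure G) ∂(volume : Measure G) ∂τ := by
      rw [hswap (fun p => H p.1 p.2.1 p.2.2 ^ 2) (Kb ^ 2) (hHm.pow_const 2) fun p => hH2b _ _ _]
    rw [h1, ← hm_t, ← integral_const_mul]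
    have hBκ : ∀ l ∈ P.supp, P.κ l ^ 2 ≤ C0 ^ 5 / P.D * T.d l ^ 3 := by
      intro l hl
      have h2 := P.κ_le l hl
      have h3 := P.le_d l hl
      have h4 : P.κ l ^ 2 ≤ (C0 * P.D) ^ 2 := by
        rw [← sq_abs (P.κ l)]
        exact pow_le_pow_left₀ (abs_nonneg _) h2 2
      have h5 : P.D ^ 3 ≤ (C0 * T.d l) ^ 3 := pow_le_pow_left₀ hD0.le h3 3
      rw [div_mul_eq_mul_div, le_div_iff₀ hD0]
      calc P.κ l ^ 2 * P.D ≤ (C0 * P.D) ^ 2 * P.D := mul_le_mul_of_nonneg_right h4 hD0.le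
        _ = C0 ^ 2 * P.D ^ 3 := by ring
        _ ≤ C0 ^ 2 * (C0 * T.d l) ^ 3 := mul_le_mul_of_nonneg_left h5 (by positivity)
        _ = C0 ^ 5 * T.d l ^ 3 := by ring
    refine integral_mono_of_nonneg (Filter.Eventually.of_forall fun t =>
      integral_nonneg fun g => integral_nonneg fun z => by positivity)
      ((hhint.integral_prod_left).const_mul _) (Filter.Eventually.of_forall fun t => ?_)
    have h6 := cop_L2 T P.supp P.κ (B := C0 ^ 5 / P.D) (by positivity) hBκ (hht t) (hhb t)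
    simp only [hk, hH] at h6
    refine h6.trans (le_of_eq ?_)
    congr 1
    refine integral_congr_ae (Filter.Eventually.of_forall fun x => ?_)
    simp only [hhn]
    split_ifs <;> norm_num
  have hXi0 : 0 ≤ ∫ g, X g := integral_nonneg hX0
  have hYi0 : 0 ≤ ∫ g, Yg g := integral_nonneg hY0
  have hfinal : y * m ≤ (Cφ * (N : ℝ) ^ e) ^ (1 / q) * (C0 * m) ^ (1 - 2 / q) *
      ((C0 ^ (6 - 2 / q) * P.D ^ (2 - 2 / q) * S) ^ (1 / 2 : ℝ) *
        (C0 ^ 5 / P.D * m) ^ (1 / q)) := by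
    refine hstep4.trans (mul_le_mul_of_nonneg_left ?_ (by positivity))
    exact mul_le_mul (Real.rpow_le_rpow hXi0 hXint (by norm_num))
      (Real.rpow_le_rpow hYi0 hYint (by positivity)) (Real.rpow_nonneg hYi0 _) (by positivity)
  exact tw_alg hq hy hm0 hCφ hNe hC0 hD0 hS0 hfinal

end STC
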